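import Pool.Agent.Lib.MP_50ecf8_co.LOC.Spec3

/-!
# BAD4: the labellings which are bad for one vertex
-/

set_option autoImplicit false

open Finset
open scoped Classical

namespace Pool.Agent.Lib.MP50ecf8.LOC

namespace BAD4M

variable {V : Type} [Fintype V]

/-- the labellings without the label `0` on `S` -/
noncomputable def avo (K : ℕ) (S : Finset V) : Finset (V → Fin (K + 1)) :=
  univ.filter fun f => ∀ z ∈ S, f z ≠ 0

theorem card_avo (K : ℕ) (S : Finset V) : ((avo K S).card : ℝ) =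
    ((K + 1 : ℕ) : ℝ) ^ Fintype.card V * (1 - 1 / ((K : ℝ) + 1)) ^ S.card := by
  have h1 : avo K S = Fintype.piFinset
      (fun v => if v ∈ S then (univ : Finset (Fin (K + 1))).erase 0 else univ) := by
    ext f
    rw [avo, mem_filter, Fintype.mem_piFinset]
    constructor
    · rintro ⟨_, h⟩ v
      split_ifs with hv
      · rw [mem_erase]
        exact ⟨h v hv, mem_univ _⟩
      · exact mem_univ _
    · intro h
      refine ⟨mem_univ _, fun z hz => ?_⟩
      have := h z
      rw [if_pos hz, mem_erase] at this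
      exact this.1
  have h2 : ∀ v : V, (((if v ∈ S then (univ : Finset (Fin (K + 1))).erase 0 else univ).card : ℕ)
      : ℝ) = ((K + 1 : ℕ) : ℝ) * (if v ∈ S then (1 - 1 / ((K : ℝ) + 1)) else 1) := by
    intro v
    split_ifs
    · rw [card_erase_of_mem (mem_univ _), card_univ, Fintype.card_fin]
      push_cast
      have : (K : ℝ) + 1 ≠ 0 := by positivity
      field_simp
      simp
    · rw [card_univ, Fintype.card_fin, mul_one]
  rw [h1, Fintype.card_piFinset, Nat.cast_prod, prod_congr rfl fun v _ => h2 v,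
    prod_mul_distrib, prod_const, card_univ, prod_ite_mem, univ_inter, prod_const]

/-- both sets are met -/
def hit {K : ℕ} (P Q : V → Finset V) (f : V → Fin (K + 1)) (y : V) : Prop :=
  (∃ z ∈ P y, f z = 0) ∧ (∃ z ∈ Q y, f z = 0)

theorem nh_eq (K : ℕ) (P Q : V → Finset V) (y : V) :
    (univ.filter fun f : V → Fin (K + 1) => ¬ hit P Q f y) = avo K (P y) ∪ avo K (Q y) := by
  ext f
  rw [mem_union, avo, avo, mem_filter, mem_filter, mem_filter, hit, not_and_or]
  push Not
  simp only [mem_univ, true_and]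

theorem card_nh (K h : ℕ) (P Q : V → Finset V) (y : V) (hP : (P y).card = h)
    (hQ : (Q y).card = h) (hd : Disjoint (P y) (Q y)) :
    ((univ.filter fun f : V → Fin (K + 1) => ¬ hit P Q f y).card : ℝ) =
      ((K + 1 : ℕ) : ℝ) ^ Fintype.card V *
        (1 - (1 - (1 - 1 / ((K : ℝ) + 1)) ^ h) ^ 2) := by
  have h1 := card_union_add_card_inter (avo K (P y)) (avo K (Q y))
  have h2 : avo K (P y) ∩ avo K (Q y) = avo K (P y ∪ Q y) := by
    ext f
    simp only [avo, mem_inter, mem_filter, mem_univ, true_and, mem_union]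
    constructor
    · rintro ⟨a, b⟩ z (hz | hz)
      · exact a z hz
      · exact b z hz
    · intro a
      exact ⟨fun z hz => a z (Or.inl hz), fun z hz => a z (Or.inr hz)⟩
  rw [h2] at h1
  have h3 : ((avo K (P y) ∪ avo K (Q y)).card : ℝ) + (avo K (P y ∪ Q y)).card =
      (avo K (P y)).card + (avo K (Q y)).card := by exact_mod_cast h1
  rw [nh_eq, card_avo, card_avo, card_avo, card_union_of_disjoint hd, hP, hQ, pow_add] at *
  linarith [h3]

theorem card_all (hIND : SpecIND) (K h : ℕ) (Y : Finset V) (P Q : V → Finset V)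
    (h1 : ∀ y ∈ Y, (P y).card = h ∧ (Q y).card = h ∧ Disjoint (P y) (Q y))
    (h2 : ∀ y ∈ Y, ∀ y' ∈ Y, y ≠ y' → Disjoint (P y ∪ Q y) (P y' ∪ Q y')) (Z : Finset V)
    (hZ : Z ⊆ Y) :
    ((univ.filter fun f : V → Fin (K + 1) => ∀ y ∈ Z, ¬ hit P Q f y).card : ℝ) =
      ((K + 1 : ℕ) : ℝ) ^ Fintype.card V *
        (1 - (1 - (1 - 1 / ((K : ℝ) + 1)) ^ h) ^ 2) ^ Z.card := by
  induction Z using Finset.induction_on with
  | empty => simp
  | insert y Z hy ih =>
    have hyY : y ∈ Y := hZ (mem_insert_self y Z)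
    have hZY : Z ⊆ Y := fun z hz => hZ (mem_insert_of_mem hz)
    have e : (univ.filter fun f : V → Fin (K + 1) => ∀ y' ∈ insert y Z, ¬ hit P Q f y') =
        (univ.filter fun f : V → Fin (K + 1) => ∀ y' ∈ Z, ¬ hit P Q f y') ∩
          (univ.filter fun f : V → Fin (K + 1) => ¬ hit P Q f y) := by
      ext f
      rw [mem_inter, mem_filter, mem_filter, mem_filter, forall_mem_insert]
      simp only [mem_univ, true_and]
      exact and_comm
    have hi := hIND V K (P y ∪ Q y)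
      (univ.filter fun f : V → Fin (K + 1) => ∀ y' ∈ Z, ¬ hit P Q f y')
      (univ.filter fun f : V → Fin (K + 1) => ¬ hit P Q f y) (by
        intro f g hfg hf
        rw [mem_filter] at hf ⊢
        refine ⟨mem_univ _, fun y' hy' hh => hf.2 y' hy' ?_⟩
        have hd := h2 y hyY y' (hZY hy') (fun h => hy (h ▸ hy'))
        rw [Finset.disjoint_left] at hd
        obtain ⟨⟨z, hz, hz0⟩, ⟨w, hw, hw0⟩⟩ := hh
        refine ⟨⟨z, hz, ?_⟩, ⟨w, hw, ?_⟩⟩
        · rw [hfg z fun h => hd h (mem_union_left _ hz)]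
          exact hz0
        · rw [hfg w fun h => hd h (mem_union_right _ hw)]
          exact hw0) (by
        intro f g hfg hf
        rw [mem_filter] at hf ⊢
        refine ⟨mem_univ _, fun hh => hf.2 ?_⟩
        obtain ⟨⟨z, hz, hz0⟩, ⟨w, hw, hw0⟩⟩ := hh
        refine ⟨⟨z, hz, ?_⟩, ⟨w, hw, ?_⟩⟩
        · rw [hfg z (mem_union_left _ hz)]
          exact hz0
        · rw [hfg w (mem_union_right _ hw)]
          exact hw0)
    have hi' : (((univ.filter fun f : V → Fin (K + 1) => ∀ y' ∈ Z, ¬ hit P Q f y') ∩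
        (univ.filter fun f : V → Fin (K + 1) => ¬ hit P Q f y)).card : ℝ) *
          ((K + 1 : ℕ) : ℝ) ^ Fintype.card V =
        ((univ.filter fun f : V → Fin (K + 1) => ∀ y' ∈ Z, ¬ hit P Q f y').card : ℝ) *
          ((univ.filter fun f : V → Fin (K + 1) => ¬ hit P Q f y).card : ℝ) := by
      exact_mod_cast hi
    obtain ⟨a1, a2, a3⟩ := h1 y hyY
    rw [ih hZY, card_nh K h P Q y a1 a2 a3] at hi'
    have hN : (((K + 1 : ℕ) : ℝ) ^ Fintype.card V) ≠ 0 := by positivity
    rw [e, card_insert_of_notMem hy, pow_succ]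
    refine mul_right_cancel₀ hN ?_
    rw [hi']
    ring

end BAD4M

open BAD4M in
theorem specBAD4 (hIND : SpecIND) : SpecBAD4 := by
  intro V _ K h d Y P Q hY hd h1 h2
  set ρ : ℝ := 1 - (1 - (1 - 1 / ((K : ℝ) + 1)) ^ h) ^ 2 with hρ
  have hsub : (univ.filter fun f : V → Fin (K + 1) =>
      (Y.filter fun y => (∃ z ∈ P y, f z = 0) ∧ (∃ z ∈ Q y, f z = 0)).card ≤ 1) ⊆
      Y.biUnion fun y₀ => univ.filter fun f : V → Fin (K + 1) =>
        ∀ y ∈ Y.erase y₀, ¬ hit P Q f y := by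
    intro f hf
    rw [mem_filter] at hf
    rw [mem_biUnion]
    rcases (Y.filter fun y => (∃ z ∈ P y, f z = 0) ∧ (∃ z ∈ Q y, f z = 0)).eq_empty_or_nonempty
      with he | ⟨y₀, hy₀⟩
    · have hne : Y.Nonempty := by
        rw [← card_pos]
        omega
      obtain ⟨y₀, hy₀⟩ := hne
      refine ⟨y₀, hy₀, ?_⟩
      rw [mem_filter]
      refine ⟨mem_univ _, fun y hy hh => ?_⟩
      have : y ∈ Y.filter fun y => (∃ z ∈ P y, f z = 0) ∧ (∃ z ∈ Q y, f z = 0) :=
        mem_filter.2 ⟨mem_of_mem_erase hy, hh⟩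
      rw [he] at this
      exact absurd this (notMem_empty _)
    · refine ⟨y₀, (mem_filter.1 hy₀).1, ?_⟩
      rw [mem_filter]
      refine ⟨mem_univ _, fun y hy hh => ?_⟩
      have hy' : y ∈ Y.filter fun y => (∃ z ∈ P y, f z = 0) ∧ (∃ z ∈ Q y, f z = 0) :=
        mem_filter.2 ⟨mem_of_mem_erase hy, hh⟩
      exact ne_of_mem_erase hy (card_le_one.1 hf.2 y hy' y₀ hy₀)
  have h3 : ((univ.filter fun f : V → Fin (K + 1) =>
      (Y.filter fun y => (∃ z ∈ P y, f z = 0) ∧ (∃ z ∈ Q y, f z = 0)).card ≤ 1).card : ℝ) ≤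
      ∑ y₀ ∈ Y, ((univ.filter fun f : V → Fin (K + 1) =>
        ∀ y ∈ Y.erase y₀, ¬ hit P Q f y).card : ℝ) := by
    exact_mod_cast (card_le_card hsub).trans card_biUnion_le
  refine h3.trans (le_of_eq ?_)
  have h4 : ∀ y₀ ∈ Y, ((univ.filter fun f : V → Fin (K + 1) =>
      ∀ y ∈ Y.erase y₀, ¬ hit P Q f y).card : ℝ) =
        ((K + 1 : ℕ) : ℝ) ^ Fintype.card V * ρ ^ (d - 1) := by
    intro y₀ hy₀
    rw [card_all hIND K h Y P Q h1 h2 (Y.erase y₀) (erase_subset _ _), card_erase_of_mem hy₀,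
      hY]
  rw [sum_congr rfl h4, sum_const, hY, nsmul_eq_mul]
  ring

end Pool.Agent.Lib.MP50ecf8.LOC
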