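import Pool.Agent.Lib.MP_50ecf8_co.LOC.Spec5

/-! # Module BCT: the base of the count. -/

set_option autoImplicit false

open Finset
open scoped Classical

namespace Pool.Agent.Lib.MP50ecf8.LOC

namespace BCTM

variable {V : Type} [Fintype V] {G : SimpleGraph V} {T X : Finset V} {k : ℕ}
  {h J : Finset (V × V)}

omit [Fintype V] in
lemma trace (hLoc : LocT G X) (hhX : h.image Prod.fst = X) {x x' y : V} (hx : x ∉ X)
    (hx' : x' ∉ X) (hc : ∀ z ∈ h, Cmp G (x, y) z) (hc' : ∀ z ∈ h, Cmp G (x', y) z) :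
    Tw G x x' := by
  by_contra hn
  obtain ⟨w, hw, hne⟩ := hLoc x hx x' hx' hn
  rw [← hhX, Finset.mem_image] at hw
  obtain ⟨z, hz, rfl⟩ := hw
  apply hne
  have h2 := (hc z hz).2
  have h3 := (hc' z hz).2
  simp only at h2 h3
  rw [G.adj_comm z.1 x, G.adj_comm z.1 x', h2, h3]

lemma mem_AdT {Y : Finset V} : J ∈ AdT G T X k Y h ↔ Good G J ∧ Closed G J ∧
    J.filter (fun u => u.1 ∈ Y) = h ∧ X ⊆ J.image Prod.fst ∧ univ \ T ⊆ J.image Prod.fst ∧
    J.card + k = Fintype.card V := by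
  simp [AdT]

omit [Fintype V] in
lemma snd_inj (hg : Good G J) : Set.InjOn Prod.snd (J : Set (V × V)) := by
  intro u hu w hw huw
  exact Prod.ext ((hg u (by simpa using hu) w (by simpa using hw)).1.mpr huw) huw

/-- the second part of the state, at the vertex `x` -/
def R (G : SimpleGraph V) (J : Finset (V × V)) (x y : V) : Prop :=
  (y ∈ J.image Prod.snd → x ∈ J.image Prod.fst) ∧
    (y ∉ J.image Prod.snd → x ∉ J.image Prod.fst ∧ ∀ z ∈ J, Cmp G (x, y) z)

/-- the second part of the state -/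
def Q (G : SimpleGraph V) (T X : Finset V) (h J : Finset (V × V)) (y : V) : Prop :=
  y ∈ UT G X h → ∃ x ∈ T, x ∉ X ∧ (∀ z ∈ h, Cmp G (x, y) z) ∧ R G J x y

lemma mem_UT (hCl : ClT G T X) {x y : V} (hxT : x ∈ T) (hxX : x ∉ X)
    (hc : ∀ z ∈ h, Cmp G (x, y) z) : y ∈ UT G X h := by
  rw [UT, Finset.mem_filter]
  exact ⟨Finset.mem_univ _, x, fun u hu ht => hxX (hCl u hu x hxT ht), hc⟩

lemma Q_iff (hT : Trv G T) (hLoc : LocT G X) (hCl : ClT G T X) (hhX : h.image Prod.fst = X)
    {x y : V} (hxT : x ∈ T) (hxX : x ∉ X) (hc : ∀ z ∈ h, Cmp G (x, y) z) :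
    Q G T X h J y ↔ R G J x y := by
  constructor
  · intro hQ
    obtain ⟨x', hx'T, hx'X, hc', hR⟩ := hQ (mem_UT hCl hxT hxX hc)
    have h1 : x' = x := hT.2 x' hx'T x hxT (trace hLoc hhX hx'X hxX hc' hc)
    rw [← h1]
    exact hR
  · intro hR _
    exact ⟨x, hxT, hxX, hc, hR⟩

end BCTM

open BCTM

theorem specBCT (hDET : SpecDET) : SpecBCT := by
  intro V _ G T X k h hT hLoc hCl hhX D κ hD hκ
  rcases (AdT G T X k X h).eq_empty_or_nonempty with h0 | ⟨J₀, hJ₀⟩
  · rw [FT, h0]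
    simp
  -- the vertices outside the image of `J₀`
  set M : Finset V := univ \ J₀.image Prod.snd with hM
  have hJ₀c := (mem_AdT.mp hJ₀).2.2.2.2.2
  have hMc : M.card = k := by
    rw [hM, Finset.card_univ_diff, Finset.card_image_of_injOn (snd_inj (mem_AdT.mp hJ₀).1)]
    omega
  have hmM : ∀ y, y ∈ M ↔ y ∉ J₀.image Prod.snd := by
    intro y
    rw [hM, Finset.mem_sdiff]
    exact ⟨fun h => h.2, fun h => ⟨Finset.mem_univ _, h⟩⟩
  set M' : Finset V := M.filter (fun y => y ∉ UT G X h) with hM'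
  have hκM : κ ≤ M'.card := by
    refine (hκ J₀ hJ₀).trans (Finset.card_le_card ?_)
    intro y hy
    obtain ⟨hy1, hy2⟩ := Finset.mem_sdiff.mp hy
    exact Finset.mem_filter.mpr ⟨(hmM y).mpr hy2, hD y hy1⟩
  have hM'M : M'.card ≤ M.card := Finset.card_le_card (Finset.filter_subset _ _)
  -- the states
  let st : Finset (V × V) → (M → Bool × Bool) := fun J y =>
    (decide ((y : V) ∈ J.image Prod.snd), decide (Q G T X h J (y : V)))
  have hst : ∀ J J', st J = st J' → ∀ y, y ∉ J₀.image Prod.snd →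
      (y ∈ J.image Prod.snd ↔ y ∈ J'.image Prod.snd) ∧ (Q G T X h J y ↔ Q G T X h J' y) := by
    intro J J' he y hy
    have h1 := congrFun he ⟨y, (hmM y).mpr hy⟩
    have h2 := congrArg Prod.fst h1
    have h3 := congrArg Prod.snd h1
    exact ⟨decide_eq_decide.mp h2, decide_eq_decide.mp h3⟩
  have key : ∀ J₁ ∈ AdT G T X k X h, ∀ J₂ ∈ AdT G T X k X h, st J₁ = st J₂ →
      J₁.image Prod.fst ⊆ J₂.image Prod.fst := by
    intro J₁ hJ₁ J₂ hJ₂ he
    refine hDET V G T X k h hT hLoc hCl hhX J₀ hJ₀ J₁ hJ₁ J₂ hJ₂ ?_ ?_ ?_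
    · intro y hy
      exact (hst J₁ J₂ he y hy).1
    · intro y hy x hxT hxX hc hy1
      obtain ⟨e1, e2⟩ := hst J₁ J₂ he y hy
      have hy2 := e1.mp hy1
      rw [Q_iff hT hLoc hCl hhX hxT hxX hc, Q_iff hT hLoc hCl hhX hxT hxX hc] at e2
      constructor
      · intro hx1
        exact (e2.mp ⟨fun _ => hx1, fun hn => absurd hy1 hn⟩).1 hy2
      · intro hx2
        exact (e2.mpr ⟨fun _ => hx2, fun hn => absurd hy2 hn⟩).1 hy1
    · intro y hy x hxT hxX hc hy1
      obtain ⟨e1, e2⟩ := hst J₁ J₂ he y hy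
      have hy2 : y ∉ J₂.image Prod.snd := fun hh => hy1 (e1.mpr hh)
      rw [Q_iff hT hLoc hCl hhX hxT hxX hc, Q_iff hT hLoc hCl hhX hxT hxX hc] at e2
      constructor
      · intro hx1
        exact (e2.mp ⟨fun hh => absurd hh hy1, fun _ => hx1⟩).2 hy2
      · intro hx2
        exact (e2.mpr ⟨fun hh => absurd hh hy2, fun _ => hx2⟩).2 hy1
  -- counting
  let P : Finset (M → Bool × Bool) := Fintype.piFinset fun y : M =>
    if (y : V) ∈ UT G X h then univ else {(true, true), (false, true)}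
  have hstP : ∀ J, st J ∈ P := by
    intro J
    rw [Fintype.mem_piFinset]
    intro y
    by_cases hy : (y : V) ∈ UT G X h
    · rw [if_pos hy]
      exact Finset.mem_univ _
    · rw [if_neg hy]
      have hQ : Q G T X h J (y : V) := fun hh => absurd hh hy
      have h1 : st J y = (decide ((y : V) ∈ J.image Prod.snd), true) :=
        Prod.ext rfl (decide_eq_true hQ)
      rw [h1, Finset.mem_insert, Finset.mem_singleton]
      cases decide ((y : V) ∈ J.image Prod.snd)
      · exact Or.inr rfl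
      · exact Or.inl rfl
  have hPc : P.card = 2 ^ M'.card * 4 ^ (M.card - M'.card) := by
    rw [Fintype.card_piFinset]
    have h1 : ∀ y : M, (if (y : V) ∈ UT G X h then (univ : Finset (Bool × Bool))
        else {(true, true), (false, true)}).card = if (y : V) ∈ UT G X h then 4 else 2 := by
      intro y
      split_ifs
      · rfl
      · rfl
    rw [Finset.prod_congr rfl (fun y _ => h1 y)]
    have h2 : (∏ y : M, if (y : V) ∈ UT G X h then 4 else 2) =
        ∏ y ∈ M, if y ∈ UT G X h then 4 else 2 :=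
      Finset.prod_coe_sort M (fun y => if y ∈ UT G X h then 4 else 2)
    have h3 := Finset.card_filter_add_card_filter_not (s := M) (fun y => y ∈ UT G X h)
    have h4 : (M.filter fun y => ¬ y ∈ UT G X h).card = M'.card := by
      rw [hM']
    rw [h2, Finset.prod_ite, Finset.prod_const, Finset.prod_const, mul_comm]
    rw [h4] at h3 ⊢
    rw [← h3, Nat.add_sub_cancel]
  have hle : (FT G T X k X h).card ≤ P.card := by
    have hch : ∀ S ∈ FT G T X k X h, ∃ J, J ∈ AdT G T X k X h ∧ J.image Prod.fst = S := by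
      intro S hS
      rw [FT] at hS
      obtain ⟨J, hJ, hJS⟩ := Finset.mem_image.mp hS
      exact ⟨J, hJ, hJS⟩
    choose! f hf1 hf2 using hch
    refine Finset.card_le_card_of_injOn (fun S => st (f S)) (fun S _ => hstP _) ?_
    intro S hS S' hS' he
    have h1 : S ∈ FT G T X k X h := hS
    have h2 : S' ∈ FT G T X k X h := hS'
    rw [← hf2 S h1, ← hf2 S' h2]
    exact Finset.Subset.antisymm (key _ (hf1 S h1) _ (hf1 S' h2) he)
      (key _ (hf1 S' h2) _ (hf1 S h1) he.symm)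
  rw [hPc] at hle
  calc 2 ^ κ * (FT G T X k X h).card
      ≤ 2 ^ M'.card * (2 ^ M'.card * 4 ^ (M.card - M'.card)) :=
        Nat.mul_le_mul (Nat.pow_le_pow_right (by norm_num) hκM) hle
    _ = 4 ^ M'.card * 4 ^ (M.card - M'.card) := by
        rw [← mul_assoc, ← mul_pow]
        norm_num
    _ = 4 ^ k := by
        rw [← pow_add, Nat.add_sub_cancel' hM'M, hMc]

end Pool.Agent.Lib.MP50ecf8.LOC
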