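import Pool.Agent.Lib.MP_50ecf8_co.LOC.Spec3

/-!
# BON: a small locating set reached from the seed (after Bondy)
-/

set_option autoImplicit false

open Finset
open scoped Classical

namespace Pool.Agent.Lib.MP50ecf8.LOC

namespace BONM

variable {V : Type} {G : SimpleGraph V}

theorem uniq_mono {X Y : Finset V} {c : V} (hXY : X ⊆ Y) (h : Uniq G X c) : Uniq G Y c := by
  intro u hu huc
  obtain ⟨w, hw, hw'⟩ := h u (fun h' => hu (hXY h')) huc
  exact ⟨w, hXY hw, hw'⟩

theorem reach {X₀ : Finset V} (P : Finset V) (hP : ∀ c ∈ P, c ∉ X₀ ∧ Uniq G X₀ c) :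
    Reach G X₀ (X₀ ∪ P) := by
  induction P using Finset.induction_on with
  | empty => rw [Finset.union_empty]; exact Reach.base
  | @insert x P hx ih =>
    have h1 := ih fun c hc => hP c (mem_insert_of_mem hc)
    have h2 := hP x (mem_insert_self x P)
    rw [Finset.union_insert]
    refine Reach.step h1 ?_ (uniq_mono subset_union_left h2.2)
    rw [mem_union, not_or]
    exact ⟨h2.1, hx⟩

/-- the trace of `v` -/
noncomputable def tr (G : SimpleGraph V) (Y : Finset V) (v : V) : Finset V :=
  Y.filter fun w => G.Adj w v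

theorem tr_filter {Y Y' : Finset V} (h : Y ⊆ Y') (v : V) :
    (tr G Y' v).filter (· ∈ Y) = tr G Y v := by
  ext w
  unfold tr
  rw [mem_filter, mem_filter, mem_filter]
  constructor
  · rintro ⟨⟨-, h2⟩, h3⟩
    exact ⟨h3, h2⟩
  · rintro ⟨h1, h2⟩
    exact ⟨⟨h h1, h2⟩, h1⟩

theorem grow {O Y Y' : Finset V} (h : Y ⊆ Y') {u v w : V} (hu : u ∈ O) (hv : v ∈ O)
    (huv : tr G Y u = tr G Y v) (hw : w ∈ Y') (hw' : ¬(G.Adj w u ↔ G.Adj w v)) :
    (O.image (tr G Y)).card + 1 ≤ (O.image (tr G Y')).card := by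
  have h1 : O.image (tr G Y) = (O.image (tr G Y')).image (fun T => T.filter (· ∈ Y)) := by
    rw [Finset.image_image]
    apply Finset.image_congr
    intro x _
    exact (tr_filter h x).symm
  have h2 : ((O.image (tr G Y')).image (fun T => T.filter (· ∈ Y))).card ≤
      (O.image (tr G Y')).card := Finset.card_image_le
  have h3 : ((O.image (tr G Y')).image (fun T => T.filter (· ∈ Y))).card ≠
      (O.image (tr G Y')).card := by
    intro h4
    have h5 := Finset.card_image_iff.mp h4
    have h6 : tr G Y' u = tr G Y' v := by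
      apply h5
      · exact mem_coe.mpr (mem_image_of_mem _ hu)
      · exact mem_coe.mpr (mem_image_of_mem _ hv)
      · show (tr G Y' u).filter (· ∈ Y) = (tr G Y' v).filter (· ∈ Y)
        rw [tr_filter h, tr_filter h, huv]
    apply hw'
    constructor
    · intro h7
      have h8 : w ∈ tr G Y' u := mem_filter.mpr ⟨hw, h7⟩
      rw [h6] at h8
      exact (mem_filter.mp h8).2
    · intro h7
      have h8 : w ∈ tr G Y' v := mem_filter.mpr ⟨hw, h7⟩
      rw [← h6] at h8
      exact (mem_filter.mp h8).2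
  rw [h1]
  omega

end BONM

open BONM in
theorem specBON : SpecBON := by
  intro V _ G X₀ C hC hloc
  obtain ⟨O, hO⟩ : ∃ O : Finset V, O = univ \ (X₀ ∪ C) := ⟨_, rfl⟩
  -- a maximal set
  obtain ⟨P, hP, hmax⟩ := Finset.exists_max_image
    ((C \ X₀).powerset.filter fun P => P.card ≤ (O.image (tr G (X₀ ∪ P))).card)
    Finset.card ⟨∅, by simp⟩
  rw [mem_filter, mem_powerset] at hP
  obtain ⟨hPC, hPt⟩ := hP
  have hsep : ∀ u ∈ O, ∀ v ∈ O, u ≠ v → tr G (X₀ ∪ P) u ≠ tr G (X₀ ∪ P) v := by
    intro u hu v hv huv heq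
    have hu' : u ∉ X₀ ∪ C := by
      rw [hO, mem_sdiff] at hu
      exact hu.2
    have hv' : v ∉ X₀ ∪ C := by
      rw [hO, mem_sdiff] at hv
      exact hv.2
    obtain ⟨w, hw, hw'⟩ := hloc u hu' v hv' huv
    have hwP : w ∉ X₀ ∪ P := by
      intro h
      apply hw'
      constructor
      · intro h7
        have h8 : w ∈ tr G (X₀ ∪ P) u := mem_filter.mpr ⟨h, h7⟩
        rw [heq] at h8
        exact (mem_filter.mp h8).2
      · intro h7
        have h8 : w ∈ tr G (X₀ ∪ P) v := mem_filter.mpr ⟨h, h7⟩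
        rw [← heq] at h8
        exact (mem_filter.mp h8).2
    rw [mem_union, not_or] at hwP
    have hwC : w ∈ C \ X₀ := by
      rw [mem_sdiff]
      exact ⟨(mem_union.mp hw).resolve_left hwP.1, hwP.1⟩
    have hsub : X₀ ∪ P ⊆ X₀ ∪ insert w P := union_subset_union_right (subset_insert w P)
    have h1 := grow (G := G) hsub hu hv heq
      (mem_union_right _ (mem_insert_self w P)) hw'
    have h2 := hmax (insert w P) (by
      rw [mem_filter, mem_powerset]
      refine ⟨insert_subset hwC hPC, ?_⟩
      rw [card_insert_of_notMem hwP.2]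
      omega)
    rw [card_insert_of_notMem hwP.2] at h2
    omega
  have hPO : P.card ≤ O.card := hPt.trans card_image_le
  have hPC' : P.card ≤ (C \ X₀).card := card_le_card hPC
  have hdisj : Disjoint X₀ P := by
    rw [Finset.disjoint_left]
    intro x hx hxP
    exact (mem_sdiff.mp (hPC hxP)).2 hx
  have hcard : (X₀ ∪ P).card = X₀.card + P.card := card_union_of_disjoint hdisj
  have hV : Fintype.card V = X₀.card + (C \ X₀).card + O.card := by
    have h1 : (univ \ (X₀ ∪ C)).card + (X₀ ∪ C).card = (univ : Finset V).card :=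
      card_sdiff_add_card_eq_card (subset_univ _)
    have h2 : (X₀ ∪ C).card = X₀.card + (C \ X₀).card := by
      rw [← union_sdiff_self_eq_union, card_union_of_disjoint disjoint_sdiff]
    rw [← hO, card_univ] at h1
    omega
  refine ⟨X₀ ∪ P, subset_union_left, reach P ?_, ?_, ?_⟩
  · intro c hc
    have := mem_sdiff.mp (hPC hc)
    exact ⟨this.2, hC c this.1 this.2⟩
  · intro u hu v hv huv
    rw [mem_union, not_or] at hu hv
    by_cases huC : u ∈ C
    · obtain ⟨w, hw, hw'⟩ := hC u huC hu.1 v hv.1 huv.symm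
      exact ⟨w, mem_union_left _ hw, fun h => hw' h.symm⟩
    · by_cases hvC : v ∈ C
      · obtain ⟨w, hw, hw'⟩ := hC v hvC hv.1 u hu.1 huv
        exact ⟨w, mem_union_left _ hw, hw'⟩
      · have huO : u ∈ O := by
          rw [hO, mem_sdiff, mem_union, not_or]
          exact ⟨mem_univ _, hu.1, huC⟩
        have hvO : v ∈ O := by
          rw [hO, mem_sdiff, mem_union, not_or]
          exact ⟨mem_univ _, hv.1, hvC⟩
        by_contra hno
        push Not at hno
        apply hsep u huO v hvO huv
        ext w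
        unfold tr
        rw [mem_filter, mem_filter]
        constructor
        · rintro ⟨h1, h2⟩
          exact ⟨h1, (hno w h1).mp h2⟩
        · rintro ⟨h1, h2⟩
          exact ⟨h1, (hno w h1).mpr h2⟩
  · rw [hcard]
    omega

end Pool.Agent.Lib.MP50ecf8.LOC
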