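import Pool.Agent.Lib.MP_50ecf8_co.LOC.Spec5
import Pool.Agent.Lib.MP_50ecf8_co.LOC.BON

/-!
# BONT: a small set of vertices of the core which locates the others (after Bondy)
-/

set_option autoImplicit false

open Finset
open scoped Classical

namespace Pool.Agent.Lib.MP50ecf8.LOC

open BONM in
theorem specBONT : SpecBONT := by
  intro V _ G T B C X₀ hCT hBX hloc
  obtain ⟨O, hO⟩ : ∃ O : Finset V, O = T \ (B ∪ C) := ⟨_, rfl⟩
  -- a maximal set
  obtain ⟨P, hP, hmax⟩ := Finset.exists_max_image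
    ((C \ X₀).powerset.filter fun P => P.card ≤ (O.image (tr G ((X₀ ∪ P) ∩ (B ∪ C)))).card)
    Finset.card ⟨∅, by simp⟩
  rw [mem_filter, mem_powerset] at hP
  obtain ⟨hPC, hPt⟩ := hP
  have hsep : ∀ u ∈ O, ∀ v ∈ O, u ≠ v →
      tr G ((X₀ ∪ P) ∩ (B ∪ C)) u ≠ tr G ((X₀ ∪ P) ∩ (B ∪ C)) v := by
    intro u hu v hv huv heq
    have hu' := hu
    have hv' := hv
    rw [hO, mem_sdiff] at hu' hv'
    obtain ⟨w, hw, hw'⟩ := hloc u hu'.1 hu'.2 v hv'.1 hv'.2 huv
    have hwP : w ∉ X₀ ∪ P := by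
      intro h
      have h0 : w ∈ (X₀ ∪ P) ∩ (B ∪ C) := mem_inter.mpr ⟨h, hw⟩
      apply hw'
      constructor
      · intro h7
        have h8 : w ∈ tr G ((X₀ ∪ P) ∩ (B ∪ C)) u := mem_filter.mpr ⟨h0, h7⟩
        rw [heq] at h8
        exact (mem_filter.mp h8).2
      · intro h7
        have h8 : w ∈ tr G ((X₀ ∪ P) ∩ (B ∪ C)) v := mem_filter.mpr ⟨h0, h7⟩
        rw [← heq] at h8
        exact (mem_filter.mp h8).2
    rw [mem_union, not_or] at hwP
    have hwC : w ∈ C \ X₀ := by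
      rw [mem_sdiff]
      refine ⟨(mem_union.mp hw).resolve_left fun h => hwP.1 (hBX h), hwP.1⟩
    have hsub : (X₀ ∪ P) ∩ (B ∪ C) ⊆ (X₀ ∪ insert w P) ∩ (B ∪ C) :=
      inter_subset_inter_right (union_subset_union_right (subset_insert w P))
    have h1 := grow (G := G) hsub hu hv heq
      (mem_inter.mpr ⟨mem_union_right _ (mem_insert_self w P), hw⟩) hw'
    have h2 := hmax (insert w P) (by
      rw [mem_filter, mem_powerset]
      refine ⟨insert_subset hwC hPC, ?_⟩
      rw [card_insert_of_notMem hwP.2]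
      omega)
    rw [card_insert_of_notMem hwP.2] at h2
    omega
  have hPO : P.card ≤ O.card := hPt.trans card_image_le
  have hPC' : P.card ≤ C.card := card_le_card (hPC.trans sdiff_subset)
  have hdisj : Disjoint C O := by
    rw [Finset.disjoint_left]
    intro x hx hxO
    rw [hO, mem_sdiff] at hxO
    exact hxO.2 (mem_union_right _ hx)
  have hcard : C.card + O.card ≤ T.card := by
    rw [← card_union_of_disjoint hdisj]
    refine card_le_card (union_subset hCT ?_)
    rw [hO]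
    exact sdiff_subset
  refine ⟨P, hPC, by omega, ?_⟩
  intro u huT hu v hvT hv huv
  have huO : u ∈ O := by
    rw [hO, mem_sdiff]
    exact ⟨huT, hu⟩
  have hvO : v ∈ O := by
    rw [hO, mem_sdiff]
    exact ⟨hvT, hv⟩
  by_contra hno
  push Not at hno
  apply hsep u huO v hvO huv
  ext w
  unfold tr
  rw [mem_filter, mem_filter]
  constructor
  · rintro ⟨h1, h2⟩
    have h3 := mem_inter.mp h1
    exact ⟨h1, (hno w h3.1 h3.2).mp h2⟩
  · rintro ⟨h1, h2⟩
    have h3 := mem_inter.mp h1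
    exact ⟨h1, (hno w h3.1 h3.2).mpr h2⟩

end Pool.Agent.Lib.MP50ecf8.LOC
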