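import Pool.Agent.Lib.MP_50ecf8_co.LOC.Spec

/-!
# CDS: a dominating set is contained in a small connected set (MP_50ecf8_co)
-/

set_option autoImplicit false

open Finset
open scoped Classical

namespace Pool.Agent.Lib.MP50ecf8.LOC

namespace CDSM

/-- adding a neighbour keeps an induced subgraph connected -/
theorem ins {V : Type} {G : SimpleGraph V} {Y : Finset V} (hY : (G.induce (Y : Set V)).Connected)
    {y u : V} (hy : y ∈ Y) (hyu : G.Adj y u) :
    (G.induce ((insert u Y : Finset V) : Set V)).Connected := by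
  have h1 : (G.induce ({y, u} : Set V)).Connected := SimpleGraph.induce_pair_connected_of_adj hyu
  have h2 : (G.induce (({y, u} : Set V) ∪ (Y : Set V))).Connected :=
    SimpleGraph.induce_union_connected h1.preconnected hY.preconnected
      ⟨y, Or.inl rfl, Finset.mem_coe.mpr hy⟩
  have h3 : ({y, u} : Set V) ∪ (Y : Set V) = ((insert u Y : Finset V) : Set V) := by
    ext z
    simp only [Set.mem_union, Set.mem_insert_iff, Set.mem_singleton_iff, Finset.mem_coe,
      Finset.mem_insert]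
    constructor
    · rintro ((rfl | h) | h)
      · exact Or.inr hy
      · exact Or.inl h
      · exact Or.inr h
    · rintro (h | h)
      · exact Or.inl (Or.inr h)
      · exact Or.inr h
  rwa [h3] at h2

theorem card_step {V : Type} {D Y Y' : Finset V} {d : V} (hd : d ∈ D) (hdY : d ∉ Y) (hdY' : d ∈ Y')
    (hsub : Y ⊆ Y') : (D ∩ Y).card + 1 ≤ (D ∩ Y').card := by
  have h1 : insert d (D ∩ Y) ⊆ D ∩ Y' := by
    intro z hz
    rcases Finset.mem_insert.mp hz with rfl | hz
    · exact Finset.mem_inter.mpr ⟨hd, hdY'⟩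
    · exact Finset.mem_inter.mpr ⟨(Finset.mem_inter.mp hz).1, hsub (Finset.mem_inter.mp hz).2⟩
  have h2 := Finset.card_le_card h1
  rwa [Finset.card_insert_of_notMem (fun h => hdY (Finset.mem_inter.mp h).2)] at h2

/-- the extension step -/
theorem step {V : Type} [Fintype V] {G : SimpleGraph V} (hG : G.Connected) {D Y : Finset V}
    (hdom : ∀ v, v ∈ D ∨ ∃ w ∈ D, G.Adj v w) (hY : (G.induce (Y : Set V)).Connected)
    (hYne : Y.Nonempty) (hc : Y.card + 2 ≤ 3 * (D ∩ Y).card) (hDY : ¬ D ⊆ Y) :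
    ∃ Y' : Finset V, (G.induce (Y' : Set V)).Connected ∧ Y'.Nonempty ∧
      Y'.card + 2 ≤ 3 * (D ∩ Y').card ∧ (D ∩ Y).card < (D ∩ Y').card := by
  by_cases hZ : ∀ v, v ∈ Y ∨ ∃ y ∈ Y, G.Adj y v
  · obtain ⟨d, hd, hdY⟩ := Finset.not_subset.mp hDY
    obtain ⟨y, hy, hyd⟩ := (hZ d).resolve_left hdY
    have h1 := card_step hd hdY (Finset.mem_insert_self d Y) (Finset.subset_insert d Y)
    have h2 := Finset.card_insert_le d Y
    exact ⟨insert d Y, ins hY hy hyd, Finset.insert_nonempty _ _, by omega, by omega⟩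
  · push Not at hZ
    obtain ⟨v₀, hv₀Y, hv₀⟩ := hZ
    obtain ⟨y₀, hy₀⟩ := hYne
    obtain ⟨p⟩ := hG.preconnected y₀ v₀
    obtain ⟨e, -, he1, he2⟩ := p.exists_boundary_dart {v | v ∈ Y ∨ ∃ y ∈ Y, G.Adj y v}
      (Or.inl hy₀) (fun h => by
        rcases h with h | ⟨y, hy, h⟩
        · exact hv₀Y h
        · exact hv₀ y hy h)
    obtain ⟨⟨u, v⟩, huv⟩ := e
    change u ∈ Y ∨ ∃ y ∈ Y, G.Adj y u at he1
    change ¬ (v ∈ Y ∨ ∃ y ∈ Y, G.Adj y v) at he2
    have huv' : G.Adj u v := huv
    have hvY : v ∉ Y := fun h => he2 (Or.inl h)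
    have hvN : ∀ y ∈ Y, ¬ G.Adj y v := fun y hy h => he2 (Or.inr ⟨y, hy, h⟩)
    have huY : u ∉ Y := fun h => hvN u h huv'
    obtain ⟨y, hy, hyu⟩ := he1.resolve_left huY
    have c1 := ins hY hy hyu
    have c2 := ins c1 (Finset.mem_insert_self u Y) huv'
    have k1 := Finset.card_insert_le u Y
    have k2 := Finset.card_insert_le v (insert u Y)
    have s2 : Y ⊆ insert v (insert u Y) :=
      (Finset.subset_insert u Y).trans (Finset.subset_insert v _)
    rcases hdom v with hvD | ⟨w, hwD, hvw⟩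
    · have h1 := card_step hvD hvY (Finset.mem_insert_self v (insert u Y)) s2
      exact ⟨_, c2, Finset.insert_nonempty _ _, by omega, by omega⟩
    · have hwY : w ∉ Y := fun h => hvN w h hvw.symm
      have c3 := ins c2 (Finset.mem_insert_self v _) hvw
      have k3 := Finset.card_insert_le w (insert v (insert u Y))
      have s3 : Y ⊆ insert w (insert v (insert u Y)) := s2.trans (Finset.subset_insert w _)
      have h1 := card_step hwD hwY (Finset.mem_insert_self w (insert v (insert u Y))) s3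
      exact ⟨_, c3, Finset.insert_nonempty _ _, by omega, by omega⟩

end CDSM

theorem specCDS : SpecCDS := by
  intro V _ G hG D hD hdom
  have key : ∀ n : ℕ, ∀ Y : Finset V, (G.induce (Y : Set V)).Connected → Y.Nonempty →
      Y.card + 2 ≤ 3 * (D ∩ Y).card → D.card - (D ∩ Y).card ≤ n →
      ∃ X : Finset V, D ⊆ X ∧ (G.induce (X : Set V)).Connected ∧ X.card + 2 ≤ 3 * D.card := by
    intro n
    induction n with
    | zero =>
      intro Y h1 h2 h3 h4
      have h5 : D ∩ Y = D := Finset.eq_of_subset_of_card_le Finset.inter_subset_left (by omega)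
      exact ⟨Y, Finset.inter_eq_left.mp h5, h1, by rwa [h5] at h3⟩
    | succ n ih =>
      intro Y h1 h2 h3 h4
      by_cases hDY : D ⊆ Y
      · exact ⟨Y, hDY, h1, by rwa [Finset.inter_eq_left.mpr hDY] at h3⟩
      · obtain ⟨Y', g1, g2, g3, g4⟩ := CDSM.step hG hdom h1 h2 h3 hDY
        exact ih Y' g1 g2 g3 (by omega)
  obtain ⟨d, hd⟩ := hD
  refine key _ {d} ?_ (Finset.singleton_nonempty d) ?_ le_rfl
  · have hne : Nonempty (((({d} : Finset V) : Set V))) := ⟨⟨d, by simp⟩⟩
    refine ⟨?_⟩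
    rintro ⟨x, hx⟩ ⟨y, hy⟩
    have h1 : x = d := by simpa using hx
    have h2 : y = d := by simpa using hy
    subst h1
    subst h2
    exact SimpleGraph.Reachable.refl _
  · rw [Finset.inter_singleton_of_mem hd]
    simp

end Pool.Agent.Lib.MP50ecf8.LOC
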