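import Pool.Agent.Lib.MP_50ecf8_co.LOC.Spec3
import Pool.Agent.Lib.MP_50ecf8_co.LOC.CDS

/-!
# CDS2: a 2-dominating set is contained in a small connected set (MP_50ecf8_co)
-/

set_option autoImplicit false

open Finset
open scoped Classical

namespace Pool.Agent.Lib.MP50ecf8.LOC

namespace CDS2M

open CDSM

/-- within distance two of `Y` -/
def N2 {V : Type} (G : SimpleGraph V) (Y : Finset V) (v : V) : Prop :=
  v ∈ Y ∨ (∃ y ∈ Y, G.Adj y v) ∨ ∃ y ∈ Y, ∃ a, G.Adj y a ∧ G.Adj a v

/-- a vertex within distance two can be absorbed at the cost of at most two vertices -/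
theorem absorb {V : Type} {G : SimpleGraph V} {Y : Finset V}
    (hY : (G.induce (Y : Set V)).Connected) {v : V} (h : N2 G Y v) :
    ∃ Y' : Finset V, (G.induce (Y' : Set V)).Connected ∧ Y ⊆ Y' ∧ v ∈ Y' ∧
      Y'.card ≤ Y.card + 2 := by
  rcases h with h | ⟨y, hy, hyv⟩ | ⟨y, hy, a, hya, hav⟩
  · exact ⟨Y, hY, Finset.Subset.refl _, h, by omega⟩
  · have h2 := Finset.card_insert_le v Y
    exact ⟨insert v Y, ins hY hy hyv, Finset.subset_insert _ _, Finset.mem_insert_self _ _,
      by omega⟩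
  · have c1 := ins hY hy hya
    have c2 := ins c1 (Finset.mem_insert_self a Y) hav
    have k1 := Finset.card_insert_le a Y
    have k2 := Finset.card_insert_le v (insert a Y)
    exact ⟨_, c2, (Finset.subset_insert a Y).trans (Finset.subset_insert v _),
      Finset.mem_insert_self _ _, by omega⟩

/-- the extension step -/
theorem step {V : Type} [Fintype V] {G : SimpleGraph V} (hG : G.Connected) {D Y : Finset V}
    (hdom : ∀ v, v ∈ D ∨ (∃ w ∈ D, G.Adj v w) ∨ ∃ w ∈ D, ∃ z, G.Adj v z ∧ G.Adj z w)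
    (hY : (G.induce (Y : Set V)).Connected)
    (hYne : Y.Nonempty) (hc : Y.card + 4 ≤ 5 * (D ∩ Y).card) (hDY : ¬ D ⊆ Y) :
    ∃ Y' : Finset V, (G.induce (Y' : Set V)).Connected ∧ Y'.Nonempty ∧
      Y'.card + 4 ≤ 5 * (D ∩ Y').card ∧ (D ∩ Y).card < (D ∩ Y').card := by
  by_cases hZ : ∀ v, N2 G Y v
  · obtain ⟨d, hd, hdY⟩ := Finset.not_subset.mp hDY
    obtain ⟨Y', h1, h2, h3, h4⟩ := absorb hY (hZ d)
    have h5 := card_step hd hdY h3 h2
    exact ⟨Y', h1, ⟨d, h3⟩, by omega, by omega⟩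
  · push Not at hZ
    obtain ⟨v₀, hv₀⟩ := hZ
    obtain ⟨y₀, hy₀⟩ := hYne
    obtain ⟨p⟩ := hG.preconnected y₀ v₀
    obtain ⟨e, -, he1, he2⟩ := p.exists_boundary_dart {v | N2 G Y v}
      (Or.inl hy₀) hv₀
    obtain ⟨⟨u, v⟩, huv⟩ := e
    change N2 G Y u at he1
    change ¬ N2 G Y v at he2
    have huv' : G.Adj u v := huv
    have hvY : v ∉ Y := fun h => he2 (Or.inl h)
    have hvN : ∀ y ∈ Y, ¬ G.Adj y v := fun y hy h => he2 (Or.inr (Or.inl ⟨y, hy, h⟩))
    have hvN2 : ∀ y ∈ Y, ∀ a, G.Adj y a → ¬ G.Adj a v := fun y hy a h h' =>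
      he2 (Or.inr (Or.inr ⟨y, hy, a, h, h'⟩))
    obtain ⟨Y1, c1, s1, hu1, k1⟩ := absorb hY he1
    have c2 := ins c1 hu1 huv'
    have k2 := Finset.card_insert_le v Y1
    have s2 : Y ⊆ insert v Y1 := s1.trans (Finset.subset_insert v _)
    rcases hdom v with hvD | ⟨w, hwD, hvw⟩ | ⟨w, hwD, z, hvz, hzw⟩
    · have h1 := card_step hvD hvY (Finset.mem_insert_self v Y1) s2
      exact ⟨_, c2, Finset.insert_nonempty _ _, by omega, by omega⟩
    · have hwY : w ∉ Y := fun h => hvN w h hvw.symm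
      have c3 := ins c2 (Finset.mem_insert_self v _) hvw
      have k3 := Finset.card_insert_le w (insert v Y1)
      have s3 : Y ⊆ insert w (insert v Y1) := s2.trans (Finset.subset_insert w _)
      have h1 := card_step hwD hwY (Finset.mem_insert_self w (insert v Y1)) s3
      exact ⟨_, c3, Finset.insert_nonempty _ _, by omega, by omega⟩
    · have hwY : w ∉ Y := fun h => hvN2 w h z hzw.symm hvz.symm
      have c3 := ins c2 (Finset.mem_insert_self v _) hvz
      have c4 := ins c3 (Finset.mem_insert_self z _) hzw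
      have k3 := Finset.card_insert_le z (insert v Y1)
      have k4 := Finset.card_insert_le w (insert z (insert v Y1))
      have s3 : Y ⊆ insert w (insert z (insert v Y1)) :=
        (s2.trans (Finset.subset_insert z _)).trans (Finset.subset_insert w _)
      have h1 := card_step hwD hwY (Finset.mem_insert_self w (insert z (insert v Y1))) s3
      exact ⟨_, c4, Finset.insert_nonempty _ _, by omega, by omega⟩

end CDS2M

theorem specCDS2 : SpecCDS2 := by
  intro V _ G hG D hD hdom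
  have key : ∀ n : ℕ, ∀ Y : Finset V, (G.induce (Y : Set V)).Connected → Y.Nonempty →
      Y.card + 4 ≤ 5 * (D ∩ Y).card → D.card - (D ∩ Y).card ≤ n →
      ∃ X : Finset V, D ⊆ X ∧ (G.induce (X : Set V)).Connected ∧ X.card + 4 ≤ 5 * D.card := by
    intro n
    induction n with
    | zero =>
      intro Y h1 h2 h3 h4
      have h5 : D ∩ Y = D := Finset.eq_of_subset_of_card_le Finset.inter_subset_left (by omega)
      exact ⟨Y, Finset.inter_eq_left.mp h5, h1, by rwa [h5] at h3⟩
    | succ n ih =>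
      intro Y h1 h2 h3 h4
      by_cases hDY : D ⊆ Y
      · exact ⟨Y, hDY, h1, by rwa [Finset.inter_eq_left.mpr hDY] at h3⟩
      · obtain ⟨Y', g1, g2, g3, g4⟩ := CDS2M.step hG hdom h1 h2 h3 hDY
        exact ih Y' g1 g2 g3 (by omega)
  obtain ⟨d, hd⟩ := hD
  refine key _ {d} ?_ (Finset.singleton_nonempty d) ?_ le_rfl
  · have hne : Nonempty (((({d} : Finset V) : Set V))) := ⟨⟨d, by simp⟩⟩
    refine ⟨?_⟩
    rintro ⟨x, hx⟩ ⟨y, hy⟩
    have h1 : x = d := by simpa using hx
    have h2 : y = d := by simpa using hy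
    subst h1
    subst h2
    exact SimpleGraph.Reachable.refl _
  · rw [Finset.inter_singleton_of_mem hd]
    simp

end Pool.Agent.Lib.MP50ecf8.LOC
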