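import Pool.Agent.Lib.MP_50ecf8_co.LOC.Spec5

/-!
# CDST: a set which is 2-dominating inside `W` is contained in a small connected subset of `W`
-/

set_option autoImplicit false

open Finset
open scoped Classical

namespace Pool.Agent.Lib.MP50ecf8.LOC

theorem specCDST (hCDS2 : SpecCDS2) : SpecCDST := by
  intro V _ G W D₁ hcon hne hsub hdom
  have hdom' : ∀ v : (W : Set V), v ∈ (Finset.univ.filter (fun x : (W : Set V) => x.1 ∈ D₁)) ∨
      (∃ w ∈ (Finset.univ.filter (fun x : (W : Set V) => x.1 ∈ D₁)),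
        (G.induce (W : Set V)).Adj v w) ∨
      ∃ w ∈ (Finset.univ.filter (fun x : (W : Set V) => x.1 ∈ D₁)), ∃ z,
        (G.induce (W : Set V)).Adj v z ∧ (G.induce (W : Set V)).Adj z w := by
    intro v
    rcases hdom v.1 v.2 with h | ⟨w, hw, hvw⟩ | ⟨w, hw, z, hz, hvz, hzw⟩
    · left
      exact Finset.mem_filter.2 ⟨Finset.mem_univ _, h⟩
    · right
      left
      exact ⟨⟨w, hsub hw⟩, Finset.mem_filter.2 ⟨Finset.mem_univ _, hw⟩, hvw⟩
    · right
      right
      exact ⟨⟨w, hsub hw⟩, Finset.mem_filter.2 ⟨Finset.mem_univ _, hw⟩, ⟨z, hz⟩, hvz, hzw⟩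
  have hDne : (Finset.univ.filter (fun x : (W : Set V) => x.1 ∈ D₁)).Nonempty := by
    obtain ⟨d, hd⟩ := hne
    exact ⟨⟨d, hsub hd⟩, Finset.mem_filter.2 ⟨Finset.mem_univ _, hd⟩⟩
  obtain ⟨X', h1, h2, h3⟩ := hCDS2 (W : Set V) (G.induce (W : Set V)) hcon _ hDne hdom'
  have hcard : (Finset.univ.filter (fun x : (W : Set V) => x.1 ∈ D₁)).card ≤ D₁.card := by
    apply Finset.card_le_card_of_injOn (fun x => x.1)
    · intro x hx
      exact (Finset.mem_filter.1 hx).2
    · intro x _ y _ hxy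
      exact Subtype.ext hxy
  refine ⟨X'.image Subtype.val, ?_, ?_, ?_, ?_⟩
  · intro d hd
    rw [Finset.mem_image]
    exact ⟨⟨d, hsub hd⟩, h1 (Finset.mem_filter.2 ⟨Finset.mem_univ _, hd⟩), rfl⟩
  · intro x hx
    obtain ⟨y, _, rfl⟩ := Finset.mem_image.1 hx
    exact y.2
  · let f : ((G.induce (W : Set V)).induce (X' : Set (W : Set V))) →g
        (G.induce ((X'.image Subtype.val : Finset V) : Set V)) :=
      { toFun := fun x => ⟨x.1.1, Finset.mem_coe.2 (Finset.mem_image_of_mem _ x.2)⟩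
        map_rel' := fun {a b} hab => hab }
    have hf : Function.Surjective f := by
      rintro ⟨y, hy⟩
      obtain ⟨x, hx, rfl⟩ := Finset.mem_image.1 (Finset.mem_coe.1 hy)
      exact ⟨⟨x, hx⟩, rfl⟩
    exact h2.map f hf
  · rw [Finset.card_image_of_injective _ Subtype.val_injective]
    omega

end Pool.Agent.Lib.MP50ecf8.LOC
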