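import Pool.Agent.Lib.MP_50ecf8_co.LOC.Spec8

/-!
# MP_50ecf8_co, module CHNY: a connected set may be added one vertex after the other
-/

set_option autoImplicit false

open Finset
open scoped Classical

namespace Pool.Agent.Lib.MP50ecf8.LOC

namespace CHNYM

theorem boundary {V : Type} (G : SimpleGraph V) (X X' : Finset V) (x₁ : V)
    (hc : (G.induce (X : Set V)).Connected) (h1 : x₁ ∈ X') (hs : X' ⊆ X) (hne : X' ≠ X) :
    ∃ w ∈ X', ∃ x ∈ X, x ∉ X' ∧ G.Adj w x := by
  obtain ⟨y, hy, hy'⟩ : ∃ y ∈ X, y ∉ X' := by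
    by_contra h
    push Not at h
    exact hne (Subset.antisymm hs h)
  obtain ⟨p⟩ := hc.preconnected ⟨x₁, Finset.mem_coe.2 (hs h1)⟩ ⟨y, Finset.mem_coe.2 hy⟩
  obtain ⟨d, _, hd1, hd2⟩ := p.exists_boundary_dart {z | z.1 ∈ X'} h1 hy'
  exact ⟨d.fst.1, hd1, d.snd.1, Finset.mem_coe.1 d.snd.2, hd2, d.adj⟩

end CHNYM

open CHNYM

theorem specCHNY : SpecCHNY := by
  intro V _ G D X Y x₁ hc hX hY hd
  set S : Finset (Finset V) := X.powerset.filter fun X' =>
    x₁ ∈ X' ∧ ∃ j : ℕ, j ≤ X'.card ∧ SQ G D Y (Y ∪ X') j with hS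
  have hne : S.Nonempty := by
    refine ⟨{x₁}, ?_⟩
    rw [hS, mem_filter, mem_powerset]
    refine ⟨singleton_subset_iff.2 hX, mem_singleton_self _, 0, Nat.zero_le _, ?_⟩
    have : Y ∪ {x₁} = Y := union_eq_left.2 (singleton_subset_iff.2 hY)
    rw [this]
    exact SQ.base
  obtain ⟨X', hX', hmax⟩ := exists_max_image S card hne
  rw [hS, mem_filter, mem_powerset] at hX'
  obtain ⟨hsub, h1, j, hj, hsq⟩ := hX'
  by_cases heq : X' = X
  · rw [heq] at hj hsq
    exact ⟨j, hj, hsq⟩
  · exfalso
    obtain ⟨w, hw, x, hx, hxn, hadj⟩ := boundary G X X' x₁ hc h1 hsub heq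
    have hcard : (insert x X').card = X'.card + 1 := card_insert_of_notMem hxn
    have hmem : insert x X' ∈ S := by
      rw [hS, mem_filter, mem_powerset]
      refine ⟨insert_subset hx hsub, mem_insert_of_mem h1, ?_⟩
      by_cases hxY : x ∈ Y
      · refine ⟨j, by omega, ?_⟩
        have : Y ∪ insert x X' = Y ∪ X' := by
          rw [union_insert]
          exact insert_eq_of_mem (mem_union_left _ hxY)
        rw [this]
        exact hsq
      · refine ⟨j + 1, by omega, ?_⟩
        rw [union_insert]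
        have hn : x ∉ Y ∪ X' := by
          rw [mem_union]
          exact fun h => h.elim hxY hxn
        refine SQ.step hsq hn ?_
        have h2 : tc G (Y ∪ X') x ⊆ univ.filter fun u => G.Adj w u := by
          intro u hu
          simp only [tc, mem_filter, mem_univ, true_and] at hu ⊢
          exact (hu.2 w (mem_union_right _ hw)).2 hadj
        exact (card_le_card h2).trans (hd w (hsub hw))
    have := hmax _ hmem
    omega

end Pool.Agent.Lib.MP50ecf8.LOC
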