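import Pool.Agent.Lib.MP_50ecf8_co.LOC.Spec

set_option autoImplicit false

open Finset
open scoped Classical

namespace Pool.Agent.Lib.MP50ecf8.LOC

lemma cnt_fst_inj {V : Type} {G : SimpleGraph V} {I : Finset (V × V)} (h : Good G I) :
    Set.InjOn Prod.fst (I : Set (V × V)) := by
  intro u hu w hw huw
  exact Prod.ext huw ((h u (by simpa using hu) w (by simpa using hw)).1.mp huw)

lemma cnt_snd_inj {V : Type} {G : SimpleGraph V} {I : Finset (V × V)} (h : Good G I) :
    Set.InjOn Prod.snd (I : Set (V × V)) := by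
  intro u hu w hw huw
  exact Prod.ext ((h u (by simpa using hu) w (by simpa using hw)).1.mpr huw) huw

lemma cnt_symm {V : Type} {G : SimpleGraph V} {u w : V × V} (h : Cmp G u w) : Cmp G w u := by
  refine ⟨⟨fun h1 => (h.1.mp h1.symm).symm, fun h1 => (h.1.mpr h1.symm).symm⟩, ?_⟩
  rw [G.adj_comm w.1 u.1, G.adj_comm w.2 u.2]
  exact h.2

/-- the set `Ω` of the candidates is small -/
lemma cnt_omega {V : Type} [Fintype V] {G : SimpleGraph V} {X : Finset V} (hX : Locating G X)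
    {g : Finset (V × V)} (hg : Good G g) (hgX : g.image Prod.fst = X) :
    ((univ : Finset (V × V)).filter fun u => u.1 ∉ X ∧ ∀ z ∈ g, Cmp G u z).card + X.card ≤
      Fintype.card V := by
  set Ω := (univ : Finset (V × V)).filter fun u => u.1 ∉ X ∧ ∀ z ∈ g, Cmp G u z with hΩ
  have hmem : ∀ u, u ∈ Ω ↔ (u.1 ∉ X ∧ ∀ z ∈ g, Cmp G u z) := by
    intro u; simp [hΩ]
  have h1 : (Ω.image Prod.snd).card = Ω.card := by
    apply Finset.card_image_of_injOn
    intro u hu w hw huw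
    have hu' := (hmem u).mp (by simpa using hu)
    have hw' := (hmem w).mp (by simpa using hw)
    by_contra hne
    have hne1 : u.1 ≠ w.1 := fun h => hne (Prod.ext h huw)
    obtain ⟨x, hx, hsep⟩ := hX u.1 hu'.1 w.1 hw'.1 hne1
    rw [← hgX, Finset.mem_image] at hx
    obtain ⟨z, hz, rfl⟩ := hx
    apply hsep
    have h2 := (hu'.2 z hz).2
    have h3 := (hw'.2 z hz).2
    rw [G.adj_comm z.1 u.1, G.adj_comm z.1 w.1, h2, h3, huw]
  have h2 : (g.image Prod.snd).card = X.card := by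
    rw [← hgX, Finset.card_image_of_injOn (cnt_snd_inj hg),
      Finset.card_image_of_injOn (cnt_fst_inj hg)]
  have h3 : Disjoint (Ω.image Prod.snd) (g.image Prod.snd) := by
    rw [Finset.disjoint_left]
    intro y hy hy'
    obtain ⟨u, hu, rfl⟩ := Finset.mem_image.mp hy
    obtain ⟨z, hz, hzy⟩ := Finset.mem_image.mp hy'
    have hu' := (hmem u).mp hu
    apply hu'.1
    rw [← hgX, Finset.mem_image]
    exact ⟨z, hz, ((hu'.2 z hz).1.mpr hzy.symm).symm⟩
  rw [← h1, ← h2, ← Finset.card_union_of_disjoint h3]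
  exact Finset.card_le_univ _

theorem cnt : SpecCNT := by
  intro V _ G X hX g k hgX
  set F := (univ : Finset (Finset (V × V))).filter fun J => Good G J ∧ Closed G J ∧
        J.filter (fun u => u.1 ∈ X) = g ∧ J.card + k = Fintype.card V with hF
  have hFm : ∀ J, J ∈ F ↔ (Good G J ∧ Closed G J ∧
        J.filter (fun u => u.1 ∈ X) = g ∧ J.card + k = Fintype.card V) := by
    intro J; simp [hF]
  rcases F.eq_empty_or_nonempty with h0 | ⟨J₀, hJ₀⟩
  · rw [h0]; simp
  have hsub : ∀ J ∈ F, g ⊆ J := by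
    intro J hJ
    rw [← ((hFm J).mp hJ).2.2.1]
    exact Finset.filter_subset _ _
  have hin : ∀ J ∈ F, ∀ u ∈ J, u.1 ∈ X → u ∈ g := by
    intro J hJ u hu huX
    rw [← ((hFm J).mp hJ).2.2.1]
    exact Finset.mem_filter.mpr ⟨hu, huX⟩
  have hG₀ : Good G J₀ := ((hFm J₀).mp hJ₀).1
  have hgood : Good G g := fun u hu w hw => hG₀ u (hsub J₀ hJ₀ hu) w (hsub J₀ hJ₀ hw)
  set Ω := (univ : Finset (V × V)).filter fun u => u.1 ∉ X ∧ ∀ z ∈ g, Cmp G u z with hΩ
  have hmem : ∀ u, u ∈ Ω ↔ (u.1 ∉ X ∧ ∀ z ∈ g, Cmp G u z) := by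
    intro u; simp [hΩ]
  have hΩc : Ω.card + X.card ≤ Fintype.card V := cnt_omega hX hgood hgX
  have hgc : g.card = X.card := by
    rw [← hgX, Finset.card_image_of_injOn (cnt_fst_inj hgood)]
  -- elements of `J` outside `g` are in `Ω`
  have hJΩ : ∀ J ∈ F, ∀ u ∈ J, u ∉ g → u ∈ Ω := by
    intro J hJ u hu hug
    rw [hmem]
    refine ⟨fun h => hug (hin J hJ u hu h), fun z hz => ?_⟩
    exact ((hFm J).mp hJ).1 u hu z (hsub J hJ hz)
  set C := Ω \ J₀ with hC
  have hCc : C.card ≤ k := by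
    have h1 : J₀ \ g ⊆ Ω := by
      intro u hu
      rw [Finset.mem_sdiff] at hu
      exact hJΩ J₀ hJ₀ u hu.1 hu.2
    have h2 : C ⊆ Ω \ (J₀ \ g) := by
      intro u hu
      rw [hC, Finset.mem_sdiff] at hu
      rw [Finset.mem_sdiff]
      refine ⟨hu.1, fun h => hu.2 (Finset.mem_sdiff.mp h).1⟩
    have h3 := Finset.card_le_card h2
    rw [Finset.card_sdiff_of_subset h1] at h3
    have h4 : (J₀ \ g).card = J₀.card - g.card := Finset.card_sdiff_of_subset (hsub J₀ hJ₀)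
    have h5 : g.card ≤ J₀.card := Finset.card_le_card (hsub J₀ hJ₀)
    have h6 := ((hFm J₀).mp hJ₀).2.2.2
    omega
  -- the state map
  let st : Finset (V × V) → (C → Fin 3) := fun J c =>
    if (c : V × V) ∈ J then 0 else if ∃ z ∈ J, ¬ Cmp G (c : V × V) z then 1 else 2
  have key : ∀ J ∈ F, ∀ J' ∈ F, st J = st J' → J ⊆ J' := by
    intro J hJ J' hJ' hst u hu
    have hGJ := ((hFm J).mp hJ).1
    have hGJ' := ((hFm J').mp hJ').1
    have hcJ' := ((hFm J').mp hJ').2.1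
    by_cases hug : u ∈ g
    · exact hsub J' hJ' hug
    have huΩ := hJΩ J hJ u hu hug
    -- states of an element of `C`
    have hs : ∀ c ∈ C, (c ∈ J ↔ c ∈ J') ∧
        (c ∉ J → ((∃ z ∈ J, ¬ Cmp G c z) ↔ (∃ z ∈ J', ¬ Cmp G c z))) := by
      intro c hc
      have h := congrFun hst ⟨c, hc⟩
      simp only [st] at h
      by_cases h1 : c ∈ J <;> by_cases h2 : c ∈ J' <;>
        by_cases h3 : (∃ z ∈ J, ¬ Cmp G c z) <;> by_cases h4 : (∃ z ∈ J', ¬ Cmp G c z) <;>
        simp [h1, h2, h3, h4] at h ⊢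
    by_cases hu0 : u ∈ J₀
    · by_contra huJ'
      by_cases hcomp : ∀ z ∈ J', Cmp G u z
      · obtain ⟨w, hw, huw⟩ := hcJ' u huJ' hcomp
        have hwJ' : w ∉ J' := fun h => huw (hcomp w h)
        have hwJ₀ : w ∉ J₀ := fun h => huw (hG₀ u hu0 w h)
        have hwΩ : w ∈ Ω := by
          rw [hmem]
          refine ⟨fun h => ?_, fun z hz => hw z (hsub J' hJ' hz)⟩
          rw [← hgX, Finset.mem_image] at h
          obtain ⟨z, hz, hzw⟩ := h
          have h1 := hw z (hsub J' hJ' hz)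
          have h2 : w = z := Prod.ext hzw.symm (h1.1.mp hzw.symm)
          exact hwJ' (h2 ▸ hsub J' hJ' hz)
        have hwC : w ∈ C := Finset.mem_sdiff.mpr ⟨hwΩ, hwJ₀⟩
        have hwJ : w ∉ J := fun h => hwJ' ((hs w hwC).1.mp h)
        have h1 := ((hs w hwC).2 hwJ).mp ⟨u, hu, fun h => huw (cnt_symm h)⟩
        obtain ⟨z, hz, hz'⟩ := h1
        exact hz' (hw z hz)
      · push_neg at hcomp
        obtain ⟨w, hw, huw⟩ := hcomp
        have hwJ₀ : w ∉ J₀ := fun h => huw (hG₀ u hu0 w h)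
        have hwg : w ∉ g := fun h => hwJ₀ (hsub J₀ hJ₀ h)
        have hwC : w ∈ C := Finset.mem_sdiff.mpr ⟨hJΩ J' hJ' w hw hwg, hwJ₀⟩
        have hwJ : w ∈ J := (hs w hwC).1.mpr hw
        exact huw (hGJ u hu w hwJ)
    · exact ((hs u (Finset.mem_sdiff.mpr ⟨huΩ, hu0⟩)).1).mp hu
  have hcard : F.card ≤ (univ : Finset (C → Fin 3)).card := by
    apply Finset.card_le_card_of_injOn st (fun _ _ => by simp)
    intro J hJ J' hJ' h
    have h1 : J ∈ F := by simpa using hJ
    have h2 : J' ∈ F := by simpa using hJ'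
    exact Finset.Subset.antisymm (key J h1 J' h2 h) (key J' h2 J h1 h.symm)
  refine hcard.trans ?_
  rw [Finset.card_univ, Fintype.card_fun, Fintype.card_fin, Fintype.card_coe]
  exact Nat.pow_le_pow_right (by norm_num) hCc

end Pool.Agent.Lib.MP50ecf8.LOC
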