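import Pool.Agent.Lib.MP_50ecf8_co.LOC.Spec3
import Pool.Agent.Lib.MP_50ecf8_co.LOC.CNT

set_option autoImplicit false

open Finset
open scoped Classical

namespace Pool.Agent.Lib.MP50ecf8.LOC

/-- the candidates for the images of the vertices outside the domain of `h` -/
noncomputable def Us {V : Type} [Fintype V] (G : SimpleGraph V) (h : Finset (V × V)) : Finset V :=
  univ.filter fun y => ∃ x, x ∉ h.image Prod.fst ∧ ∀ z ∈ h, Cmp G (x, y) z

/-- the closed partial isomorphisms counted -/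
noncomputable def Fs {V : Type} [Fintype V] (G : SimpleGraph V) (Xf : Finset V) (k : ℕ)
    (Y : Finset V) (h : Finset (V × V)) : Finset (Finset (V × V)) :=
  (univ : Finset (Finset (V × V))).filter fun J => Good G J ∧ Closed G J ∧
        J.filter (fun u => u.1 ∈ Y) = h ∧ Xf ⊆ J.image Prod.fst ∧ J.card + k = Fintype.card V

lemma Us_card {V : Type} [Fintype V] {G : SimpleGraph V} {h : Finset (V × V)} (hg : Good G h) :
    (Us G h).card + (h.image Prod.fst).card ≤ Fintype.card V := by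
  have h1 : (h.image Prod.snd).card = (h.image Prod.fst).card := by
    rw [Finset.card_image_of_injOn (cnt_snd_inj hg), Finset.card_image_of_injOn (cnt_fst_inj hg)]
  have h2 : Disjoint (Us G h) (h.image Prod.snd) := by
    rw [Finset.disjoint_left]
    intro y hy hy'
    rw [Us, Finset.mem_filter] at hy
    obtain ⟨-, x, hx, hz⟩ := hy
    obtain ⟨z, hzh, hzy⟩ := Finset.mem_image.mp hy'
    apply hx
    rw [Finset.mem_image]
    exact ⟨z, hzh, ((hz z hzh).1.mpr hzy.symm).symm⟩
  rw [← h1, ← Finset.card_union_of_disjoint h2]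
  exact Finset.card_le_univ _

lemma cnts_base {V : Type} [Fintype V] {G : SimpleGraph V} {X : Finset V} (hX : Locating G X)
    (k : ℕ) (h : Finset (V × V)) (hhX : h.image Prod.fst = X) :
    3 ^ (Fintype.card V - X.card - (Us G h).card) * (Fs G X k X h).card ≤ 3 ^ k := by
  set F := Fs G X k X h with hF
  have hFm : ∀ J, J ∈ F ↔ (Good G J ∧ Closed G J ∧
        J.filter (fun u => u.1 ∈ X) = h ∧ X ⊆ J.image Prod.fst ∧ J.card + k = Fintype.card V) := by
    intro J; simp [hF, Fs]
  rcases F.eq_empty_or_nonempty with h0 | ⟨J₀, hJ₀⟩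
  · rw [h0]; simp
  have hsub : ∀ J ∈ F, h ⊆ J := by
    intro J hJ
    rw [← ((hFm J).mp hJ).2.2.1]
    exact Finset.filter_subset _ _
  have hin : ∀ J ∈ F, ∀ u ∈ J, u.1 ∈ X → u ∈ h := by
    intro J hJ u hu huX
    rw [← ((hFm J).mp hJ).2.2.1]
    exact Finset.mem_filter.mpr ⟨hu, huX⟩
  have hG₀ : Good G J₀ := ((hFm J₀).mp hJ₀).1
  have hgood : Good G h := fun u hu w hw => hG₀ u (hsub J₀ hJ₀ hu) w (hsub J₀ hJ₀ hw)
  set Ω := (univ : Finset (V × V)).filter fun u => u.1 ∉ X ∧ ∀ z ∈ h, Cmp G u z with hΩ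
  have hmem : ∀ u, u ∈ Ω ↔ (u.1 ∉ X ∧ ∀ z ∈ h, Cmp G u z) := by
    intro u; simp [hΩ]
  have hΩU : Ω.card = (Us G h).card := by
    have h1 : Us G h = Ω.image Prod.snd := by
      ext y
      rw [Us, Finset.mem_filter, Finset.mem_image, hhX]
      constructor
      · rintro ⟨-, x, hx, hz⟩
        exact ⟨(x, y), (hmem _).mpr ⟨hx, hz⟩, rfl⟩
      · rintro ⟨u, hu, rfl⟩
        exact ⟨Finset.mem_univ _, u.1, ((hmem u).mp hu).1, ((hmem u).mp hu).2⟩
    rw [h1, Finset.card_image_of_injOn]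
    intro u hu w hw huw
    have hu' := (hmem u).mp (by simpa using hu)
    have hw' := (hmem w).mp (by simpa using hw)
    by_contra hne
    have hne1 : u.1 ≠ w.1 := fun h => hne (Prod.ext h huw)
    obtain ⟨x, hx, hsep⟩ := hX u.1 hu'.1 w.1 hw'.1 hne1
    rw [← hhX, Finset.mem_image] at hx
    obtain ⟨z, hz, rfl⟩ := hx
    apply hsep
    have h2 := (hu'.2 z hz).2
    have h3 := (hw'.2 z hz).2
    rw [G.adj_comm z.1 u.1, G.adj_comm z.1 w.1, h2, h3, huw]
  have hUc : (Us G h).card + X.card ≤ Fintype.card V := by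
    rw [← hhX]; exact Us_card hgood
  have hgc : h.card = X.card := by
    rw [← hhX, Finset.card_image_of_injOn (cnt_fst_inj hgood)]
  -- elements of `J` outside `h` are in `Ω`
  have hJΩ : ∀ J ∈ F, ∀ u ∈ J, u ∉ h → u ∈ Ω := by
    intro J hJ u hu hug
    rw [hmem]
    refine ⟨fun h => hug (hin J hJ u hu h), fun z hz => ?_⟩
    exact ((hFm J).mp hJ).1 u hu z (hsub J hJ hz)
  set C := Ω \ J₀ with hC
  have hCc : Fintype.card V - X.card - (Us G h).card + C.card ≤ k := by
    have h1 : J₀ \ h ⊆ Ω := by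
      intro u hu
      rw [Finset.mem_sdiff] at hu
      exact hJΩ J₀ hJ₀ u hu.1 hu.2
    have h2 : C ⊆ Ω \ (J₀ \ h) := by
      intro u hu
      rw [hC, Finset.mem_sdiff] at hu
      rw [Finset.mem_sdiff]
      refine ⟨hu.1, fun h => hu.2 (Finset.mem_sdiff.mp h).1⟩
    have h3 := Finset.card_le_card h2
    rw [Finset.card_sdiff_of_subset h1] at h3
    have h4 : (J₀ \ h).card = J₀.card - h.card := Finset.card_sdiff_of_subset (hsub J₀ hJ₀)
    have h5 : h.card ≤ J₀.card := Finset.card_le_card (hsub J₀ hJ₀)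
    have h6 := ((hFm J₀).mp hJ₀).2.2.2.2
    have h7 := Finset.card_le_card h1
    omega
  -- the state map
  let st : Finset (V × V) → (C → Fin 3) := fun J c =>
    if (c : V × V) ∈ J then 0 else if ∃ z ∈ J, ¬ Cmp G (c : V × V) z then 1 else 2
  have key : ∀ J ∈ F, ∀ J' ∈ F, st J = st J' → J ⊆ J' := by
    intro J hJ J' hJ' hst u hu
    have hGJ := ((hFm J).mp hJ).1
    have hGJ' := ((hFm J').mp hJ').1
    have hcJ' := ((hFm J').mp hJ').2.1
    by_cases hug : u ∈ h
    · exact hsub J' hJ' hug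
    have huΩ := hJΩ J hJ u hu hug
    -- states of an element of `C`
    have hs : ∀ c ∈ C, (c ∈ J ↔ c ∈ J') ∧
        (c ∉ J → ((∃ z ∈ J, ¬ Cmp G c z) ↔ (∃ z ∈ J', ¬ Cmp G c z))) := by
      intro c hc
      have h := congrFun hst ⟨c, hc⟩
      simp only [st] at h
      by_cases h1 : c ∈ J <;> by_cases h2 : c ∈ J' <;>
        by_cases h3 : (∃ z ∈ J, ¬ Cmp G c z) <;> by_cases h4 : (∃ z ∈ J', ¬ Cmp G c z) <;>
        simp [h1, h2, h3, h4] at h ⊢
    by_cases hu0 : u ∈ J₀
    · by_contra huJ'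
      by_cases hcomp : ∀ z ∈ J', Cmp G u z
      · obtain ⟨w, hw, huw⟩ := hcJ' u huJ' hcomp
        have hwJ' : w ∉ J' := fun h => huw (hcomp w h)
        have hwJ₀ : w ∉ J₀ := fun h => huw (hG₀ u hu0 w h)
        have hwΩ : w ∈ Ω := by
          rw [hmem]
          refine ⟨fun h' => ?_, fun z hz => hw z (hsub J' hJ' hz)⟩
          rw [← hhX, Finset.mem_image] at h'
          obtain ⟨z, hz, hzw⟩ := h'
          have h1 := hw z (hsub J' hJ' hz)
          have h2 : w = z := Prod.ext hzw.symm (h1.1.mp hzw.symm)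
          exact hwJ' (h2 ▸ hsub J' hJ' hz)
        have hwC : w ∈ C := Finset.mem_sdiff.mpr ⟨hwΩ, hwJ₀⟩
        have hwJ : w ∉ J := fun h => hwJ' ((hs w hwC).1.mp h)
        have h1 := ((hs w hwC).2 hwJ).mp ⟨u, hu, fun h => huw (cnt_symm h)⟩
        obtain ⟨z, hz, hz'⟩ := h1
        exact hz' (hw z hz)
      · push Not at hcomp
        obtain ⟨w, hw, huw⟩ := hcomp
        have hwJ₀ : w ∉ J₀ := fun h => huw (hG₀ u hu0 w h)
        have hwg : w ∉ h := fun h => hwJ₀ (hsub J₀ hJ₀ h)
        have hwC : w ∈ C := Finset.mem_sdiff.mpr ⟨hJΩ J' hJ' w hw hwg, hwJ₀⟩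
        have hwJ : w ∈ J := (hs w hwC).1.mpr hw
        exact huw (hGJ u hu w hwJ)
    · exact ((hs u (Finset.mem_sdiff.mpr ⟨huΩ, hu0⟩)).1).mp hu
  have hcard : F.card ≤ (univ : Finset (C → Fin 3)).card := by
    apply Finset.card_le_card_of_injOn st (fun _ _ => by simp)
    intro J hJ J' hJ' h
    have h1 : J ∈ F := by simpa using hJ
    have h2 : J' ∈ F := by simpa using hJ'
    exact Finset.Subset.antisymm (key J h1 J' h2 h) (key J' h2 J h1 h.symm)
  rw [Finset.card_univ, Fintype.card_fun, Fintype.card_fin, Fintype.card_coe] at hcard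
  calc 3 ^ (Fintype.card V - X.card - (Us G h).card) * F.card
      ≤ 3 ^ (Fintype.card V - X.card - (Us G h).card) * 3 ^ C.card := Nat.mul_le_mul_left _ hcard
    _ = 3 ^ (Fintype.card V - X.card - (Us G h).card + C.card) := by rw [pow_add]
    _ ≤ 3 ^ k := Nat.pow_le_pow_right (by norm_num) hCc

lemma cnts_step {V : Type} [Fintype V] {G : SimpleGraph V} {Xf Y : Finset V} {x : V} {k : ℕ}
    (hxY : x ∉ Y) (hu : Uniq G Y x) (hxX : x ∈ Xf)
    (IH : ∀ h : Finset (V × V), h.image Prod.fst = insert x Y →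
      3 ^ (Fintype.card V - (insert x Y).card - (Us G h).card) *
        (Fs G Xf k (insert x Y) h).card ≤ 3 ^ k)
    (h : Finset (V × V)) (hhY : h.image Prod.fst = Y) :
    3 ^ (Fintype.card V - Y.card - (Us G h).card) * (Fs G Xf k Y h).card ≤ 3 ^ k := by
  rcases (Fs G Xf k Y h).eq_empty_or_nonempty with h0 | ⟨J₀, hJ₀⟩
  · rw [h0]; simp
  have hgood : Good G h := by
    rw [Fs, Finset.mem_filter] at hJ₀
    intro u hu w hw
    rw [← hJ₀.2.2.2.1, Finset.mem_filter] at hu hw
    exact hJ₀.2.1 u hu.1 w hw.1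
  set B : Finset V := univ.filter fun y => ∀ z ∈ h, Cmp G (x, y) z with hB
  have hBm : ∀ y, y ∈ B ↔ ∀ z ∈ h, Cmp G (x, y) z := by
    intro y; simp [hB]
  have hcover : Fs G Xf k Y h ⊆ B.biUnion fun y => Fs G Xf k (insert x Y) (insert (x, y) h) := by
    intro J hJ
    rw [Fs, Finset.mem_filter] at hJ
    obtain ⟨-, hJg, hJc, hJY, hJX, hJk⟩ := hJ
    obtain ⟨u, hu, hux⟩ := Finset.mem_image.mp (hJX hxX)
    have hh : ∀ z ∈ h, z ∈ J := by
      intro z hz
      rw [← hJY, Finset.mem_filter] at hz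
      exact hz.1
    rw [Finset.mem_biUnion]
    refine ⟨u.2, (hBm _).mpr fun z hz => ?_, ?_⟩
    · have h1 := hJg u hu z (hh z hz)
      rw [← hux]
      exact h1
    · rw [Fs, Finset.mem_filter]
      refine ⟨Finset.mem_univ _, hJg, hJc, ?_, hJX, hJk⟩
      ext z
      rw [Finset.mem_filter, Finset.mem_insert, Finset.mem_insert]
      constructor
      · rintro ⟨hz, hz1 | hz2⟩
        · left
          have h1 := hJg z hz u hu
          exact Prod.ext hz1 (h1.1.mp (hz1.trans hux.symm))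
        · right
          rw [← hJY, Finset.mem_filter]
          exact ⟨hz, hz2⟩
      · rintro (hz | hz)
        · subst hz
          refine ⟨?_, Or.inl rfl⟩
          have h1 : ((x, u.2) : V × V) = u := Prod.ext hux.symm rfl
          rw [h1]
          exact hu
        · rw [← hJY, Finset.mem_filter] at hz
          exact ⟨hz.1, Or.inr hz.2⟩
  rcases B.eq_empty_or_nonempty with hB0 | ⟨y₀, hy₀⟩
  · exfalso
    have h1 := hcover hJ₀
    rw [hB0] at h1
    simp at h1
  have hBc : 1 ≤ B.card := Finset.card_pos.mpr ⟨y₀, hy₀⟩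
  have hBU : B ⊆ Us G h := by
    intro y hy
    rw [Us, Finset.mem_filter]
    exact ⟨Finset.mem_univ _, x, by rw [hhY]; exact hxY, (hBm y).mp hy⟩
  have hUy : ∀ y ∈ B, Us G (insert (x, y) h) ⊆ Us G h \ B := by
    intro y hy w hw
    rw [Us, Finset.mem_filter] at hw
    obtain ⟨-, v, hv, hvz⟩ := hw
    rw [Finset.image_insert, hhY, Finset.mem_insert, not_or] at hv
    have hcv : ∀ z ∈ h, Cmp G (v, w) z := fun z hz => hvz z (Finset.mem_insert_of_mem hz)
    rw [Finset.mem_sdiff]
    refine ⟨?_, fun hwB => ?_⟩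
    · rw [Us, Finset.mem_filter]
      exact ⟨Finset.mem_univ _, v, by rw [hhY]; exact hv.2, hcv⟩
    · obtain ⟨z₁, hz₁, hsep⟩ := hu v hv.2 hv.1
      rw [← hhY, Finset.mem_image] at hz₁
      obtain ⟨z, hz, rfl⟩ := hz₁
      apply hsep
      have h2 := (hcv z hz).2
      have h3 := ((hBm w).mp hwB z hz).2
      simp only at h2 h3
      rw [G.adj_comm z.1 v, G.adj_comm z.1 x, h2, h3]
  have hUc : (Us G h).card + Y.card ≤ Fintype.card V := by
    rw [← hhY]; exact Us_card hgood
  have hone : ∀ y ∈ B, 3 ^ (Fintype.card V - Y.card - (Us G h).card + (B.card - 1)) *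
      (Fs G Xf k (insert x Y) (insert (x, y) h)).card ≤ 3 ^ k := by
    intro y hy
    refine le_trans (Nat.mul_le_mul_right _ (Nat.pow_le_pow_right (by norm_num) ?_))
      (IH (insert (x, y) h) (by rw [Finset.image_insert, hhY]))
    have h1 := Finset.card_le_card (hUy y hy)
    rw [Finset.card_sdiff_of_subset hBU] at h1
    have h2 := Finset.card_le_card hBU
    rw [Finset.card_insert_of_notMem hxY]
    omega
  have hsum : (Fs G Xf k Y h).card ≤
      ∑ y ∈ B, (Fs G Xf k (insert x Y) (insert (x, y) h)).card :=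
    (Finset.card_le_card hcover).trans Finset.card_biUnion_le
  have hfin : 3 ^ (B.card - 1) *
      (3 ^ (Fintype.card V - Y.card - (Us G h).card) * (Fs G Xf k Y h).card) ≤
      3 ^ (B.card - 1) * 3 ^ k := by
    calc 3 ^ (B.card - 1) *
        (3 ^ (Fintype.card V - Y.card - (Us G h).card) * (Fs G Xf k Y h).card)
        = 3 ^ (Fintype.card V - Y.card - (Us G h).card + (B.card - 1)) *
          (Fs G Xf k Y h).card := by rw [pow_add]; ring
      _ ≤ 3 ^ (Fintype.card V - Y.card - (Us G h).card + (B.card - 1)) *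
          ∑ y ∈ B, (Fs G Xf k (insert x Y) (insert (x, y) h)).card :=
          Nat.mul_le_mul_left _ hsum
      _ = ∑ y ∈ B, 3 ^ (Fintype.card V - Y.card - (Us G h).card + (B.card - 1)) *
          (Fs G Xf k (insert x Y) (insert (x, y) h)).card := Finset.mul_sum _ _ _
      _ ≤ ∑ y ∈ B, 3 ^ k := Finset.sum_le_sum hone
      _ = B.card * 3 ^ k := by rw [Finset.sum_const, smul_eq_mul]
      _ ≤ 3 ^ (B.card - 1) * 3 ^ k := by
          apply Nat.mul_le_mul_right
          have h1 : B.card - 1 < 3 ^ (B.card - 1) := Nat.lt_pow_self (by norm_num)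
          omega
  exact Nat.le_of_mul_le_mul_left hfin (by positivity)

theorem specCNTS : SpecCNTS := by
  intro V _ G X₀ X hR hX g k hg
  have hsubs : ∀ Z, Reach G X₀ Z → Z ⊆ X →
      (∀ h : Finset (V × V), h.image Prod.fst = Z →
        3 ^ (Fintype.card V - Z.card - (Us G h).card) * (Fs G X k Z h).card ≤ 3 ^ k) →
      (∀ h : Finset (V × V), h.image Prod.fst = X₀ →
        3 ^ (Fintype.card V - X₀.card - (Us G h).card) * (Fs G X k X₀ h).card ≤ 3 ^ k) := by
    intro Z hZ
    induction hZ with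
    | base => exact fun _ h => h
    | step hY hx hu ih =>
      intro hsub hP
      refine ih (fun z hz => hsub (Finset.mem_insert_of_mem hz)) ?_
      exact cnts_step hx hu (hsub (Finset.mem_insert_self _ _)) hP
  have h1 := hsubs X hR (Finset.Subset.refl _) (fun h hh => cnts_base hX k h hh) g hg
  have h2 : (Fs G X k X₀ g).card ≤ 3 ^ k := by
    refine le_trans ?_ h1
    exact Nat.le_mul_of_pos_left _ (by positivity)
  exact h2

end Pool.Agent.Lib.MP50ecf8.LOC
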