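import Pool.Agent.Lib.MP_50ecf8_co.LOC.Spec5

/-!
# Twins: the count (module CNTT)
-/

set_option autoImplicit false

open Finset
open scoped Classical

namespace Pool.Agent.Lib.MP50ecf8.LOC

namespace CNTTM

lemma clT_insert {V : Type} {G : SimpleGraph V} {T Y : Finset V} {x : V} (hT : Trv G T)
    (hY : ClT G T Y) (hx : x ∈ T) : ClT G T (insert x Y) := by
  intro u hu t ht hut
  rcases Finset.mem_insert.mp hu with rfl | hu
  · rw [← hT.2 u hx t ht hut]
    exact Finset.mem_insert_self _ _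
  · exact Finset.mem_insert_of_mem (hY u hu t ht hut)

lemma clT_reach {V : Type} {G : SimpleGraph V} {T X₀ X : Finset V} (hT : Trv G T)
    (h0 : ClT G T X₀) (h : ReachT G T X₀ X) : ClT G T X := by
  induction h with
  | base => exact h0
  | step _ _ hx _ ih => exact clT_insert hT ih hx

/-- the counting statement for the set `Y` -/
def P {V : Type} [Fintype V] (G : SimpleGraph V) (T X : Finset V) (k : ℕ) (Y : Finset V) : Prop :=
  ∀ h : Finset (V × V), h.image Prod.fst = Y →
    ∀ (D : Finset V) (κ : ℕ), (∀ y ∈ D, y ∉ UT G Y h) →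
    (∀ J ∈ AdT G T X k Y h, κ ≤ (D \ J.image Prod.snd).card) →
    2 ^ κ * (FT G T X k Y h).card ≤ 4 ^ k

lemma down (hS : SpecSTPT) {V : Type} [Fintype V] {G : SimpleGraph V} {T X₀ X Z : Finset V}
    {k : ℕ} (hT : Trv G T) (h0 : ClT G T X₀) (h : ReachT G T X₀ Z) (hZ : Z ⊆ X)
    (hP : P G T X k Z) : P G T X k X₀ := by
  induction h with
  | base => exact hP
  | @step Y x hY hxY hxT hU ih =>
    exact ih ((Finset.subset_insert _ _).trans hZ)
      (hS V G T X Y x k hT (clT_reach hT h0 hY) hxY hxT (hZ (Finset.mem_insert_self _ _)) hU hP)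

end CNTTM

open CNTTM in
/-- Module CNTT. -/
theorem specCNTT (hBCT : SpecBCT) (hSTPT : SpecSTPT) : SpecCNTT := by
  intro V _ G T X₀ X k hT h0 hR hX g hg
  have hP : P G T X k X := fun h hh D κ hD hκ =>
    hBCT V G T X k h hT hX (clT_reach hT h0 hR) hh D κ hD hκ
  have h1 := down hSTPT hT h0 hR (Finset.Subset.refl X) hP g hg ∅ 0 (fun y hy => by simp at hy)
    (fun J hJ => Nat.zero_le _)
  simpa using h1

end Pool.Agent.Lib.MP50ecf8.LOC
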