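import Pool.Agent.Lib.MP_50ecf8_co.LOC.Spec6

/-!
# Twins and near twins: the count (module CNTU)
-/

set_option autoImplicit false

open Finset
open scoped Classical

namespace Pool.Agent.Lib.MP50ecf8.LOC

namespace CNTUM

lemma clT_insert {V : Type} {G : SimpleGraph V} {T Y : Finset V} {x : V} (hT : Trv G T)
    (hY : ClT G T Y) (hx : x ∈ T) : ClT G T (insert x Y) := by
  intro u hu t ht hut
  rcases Finset.mem_insert.mp hu with rfl | hu
  · rw [← hT.2 u hx t ht hut]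
    exact Finset.mem_insert_self _ _
  · exact Finset.mem_insert_of_mem (hY u hu t ht hut)

lemma clT_paid {V : Type} {G : SimpleGraph V} {T Y Z : Finset V} (hT : Trv G T)
    (hY : ClT G T Y) (hYZ : Y ⊆ Z) (hZ : Z \ Y ⊆ T) : ClT G T Z := by
  intro u hu t ht hut
  by_cases huY : u ∈ Y
  · exact hYZ (hY u huY t ht hut)
  · rw [← hT.2 u (hZ (Finset.mem_sdiff.2 ⟨hu, huY⟩)) t ht hut]
    exact hu

lemma clT_rc {V : Type} [Fintype V] {G : SimpleGraph V} {T X₀ X : Finset V} {K c : ℝ}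
    (hT : Trv G T) (h0 : ClT G T X₀) (h : RC G T X₀ K X c) : ClT G T X := by
  induction h with
  | base => exact h0
  | free _ _ hx _ ih => exact clT_insert hT ih hx
  | paid _ hYZ hZ _ _ _ _ ih => exact clT_paid hT ih hYZ hZ

/-- the counting statement for the set `Y` with the bound `M` -/
def P {V : Type} [Fintype V] (G : SimpleGraph V) (T X : Finset V) (k : ℕ) (M : ℝ)
    (Y : Finset V) : Prop :=
  ∀ h : Finset (V × V), h.image Prod.fst = Y →
    ∀ (D : Finset V) (κ : ℕ), (∀ y ∈ D, y ∉ UT G Y h) →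
    (∀ J ∈ AdT G T X k Y h, κ ≤ (D \ J.image Prod.snd).card) →
    2 ^ κ * ((FT G T X k Y h).card : ℝ) ≤ M

lemma down (hS : SpecSTPM) (hPAY : SpecPAY) {V : Type} [Fintype V] {G : SimpleGraph V}
    {T X₀ X Z : Finset V} {k : ℕ} {K c : ℝ} (hT : Trv G T) (h0 : ClT G T X₀)
    (hkK : (k : ℝ) ≤ K) (h : RC G T X₀ K Z c) : ∀ M : ℝ, 0 ≤ M → Z ⊆ X →
    P G T X k M Z → P G T X k (M * c) X₀ := by
  have hK : 0 ≤ K := (Nat.cast_nonneg k).trans hkK
  induction h with
  | base =>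
    intro M _ _ hP
    rw [mul_one]
    exact hP
  | @free Y x c hY hxY hxT hU ih =>
    intro M hM hZ hP
    exact ih M hM ((Finset.subset_insert _ _).trans hZ)
      (hS V G T X Y x k M hT (clT_rc hT h0 hY) hxY hxT (hZ (Finset.mem_insert_self _ _)) hU hM hP)
  | @paid Y Z c R n hY hYZ hZT hn hc hR hR0 ih =>
    intro M hM hZ hP
    have hb : 0 ≤ (n : ℝ) * (1 + K / R) := by positivity
    have h1 := ih (M * ((n : ℝ) * (1 + K / R)) ^ R) (mul_nonneg hM (Real.rpow_nonneg hb R))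
      (hYZ.trans hZ) (hPAY V G T X Y Z n k K R M hYZ hZ hn hc hR hR0 hkK hM hP)
    have e : M * ((n : ℝ) * (1 + K / R)) ^ R * c = M * (c * ((n : ℝ) * (1 + K / R)) ^ R) := by
      ring
    rwa [e] at h1

end CNTUM

open CNTUM in
/-- Module CNTU. -/
theorem specCNTU (hBCT : SpecBCT) (hSTPM : SpecSTPM) (hPAY : SpecPAY) : SpecCNTU := by
  intro V _ G T X₀ X k K c hT h0 hR hX hkK g hg
  have hP : P G T X k ((4 : ℝ) ^ k) X := by
    intro h hh D κ hD hκ
    have h1 := hBCT V G T X k h hT hX (clT_rc hT h0 hR) hh D κ hD hκ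
    exact_mod_cast h1
  have h1 := down hSTPM hPAY hT h0 hkK hR ((4 : ℝ) ^ k) (by positivity) (Finset.Subset.refl X) hP
    g hg ∅ 0 (fun y hy => by simp at hy) (fun J hJ => Nat.zero_le _)
  simpa using h1

end Pool.Agent.Lib.MP50ecf8.LOC
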