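import Pool.Agent.Lib.MP_50ecf8_co.LOC.Spec9

/-!
# Classes of twins of any sizes: the count (module CNTZ, adapted from CNTU; helper64)
-/

set_option autoImplicit false

open Finset
open scoped Classical

namespace Pool.Agent.Lib.MP50ecf8.LOC

namespace CNTZM

lemma sqa_sub {V : Type} [Fintype V] {G : SimpleGraph V} {A Y Z : Finset V} {n j : ℕ}
    (h : SQA G A n Y Z j) : Y ⊆ Z := by
  induction h with
  | base => exact Finset.Subset.refl _
  | step _ _ _ _ ih => exact ih.trans (Finset.subset_insert _ _)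

/-- the counting statement for the set `Y` with the bound `M` -/
def P {V : Type} [Fintype V] (G : SimpleGraph V) (T X : Finset V) (k : ℕ) (M : ℝ)
    (Y : Finset V) : Prop :=
  ∀ h : Finset (V × V), h.image Prod.fst = Y →
    ∀ (D : Finset V) (κ : ℕ), (∀ y ∈ D, y ∉ UT G Y h) →
    (∀ J ∈ AdT G T X k Y h, κ ≤ (D \ J.image Prod.snd).card) →
    2 ^ κ * ((FT G T X k Y h).card : ℝ) ≤ M

lemma down (hS : SpecSTPM) (hPAY : SpecPAYZ) (hSEQ : SpecSEQZ) {V : Type} [Fintype V]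
    {G : SimpleGraph V} {T A X₀ X Z : Finset V} {k : ℕ} {K c : ℝ} (hT : Trv G T)
    (hTK : (T.card : ℝ) ≤ K) (h : RZ G T A X₀ K Z c) : ∀ M : ℝ, 0 ≤ M → Z ⊆ X →
    P G T X k M Z → P G T X k (M * c) X₀ := by
  have hK : 0 ≤ K := (Nat.cast_nonneg T.card).trans hTK
  induction h with
  | base =>
    intro M _ _ hP
    rw [mul_one]
    exact hP
  | @free Y x c hY hxY hxT hCl hU ih =>
    intro M hM hZ hP
    exact ih M hM ((Finset.subset_insert _ _).trans hZ)
      (hS V G T X Y x k M hT hCl hxY hxT (hZ (Finset.mem_insert_self _ _)) hU hM hP)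
  | @paid Y Z c R n hY hYZ hZA hn hc hR hR0 ih =>
    intro M hM hZ hP
    have hb : 0 ≤ (n : ℝ) * (1 + K / R) := by positivity
    have h1 := ih (M * ((n : ℝ) * (1 + K / R)) ^ R) (mul_nonneg hM (Real.rpow_nonneg hb R))
      (hYZ.trans hZ) (hPAY V G T A X Y Z n k K R M hT hYZ hZ hZA hn hc hR hR0 hTK hM hP)
    have e : M * ((n : ℝ) * (1 + K / R)) ^ R * c = M * (c * ((n : ℝ) * (1 + K / R)) ^ R) := by
      ring
    rwa [e] at h1
  | @seq Y Z c R n j hY hsq hn hj hR0 ih =>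
    intro M hM hZ hP
    have hlog : 0 ≤ Real.log (n : ℝ) := Real.log_natCast_nonneg n
    have hb : 0 ≤ (n : ℝ) * (1 + K * (1 + Real.log n) / R) := by positivity
    have h1 := ih (M * ((n : ℝ) * (1 + K * (1 + Real.log n) / R)) ^ R)
      (mul_nonneg hM (Real.rpow_nonneg hb R)) ((sqa_sub hsq).trans hZ)
      (hSEQ V G T A X Y Z n j k K R M hT hsq hZ hn hj hR0 hTK hM hP)
    have e : M * ((n : ℝ) * (1 + K * (1 + Real.log n) / R)) ^ R * c =
        M * (c * ((n : ℝ) * (1 + K * (1 + Real.log n) / R)) ^ R) := by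
      ring
    rwa [e] at h1

end CNTZM

open CNTZM in
/-- Module CNTZ. -/
theorem specCNTZ (hBCT : SpecBCT) (hSTPM : SpecSTPM) (hPAYZ : SpecPAYZ) (hSEQZ : SpecSEQZ) :
    SpecCNTZ := by
  intro V _ G T A X₀ X k K c hT hR hCl hX hTK g hg
  have hP : P G T X k ((4 : ℝ) ^ k) X := by
    intro h hh D κ hD hκ
    have h1 := hBCT V G T X k h hT hX hCl hh D κ hD hκ
    exact_mod_cast h1
  have h1 := down hSTPM hPAYZ hSEQZ hT hTK hR ((4 : ℝ) ^ k) (by positivity)
    (Finset.Subset.refl X) hP g hg ∅ 0 (fun y hy => by simp at hy) (fun J hJ => Nat.zero_le _)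
  simpa using h1

end Pool.Agent.Lib.MP50ecf8.LOC
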