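import Pool.Agent.Lib.MP_50ecf8_co.LOC.Spec5

/-!
Module CONT: the graph on the union of a transversal and any set is connected.
-/

set_option autoImplicit false

open Finset
open scoped Classical

namespace Pool.Agent.Lib.MP50ecf8.LOC

namespace CONTM

theorem reach {V : Type} (G : SimpleGraph V) (S : Set V) (r : V → V) (hr : ∀ v, Tw G v (r v))
    (hS : ∀ v, r v ∈ S) {u v : V} (h : G.Reachable u v) :
    (G.induce S).Reachable ⟨r u, hS u⟩ ⟨r v, hS v⟩ := by
  obtain ⟨p⟩ := h
  induction p with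
  | nil => exact SimpleGraph.Reachable.refl _
  | @cons a b c hab p ih =>
    refine SimpleGraph.Reachable.trans ?_ ih
    by_cases he : r a = r b
    · have : (⟨r a, hS a⟩ : S) = ⟨r b, hS b⟩ := Subtype.ext he
      rw [this]
    · refine SimpleGraph.Adj.reachable ?_
      rw [SimpleGraph.comap_adj]
      exact (Tw.adj (hr a) (hr b) hab.ne he).mp hab

theorem first_step {V : Type} (G : SimpleGraph V) {u v : V} (h : G.Reachable u v) (huv : u ≠ v) :
    ∃ w, G.Adj u w := by
  obtain ⟨p⟩ := h
  cases p with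
  | nil => exact absurd rfl huv
  | @cons _ b _ hab p => exact ⟨b, hab⟩

end CONTM

theorem specCONT : SpecCONT := by
  intro V _ G T B hT hG hc
  choose r hrT hr using hT.1
  have hrid : ∀ v ∈ T, r v = v := fun v hv => (hT.2 v hv (r v) (hrT v) (hr v)).symm
  have hnb : ∀ v ∈ T, ∃ w ∈ T, G.Adj v w := by
    intro v hv
    obtain ⟨u, hu, huv⟩ : ∃ u ∈ T, u ≠ v := Finset.exists_mem_ne (by omega) v
    have h1 := CONTM.reach G (T : Set V) r hr (fun v => hrT v) (hG.preconnected v u)
    obtain ⟨w, hw⟩ := CONTM.first_step _ h1 (by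
      intro h
      have h2 := congrArg Subtype.val h
      simp only [hrid v hv, hrid u hu] at h2
      exact huv h2.symm)
    rw [SimpleGraph.comap_adj] at hw
    refine ⟨w.1, w.2, ?_⟩
    have h3 : G.Adj (r v) w.1 := hw
    rwa [hrid v hv] at h3
  refine ⟨?_, hnb⟩
  have hsub : ∀ v, r v ∈ ((T ∪ B : Finset V) : Set V) := fun v => by
    rw [Finset.mem_coe]
    exact Finset.mem_union_left _ (hrT v)
  -- every vertex is joined to its representative
  have hto : ∀ x : ((T ∪ B : Finset V) : Set V),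
      (G.induce ((T ∪ B : Finset V) : Set V)).Reachable x ⟨r x.1, hsub x.1⟩ := by
    rintro ⟨v, hv⟩
    by_cases hvT : v ∈ T
    · have : (⟨v, hv⟩ : ((T ∪ B : Finset V) : Set V)) = ⟨r v, hsub v⟩ :=
        Subtype.ext (hrid v hvT).symm
      simp only
      rw [← this]
    · obtain ⟨w, hw, hadj⟩ := hnb (r v) (hrT v)
      have hwv : w ≠ v := fun h => hvT (h ▸ hw)
      have hwS : w ∈ ((T ∪ B : Finset V) : Set V) := by
        rw [Finset.mem_coe]
        exact Finset.mem_union_left _ hw
      have h1 : G.Adj w v := (hr v w hwv hadj.ne').mpr hadj.symm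
      have e1 : (G.induce ((T ∪ B : Finset V) : Set V)).Adj ⟨v, hv⟩ ⟨w, hwS⟩ := by
        rw [SimpleGraph.comap_adj]
        exact h1.symm
      have e2 : (G.induce ((T ∪ B : Finset V) : Set V)).Adj ⟨w, hwS⟩ ⟨r v, hsub v⟩ := by
        rw [SimpleGraph.comap_adj]
        exact hadj.symm
      exact e1.reachable.trans e2.reachable
  have hpre : (G.induce ((T ∪ B : Finset V) : Set V)).Preconnected := by
    intro x y
    exact (hto x).trans ((CONTM.reach G _ r hr hsub (hG.preconnected x.1 y.1)).trans (hto y).symm)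
  obtain ⟨t, ht⟩ : T.Nonempty := Finset.card_pos.mp (by omega)
  have : Nonempty ((T ∪ B : Finset V) : Set V) := ⟨⟨t, by
    rw [Finset.mem_coe]
    exact Finset.mem_union_left _ ht⟩⟩
  exact ⟨hpre⟩

end Pool.Agent.Lib.MP50ecf8.LOC
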