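import Pool.Agent.Lib.MP_50ecf8_co.LOC.Spec

/-!
# The number of partial isomorphisms with domain `X`, in terms of embeddings
-/

set_option autoImplicit false

open Finset
open scoped Classical

namespace Pool.Agent.Lib.MP50ecf8.LOC

namespace EMBM

theorem exIm {V : Type} {I : Finset (V × V)} {X : Finset V} (hI : I.image Prod.fst = X)
    (x : V) (hx : x ∈ X) : ∃ y, (x, y) ∈ I := by
  rw [← hI] at hx
  obtain ⟨⟨x', y⟩, h, h'⟩ := Finset.mem_image.mp hx
  exact ⟨y, by rw [← h']; exact h⟩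

/-- the embedding given by a partial isomorphism with domain `X` -/
noncomputable def toEmb {V : Type} (G : SimpleGraph V) (X : Finset V) (I : Finset (V × V))
    (hg : Good G I) (hI : I.image Prod.fst = X) : G.induce (X : Set V) ↪g G where
  toFun x := Classical.choose (exIm hI x.1 (Finset.mem_coe.mp x.2))
  inj' := by
    intro x x' h
    have h1 := Classical.choose_spec (exIm hI x.1 (Finset.mem_coe.mp x.2))
    have h2 := Classical.choose_spec (exIm hI x'.1 (Finset.mem_coe.mp x'.2))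
    exact Subtype.ext ((hg _ h1 _ h2).1.mpr h)
  map_rel_iff' := by
    intro x x'
    have h1 := Classical.choose_spec (exIm hI x.1 (Finset.mem_coe.mp x.2))
    have h2 := Classical.choose_spec (exIm hI x'.1 (Finset.mem_coe.mp x'.2))
    exact (hg _ h1 _ h2).2.symm

theorem toEmb_mem {V : Type} (G : SimpleGraph V) (X : Finset V) (I : Finset (V × V))
    (hg : Good G I) (hI : I.image Prod.fst = X) (x : (X : Set V)) :
    ((x : V), toEmb G X I hg hI x) ∈ I :=
  Classical.choose_spec (exIm hI x.1 (Finset.mem_coe.mp x.2))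

theorem uniq {V : Type} {G : SimpleGraph V} {I : Finset (V × V)} (hg : Good G I) {x y z : V}
    (h1 : (x, y) ∈ I) (h2 : (x, z) ∈ I) : y = z :=
  (hg _ h1 _ h2).1.mp rfl

theorem subset {V : Type} (G : SimpleGraph V) (X : Finset V) (I J : Finset (V × V))
    (hg : Good G I) (hI : I.image Prod.fst = X) (hg' : Good G J) (hJ : J.image Prod.fst = X)
    (h : toEmb G X I hg hI = toEmb G X J hg' hJ) : I ⊆ J := by
  rintro ⟨x, y⟩ hxy
  have hx : x ∈ X := by
    rw [← hI]; exact Finset.mem_image.mpr ⟨(x, y), hxy, rfl⟩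
  have h1 := toEmb_mem G X I hg hI ⟨x, Finset.mem_coe.mpr hx⟩
  have h2 := toEmb_mem G X J hg' hJ ⟨x, Finset.mem_coe.mpr hx⟩
  rw [← h, uniq hg h1 hxy] at h2
  exact h2

theorem mem_emb {V : Type} [Fintype V] {G : SimpleGraph V} {a r : V} {X : Finset V}
    {I : Finset (V × V)} :
    I ∈ emb G a r X ↔ Good G I ∧ (a, r) ∈ I ∧ I.image Prod.fst = X := by
  simp [emb]

end EMBM

open EMBM

theorem specEMB : SpecEMB := by
  intro V _ G a b X ha hab
  have hdisj : Disjoint (emb G a a X) (emb G a b X) := by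
    rw [Finset.disjoint_left]
    intro I h1 h2
    rw [mem_emb] at h1 h2
    exact hab (uniq h1.1 h1.2.1 h2.2.1)
  rw [← Finset.card_union_of_disjoint hdisj]
  have hm : ∀ I ∈ emb G a a X ∪ emb G a b X,
      Good G I ∧ I.image Prod.fst = X ∧ ((a, a) ∈ I ∨ (a, b) ∈ I) := by
    intro I hI
    rw [Finset.mem_union, mem_emb, mem_emb] at hI
    rcases hI with h | h
    · exact ⟨h.1, h.2.2, Or.inl h.2.1⟩
    · exact ⟨h.1, h.2.2, Or.inr h.2.1⟩
  have : Finite (G.induce (X : Set V) ↪g G) :=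
    Finite.of_injective (fun f => (f : ((X : Set V) : Type) → V)) DFunLike.coe_injective
  have hcard : (emb G a a X ∪ emb G a b X).card
      = Nat.card {I // I ∈ emb G a a X ∪ emb G a b X} := by
    rw [Nat.card_eq_fintype_card, Fintype.card_coe]
  rw [hcard]
  refine Nat.card_le_card_of_injective
    (fun I => ⟨toEmb G X I.1 (hm I.1 I.2).1 (hm I.1 I.2).2.1, ?_⟩) ?_
  · have h1 := toEmb_mem G X I.1 (hm I.1 I.2).1 (hm I.1 I.2).2.1 ⟨a, Finset.mem_coe.mpr ha⟩
    rcases (hm I.1 I.2).2.2 with h | h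
    · exact Or.inl (uniq (hm I.1 I.2).1 h1 h)
    · exact Or.inr (uniq (hm I.1 I.2).1 h1 h)
  · intro I J h
    have h' := congrArg Subtype.val h
    apply Subtype.ext
    exact Finset.Subset.antisymm
      (subset G X I.1 J.1 (hm I.1 I.2).1 (hm I.1 I.2).2.1 (hm J.1 J.2).1 (hm J.1 J.2).2.1 h')
      (subset G X J.1 I.1 (hm J.1 J.2).1 (hm J.1 J.2).2.1 (hm I.1 I.2).1 (hm I.1 I.2).2.1 h'.symm)

end Pool.Agent.Lib.MP50ecf8.LOC
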