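import Pool.Agent.Lib.MP_50ecf8_co.LOC.MAINK
import Pool.Agent.Lib.MP_50ecf8_co.LOC.EMB

/-!
# The criterion in terms of embeddings which extend to large induced subgraphs
-/

set_option autoImplicit false

open Finset
open scoped Classical

namespace Pool.Agent.Lib.MP50ecf8.LOC

/-- the partial isomorphisms with domain `X₀`, `a ↦ a` or `a ↦ b`, which extend to one whose domain
contains `X` and misses exactly `k` vertices -/
noncomputable def embX {V : Type} [Fintype V] (G : SimpleGraph V) (a b : V) (X₀ X : Finset V)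
    (k : ℕ) : Finset (Finset (V × V)) :=
  univ.filter fun I => Good G I ∧ ((a, a) ∈ I ∨ (a, b) ∈ I) ∧ I.image Prod.fst = X₀ ∧
    ∃ J, Good G J ∧ I ⊆ J ∧ X ⊆ J.image Prod.fst ∧ J.card + k = Fintype.card V

theorem critX (hKEL : SpecKEL) (hINC : SpecINC) (hTOG : SpecTOG) (hCNTS : SpecCNTS)
    (V : Type) [Fintype V] (G : SimpleGraph V) (a b : V) (X₀ X : Finset V) (ha₀ : a ∈ X₀)
    (hR : Reach G X₀ X) (hX : Locating G X) (hH : H2 G a b) (hno : ¬ ∃ φ : G ≃g G, φ a = b)
    (k : ℕ) (hk : k ≤ Fintype.card V - X.card) :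
    (Fintype.card V - X.card).choose k ≤ 3 ^ k * (embX G a b X₀ X k).card := by
  have hX₀X := reach_sub hR
  have ha : a ∈ X := hX₀X ha₀
  set m := Fintype.card V - X.card with hm
  have hXV : X.card ≤ Fintype.card V := Finset.card_le_univ X
  set F := (univ : Finset (Finset (V × V))).filter fun J => Good G J ∧ Closed G J ∧
        J.filter (fun u => u.1 ∈ X₀) ∈ embX G a b X₀ X k ∧ X ⊆ J.image Prod.fst ∧
        J.card + k = Fintype.card V
    with hF
  have hex : ∀ W : Finset V, W ∈ powersetCard (m - k) (univ \ X) →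
      ∃ J ∈ F, J.image Prod.fst = X ∪ W := by
    intro W hW
    rw [mem_powersetCard] at hW
    obtain ⟨hWs, hWc⟩ := hW
    have hdisj : Disjoint X W := by
      rw [Finset.disjoint_left]
      intro x hx hxW
      exact (Finset.mem_sdiff.mp (hWs hxW)).2 hx
    have haS : a ∈ X ∪ W := Finset.mem_union_left _ ha
    have hr : ∃ r, (r = a ∨ r = b) ∧ T G a r (X ∪ W) ≠ 0 := by
      rcases hINC V G a b (hKEL V G a b hH) hno (X ∪ W) with h | h
      · exact ⟨a, Or.inl rfl, h⟩
      · exact ⟨b, Or.inr rfl, h⟩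
    obtain ⟨r, hr, hT⟩ := hr
    obtain ⟨J, hJ, har, hJS, hcl⟩ := hTOG V G a r (X ∪ W) haS hT
    refine ⟨J, ?_, hJS⟩
    rw [hF, Finset.mem_filter]
    have hJc : J.card + k = Fintype.card V := by
      have h1 : (J.image Prod.fst).card = J.card := by
        apply Finset.card_image_of_injOn
        intro u hu w hw huw
        exact Prod.ext huw ((hJ u (by simpa using hu) w (by simpa using hw)).1.mp huw)
      rw [← h1, hJS, Finset.card_union_of_disjoint hdisj, hWc]
      omega
    have hXJ : X ⊆ J.image Prod.fst := by rw [hJS]; exact Finset.subset_union_left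
    refine ⟨Finset.mem_univ _, hJ, hcl, ?_, hXJ, hJc⟩
    · rw [embX, Finset.mem_filter]
      refine ⟨Finset.mem_univ _, ?_, ?_, ?_, J, hJ, Finset.filter_subset _ _, hXJ, hJc⟩
      · intro u hu w hw
        exact hJ u (Finset.mem_filter.mp hu).1 w (Finset.mem_filter.mp hw).1
      · rcases hr with rfl | rfl
        · exact Or.inl (Finset.mem_filter.mpr ⟨har, ha₀⟩)
        · exact Or.inr (Finset.mem_filter.mpr ⟨har, ha₀⟩)
      · ext x
        simp only [Finset.mem_image, Finset.mem_filter]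
        constructor
        · rintro ⟨u, ⟨_, hu⟩, rfl⟩
          exact hu
        · intro hx
          have h1 : x ∈ J.image Prod.fst := by
            rw [hJS]; exact Finset.mem_union_left _ (hX₀X hx)
          obtain ⟨u, hu, rfl⟩ := Finset.mem_image.mp h1
          exact ⟨u, ⟨hu, hx⟩, rfl⟩
  choose! f hfF hfS using hex
  have h1 : (powersetCard (m - k) (univ \ X)).card ≤ F.card := by
    apply Finset.card_le_card_of_injOn f (fun W hW => hfF W (by simpa using hW))
    intro W hW W' hW' h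
    have hW1 : W ∈ powersetCard (m - k) (univ \ X) := by simpa using hW
    have hW1' : W' ∈ powersetCard (m - k) (univ \ X) := by simpa using hW'
    have h2 := hfS W hW1
    have h3 := hfS W' hW1'
    rw [h, h3] at h2
    have hd : ∀ Y : Finset V, Y ∈ powersetCard (m - k) (univ \ X) → (X ∪ Y) \ X = Y := by
      intro Y hY
      rw [Finset.union_sdiff_left]
      apply Finset.sdiff_eq_self_of_disjoint
      rw [Finset.disjoint_right]
      intro x hx hxY
      exact (Finset.mem_sdiff.mp ((mem_powersetCard.mp hY).1 hxY)).2 hx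
    rw [← hd W hW1, ← hd W' hW1', h2]
  have h2 : F.card ≤ 3 ^ k * (embX G a b X₀ X k).card := by
    apply Finset.card_le_mul_card_image_of_maps_to (f := fun J => J.filter (fun u => u.1 ∈ X₀))
    · intro J hJ
      exact (Finset.mem_filter.mp hJ).2.2.2.1
    · intro g hg
      have hgX : g.image Prod.fst = X₀ := (Finset.mem_filter.mp hg).2.2.2.1
      refine le_trans (Finset.card_le_card ?_) (hCNTS V G X₀ X hR hX g k hgX)
      intro J hJ
      rw [Finset.mem_filter, hF, Finset.mem_filter] at hJ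
      rw [Finset.mem_filter]
      exact ⟨Finset.mem_univ _, hJ.1.2.1, hJ.1.2.2.1, hJ.2, hJ.1.2.2.2.2.1, hJ.1.2.2.2.2.2⟩
  have h3 : (powersetCard (m - k) (univ \ X)).card = m.choose k := by
    rw [Finset.card_powersetCard, Finset.card_sdiff_of_subset (Finset.subset_univ X),
      Finset.card_univ, ← hm, Nat.choose_symm hk]
  rw [h3] at h1
  exact h1.trans h2

open EMBM

/-- in terms of embeddings -/
theorem embX_card {V : Type} [Fintype V] (G : SimpleGraph V) (a b : V) (X₀ X : Finset V)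
    (ha : a ∈ X₀) (k : ℕ) :
    (embX G a b X₀ X k).card ≤
      Nat.card {g : G.induce (X₀ : Set V) ↪g G //
        (g ⟨a, Finset.mem_coe.mpr ha⟩ = a ∨ g ⟨a, Finset.mem_coe.mpr ha⟩ = b) ∧
        ∃ S : Finset V, X ⊆ S ∧ S.card + k = Fintype.card V ∧
          ∃ J : G.induce (S : Set V) ↪g G, ∀ (x : (X₀ : Set V)) (y : (S : Set V)),
            (x : V) = y → J y = g x} := by
  have hm : ∀ I ∈ embX G a b X₀ X k, Good G I ∧ I.image Prod.fst = X₀ ∧
      ((a, a) ∈ I ∨ (a, b) ∈ I) ∧ ∃ J, Good G J ∧ I ⊆ J ∧ X ⊆ J.image Prod.fst ∧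
        J.card + k = Fintype.card V := by
    intro I hI
    rw [embX, mem_filter] at hI
    exact ⟨hI.2.1, hI.2.2.2.1, hI.2.2.1, hI.2.2.2.2⟩
  have : Finite (G.induce (X₀ : Set V) ↪g G) :=
    Finite.of_injective (fun f => (f : ((X₀ : Set V) : Type) → V)) DFunLike.coe_injective
  have hcard : (embX G a b X₀ X k).card = Nat.card {I // I ∈ embX G a b X₀ X k} := by
    rw [Nat.card_eq_fintype_card, Fintype.card_coe]
  rw [hcard]
  refine Nat.card_le_card_of_injective
    (fun I => ⟨toEmb G X₀ I.1 (hm I.1 I.2).1 (hm I.1 I.2).2.1, ?_, ?_⟩) ?_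
  · have h1 := toEmb_mem G X₀ I.1 (hm I.1 I.2).1 (hm I.1 I.2).2.1 ⟨a, Finset.mem_coe.mpr ha⟩
    rcases (hm I.1 I.2).2.2.1 with h | h
    · exact Or.inl (uniq (hm I.1 I.2).1 h1 h)
    · exact Or.inr (uniq (hm I.1 I.2).1 h1 h)
  · obtain ⟨J, hJ, hIJ, hXJ, hJc⟩ := (hm I.1 I.2).2.2.2
    refine ⟨J.image Prod.fst, hXJ, ?_, toEmb G (J.image Prod.fst) J hJ rfl, ?_⟩
    · rw [← hJc]
      congr 1
      apply Finset.card_image_of_injOn
      intro u hu w hw huw
      exact Prod.ext huw ((hJ u (by simpa using hu) w (by simpa using hw)).1.mp huw)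
    · intro x y hxy
      have h1 := toEmb_mem G X₀ I.1 (hm I.1 I.2).1 (hm I.1 I.2).2.1 x
      have h2 := toEmb_mem G (J.image Prod.fst) J hJ rfl y
      rw [← hxy] at h2
      exact uniq hJ h2 (hIJ h1)
  · intro I J h
    have h' := congrArg Subtype.val h
    apply Subtype.ext
    exact Finset.Subset.antisymm
      (EMBM.subset G X₀ I.1 J.1 (hm I.1 I.2).1 (hm I.1 I.2).2.1 (hm J.1 J.2).1 (hm J.1 J.2).2.1 h')
      (EMBM.subset G X₀ J.1 I.1 (hm J.1 J.2).1 (hm J.1 J.2).2.1 (hm I.1 I.2).1 (hm I.1 I.2).2.1 h'.symm)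

end Pool.Agent.Lib.MP50ecf8.LOC
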