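import Pool.Agent.Lib.MP_50ecf8_co.LOC.CRIT

/-!
# The criterion up to automorphisms of the graph
-/

set_option autoImplicit false

open Finset
open scoped Classical

namespace Pool.Agent.Lib.MP50ecf8.LOC

/-- the image of a set of pairs under an automorphism of the target -/
noncomputable def mv {V : Type} (G : SimpleGraph V) (φ : G ≃g G) (I : Finset (V × V)) :
    Finset (V × V) := I.image fun u => (u.1, φ u.2)

theorem cmp_mv {V : Type} {G : SimpleGraph V} (φ : G ≃g G) (u w : V × V) :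
    Cmp G (u.1, φ u.2) (w.1, φ w.2) ↔ Cmp G u w := by
  unfold Cmp
  constructor
  · rintro ⟨h1, h2⟩
    exact ⟨h1.trans φ.injective.eq_iff, h2.trans φ.map_adj_iff⟩
  · rintro ⟨h1, h2⟩
    exact ⟨h1.trans φ.injective.eq_iff.symm, h2.trans φ.map_adj_iff.symm⟩

theorem mem_mv {V : Type} {G : SimpleGraph V} {φ : G ≃g G} {I : Finset (V × V)} {u : V × V} :
    (u.1, φ u.2) ∈ mv G φ I ↔ u ∈ I := by
  rw [mv, mem_image]
  constructor
  · rintro ⟨w, hw, h⟩
    have h1 : w.1 = u.1 := (Prod.ext_iff.mp h).1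
    have h2 : φ w.2 = φ u.2 := (Prod.ext_iff.mp h).2
    have h3 : w = u := Prod.ext h1 (φ.injective h2)
    rwa [← h3]
  · intro h
    exact ⟨u, h, rfl⟩

theorem good_mv {V : Type} {G : SimpleGraph V} {φ : G ≃g G} {I : Finset (V × V)}
    (h : Good G I) : Good G (mv G φ I) := by
  intro u hu w hw
  obtain ⟨u', hu', rfl⟩ := mem_image.mp hu
  obtain ⟨w', hw', rfl⟩ := mem_image.mp hw
  exact (cmp_mv φ u' w').mpr (h u' hu' w' hw')

theorem closed_mv {V : Type} {G : SimpleGraph V} {φ : G ≃g G} {I : Finset (V × V)}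
    (h : Closed G I) : Closed G (mv G φ I) := by
  intro u hu hc
  obtain ⟨u', rfl⟩ : ∃ u' : V × V, (u'.1, φ u'.2) = u :=
    ⟨(u.1, φ.symm u.2), by simp⟩
  have h1 : u' ∉ I := fun h' => hu (mem_mv.mpr h')
  have h2 : ∀ z ∈ I, Cmp G u' z := fun z hz => (cmp_mv φ u' z).mp (hc _ (mem_mv.mpr hz))
  obtain ⟨w, hw, hw'⟩ := h u' h1 h2
  refine ⟨(w.1, φ w.2), ?_, fun h' => hw' ((cmp_mv φ u' w).mp h')⟩
  intro z hz
  obtain ⟨z', hz', rfl⟩ := mem_image.mp hz
  exact (cmp_mv φ w z').mpr (hw z' hz')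

theorem fst_mv {V : Type} {G : SimpleGraph V} {φ : G ≃g G} {I : Finset (V × V)} :
    (mv G φ I).image Prod.fst = I.image Prod.fst := by
  rw [mv, image_image]
  rfl

theorem card_mv {V : Type} {G : SimpleGraph V} {φ : G ≃g G} {I : Finset (V × V)} :
    (mv G φ I).card = I.card := by
  rw [mv]
  apply card_image_of_injective
  intro u w h
  have h1 : u.1 = w.1 := (Prod.ext_iff.mp h).1
  have h2 : φ u.2 = φ w.2 := (Prod.ext_iff.mp h).2
  exact Prod.ext h1 (φ.injective h2)

theorem filter_mv {V : Type} {G : SimpleGraph V} {φ : G ≃g G} {I : Finset (V × V)}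
    (X : Finset V) :
    (mv G φ I).filter (fun u => u.1 ∈ X) = mv G φ (I.filter fun u => u.1 ∈ X) := by
  ext u
  rw [mem_filter, mv, mv, mem_image, mem_image]
  constructor
  · rintro ⟨⟨w, hw, rfl⟩, h⟩
    exact ⟨w, mem_filter.mpr ⟨hw, h⟩, rfl⟩
  · rintro ⟨w, hw, rfl⟩
    exact ⟨⟨w, (mem_filter.mp hw).1, rfl⟩, (mem_filter.mp hw).2⟩

theorem mv_symm {V : Type} {G : SimpleGraph V} {φ : G ≃g G} {I : Finset (V × V)} :
    mv G φ.symm (mv G φ I) = I := by
  rw [mv, mv, image_image]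
  have h : ((fun u : V × V => (u.1, φ.symm u.2)) ∘ fun u : V × V => (u.1, φ u.2)) = id := by
    funext u
    simp
  rw [h, image_id]

theorem critO (hKEL : SpecKEL) (hINC : SpecINC) (hTOG : SpecTOG) (hCNTS : SpecCNTS)
    (V : Type) [Fintype V] (G : SimpleGraph V) (a b : V) (X₀ X : Finset V) (ha₀ : a ∈ X₀)
    (hR : Reach G X₀ X) (hX : Locating G X) (hH : H2 G a b) (hno : ¬ ∃ φ : G ≃g G, φ a = b)
    (k : ℕ) (hk : k ≤ Fintype.card V - X.card) (R : Finset (Finset (V × V)))
    (hRep : ∀ I ∈ embX G a b X₀ X k, ∃ I₀ ∈ R, ∃ φ : G ≃g G, I = mv G φ I₀) :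
    (Fintype.card V - X.card).choose k ≤ 3 ^ k * R.card := by
  have hX₀X := reach_sub hR
  have ha : a ∈ X := hX₀X ha₀
  set m := Fintype.card V - X.card with hm
  have hXV : X.card ≤ Fintype.card V := Finset.card_le_univ X
  set F := (univ : Finset (Finset (V × V))).filter fun J => Good G J ∧ Closed G J ∧
        J.filter (fun u => u.1 ∈ X₀) ∈ R ∧ X ⊆ J.image Prod.fst ∧
        J.card + k = Fintype.card V
    with hF
  have hex : ∀ W : Finset V, W ∈ powersetCard (m - k) (univ \ X) →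
      ∃ J ∈ F, J.image Prod.fst = X ∪ W := by
    intro W hW
    rw [mem_powersetCard] at hW
    obtain ⟨hWs, hWc⟩ := hW
    have hdisj : Disjoint X W := by
      rw [Finset.disjoint_left]
      intro x hx hxW
      exact (Finset.mem_sdiff.mp (hWs hxW)).2 hx
    have haS : a ∈ X ∪ W := Finset.mem_union_left _ ha
    have hr : ∃ r, (r = a ∨ r = b) ∧ T G a r (X ∪ W) ≠ 0 := by
      rcases hINC V G a b (hKEL V G a b hH) hno (X ∪ W) with h | h
      · exact ⟨a, Or.inl rfl, h⟩
      · exact ⟨b, Or.inr rfl, h⟩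
    obtain ⟨r, hr, hT⟩ := hr
    obtain ⟨J, hJ, har, hJS, hcl⟩ := hTOG V G a r (X ∪ W) haS hT
    have hJc : J.card + k = Fintype.card V := by
      have h1 : (J.image Prod.fst).card = J.card := by
        apply Finset.card_image_of_injOn
        intro u hu w hw huw
        exact Prod.ext huw ((hJ u (by simpa using hu) w (by simpa using hw)).1.mp huw)
      rw [← h1, hJS, Finset.card_union_of_disjoint hdisj, hWc]
      omega
    have hXJ : X ⊆ J.image Prod.fst := by rw [hJS]; exact Finset.subset_union_left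
    have hmem : J.filter (fun u => u.1 ∈ X₀) ∈ embX G a b X₀ X k := by
      rw [embX, Finset.mem_filter]
      refine ⟨Finset.mem_univ _, ?_, ?_, ?_, J, hJ, Finset.filter_subset _ _, hXJ, hJc⟩
      · intro u hu w hw
        exact hJ u (Finset.mem_filter.mp hu).1 w (Finset.mem_filter.mp hw).1
      · rcases hr with rfl | rfl
        · exact Or.inl (Finset.mem_filter.mpr ⟨har, ha₀⟩)
        · exact Or.inr (Finset.mem_filter.mpr ⟨har, ha₀⟩)
      · ext x
        simp only [Finset.mem_image, Finset.mem_filter]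
        constructor
        · rintro ⟨u, ⟨_, hu⟩, rfl⟩
          exact hu
        · intro hx
          have h1 : x ∈ J.image Prod.fst := by
            rw [hJS]; exact Finset.mem_union_left _ (hX₀X hx)
          obtain ⟨u, hu, rfl⟩ := Finset.mem_image.mp h1
          exact ⟨u, ⟨hu, hx⟩, rfl⟩
    obtain ⟨I₀, hI₀, φ, hφ⟩ := hRep _ hmem
    refine ⟨mv G φ.symm J, ?_, by rw [fst_mv, hJS]⟩
    rw [hF, Finset.mem_filter]
    refine ⟨Finset.mem_univ _, good_mv hJ, closed_mv hcl, ?_, by rw [fst_mv]; exact hXJ,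
      by rw [card_mv]; exact hJc⟩
    rw [filter_mv, hφ, mv_symm]
    exact hI₀
  choose! f hfF hfS using hex
  have h1 : (powersetCard (m - k) (univ \ X)).card ≤ F.card := by
    apply Finset.card_le_card_of_injOn f (fun W hW => hfF W (by simpa using hW))
    intro W hW W' hW' h
    have hW1 : W ∈ powersetCard (m - k) (univ \ X) := by simpa using hW
    have hW1' : W' ∈ powersetCard (m - k) (univ \ X) := by simpa using hW'
    have h2 := hfS W hW1
    have h3 := hfS W' hW1'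
    rw [h, h3] at h2
    have hd : ∀ Y : Finset V, Y ∈ powersetCard (m - k) (univ \ X) → (X ∪ Y) \ X = Y := by
      intro Y hY
      rw [Finset.union_sdiff_left]
      apply Finset.sdiff_eq_self_of_disjoint
      rw [Finset.disjoint_right]
      intro x hx hxY
      exact (Finset.mem_sdiff.mp ((mem_powersetCard.mp hY).1 hxY)).2 hx
    rw [← hd W hW1, ← hd W' hW1', h2]
  have h2 : F.card ≤ 3 ^ k * R.card := by
    apply Finset.card_le_mul_card_image_of_maps_to (f := fun J => J.filter (fun u => u.1 ∈ X₀))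
    · intro J hJ
      exact (Finset.mem_filter.mp hJ).2.2.2.1
    · intro g _
      by_cases hgX : g.image Prod.fst = X₀
      · refine le_trans (Finset.card_le_card ?_) (hCNTS V G X₀ X hR hX g k hgX)
        intro J hJ
        rw [Finset.mem_filter, hF, Finset.mem_filter] at hJ
        rw [Finset.mem_filter]
        exact ⟨Finset.mem_univ _, hJ.1.2.1, hJ.1.2.2.1, hJ.2, hJ.1.2.2.2.2.1, hJ.1.2.2.2.2.2⟩
      · have h0 : (F.filter fun J => J.filter (fun u => u.1 ∈ X₀) = g) = ∅ := by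
          rw [Finset.filter_eq_empty_iff]
          intro J hJ hJg
          apply hgX
          rw [hF, Finset.mem_filter] at hJ
          rw [← hJg]
          ext x
          simp only [Finset.mem_image, Finset.mem_filter]
          constructor
          · rintro ⟨u, ⟨_, hu⟩, rfl⟩
            exact hu
          · intro hx
            obtain ⟨u, hu, rfl⟩ := Finset.mem_image.mp (hJ.2.2.2.2.1 (hX₀X hx))
            exact ⟨u, ⟨hu, hx⟩, rfl⟩
        rw [h0, Finset.card_empty]
        exact Nat.zero_le _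
  have h3 : (powersetCard (m - k) (univ \ X)).card = m.choose k := by
    rw [Finset.card_powersetCard, Finset.card_sdiff_of_subset (Finset.subset_univ X),
      Finset.card_univ, ← hm, Nat.choose_symm hk]
  rw [h3] at h1
  exact h1.trans h2

open EMBM

theorem mem_toEmb {V : Type} (G : SimpleGraph V) (X : Finset V) (I : Finset (V × V))
    (hg : Good G I) (hI : I.image Prod.fst = X) (u : V × V) :
    u ∈ I ↔ ∃ x : (X : Set V), (x : V) = u.1 ∧ toEmb G X I hg hI x = u.2 := by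
  constructor
  · intro hu
    have hx : u.1 ∈ X := by
      rw [← hI]; exact Finset.mem_image.mpr ⟨u, hu, rfl⟩
    refine ⟨⟨u.1, Finset.mem_coe.mpr hx⟩, rfl, ?_⟩
    have h1 := toEmb_mem G X I hg hI ⟨u.1, Finset.mem_coe.mpr hx⟩
    exact uniq hg h1 hu
  · rintro ⟨x, hx, hx'⟩
    have h1 := toEmb_mem G X I hg hI x
    rw [hx, hx'] at h1
    exact h1

/-- the embeddings counted -/
def NearE {V : Type} [Fintype V] (G : SimpleGraph V) (a b : V) (X₀ X : Finset V) (ha : a ∈ X₀)
    (k : ℕ) (g : G.induce (X₀ : Set V) ↪g G) : Prop :=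
  (g ⟨a, Finset.mem_coe.mpr ha⟩ = a ∨ g ⟨a, Finset.mem_coe.mpr ha⟩ = b) ∧
    ∃ S : Finset V, X ⊆ S ∧ S.card + k = Fintype.card V ∧
      ∃ J : G.induce (S : Set V) ↪g G, ∀ (x : (X₀ : Set V)) (y : (S : Set V)),
        (x : V) = y → J y = g x

theorem nearE_of {V : Type} [Fintype V] (G : SimpleGraph V) (a b : V) (X₀ X : Finset V)
    (ha : a ∈ X₀) (k : ℕ) (I : Finset (V × V)) (hI : I ∈ embX G a b X₀ X k) :
    ∃ (hg : Good G I) (hi : I.image Prod.fst = X₀), NearE G a b X₀ X ha k (toEmb G X₀ I hg hi) := by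
  rw [embX, mem_filter] at hI
  obtain ⟨-, hg, hab, hi, J, hJ, hIJ, hXJ, hJc⟩ := hI
  refine ⟨hg, hi, ?_, J.image Prod.fst, hXJ, ?_, toEmb G (J.image Prod.fst) J hJ rfl, ?_⟩
  · have h1 := toEmb_mem G X₀ I hg hi ⟨a, Finset.mem_coe.mpr ha⟩
    rcases hab with h | h
    · exact Or.inl (uniq hg h1 h)
    · exact Or.inr (uniq hg h1 h)
  · rw [← hJc]
    congr 1
    apply Finset.card_image_of_injOn
    intro u hu w hw huw
    exact Prod.ext huw ((hJ u (by simpa using hu) w (by simpa using hw)).1.mp huw)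
  · intro x y hxy
    have h1 := toEmb_mem G X₀ I hg hi x
    have h2 := toEmb_mem G (J.image Prod.fst) J hJ rfl y
    rw [← hxy] at h2
    exact uniq hJ h2 (hIJ h1)

/-- representatives of the classes of embeddings under the automorphisms of `G` -/
theorem reps {V : Type} [Fintype V] (G : SimpleGraph V) (a b : V) (X₀ X : Finset V)
    (ha : a ∈ X₀) (k : ℕ) :
    ∃ R : Finset (Finset (V × V)),
      R.card ≤ Nat.card (Quot fun g g' : {g : G.induce (X₀ : Set V) ↪g G //
        NearE G a b X₀ X ha k g} => ∃ φ : G ≃g G, ∀ x, g'.1 x = φ (g.1 x)) ∧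
      ∀ I ∈ embX G a b X₀ X k, ∃ I₀ ∈ R, ∃ φ : G ≃g G, I = mv G φ I₀ := by
  set r : {g : G.induce (X₀ : Set V) ↪g G // NearE G a b X₀ X ha k g} →
    {g : G.induce (X₀ : Set V) ↪g G // NearE G a b X₀ X ha k g} → Prop :=
    fun g g' => ∃ φ : G ≃g G, ∀ x, g'.1 x = φ (g.1 x) with hr
  have heq : Equivalence r := by
    refine ⟨fun g => ⟨RelIso.refl _, fun x => rfl⟩, ?_, ?_⟩
    · rintro g g' ⟨φ, hφ⟩
      exact ⟨φ.symm, fun x => by rw [hφ x]; simp⟩
    · rintro g g' g'' ⟨φ, hφ⟩ ⟨ψ, hψ⟩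
      exact ⟨φ.trans ψ, fun x => by rw [hψ x, hφ x]; rfl⟩
  have hfin : Finite (G.induce (X₀ : Set V) ↪g G) :=
    Finite.of_injective (fun f => (f : ((X₀ : Set V) : Type) → V)) DFunLike.coe_injective
  have hfinQ : Finite (Quot r) := Finite.of_surjective (Quot.mk r) Quot.mk_surjective
  have := Fintype.ofFinite (Quot r)
  -- the class of a set of pairs
  have hcl : ∀ I, I ∈ embX G a b X₀ X k → ∃ e : {g : G.induce (X₀ : Set V) ↪g G //
      NearE G a b X₀ X ha k g}, ∀ u : V × V, u ∈ I ↔ ∃ x : (X₀ : Set V), (x : V) = u.1 ∧ e.1 x = u.2 := by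
    intro I hI
    obtain ⟨hg, hi, hn⟩ := nearE_of G a b X₀ X ha k I hI
    exact ⟨⟨_, hn⟩, fun u => mem_toEmb G X₀ I hg hi u⟩
  rcases (embX G a b X₀ X k).eq_empty_or_nonempty with h0 | ⟨I₁, hI₁⟩
  · exact ⟨∅, by simp, by rw [h0]; simp⟩
  have : Nonempty {g : G.induce (X₀ : Set V) ↪g G // NearE G a b X₀ X ha k g} :=
    ⟨(hcl I₁ hI₁).choose⟩
  choose! e he using hcl
  set ρ : Quot r → Finset (V × V) := fun q =>
    if h : ∃ I, I ∈ embX G a b X₀ X k ∧ Quot.mk r (e I) = q then Classical.choose h else ∅ with hρ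
  refine ⟨(univ : Finset (Quot r)).image ρ, ?_, ?_⟩
  · refine card_image_le.trans ?_
    rw [card_univ, Nat.card_eq_fintype_card]
  · intro I hI
    have h : ∃ I', I' ∈ embX G a b X₀ X k ∧ Quot.mk r (e I') = Quot.mk r (e I) := ⟨I, hI, rfl⟩
    refine ⟨ρ (Quot.mk r (e I)), mem_image_of_mem _ (mem_univ _), ?_⟩
    have h1 : ρ (Quot.mk r (e I)) = Classical.choose h := by
      rw [hρ]
      simp only
      rw [dif_pos h]
    have h2 := Classical.choose_spec h
    rw [← h1] at h2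
    set I₀ := ρ (Quot.mk r (e I)) with hI₀
    have h3 : r (e I₀) (e I) := (heq.eqvGen_iff).mp (Quot.eqvGen_exact h2.2)
    obtain ⟨φ, hφ⟩ := h3
    refine ⟨φ, ?_⟩
    ext u
    rw [he I hI u]
    constructor
    · rintro ⟨x, hx, hx'⟩
      rw [mv, mem_image]
      refine ⟨(x.1, (e I₀).1 x), (he I₀ h2.1 _).mpr ⟨x, rfl, rfl⟩, ?_⟩
      rw [← hφ x]
      exact Prod.ext hx hx'
    · intro hu
      obtain ⟨w, hw, rfl⟩ := mem_image.mp hu
      obtain ⟨x, hx, hx'⟩ := (he I₀ h2.1 w).mp hw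
      exact ⟨x, hx, by rw [hφ x, hx']⟩

end Pool.Agent.Lib.MP50ecf8.LOC
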