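import Pool.Agent.Lib.MP_50ecf8_co.LOC.Spec5

/-! # Module DET: the domain is determined by the states. -/

set_option autoImplicit false

open Finset
open scoped Classical

namespace Pool.Agent.Lib.MP50ecf8.LOC

namespace DETM

variable {V : Type} [Fintype V] {G : SimpleGraph V} {T X : Finset V} {k : ℕ}
  {h J : Finset (V × V)}

omit [Fintype V] in
lemma trace (hLoc : LocT G X) (hhX : h.image Prod.fst = X) {x x' y : V} (hx : x ∉ X)
    (hx' : x' ∉ X) (hc : ∀ z ∈ h, Cmp G (x, y) z) (hc' : ∀ z ∈ h, Cmp G (x', y) z) :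
    Tw G x x' := by
  by_contra hn
  obtain ⟨w, hw, hne⟩ := hLoc x hx x' hx' hn
  rw [← hhX, Finset.mem_image] at hw
  obtain ⟨z, hz, rfl⟩ := hw
  apply hne
  have h2 := (hc z hz).2
  have h3 := (hc' z hz).2
  simp only at h2 h3
  rw [G.adj_comm z.1 x, G.adj_comm z.1 x', h2, h3]

lemma mem_AdT {Y : Finset V} : J ∈ AdT G T X k Y h ↔ Good G J ∧ Closed G J ∧
    J.filter (fun u => u.1 ∈ Y) = h ∧ X ⊆ J.image Prod.fst ∧ univ \ T ⊆ J.image Prod.fst ∧
    J.card + k = Fintype.card V := by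
  simp [AdT]

lemma good (hJ : J ∈ AdT G T X k X h) : Good G J := (mem_AdT.mp hJ).1

lemma sub (hJ : J ∈ AdT G T X k X h) : h ⊆ J := by
  rw [← (mem_AdT.mp hJ).2.2.1]
  exact Finset.filter_subset _ _

lemma inX (hJ : J ∈ AdT G T X k X h) {u : V × V} (hu : u ∈ J) (hX : u.1 ∈ X) : u ∈ h := by
  rw [← (mem_AdT.mp hJ).2.2.1]
  exact Finset.mem_filter.mpr ⟨hu, hX⟩

lemma cmp_h (hJ : J ∈ AdT G T X k X h) {u : V × V} (hu : u ∈ J) : ∀ z ∈ h, Cmp G u z :=
  fun z hz => good hJ u hu z (sub hJ hz)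

lemma domX (hJ : J ∈ AdT G T X k X h) : X ⊆ J.image Prod.fst := (mem_AdT.mp hJ).2.2.2.1

lemma domT (hJ : J ∈ AdT G T X k X h) {x : V} (hx : x ∉ J.image Prod.fst) : x ∈ T := by
  by_contra hT
  exact hx ((mem_AdT.mp hJ).2.2.2.2.1 (Finset.mem_sdiff.mpr ⟨Finset.mem_univ _, hT⟩))

omit [Fintype V] in
lemma adjM (hg : Good G J) {x₁ x₂ y y' t x' : V} (h1 : (x₁, y) ∈ J) (h2 : (x₂, y') ∈ J)
    (ht : Tw G x₁ t) (hx : Tw G x₂ x') (hne : t ≠ x') (hyy : y ≠ y') :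
    (G.Adj t x' ↔ G.Adj y y') := by
  have h3 := hg _ h1 _ h2
  have hne' : x₁ ≠ x₂ := fun h => hyy (h3.1.mp h)
  exact (Tw.adj ht.symm hx.symm hne hne').trans h3.2

omit [Fintype V] in
lemma fst_inj (hg : Good G J) : Set.InjOn Prod.fst (J : Set (V × V)) := by
  intro u hu w hw huw
  exact Prod.ext huw ((hg u (by simpa using hu) w (by simpa using hw)).1.mp huw)

omit [Fintype V] in
lemma snd_inj (hg : Good G J) : Set.InjOn Prod.snd (J : Set (V × V)) := by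
  intro u hu w hw huw
  exact Prod.ext ((hg u (by simpa using hu) w (by simpa using hw)).1.mpr huw) huw

lemma fact0 (hLoc : LocT G X) (hhX : h.image Prod.fst = X) {t : V} (htX : t ∉ X)
    (hJ : J ∈ AdT G T X k X h) {u : V × V} (hu : u ∈ J) (hc : ∀ z ∈ h, Cmp G (t, u.2) z) :
    u.1 ∉ X ∧ Tw G u.1 t := by
  have h1 : u.1 ∉ X := by
    intro hX
    have h2 := (hc u (inX hJ hu hX)).1.mpr rfl
    simp only at h2
    exact htX (h2 ▸ hX)
  refine ⟨h1, trace hLoc hhX (y := u.2) h1 htX ?_ hc⟩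
  exact cmp_h hJ hu

omit [Fintype V] in
lemma cmp_tw (hhX : h.image Prod.fst = X) {t x y : V} (htX : t ∉ X) (hxX : ∀ u ∈ X, u ≠ x)
    (hxt : Tw G x t) (hc : ∀ z ∈ h, Cmp G (x, y) z) : ∀ z ∈ h, Cmp G (t, y) z := by
  intro z hz
  have hzX : z.1 ∈ X := by
    rw [← hhX]
    exact Finset.mem_image_of_mem _ hz
  have h1 : z.1 ≠ t := fun h => htX (h ▸ hzX)
  have h2 : z.1 ≠ x := hxX _ hzX
  have h3 := hc z hz
  refine ⟨⟨fun h => absurd h.symm h1, fun h => absurd (h3.1.mpr h).symm h2⟩, ?_⟩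
  have h4 : G.Adj z.1 x ↔ G.Adj z.1 t := hxt z.1 h2 h1
  have h5 := h3.2
  simp only at h5 ⊢
  rw [G.adj_comm t z.1, ← h4, G.adj_comm z.1 x, h5]

lemma count (hLoc : LocT G X) (hhX : h.image Prod.fst = X) (hCl : ClT G T X) {t : V}
    (htT : t ∈ T) (htX : t ∉ X) (hJ : J ∈ AdT G T X k X h) :
    (univ.filter fun y => (∀ z ∈ h, Cmp G (t, y) z) ∧ y ∈ J.image Prod.snd).card =
      (univ.filter fun u => Tw G u t ∧ u ∈ J.image Prod.fst).card := by
  have hg := good hJ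
  have e1 : (univ.filter fun y => (∀ z ∈ h, Cmp G (t, y) z) ∧ y ∈ J.image Prod.snd) =
      (J.filter fun u => Tw G u.1 t).image Prod.snd := by
    ext y
    rw [Finset.mem_filter]
    constructor
    · rintro ⟨-, hc, hy⟩
      obtain ⟨u, hu, rfl⟩ := Finset.mem_image.mp hy
      exact Finset.mem_image.mpr
        ⟨u, Finset.mem_filter.mpr ⟨hu, (fact0 hLoc hhX htX hJ hu hc).2⟩, rfl⟩
    · intro hy
      obtain ⟨u, hu, rfl⟩ := Finset.mem_image.mp hy
      obtain ⟨hu, ht⟩ := Finset.mem_filter.mp hu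
      refine ⟨Finset.mem_univ _, ?_, Finset.mem_image_of_mem _ hu⟩
      refine cmp_tw hhX htX (x := u.1) ?_ ht (cmp_h hJ hu)
      intro v hv hvu
      exact htX (hCl v hv t htT (hvu ▸ ht))
  have e2 : (univ.filter fun u => Tw G u t ∧ u ∈ J.image Prod.fst) =
      (J.filter fun u => Tw G u.1 t).image Prod.fst := by
    ext v
    rw [Finset.mem_filter]
    constructor
    · rintro ⟨-, ht, hv⟩
      obtain ⟨u, hu, rfl⟩ := Finset.mem_image.mp hv
      exact Finset.mem_image.mpr ⟨u, Finset.mem_filter.mpr ⟨hu, ht⟩, rfl⟩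
    · intro hv
      obtain ⟨u, hu, rfl⟩ := Finset.mem_image.mp hv
      obtain ⟨hu, ht⟩ := Finset.mem_filter.mp hu
      exact ⟨Finset.mem_univ _, ht, Finset.mem_image_of_mem _ hu⟩
  have hs : ((J.filter fun u => Tw G u.1 t : Finset (V × V)) : Set (V × V)) ⊆ J := by
    intro u hu
    exact Finset.mem_coe.mpr (Finset.mem_filter.mp (Finset.mem_coe.mp hu)).1
  rw [e1, e2, Finset.card_image_of_injOn ((snd_inj hg).mono hs),
    Finset.card_image_of_injOn ((fst_inj hg).mono hs)]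

end DETM

open DETM

theorem specDET : SpecDET := by
  intro V _ G T X k h hT hLoc hCl hhX J₀ hJ₀ J₁ hJ₁ J₂ hJ₂ s1 s2 s3
  by_contra hcon
  obtain ⟨t, ht1, ht2⟩ := Finset.not_subset.mp hcon
  have htT : t ∈ T := domT hJ₂ ht2
  have htX : t ∉ X := fun hX => ht2 (domX hJ₂ hX)
  -- counting
  have c0 := count hLoc hhX hCl htT htX hJ₀
  have c1 := count hLoc hhX hCl htT htX hJ₁
  have c2 := count hLoc hhX hCl htT htX hJ₂
  set A₀ := univ.filter fun y => (∀ z ∈ h, Cmp G (t, y) z) ∧ y ∈ J₀.image Prod.snd with hA₀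
  set A₁ := univ.filter fun y => (∀ z ∈ h, Cmp G (t, y) z) ∧ y ∈ J₁.image Prod.snd with hA₁
  set A₂ := univ.filter fun y => (∀ z ∈ h, Cmp G (t, y) z) ∧ y ∈ J₂.image Prod.snd with hA₂
  have m0 : ∀ y, y ∈ A₀ ↔ (∀ z ∈ h, Cmp G (t, y) z) ∧ y ∈ J₀.image Prod.snd := by
    intro y
    rw [hA₀, Finset.mem_filter]
    exact ⟨fun h => h.2, fun h => ⟨Finset.mem_univ _, h⟩⟩
  have m1 : ∀ y, y ∈ A₁ ↔ (∀ z ∈ h, Cmp G (t, y) z) ∧ y ∈ J₁.image Prod.snd := by
    intro y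
    rw [hA₁, Finset.mem_filter]
    exact ⟨fun h => h.2, fun h => ⟨Finset.mem_univ _, h⟩⟩
  have m2 : ∀ y, y ∈ A₂ ↔ (∀ z ∈ h, Cmp G (t, y) z) ∧ y ∈ J₂.image Prod.snd := by
    intro y
    rw [hA₂, Finset.mem_filter]
    exact ⟨fun h => h.2, fun h => ⟨Finset.mem_univ _, h⟩⟩
  -- the class of `t`
  have hclass : ∀ J ∈ AdT G T X k X h, ∀ u, Tw G u t → u ≠ t → u ∈ J.image Prod.fst := by
    intro J hJ u hu hut
    by_contra hn
    exact hut (hT.2 u (domT hJ hn) t htT hu)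
  have d1 : (univ.filter fun u => Tw G u t ∧ u ∈ J₁.image Prod.fst) =
      univ.filter fun u => Tw G u t := by
    refine Finset.filter_congr fun u _ => ⟨fun h => h.1, fun h => ⟨h, ?_⟩⟩
    by_cases hut : u = t
    · rw [hut]
      exact ht1
    · exact hclass J₁ hJ₁ u h hut
  have d2 : (univ.filter fun u => Tw G u t ∧ u ∈ J₂.image Prod.fst) =
      (univ.filter fun u => Tw G u t).erase t := by
    ext u
    rw [Finset.mem_filter, Finset.mem_erase, Finset.mem_filter]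
    constructor
    · rintro ⟨-, hu, hd⟩
      exact ⟨fun hut => ht2 (hut ▸ hd), Finset.mem_univ _, hu⟩
    · rintro ⟨hut, -, hu⟩
      exact ⟨Finset.mem_univ _, hu, hclass J₂ hJ₂ u hu hut⟩
  have d0 : (univ.filter fun u => Tw G u t ∧ u ∈ J₀.image Prod.fst).card ≤
      (univ.filter fun u => Tw G u t).card :=
    Finset.card_le_card fun u hu =>
      Finset.mem_filter.mpr ⟨Finset.mem_univ _, (Finset.mem_filter.mp hu).2.1⟩
  have htc : t ∈ univ.filter fun u => Tw G u t :=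
    Finset.mem_filter.mpr ⟨Finset.mem_univ _, Tw.refl G t⟩
  rw [d1] at c1
  rw [d2, Finset.card_erase_of_mem htc] at c2
  have hnpos : 0 < (univ.filter fun u => Tw G u t).card := Finset.card_pos.mpr ⟨t, htc⟩
  -- no candidate outside `im J₀` is in `im J₁` or `im J₂`
  have hn1 : ∀ y, (∀ z ∈ h, Cmp G (t, y) z) → y ∉ J₀.image Prod.snd → y ∉ J₁.image Prod.snd := by
    intro y hc hy0 hy1
    exact ht2 ((s2 y hy0 t htT htX hc hy1).mp ht1)
  have hn2 : ∀ y, (∀ z ∈ h, Cmp G (t, y) z) → y ∉ J₀.image Prod.snd → y ∉ J₂.image Prod.snd :=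
    fun y hc hy0 hy2 => hn1 y hc hy0 ((s1 y hy0).mpr hy2)
  have hsub1 : A₁ ⊆ A₀ := by
    intro y hy
    obtain ⟨hc, hy1⟩ := (m1 y).mp hy
    refine (m0 y).mpr ⟨hc, ?_⟩
    by_contra hy0
    exact hn1 y hc hy0 hy1
  have hsub2 : A₂ ⊆ A₀ := by
    intro y hy
    obtain ⟨hc, hy2⟩ := (m2 y).mp hy
    refine (m0 y).mpr ⟨hc, ?_⟩
    by_contra hy0
    exact hn2 y hc hy0 hy2
  have hA01 : A₁ = A₀ := Finset.eq_of_subset_of_card_le hsub1 (by omega)
  have hone : (A₀ \ A₂).card = 1 := by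
    rw [Finset.card_sdiff_of_subset hsub2, ← hA01, c1, c2]
    omega
  obtain ⟨y, hy⟩ := Finset.card_eq_one.mp hone
  have hyA : y ∈ A₀ \ A₂ := by
    rw [hy]
    exact Finset.mem_singleton_self y
  have hstar : ∀ y', y' ∈ A₀ → y' ∉ J₂.image Prod.snd → y' = y := by
    intro y' h1 h2
    have h3 : y' ∈ A₀ \ A₂ := Finset.mem_sdiff.mpr ⟨h1, fun h4 => h2 ((m2 y').mp h4).2⟩
    rw [hy] at h3
    exact Finset.mem_singleton.mp h3
  obtain ⟨hyA0, hyA2⟩ := Finset.mem_sdiff.mp hyA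
  obtain ⟨hyc, hy0⟩ := (m0 y).mp hyA0
  have hy1 : y ∈ J₁.image Prod.snd := ((m1 y).mp (hA01 ▸ hyA0)).2
  have hy2 : y ∉ J₂.image Prod.snd := fun hcon => hyA2 ((m2 y).mpr ⟨hyc, hcon⟩)
  obtain ⟨⟨x₁, y₁⟩, hx1, hx1y⟩ := Finset.mem_image.mp hy0
  simp only at hx1y
  subst hx1y
  obtain ⟨⟨x₃, y₃⟩, hx3, hx3y⟩ := Finset.mem_image.mp hy1
  simp only at hx3y
  subst hx3y
  -- now the value is called `y₃`
  have tw1 : Tw G x₁ t := (fact0 hLoc hhX htX hJ₀ hx1 hyc).2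
  have tw3 : Tw G x₃ t := (fact0 hLoc hhX htX hJ₁ hx3 hyc).2
  -- elements of `J₂` outside `h`
  have hA : ∀ w ∈ J₂, Cmp G (t, y₃) w := by
    rintro ⟨x', y'⟩ hw
    by_cases hx'X : x' ∈ X
    · exact hyc _ (inX hJ₂ hw hx'X)
    have hne : t ≠ x' := by
      intro h1
      apply ht2
      rw [h1]
      exact Finset.mem_image_of_mem Prod.fst hw
    have hyne : y₃ ≠ y' := by
      intro h1
      apply hy2
      rw [h1]
      exact Finset.mem_image_of_mem Prod.snd hw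
    refine ⟨⟨fun h1 => absurd h1 hne, fun h1 => absurd h1 hyne⟩, ?_⟩
    show G.Adj t x' ↔ G.Adj y₃ y'
    have hgen : ∀ J ∈ AdT G T X k X h, ∀ x₂, (x₂, y') ∈ J → Tw G x₂ x' := by
      intro J hJ x₂ hx₂
      have h2 : x₂ ∉ X := by
        intro h3
        have h4 := sub hJ₂ (inX hJ hx₂ h3)
        have h5 := ((good hJ₂ _ h4 _ hw).1.mpr rfl)
        simp only at h5
        exact hx'X (h5 ▸ h3)
      exact trace hLoc hhX (y := y') h2 hx'X (cmp_h hJ hx₂) (cmp_h hJ₂ hw)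
    by_cases hy'0 : y' ∈ J₀.image Prod.snd
    · obtain ⟨⟨x₂, y₂⟩, hx2, hx2y⟩ := Finset.mem_image.mp hy'0
      simp only at hx2y
      subst hx2y
      exact adjM (good hJ₀) hx1 hx2 tw1 (hgen J₀ hJ₀ x₂ hx2) hne hyne
    · have hy'1 : y' ∈ J₁.image Prod.snd :=
        (s1 y' hy'0).mpr (Finset.mem_image_of_mem Prod.snd hw)
      obtain ⟨⟨x₂, y₂⟩, hx2, hx2y⟩ := Finset.mem_image.mp hy'1
      simp only at hx2y
      subst hx2y
      exact adjM (good hJ₁) hx3 hx2 tw3 (hgen J₁ hJ₁ x₂ hx2) hne hyne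
  have huJ₂ : (t, y₃) ∉ J₂ := fun h1 => ht2 (Finset.mem_image_of_mem Prod.fst h1)
  obtain ⟨⟨x', y'⟩, hwc, hwn⟩ := (mem_AdT.mp hJ₂).2.1 (t, y₃) huJ₂ hA
  have hwJ : (x', y') ∉ J₂ := fun h1 => hwn (hA _ h1)
  have hx'd : x' ∉ J₂.image Prod.fst := by
    intro h1
    obtain ⟨⟨a, b⟩, hab, hax⟩ := Finset.mem_image.mp h1
    simp only at hax
    subst hax
    have h2 := (hwc _ hab).1.mp rfl
    simp only at h2
    subst h2
    exact hwJ hab
  have hy'd : y' ∉ J₂.image Prod.snd := by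
    intro h1
    obtain ⟨⟨a, b⟩, hab, hax⟩ := Finset.mem_image.mp h1
    simp only at hax
    subst hax
    have h2 := (hwc _ hab).1.mpr rfl
    simp only at h2
    subst h2
    exact hwJ hab
  have hx'T : x' ∈ T := domT hJ₂ hx'd
  have hx'X : x' ∉ X := fun hX => hx'd (domX hJ₂ hX)
  have hwh : ∀ z ∈ h, Cmp G (x', y') z := fun z hz => hwc z (sub hJ₂ hz)
  by_cases hxt : x' = t
  · subst hxt
    have hyne : y' ≠ y₃ := by
      intro h1
      subst h1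
      exact hwn ⟨Iff.rfl.trans ⟨fun _ => rfl, fun _ => rfl⟩, by simp⟩
    have hy'0 : y' ∉ J₀.image Prod.snd := fun h1 =>
      hyne (hstar y' ((m0 y').mpr ⟨hwh, h1⟩) hy'd)
    have hy'1 : y' ∉ J₁.image Prod.snd := fun h1 => hy'd ((s1 y' hy'0).mp h1)
    exact ((s3 y' hy'0 x' hx'T hx'X hwh hy'1).mpr ⟨hx'd, hwc⟩).1 ht1
  · have htx' : t ≠ x' := fun h1 => hxt h1.symm
    by_cases hyy : y' = y₃
    · subst hyy
      exact hxt (hT.2 x' hx'T t htT (trace hLoc hhX hx'X htX hwh hyc))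
    · have hyy' : y₃ ≠ y' := fun h1 => hyy h1.symm
      have hadj : ¬ (G.Adj t x' ↔ G.Adj y₃ y') := by
        intro h1
        exact hwn ⟨⟨fun h2 => absurd h2 htx', fun h2 => absurd h2 hyy'⟩, h1⟩
      apply hadj
      by_cases hy'0 : y' ∈ J₀.image Prod.snd
      · obtain ⟨⟨x₂, y₂⟩, hx2, hx2y⟩ := Finset.mem_image.mp hy'0
        simp only at hx2y
        subst hx2y
        have h2 : x₂ ∉ X := by
          intro h3
          exact hy'd (Finset.mem_image_of_mem Prod.snd (sub hJ₂ (inX hJ₀ hx2 h3)))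
        exact adjM (good hJ₀) hx1 hx2 tw1
          (trace hLoc hhX (y := y₂) h2 hx'X (cmp_h hJ₀ hx2) hwh) htx' hyy'
      · have hy'1 : y' ∉ J₁.image Prod.snd := fun h1 => hy'd ((s1 y' hy'0).mp h1)
        have h3 := ((s3 y' hy'0 x' hx'T hx'X hwh hy'1).mpr ⟨hx'd, hwc⟩).2 _ hx3
        have h4 : x₃ ≠ x' := fun h5 => hyy (h3.1.mp h5.symm)
        have h5 : G.Adj t x' ↔ G.Adj x₃ x' := Tw.adj tw3.symm (Tw.refl G x') htx' h4
        have h6 := h3.2
        simp only at h6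
        rw [h5, G.adj_comm x₃ x', h6, G.adj_comm y' y₃]

end Pool.Agent.Lib.MP50ecf8.LOC
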