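import Pool.Agent.Lib.MP_50ecf8_co.LOC.Spec

/-!
# Module KEL: Kelly's lemma for partial isomorphisms
-/

set_option autoImplicit false

open Finset
open scoped Classical

namespace Pool.Agent.Lib.MP50ecf8.LOC

namespace KELM

lemma card_le {V : Type} [Fintype V] (G : SimpleGraph V) (a r r' i j : V) (π : V ≃ V)
    (hr : π r = r') (hij : π i = j)
    (hadj : ∀ y, y ≠ i → ∀ y', y' ≠ i → (G.Adj (π y) (π y') ↔ G.Adj y y')) (Z : Finset V) :
    ((emb G a r Z).filter (fun I => i ∉ I.image Prod.snd)).card ≤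
      ((emb G a r' Z).filter (fun I => j ∉ I.image Prod.snd)).card := by
  have hinj : Function.Injective (fun u : V × V => (u.1, π u.2)) := by
    rintro ⟨x, y⟩ ⟨x', y'⟩ h
    simp only [Prod.mk.injEq, EmbeddingLike.apply_eq_iff_eq] at h
    rw [h.1, h.2]
  refine Finset.card_le_card_of_injOn (fun I => I.image (fun u : V × V => (u.1, π u.2))) ?_
    (Finset.image_injective hinj).injOn
  intro I hI
  simp only [Finset.mem_coe, Finset.mem_filter, emb, Finset.mem_univ, true_and] at hI ⊢
  obtain ⟨⟨hG, ha, hZ⟩, hi⟩ := hI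
  have hni : ∀ u ∈ I, u.2 ≠ i := fun u hu h => hi (h ▸ Finset.mem_image_of_mem Prod.snd hu)
  refine ⟨⟨?_, ?_, ?_⟩, ?_⟩
  · intro u' hu' w' hw'
    obtain ⟨u, hu, rfl⟩ := Finset.mem_image.1 hu'
    obtain ⟨w, hw, rfl⟩ := Finset.mem_image.1 hw'
    have h := hG u hu w hw
    refine ⟨?_, ?_⟩
    · simpa only [EmbeddingLike.apply_eq_iff_eq] using h.1
    · exact h.2.trans (hadj _ (hni u hu) _ (hni w hw)).symm
  · exact Finset.mem_image.2 ⟨(a, r), ha, by simp [hr]⟩
  · rw [Finset.image_image]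
    exact hZ
  · rw [Finset.image_image]
    intro h
    obtain ⟨u, hu, h⟩ := Finset.mem_image.1 h
    refine hni u hu (π.injective ?_)
    rw [hij]; exact h

lemma card_eq {V : Type} [Fintype V] (G : SimpleGraph V) (a r r' i j : V) (π : V ≃ V)
    (hr : π r = r') (hij : π i = j)
    (hadj : ∀ y, y ≠ i → ∀ y', y' ≠ i → (G.Adj (π y) (π y') ↔ G.Adj y y')) (Z : Finset V) :
    ((emb G a r Z).filter (fun I => i ∉ I.image Prod.snd)).card =
      ((emb G a r' Z).filter (fun I => j ∉ I.image Prod.snd)).card := by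
  refine le_antisymm (card_le G a r r' i j π hr hij hadj Z)
    (card_le G a r' r j i π.symm (by rw [← hr]; simp) (by rw [← hij]; simp) ?_ Z)
  intro y hy y' hy'
  have h1 : π.symm y ≠ i := fun h => hy (by rw [← hij, ← h]; simp)
  have h2 : π.symm y' ≠ i := fun h => hy' (by rw [← hij, ← h]; simp)
  rw [← hadj _ h1 _ h2]
  simp

/-- the extension of an isomorphism of the vertex-deleted subgraphs -/
noncomputable def xt {V : Type} {G : SimpleGraph V} {i j : V}
    (θ : G.induce ({i}ᶜ : Set V) ≃g G.induce ({j}ᶜ : Set V)) : V ≃ V where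
  toFun y := if h : y ∈ ({i}ᶜ : Set V) then (θ ⟨y, h⟩ : V) else j
  invFun y := if h : y ∈ ({j}ᶜ : Set V) then (θ.symm ⟨y, h⟩ : V) else i
  left_inv y := by
    by_cases h : y ∈ ({i}ᶜ : Set V)
    · have h2 : (θ ⟨y, h⟩ : V) ∈ ({j}ᶜ : Set V) := (θ ⟨y, h⟩).2
      simp only [dif_pos h, dif_pos h2]
      simp
    · have h2 : j ∉ ({j}ᶜ : Set V) := by simp
      have h3 : y = i := by simpa using h
      simp only [dif_neg h, dif_neg h2]
      exact h3.symm
  right_inv y := by
    by_cases h : y ∈ ({j}ᶜ : Set V)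
    · have h2 : (θ.symm ⟨y, h⟩ : V) ∈ ({i}ᶜ : Set V) := (θ.symm ⟨y, h⟩).2
      simp only [dif_pos h, dif_pos h2]
      simp
    · have h2 : i ∉ ({i}ᶜ : Set V) := by simp
      have h3 : y = j := by simpa using h
      simp only [dif_neg h, dif_neg h2]
      exact h3.symm

lemma good_card {V : Type} {G : SimpleGraph V} {I : Finset (V × V)} (h : Good G I) :
    (I.image Prod.snd).card = (I.image Prod.fst).card := by
  rw [Finset.card_image_of_injOn, Finset.card_image_of_injOn]
  · intro u hu w hw huw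
    exact Prod.ext huw (((h u hu w hw).1).1 huw)
  · intro u hu w hw huw
    exact Prod.ext (((h u hu w hw).1).2 huw) huw

lemma count {V : Type} [Fintype V] (G : SimpleGraph V) (a r : V) (Z : Finset V) :
    ∑ j : {v : V // v ≠ r}, ((emb G a r Z).filter (fun I => (j : V) ∉ I.image Prod.snd)).card =
      (emb G a r Z).card * (Fintype.card V - Z.card) := by
  rw [← Finset.sum_subtype (univ.filter (fun j : V => j ≠ r)) (by simp)
    (fun j => ((emb G a r Z).filter (fun I => j ∉ I.image Prod.snd)).card)]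
  rw [Finset.sum_filter_of_ne (fun j _ h => ?_)]
  · simp_rw [Finset.card_filter]
    rw [Finset.sum_comm, ← smul_eq_mul, ← Finset.sum_const]
    refine Finset.sum_congr rfl (fun I hI => ?_)
    simp only [emb, Finset.mem_filter, Finset.mem_univ, true_and] at hI
    rw [← hI.2.2, ← good_card hI.1, ← Finset.card_compl, ← Finset.card_filter]
    congr 1
    ext j
    simp
  · rintro rfl
    apply h
    rw [Finset.card_eq_zero, Finset.filter_eq_empty_iff]
    intro I hI
    simp only [emb, Finset.mem_filter, Finset.mem_univ, true_and] at hI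
    rw [not_not]
    exact Finset.mem_image_of_mem Prod.snd hI.2.1

end KELM

open KELM in
theorem specKEL : SpecKEL := by
  intro V _ G a b ⟨τ, hτ⟩ Z hZ
  have hlt : Z.card < Fintype.card V := Finset.card_lt_iff_ne_univ Z |>.2 hZ
  have h1 := count G a a Z
  have h2 := count G a b Z
  have h3 : ∑ j : {v : V // v ≠ a}, ((emb G a a Z).filter (fun I => (j : V) ∉ I.image Prod.snd)).card =
      ∑ j : {v : V // v ≠ b}, ((emb G a b Z).filter (fun I => (j : V) ∉ I.image Prod.snd)).card := by
    rw [← Equiv.sum_comp τ (fun j : {v : V // v ≠ b} =>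
      ((emb G a b Z).filter (fun I => (j : V) ∉ I.image Prod.snd)).card)]
    refine Finset.sum_congr rfl (fun i _ => ?_)
    obtain ⟨i, hi⟩ := i
    obtain ⟨θ, hθ⟩ := hτ i hi
    refine card_eq G a a b i (τ ⟨i, hi⟩) (xt θ) ?_ ?_ ?_ Z
    · have h : a ∈ ({i}ᶜ : Set V) := fun h => hi h.symm
      simp only [xt, Equiv.coe_fn_mk, dif_pos h]
      exact hθ ⟨a, h⟩ rfl
    · simp [xt]
    · intro y hy y' hy'
      have h : y ∈ ({i}ᶜ : Set V) := hy
      have h' : y' ∈ ({i}ᶜ : Set V) := hy'
      simp only [xt, Equiv.coe_fn_mk, dif_pos h, dif_pos h']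
      have := θ.map_rel_iff' (a := ⟨y, h⟩) (b := ⟨y', h'⟩)
      exact this
  rw [h1, h2] at h3
  exact Nat.eq_of_mul_eq_mul_right (by omega) h3

end Pool.Agent.Lib.MP50ecf8.LOC
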