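import Pool.Agent.Lib.MP_50ecf8_co.LOC.Spec
import Pool.Agent.Lib.MP_50ecf8_co.LOC.KEL

/-!
# Module DIS: the disconnected case
-/

set_option autoImplicit false

open Finset
open scoped Classical

namespace Pool.Agent.Lib.MP50ecf8.LOC

namespace DISM

variable {V : Type}

/-- the properties of the extension of `θ` -/
lemma ext_prop {G : SimpleGraph V} {a b i j : V} (hi : i ≠ a)
    (θ : G.induce ({i}ᶜ : Set V) ≃g G.induce ({j}ᶜ : Set V))
    (hθ : ∀ x : ({i}ᶜ : Set V), (x : V) = a → (θ x : V) = b) :
    KELM.xt θ a = b ∧ KELM.xt θ i = j ∧ ∀ y, y ≠ i → ∀ y', y' ≠ i →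
      (G.Adj (KELM.xt θ y) (KELM.xt θ y') ↔ G.Adj y y') := by
  refine ⟨?_, ?_, ?_⟩
  · have h : a ∈ ({i}ᶜ : Set V) := fun h => hi h.symm
    simp only [KELM.xt, Equiv.coe_fn_mk, dif_pos h]
    exact hθ ⟨a, h⟩ rfl
  · simp [KELM.xt]
  · intro y hy y' hy'
    have h : y ∈ ({i}ᶜ : Set V) := hy
    have h' : y' ∈ ({i}ᶜ : Set V) := hy'
    simp only [KELM.xt, Equiv.coe_fn_mk, dif_pos h, dif_pos h']
    have := θ.map_rel_iff' (a := ⟨y, h⟩) (b := ⟨y', h'⟩)
    exact this

lemma reach_map {G : SimpleGraph V} {a b i : V} (π : V → V) (hab : π a = b)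
    (hi : ¬ G.Reachable a i)
    (hadj : ∀ y, y ≠ i → ∀ y', y' ≠ i → G.Adj y y' → G.Adj (π y) (π y')) (v : V)
    (hv : G.Reachable a v) : G.Reachable b (π v) := by
  rw [SimpleGraph.reachable_iff_reflTransGen] at hv
  induction hv with
  | refl => rw [hab]
  | @tail c d h1 h2 ih =>
    have hc : G.Reachable a c := (SimpleGraph.reachable_iff_reflTransGen a c).2 h1
    have hd : G.Reachable a d := hc.trans h2.reachable
    have hci : c ≠ i := fun h => hi (h ▸ hc)
    have hdi : d ≠ i := fun h => hi (h ▸ hd)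
    exact ih.trans (hadj c hci d hdi h2).reachable

lemma exists_not_reachable {G : SimpleGraph V} (h : ¬ G.Connected) (a : V) :
    ∃ i, ¬ G.Reachable a i := by
  by_contra hc
  push Not at hc
  exact h ((SimpleGraph.connected_iff G).2 ⟨fun u v => (hc u).symm.trans (hc v), ⟨a⟩⟩)

/-- the automorphism, `b` in the component of `a` -/
lemma auto1 {G : SimpleGraph V} {a b : V} (π : V ≃ V) (hπ : π a = b)
    (hA : ∀ v, G.Reachable a v ↔ G.Reachable a (π v))
    (hadj : ∀ x y, G.Reachable a x → G.Reachable a y → (G.Adj (π x) (π y) ↔ G.Adj x y)) :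
    ∃ φ : G ≃g G, φ a = b := by
  have hA' : ∀ v, G.Reachable a v ↔ G.Reachable a (π.symm v) := by
    intro v
    rw [hA (π.symm v), Equiv.apply_symm_apply]
  refine ⟨⟨⟨fun v => if G.Reachable a v then π v else v,
    fun v => if G.Reachable a v then π.symm v else v, ?_, ?_⟩, ?_⟩, ?_⟩
  · intro v
    by_cases h : G.Reachable a v
    · simp only [if_pos h, if_pos ((hA v).1 h), Equiv.symm_apply_apply]
    · simp only [if_neg h]
  · intro v
    by_cases h : G.Reachable a v
    · simp only [if_pos h, if_pos ((hA' v).1 h), Equiv.apply_symm_apply]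
    · simp only [if_neg h]
  · intro x y
    simp only [Equiv.coe_fn_mk]
    by_cases hx : G.Reachable a x
    · by_cases hy : G.Reachable a y
      · rw [if_pos hx, if_pos hy]
        exact hadj x y hx hy
      · rw [if_pos hx, if_neg hy]
        constructor
        · intro h
          exact absurd (((hA x).1 hx).trans h.reachable) hy
        · intro h
          exact absurd (hx.trans h.reachable) hy
    · by_cases hy : G.Reachable a y
      · rw [if_neg hx, if_pos hy]
        constructor
        · intro h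
          exact absurd (((hA y).1 hy).trans h.symm.reachable) hx
        · intro h
          exact absurd (hy.trans h.symm.reachable) hx
      · rw [if_neg hx, if_neg hy]
  · change (if G.Reachable a a then π a else a) = b
    rw [if_pos (SimpleGraph.Reachable.refl a), hπ]

/-- the automorphism, `b` not in the component of `a` -/
lemma auto2 {G : SimpleGraph V} {a b : V} (π : V ≃ V) (hπ : π a = b) (hab : ¬ G.Reachable a b)
    (hA : ∀ v, G.Reachable a v ↔ G.Reachable b (π v))
    (hadj : ∀ x y, G.Reachable a x → G.Reachable a y → (G.Adj (π x) (π y) ↔ G.Adj x y)) :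
    ∃ φ : G ≃g G, φ a = b := by
  have hA' : ∀ v, G.Reachable b v ↔ G.Reachable a (π.symm v) := by
    intro v
    rw [hA (π.symm v), Equiv.apply_symm_apply]
  have hdis : ∀ v, G.Reachable a v → ¬ G.Reachable b v := fun v h1 h2 => hab (h1.trans h2.symm)
  obtain ⟨f, hf⟩ : ∃ f : V → V, f = fun v => if G.Reachable a v then π v else
    if G.Reachable b v then π.symm v else v := ⟨_, rfl⟩
  have fa : ∀ v, G.Reachable a v → f v = π v := fun v h => by rw [hf]; simp only [if_pos h]
  have fb : ∀ v, G.Reachable b v → f v = π.symm v := fun v h => by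
    rw [hf]
    simp only [if_neg (fun h' => hdis v h' h), if_pos h]
  have fc : ∀ v, ¬ G.Reachable a v → ¬ G.Reachable b v → f v = v := fun v h h' => by
    rw [hf]
    simp only [if_neg h, if_neg h']
  have hff : ∀ v, f (f v) = v := by
    intro v
    by_cases h : G.Reachable a v
    · rw [fa v h, fb _ ((hA v).1 h), Equiv.symm_apply_apply]
    · by_cases h' : G.Reachable b v
      · rw [fb v h', fa _ ((hA' v).1 h'), Equiv.apply_symm_apply]
      · rw [fc v h h', fc v h h']
  have hadj1 : ∀ x y, G.Adj x y → G.Adj (f x) (f y) := by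
    intro x y hxy
    by_cases h : G.Reachable a x
    · have h2 := h.trans hxy.reachable
      rw [fa x h, fa y h2]
      exact (hadj x y h h2).2 hxy
    · by_cases h' : G.Reachable b x
      · have h2 := h'.trans hxy.reachable
        rw [fb x h', fb y h2]
        have h3 := hadj _ _ ((hA' x).1 h') ((hA' y).1 h2)
        rw [Equiv.apply_symm_apply, Equiv.apply_symm_apply] at h3
        exact h3.1 hxy
      · have h2 : ¬ G.Reachable a y := fun h3 => h (h3.trans hxy.symm.reachable)
        have h3 : ¬ G.Reachable b y := fun h4 => h' (h4.trans hxy.symm.reachable)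
        rw [fc x h h', fc y h2 h3]
        exact hxy
  refine ⟨⟨⟨f, f, hff, hff⟩, ?_⟩, ?_⟩
  · intro x y
    simp only [Equiv.coe_fn_mk]
    constructor
    · intro h
      have := hadj1 _ _ h
      rwa [hff, hff] at this
    · exact hadj1 x y
  · change f a = b
    rw [fa a (SimpleGraph.Reachable.refl a), hπ]

end DISM

open DISM in
theorem specDIS : SpecDIS := by
  intro V _ G a b hG hH
  obtain ⟨τ, hτ⟩ := hH
  -- the map from `A` to `B`
  obtain ⟨i, hi⟩ := exists_not_reachable hG a
  have hia : i ≠ a := fun h => hi (h ▸ SimpleGraph.Reachable.refl _)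
  obtain ⟨θ, hθ⟩ := hτ i hia
  obtain ⟨h1, -, h3⟩ := ext_prop hia θ hθ
  have hmap := reach_map (G := G) (a := a) (b := b) (i := i) (KELM.xt θ) h1 hi
    (fun y hy y' hy' h => (h3 y hy y' hy').2 h)
  -- the map from `B` to `A`
  obtain ⟨j, hj⟩ := exists_not_reachable hG b
  have hjb : j ≠ b := fun h => hj (h ▸ SimpleGraph.Reachable.refl _)
  obtain ⟨⟨k, hk⟩, hkj⟩ := τ.surjective ⟨j, hjb⟩
  obtain ⟨θ', hθ'⟩ := hτ k hk
  obtain ⟨h1', h2', h3'⟩ := ext_prop hk θ' hθ'
  replace h2' : (KELM.xt θ') k = j := h2'.trans (congrArg Subtype.val hkj)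
  generalize KELM.xt θ' = ρ at h1' h2' h3'
  have hmap' := reach_map (G := G) (a := b) (b := a) (i := j) ρ.symm
    (by rw [Equiv.symm_apply_eq, h1']) hj
    (fun y hy y' hy' h => by
      have e1 : ρ.symm y ≠ k := fun h => hy (by rw [← h2', ← h, Equiv.apply_symm_apply])
      have e2 : ρ.symm y' ≠ k := fun h => hy' (by rw [← h2', ← h, Equiv.apply_symm_apply])
      have e3 := h3' _ e1 _ e2
      rw [Equiv.apply_symm_apply, Equiv.apply_symm_apply] at e3
      exact e3.1 h)
  -- `A` and `B` have the same size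
  obtain ⟨π, hπ⟩ : ∃ π : V ≃ V, π = KELM.xt θ := ⟨_, rfl⟩
  rw [← hπ] at h1 h3 hmap
  have hc1 : ((univ.filter fun v => G.Reachable a v).image π) ⊆
      univ.filter fun v => G.Reachable b v := by
    intro w hw
    obtain ⟨v, hv, rfl⟩ := Finset.mem_image.1 hw
    exact Finset.mem_filter.2 ⟨Finset.mem_univ _, hmap v (Finset.mem_filter.1 hv).2⟩
  have hc2 : (univ.filter fun v => G.Reachable b v).card ≤
      ((univ.filter fun v => G.Reachable a v).image π).card := by
    rw [Finset.card_image_of_injective _ π.injective]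
    refine Finset.card_le_card_of_injOn (fun v => ρ.symm v) ?_ ρ.symm.injective.injOn
    intro v hv
    rw [Finset.mem_coe, Finset.mem_filter] at hv
    rw [Finset.mem_coe, Finset.mem_filter]
    exact ⟨Finset.mem_univ _, hmap' v hv.2⟩
  have heq := Finset.eq_of_subset_of_card_le hc1 hc2
  have hA : ∀ v, G.Reachable a v ↔ G.Reachable b (π v) := by
    intro v
    refine ⟨hmap v, fun h => ?_⟩
    have h4 : π v ∈ (univ.filter fun v => G.Reachable a v).image π := by
      rw [heq]
      exact Finset.mem_filter.2 ⟨Finset.mem_univ _, h⟩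
    obtain ⟨w, hw, hwv⟩ := Finset.mem_image.1 h4
    rw [← π.injective hwv]
    exact (Finset.mem_filter.1 hw).2
  have hadj : ∀ x y, G.Reachable a x → G.Reachable a y → (G.Adj (π x) (π y) ↔ G.Adj x y) := by
    intro x y hx hy
    exact h3 x (fun h => hi (h ▸ hx)) y (fun h => hi (h ▸ hy))
  by_cases hab : G.Reachable a b
  · refine auto1 π h1 (fun v => ?_) hadj
    rw [hA v]
    exact ⟨fun h => hab.trans h, fun h => hab.symm.trans h⟩
  · exact auto2 π h1 hab hA hadj

end Pool.Agent.Lib.MP50ecf8.LOC
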