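import Pool.Agent.Lib.MP_50ecf8_co.LOC.Spec10

/-!
# DLB: lower bounds for `|W|` and `D`
-/

set_option autoImplicit false

open Finset
open scoped Classical

namespace Pool.Agent.Lib.MP50ecf8.LOC

namespace DLBM

variable {V : Type} [Fintype V] (G : SimpleGraph V)

/-- separating vertices in `W` are neighbours -/
lemma sep_le (W : Finset V) (u v : V) : (sep G u v ∩ W).card ≤
    (W.filter fun w => G.Adj u w).card + (W.filter fun w => G.Adj v w).card := by
  refine (card_le_card ?_).trans (card_union_le _ _)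
  intro w hw
  rw [mem_inter] at hw
  unfold sep at hw
  rw [mem_filter] at hw
  obtain ⟨⟨-, -, -, h⟩, hW⟩ := hw
  rw [mem_union, mem_filter, mem_filter]
  by_cases h1 : G.Adj w u
  · exact Or.inl ⟨hW, h1.symm⟩
  · by_cases h2 : G.Adj w v
    · exact Or.inr ⟨hW, h2.symm⟩
    · exact absurd (iff_of_false h1 h2) h

lemma one_le {D : ℕ} (hD : 2 ≤ D) : 1 ≤ Real.logb 2 D := by
  rw [← Real.logb_self_eq_one (b := 2) (by norm_num)]
  apply Real.logb_le_logb_of_le (by norm_num) (by norm_num)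
  exact_mod_cast hD

lemma nr_le {B C W : Finset V} {D : ℕ} (hD : 2 ≤ D)
    (h : ∀ v ∈ C, v ∉ B → ∀ r : ℕ, (r : ℝ) < 100000 * Real.logb 2 D →
      ((nw G B W v r).card : ℝ) ≤ (2 : ℝ) ^ ((r : ℝ) ^ ((1 : ℝ) / 3) / 20)) {v : V}
    (hv : v ∈ C) (hB : v ∉ B) :
    ((nr G B W v (100000 * Real.logb 2 D)).card : ℝ) ≤ MM D := by
  have hL := one_le hD
  obtain ⟨t, ht⟩ : ∃ t : ℝ, t = 100000 * Real.logb 2 D := ⟨_, rfl⟩
  rw [← ht] at h ⊢
  have ht0 : 0 < t := by rw [ht]; linarith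
  have hc : 0 < ⌈t⌉₊ := Nat.ceil_pos.2 ht0
  have hr : ((⌈t⌉₊ - 1 : ℕ) : ℝ) < t := Nat.lt_ceil.1 (by omega)
  have hsub : nr G B W v t ⊆ nw G B W v (⌈t⌉₊ - 1) := by
    intro u hu
    unfold nr at hu
    rw [mem_filter] at hu
    unfold nw
    rw [mem_filter]
    refine ⟨hu.1, hu.2.1, ?_⟩
    have := Nat.lt_ceil.2 hu.2.2
    omega
  have h1 : ((nr G B W v t).card : ℝ) ≤ (nw G B W v (⌈t⌉₊ - 1)).card := by
    exact_mod_cast card_le_card hsub
  refine h1.trans ((h v hv hB _ hr).trans ?_)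
  unfold MM
  rw [← ht]
  apply Real.rpow_le_rpow_of_exponent_le (by norm_num)
  have h2 : ((⌈t⌉₊ - 1 : ℕ) : ℝ) ^ ((1 : ℝ) / 3) ≤ t ^ ((1 : ℝ) / 3) :=
    Real.rpow_le_rpow (Nat.cast_nonneg _) hr.le (by norm_num)
  linarith

end DLBM

open DLBM in
theorem specDLB (hNUMN : SpecNUMN) : SpecDLB := by
  intro V _ G B C W D hD hDp hWC hWne hdeg hB hnw
  obtain ⟨p, hp⟩ : ∃ p : ℕ, p = Fintype.card V := ⟨_, rfl⟩
  rw [← hp] at hDp
  have hL := one_le hD
  have hnr0 := fun v (hv : v ∈ C) (hvB : v ∉ B) => nr_le G hD hnw hv hvB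
  obtain ⟨t, ht⟩ : ∃ t : ℝ, t = 100000 * Real.logb 2 D := ⟨_, rfl⟩
  rw [← ht] at hnw hnr0 ⊢
  have ht1 : (100000 : ℝ) ≤ t := by rw [ht]; linarith
  have hWp : W.card ≤ p := by rw [hp]; exact card_le_univ W
  have hWp' : (W.card : ℝ) ≤ p := by exact_mod_cast hWp
  have hW1 : (1 : ℝ) ≤ W.card := by exact_mod_cast hWne.card_pos
  have hcompl : (p : ℝ) = B.card + (Bᶜ).card := by
    have h8 := card_add_card_compl B
    rw [← hp] at h8
    exact_mod_cast h8.symm
  obtain ⟨v₀, hv₀W, hv₀B⟩ : ∃ v₀ ∈ W, v₀ ∉ B := by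
    by_contra hcon
    push Not at hcon
    have h1 : W.card ≤ B.card := card_le_card hcon
    have h2 : (W.card : ℝ) ≤ B.card := by exact_mod_cast h1
    linarith
  have hv₀C := hWC hv₀W
  have hp8 : 8000 ≤ p := by
    by_contra hlt
    push Not at hlt
    have hlt' : (p : ℝ) < 8000 := by exact_mod_cast hlt
    have h1 := hnw v₀ hv₀C hv₀B p (by linarith)
    have h2 : Bᶜ ⊆ nw G B W v₀ p := by
      intro u hu
      unfold nw
      rw [mem_filter]
      refine ⟨mem_univ _, mem_compl.1 hu, ?_⟩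
      rw [hp]
      exact card_le_univ _
    have h3 : ((Bᶜ).card : ℝ) ≤ (2 : ℝ) ^ ((p : ℝ) ^ ((1 : ℝ) / 3) / 20) :=
      le_trans (by exact_mod_cast card_le_card h2) h1
    have h4 : (2 : ℝ) ^ ((p : ℝ) ^ ((1 : ℝ) / 3) / 20) < 2 := by
      calc (2 : ℝ) ^ ((p : ℝ) ^ ((1 : ℝ) / 3) / 20) < (2 : ℝ) ^ (1 : ℝ) := by
            apply Real.rpow_lt_rpow_of_exponent_lt (by norm_num)
            have h5 : (p : ℝ) ^ ((1 : ℝ) / 3) < 20 := by
              have h6 : (20 : ℝ) = (8000 : ℝ) ^ ((1 : ℝ) / 3) := by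
                rw [show (8000 : ℝ) = 20 ^ (3 : ℕ) by norm_num, ← Real.rpow_natCast,
                  ← Real.rpow_mul (by norm_num)]
                norm_num
              rw [h6]
              exact Real.rpow_lt_rpow (Nat.cast_nonneg _) hlt' (by norm_num)
            linarith
        _ = 2 := Real.rpow_one 2
    have h6 : ((Bᶜ).card : ℝ) < 2 := lt_of_le_of_lt h3 h4
    have h7 : (Bᶜ).card < 2 := by exact_mod_cast h6
    have h10 : ((Bᶜ).card : ℝ) ≤ 1 := by
      have : (Bᶜ).card ≤ 1 := by omega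
      exact_mod_cast this
    have h11 : (2 : ℝ) ≤ p := by exact_mod_cast (hD.trans hDp)
    linarith
  have hp8' : (8000 : ℝ) ≤ p := by exact_mod_cast hp8
  have hMM := hNUMN p D hD hDp hp8
  have hnr := hnr0 v₀ hv₀C hv₀B
  have hfirst : t ≤ (W.card : ℝ) := by
    obtain ⟨u, huB, hu⟩ : ∃ u, u ∉ B ∧ u ∉ nr G B W v₀ t := by
      by_contra hcon
      push Not at hcon
      have h1 : Bᶜ ⊆ nr G B W v₀ t := fun u hu => hcon u (mem_compl.1 hu)
      have h2 : ((Bᶜ).card : ℝ) ≤ (nr G B W v₀ t).card := by exact_mod_cast card_le_card h1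
      linarith
    have h3 : t ≤ ((sep G v₀ u ∩ W).card : ℝ) := by
      by_contra hlt
      push Not at hlt
      apply hu
      unfold nr
      rw [mem_filter]
      exact ⟨mem_univ _, huB, hlt⟩
    refine h3.trans ?_
    exact_mod_cast card_le_card inter_subset_right
  refine ⟨hfirst, ?_⟩
  have hhalf : 50000 * Real.logb 2 D = t / 2 := by rw [ht]; ring
  rw [hhalf]
  by_contra hDt
  push Not at hDt
  have hN : ∀ w ∈ W, (((W.filter fun x => G.Adj w x).card : ℕ) : ℝ) ≤ D := by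
    intro w hw
    have h1 : (W.filter fun x => G.Adj w x).card ≤ deg G w := by
      unfold deg
      exact card_le_card (filter_subset_filter _ (subset_univ W))
    exact_mod_cast h1.trans (hdeg w hw)
  have hWB : W \ B ⊆ nr G B W v₀ t := by
    intro v hv
    rw [mem_sdiff] at hv
    unfold nr
    rw [mem_filter]
    refine ⟨mem_univ _, hv.2, ?_⟩
    have h1 := sep_le G W v₀ v
    have h2 : ((sep G v₀ v ∩ W).card : ℝ) ≤ (((W.filter fun x => G.Adj v₀ x).card : ℕ) : ℝ) +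
        (((W.filter fun x => G.Adj v x).card : ℕ) : ℝ) := by exact_mod_cast h1
    have h3 := hN v₀ hv₀W
    have h4 := hN v hv.1
    linarith
  have hW3 : (W.card : ℝ) ≤ p / 3 := by
    have h1 : W.card ≤ (W \ B).card + B.card := by
      have := card_le_card (show W ⊆ (W \ B) ∪ B from fun x hx => by
        by_cases hxB : x ∈ B
        · exact mem_union_right _ hxB
        · exact mem_union_left _ (mem_sdiff.2 ⟨hx, hxB⟩))
      exact this.trans (card_union_le _ _)
    have h2 : (W.card : ℝ) ≤ (W \ B).card + B.card := by exact_mod_cast h1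
    have h3 : ((W \ B).card : ℝ) ≤ (nr G B W v₀ t).card := by exact_mod_cast card_le_card hWB
    linarith
  obtain ⟨U, hU⟩ : ∃ U : Finset V, U = univ.filter fun u => u ∉ B ∧ u ∉ nr G B W v₀ t := ⟨_, rfl⟩
  have hUcard : (p : ℝ) / 3 ≤ U.card := by
    have h1 : Bᶜ ⊆ nr G B W v₀ t ∪ U := by
      intro u hu
      by_cases h2 : u ∈ nr G B W v₀ t
      · exact mem_union_left _ h2
      · refine mem_union_right _ ?_
        rw [hU, mem_filter]
        exact ⟨mem_univ _, mem_compl.1 hu, h2⟩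
    have h3 : (Bᶜ).card ≤ (nr G B W v₀ t).card + U.card :=
      (card_le_card h1).trans (card_union_le _ _)
    have h4 : ((Bᶜ).card : ℝ) ≤ (nr G B W v₀ t).card + U.card := by exact_mod_cast h3
    linarith
  have hUN : ∀ u ∈ U, t / 2 ≤ (((W.filter fun x => G.Adj u x).card : ℕ) : ℝ) := by
    intro u hu
    rw [hU, mem_filter] at hu
    have h3 : t ≤ ((sep G v₀ u ∩ W).card : ℝ) := by
      by_contra hlt
      push Not at hlt
      apply hu.2.2
      unfold nr
      rw [mem_filter]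
      exact ⟨mem_univ _, hu.2.1, hlt⟩
    have h1 := sep_le G W v₀ u
    have h2 : ((sep G v₀ u ∩ W).card : ℝ) ≤ (((W.filter fun x => G.Adj v₀ x).card : ℕ) : ℝ) +
        (((W.filter fun x => G.Adj u x).card : ℕ) : ℝ) := by exact_mod_cast h1
    have h4 := hN v₀ hv₀W
    linarith
  have hcount : ∑ u ∈ U, (W.filter fun w => G.Adj u w).card =
      ∑ w ∈ W, (U.filter fun u => G.Adj u w).card := by
    have h1 := Finset.sum_card_bipartiteAbove_eq_sum_card_bipartiteBelow (s := U) (t := W)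
      (fun u w => G.Adj u w)
    unfold bipartiteAbove bipartiteBelow at h1
    exact h1
  have hle : ∑ w ∈ W, (U.filter fun u => G.Adj u w).card ≤ W.card * D := by
    rw [← smul_eq_mul]
    refine Finset.sum_le_card_nsmul _ _ _ fun w hw => ?_
    refine le_trans (card_le_card ?_) (hdeg w hw)
    intro u hu
    rw [mem_filter] at hu ⊢
    exact ⟨mem_univ _, hu.2.symm⟩
  have hge : (U.card : ℝ) * (t / 2) ≤
      ((∑ u ∈ U, (W.filter fun w => G.Adj u w).card : ℕ) : ℝ) := by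
    push_cast
    rw [← nsmul_eq_mul]
    exact Finset.card_nsmul_le_sum _ _ _ hUN
  rw [hcount] at hge
  have hle' : ((∑ w ∈ W, (U.filter fun u => G.Adj u w).card : ℕ) : ℝ) ≤ W.card * D := by
    exact_mod_cast hle
  have h1 : (p : ℝ) / 3 * (t / 2) ≤ p / 3 * D := by
    calc (p : ℝ) / 3 * (t / 2) ≤ U.card * (t / 2) :=
          mul_le_mul_of_nonneg_right hUcard (by linarith)
      _ ≤ W.card * D := hge.trans hle'
      _ ≤ p / 3 * D := mul_le_mul_of_nonneg_right hW3 (Nat.cast_nonneg _)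
  have h2 : t / 2 ≤ (D : ℝ) := le_of_mul_le_mul_left h1 (by linarith)
  linarith

end Pool.Agent.Lib.MP50ecf8.LOC
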