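import Pool.Agent.Lib.MP_50ecf8_co.LOC.Spec4

/-!
# EXT (helper89): the cost of revealing `Z \ Y` when the trace classes are small
-/

set_option autoImplicit false

open Finset
open scoped Classical

namespace Pool.Agent.Lib.MP50ecf8.LOC

namespace EXTM

/-- the arithmetic-geometric mean inequality in the form needed here -/
theorem prod_bound {ι : Type} (s : Finset ι) (q : ι → ℝ) (hq : ∀ i ∈ s, 0 ≤ q i) (K R : ℝ)
    (hK : 0 ≤ K) (hR : 0 < R) (hs : (s.card : ℝ) ≤ R) (hsum : ∑ i ∈ s, q i ≤ K) :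
    ∏ i ∈ s, (1 + q i) ≤ (1 + K / R) ^ R := by
  have hκ : 0 ≤ K / R := div_nonneg hK hR.le
  set κ := K / R with hκd
  have hK' : K = κ * R := by rw [hκd]; field_simp
  have h1 : 0 < 1 + κ := by linarith
  have hp : 0 < ∏ i ∈ s, (1 + q i) := Finset.prod_pos fun i hi => by
    have := hq i hi
    linarith
  rw [← Real.log_le_log_iff hp (Real.rpow_pos_of_pos h1 _), Real.log_rpow h1,
    Real.log_prod (fun i hi => by
      have := hq i hi
      have h : 0 < 1 + q i := by linarith
      exact h.ne')]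
  have h2 : ∀ i ∈ s, Real.log (1 + q i) ≤ Real.log (1 + κ) + (q i - κ) / (1 + κ) := by
    intro i hi
    have h3 : 0 < 1 + q i := by have := hq i hi; linarith
    have h4 := Real.log_le_sub_one_of_pos (div_pos h3 h1)
    rw [Real.log_div h3.ne' h1.ne'] at h4
    have h5 : (1 + q i) / (1 + κ) - 1 = (q i - κ) / (1 + κ) := by
      field_simp
      ring
    linarith
  have h6 : ∑ i ∈ s, Real.log (1 + q i) ≤
      ∑ i ∈ s, (Real.log (1 + κ) + (q i - κ) / (1 + κ)) := Finset.sum_le_sum h2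
  have h7 : ∑ i ∈ s, (Real.log (1 + κ) + (q i - κ) / (1 + κ)) =
      s.card * Real.log (1 + κ) + (∑ i ∈ s, q i - s.card * κ) / (1 + κ) := by
    rw [Finset.sum_add_distrib, ← Finset.sum_div, Finset.sum_sub_distrib]
    simp [Finset.sum_const, nsmul_eq_mul]
  have h8 : (∑ i ∈ s, q i - s.card * κ) / (1 + κ) ≤ (K - s.card * κ) / (1 + κ) :=
    div_le_div_of_nonneg_right (by linarith) h1.le
  have h9 : (K - s.card * κ) / (1 + κ) = (R - s.card) * (κ / (1 + κ)) := by
    rw [hK']
    ring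
  have h10 : κ / (1 + κ) ≤ Real.log (1 + κ) := by
    have h11 := Real.one_sub_inv_le_log_of_pos h1
    have h12 : κ / (1 + κ) = 1 - (1 + κ)⁻¹ := by
      field_simp
      ring
    rw [h12]
    exact h11
  have h13 : (R - s.card) * (κ / (1 + κ)) ≤ (R - s.card) * Real.log (1 + κ) :=
    mul_le_mul_of_nonneg_left h10 (by linarith)
  have h14 : s.card * Real.log (1 + κ) + (R - s.card) * Real.log (1 + κ) =
      R * Real.log (1 + κ) := by ring
  linarith

/-- the candidates for the image of `z` -/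
noncomputable def Cand {V : Type} [Fintype V] (G : SimpleGraph V) (g : Finset (V × V)) (z : V) :
    Finset V :=
  univ.filter fun y => ∀ w ∈ g, Cmp G (z, y) w

theorem mem_Cand {V : Type} [Fintype V] {G : SimpleGraph V} {g : Finset (V × V)} {z y : V} :
    y ∈ Cand G g z ↔ ∀ w ∈ g, Cmp G (z, y) w := by
  simp [Cand]

theorem mem_tc {V : Type} [Fintype V] {G : SimpleGraph V} {Y : Finset V} {v u : V} :
    u ∈ tc G Y v ↔ u ∉ Y ∧ ∀ w ∈ Y, (G.Adj w u ↔ G.Adj w v) := by
  simp [tc]

theorem mem_emb {V : Type} [Fintype V] {G : SimpleGraph V} {a r : V} {X : Finset V}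
    {I : Finset (V × V)} :
    I ∈ emb G a r X ↔ Good G I ∧ (a, r) ∈ I ∧ I.image Prod.fst = X := by
  simp [emb]

theorem mem_embk {V : Type} [Fintype V] {G : SimpleGraph V} {a r : V} {X : Finset V} {k : ℕ}
    {I : Finset (V × V)} :
    I ∈ embk G a r X k ↔ (Good G I ∧ (a, r) ∈ I ∧ I.image Prod.fst = X) ∧
      ∃ J, Good G J ∧ I ⊆ J ∧ J.card + k = Fintype.card V := by
  simp only [embk, Finset.mem_filter, mem_emb]

theorem uniq {V : Type} {G : SimpleGraph V} {I : Finset (V × V)} (hg : Good G I) {x y z : V}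
    (h1 : (x, y) ∈ I) (h2 : (x, z) ∈ I) : y = z :=
  (hg _ h1 _ h2).1.mp rfl

theorem uniq' {V : Type} {G : SimpleGraph V} {I : Finset (V × V)} (hg : Good G I) {x y z : V}
    (h1 : (y, x) ∈ I) (h2 : (z, x) ∈ I) : y = z :=
  (hg _ h1 _ h2).1.mpr rfl

theorem exIm {V : Type} {I : Finset (V × V)} {X : Finset V} (hI : I.image Prod.fst = X)
    {x : V} (hx : x ∈ X) : ∃ y, (x, y) ∈ I := by
  rw [← hI] at hx
  obtain ⟨⟨x', y⟩, h, h'⟩ := Finset.mem_image.mp hx
  exact ⟨y, by rw [← h']; exact h⟩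

/-- the image of `z` -/
noncomputable def im {V : Type} (h : Finset (V × V)) (z : V) : V :=
  if hz : ∃ y, (z, y) ∈ h then Classical.choose hz else z

theorem im_mem {V : Type} {h : Finset (V × V)} {z : V} (hz : ∃ y, (z, y) ∈ h) :
    (z, im h z) ∈ h := by
  unfold im
  rw [dif_pos hz]
  exact Classical.choose_spec hz

/-- two vertices outside `Y` with a common candidate have the same trace -/
theorem same_trace {V : Type} [Fintype V] {G : SimpleGraph V} {g : Finset (V × V)} {Y : Finset V}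
    (hY : g.image Prod.fst = Y) {z z' y : V} (hz : y ∈ Cand G g z) (hz' : y ∈ Cand G g z') :
    ∀ w ∈ Y, (G.Adj w z ↔ G.Adj w z') := by
  intro w hw
  obtain ⟨w', hw'⟩ := exIm hY hw
  have h1 := (mem_Cand.1 hz _ hw').2
  have h2 := (mem_Cand.1 hz' _ hw').2
  simp only at h1 h2
  rw [G.adj_comm w z, G.adj_comm w z', h1, h2]

/-- the fibre over `g` -/
theorem fibre_card {V : Type} [Fintype V] (G : SimpleGraph V) (a r : V) (Y Z : Finset V) (k : ℕ)
    (g : Finset (V × V)) :
    ((embk G a r Z k).filter fun h => (h.filter fun u => u.1 ∈ Y) = g).card ≤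
      ∏ z ∈ Z \ Y, (Cand G g z).card := by
  rw [← Finset.card_pi]
  refine Finset.card_le_card_of_injOn (fun h => fun z _ => im h z) ?_ ?_
  · intro h hh
    rw [Finset.mem_coe, Finset.mem_filter, mem_embk] at hh
    obtain ⟨⟨⟨hgood, -, hZ⟩, -⟩, hfg⟩ := hh
    rw [Finset.mem_coe, Finset.mem_pi]
    intro z hz
    rw [mem_Cand]
    intro w hw
    have hw' : w ∈ h := by
      rw [← hfg] at hw
      exact (Finset.mem_filter.1 hw).1
    exact hgood _ (im_mem (exIm hZ (Finset.mem_sdiff.1 hz).1)) _ hw'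
  · have key : ∀ h h' : Finset (V × V),
        h ∈ ((embk G a r Z k).filter fun h => (h.filter fun u => u.1 ∈ Y) = g) →
        h' ∈ ((embk G a r Z k).filter fun h => (h.filter fun u => u.1 ∈ Y) = g) →
        (∀ z ∈ Z \ Y, im h z = im h' z) → h ⊆ h' := by
      intro h h' hh hh' heq
      rw [Finset.mem_filter, mem_embk] at hh hh'
      obtain ⟨⟨⟨hgood, -, hZ⟩, -⟩, hfg⟩ := hh
      obtain ⟨⟨⟨hgood', -, hZ'⟩, -⟩, hfg'⟩ := hh'
      rintro ⟨x, y⟩ hxy
      by_cases hx : x ∈ Y
      · have h1 : (x, y) ∈ h.filter fun u => u.1 ∈ Y := Finset.mem_filter.2 ⟨hxy, hx⟩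
        rw [hfg, ← hfg'] at h1
        exact (Finset.mem_filter.1 h1).1
      · have hxZ : x ∈ Z := by
          rw [← hZ]
          exact Finset.mem_image.2 ⟨(x, y), hxy, rfl⟩
        have h1 := heq x (Finset.mem_sdiff.2 ⟨hxZ, hx⟩)
        have h2 : im h x = y := uniq hgood (im_mem ⟨y, hxy⟩) hxy
        have h3 := im_mem (exIm hZ' hxZ)
        rw [← h1, h2] at h3
        exact h3
    intro h hh h' hh' heq
    have heq' : ∀ z ∈ Z \ Y, im h z = im h' z := fun z hz => congrFun (congrFun heq z) hz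
    exact Finset.Subset.antisymm (key h h' hh hh' heq')
      (key h' h hh' hh fun z hz => (heq' z hz).symm)

/-- the candidates in the image of `J` are few -/
theorem cand_inter {V : Type} [Fintype V] (G : SimpleGraph V) (Y : Finset V)
    (g J : Finset (V × V)) (hJ : Good G J) (hgJ : g ⊆ J) (hY : g.image Prod.fst = Y) (z : V)
    (hz : z ∉ Y) : (Cand G g z ∩ J.image Prod.snd).card ≤ (tc G Y z).card := by
  have hex : ∀ y ∈ Cand G g z ∩ J.image Prod.snd, ∃ x, (x, y) ∈ J := by
    intro y hy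
    obtain ⟨⟨x, y'⟩, h1, h2⟩ := Finset.mem_image.1 (Finset.mem_inter.1 hy).2
    exact ⟨x, by rw [← h2]; exact h1⟩
  choose! f hf using hex
  refine Finset.card_le_card_of_injOn f ?_ ?_
  · intro y hy
    rw [Finset.mem_coe] at hy ⊢
    have h1 := hf y hy
    have hyC := (Finset.mem_inter.1 hy).1
    have hx : f y ∉ Y := by
      intro hx
      obtain ⟨y', hy'⟩ := exIm hY hx
      have h2 : y = y' := uniq hJ h1 (hgJ hy')
      subst h2
      have h3 := (mem_Cand.1 hyC _ hy').1.2 rfl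
      exact hz (by rw [show z = f y from h3]; exact hx)
    rw [mem_tc]
    refine ⟨hx, fun w hw => ?_⟩
    obtain ⟨w', hw'⟩ := exIm hY hw
    have h4 := (hJ _ (hgJ hw') _ h1).2
    have h5 := (mem_Cand.1 hyC _ hw').2
    simp only at h4 h5
    rw [h4, G.adj_comm w z, h5, G.adj_comm]
  · intro y hy y' hy' h
    have h1 := hf y hy
    have h2 := hf y' hy'
    rw [h] at h1
    exact uniq hJ h1 h2

/-- the sum of the excesses -/
theorem sum_excess {V : Type} [Fintype V] (G : SimpleGraph V) (Y W : Finset V)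
    (g : Finset (V × V)) (hY : g.image Prod.fst = Y) (hW : ∀ z ∈ W, z ∉ Y) (T : Finset V) :
    ∑ z ∈ W, (((Cand G g z).filter fun y => y ∈ T).card : ℝ) / (tc G Y z).card ≤ T.card := by
  have h1 : ∀ z ∈ W, (((Cand G g z).filter fun y => y ∈ T).card : ℝ) / (tc G Y z).card =
      ∑ y ∈ T, if y ∈ Cand G g z then (1 : ℝ) / (tc G Y z).card else 0 := by
    intro z _
    rw [← Finset.sum_filter, Finset.sum_const, nsmul_eq_mul]
    have h2 : (Cand G g z).filter (fun y => y ∈ T) = T.filter fun y => y ∈ Cand G g z := by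
      ext y
      simp only [Finset.mem_filter]
      tauto
    rw [h2]
    ring
  rw [Finset.sum_congr rfl h1, Finset.sum_comm]
  have h3 : ∀ y ∈ T, ∑ z ∈ W, (if y ∈ Cand G g z then (1 : ℝ) / (tc G Y z).card else 0) ≤ 1 := by
    intro y _
    rw [← Finset.sum_filter]
    rcases (W.filter fun z => y ∈ Cand G g z).eq_empty_or_nonempty with h4 | ⟨z₀, hz₀⟩
    · rw [h4, Finset.sum_empty]
      exact zero_le_one
    · have hz₀' := Finset.mem_filter.1 hz₀
      have htr : ∀ z ∈ W.filter (fun z => y ∈ Cand G g z), tc G Y z = tc G Y z₀ := by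
        intro z hz
        have hz' := Finset.mem_filter.1 hz
        have hs := same_trace hY hz'.2 hz₀'.2
        ext u
        rw [mem_tc, mem_tc]
        constructor
        · rintro ⟨hu, h⟩
          exact ⟨hu, fun w hw => (h w hw).trans (hs w hw)⟩
        · rintro ⟨hu, h⟩
          exact ⟨hu, fun w hw => (h w hw).trans (hs w hw).symm⟩
      have hsub : W.filter (fun z => y ∈ Cand G g z) ⊆ tc G Y z₀ := by
        intro z hz
        have hz' := Finset.mem_filter.1 hz
        rw [mem_tc]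
        exact ⟨hW z hz'.1, same_trace hY hz'.2 hz₀'.2⟩
      rw [Finset.sum_congr rfl fun z hz => by rw [htr z hz], Finset.sum_const, nsmul_eq_mul]
      have hpos : 0 < (tc G Y z₀).card := Finset.card_pos.2 ⟨z₀, hsub hz₀⟩
      have hpos' : (0 : ℝ) < (tc G Y z₀).card := by exact_mod_cast hpos
      rw [mul_one_div, div_le_one hpos']
      exact_mod_cast Finset.card_le_card hsub
  calc ∑ y ∈ T, ∑ z ∈ W, (if y ∈ Cand G g z then (1 : ℝ) / (tc G Y z).card else 0)
      ≤ ∑ _y ∈ T, (1 : ℝ) := Finset.sum_le_sum h3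
    _ = T.card := by simp

/-- the product over the revealed vertices -/
theorem prod_cand {V : Type} [Fintype V] (G : SimpleGraph V) (Y W : Finset V) (n k : ℕ) (R : ℝ)
    (hn : 1 ≤ n) (hW : ∀ z ∈ W, z ∉ Y) (htc : ∀ z ∈ W, (tc G Y z).card ≤ n)
    (hWR : (W.card : ℝ) ≤ R) (hR : 0 < R) (hk : k ≤ Fintype.card V)
    (g J : Finset (V × V)) (hJ : Good G J) (hgJ : g ⊆ J) (hY : g.image Prod.fst = Y)
    (hJk : J.card + k = Fintype.card V) :
    ((∏ z ∈ W, (Cand G g z).card : ℕ) : ℝ) ≤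
      ((n : ℝ) * (1 + Fintype.card V / R)) ^ R := by
  set T : Finset V := univ \ J.image Prod.snd with hT
  have hTk : (T.card : ℝ) ≤ Fintype.card V := by
    exact_mod_cast Finset.card_le_univ T
  have hn0 : (1 : ℝ) ≤ n := by exact_mod_cast hn
  have hc : ∀ z ∈ W, 0 < (tc G Y z).card := by
    intro z hz
    refine Finset.card_pos.2 ⟨z, ?_⟩
    rw [mem_tc]
    exact ⟨hW z hz, fun w _ => Iff.rfl⟩
  set q : V → ℝ := fun z => (((Cand G g z).filter fun y => y ∈ T).card : ℝ) / (tc G Y z).card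
    with hq
  have hq0 : ∀ z, 0 ≤ q z := fun z => div_nonneg (Nat.cast_nonneg _) (Nat.cast_nonneg _)
  have h1 : ∀ z ∈ W, ((Cand G g z).card : ℝ) ≤ n * (1 + q z) := by
    intro z hz
    have hcz : (0 : ℝ) < (tc G Y z).card := by exact_mod_cast hc z hz
    have h2 : (Cand G g z).card ≤
        (Cand G g z ∩ J.image Prod.snd).card + ((Cand G g z).filter fun y => y ∈ T).card := by
      have h3 : Cand G g z ⊆ (Cand G g z ∩ J.image Prod.snd) ∪
          ((Cand G g z).filter fun y => y ∈ T) := by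
        intro y hy
        by_cases hyJ : y ∈ J.image Prod.snd
        · exact Finset.mem_union_left _ (Finset.mem_inter.2 ⟨hy, hyJ⟩)
        · exact Finset.mem_union_right _ (Finset.mem_filter.2 ⟨hy,
            Finset.mem_sdiff.2 ⟨Finset.mem_univ _, hyJ⟩⟩)
      exact (Finset.card_le_card h3).trans (Finset.card_union_le _ _)
    have h4 := cand_inter G Y g J hJ hgJ hY z (hW z hz)
    have h5 : ((Cand G g z).card : ℝ) ≤ (tc G Y z).card +
        ((Cand G g z).filter fun y => y ∈ T).card := by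
      exact_mod_cast h2.trans (Nat.add_le_add_right h4 _)
    have h6 : ((tc G Y z).card : ℝ) + ((Cand G g z).filter fun y => y ∈ T).card =
        (tc G Y z).card * (1 + q z) := by
      rw [hq]
      field_simp
    have h7 : ((tc G Y z).card : ℝ) ≤ n := by exact_mod_cast htc z hz
    rw [h6] at h5
    exact h5.trans (mul_le_mul_of_nonneg_right h7 (by linarith [hq0 z]))
  have hsum : ∑ z ∈ W, q z ≤ Fintype.card V := (sum_excess G Y W g hY hW T).trans hTk
  have hprod : ∏ z ∈ W, (1 + q z) ≤ (1 + (Fintype.card V : ℝ) / R) ^ R :=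
    prod_bound W q (fun z _ => hq0 z) _ R (Nat.cast_nonneg _) hR hWR hsum
  rw [Nat.cast_prod]
  calc ∏ z ∈ W, ((Cand G g z).card : ℝ) ≤ ∏ z ∈ W, ((n : ℝ) * (1 + q z)) :=
        Finset.prod_le_prod (fun z _ => Nat.cast_nonneg _) h1
    _ = (n : ℝ) ^ (W.card : ℝ) * ∏ z ∈ W, (1 + q z) := by
        rw [Finset.prod_mul_distrib, Finset.prod_const, Real.rpow_natCast]
    _ ≤ (n : ℝ) ^ R * (1 + (Fintype.card V : ℝ) / R) ^ R := by
        refine mul_le_mul (Real.rpow_le_rpow_of_exponent_le hn0 hWR) hprod ?_ ?_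
        · exact Finset.prod_nonneg fun z _ => by linarith [hq0 z]
        · exact Real.rpow_nonneg (by linarith) _
    _ = ((n : ℝ) * (1 + Fintype.card V / R)) ^ R := by
        rw [Real.mul_rpow (by linarith) (by positivity)]

end EXTM

open EXTM

theorem specEXT : SpecEXT := by
  intro V _ G a r Y Z n k R hYZ ha hn htc hR0 hR hk
  set φ : Finset (V × V) → Finset (V × V) := fun h => h.filter fun u => u.1 ∈ Y with hφ
  have hmap : ∀ h ∈ embk G a r Z k, φ h ∈ embk G a r Y k := by
    intro h hh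
    rw [mem_embk] at hh ⊢
    obtain ⟨⟨hgood, har, hZ⟩, J, hJ, hhJ, hJk⟩ := hh
    have hsub : φ h ⊆ h := Finset.filter_subset _ _
    refine ⟨⟨fun u hu w hw => hgood u (hsub hu) w (hsub hw),
      Finset.mem_filter.2 ⟨har, ha⟩, ?_⟩, J, hJ, hsub.trans hhJ, hJk⟩
    ext x
    constructor
    · intro hx
      obtain ⟨⟨x', y⟩, h1, rfl⟩ := Finset.mem_image.1 hx
      exact (Finset.mem_filter.1 h1).2
    · intro hx
      obtain ⟨y, hy⟩ := exIm hZ (hYZ hx)
      exact Finset.mem_image.2 ⟨(x, y), Finset.mem_filter.2 ⟨hy, hx⟩, rfl⟩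
  have hcard : (embk G a r Z k).card =
      ∑ g ∈ embk G a r Y k, ((embk G a r Z k).filter fun h => φ h = g).card :=
    Finset.card_eq_sum_card_fiberwise hmap
  rw [hcard, Nat.cast_sum]
  have hB : ∀ g ∈ embk G a r Y k, (((embk G a r Z k).filter fun h => φ h = g).card : ℝ) ≤
      ((n : ℝ) * (1 + Fintype.card V / R)) ^ R := by
    intro g hg
    rw [mem_embk] at hg
    obtain ⟨⟨-, -, hY⟩, J, hJ, hgJ, hJk⟩ := hg
    have h1 : ((((embk G a r Z k).filter fun h => φ h = g).card : ℕ) : ℝ) ≤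
        ((∏ z ∈ Z \ Y, (Cand G g z).card : ℕ) : ℝ) := by
      exact_mod_cast fibre_card G a r Y Z k g
    refine h1.trans ?_
    exact prod_cand G Y (Z \ Y) n k R hn (fun z hz => (Finset.mem_sdiff.1 hz).2)
      (fun z hz => htc z (Finset.mem_sdiff.1 hz).1 (Finset.mem_sdiff.1 hz).2) hR0 hR hk g J hJ hgJ
      hY hJk
  calc ∑ g ∈ embk G a r Y k, (((embk G a r Z k).filter fun h => φ h = g).card : ℝ)
      ≤ ∑ _g ∈ embk G a r Y k, ((n : ℝ) * (1 + Fintype.card V / R)) ^ R := Finset.sum_le_sum hB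
    _ = (embk G a r Y k).card * ((n : ℝ) * (1 + Fintype.card V / R)) ^ R := by
        rw [Finset.sum_const, nsmul_eq_mul]

end Pool.Agent.Lib.MP50ecf8.LOC
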