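import Pool.Agent.Lib.MP_50ecf8_co.LOC.Spec8
import Pool.Agent.Lib.MP_50ecf8_co.LOC.EXT

/-! # ECNY: the count along a chain of paid steps -/

set_option autoImplicit false

open Finset
open scoped Classical

namespace Pool.Agent.Lib.MP50ecf8.LOC

namespace ECNYM

theorem sub {V : Type} [Fintype V] {G : SimpleGraph V} {X₀ Y : Finset V} {c : ℝ} (h : PC G X₀ Y c) :
    X₀ ⊆ Y := by
  induction h with
  | base => exact Finset.Subset.refl _
  | paid _ hYZ _ _ _ _ ih => exact ih.trans hYZ

end ECNYM

theorem specECNY : SpecECNY := by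
  intro V _ G a r X₀ Y c k h ha hk
  induction h with
  | base => rw [mul_one]
  | paid hPC hYZ hn htc hR hR0 ih =>
    rename_i Y Z c R n
    have h1 := specEXT V G a r Y Z n k R hYZ (ECNYM.sub hPC ha) hn htc hR hR0 hk
    have h2 : (0 : ℝ) ≤ ((n : ℝ) * (1 + Fintype.card V / R)) ^ R := by
      apply Real.rpow_nonneg
      positivity
    calc ((embk G a r Z k).card : ℝ) ≤ (embk G a r Y k).card * ((n : ℝ) * (1 + Fintype.card V / R)) ^ R := h1
      _ ≤ ((embk G a r X₀ k).card * c) * ((n : ℝ) * (1 + Fintype.card V / R)) ^ R :=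
          mul_le_mul_of_nonneg_right ih h2
      _ = _ := by ring

end Pool.Agent.Lib.MP50ecf8.LOC
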