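import Pool.Agent.Lib.MP_50ecf8_co.LOC.Spec2

set_option autoImplicit false

open Finset
open scoped Classical

namespace Pool.Agent.Lib.MP50ecf8.LOC

lemma fin_mono {V : Type} {G : SimpleGraph V} {X Y : Finset V} (h : X ⊆ Y) (hX : Locating G X) :
    Locating G Y := by
  intro u hu v hv huv
  obtain ⟨w, hw, h'⟩ := hX u (fun h1 => hu (h h1)) v (fun h1 => hv (h h1)) huv
  exact ⟨w, h hw, h'⟩

/-- a small exceptional set leaves at least two vertices -/
lemma fin_pair {V : Type} [Fintype V] (hp : 2 ≤ Fintype.card V) (B : Finset V) {c : ℝ}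
    (hc : 10 ≤ c) (hB : (B.card : ℝ) ≤ Fintype.card V / c) : ∃ u v, u ∉ B ∧ v ∉ B ∧ u ≠ v := by
  have hp' : (2 : ℝ) ≤ Fintype.card V := by exact_mod_cast hp
  have h1 : (B.card : ℝ) ≤ Fintype.card V / 10 := by
    refine hB.trans ?_
    exact div_le_div_of_nonneg_left (by linarith) (by norm_num) hc
  have h2 : 1 < (univ \ B).card := by
    rw [Finset.card_sdiff_of_subset (Finset.subset_univ B), Finset.card_univ]
    have h3 : (B.card : ℝ) + 1 < Fintype.card V := by linarith
    have h4 : B.card + 1 < Fintype.card V := by exact_mod_cast h3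
    omega
  obtain ⟨u, hu, v, hv, huv⟩ := Finset.one_lt_card.mp h2
  exact ⟨u, v, (Finset.mem_sdiff.mp hu).2, (Finset.mem_sdiff.mp hv).2, huv⟩

lemma fin_sep_le {V : Type} [Fintype V] (G : SimpleGraph V) {u v : V} (huv : u ≠ v) :
    (sep G u v).card + 2 ≤ Fintype.card V := by
  have h1 : sep G u v ⊆ univ \ {u, v} := by
    intro w hw
    rw [sep, mem_filter] at hw
    rw [mem_sdiff]
    refine ⟨mem_univ _, ?_⟩
    simp [hw.2.1, hw.2.2.1]
  have h2 := card_le_card h1
  rw [Finset.card_sdiff_of_subset (Finset.subset_univ _), Finset.card_univ, card_pair huv] at h2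
  have h3 : ({u, v} : Finset V).card ≤ Fintype.card V := Finset.card_le_univ _
  rw [card_pair huv] at h3
  omega

lemma fin_sep_deg {V : Type} [Fintype V] (G : SimpleGraph V) (u v : V) :
    (sep G u v).card ≤ deg G u + deg G v := by
  refine (card_le_card ?_).trans (card_union_le _ _)
  intro w hw
  rw [sep, mem_filter] at hw
  rw [mem_union, mem_filter, mem_filter]
  by_cases h : G.Adj u w
  · exact Or.inl ⟨mem_univ _, h⟩
  · right
    refine ⟨mem_univ _, ?_⟩
    by_contra h'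
    exact hw.2.2.2 ⟨fun h2 => absurd h2.symm h, fun h2 => absurd h2.symm h'⟩

/-- the version with `log2 p` -/
theorem fin2 (hMAIN : SpecMAIN) (hNBP : SpecNBP) (hRNPB : SpecRNPB) (hNUPB : SpecNUPB)
    {V : Type} [Fintype V] {G : SimpleGraph V} {a b : V} (hH : H2 G a b) (B : Finset V)
    (hB : (B.card : ℝ) ≤ Fintype.card V / (10 * Real.logb 2 (Fintype.card V)))
    (hsep : ∀ u v, u ∉ B → v ∉ B → u ≠ v →
      6 * Real.logb 2 (Fintype.card V) ^ 2 ≤ ((sep G u v).card : ℝ)) :
    ∃ φ : G ≃g G, φ a = b := by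
  rcases eq_or_ne a b with rfl | hab
  · exact ⟨RelIso.refl _, rfl⟩
  have hp : 2 ≤ Fintype.card V := Fintype.one_lt_card_iff.mpr ⟨a, b, hab⟩
  have hp' : (2 : ℝ) ≤ Fintype.card V := by exact_mod_cast hp
  have hl : 1 ≤ Real.logb 2 (Fintype.card V) := by
    rw [← Real.logb_self_eq_one (b := 2) (by norm_num)]
    exact Real.logb_le_logb_of_le (by norm_num) (by norm_num) hp'
  have hex := fin_pair hp B (c := 10 * Real.logb 2 (Fintype.card V)) (by linarith) hB
  have hnum : 6 * Real.logb 2 (Fintype.card V) ^ 2 + 2 ≤ (Fintype.card V : ℝ) := by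
    obtain ⟨u, v, hu, hv, huv⟩ := hex
    have h1 := hsep u v hu hv huv
    have h2 : (((sep G u v).card + 2 : ℕ) : ℝ) ≤ Fintype.card V := by
      exact_mod_cast fin_sep_le G huv
    push_cast at h2
    linarith
  obtain ⟨s, hs1, hs2⟩ := hNUPB (Fintype.card V) hp hnum
  obtain ⟨X', hX', hXc⟩ := hRNPB V G B _ s (by positivity) hsep hex hs1
  have hX : Locating G (insert a X') := fin_mono (subset_insert _ _) hX'
  have ha : a ∈ insert a X' := mem_insert_self _ _
  have hc1 : 1 ≤ (insert a X').card := card_pos.mpr ⟨a, ha⟩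
  have hc2 : (insert a X').card ≤ Fintype.card V := card_le_univ _
  have hc3 : ((insert a X').card : ℝ) ≤
      s + 1 + Fintype.card V / (10 * Real.logb 2 (Fintype.card V)) := by
    have h1 : (insert a X').card ≤ s + B.card + 1 :=
      (card_insert_le _ _).trans (Nat.add_le_add_right hXc 1)
    have h2 : ((insert a X').card : ℝ) ≤ s + B.card + 1 := by exact_mod_cast h1
    linarith
  apply hMAIN V G a b (insert a X') ha hX hH
  refine lt_of_le_of_lt ?_ (hs2 _ hc1 hc2 hc3)
  apply Nat.mul_le_mul_right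
  apply Nat.mul_le_mul_right
  have h1 := hNBP V G a a (insert a X') ha
  have h2 := hNBP V G a b (insert a X') ha
  omega

/-- the version with the maximum degree -/
theorem fin3 (hMAIN : SpecMAIN) (hNBD : SpecNBD) (hCDS : SpecCDS) (hDIS : SpecDIS)
    (hRNCB : SpecRNCB) (hRNN : SpecRNN) (hNUDB : SpecNUDB)
    {V : Type} [Fintype V] {G : SimpleGraph V} {a b : V} (hH : H2 G a b) (B : Finset V) (D : ℕ)
    (hD : 2 ≤ D) (hdeg : ∀ v, deg G v ≤ D)
    (hB : (B.card : ℝ) ≤ Fintype.card V / (40 * Real.logb 2 D))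
    (hsep : ∀ u v, u ∉ B → v ∉ B → u ≠ v →
      32 * Real.logb 2 D ^ 2 ≤ ((sep G u v).card : ℝ)) :
    ∃ φ : G ≃g G, φ a = b := by
  rcases eq_or_ne a b with rfl | hab
  · exact ⟨RelIso.refl _, rfl⟩
  by_cases hcon : G.Connected
  swap
  · exact hDIS V G a b hcon hH
  have hp : 2 ≤ Fintype.card V := Fintype.one_lt_card_iff.mpr ⟨a, b, hab⟩
  have hD' : (2 : ℝ) ≤ D := by exact_mod_cast hD
  have hl : 1 ≤ Real.logb 2 D := by
    rw [← Real.logb_self_eq_one (b := 2) (by norm_num)]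
    exact Real.logb_le_logb_of_le (by norm_num) (by norm_num) hD'
  have hex := fin_pair hp B (c := 40 * Real.logb 2 D) (by linarith) hB
  have hnum : 32 * Real.logb 2 D ^ 2 ≤ (Fintype.card V : ℝ) ∧ 16 * Real.logb 2 D ^ 2 ≤ (D : ℝ) := by
    obtain ⟨u, v, hu, hv, huv⟩ := hex
    have h1 := hsep u v hu hv huv
    have h2 : (((sep G u v).card + 2 : ℕ) : ℝ) ≤ Fintype.card V := by
      exact_mod_cast fin_sep_le G huv
    have h3 : ((sep G u v).card : ℝ) ≤ 2 * D := by
      have h4 := (fin_sep_deg G u v).trans (Nat.add_le_add (hdeg u) (hdeg v))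
      have h5 : (sep G u v).card ≤ 2 * D := by omega
      exact_mod_cast h5
    push_cast at h2
    constructor <;> linarith
  obtain ⟨s, hs⟩ := hRNN (Fintype.card V) D hD hnum.2 hnum.1
  obtain ⟨X₁, hX₁, hX₁c⟩ := hRNCB V G B D _ s (by positivity) hdeg hsep hex
  have hX₁c' : (X₁.card : ℝ) ≤
      Fintype.card V / (40 * Real.logb 2 D) + Fintype.card V / (12 * Real.logb 2 D) := by
    linarith
  -- the vertices which are not dominated
  set U : Finset V := univ.filter fun v => v ∉ X₁ ∧ ∀ w ∈ X₁, ¬ G.Adj v w with hU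
  have hUc : U.card ≤ 1 := by
    rw [card_le_one]
    intro u hu v hv
    by_contra huv
    rw [hU, mem_filter] at hu hv
    obtain ⟨w, hw, h⟩ := hX₁ u hu.2.1 v hv.2.1 huv
    exact h ⟨fun h1 => absurd h1.symm (hu.2.2 w hw), fun h1 => absurd h1.symm (hv.2.2 w hw)⟩
  set D₁ : Finset V := insert a (X₁ ∪ U) with hD₁
  have hD₁c : D₁.card ≤ X₁.card + 2 := by
    have h1 : D₁.card ≤ (X₁ ∪ U).card + 1 := card_insert_le a (X₁ ∪ U)
    have h2 := card_union_le X₁ U
    omega
  have hdom : ∀ v, v ∈ D₁ ∨ ∃ w ∈ D₁, G.Adj v w := by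
    intro v
    by_cases h1 : v ∈ X₁
    · exact Or.inl (mem_insert_of_mem (mem_union_left _ h1))
    by_cases h2 : ∀ w ∈ X₁, ¬ G.Adj v w
    · exact Or.inl (mem_insert_of_mem (mem_union_right _ (by rw [hU, mem_filter]; exact ⟨mem_univ _, h1, h2⟩)))
    · push Not at h2
      obtain ⟨w, hw, h⟩ := h2
      exact Or.inr ⟨w, mem_insert_of_mem (mem_union_left _ hw), h⟩
  obtain ⟨X, hDX, hXcon, hXc⟩ := hCDS V G hcon D₁ ⟨a, mem_insert_self _ _⟩ hdom
  have ha : a ∈ X := hDX (mem_insert_self _ _)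
  have hX : Locating G X :=
    fin_mono (fun x hx => hDX (mem_insert_of_mem (mem_union_left _ hx))) hX₁
  have hc1 : 1 ≤ X.card := card_pos.mpr ⟨a, ha⟩
  have hc2 : X.card ≤ Fintype.card V := card_le_univ _
  have hc3 : (X.card : ℝ) ≤ 13 * Fintype.card V / (40 * Real.logb 2 D) + 4 := by
    have h1 : X.card ≤ 3 * X₁.card + 4 := by omega
    have h2 : (X.card : ℝ) ≤ 3 * X₁.card + 4 := by exact_mod_cast h1
    have hl0 : Real.logb 2 D ≠ 0 := by linarith
    have h3 : (3 : ℝ) * (Fintype.card V / (40 * Real.logb 2 D) +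
        Fintype.card V / (12 * Real.logb 2 D)) = 13 * Fintype.card V / (40 * Real.logb 2 D) := by
      field_simp
      norm_num
    linarith
  apply hMAIN V G a b X ha hX hH
  refine lt_of_le_of_lt ?_ (hNUDB (Fintype.card V) D X.card hD hnum.2 hnum.1 hc1 hc2 hc3)
  apply Nat.mul_le_mul_right
  apply Nat.mul_le_mul_right
  have h1 := hNBD V G D a a X ha hXcon hdeg
  have h2 := hNBD V G D a b X ha hXcon hdeg
  omega

end Pool.Agent.Lib.MP50ecf8.LOC
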