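import Pool.Agent.Lib.MP_50ecf8_co.LOC.Spec3
import Pool.Agent.Lib.MP_50ecf8_co.LOC.FIN
import Pool.Agent.Lib.MP_50ecf8_co.LOC.MAINS

set_option autoImplicit false

open Finset
open scoped Classical

namespace Pool.Agent.Lib.MP50ecf8.LOC

lemma uniq_mono {V : Type} {G : SimpleGraph V} {Y Y' : Finset V} {x : V} (h : Y ⊆ Y')
    (hu : Uniq G Y x) : Uniq G Y' x := by
  intro u hu' hne
  obtain ⟨w, hw, h'⟩ := hu u (fun h1 => hu' (h h1)) hne
  exact ⟨w, h hw, h'⟩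

lemma fin_logb {D : ℕ} (hD : 2 ≤ D) : 1 ≤ Real.logb 2 D := by
  have hD' : (2 : ℝ) ≤ D := by exact_mod_cast hD
  rw [← Real.logb_self_eq_one (b := 2) (by norm_num)]
  exact Real.logb_le_logb_of_le (by norm_num) (by norm_num) hD'

/-- the common end of the two proofs -/
theorem finEnd (hMAINS : SpecMAINS) (hNBD : SpecNBD) (hBON : SpecBON)
    {V : Type} [Fintype V] {G : SimpleGraph V} {a b : V} (hH : H2 G a b) (D : ℕ)
    (hdeg : ∀ v, deg G v ≤ D) (X₀ C : Finset V) (ha : a ∈ X₀)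
    (hcon : (G.induce (X₀ : Set V)).Connected)
    (hC : ∀ c ∈ C, c ∉ X₀ → Uniq G X₀ c) (hloc : Locating G (X₀ ∪ C))
    (hnum : ∀ m, m ≤ Fintype.card V → Fintype.card V ≤ 2 * m + X₀.card →
      2 * D ^ (X₀.card - 1) * (m + 1) * 3 ^ m < 4 ^ m) :
    ∃ φ : G ≃g G, φ a = b := by
  obtain ⟨X, hX₀X, hR, hX, hc⟩ := hBON V G X₀ C hC hloc
  apply mains4 hMAINS ha hR hX hH
  refine lt_of_le_of_lt ?_ (hnum (Fintype.card V - X.card) (Nat.sub_le _ _) hc)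
  apply Nat.mul_le_mul_right
  apply Nat.mul_le_mul_right
  have h1 := hNBD V G D a a X₀ ha hcon hdeg
  have h2 := hNBD V G D a b X₀ ha hcon hdeg
  omega

/-- the core theorem -/
theorem finB (hMAINS : SpecMAINS) (hNBD : SpecNBD) (hCDS2 : SpecCDS2) (hDIS : SpecDIS)
    (hRNCC : SpecRNCC) (hRNN2 : SpecRNN2) (hNUD2 : SpecNUD2) (hBON : SpecBON)
    {V : Type} [Fintype V] {G : SimpleGraph V} {a b : V} (hH : H2 G a b) (B C : Finset V) (D : ℕ)
    (hD : 2 ≤ D) (hdeg : ∀ v, deg G v ≤ D)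
    (hB : (B.card : ℝ) ≤ Fintype.card V / (100 * Real.logb 2 D))
    (hne : ∃ v ∈ C, v ∉ B)
    (hsep : ∀ v ∈ C, v ∉ B → ∀ u, u ∉ B → u ≠ v →
      100 * Real.logb 2 D ^ 2 ≤ ((sep G v u).card : ℝ))
    (hloc : Locating G (B ∪ C)) :
    ∃ φ : G ≃g G, φ a = b := by
  rcases eq_or_ne a b with rfl | hab
  · exact ⟨RelIso.refl _, rfl⟩
  by_cases hcon : G.Connected
  swap
  · exact hDIS V G a b hcon hH
  have hp : 2 ≤ Fintype.card V := Fintype.one_lt_card_iff.mpr ⟨a, b, hab⟩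
  have hl : 1 ≤ Real.logb 2 D := fin_logb hD
  obtain ⟨v₀, hv₀C, hv₀B⟩ := hne
  obtain ⟨u₀, hu₀B, huv₀⟩ : ∃ u, u ∉ B ∧ u ≠ v₀ := by
    obtain ⟨u, v, hu, hv, huv⟩ := fin_pair hp B (c := 100 * Real.logb 2 D) (by linarith) hB
    by_cases h : u = v₀
    · exact ⟨v, hv, fun h' => huv (h.trans h'.symm)⟩
    · exact ⟨u, hu, h⟩
  have h1 := hsep v₀ hv₀C hv₀B u₀ hu₀B huv₀
  have h2 : (((sep G v₀ u₀).card + 2 : ℕ) : ℝ) ≤ Fintype.card V := by
    exact_mod_cast fin_sep_le G (Ne.symm huv₀)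
  have h3 : ((sep G v₀ u₀).card : ℝ) ≤ 2 * D := by
    have h4 := (fin_sep_deg G v₀ u₀).trans (Nat.add_le_add (hdeg v₀) (hdeg u₀))
    have h5 : (sep G v₀ u₀).card ≤ 2 * D := by omega
    exact_mod_cast h5
  push_cast at h2
  have hnp : 100 * Real.logb 2 D ^ 2 ≤ (Fintype.card V : ℝ) := by linarith
  have hnD : 50 * Real.logb 2 D ^ 2 ≤ (D : ℝ) := by linarith
  obtain ⟨s, hs⟩ := hRNN2 (Fintype.card V) D hD hnD hnp
  obtain ⟨X₁, hBX₁, hX₁, hX₁c⟩ := hRNCC V G B C D _ s (by positivity) hdeg hsep hnp (by omega)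
  have hX₁c' : (X₁.card : ℝ) ≤
      Fintype.card V / (100 * Real.logb 2 D) + Fintype.card V / (36 * Real.logb 2 D) := by
    linarith
  -- the vertices without neighbours in `B ∪ C`
  set U : Finset V := univ.filter fun v => v ∉ B ∪ C ∧ ∀ w ∈ B ∪ C, ¬ G.Adj v w with hU
  have hUc : U.card ≤ 1 := by
    rw [card_le_one]
    intro u hu v hv
    by_contra huv
    rw [hU, mem_filter] at hu hv
    obtain ⟨w, hw, h⟩ := hloc u hu.2.1 v hv.2.1 huv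
    exact h ⟨fun h1 => absurd h1.symm (hu.2.2 w hw), fun h1 => absurd h1.symm (hv.2.2 w hw)⟩
  set D₁ : Finset V := insert a (X₁ ∪ U) with hD₁
  have hD₁c : D₁.card ≤ X₁.card + 2 := by
    have h1 : D₁.card ≤ (X₁ ∪ U).card + 1 := card_insert_le a (X₁ ∪ U)
    have h2 := card_union_le X₁ U
    omega
  have hXD : ∀ w ∈ X₁, w ∈ D₁ := fun w hw => mem_insert_of_mem (mem_union_left _ hw)
  have hdom : ∀ v, v ∈ D₁ ∨ (∃ w ∈ D₁, G.Adj v w) ∨ ∃ w ∈ D₁, ∃ z, G.Adj v z ∧ G.Adj z w := by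
    intro v
    by_cases h1 : v ∈ X₁
    · exact Or.inl (hXD v h1)
    by_cases hvC : v ∈ C
    · obtain ⟨w, hw, h⟩ := (hX₁ v hvC h1).2
      exact Or.inr (Or.inl ⟨w, hXD w hw, h⟩)
    have hvB : v ∉ B := fun h => h1 (hBX₁ h)
    have hvBC : v ∉ B ∪ C := by
      rw [mem_union, not_or]; exact ⟨hvB, hvC⟩
    by_cases h2 : ∀ w ∈ B ∪ C, ¬ G.Adj v w
    · exact Or.inl (mem_insert_of_mem (mem_union_right _ (by rw [hU, mem_filter]; exact ⟨mem_univ _, hvBC, h2⟩)))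
    · push Not at h2
      obtain ⟨w, hw, h⟩ := h2
      by_cases hwX : w ∈ X₁
      · exact Or.inr (Or.inl ⟨w, hXD w hwX, h⟩)
      · rw [mem_union] at hw
        rcases hw with hw | hw
        · exact absurd (hBX₁ hw) hwX
        · obtain ⟨w', hw', h'⟩ := (hX₁ w hw hwX).2
          exact Or.inr (Or.inr ⟨w', hXD w' hw', w, h, h'⟩)
  obtain ⟨X₀, hDX, hXcon, hXc⟩ := hCDS2 V G hcon D₁ ⟨a, mem_insert_self _ _⟩ hdom
  have ha : a ∈ X₀ := hDX (mem_insert_self _ _)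
  have hX₁X₀ : X₁ ⊆ X₀ := fun w hw => hDX (hXD w hw)
  have hc1 : 1 ≤ X₀.card := card_pos.mpr ⟨a, ha⟩
  have hc2 : X₀.card ≤ Fintype.card V := card_le_univ _
  have hc3 : (X₀.card : ℝ) ≤ 17 * Fintype.card V / (90 * Real.logb 2 D) + 6 := by
    have h1 : X₀.card ≤ 5 * X₁.card + 6 := by omega
    have h2 : (X₀.card : ℝ) ≤ 5 * X₁.card + 6 := by exact_mod_cast h1
    have hl0 : Real.logb 2 D ≠ 0 := by linarith
    have h3 : (5 : ℝ) * (Fintype.card V / (100 * Real.logb 2 D) +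
        Fintype.card V / (36 * Real.logb 2 D)) = 17 * Fintype.card V / (90 * Real.logb 2 D) := by
      field_simp
      norm_num
    linarith
  refine finEnd hMAINS hNBD hBON hH D hdeg X₀ C ha hXcon ?_ ?_ ?_
  · intro c hc hcX
    exact uniq_mono hX₁X₀ (hX₁ c hc (fun h => hcX (hX₁X₀ h))).1
  · exact fin_mono (union_subset_union (hBX₁.trans hX₁X₀) (Subset.refl _)) hloc
  · intro m hm1 hm2
    exact hNUD2 (Fintype.card V) D X₀.card m hD hnD hnp hc1 hc2 hc3 hm1 hm2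

/-- graphs without 4-cycles -/
theorem finC (hMAINS : SpecMAINS) (hNBD : SpecNBD) (hCDS2 : SpecCDS2) (hDIS : SpecDIS)
    (hR4 : SpecR4) (hP4 : SpecP4) (hNUM4 : SpecNUM4) (hNUD4 : SpecNUD4) (hBON : SpecBON)
    {V : Type} [Fintype V] {G : SimpleGraph V} {a b : V} (hH : H2 G a b) (D : ℕ)
    (hD : 2 ≤ D) (hdeg : ∀ v, deg G v ≤ D) (hmin : ∀ v, 25 * Real.logb 2 D ≤ (deg G v : ℝ))
    (hC4 : ∀ u v x y : V, u ≠ v → x ≠ y → G.Adj u x → G.Adj u y → G.Adj v x → ¬ G.Adj v y) :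
    ∃ φ : G ≃g G, φ a = b := by
  by_cases hcon : G.Connected
  swap
  · exact hDIS V G a b hcon hH
  have hl : 1 ≤ Real.logb 2 D := fin_logb hD
  have hDD : 25 * Real.logb 2 D ≤ (D : ℝ) :=
    (hmin a).trans (by exact_mod_cast hdeg a)
  obtain ⟨K, d, hd1, hd2, hKd⟩ := hNUM4 D hD hDD
  have hpos : 0 < Fintype.card V := Fintype.card_pos_iff.mpr ⟨a⟩
  obtain ⟨X₁, hX₁, hX₁c⟩ := hR4 V G K d hd1 hC4 (fun v => hd2 _ (hmin v))
  have hX₁c' : (X₁.card : ℝ) ≤ 11 * Fintype.card V / (300 * Real.logb 2 D) := by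
    refine hX₁c.trans ?_
    have h1 := mul_le_mul_of_nonneg_left hKd (Nat.cast_nonneg (α := ℝ) (Fintype.card V))
    calc _ = (Fintype.card V : ℝ) * (1 / ((K : ℝ) + 1) +
        (d * (1 - (1 - (1 - 1 / ((K : ℝ) + 1)) ^ ((d - 1) / 2)) ^ 2) ^ (d - 1))) := by ring
      _ ≤ _ := h1
      _ = _ := by ring
  have hnp : 600 * Real.logb 2 D ^ 2 ≤ (Fintype.card V : ℝ) := by
    set n : ℕ := ⌈25 * Real.logb 2 D⌉₊ with hn
    have h1 : 25 * Real.logb 2 D ≤ (n : ℝ) := Nat.le_ceil _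
    have h2 : ∀ v, n ≤ deg G v := fun v => Nat.ceil_le.mpr (hmin v)
    have h3 := hP4 V G n hpos hC4 h2
    have h4 : 1 ≤ n := by
      have : (1 : ℝ) ≤ n := by linarith
      exact_mod_cast this
    have h5 : ((n * (n - 1) : ℕ) : ℝ) ≤ Fintype.card V := by exact_mod_cast h3
    rw [Nat.cast_mul, Nat.cast_sub h4, Nat.cast_one] at h5
    nlinarith
  set D₁ : Finset V := insert a X₁ with hD₁
  have hD₁c : D₁.card ≤ X₁.card + 1 := card_insert_le a X₁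
  have hXD : ∀ w ∈ X₁, w ∈ D₁ := fun w hw => mem_insert_of_mem hw
  have hdom : ∀ v, v ∈ D₁ ∨ (∃ w ∈ D₁, G.Adj v w) ∨ ∃ w ∈ D₁, ∃ z, G.Adj v z ∧ G.Adj z w := by
    intro v
    by_cases h1 : v ∈ X₁
    · exact Or.inl (hXD v h1)
    · obtain ⟨y, z, -, hvy, -, ⟨w, hw, -, -, -, hyw, -⟩, -⟩ := hX₁ v h1
      exact Or.inr (Or.inr ⟨w, hXD w hw, y, hvy, hyw⟩)
  obtain ⟨X₀, hDX, hXcon, hXc⟩ := hCDS2 V G hcon D₁ ⟨a, mem_insert_self _ _⟩ hdom
  have ha : a ∈ X₀ := hDX (mem_insert_self _ _)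
  have hX₁X₀ : X₁ ⊆ X₀ := fun w hw => hDX (hXD w hw)
  have hc1 : 1 ≤ X₀.card := card_pos.mpr ⟨a, ha⟩
  have hc2 : X₀.card ≤ Fintype.card V := card_le_univ _
  have hc3 : (X₀.card : ℝ) ≤ 11 * Fintype.card V / (60 * Real.logb 2 D) + 1 := by
    have h1 : X₀.card ≤ 5 * X₁.card + 1 := by omega
    have h2 : (X₀.card : ℝ) ≤ 5 * X₁.card + 1 := by exact_mod_cast h1
    have hl0 : Real.logb 2 D ≠ 0 := by linarith
    have h3 : (5 : ℝ) * (11 * Fintype.card V / (300 * Real.logb 2 D)) =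
        11 * Fintype.card V / (60 * Real.logb 2 D) := by
      field_simp
      norm_num
    linarith
  set C : Finset V := univ.filter fun y => ∃ w ∈ X₁, ∃ w' ∈ X₁, w ≠ w' ∧ G.Adj y w ∧ G.Adj y w'
    with hC
  refine finEnd hMAINS hNBD hBON hH D hdeg X₀ C ha hXcon ?_ ?_ ?_
  · intro c hc hcX u huX huc
    rw [hC, mem_filter] at hc
    obtain ⟨-, w, hw, w', hw', hne, h1, h2⟩ := hc
    by_contra hcontra
    push Not at hcontra
    have h3 : G.Adj u w := ((hcontra w (hX₁X₀ hw)).mpr h1.symm).symm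
    have h4 : G.Adj u w' := ((hcontra w' (hX₁X₀ hw')).mpr h2.symm).symm
    exact hC4 c u w w' (Ne.symm huc) hne h1 h2 h3 h4
  · intro u hu v hv huv
    rw [mem_union, not_or] at hu hv
    obtain ⟨y, z, hyz, huy, huz, hy, hz⟩ := hX₁ u (fun h => hu.1 (hX₁X₀ h))
    have hyC : y ∈ X₀ ∪ C := mem_union_right _ (by
      rw [hC, mem_filter]
      obtain ⟨w, hw, w', hw', h⟩ := hy
      exact ⟨mem_univ _, w, hw, w', hw', h⟩)
    have hzC : z ∈ X₀ ∪ C := mem_union_right _ (by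
      rw [hC, mem_filter]
      obtain ⟨w, hw, w', hw', h⟩ := hz
      exact ⟨mem_univ _, w, hw, w', hw', h⟩)
    by_contra hcontra
    push Not at hcontra
    have h3 : G.Adj v y := ((hcontra y hyC).mp huy.symm).symm
    have h4 : G.Adj v z := ((hcontra z hzC).mp huz.symm).symm
    exact hC4 u v y z huv hyz huy huz h3 h4
  · intro m hm1 hm2
    exact hNUD4 (Fintype.card V) D X₀.card m hD hDD hnp hc1 hc2 hc3 hm1 hm2

end Pool.Agent.Lib.MP50ecf8.LOC
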