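import Pool.Agent.Lib.MP_50ecf8_co.LOC.Spec5
import Pool.Agent.Lib.MP_50ecf8_co.LOC.FINB

/-!
# The theorem on twins: assembly
-/

set_option autoImplicit false

open Finset
open scoped Classical

namespace Pool.Agent.Lib.MP50ecf8.LOC

lemma tw_swap {V : Type} {G : SimpleGraph V} {u v : V} (h : Tw G u v) (x : V) :
    Tw G x (Equiv.swap u v x) := by
  rcases eq_or_ne x u with rfl | hxu
  · rw [Equiv.swap_apply_left]; exact h
  rcases eq_or_ne x v with rfl | hxv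
  · rw [Equiv.swap_apply_right]; exact h.symm
  rw [Equiv.swap_apply_of_ne_of_ne hxu hxv]
  exact Tw.refl G x

/-- the swap of two twins -/
noncomputable def twSwap {V : Type} {G : SimpleGraph V} {u v : V} (h : Tw G u v) : G ≃g G where
  toEquiv := Equiv.swap u v
  map_rel_iff' := by
    intro x y
    rcases eq_or_ne x y with rfl | hxy
    · simp
    · exact (Tw.adj (tw_swap h x) (tw_swap h y) hxy
        (fun h' => hxy ((Equiv.swap u v).injective h'))).symm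

lemma twSwap_left {V : Type} {G : SimpleGraph V} {u v : V} (h : Tw G u v) : twSwap h u = v :=
  Equiv.swap_apply_left u v

/-- the case of a connected graph and `a ∈ T` -/
theorem finT' (hMAINT : SpecMAINT) (hREPT : SpecREPT) (hRNV : SpecRNV) (hBONT : SpecBONT)
    (hNFT : SpecNFT) (hNTOP : SpecNTOP) (hCONT : SpecCONT) (hCDST : SpecCDST)
    {V : Type} [Fintype V] {G : SimpleGraph V} {a b : V} (hH : H2 G a b) (hcon : G.Connected)
    (T B C : Finset V) (D : ℕ) (hT : Trv G T) (haT : a ∈ T) (hT2 : 2 ≤ T.card) (hCT : C ⊆ T)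
    (hBt : ∀ u ∈ B, ∀ v, Tw G u v → v ∈ B) (hD : 2 ≤ D)
    (hdeg : ∀ v ∈ T, (T.filter fun w => G.Adj v w).card < D)
    (hB : (B.card : ℝ) ≤ T.card / (100 * Real.logb 2 D)) (hne : ∃ v ∈ C, v ∉ B)
    (hsep : ∀ v ∈ C, v ∉ B → ∀ u ∈ T, u ∉ B → u ≠ v →
      200 * Real.logb 2 D ^ 2 ≤ ((sep G v u ∩ T).card : ℝ))
    (hloc : ∀ u ∈ T, u ∉ B ∪ C → ∀ v ∈ T, v ∉ B ∪ C → u ≠ v →
      ∃ w ∈ B ∪ C, ¬(G.Adj w u ↔ G.Adj w v)) :
    ∃ φ : G ≃g G, φ a = b := by
  have hl : 1 ≤ Real.logb 2 D := fin_logb hD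
  set L := Real.logb 2 D with hL
  have hL0 : 0 < L := by linarith
  have hτ : 0 < 200 * L ^ 2 := by positivity
  have hp2 : (2 : ℝ) ≤ T.card := by exact_mod_cast hT2
  have hdeg' : ∀ v ∈ T, (T.filter fun w => G.Adj v w).card ≤ D := fun v hv => (hdeg v hv).le
  obtain ⟨v₀, hv₀C, hv₀B⟩ := hne
  -- a second vertex outside `B`
  obtain ⟨u₀, hu₀, huv₀⟩ : ∃ u ∈ T \ B, u ≠ v₀ := by
    have h1 : 1 < (T \ B).card := by
      have h2 : T.card ≤ (T \ B).card + B.card := by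
        have h3 := Finset.card_le_card (show T ⊆ (T \ B) ∪ B from by
          intro x hx
          rw [mem_union, mem_sdiff]
          by_cases h : x ∈ B
          · exact Or.inr h
          · exact Or.inl ⟨hx, h⟩)
        exact h3.trans (card_union_le _ _)
      have h3 : (T.card : ℝ) ≤ ((T \ B).card : ℝ) + B.card := by exact_mod_cast h2
      have h4 : (B.card : ℝ) ≤ T.card / 100 := by
        refine hB.trans ?_
        apply div_le_div_of_nonneg_left (by linarith) (by norm_num)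
        linarith
      have h5 : (1 : ℝ) < ((T \ B).card : ℝ) := by linarith
      exact_mod_cast h5
    exact Finset.exists_mem_ne h1 v₀
  rw [mem_sdiff] at hu₀
  have hbig := hsep v₀ hv₀C hv₀B u₀ hu₀.1 hu₀.2 huv₀
  have hnp : 200 * L ^ 2 ≤ (T.card : ℝ) :=
    hbig.trans (by exact_mod_cast card_le_card (inter_subset_right (s₁ := sep G v₀ u₀) (s₂ := T)))
  have hnD : 100 * L ^ 2 ≤ (D : ℝ) := by
    have h3 : (sep G v₀ u₀ ∩ T).card ≤ (T.filter fun w => G.Adj v₀ w).card +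
        (T.filter fun w => G.Adj u₀ w).card := by
      refine (card_le_card ?_).trans (card_union_le _ _)
      intro w hw
      rw [mem_inter, sep, mem_filter] at hw
      rw [mem_union, mem_filter, mem_filter]
      by_cases h : G.Adj v₀ w
      · exact Or.inl ⟨hw.2, h⟩
      · right
        refine ⟨hw.2, ?_⟩
        by_contra h'
        exact hw.1.2.2.2 ⟨fun h2 => absurd h2.symm h, fun h2 => absurd h2.symm h'⟩
    have h4 : (sep G v₀ u₀ ∩ T).card ≤ 2 * D := by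
      have h5 := hdeg' v₀ (hCT hv₀C)
      have h6 := hdeg' u₀ hu₀.1
      omega
    have h5 : ((sep G v₀ u₀ ∩ T).card : ℝ) ≤ 2 * D := by exact_mod_cast h4
    linarith
  obtain ⟨s, hs⟩ := hNTOP T.card T.card D hD hnD hnp le_rfl
  obtain ⟨hconW, hiso⟩ := hCONT V G T B hT hcon hT2
  obtain ⟨X₁, hX₁T, hX₁, hX₁c⟩ := hRNV V G T B C D s (200 * L ^ 2) hτ hCT hdeg' hiso hsep hnp
    (by omega)
  have hX₁c' : (X₁.card : ℝ) ≤ T.card / (75 * L) := by
    rw [← hL] at hs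
    linarith
  -- the vertices of `T` without neighbours in `B ∪ C`
  set U : Finset V := T.filter fun v => v ∉ B ∪ C ∧ ∀ w ∈ B ∪ C, ¬ G.Adj v w with hU
  have hUc : U.card ≤ 1 := by
    rw [card_le_one]
    intro u hu v hv
    by_contra huv
    rw [hU, mem_filter] at hu hv
    obtain ⟨w, hw, h⟩ := hloc u hu.1 hu.2.1 v hv.1 hv.2.1 huv
    exact h ⟨fun h1 => absurd h1.symm (hu.2.2 w hw), fun h1 => absurd h1.symm (hv.2.2 w hw)⟩
  set D₁ : Finset V := insert a (B ∪ X₁ ∪ U) with hD₁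
  have hD₁c : D₁.card ≤ B.card + X₁.card + 2 := by
    have h1 : D₁.card ≤ (B ∪ X₁ ∪ U).card + 1 := card_insert_le a _
    have h2 := card_union_le (B ∪ X₁) U
    have h3 := card_union_le B X₁
    omega
  have hBD : B ⊆ D₁ := fun w hw =>
    mem_insert_of_mem (mem_union_left _ (mem_union_left _ hw))
  have hXD : X₁ ⊆ D₁ := fun w hw =>
    mem_insert_of_mem (mem_union_left _ (mem_union_right _ hw))
  have hDW : D₁ ⊆ T ∪ B := by
    intro w hw
    rw [hD₁, mem_insert, mem_union, mem_union] at hw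
    rw [mem_union]
    rcases hw with rfl | (h | h) | h
    · exact Or.inl haT
    · exact Or.inr h
    · exact Or.inl (hX₁T h)
    · exact Or.inl (mem_filter.mp h).1
  have hdom : ∀ v ∈ T ∪ B, v ∈ D₁ ∨ (∃ w ∈ D₁, G.Adj v w) ∨
      ∃ w ∈ D₁, ∃ z ∈ T ∪ B, G.Adj v z ∧ G.Adj z w := by
    intro v hv
    by_cases hvB : v ∈ B
    · exact Or.inl (hBD hvB)
    have hvT : v ∈ T := (mem_union.mp hv).resolve_right hvB
    by_cases hvC : v ∈ C
    · obtain ⟨w, hw, h⟩ := (hX₁ v hvC hvB).1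
      exact Or.inr (Or.inl ⟨w, hXD hw, h⟩)
    have hvBC : v ∉ B ∪ C := by
      rw [mem_union, not_or]; exact ⟨hvB, hvC⟩
    by_cases h2 : ∀ w ∈ B ∪ C, ¬ G.Adj v w
    · exact Or.inl (mem_insert_of_mem (mem_union_right _ (mem_filter.mpr ⟨hvT, hvBC, h2⟩)))
    · push Not at h2
      obtain ⟨w, hw, h⟩ := h2
      by_cases hwB : w ∈ B
      · exact Or.inr (Or.inl ⟨w, hBD hwB, h⟩)
      have hwC : w ∈ C := (mem_union.mp hw).resolve_left hwB
      obtain ⟨w', hw', h'⟩ := (hX₁ w hwC hwB).1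
      exact Or.inr (Or.inr ⟨w', hXD hw', w, mem_union_left _ (hCT hwC), h, h'⟩)
  obtain ⟨X₀, hDX, hXW, hXcon, hXc⟩ := hCDST V G (T ∪ B) D₁ hconW ⟨a, mem_insert_self _ _⟩ hDW hdom
  have ha : a ∈ X₀ := hDX (mem_insert_self _ _)
  have hBX : B ⊆ X₀ := hBD.trans hDX
  have hX₁X₀ : X₁ ⊆ X₀ := hXD.trans hDX
  have hc1 : 1 ≤ X₀.card := card_pos.mpr ⟨a, ha⟩
  have hc3 : (X₀.card : ℝ) ≤ 7 * T.card / (60 * L) + 6 := by
    have h1 : X₀.card + 4 ≤ 5 * B.card + 5 * X₁.card + 10 := by omega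
    have h2 : (X₀.card : ℝ) + 4 ≤ 5 * B.card + 5 * X₁.card + 10 := by exact_mod_cast h1
    have hl0 : L ≠ 0 := hL0.ne'
    have h3 : (5 : ℝ) * (T.card / (100 * L) + T.card / (75 * L)) = 7 * T.card / (60 * L) := by
      field_simp
      norm_num
    linarith
  have hCl : ClT G T X₀ := by
    intro u hu t ht hut
    by_cases huB : u ∈ B
    · exact hBX (hBt u huB t hut)
    · have huT : u ∈ T := (mem_union.mp (hXW hu)).resolve_right huB
      rw [← hT.2 u huT t ht hut]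
      exact hu
  obtain ⟨P, hPC, hPc, hPl⟩ := hBONT V G T B C X₀ hCT hBX hloc
  -- representatives
  have hrep : ∀ u, u ∉ X₀ → ∃ t ∈ T, Tw G u t ∧ t ∉ B := by
    intro u hu
    obtain ⟨t, ht, hut⟩ := hT.1 u
    exact ⟨t, ht, hut, fun h => hu (hBX (hBt t h u hut.symm))⟩
  have huni : ∀ Y : Finset V, X₀ ⊆ Y → ∀ x ∈ C, x ∉ B → UniT G Y x := by
    intro Y hY x hx hxB u hu hux
    obtain ⟨t, ht, hut, htB⟩ := hrep u (fun h => hu (hY h))
    have htx : t ≠ x := fun h => hux (h ▸ hut)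
    obtain ⟨w, hw, hwt, hwx, hadj⟩ := (hX₁ x hx hxB).2 t ht htB htx
    have hwY : w ∈ Y := hY (hX₁X₀ hw)
    have h1 : G.Adj w u ↔ G.Adj w t := hut w (fun h => hu (h ▸ hwY)) hwt
    exact ⟨w, hwY, fun h => hadj (h1.symm.trans h)⟩
  have hreach : ∀ P' : Finset V, P' ⊆ P → ReachT G T X₀ (X₀ ∪ P') := by
    intro P'
    induction P' using Finset.induction_on with
    | empty => intro _; rw [union_empty]; exact ReachT.base
    | @insert x P' hx ih =>
      intro hsub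
      have hxP : x ∈ C \ X₀ := hPC (hsub (mem_insert_self _ _))
      rw [mem_sdiff] at hxP
      rw [union_insert]
      refine ReachT.step (ih fun z hz => hsub (mem_insert_of_mem hz)) ?_ (hCT hxP.1)
        (huni _ subset_union_left x hxP.1 (fun h => hxP.2 (hBX h)))
      rw [mem_union, not_or]
      exact ⟨hxP.2, hx⟩
  set X := X₀ ∪ P with hXdef
  have hRe : ReachT G T X₀ X := hreach P (Subset.refl _)
  have hX₀X : X₀ ⊆ X := subset_union_left
  have hLo : LocT G X := by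
    intro u hu v hv huv
    obtain ⟨t, ht, hut, htB⟩ := hrep u (fun h => hu (hX₀X h))
    obtain ⟨r, hr, hvr, hrB⟩ := hrep v (fun h => hv (hX₀X h))
    have htr : t ≠ r := fun h => huv (hut.trans (h ▸ hvr.symm))
    have hfin : ∀ w ∈ X, w ≠ t → w ≠ r → ¬(G.Adj w t ↔ G.Adj w r) →
        ∃ w ∈ X, ¬(G.Adj w u ↔ G.Adj w v) := by
      intro w hw hwt hwr hadj
      have h1 : G.Adj w u ↔ G.Adj w t := hut w (fun h => hu (h ▸ hw)) hwt
      have h2 : G.Adj w v ↔ G.Adj w r := hvr w (fun h => hv (h ▸ hw)) hwr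
      exact ⟨w, hw, fun h => hadj (h1.symm.trans (h.trans h2))⟩
    by_cases htC : t ∈ C
    · obtain ⟨w, hw, hwr, hwt, hadj⟩ := (hX₁ t htC htB).2 r hr hrB (Ne.symm htr)
      exact hfin w (hX₀X (hX₁X₀ hw)) hwt hwr (fun h => hadj h.symm)
    by_cases hrC : r ∈ C
    · obtain ⟨w, hw, hwt, hwr, hadj⟩ := (hX₁ r hrC hrB).2 t ht htB htr
      exact hfin w (hX₀X (hX₁X₀ hw)) hwt hwr hadj
    have htBC : t ∉ B ∪ C := by rw [mem_union, not_or]; exact ⟨htB, htC⟩
    have hrBC : r ∉ B ∪ C := by rw [mem_union, not_or]; exact ⟨hrB, hrC⟩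
    obtain ⟨w, hw, hwBC, hadj⟩ := hPl t ht htBC r hr hrBC htr
    exact hfin w hw (fun h => htBC (h ▸ hwBC)) (fun h => hrBC (h ▸ hwBC)) hadj
  -- the count
  by_contra hno
  set m := (T \ X).card with hm
  have hmp : m ≤ T.card := card_le_card sdiff_subset
  have hcB : T.card ≤ 2 * m + 2 * X₀.card := by
    have h1 : T.card ≤ (T \ X).card + X.card := by
      have h3 := Finset.card_le_card (show T ⊆ (T \ X) ∪ X from by
        intro x hx
        rw [mem_union, mem_sdiff]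
        by_cases h : x ∈ X
        · exact Or.inr h
        · exact Or.inl ⟨hx, h⟩)
      exact h3.trans (card_union_le _ _)
    have h2 : X.card ≤ X₀.card + P.card := card_union_le _ _
    omega
  obtain ⟨R, hRc, hR⟩ := hREPT V G D a b T X₀ hT ha hXcon hdeg
  have hfin := hNFT T.card D X₀.card m hD hnD hnp hc1 hc3 hmp hcB
  have h5m : (5 : ℝ) ^ m ≤ (m + 1) * (2 * (D : ℝ) ^ (X₀.card - 1) * 4 ^ m) := by
    have h2 : (5 : ℝ) ^ m = ∑ k ∈ range (m + 1), 1 ^ k * 4 ^ (m - k) * (m.choose k : ℝ) := by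
      have h := add_pow (1 : ℝ) 4 m
      rw [← h]; norm_num
    rw [h2]
    have h3 : ∀ k ∈ range (m + 1), (1 : ℝ) ^ k * 4 ^ (m - k) * (m.choose k : ℝ) ≤
        2 * (D : ℝ) ^ (X₀.card - 1) * 4 ^ m := by
      intro k hk
      rw [mem_range] at hk
      have hk' : k ≤ m := by omega
      have h4 := hMAINT V G a b T X₀ X k hT hCl ha hRe hLo hH hno hk' R hR
      have h5 : ((m.choose k : ℕ) : ℝ) ≤ 4 ^ k * (2 * (D : ℝ) ^ (X₀.card - 1)) := by
        have h6 : m.choose k ≤ 4 ^ k * (2 * D ^ (X₀.card - 1)) :=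
          h4.trans (Nat.mul_le_mul_left _ hRc)
        exact_mod_cast h6
      calc (1 : ℝ) ^ k * 4 ^ (m - k) * (m.choose k : ℝ)
          ≤ 1 ^ k * 4 ^ (m - k) * (4 ^ k * (2 * (D : ℝ) ^ (X₀.card - 1))) :=
            mul_le_mul_of_nonneg_left h5 (by positivity)
        _ = 2 * (D : ℝ) ^ (X₀.card - 1) * (4 ^ (m - k) * 4 ^ k) := by rw [one_pow]; ring
        _ = 2 * (D : ℝ) ^ (X₀.card - 1) * 4 ^ m := by rw [← pow_add, Nat.sub_add_cancel hk']
    refine (sum_le_card_nsmul _ _ _ h3).trans ?_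
    rw [card_range, nsmul_eq_mul]
    push_cast
    exact le_rfl
  have h9 : (m + 1 : ℝ) * (2 * (D : ℝ) ^ (X₀.card - 1) * 4 ^ m) =
      2 * (D : ℝ) ^ (X₀.card - 1) * (m + 1) * 4 ^ m := by ring
  rw [h9] at h5m
  exact absurd hfin (not_lt.mpr h5m)

/-- the theorem on twins -/
theorem finT (hMAINT : SpecMAINT) (hREPT : SpecREPT) (hRNV : SpecRNV) (hBONT : SpecBONT)
    (hNFT : SpecNFT) (hNTOP : SpecNTOP) (hCONT : SpecCONT) (hCDST : SpecCDST) (hH2T : SpecH2T)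
    (hDIS : SpecDIS)
    {V : Type} [Fintype V] {G : SimpleGraph V} {a b : V} (hH : H2 G a b)
    (T B C : Finset V) (D : ℕ) (hT : Trv G T) (hCT : C ⊆ T)
    (hBt : ∀ u ∈ B, ∀ v, Tw G u v → v ∈ B) (hD : 2 ≤ D)
    (hdeg : ∀ v ∈ T, (T.filter fun w => G.Adj v w).card < D)
    (hB : (B.card : ℝ) ≤ T.card / (100 * Real.logb 2 D)) (hne : ∃ v ∈ C, v ∉ B)
    (hsep : ∀ v ∈ C, v ∉ B → ∀ u ∈ T, u ∉ B → u ≠ v →
      200 * Real.logb 2 D ^ 2 ≤ ((sep G v u ∩ T).card : ℝ))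
    (hloc : ∀ u ∈ T, u ∉ B ∪ C → ∀ v ∈ T, v ∉ B ∪ C → u ≠ v →
      ∃ w ∈ B ∪ C, ¬(G.Adj w u ↔ G.Adj w v)) :
    ∃ φ : G ≃g G, φ a = b := by
  by_cases hcon : G.Connected
  swap
  · exact hDIS V G a b hcon hH
  by_cases hab : Tw G a b
  · exact ⟨twSwap hab, twSwap_left hab⟩
  obtain ⟨a', ha'T, haa'⟩ := hT.1 a
  have hT2 : 2 ≤ T.card := by
    obtain ⟨b', hb'T, hbb'⟩ := hT.1 b
    have h1 : a' ≠ b' := fun h => hab (haa'.trans (h ▸ hbb'.symm))
    exact Finset.one_lt_card.mpr ⟨a', ha'T, b', hb'T, h1⟩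
  obtain ⟨φ, hφ⟩ := finT' hMAINT hREPT hRNV hBONT hNFT hNTOP hCONT hCDST
    (hH2T V G a a' b haa' hH) hcon T B C D hT ha'T hT2 hCT hBt hD hdeg hB hne hsep hloc
  refine ⟨(twSwap haa').trans φ, ?_⟩
  show φ (twSwap haa' a) = b
  rw [twSwap_left haa', hφ]

end Pool.Agent.Lib.MP50ecf8.LOC
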