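import Pool.Agent.Lib.MP_50ecf8_co.LOC.Spec4
import Pool.Agent.Lib.MP_50ecf8_co.LOC.FINB

set_option autoImplicit false

open Finset
open scoped Classical

namespace Pool.Agent.Lib.MP50ecf8.LOC

/-- the growth condition -/
def Growth {V : Type} [Fintype V] (G : SimpleGraph V) (B C : Finset V) (L : ℝ) : Prop :=
  ∀ v ∈ C, v ∉ B → ∀ r : ℕ, (r : ℝ) < 200 * L ^ 2 →
    (((univ.filter fun u => u ∉ B ∧ u ≠ v ∧ ((sep G v u).card : ℝ) < 200 * L ^ 2 ∧
      (sC G C v u).card ≤ r).card : ℕ) : ℝ) ≤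
      (2 : ℝ) ^ ((r : ℝ) ^ ((1 : ℝ) / 3) / 20) - 1

lemma sC_le_sep {V : Type} [Fintype V] (G : SimpleGraph V) (C : Finset V) (u v : V) :
    (sC G C u v).card ≤ (sep G u v).card := card_le_card inter_subset_left

lemma sC_le {V : Type} [Fintype V] (G : SimpleGraph V) (C : Finset V) (u v : V) :
    (sC G C u v).card ≤ C.card := card_le_card inter_subset_right

lemma fu_third (i : ℕ) : ((8000 * 8 ^ i : ℕ) : ℝ) ^ ((1 : ℝ) / 3) = 20 * 2 ^ i := by
  have h1 : ((8000 * 8 ^ i : ℕ) : ℝ) = (20 * 2 ^ i : ℝ) ^ 3 := by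
    push_cast
    rw [mul_pow, ← pow_mul, mul_comm i 3, pow_mul]
    norm_num
  rw [h1, one_div]
  have h2 := Real.pow_rpow_inv_natCast (x := (20 * 2 ^ i : ℝ)) (n := 3) (by positivity) (by norm_num)
  simpa using h2

lemma fu_gb {V : Type} [Fintype V] {G : SimpleGraph V} {B C : Finset V} {L : ℝ}
    (hGr : Growth G B C L) {v : V} (hv : v ∈ C) (hvB : v ∉ B) {θ : ℝ} (h0 : 0 < θ)
    (hθ : θ ≤ 200 * L ^ 2) :
    (((univ.filter fun u => u ∉ B ∧ u ≠ v ∧ ((sep G v u).card : ℝ) < 200 * L ^ 2 ∧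
      ((sC G C v u).card : ℝ) < θ).card : ℕ) : ℝ) ≤
      (2 : ℝ) ^ (θ ^ ((1 : ℝ) / 3) / 20) - 1 := by
  have hc : 1 ≤ ⌈θ⌉₊ := Nat.ceil_pos.mpr h0
  have hr : ((⌈θ⌉₊ - 1 : ℕ) : ℝ) < θ := Nat.lt_ceil.mp (by omega)
  have h1 := hGr v hv hvB (⌈θ⌉₊ - 1) (lt_of_lt_of_le hr hθ)
  have h2 : (univ.filter fun u => u ∉ B ∧ u ≠ v ∧ ((sep G v u).card : ℝ) < 200 * L ^ 2 ∧
      ((sC G C v u).card : ℝ) < θ).card ≤
      (univ.filter fun u => u ∉ B ∧ u ≠ v ∧ ((sep G v u).card : ℝ) < 200 * L ^ 2 ∧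
      (sC G C v u).card ≤ ⌈θ⌉₊ - 1).card := by
    apply card_le_card
    intro u hu
    rw [mem_filter] at hu ⊢
    have h3 : (sC G C v u).card < ⌈θ⌉₊ := Nat.lt_ceil.mpr hu.2.2.2.2
    exact ⟨mem_univ _, hu.2.1, hu.2.2.1, hu.2.2.2.1, by omega⟩
  have h2' : (((univ.filter fun u => u ∉ B ∧ u ≠ v ∧ ((sep G v u).card : ℝ) < 200 * L ^ 2 ∧
      ((sC G C v u).card : ℝ) < θ).card : ℕ) : ℝ) ≤
      (((univ.filter fun u => u ∉ B ∧ u ≠ v ∧ ((sep G v u).card : ℝ) < 200 * L ^ 2 ∧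
      (sC G C v u).card ≤ ⌈θ⌉₊ - 1).card : ℕ) : ℝ) := by
    exact_mod_cast h2
  refine (h2'.trans h1).trans ?_
  have h4 : ((⌈θ⌉₊ - 1 : ℕ) : ℝ) ^ ((1 : ℝ) / 3) ≤ θ ^ ((1 : ℝ) / 3) :=
    Real.rpow_le_rpow (Nat.cast_nonneg _) hr.le (by norm_num)
  have h5 : (2 : ℝ) ^ (((⌈θ⌉₊ - 1 : ℕ) : ℝ) ^ ((1 : ℝ) / 3) / 20) ≤
      (2 : ℝ) ^ (θ ^ ((1 : ℝ) / 3) / 20) :=
    Real.rpow_le_rpow_of_exponent_le (by norm_num) (by linarith)
  linarith

/-- class sizes -/
lemma fu_tc {V : Type} [Fintype V] {G : SimpleGraph V} {B C Y : Finset V} {L : ℝ}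
    (hGr : Growth G B C L) (hBY : B ⊆ Y) {θ : ℝ} (h0 : 0 < θ) (hθ : θ ≤ 200 * L ^ 2)
    {v : V} (hv : v ∈ C) (hvY : v ∉ Y)
    (hP : ∀ u, u ∉ Y → u ≠ v → (∀ w ∈ Y, (G.Adj w u ↔ G.Adj w v)) →
      ((sep G v u).card : ℝ) < 200 * L ^ 2 ∧ ((sC G C v u).card : ℝ) < θ) :
    ((tc G Y v).card : ℝ) ≤ (2 : ℝ) ^ (θ ^ ((1 : ℝ) / 3) / 20) := by
  have h1 := fu_gb hGr hv (fun h => hvY (hBY h)) h0 hθ
  have h2 : tc G Y v ⊆ insert v
      (univ.filter fun u => u ∉ B ∧ u ≠ v ∧ ((sep G v u).card : ℝ) < 200 * L ^ 2 ∧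
        ((sC G C v u).card : ℝ) < θ) := by
    intro u hu
    rw [tc, mem_filter] at hu
    by_cases huv : u = v
    · rw [huv]; exact mem_insert_self _ _
    · apply mem_insert_of_mem
      rw [mem_filter]
      exact ⟨mem_univ _, fun h => hu.2.1 (hBY h), huv, hP u hu.2.1 huv hu.2.2⟩
  have h3 := (card_le_card h2).trans (card_insert_le _ _)
  have h4 : ((tc G Y v).card : ℝ) ≤
      (((univ.filter fun u => u ∉ B ∧ u ≠ v ∧ ((sep G v u).card : ℝ) < 200 * L ^ 2 ∧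
        ((sC G C v u).card : ℝ) < θ).card : ℕ) : ℝ) + 1 := by
    exact_mod_cast h3
  linarith

/-- the exponent of the lower stages -/
noncomputable def Sx (i : ℕ) : ℝ :=
  (4 / 2 ^ i + (12 + 8 / 9 + 8 * i / 3) / 4 ^ i) / 384

lemma Sx_succ (i : ℕ) : Sx i = Sx (i + 1) + (2 ^ (i + 1) + 9 + 2 * i) / (384 * 4 ^ i) := by
  unfold Sx
  have h2 : (2 : ℝ) ^ i ≠ 0 := by positivity
  have h4 : (4 : ℝ) ^ i = 2 ^ i * 2 ^ i := by
    rw [← mul_pow]; norm_num
  rw [pow_succ, pow_succ, h4]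
  push_cast
  field_simp
  ring

lemma Sx_nonneg (i : ℕ) : 0 ≤ Sx i := by
  unfold Sx; positivity

lemma Sx_succ_le (i : ℕ) : Sx (i + 1) ≤ Sx i := by
  rw [Sx_succ i]
  have : (0 : ℝ) ≤ (2 ^ (i + 1) + 9 + 2 * i) / (384 * 4 ^ i) := by positivity
  linarith

/-- the stages -/
lemma fu_stages (hEXT : SpecEXT) (hSTG : SpecSTG) (hNST : SpecNST) (hNPOW : SpecNPOW)
    {V : Type} [Fintype V] {G : SimpleGraph V} {a : V} {B C X₀ : Finset V} {L : ℝ}
    (hGr : Growth G B C L) (hBX : B ⊆ X₀) (ha : a ∈ X₀) (hL : 0 < L)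
    (hP₀ : ∀ v ∈ C, v ∉ X₀ → ∀ u, u ∉ X₀ → u ≠ v → (∀ w ∈ X₀, (G.Adj w u ↔ G.Adj w v)) →
      ((sep G v u).card : ℝ) < 200 * L ^ 2) (i : ℕ) :
    ∃ Y : Finset V, X₀ ⊆ Y ∧
      (∀ v ∈ C, v ∉ Y → ∀ u, u ∉ Y → u ≠ v → (∀ w ∈ Y, (G.Adj w u ↔ G.Adj w v)) →
        ((sC G C v u).card : ℝ) < ((8000 * 8 ^ i : ℕ) : ℝ)) ∧
      (Y.card : ℝ) ≤ X₀.card + Fintype.card V / (288 * 4 ^ i) ∧
      ∀ r k, k ≤ Fintype.card V → ((embk G a r Y k).card : ℝ) ≤
        (embk G a r X₀ k).card * (2 : ℝ) ^ ((Fintype.card V : ℝ) * Sx i) := by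
  have hτ : 0 < 200 * L ^ 2 := by positivity
  have hP₀' : ∀ v ∈ C, v ∉ X₀ → ∀ u, u ∉ X₀ → u ≠ v → (∀ w ∈ X₀, (G.Adj w u ↔ G.Adj w v)) →
      ((sC G C v u).card : ℝ) < 200 * L ^ 2 := fun v hv hvX u hu huv h =>
    lt_of_le_of_lt (by exact_mod_cast sC_le_sep G C v u) (hP₀ v hv hvX u hu huv h)
  have htriv : ∀ i : ℕ, 200 * L ^ 2 ≤ ((8000 * 8 ^ i : ℕ) : ℝ) →
    ∃ Y : Finset V, X₀ ⊆ Y ∧
      (∀ v ∈ C, v ∉ Y → ∀ u, u ∉ Y → u ≠ v → (∀ w ∈ Y, (G.Adj w u ↔ G.Adj w v)) →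
        ((sC G C v u).card : ℝ) < ((8000 * 8 ^ i : ℕ) : ℝ)) ∧
      (Y.card : ℝ) ≤ X₀.card + Fintype.card V / (288 * 4 ^ i) ∧
      ∀ r k, k ≤ Fintype.card V → ((embk G a r Y k).card : ℝ) ≤
        (embk G a r X₀ k).card * (2 : ℝ) ^ ((Fintype.card V : ℝ) * Sx i) := by
    intro i hi
    refine ⟨X₀, Subset.refl _, fun v hv hvX u hu huv h => lt_of_lt_of_le (hP₀' v hv hvX u hu huv h) hi,
      ?_, ?_⟩
    · have : (0 : ℝ) ≤ Fintype.card V / (288 * 4 ^ i) := by positivity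
      linarith
    · intro r k _
      have h1 : (1 : ℝ) ≤ (2 : ℝ) ^ ((Fintype.card V : ℝ) * Sx i) :=
        Real.one_le_rpow (by norm_num) (mul_nonneg (Nat.cast_nonneg _) (Sx_nonneg i))
      exact le_mul_of_one_le_right (Nat.cast_nonneg _) h1
  -- descending induction
  have key : ∀ d i : ℕ, 200 * L ^ 2 ≤ ((8000 * 8 ^ (i + d) : ℕ) : ℝ) →
    ∃ Y : Finset V, X₀ ⊆ Y ∧
      (∀ v ∈ C, v ∉ Y → ∀ u, u ∉ Y → u ≠ v → (∀ w ∈ Y, (G.Adj w u ↔ G.Adj w v)) →
        ((sC G C v u).card : ℝ) < ((8000 * 8 ^ i : ℕ) : ℝ)) ∧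
      (Y.card : ℝ) ≤ X₀.card + Fintype.card V / (288 * 4 ^ i) ∧
      ∀ r k, k ≤ Fintype.card V → ((embk G a r Y k).card : ℝ) ≤
        (embk G a r X₀ k).card * (2 : ℝ) ^ ((Fintype.card V : ℝ) * Sx i) := by
    intro d
    induction d with
    | zero => intro i hi; exact htriv i (by simpa using hi)
    | succ d ih =>
      intro i hi
      by_cases hti : 200 * L ^ 2 ≤ ((8000 * 8 ^ i : ℕ) : ℝ)
      · exact htriv i hti
      rw [not_le] at hti
      obtain ⟨Y, hX₀Y, hPY, hYc, hYe⟩ := ih (i + 1) (by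
        have h : i + 1 + d = i + (d + 1) := by ring
        rw [h]; exact hi)
      have hBY : B ⊆ Y := hBX.trans hX₀Y
      -- no stage is needed if the core is small
      by_cases hqn : C.card < 8000 * 8 ^ i
      · refine ⟨Y, hX₀Y, fun v _ _ u _ _ _ => ?_, hYc.trans ?_, fun r k hk =>
          (hYe r k hk).trans (mul_le_mul_of_nonneg_left ?_ (Nat.cast_nonneg _))⟩
        · exact_mod_cast lt_of_le_of_lt (sC_le G C v u) hqn
        · have h1 : (Fintype.card V : ℝ) / (288 * 4 ^ (i + 1)) ≤ Fintype.card V / (288 * 4 ^ i) := by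
            apply div_le_div_of_nonneg_left (Nat.cast_nonneg _) (by positivity)
            have h2 : (4 : ℝ) ^ i ≤ 4 ^ (i + 1) := pow_le_pow_right₀ (by norm_num) (by omega)
            linarith
          linarith
        · exact Real.rpow_le_rpow_of_exponent_le (by norm_num)
            (mul_le_mul_of_nonneg_left (Sx_succ_le i) (Nat.cast_nonneg _))
      rw [not_lt] at hqn
      -- class sizes
      have hcl : ∀ v ∈ C, v ∉ Y → (tc G Y v).card ≤ 2 ^ 2 ^ (i + 1) := by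
        intro v hv hvY
        have hθ0 : 0 < min (((8000 * 8 ^ (i + 1) : ℕ) : ℝ)) (200 * L ^ 2) :=
          lt_min (by positivity) hτ
        have h1 := fu_tc hGr hBY hθ0 (min_le_right _ _) hv hvY (fun u hu huv h => by
          have h2 := hP₀ v hv (fun h' => hvY (hX₀Y h')) u (fun h' => hu (hX₀Y h')) huv
            (fun w hw => h w (hX₀Y hw))
          have h3 := hP₀' v hv (fun h' => hvY (hX₀Y h')) u (fun h' => hu (hX₀Y h')) huv
            (fun w hw => h w (hX₀Y hw))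
          exact ⟨h2, lt_min (hPY v hv hvY u hu huv h) h3⟩)
        have h2 : (min (((8000 * 8 ^ (i + 1) : ℕ) : ℝ)) (200 * L ^ 2)) ^ ((1 : ℝ) / 3) ≤
            20 * 2 ^ (i + 1) := by
          rw [← fu_third (i + 1)]
          exact Real.rpow_le_rpow hθ0.le (min_le_left _ _) (by norm_num)
        have h3 : (2 : ℝ) ^ ((min (((8000 * 8 ^ (i + 1) : ℕ) : ℝ)) (200 * L ^ 2)) ^ ((1 : ℝ) / 3) / 20)
            ≤ (2 : ℝ) ^ (((2 ^ (i + 1) : ℕ) : ℝ)) := by
          apply Real.rpow_le_rpow_of_exponent_le (by norm_num)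
          have h2' : (((2 ^ (i + 1) : ℕ) : ℝ)) = 2 ^ (i + 1) := by
            rw [Nat.cast_pow, Nat.cast_ofNat]
          rw [h2']
          linarith
        rw [Real.rpow_natCast] at h3
        have h4 := h1.trans h3
        exact_mod_cast h4
      have hCpos : 0 < C.card := lt_of_lt_of_le (by positivity) hqn
      obtain ⟨s, hs⟩ := hNST C.card i hqn
      obtain ⟨Z, hYZ, hZC, hZc, hPZ⟩ := hSTG V G Y C (2 ^ 2 ^ (i + 1)) s
        (((8000 * 8 ^ i : ℕ) : ℝ)) (by positivity) (by exact_mod_cast hqn) hCpos hcl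
      have hCp : (C.card : ℝ) ≤ Fintype.card V := by exact_mod_cast card_le_univ C
      have hRle : (C.card : ℝ) / (384 * 4 ^ i) ≤ Fintype.card V / (384 * 4 ^ i) :=
        div_le_div_of_nonneg_right hCp (by positivity)
      have hp0 : (0 : ℝ) < Fintype.card V :=
        lt_of_lt_of_le (by exact_mod_cast hCpos) hCp
      have hZY : (((Z \ Y).card : ℕ) : ℝ) ≤ Fintype.card V / (384 * 4 ^ i) := by
        rw [card_sdiff_of_subset hYZ, Nat.cast_sub (card_le_card hYZ)]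
        linarith
      refine ⟨Z, hX₀Y.trans hYZ, hPZ, ?_, ?_⟩
      · have h1 : (Fintype.card V : ℝ) / (288 * 4 ^ (i + 1)) + Fintype.card V / (384 * 4 ^ i) =
            Fintype.card V / (288 * 4 ^ i) := by
          rw [pow_succ]
          field_simp
          norm_num
        linarith
      · intro r k hk
        have h1 := hEXT V G a r Y Z (2 ^ 2 ^ (i + 1)) k (Fintype.card V / (384 * 4 ^ i)) hYZ
          (hX₀Y ha) (Nat.one_le_two_pow) (fun z hz hzY => hcl z (hZC (mem_sdiff.mpr ⟨hz, hzY⟩)) hzY)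
          hZY (by positivity) hk
        have h2 := hNPOW (Fintype.card V) i (by exact_mod_cast hp0)
        have h3 := hYe r k hk
        have h4 : (2 : ℝ) ^ ((Fintype.card V : ℝ) * Sx i) =
            (2 : ℝ) ^ ((Fintype.card V : ℝ) * Sx (i + 1)) *
            (2 : ℝ) ^ ((Fintype.card V : ℝ) * (2 ^ (i + 1) + 9 + 2 * i) / (384 * 4 ^ i)) := by
          rw [← Real.rpow_add (by norm_num), Sx_succ i]
          congr 1
          ring
        calc ((embk G a r Z k).card : ℝ) ≤ _ := h1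
          _ ≤ (embk G a r Y k).card *
              (2 : ℝ) ^ ((Fintype.card V : ℝ) * (2 ^ (i + 1) + 9 + 2 * i) / (384 * 4 ^ i)) :=
              mul_le_mul_of_nonneg_left h2 (Nat.cast_nonneg _)
          _ ≤ ((embk G a r X₀ k).card * (2 : ℝ) ^ ((Fintype.card V : ℝ) * Sx (i + 1))) *
              (2 : ℝ) ^ ((Fintype.card V : ℝ) * (2 ^ (i + 1) + 9 + 2 * i) / (384 * 4 ^ i)) :=
              mul_le_mul_of_nonneg_right h3 (by positivity)
          _ = _ := by rw [h4]; ring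
  obtain ⟨d, hd⟩ : ∃ d : ℕ, 200 * L ^ 2 ≤ ((8000 * 8 ^ (i + d) : ℕ) : ℝ) := by
    obtain ⟨n, hn⟩ := exists_nat_ge (200 * L ^ 2)
    refine ⟨n, hn.trans ?_⟩
    have h1 : n ≤ 8000 * 8 ^ (i + n) := by
      have h2 : n < 8 ^ n := Nat.lt_pow_self (by norm_num)
      have h3 : 8 ^ n ≤ 8 ^ (i + n) := Nat.pow_le_pow_right (by norm_num) (by omega)
      omega
    exact_mod_cast h1
  exact key d i hd

/-- the case `D ≤ p` -/
theorem finU' (hMAINK : SpecMAINK) (hNBD : SpecNBD) (hCDS2 : SpecCDS2) (hDIS : SpecDIS)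
    (hBON : SpecBON) (hEXT : SpecEXT) (hSTG : SpecSTG) (hTOPR : SpecTOPR) (hNST : SpecNST)
    (hNPOW : SpecNPOW) (hNTOP : SpecNTOP) (hNLOW : SpecNLOW) (hNUM1 : SpecNUM1)
    (hNFIN : SpecNFIN)
    {V : Type} [Fintype V] {G : SimpleGraph V} {a b : V} (hH : H2 G a b) (B C : Finset V) (D : ℕ)
    (hD : 2 ≤ D) (hDp : D ≤ Fintype.card V) (hdeg : ∀ v, deg G v ≤ D)
    (hB : (B.card : ℝ) ≤ Fintype.card V / (100 * Real.logb 2 D))
    (hne : ∃ v ∈ C, v ∉ B)
    (hGr : Growth G B C (Real.logb 2 D))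
    (hloc : Locating G (B ∪ C)) :
    ∃ φ : G ≃g G, φ a = b := by
  rcases eq_or_ne a b with rfl | hab
  · exact ⟨RelIso.refl _, rfl⟩
  by_cases hcon : G.Connected
  swap
  · exact hDIS V G a b hcon hH
  have hp : 2 ≤ Fintype.card V := Fintype.one_lt_card_iff.mpr ⟨a, b, hab⟩
  have hp' : (2 : ℝ) ≤ Fintype.card V := by exact_mod_cast hp
  have hl : 1 ≤ Real.logb 2 D := fin_logb hD
  set L := Real.logb 2 D with hL
  have hL0 : 0 < L := by linarith
  have hτ : 0 < 200 * L ^ 2 := by positivity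
  obtain ⟨v₀, hv₀C, hv₀B⟩ := hne
  -- a well separated pair
  obtain ⟨u₀, hu₀B, huv₀, hbig⟩ : ∃ u, u ∉ B ∧ u ≠ v₀ ∧ 200 * L ^ 2 ≤ ((sep G v₀ u).card : ℝ) := by
    by_contra hcontra
    push Not at hcontra
    have h1 := fu_gb hGr hv₀C hv₀B hτ le_rfl
    have h2 : (univ.filter fun u => u ∉ B ∧ u ≠ v₀ ∧ ((sep G v₀ u).card : ℝ) < 200 * L ^ 2 ∧
        ((sC G C v₀ u).card : ℝ) < 200 * L ^ 2) = univ \ (insert v₀ B) := by
      ext u
      simp only [mem_filter, mem_univ, true_and, mem_sdiff, mem_insert, not_or]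
      constructor
      · rintro ⟨h1, h2, -⟩
        exact ⟨h2, h1⟩
      · rintro ⟨h1, h2⟩
        have h3 := hcontra u h2 h1
        exact ⟨h2, h1, h3, lt_of_le_of_lt (by exact_mod_cast sC_le_sep G C v₀ u) h3⟩
    rw [h2, card_sdiff_of_subset (subset_univ _), card_univ, card_insert_of_notMem hv₀B] at h1
    have h3 : B.card + 1 ≤ Fintype.card V := by
      rw [← card_insert_of_notMem hv₀B]; exact card_le_univ _
    rw [Nat.cast_sub h3] at h1
    push_cast at h1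
    have h4 := hNUM1 (Fintype.card V) D hD hDp
    rw [← hL] at h4
    have h5 : (B.card : ℝ) ≤ Fintype.card V / 100 := by
      refine hB.trans ?_
      apply div_le_div_of_nonneg_left (by linarith) (by norm_num)
      linarith
    linarith
  have hnp : 200 * L ^ 2 ≤ (Fintype.card V : ℝ) :=
    hbig.trans (by exact_mod_cast card_le_univ (sep G v₀ u₀))
  have hnD : 100 * L ^ 2 ≤ (D : ℝ) := by
    have h4 := (fin_sep_deg G v₀ u₀).trans (Nat.add_le_add (hdeg v₀) (hdeg u₀))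
    have h5 : (sep G v₀ u₀).card ≤ 2 * D := by omega
    have h6 : ((sep G v₀ u₀).card : ℝ) ≤ 2 * D := by exact_mod_cast h5
    linarith
  obtain ⟨s, hs⟩ := hNTOP (Fintype.card V) (Fintype.card V) D hD hnD hnp le_rfl
  obtain ⟨X₁, hBX₁, hX₁, hX₁c⟩ := hTOPR V G B univ D s (200 * L ^ 2) hτ.le
    (by rw [card_univ]; exact hnp) (by rw [card_univ]; omega) hdeg
  rw [card_univ] at hX₁c
  have hsCu : ∀ u v, sC G univ u v = sep G u v := fun u v => inter_univ _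
  simp only [hsCu] at hX₁
  have hX₁c' : (X₁.card : ℝ) ≤ Fintype.card V / (100 * L) + (Fintype.card V / (75 * L) - 1) := by
    rw [← hL] at hs
    linarith
  -- the core vertices of small degree
  set low : Finset V := C.filter fun v => v ∉ B ∧
    ((univ.filter fun w => G.Adj v w).card : ℝ) < 200 * L ^ 2 / 2 with hlow
  have hlowc : (low.card : ℝ) ≤ Fintype.card V / (800 * L) := by
    have h0 := hNLOW (Fintype.card V) D hD hDp hnD hnp
    rw [← hL] at h0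
    refine le_trans ?_ h0
    rcases low.eq_empty_or_nonempty with he | ⟨v₁, hv₁⟩
    · rw [he]; simp; positivity
    have hv₁' := (mem_filter.mp hv₁)
    have h1 := fu_gb hGr hv₁'.1 hv₁'.2.1 hτ le_rfl
    have h2 : low ⊆ insert v₁ (univ.filter fun u => u ∉ B ∧ u ≠ v₁ ∧
        ((sep G v₁ u).card : ℝ) < 200 * L ^ 2 ∧ ((sC G C v₁ u).card : ℝ) < 200 * L ^ 2) := by
      intro u hu
      by_cases huv : u = v₁
      · rw [huv]; exact mem_insert_self _ _
      · apply mem_insert_of_mem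
        have hu' := mem_filter.mp hu
        rw [mem_filter]
        have h3 : (sep G v₁ u).card ≤ (univ.filter fun w => G.Adj v₁ w).card +
            (univ.filter fun w => G.Adj u w).card := by
          refine (card_le_card ?_).trans (card_union_le _ _)
          intro w hw
          rw [sep, mem_filter] at hw
          rw [mem_union, mem_filter, mem_filter]
          by_cases h : G.Adj v₁ w
          · exact Or.inl ⟨mem_univ _, h⟩
          · right
            refine ⟨mem_univ _, ?_⟩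
            by_contra h'
            exact hw.2.2.2 ⟨fun h2 => absurd h2.symm h, fun h2 => absurd h2.symm h'⟩
        have h4 : ((sep G v₁ u).card : ℝ) ≤ ((univ.filter fun w => G.Adj v₁ w).card : ℝ) +
            ((univ.filter fun w => G.Adj u w).card : ℝ) := by exact_mod_cast h3
        have h5 := hv₁'.2.2
        have h6 := hu'.2.2
        have h7 : ((sep G v₁ u).card : ℝ) < 200 * L ^ 2 := by linarith
        exact ⟨mem_univ _, hu'.2.1, huv, h7,
          lt_of_le_of_lt (by exact_mod_cast sC_le_sep G C v₁ u) h7⟩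
    have h3 := (card_le_card h2).trans (card_insert_le _ _)
    have h4 : (low.card : ℝ) ≤ (((univ.filter fun u => u ∉ B ∧ u ≠ v₁ ∧
        ((sep G v₁ u).card : ℝ) < 200 * L ^ 2 ∧
        ((sC G C v₁ u).card : ℝ) < 200 * L ^ 2).card : ℕ) : ℝ) + 1 := by exact_mod_cast h3
    linarith
  -- the vertices without neighbours in `B ∪ C`
  set U : Finset V := univ.filter fun v => v ∉ B ∪ C ∧ ∀ w ∈ B ∪ C, ¬ G.Adj v w with hU
  have hUc : U.card ≤ 1 := by
    rw [card_le_one]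
    intro u hu v hv
    by_contra huv
    rw [hU, mem_filter] at hu hv
    obtain ⟨w, hw, h⟩ := hloc u hu.2.1 v hv.2.1 huv
    exact h ⟨fun h1 => absurd h1.symm (hu.2.2 w hw), fun h1 => absurd h1.symm (hv.2.2 w hw)⟩
  set D₁ : Finset V := insert a (X₁ ∪ low ∪ U) with hD₁
  have hD₁c : D₁.card ≤ X₁.card + low.card + 2 := by
    have h1 : D₁.card ≤ (X₁ ∪ low ∪ U).card + 1 := card_insert_le a _
    have h2 := card_union_le (X₁ ∪ low) U
    have h3 := card_union_le X₁ low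
    omega
  have hXD : ∀ w ∈ X₁, w ∈ D₁ := fun w hw =>
    mem_insert_of_mem (mem_union_left _ (mem_union_left _ hw))
  have hlD : ∀ w ∈ low, w ∈ D₁ := fun w hw =>
    mem_insert_of_mem (mem_union_left _ (mem_union_right _ hw))
  have hcore : ∀ v ∈ C, v ∉ X₁ → v ∉ low → 200 * L ^ 2 / 2 ≤
      ((univ.filter fun w => G.Adj v w).card : ℝ) := by
    intro v hv hvX hvl
    by_contra h
    rw [not_le] at h
    exact hvl (mem_filter.mpr ⟨hv, fun h' => hvX (hBX₁ h'), h⟩)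
  have hdom : ∀ v, v ∈ D₁ ∨ (∃ w ∈ D₁, G.Adj v w) ∨ ∃ w ∈ D₁, ∃ z, G.Adj v z ∧ G.Adj z w := by
    intro v
    by_cases h1 : v ∈ X₁
    · exact Or.inl (hXD v h1)
    by_cases h1l : v ∈ low
    · exact Or.inl (hlD v h1l)
    by_cases hvC : v ∈ C
    · obtain ⟨w, hw, h⟩ := (hX₁ v (mem_univ _) h1 (hcore v hvC h1 h1l)).1
      exact Or.inr (Or.inl ⟨w, hXD w hw, h⟩)
    have hvB : v ∉ B := fun h => h1 (hBX₁ h)
    have hvBC : v ∉ B ∪ C := by
      rw [mem_union, not_or]; exact ⟨hvB, hvC⟩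
    by_cases h2 : ∀ w ∈ B ∪ C, ¬ G.Adj v w
    · exact Or.inl (mem_insert_of_mem (mem_union_right _ (by rw [hU, mem_filter]; exact ⟨mem_univ _, hvBC, h2⟩)))
    · push Not at h2
      obtain ⟨w, hw, h⟩ := h2
      by_cases hwX : w ∈ X₁
      · exact Or.inr (Or.inl ⟨w, hXD w hwX, h⟩)
      by_cases hwl : w ∈ low
      · exact Or.inr (Or.inl ⟨w, hlD w hwl, h⟩)
      · rw [mem_union] at hw
        rcases hw with hw | hw
        · exact absurd (hBX₁ hw) hwX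
        · obtain ⟨w', hw', h'⟩ := (hX₁ w (mem_univ _) hwX (hcore w hw hwX hwl)).1
          exact Or.inr (Or.inr ⟨w', hXD w' hw', w, h, h'⟩)
  obtain ⟨X₀, hDX, hXcon, hXc⟩ := hCDS2 V G hcon D₁ ⟨a, mem_insert_self _ _⟩ hdom
  have ha : a ∈ X₀ := hDX (mem_insert_self _ _)
  have hX₁X₀ : X₁ ⊆ X₀ := fun w hw => hDX (hXD w hw)
  have hc1 : 1 ≤ X₀.card := card_pos.mpr ⟨a, ha⟩
  have hc3 : (X₀.card : ℝ) ≤ 59 * Fintype.card V / (480 * L) + 1 := by
    have h1 : X₀.card + 4 ≤ 5 * X₁.card + 5 * low.card + 10 := by omega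
    have h2 : (X₀.card : ℝ) + 4 ≤ 5 * X₁.card + 5 * low.card + 10 := by exact_mod_cast h1
    have hl0 : L ≠ 0 := hL0.ne'
    have h3 : (5 : ℝ) * (Fintype.card V / (100 * L) + Fintype.card V / (75 * L) +
        Fintype.card V / (800 * L)) = 59 * Fintype.card V / (480 * L) := by
      field_simp
      norm_num
    linarith
  have hP₀ : ∀ v ∈ C, v ∉ X₀ → ∀ u, u ∉ X₀ → u ≠ v → (∀ w ∈ X₀, (G.Adj w u ↔ G.Adj w v)) →
      ((sep G v u).card : ℝ) < 200 * L ^ 2 := by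
    intro v hv hvX u huX huv hns
    by_contra hge
    rw [not_lt] at hge
    have hvX₁ : v ∉ X₁ := fun h => hvX (hX₁X₀ h)
    have hvl : v ∉ low := fun h => hvX (hDX (hlD v h))
    obtain ⟨w, hw, h⟩ := (hX₁ v (mem_univ _) hvX₁ (hcore v hv hvX₁ hvl)).2 u
      (fun h => huX (hX₁X₀ h)) huv hge
    exact h (hns w (hX₁X₀ hw))
  obtain ⟨Xc, hX₀c, hPc, hcc, hce⟩ := fu_stages (a := a) hEXT hSTG hNST hNPOW hGr
    (hBX₁.trans hX₁X₀) ha hL0 hP₀ 0
  have hBXc : B ⊆ Xc := (hBX₁.trans hX₁X₀).trans hX₀c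
  have haXc : a ∈ Xc := hX₀c ha
  -- everything in the core is located
  have huniq : ∀ c ∈ C, c ∉ Xc → Uniq G Xc c := by
    intro v hv hvX u hu huv
    by_contra hns
    push Not at hns
    have h1 := hPc v hv hvX u hu huv hns
    have h2 := hP₀ v hv (fun h => hvX (hX₀c h)) u (fun h => hu (hX₀c h)) huv
      (fun w hw => hns w (hX₀c hw))
    have h3 := hGr v hv (fun h => hvX (hBXc h)) (sC G C v u).card
      (lt_of_le_of_lt (by exact_mod_cast sC_le_sep G C v u) h2)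
    have h4 : (1 : ℝ) ≤ (((univ.filter fun u' => u' ∉ B ∧ u' ≠ v ∧
        ((sep G v u').card : ℝ) < 200 * L ^ 2 ∧
        (sC G C v u').card ≤ (sC G C v u).card).card : ℕ) : ℝ) := by
      have h5 : 0 < (univ.filter fun u' => u' ∉ B ∧ u' ≠ v ∧
        ((sep G v u').card : ℝ) < 200 * L ^ 2 ∧
        (sC G C v u').card ≤ (sC G C v u).card).card :=
        card_pos.mpr ⟨u, mem_filter.mpr ⟨mem_univ _, fun h => hu (hBXc h), huv, h2, le_rfl⟩⟩
      exact_mod_cast h5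
    have h6 : ((sC G C v u).card : ℝ) ^ ((1 : ℝ) / 3) < 20 * 2 ^ 0 := by
      rw [← fu_third 0]
      exact Real.rpow_lt_rpow (Nat.cast_nonneg _) h1 (by norm_num)
    have h7 : (2 : ℝ) ^ (((sC G C v u).card : ℝ) ^ ((1 : ℝ) / 3) / 20) < (2 : ℝ) ^ (1 : ℝ) := by
      apply Real.rpow_lt_rpow_of_exponent_lt (by norm_num)
      linarith
    rw [Real.rpow_one] at h7
    linarith
  obtain ⟨X, hXcX, hR, hX, hcB⟩ := hBON V G Xc C huniq
    (fin_mono (union_subset_union hBXc (Subset.refl _)) hloc)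
  -- the count
  by_contra hno
  set m := Fintype.card V - X.card with hm
  have hmp : m ≤ Fintype.card V := Nat.sub_le _ _
  have hE : ∀ r k, k ≤ Fintype.card V → ((embk G a r Xc k).card : ℝ) ≤
      (D : ℝ) ^ (X₀.card - 1) * (2 : ℝ) ^ ((Fintype.card V : ℝ) * (19 / 432)) := by
    intro r k hk
    have h1 := hce r k hk
    have h2 : Sx 0 = 19 / 432 := by unfold Sx; norm_num
    rw [h2] at h1
    refine h1.trans (mul_le_mul_of_nonneg_right ?_ (by positivity))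
    have h3 : (embk G a r X₀ k).card ≤ D ^ (X₀.card - 1) :=
      (card_le_card (filter_subset _ _)).trans (hNBD V G D a r X₀ ha hXcon hdeg)
    exact_mod_cast h3
  have hfin := hNFIN (Fintype.card V) D X₀.card Xc.card m hD hnD hnp hc1 hc3
    (by simpa using hcc) hmp hcB
  set N : ℝ := (D : ℝ) ^ (X₀.card - 1) * (2 : ℝ) ^ ((Fintype.card V : ℝ) * (19 / 432)) with hN
  have h4m : (4 : ℝ) ^ m ≤ (m + 1) * (2 * N * 3 ^ m) := by
    have h2 : (4 : ℝ) ^ m = ∑ k ∈ range (m + 1), 1 ^ k * 3 ^ (m - k) * (m.choose k : ℝ) := by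
      have h := add_pow (1 : ℝ) 3 m
      rw [← h]; norm_num
    rw [h2]
    have h3 : ∀ k ∈ range (m + 1), (1 : ℝ) ^ k * 3 ^ (m - k) * (m.choose k : ℝ) ≤ 2 * N * 3 ^ m := by
      intro k hk
      rw [mem_range] at hk
      have hk' : k ≤ m := by omega
      have h4 := hMAINK V G a b Xc X haXc hR hX hH hno k hk'
      have h5 : ((m.choose k : ℕ) : ℝ) ≤ 3 ^ k * (((embk G a a Xc k).card : ℝ) +
          ((embk G a b Xc k).card : ℝ)) := by exact_mod_cast h4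
      have h6 := hE a k (hk'.trans hmp)
      have h7 := hE b k (hk'.trans hmp)
      have h8 : ((m.choose k : ℕ) : ℝ) ≤ 3 ^ k * (2 * N) := by
        refine h5.trans (mul_le_mul_of_nonneg_left ?_ (by positivity))
        linarith
      calc (1 : ℝ) ^ k * 3 ^ (m - k) * (m.choose k : ℝ) ≤ 1 ^ k * 3 ^ (m - k) * (3 ^ k * (2 * N)) :=
            mul_le_mul_of_nonneg_left h8 (by positivity)
        _ = 2 * N * (3 ^ (m - k) * 3 ^ k) := by rw [one_pow]; ring
        _ = 2 * N * 3 ^ m := by rw [← pow_add, Nat.sub_add_cancel hk']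
    refine (sum_le_card_nsmul _ _ _ h3).trans ?_
    rw [card_range, nsmul_eq_mul]
    push_cast
    exact le_rfl
  have h9 : (m + 1 : ℝ) * (2 * N * 3 ^ m) = 2 * (D : ℝ) ^ (X₀.card - 1) *
      (2 : ℝ) ^ ((Fintype.card V : ℝ) * (19 / 432)) * (m + 1) * 3 ^ m := by
    rw [hN]; ring
  rw [h9] at h4m
  exact absurd hfin (not_lt.mpr h4m)

/-- the master theorem -/
theorem finU (hMAINK : SpecMAINK) (hNBD : SpecNBD) (hCDS2 : SpecCDS2) (hDIS : SpecDIS)
    (hBON : SpecBON) (hEXT : SpecEXT) (hSTG : SpecSTG) (hTOPR : SpecTOPR) (hNST : SpecNST)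
    (hNPOW : SpecNPOW) (hNTOP : SpecNTOP) (hNLOW : SpecNLOW) (hNUM1 : SpecNUM1)
    (hNFIN : SpecNFIN)
    {V : Type} [Fintype V] {G : SimpleGraph V} {a b : V} (hH : H2 G a b) (B C : Finset V) (D : ℕ)
    (hD : 2 ≤ D) (hdeg : ∀ v, deg G v ≤ D)
    (hB : (B.card : ℝ) ≤ Fintype.card V / (100 * Real.logb 2 D))
    (hne : ∃ v ∈ C, v ∉ B)
    (hGr : Growth G B C (Real.logb 2 D))
    (hloc : Locating G (B ∪ C)) :
    ∃ φ : G ≃g G, φ a = b := by
  by_cases hDp : D ≤ Fintype.card V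
  · exact finU' hMAINK hNBD hCDS2 hDIS hBON hEXT hSTG hTOPR hNST hNPOW hNTOP hNLOW hNUM1 hNFIN
      hH B C D hD hDp hdeg hB hne hGr hloc
  rcases eq_or_ne a b with rfl | hab
  · exact ⟨RelIso.refl _, rfl⟩
  rw [not_le] at hDp
  have hp : 2 ≤ Fintype.card V := Fintype.one_lt_card_iff.mpr ⟨a, b, hab⟩
  have hp' : (2 : ℝ) ≤ Fintype.card V := by exact_mod_cast hp
  have hl1 : 1 ≤ Real.logb 2 (Fintype.card V) := fin_logb hp
  have hll : Real.logb 2 (Fintype.card V) ≤ Real.logb 2 D :=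
    Real.logb_le_logb_of_le (by norm_num) (by linarith) (by exact_mod_cast hDp.le)
  refine finU' hMAINK hNBD hCDS2 hDIS hBON hEXT hSTG hTOPR hNST hNPOW hNTOP hNLOW hNUM1 hNFIN
      hH B C (Fintype.card V) hp le_rfl (fun v => card_le_univ _) ?_ hne ?_ hloc
  · refine hB.trans ?_
    apply div_le_div_of_nonneg_left (by linarith) (by linarith)
    linarith
  · intro v hv hvB r hr
    have h1 : Real.logb 2 (Fintype.card V) ^ 2 ≤ Real.logb 2 D ^ 2 :=
      pow_le_pow_left₀ (by linarith) hll 2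
    refine le_trans ?_ (hGr v hv hvB r (by linarith))
    have h2 : (univ.filter fun u => u ∉ B ∧ u ≠ v ∧
        ((sep G v u).card : ℝ) < 200 * Real.logb 2 (Fintype.card V) ^ 2 ∧
        (sC G C v u).card ≤ r).card ≤ (univ.filter fun u => u ∉ B ∧ u ≠ v ∧
        ((sep G v u).card : ℝ) < 200 * Real.logb 2 D ^ 2 ∧ (sC G C v u).card ≤ r).card := by
      apply card_le_card
      intro u hu
      rw [mem_filter] at hu ⊢
      exact ⟨hu.1, hu.2.1, hu.2.2.1, by linarith [hu.2.2.2.1], hu.2.2.2.2⟩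
    exact_mod_cast h2

end Pool.Agent.Lib.MP50ecf8.LOC
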