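import Pool.Agent.Lib.MP_50ecf8_co.LOC.Spec6
import Pool.Agent.Lib.MP_50ecf8_co.LOC.FINU
import Pool.Agent.Lib.MP_50ecf8_co.LOC.FINT

/-!
# The master theorem with twins and near twins: assembly
-/

set_option autoImplicit false

open Finset
open scoped Classical

namespace Pool.Agent.Lib.MP50ecf8.LOC

/-- the near twins of `v` in `T` -/
noncomputable def Nr {V : Type} [Fintype V] (G : SimpleGraph V) (T B C : Finset V) (τ : ℝ)
    (v : V) (r : ℕ) : Finset V :=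
  T.filter fun u => u ∉ B ∧ ((sC G T v u).card : ℝ) < τ ∧ (sC G C v u).card ≤ r

/-- the union of the classes of the elements of `N` -/
noncomputable def Cls {V : Type} [Fintype V] (G : SimpleGraph V) (N : Finset V) : Finset V :=
  univ.filter fun x => ∃ u ∈ N, Tw G x u

/-- the growth condition -/
def GrT {V : Type} [Fintype V] (G : SimpleGraph V) (T B C : Finset V) (L : ℝ) : Prop :=
  ∀ v ∈ C, v ∉ B → ∀ r : ℕ, (r : ℝ) < 200 * L ^ 2 →
    Nr G T B C (200 * L ^ 2) v r = {v} ∨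
    ((Cls G (Nr G T B C (200 * L ^ 2) v r)).card : ℝ) ≤ (2 : ℝ) ^ ((r : ℝ) ^ ((1 : ℝ) / 3) / 20)

/-- the property of the set `Y` -/
def Prp {V : Type} [Fintype V] (G : SimpleGraph V) (T B C : Finset V) (τ θ : ℝ) (Y : Finset V) :
    Prop :=
  ∀ v ∈ C, v ∉ B → ∀ u ∈ T, u ∉ B → u ≠ v →
    (∀ w ∈ Y, w ≠ u → w ≠ v → (G.Adj w u ↔ G.Adj w v)) →
    ((sC G T v u).card : ℝ) < τ ∧ ((sC G C v u).card : ℝ) < θ

lemma sC_self {V : Type} [Fintype V] (G : SimpleGraph V) (C : Finset V) (v : V) :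
    sC G C v v = ∅ := by
  rw [sC, Finset.eq_empty_iff_forall_notMem]
  intro w hw
  rw [mem_inter, sep, mem_filter] at hw
  exact hw.1.2.2.2 Iff.rfl

lemma subset_Cls {V : Type} [Fintype V] (G : SimpleGraph V) (N : Finset V) : N ⊆ Cls G N :=
  fun u hu => mem_filter.mpr ⟨mem_univ _, u, hu, Tw.refl G u⟩

lemma self_mem_Nr {V : Type} [Fintype V] {G : SimpleGraph V} {T B C : Finset V} {τ : ℝ} {v : V}
    (hv : v ∈ T) (hvB : v ∉ B) (hτ : 0 < τ) (r : ℕ) : v ∈ Nr G T B C τ v r := by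
  rw [Nr, mem_filter]
  refine ⟨hv, hvB, ?_, ?_⟩
  · rw [sC_self]; simpa using hτ
  · rw [sC_self]; simp

/-- bounds for real thresholds -/
lemma fv_gb {V : Type} [Fintype V] {G : SimpleGraph V} {T B C : Finset V} {L : ℝ}
    (hGr : GrT G T B C L) {v : V} (hv : v ∈ C) (hvB : v ∉ B) {θ : ℝ} (h0 : 0 < θ)
    (hθ : θ ≤ 200 * L ^ 2) {N : Finset V}
    (hN : ∀ u ∈ N, u ∈ T ∧ u ∉ B ∧ ((sC G T v u).card : ℝ) < 200 * L ^ 2 ∧
      ((sC G C v u).card : ℝ) < θ) {u₁ : V} (hu₁ : u₁ ∈ N) (hne : u₁ ≠ v) :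
    ((Cls G N).card : ℝ) ≤ (2 : ℝ) ^ (θ ^ ((1 : ℝ) / 3) / 20) := by
  have hc : 1 ≤ ⌈θ⌉₊ := Nat.ceil_pos.mpr h0
  have hr : ((⌈θ⌉₊ - 1 : ℕ) : ℝ) < θ := Nat.lt_ceil.mp (by omega)
  have hsub : N ⊆ Nr G T B C (200 * L ^ 2) v (⌈θ⌉₊ - 1) := by
    intro u hu
    obtain ⟨h1, h2, h3, h4⟩ := hN u hu
    have h5 : (sC G C v u).card < ⌈θ⌉₊ := Nat.lt_ceil.mpr h4
    exact mem_filter.mpr ⟨h1, h2, h3, by omega⟩
  have h1 : ((Cls G N).card : ℝ) ≤
      ((Cls G (Nr G T B C (200 * L ^ 2) v (⌈θ⌉₊ - 1))).card : ℝ) := by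
    have h2 : (Cls G N).card ≤ (Cls G (Nr G T B C (200 * L ^ 2) v (⌈θ⌉₊ - 1))).card := by
      apply card_le_card
      intro x hx
      obtain ⟨u, hu, hxu⟩ := (mem_filter.mp hx).2
      exact mem_filter.mpr ⟨mem_univ _, u, hsub hu, hxu⟩
    exact_mod_cast h2
  refine h1.trans ?_
  rcases hGr v hv hvB (⌈θ⌉₊ - 1) (lt_of_lt_of_le hr hθ) with h2 | h2
  · exfalso
    have h3 := hsub hu₁
    rw [h2, mem_singleton] at h3
    exact hne h3
  · refine h2.trans ?_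
    have h4 : ((⌈θ⌉₊ - 1 : ℕ) : ℝ) ^ ((1 : ℝ) / 3) ≤ θ ^ ((1 : ℝ) / 3) :=
      Real.rpow_le_rpow (Nat.cast_nonneg _) hr.le (by norm_num)
    exact Real.rpow_le_rpow_of_exponent_le (by norm_num) (by linarith)

/-- class sizes in `T` -/
lemma fv_cl {V : Type} [Fintype V] {G : SimpleGraph V} {T B C Y : Finset V} {L : ℝ}
    (hGr : GrT G T B C L) {θ : ℝ} (h0 : 0 < θ) (hθ : θ ≤ 200 * L ^ 2)
    (hP : Prp G T B C (200 * L ^ 2) θ Y) {v : V} (hv : v ∈ C) (hvB : v ∉ B) :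
    (((T.filter fun u => u ∉ B ∧ u ≠ v ∧
      ∀ w ∈ Y, w ≠ u → w ≠ v → (G.Adj w u ↔ G.Adj w v)).card : ℕ) : ℝ) ≤
      (2 : ℝ) ^ (θ ^ ((1 : ℝ) / 3) / 20) := by
  rcases (T.filter fun u => u ∉ B ∧ u ≠ v ∧
      ∀ w ∈ Y, w ≠ u → w ≠ v → (G.Adj w u ↔ G.Adj w v)).eq_empty_or_nonempty with he | ⟨u₁, hu₁⟩
  · rw [he]; simp; positivity
  have h1 := fv_gb hGr hv hvB h0 hθ (N := T.filter fun u => u ∉ B ∧ u ≠ v ∧
      ∀ w ∈ Y, w ≠ u → w ≠ v → (G.Adj w u ↔ G.Adj w v)) (fun u hu => by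
        rw [mem_filter] at hu
        obtain ⟨h2, h3⟩ := hP v hv hvB u hu.1 hu.2.1 hu.2.2.1 hu.2.2.2
        exact ⟨hu.1, hu.2.1, h2, h3⟩) hu₁ (mem_filter.mp hu₁).2.2.1
  refine le_trans ?_ h1
  exact_mod_cast card_le_card (subset_Cls G _)

/-- sizes of the trace classes -/
lemma fv_tc {V : Type} [Fintype V] {G : SimpleGraph V} {T B C Y : Finset V} {L : ℝ}
    (hT : Trv G T) (hCT : C ⊆ T) (hBt : ∀ u ∈ B, ∀ v, Tw G u v → v ∈ B) (hBY : B ⊆ Y)
    (hL : 0 < L)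
    (hGr : GrT G T B C L) {θ : ℝ} (h0 : 0 < θ) (hθ : θ ≤ 200 * L ^ 2)
    (hP : Prp G T B C (200 * L ^ 2) θ Y) {z : V} (hz : z ∈ C) (hzB : z ∉ B) {u₁ : V}
    (hu₁ : u₁ ∈ T) (hu₁B : u₁ ∉ B) (hne : u₁ ≠ z)
    (hs : ∀ w ∈ Y, w ≠ u₁ → w ≠ z → (G.Adj w u₁ ↔ G.Adj w z)) :
    ((tc G Y z).card : ℝ) ≤ (2 : ℝ) ^ (θ ^ ((1 : ℝ) / 3) / 20) := by
  have hτ : 0 < 200 * L ^ 2 := by positivity
  set N : Finset V := T.filter fun u => u ∉ B ∧ ((sC G T z u).card : ℝ) < 200 * L ^ 2 ∧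
    ((sC G C z u).card : ℝ) < θ with hN
  have hmem : ∀ u ∈ T, u ∉ B → u ≠ z →
      (∀ w ∈ Y, w ≠ u → w ≠ z → (G.Adj w u ↔ G.Adj w z)) → u ∈ N := by
    intro u hu huB huz h
    obtain ⟨h1, h2⟩ := hP z hz hzB u hu huB huz h
    exact mem_filter.mpr ⟨hu, huB, h1, h2⟩
  have hzN : z ∈ N := by
    rw [hN, mem_filter]
    refine ⟨hCT hz, hzB, ?_, ?_⟩
    · rw [sC_self]; simpa using hτ
    · rw [sC_self]; simpa using h0
  have h1 := fv_gb hGr hz hzB h0 hθ (N := N) (fun u hu => by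
    rw [hN, mem_filter] at hu
    exact hu) (hmem u₁ hu₁ hu₁B hne hs) hne
  refine le_trans ?_ h1
  have h2 : tc G Y z ⊆ Cls G N := by
    intro x hx
    rw [tc, mem_filter] at hx
    obtain ⟨t, ht, hxt⟩ := hT.1 x
    rw [Cls, mem_filter]
    refine ⟨mem_univ _, t, ?_, hxt⟩
    by_cases htz : t = z
    · rw [htz]; exact hzN
    · refine hmem t ht (fun h => hx.2.1 (hBY (hBt t h x hxt.symm))) htz ?_
      intro w hw hwt _
      have h3 : G.Adj w x ↔ G.Adj w t := hxt w (fun h => hx.2.1 (h ▸ hw)) hwt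
      exact h3.symm.trans (hx.2.2 w hw)
  exact_mod_cast card_le_card h2

/-- located up to twins -/
lemma fv_uni {V : Type} [Fintype V] {G : SimpleGraph V} {T B Y : Finset V}
    (hT : Trv G T) (hBt : ∀ u ∈ B, ∀ v, Tw G u v → v ∈ B) (hBY : B ⊆ Y) {z : V}
    (hs : ∀ u ∈ T, u ∉ B → u ≠ z → ∃ w ∈ Y, w ≠ u ∧ w ≠ z ∧ ¬(G.Adj w u ↔ G.Adj w z)) :
    UniT G Y z := by
  intro u hu huz
  obtain ⟨t, ht, hut⟩ := hT.1 u
  have htz : t ≠ z := fun h => huz (h ▸ hut)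
  obtain ⟨w, hw, hwt, hwz, hadj⟩ := hs t ht (fun h => hu (hBY (hBt t h u hut.symm))) htz
  have h1 : G.Adj w u ↔ G.Adj w t := hut w (fun h => hu (h ▸ hw)) hwt
  exact ⟨w, hw, fun h => hadj (h1.symm.trans h)⟩

lemma uniT_mono {V : Type} {G : SimpleGraph V} {Y Y' : Finset V} {x : V} (h : Y ⊆ Y')
    (hu : UniT G Y x) : UniT G Y' x := by
  intro u hu' hne
  obtain ⟨w, hw, h'⟩ := hu u (fun h1 => hu' (h h1)) hne
  exact ⟨w, h hw, h'⟩

/-- adding several located vertices -/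
lemma rc_free {V : Type} [Fintype V] {G : SimpleGraph V} {T X₀ Y : Finset V} {K c : ℝ}
    (h : RC G T X₀ K Y c) (P : Finset V) (hP : ∀ x ∈ P, x ∉ Y ∧ x ∈ T ∧ UniT G Y x) :
    RC G T X₀ K (Y ∪ P) c := by
  induction P using Finset.induction_on with
  | empty => rw [union_empty]; exact h
  | @insert x P hx ih =>
    have h1 := ih fun z hz => hP z (mem_insert_of_mem hz)
    obtain ⟨h2, h3, h4⟩ := hP x (mem_insert_self _ _)
    rw [union_insert]
    refine RC.free h1 ?_ h3 (uniT_mono subset_union_left h4)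
    rw [mem_union, not_or]
    exact ⟨h2, hx⟩

/-- the stages -/
lemma fv_stages (hSTGT : SpecSTGT) (hNST : SpecNST) (hNPOW : SpecNPOW)
    {V : Type} [Fintype V] {G : SimpleGraph V} {T B C X₀ : Finset V} {L : ℝ}
    (hT : Trv G T) (hCT : C ⊆ T) (hBt : ∀ u ∈ B, ∀ v, Tw G u v → v ∈ B)
    (hGr : GrT G T B C L) (hBX : B ⊆ X₀) (hL : 0 < L) (hTpos : 0 < T.card)
    (hP₀ : Prp G T B C (200 * L ^ 2) (200 * L ^ 2) X₀) (i : ℕ) :
    ∃ (Y : Finset V) (c : ℝ), X₀ ⊆ Y ∧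
      Prp G T B C (200 * L ^ 2) ((8000 * 8 ^ i : ℕ) : ℝ) Y ∧
      (Y.card : ℝ) ≤ X₀.card + T.card / (288 * 4 ^ i) ∧
      RC G T X₀ T.card Y c ∧ 0 ≤ c ∧ c ≤ (2 : ℝ) ^ ((T.card : ℝ) * Sx i) := by
  have hτ : 0 < 200 * L ^ 2 := by positivity
  have hTp : (0 : ℝ) < T.card := by exact_mod_cast hTpos
  have htriv : ∀ i : ℕ, 200 * L ^ 2 ≤ ((8000 * 8 ^ i : ℕ) : ℝ) →
    ∃ (Y : Finset V) (c : ℝ), X₀ ⊆ Y ∧
      Prp G T B C (200 * L ^ 2) ((8000 * 8 ^ i : ℕ) : ℝ) Y ∧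
      (Y.card : ℝ) ≤ X₀.card + T.card / (288 * 4 ^ i) ∧
      RC G T X₀ T.card Y c ∧ 0 ≤ c ∧ c ≤ (2 : ℝ) ^ ((T.card : ℝ) * Sx i) := by
    intro i hi
    refine ⟨X₀, 1, Subset.refl _, ?_, ?_, RC.base, zero_le_one, ?_⟩
    · intro v hv hvB u hu huB huv h
      obtain ⟨h1, h2⟩ := hP₀ v hv hvB u hu huB huv h
      exact ⟨h1, lt_of_lt_of_le h2 hi⟩
    · have : (0 : ℝ) ≤ T.card / (288 * 4 ^ i) := by positivity
      linarith
    · exact Real.one_le_rpow (by norm_num) (mul_nonneg (Nat.cast_nonneg _) (Sx_nonneg i))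
  have key : ∀ d i : ℕ, 200 * L ^ 2 ≤ ((8000 * 8 ^ (i + d) : ℕ) : ℝ) →
    ∃ (Y : Finset V) (c : ℝ), X₀ ⊆ Y ∧
      Prp G T B C (200 * L ^ 2) ((8000 * 8 ^ i : ℕ) : ℝ) Y ∧
      (Y.card : ℝ) ≤ X₀.card + T.card / (288 * 4 ^ i) ∧
      RC G T X₀ T.card Y c ∧ 0 ≤ c ∧ c ≤ (2 : ℝ) ^ ((T.card : ℝ) * Sx i) := by
    intro d
    induction d with
    | zero => intro i hi; exact htriv i (by simpa using hi)
    | succ d ih =>
      intro i hi
      by_cases hti : 200 * L ^ 2 ≤ ((8000 * 8 ^ i : ℕ) : ℝ)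
      · exact htriv i hti
      rw [not_le] at hti
      obtain ⟨Y, c, hX₀Y, hPY, hYc, hRY, hc0, hcY⟩ := ih (i + 1) (by
        have h : i + 1 + d = i + (d + 1) := by ring
        rw [h]; exact hi)
      have hBY : B ⊆ Y := hBX.trans hX₀Y
      have hle4 : (T.card : ℝ) / (288 * 4 ^ (i + 1)) ≤ T.card / (288 * 4 ^ i) := by
        apply div_le_div_of_nonneg_left (Nat.cast_nonneg _) (by positivity)
        have h2 : (4 : ℝ) ^ i ≤ 4 ^ (i + 1) := pow_le_pow_right₀ (by norm_num) (by omega)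
        linarith
      -- no stage is needed if the core is small
      by_cases hqn : C.card < 8000 * 8 ^ i
      · refine ⟨Y, c, hX₀Y, fun v hv hvB u hu huB huv h => ⟨(hPY v hv hvB u hu huB huv h).1, ?_⟩,
          hYc.trans (by linarith), hRY, hc0, hcY.trans ?_⟩
        · exact_mod_cast lt_of_le_of_lt (sC_le G C v u) hqn
        · exact Real.rpow_le_rpow_of_exponent_le (by norm_num)
            (mul_le_mul_of_nonneg_left (Sx_succ_le i) (Nat.cast_nonneg _))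
      rw [not_lt] at hqn
      -- the threshold
      set θ : ℝ := min (((8000 * 8 ^ (i + 1) : ℕ) : ℝ)) (200 * L ^ 2) with hθ
      have hθ0 : 0 < θ := lt_min (by positivity) hτ
      have hθτ : θ ≤ 200 * L ^ 2 := min_le_right _ _
      have hPθ : Prp G T B C (200 * L ^ 2) θ Y := by
        intro v hv hvB u hu huB huv h
        obtain ⟨h1, h2⟩ := hPY v hv hvB u hu huB huv h
        refine ⟨h1, lt_min h2 (lt_of_le_of_lt ?_ h1)⟩
        exact_mod_cast card_le_card (inter_subset_inter_left hCT)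
      have hpow : (2 : ℝ) ^ (θ ^ ((1 : ℝ) / 3) / 20) ≤ ((2 ^ 2 ^ (i + 1) : ℕ) : ℝ) := by
        have h2 : θ ^ ((1 : ℝ) / 3) ≤ 20 * 2 ^ (i + 1) := by
          rw [← fu_third (i + 1)]
          exact Real.rpow_le_rpow hθ0.le (min_le_left _ _) (by norm_num)
        have h3 : (2 : ℝ) ^ (θ ^ ((1 : ℝ) / 3) / 20) ≤ (2 : ℝ) ^ (((2 ^ (i + 1) : ℕ) : ℝ)) := by
          apply Real.rpow_le_rpow_of_exponent_le (by norm_num)
          have h2' : (((2 ^ (i + 1) : ℕ) : ℝ)) = 2 ^ (i + 1) := by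
            rw [Nat.cast_pow, Nat.cast_ofNat]
          rw [h2']
          linarith
        rw [Real.rpow_natCast] at h3
        refine h3.trans (le_of_eq ?_)
        rw [Nat.cast_pow, Nat.cast_ofNat]
      have hclT : ∀ v ∈ C, v ∉ B → (T.filter fun u => u ∉ B ∧ u ≠ v ∧
          ∀ w ∈ Y, w ≠ u → w ≠ v → (G.Adj w u ↔ G.Adj w v)).card ≤ 2 ^ 2 ^ (i + 1) := by
        intro v hv hvB
        have h1 := (fv_cl hGr hθ0 hθτ hPθ hv hvB).trans hpow
        exact_mod_cast h1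
      have hCpos : 0 < C.card := lt_of_lt_of_le (by positivity) hqn
      obtain ⟨s, hs⟩ := hNST C.card i hqn
      obtain ⟨Z, hYZ, hZC, hZc, hPZ⟩ := hSTGT V G T B C Y (2 ^ 2 ^ (i + 1)) s
        (((8000 * 8 ^ i : ℕ) : ℝ)) (by positivity) (by exact_mod_cast hqn) hCpos hclT
      have hCp : (C.card : ℝ) ≤ T.card := by exact_mod_cast card_le_card hCT
      have hRle : (C.card : ℝ) / (384 * 4 ^ i) ≤ T.card / (384 * 4 ^ i) :=
        div_le_div_of_nonneg_right hCp (by positivity)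
      have hZY : (((Z \ Y).card : ℕ) : ℝ) ≤ T.card / (384 * 4 ^ i) := by
        rw [card_sdiff_of_subset hYZ, Nat.cast_sub (card_le_card hYZ)]
        linarith
      -- the paid part and the free part
      set Pd : Finset V := (Z \ Y).filter fun z => ∃ u ∈ T, u ∉ B ∧ u ≠ z ∧
        ∀ w ∈ Y, w ≠ u → w ≠ z → (G.Adj w u ↔ G.Adj w z) with hPd
      have hPdZ : Pd ⊆ Z \ Y := filter_subset _ _
      have hdiff : (Y ∪ Pd) \ Y = Pd := by
        rw [union_sdiff_left]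
        apply sdiff_eq_self_of_disjoint
        rw [disjoint_left]
        intro x hx hxY
        exact (mem_sdiff.mp (hPdZ hx)).2 hxY
      have hRP : RC G T X₀ T.card (Y ∪ Pd) (c * (((2 ^ 2 ^ (i + 1) : ℕ) : ℝ) *
          (1 + T.card / (T.card / (384 * 4 ^ i)))) ^ ((T.card : ℝ) / (384 * 4 ^ i))) := by
        refine RC.paid hRY subset_union_left ?_ Nat.one_le_two_pow ?_ ?_ (by positivity)
        · rw [hdiff]
          exact fun z hz => hCT (hZC (hPdZ hz))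
        · intro z hz hzY
          have hz' : z ∈ Pd := (mem_union.mp hz).resolve_left hzY
          obtain ⟨-, u₁, hu₁, hu₁B, hne, hs₁⟩ := mem_filter.mp hz'
          have hzC : z ∈ C := hZC (hPdZ hz')
          have h1 := (fv_tc hT hCT hBt hBY hL hGr hθ0 hθτ hPθ hzC (fun h => hzY (hBY h)) hu₁ hu₁B
            hne hs₁).trans hpow
          exact_mod_cast h1
        · rw [hdiff]
          refine le_trans ?_ hZY
          exact_mod_cast card_le_card hPdZ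
      have hRZ : RC G T X₀ T.card Z (c * (((2 ^ 2 ^ (i + 1) : ℕ) : ℝ) *
          (1 + T.card / (T.card / (384 * 4 ^ i)))) ^ ((T.card : ℝ) / (384 * 4 ^ i))) := by
        have h1 := rc_free hRP (Z \ (Y ∪ Pd)) (by
          intro x hx
          rw [mem_sdiff, mem_union, not_or] at hx
          have hxZY : x ∈ Z \ Y := mem_sdiff.mpr ⟨hx.1, hx.2.1⟩
          have hxC : x ∈ C := hZC hxZY
          refine ⟨by rw [mem_union, not_or]; exact hx.2, hCT hxC,
            uniT_mono subset_union_left (fv_uni hT hBt hBY ?_)⟩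
          intro u hu huB hux
          by_contra hcon
          apply hx.2.2
          refine mem_filter.mpr ⟨hxZY, u, hu, huB, hux, ?_⟩
          intro w hw hwu hwx
          by_contra hadj
          exact hcon ⟨w, hw, hwu, hwx, hadj⟩)
        have h2 : (Y ∪ Pd) ∪ (Z \ (Y ∪ Pd)) = Z := by
          apply union_sdiff_of_subset
          exact union_subset hYZ (hPdZ.trans sdiff_subset)
        rwa [h2] at h1
      refine ⟨Z, _, hX₀Y.trans hYZ, ?_, ?_, hRZ, by positivity, ?_⟩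
      · intro v hv hvB u hu huB huv h
        refine ⟨(hPY v hv hvB u hu huB huv fun w hw => h w (hYZ hw)).1, hPZ v hv hvB u hu huB huv h⟩
      · have h1 : (T.card : ℝ) / (288 * 4 ^ (i + 1)) + T.card / (384 * 4 ^ i) =
            T.card / (288 * 4 ^ i) := by
          rw [pow_succ]
          field_simp
          norm_num
        linarith
      · have h2 := hNPOW T.card i (by exact_mod_cast hTpos)
        have h4 : (2 : ℝ) ^ ((T.card : ℝ) * Sx i) =
            (2 : ℝ) ^ ((T.card : ℝ) * Sx (i + 1)) *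
            (2 : ℝ) ^ ((T.card : ℝ) * (2 ^ (i + 1) + 9 + 2 * i) / (384 * 4 ^ i)) := by
          rw [← Real.rpow_add (by norm_num), Sx_succ i]
          congr 1
          ring
        rw [h4]
        exact mul_le_mul hcY h2 (by positivity) (by positivity)
  obtain ⟨d, hd⟩ : ∃ d : ℕ, 200 * L ^ 2 ≤ ((8000 * 8 ^ (i + d) : ℕ) : ℝ) := by
    obtain ⟨n, hn⟩ := exists_nat_ge (200 * L ^ 2)
    refine ⟨n, hn.trans ?_⟩
    have h1 : n ≤ 8000 * 8 ^ (i + n) := by
      have h2 : n < 8 ^ n := Nat.lt_pow_self (by norm_num)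
      have h3 : 8 ^ n ≤ 8 ^ (i + n) := Nat.pow_le_pow_right (by norm_num) (by omega)
      omega
    exact_mod_cast h1
  exact key d i hd

/-- the case of a connected graph, `a ∈ T` and `D ≤ |T|` -/
theorem finV' (hMAINU : SpecMAINU) (hCNTU : SpecCNTU) (hREPT : SpecREPT) (hTOPT : SpecTOPT)
    (hSTGT : SpecSTGT) (hBONT : SpecBONT) (hNFI2 : SpecNFI2) (hNTOP : SpecNTOP)
    (hNLOW : SpecNLOW) (hNUM1 : SpecNUM1) (hNST : SpecNST) (hNPOW : SpecNPOW)
    (hCONT : SpecCONT) (hCDST : SpecCDST)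
    {V : Type} [Fintype V] {G : SimpleGraph V} {a b : V} (hH : H2 G a b) (hcon : G.Connected)
    (T B C : Finset V) (D : ℕ) (hT : Trv G T) (haT : a ∈ T) (hT2 : 2 ≤ T.card) (hCT : C ⊆ T)
    (hBt : ∀ u ∈ B, ∀ v, Tw G u v → v ∈ B) (hD : 2 ≤ D) (hDT : D ≤ T.card)
    (hdeg : ∀ v ∈ T, (T.filter fun w => G.Adj v w).card < D)
    (hB : (B.card : ℝ) ≤ T.card / (150 * Real.logb 2 D)) (hne : ∃ v ∈ C, v ∉ B)
    (hGr : GrT G T B C (Real.logb 2 D))
    (hloc : ∀ u ∈ T, u ∉ B ∪ C → ∀ v ∈ T, v ∉ B ∪ C → u ≠ v →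
      ∃ w ∈ B ∪ C, ¬(G.Adj w u ↔ G.Adj w v)) :
    ∃ φ : G ≃g G, φ a = b := by
  have hl : 1 ≤ Real.logb 2 D := fin_logb hD
  set L := Real.logb 2 D with hL
  have hL0 : 0 < L := by linarith
  have hτ : 0 < 200 * L ^ 2 := by positivity
  have hp2 : (2 : ℝ) ≤ T.card := by exact_mod_cast hT2
  have hTpos : 0 < T.card := by omega
  have hdeg' : ∀ v ∈ T, (T.filter fun w => G.Adj v w).card ≤ D := fun v hv => (hdeg v hv).le
  have hsC : ∀ u v, (sC G C u v).card ≤ (sC G T u v).card := fun u v =>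
    card_le_card (inter_subset_inter_left hCT)
  obtain ⟨v₀, hv₀C, hv₀B⟩ := hne
  -- `T \ B` is large
  have hTB : (99 : ℝ) / 100 * T.card ≤ ((T \ B).card : ℝ) := by
    have h2 : T.card ≤ (T \ B).card + B.card := by
      have h3 := Finset.card_le_card (show T ⊆ (T \ B) ∪ B from by
        intro x hx
        rw [mem_union, mem_sdiff]
        by_cases h : x ∈ B
        · exact Or.inr h
        · exact Or.inl ⟨hx, h⟩)
      exact h3.trans (card_union_le _ _)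
    have h3 : (T.card : ℝ) ≤ ((T \ B).card : ℝ) + B.card := by exact_mod_cast h2
    have h4 : (B.card : ℝ) ≤ T.card / 100 := by
      refine hB.trans ?_
      apply div_le_div_of_nonneg_left (by linarith) (by norm_num)
      linarith
    linarith
  -- a well separated pair
  obtain ⟨u₀, hu₀T, hu₀B, huv₀, hbig⟩ : ∃ u ∈ T, u ∉ B ∧ u ≠ v₀ ∧
      200 * L ^ 2 ≤ ((sC G T v₀ u).card : ℝ) := by
    by_contra hcontra
    push Not at hcontra
    have h1 : 1 < (T \ B).card := by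
      have h5 : (1 : ℝ) < ((T \ B).card : ℝ) := by linarith
      exact_mod_cast h5
    obtain ⟨u₁, hu₁, hne₁⟩ := Finset.exists_mem_ne h1 v₀
    have h2 := fv_gb hGr hv₀C hv₀B hτ le_rfl (N := T \ B) (fun u hu => by
      rw [mem_sdiff] at hu
      have h3 : ((sC G T v₀ u).card : ℝ) < 200 * L ^ 2 := by
        by_cases huv : u = v₀
        · rw [huv, sC_self]; simpa using hτ
        · exact hcontra u hu.1 hu.2 huv
      exact ⟨hu.1, hu.2, h3, lt_of_le_of_lt (by exact_mod_cast hsC v₀ u) h3⟩) hu₁ hne₁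
    have h3 := hNUM1 T.card D hD hDT
    rw [← hL] at h3
    have h4 : ((T \ B).card : ℝ) ≤ ((Cls G (T \ B)).card : ℝ) := by
      exact_mod_cast card_le_card (subset_Cls G _)
    linarith
  have hnp : 200 * L ^ 2 ≤ (T.card : ℝ) := hbig.trans (by exact_mod_cast sC_le G T v₀ u₀)
  have hdegsep : ∀ x y, (sC G T x y).card ≤ (T.filter fun w => G.Adj x w).card +
        (T.filter fun w => G.Adj y w).card := by
    intro x y
    refine (card_le_card ?_).trans (card_union_le _ _)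
    intro w hw
    rw [sC, mem_inter, sep, mem_filter] at hw
    rw [mem_union, mem_filter, mem_filter]
    by_cases h : G.Adj x w
    · exact Or.inl ⟨hw.2, h⟩
    · right
      refine ⟨hw.2, ?_⟩
      by_contra h'
      exact hw.1.2.2.2 ⟨fun h2 => absurd h2.symm h, fun h2 => absurd h2.symm h'⟩
  have hnD : 100 * L ^ 2 ≤ (D : ℝ) := by
    have h4 : (sC G T v₀ u₀).card ≤ 2 * D := by
      have h5 := hdeg' v₀ (hCT hv₀C)
      have h6 := hdeg' u₀ hu₀T
      have h7 := hdegsep v₀ u₀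
      omega
    have h5 : ((sC G T v₀ u₀).card : ℝ) ≤ 2 * D := by exact_mod_cast h4
    linarith
  -- the first stage
  obtain ⟨s, hs⟩ := hNTOP T.card T.card D hD hnD hnp le_rfl
  obtain ⟨hconW, hiso⟩ := hCONT V G T B hT hcon hT2
  obtain ⟨X₁, hX₁T, hX₁, hX₁c⟩ := hTOPT V G T B C D s (200 * L ^ 2) hτ hCT hdeg' hiso hnp hTpos
  set low : Finset V := C.filter fun v => v ∉ B ∧
    ((T.filter fun w => G.Adj v w).card : ℝ) < 200 * L ^ 2 / 2 with hlow
  have hlowc : (low.card : ℝ) ≤ T.card / (800 * L) := by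
    have h0 := hNLOW T.card D hD hDT hnD hnp
    rw [← hL] at h0
    refine le_trans ?_ h0
    have hone : (1 : ℝ) ≤ (2 : ℝ) ^ ((200 * L ^ 2) ^ ((1 : ℝ) / 3) / 20) :=
      Real.one_le_rpow (by norm_num) (by positivity)
    by_cases hc : low.card ≤ 1
    · have : (low.card : ℝ) ≤ 1 := by exact_mod_cast hc
      linarith
    rw [not_le] at hc
    obtain ⟨v₁, hv₁, v₂, hv₂, h12⟩ := Finset.one_lt_card.mp hc
    have hv₁' := mem_filter.mp hv₁
    have h1 := fv_gb hGr hv₁'.1 hv₁'.2.1 hτ le_rfl (N := low) (fun u hu => by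
      have hu' := mem_filter.mp hu
      have h3 := hdegsep v₁ u
      have h4 : ((sC G T v₁ u).card : ℝ) ≤ ((T.filter fun w => G.Adj v₁ w).card : ℝ) +
        ((T.filter fun w => G.Adj u w).card : ℝ) := by exact_mod_cast h3
      have h5 := hv₁'.2.2
      have h6 := hu'.2.2
      have h7 : ((sC G T v₁ u).card : ℝ) < 200 * L ^ 2 := by linarith
      exact ⟨hCT hu'.1, hu'.2.1, h7, lt_of_le_of_lt (by exact_mod_cast hsC v₁ u) h7⟩)
      hv₂ (Ne.symm h12)
    refine le_trans ?_ h1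
    exact_mod_cast card_le_card (subset_Cls G _)
  have hX₁c' : (X₁.card : ℝ) ≤ T.card / (800 * L) + (T.card / (75 * L) - 1) := by
    rw [← hL] at hs
    linarith
  -- the vertices of `T` without neighbours in `B ∪ C`
  set U : Finset V := T.filter fun v => v ∉ B ∪ C ∧ ∀ w ∈ B ∪ C, ¬ G.Adj v w with hU
  have hUc : U.card ≤ 1 := by
    rw [card_le_one]
    intro u hu v hv
    by_contra huv
    rw [hU, mem_filter] at hu hv
    obtain ⟨w, hw, h⟩ := hloc u hu.1 hu.2.1 v hv.1 hv.2.1 huv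
    exact h ⟨fun h1 => absurd h1.symm (hu.2.2 w hw), fun h1 => absurd h1.symm (hv.2.2 w hw)⟩
  set D₁ : Finset V := insert a (B ∪ X₁ ∪ U) with hD₁
  have hD₁c : D₁.card ≤ B.card + X₁.card + 2 := by
    have h1 : D₁.card ≤ (B ∪ X₁ ∪ U).card + 1 := card_insert_le a _
    have h2 := card_union_le (B ∪ X₁) U
    have h3 := card_union_le B X₁
    omega
  have hBD : B ⊆ D₁ := fun w hw =>
    mem_insert_of_mem (mem_union_left _ (mem_union_left _ hw))
  have hXD : X₁ ⊆ D₁ := fun w hw =>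
    mem_insert_of_mem (mem_union_left _ (mem_union_right _ hw))
  have hDW : D₁ ⊆ T ∪ B := by
    intro w hw
    rw [hD₁, mem_insert, mem_union, mem_union] at hw
    rw [mem_union]
    rcases hw with rfl | (h | h) | h
    · exact Or.inl haT
    · exact Or.inr h
    · exact Or.inl (hX₁T h)
    · exact Or.inl (mem_filter.mp h).1
  have hdom : ∀ v ∈ T ∪ B, v ∈ D₁ ∨ (∃ w ∈ D₁, G.Adj v w) ∨
      ∃ w ∈ D₁, ∃ z ∈ T ∪ B, G.Adj v z ∧ G.Adj z w := by
    intro v hv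
    by_cases hvB : v ∈ B
    · exact Or.inl (hBD hvB)
    have hvT : v ∈ T := (mem_union.mp hv).resolve_right hvB
    by_cases hvC : v ∈ C
    · obtain ⟨w, hw, h⟩ := (hX₁ v hvC hvB).1
      exact Or.inr (Or.inl ⟨w, hXD hw, h⟩)
    have hvBC : v ∉ B ∪ C := by
      rw [mem_union, not_or]; exact ⟨hvB, hvC⟩
    by_cases h2 : ∀ w ∈ B ∪ C, ¬ G.Adj v w
    · exact Or.inl (mem_insert_of_mem (mem_union_right _ (mem_filter.mpr ⟨hvT, hvBC, h2⟩)))
    · push Not at h2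
      obtain ⟨w, hw, h⟩ := h2
      by_cases hwB : w ∈ B
      · exact Or.inr (Or.inl ⟨w, hBD hwB, h⟩)
      have hwC : w ∈ C := (mem_union.mp hw).resolve_left hwB
      obtain ⟨w', hw', h'⟩ := (hX₁ w hwC hwB).1
      exact Or.inr (Or.inr ⟨w', hXD hw', w, mem_union_left _ (hCT hwC), h, h'⟩)
  obtain ⟨X₀, hDX, hXW, hXcon, hXc⟩ := hCDST V G (T ∪ B) D₁ hconW ⟨a, mem_insert_self _ _⟩ hDW hdom
  have ha : a ∈ X₀ := hDX (mem_insert_self _ _)
  have hBX : B ⊆ X₀ := hBD.trans hDX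
  have hX₁X₀ : X₁ ⊆ X₀ := hXD.trans hDX
  have hc1 : 1 ≤ X₀.card := card_pos.mpr ⟨a, ha⟩
  have hc3 : (X₀.card : ℝ) ≤ 51 * T.card / (480 * L) + 1 := by
    have h1 : X₀.card + 4 ≤ 5 * B.card + 5 * X₁.card + 10 := by omega
    have h2 : (X₀.card : ℝ) + 4 ≤ 5 * B.card + 5 * X₁.card + 10 := by exact_mod_cast h1
    have hl0 : L ≠ 0 := hL0.ne'
    have h3 : (5 : ℝ) * (T.card / (150 * L) + T.card / (800 * L) + T.card / (75 * L)) =
        51 * T.card / (480 * L) := by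
      field_simp
      norm_num
    linarith
  have hCl : ClT G T X₀ := by
    intro u hu t ht hut
    by_cases huB : u ∈ B
    · exact hBX (hBt u huB t hut)
    · have huT : u ∈ T := (mem_union.mp (hXW hu)).resolve_right huB
      rw [← hT.2 u huT t ht hut]
      exact hu
  have hP₀ : Prp G T B C (200 * L ^ 2) (200 * L ^ 2) X₀ := by
    intro v hv hvB u hu huB huv h
    have h1 : ((sC G T v u).card : ℝ) < 200 * L ^ 2 := by
      by_contra hge
      rw [not_lt] at hge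
      obtain ⟨w, hw, hwu, hwv, hadj⟩ := (hX₁ v hv hvB).2 u hu huB huv hge
      exact hadj (h w (hX₁X₀ hw) hwu hwv)
    exact ⟨h1, lt_of_le_of_lt (by exact_mod_cast hsC v u) h1⟩
  -- the stages
  obtain ⟨Xc, c, hX₀c, hPc, hcc, hRC, hc0, hcA⟩ := fv_stages hSTGT hNST hNPOW hT hCT hBt hGr hBX
    hL0 hTpos hP₀ 0
  have hBXc : B ⊆ Xc := hBX.trans hX₀c
  have hstr : ∀ v ∈ C, v ∉ B → ∀ u ∈ T, u ∉ B → u ≠ v →
      ∃ w ∈ Xc, w ≠ u ∧ w ≠ v ∧ ¬(G.Adj w u ↔ G.Adj w v) := by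
    intro v hv hvB u hu huB huv
    by_contra hns
    push Not at hns
    obtain ⟨h1, h2⟩ := hPc v hv hvB u hu huB huv hns
    have hr : ((sC G C v u).card : ℝ) < 200 * L ^ 2 :=
      lt_of_le_of_lt (by exact_mod_cast hsC v u) h1
    have huN : u ∈ Nr G T B C (200 * L ^ 2) v (sC G C v u).card :=
      mem_filter.mpr ⟨hu, huB, h1, le_rfl⟩
    have hvN : v ∈ Nr G T B C (200 * L ^ 2) v (sC G C v u).card := self_mem_Nr (hCT hv) hvB hτ _
    rcases hGr v hv hvB (sC G C v u).card hr with h3 | h3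
    · rw [h3, mem_singleton] at huN
      exact huv huN
    · have h4 : (2 : ℝ) ≤ ((Cls G (Nr G T B C (200 * L ^ 2) v (sC G C v u).card)).card : ℝ) := by
        have h5 : 1 < (Cls G (Nr G T B C (200 * L ^ 2) v (sC G C v u).card)).card :=
          Finset.one_lt_card.mpr ⟨u, subset_Cls G _ huN, v, subset_Cls G _ hvN, huv⟩
        exact_mod_cast h5
      have h6 : ((sC G C v u).card : ℝ) ^ ((1 : ℝ) / 3) < 20 * 2 ^ 0 := by
        rw [← fu_third 0]
        exact Real.rpow_lt_rpow (Nat.cast_nonneg _) h2 (by norm_num)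
      have h7 : (2 : ℝ) ^ (((sC G C v u).card : ℝ) ^ ((1 : ℝ) / 3) / 20) < (2 : ℝ) ^ (1 : ℝ) := by
        apply Real.rpow_lt_rpow_of_exponent_lt (by norm_num)
        linarith
      rw [Real.rpow_one] at h7
      linarith
  have huni : ∀ x ∈ C, x ∉ B → UniT G Xc x := fun x hx hxB =>
    fv_uni hT hBt hBXc (fun u hu huB hux => hstr x hx hxB u hu huB hux)
  obtain ⟨P, hPC, hPcd, hPl⟩ := hBONT V G T B C Xc hCT hBXc hloc
  have hRX : RC G T X₀ T.card (Xc ∪ P) c := rc_free hRC P fun x hx => by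
    have h1 := mem_sdiff.mp (hPC hx)
    exact ⟨h1.2, hCT h1.1, huni x h1.1 (fun h => h1.2 (hBXc h))⟩
  set X := Xc ∪ P with hXdef
  have hXcX : Xc ⊆ X := subset_union_left
  have hrep : ∀ u, u ∉ X → ∃ t ∈ T, Tw G u t ∧ t ∉ B := by
    intro u hu
    obtain ⟨t, ht, hut⟩ := hT.1 u
    exact ⟨t, ht, hut, fun h => hu (hXcX (hBXc (hBt t h u hut.symm)))⟩
  have hLo : LocT G X := by
    intro u hu v hv huv
    obtain ⟨t, ht, hut, htB⟩ := hrep u hu
    obtain ⟨r, hr, hvr, hrB⟩ := hrep v hv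
    have htr : t ≠ r := fun h => huv (hut.trans (h ▸ hvr.symm))
    have hfin : ∀ w ∈ X, w ≠ t → w ≠ r → ¬(G.Adj w t ↔ G.Adj w r) →
        ∃ w ∈ X, ¬(G.Adj w u ↔ G.Adj w v) := by
      intro w hw hwt hwr hadj
      have h1 : G.Adj w u ↔ G.Adj w t := hut w (fun h => hu (h ▸ hw)) hwt
      have h2 : G.Adj w v ↔ G.Adj w r := hvr w (fun h => hv (h ▸ hw)) hwr
      exact ⟨w, hw, fun h => hadj (h1.symm.trans (h.trans h2))⟩
    by_cases htC : t ∈ C
    · obtain ⟨w, hw, hwr, hwt, hadj⟩ := hstr t htC htB r hr hrB (Ne.symm htr)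
      exact hfin w (hXcX hw) hwt hwr (fun h => hadj h.symm)
    by_cases hrC : r ∈ C
    · obtain ⟨w, hw, hwt, hwr, hadj⟩ := hstr r hrC hrB t ht htB htr
      exact hfin w (hXcX hw) hwt hwr hadj
    have htBC : t ∉ B ∪ C := by rw [mem_union, not_or]; exact ⟨htB, htC⟩
    have hrBC : r ∉ B ∪ C := by rw [mem_union, not_or]; exact ⟨hrB, hrC⟩
    obtain ⟨w, hw, hwBC, hadj⟩ := hPl t ht htBC r hr hrBC htr
    exact hfin w hw (fun h => htBC (h ▸ hwBC)) (fun h => hrBC (h ▸ hwBC)) hadj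
  -- the count
  by_contra hno
  set m := (T \ X).card with hm
  have hmp : m ≤ T.card := card_le_card sdiff_subset
  have hcB : T.card ≤ 2 * m + 2 * Xc.card := by
    have h1 : T.card ≤ (T \ X).card + X.card := by
      have h3 := Finset.card_le_card (show T ⊆ (T \ X) ∪ X from by
        intro x hx
        rw [mem_union, mem_sdiff]
        by_cases h : x ∈ X
        · exact Or.inr h
        · exact Or.inl ⟨hx, h⟩)
      exact h3.trans (card_union_le _ _)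
    have h2 : X.card ≤ Xc.card + P.card := card_union_le _ _
    omega
  obtain ⟨R, hRc, hR⟩ := hREPT V G D a b T X₀ hT ha hXcon hdeg
  have hfin := hNFI2 T.card D X₀.card Xc.card m hD hnD hnp hc1 hc3 (by simpa using hcc) hmp hcB
  have hcA' : c ≤ (2 : ℝ) ^ ((T.card : ℝ) * (19 / 432)) := by
    have h2 : Sx 0 = 19 / 432 := by unfold Sx; norm_num
    rwa [h2] at hcA
  set A : ℝ := (2 : ℝ) ^ ((T.card : ℝ) * (19 / 432)) with hA
  have h5m : (5 : ℝ) ^ m ≤ (m + 1) * (2 * (D : ℝ) ^ (X₀.card - 1) * A * 4 ^ m) := by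
    have h2 : (5 : ℝ) ^ m = ∑ k ∈ range (m + 1), 1 ^ k * 4 ^ (m - k) * (m.choose k : ℝ) := by
      have h := add_pow (1 : ℝ) 4 m
      rw [← h]; norm_num
    rw [h2]
    have h3 : ∀ k ∈ range (m + 1), (1 : ℝ) ^ k * 4 ^ (m - k) * (m.choose k : ℝ) ≤
        2 * (D : ℝ) ^ (X₀.card - 1) * A * 4 ^ m := by
      intro k hk
      rw [mem_range] at hk
      have hk' : k ≤ m := by omega
      have hkT : (k : ℝ) ≤ T.card := by exact_mod_cast hk'.trans hmp
      have h4 := hMAINU V G a b T X₀ X k (4 ^ k * c) hT ha (hX₀c.trans hXcX) hH hno hk'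
        (by positivity) (fun g hg => hCNTU V G T X₀ X k T.card c hT hCl hRX hLo hkT g hg) R hR
      have h5 : (R.card : ℝ) ≤ 2 * (D : ℝ) ^ (X₀.card - 1) := by exact_mod_cast hRc
      have h6 : (m.choose k : ℝ) ≤ 4 ^ k * A * (2 * (D : ℝ) ^ (X₀.card - 1)) := by
        refine h4.trans (mul_le_mul (mul_le_mul_of_nonneg_left hcA' (by positivity)) h5
          (Nat.cast_nonneg _) (by positivity))
      calc (1 : ℝ) ^ k * 4 ^ (m - k) * (m.choose k : ℝ)
          ≤ 1 ^ k * 4 ^ (m - k) * (4 ^ k * A * (2 * (D : ℝ) ^ (X₀.card - 1))) :=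
            mul_le_mul_of_nonneg_left h6 (by positivity)
        _ = 2 * (D : ℝ) ^ (X₀.card - 1) * A * (4 ^ (m - k) * 4 ^ k) := by rw [one_pow]; ring
        _ = 2 * (D : ℝ) ^ (X₀.card - 1) * A * 4 ^ m := by rw [← pow_add, Nat.sub_add_cancel hk']
    refine (sum_le_card_nsmul _ _ _ h3).trans ?_
    rw [card_range, nsmul_eq_mul]
    push_cast
    exact le_rfl
  have h9 : (m + 1 : ℝ) * (2 * (D : ℝ) ^ (X₀.card - 1) * A * 4 ^ m) =
      2 * (D : ℝ) ^ (X₀.card - 1) * A * (m + 1) * 4 ^ m := by ring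
  rw [h9] at h5m
  exact absurd hfin (not_lt.mpr h5m)

/-- the master theorem with twins and near twins -/
theorem finV (hMAINU : SpecMAINU) (hCNTU : SpecCNTU) (hREPT : SpecREPT) (hTOPT : SpecTOPT)
    (hSTGT : SpecSTGT) (hBONT : SpecBONT) (hNFI2 : SpecNFI2) (hNTOP : SpecNTOP)
    (hNLOW : SpecNLOW) (hNUM1 : SpecNUM1) (hNST : SpecNST) (hNPOW : SpecNPOW)
    (hCONT : SpecCONT) (hCDST : SpecCDST) (hH2T : SpecH2T) (hDIS : SpecDIS)
    {V : Type} [Fintype V] {G : SimpleGraph V} {a b : V} (hH : H2 G a b)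
    (T B C : Finset V) (D : ℕ) (hT : Trv G T) (hCT : C ⊆ T)
    (hBt : ∀ u ∈ B, ∀ v, Tw G u v → v ∈ B) (hD : 2 ≤ D)
    (hdeg : ∀ v ∈ T, (T.filter fun w => G.Adj v w).card < D)
    (hB : (B.card : ℝ) ≤ T.card / (150 * Real.logb 2 D)) (hne : ∃ v ∈ C, v ∉ B)
    (hGr : GrT G T B C (Real.logb 2 D))
    (hloc : ∀ u ∈ T, u ∉ B ∪ C → ∀ v ∈ T, v ∉ B ∪ C → u ≠ v →
      ∃ w ∈ B ∪ C, ¬(G.Adj w u ↔ G.Adj w v)) :
    ∃ φ : G ≃g G, φ a = b := by
  by_cases hcon : G.Connected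
  swap
  · exact hDIS V G a b hcon hH
  by_cases hab : Tw G a b
  · exact ⟨twSwap hab, twSwap_left hab⟩
  obtain ⟨a', ha'T, haa'⟩ := hT.1 a
  have hT2 : 2 ≤ T.card := by
    obtain ⟨b', hb'T, hbb'⟩ := hT.1 b
    have h1 : a' ≠ b' := fun h => hab (haa'.trans (h ▸ hbb'.symm))
    exact Finset.one_lt_card.mpr ⟨a', ha'T, b', hb'T, h1⟩
  have hH' := hH2T V G a a' b haa' hH
  obtain ⟨φ, hφ⟩ : ∃ φ : G ≃g G, φ a' = b := by
    by_cases hDT : D ≤ T.card
    · exact finV' hMAINU hCNTU hREPT hTOPT hSTGT hBONT hNFI2 hNTOP hNLOW hNUM1 hNST hNPOW hCONT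
        hCDST hH' hcon T B C D hT ha'T hT2 hCT hBt hD hDT hdeg hB hne hGr hloc
    rw [not_le] at hDT
    have hp2 : (2 : ℝ) ≤ T.card := by exact_mod_cast hT2
    have hl1 : 1 ≤ Real.logb 2 T.card := fin_logb hT2
    have hll : Real.logb 2 T.card ≤ Real.logb 2 D :=
      Real.logb_le_logb_of_le (by norm_num) (by linarith) (by exact_mod_cast hDT.le)
    have hsq : Real.logb 2 T.card ^ 2 ≤ Real.logb 2 D ^ 2 :=
      pow_le_pow_left₀ (by linarith) hll 2
    refine finV' hMAINU hCNTU hREPT hTOPT hSTGT hBONT hNFI2 hNTOP hNLOW hNUM1 hNST hNPOW hCONT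
      hCDST hH' hcon T B C T.card hT ha'T hT2 hCT hBt hT2 le_rfl ?_ ?_ hne ?_ hloc
    · intro v hv
      apply card_lt_card
      rw [Finset.ssubset_iff_of_subset (filter_subset _ _)]
      exact ⟨v, hv, fun h => G.loopless.irrefl v (mem_filter.mp h).2⟩
    · refine hB.trans ?_
      apply div_le_div_of_nonneg_left (by linarith) (by linarith)
      linarith
    · intro v hv hvB r hr
      have hsub : Nr G T B C (200 * Real.logb 2 T.card ^ 2) v r ⊆
          Nr G T B C (200 * Real.logb 2 D ^ 2) v r := by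
        intro u hu
        rw [Nr, mem_filter] at hu ⊢
        exact ⟨hu.1, hu.2.1, by linarith [hu.2.2.1], hu.2.2.2⟩
      rcases hGr v hv hvB r (by linarith) with h | h
      · left
        apply Finset.Subset.antisymm (h ▸ hsub)
        rw [singleton_subset_iff]
        exact self_mem_Nr (hCT hv) hvB (by positivity) r
      · right
        refine le_trans ?_ h
        have h2 : (Cls G (Nr G T B C (200 * Real.logb 2 T.card ^ 2) v r)).card ≤
            (Cls G (Nr G T B C (200 * Real.logb 2 D ^ 2) v r)).card := by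
          apply card_le_card
          intro x hx
          obtain ⟨u, hu, hxu⟩ := (mem_filter.mp hx).2
          exact mem_filter.mpr ⟨mem_univ _, u, hsub hu, hxu⟩
        exact_mod_cast h2
  refine ⟨(twSwap haa').trans φ, ?_⟩
  show φ (twSwap haa' a) = b
  rw [twSwap_left haa', hφ]

end Pool.Agent.Lib.MP50ecf8.LOC
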