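import Pool.Agent.Lib.MP_50ecf8_co.LOC.STRZ
import Pool.Agent.Lib.MP_50ecf8_co.LOC.FINV

/-!
# Separation linear in `log2 D`, twins allowed: assembly
-/

set_option autoImplicit false

open Finset
open scoped Classical

namespace Pool.Agent.Lib.MP50ecf8.LOC

/-- the part of `S` in `A`, as a set of elements of the type `A` -/
noncomputable def lft {V : Type} (A : Finset V) [Fintype ((A : Set V) : Type)] (S : Finset V) :
    Finset ((A : Set V) : Type) :=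
  univ.filter fun x => x.1 ∈ S

lemma mem_lft {V : Type} {A : Finset V} [Fintype ((A : Set V) : Type)] {S : Finset V}
    {x : ((A : Set V) : Type)} : x ∈ lft A S ↔ x.1 ∈ S := by
  simp [lft]

lemma image_lft {V : Type} {A : Finset V} [Fintype ((A : Set V) : Type)] {S : Finset V}
    (h : S ⊆ A) : (lft A S).image Subtype.val = S := by
  ext x
  rw [mem_image]
  constructor
  · rintro ⟨y, hy, rfl⟩
    exact mem_lft.mp hy
  · intro hx
    exact ⟨⟨x, mem_coe.mpr (h hx)⟩, mem_lft.mpr hx, rfl⟩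

lemma card_lft {V : Type} {A : Finset V} [Fintype ((A : Set V) : Type)] {S : Finset V}
    (h : S ⊆ A) : (lft A S).card = S.card := by
  rw [← card_image_of_injective _ Subtype.val_injective, image_lft h]

lemma card_im {V : Type} {A : Finset V} (S : Finset ((A : Set V) : Type)) :
    (S.image Subtype.val).card = S.card := card_image_of_injective _ Subtype.val_injective

lemma mem_un {U : Type} {S T : Finset U} {x : U} : x ∈ S ∪ T ↔ x ∈ S ∨ x ∈ T := mem_union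

lemma fz_inter {U V : Type} (f : U → V) (S T : Finset U) (S' : Finset V)
    (h : ∀ x ∈ S', ∃ y, y ∈ S ∧ y ∈ T ∧ f y = x) : S'.card ≤ (S ∩ T).card := by
  refine le_trans (card_le_card ?_) (card_image_le (s := S ∩ T) (f := f))
  intro x hx
  obtain ⟨y, h1, h2, h3⟩ := h x hx
  exact mem_image.mpr ⟨y, mem_inter.mpr ⟨h1, h2⟩, h3⟩

lemma mem_sep' {V : Type} [Fintype V] {G : SimpleGraph V} {u v w : V} :
    w ∈ sep G u v ↔ w ≠ u ∧ w ≠ v ∧ ¬(G.Adj w u ↔ G.Adj w v) := by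
  rw [sep, mem_filter]
  exact ⟨fun h => h.2, fun h => ⟨mem_univ _, h⟩⟩

/-- adding several located vertices -/
lemma rz_free {V : Type} [Fintype V] {G : SimpleGraph V} {T A X₀ Y : Finset V} {K c : ℝ}
    (hT : Trv G T) (hCl : ClT G T Y)
    (h : RZ G T A X₀ K Y c) (P : Finset V) (hP : ∀ x ∈ P, x ∉ Y ∧ x ∈ T ∧ UniT G Y x) :
    RZ G T A X₀ K (Y ∪ P) c ∧ ClT G T (Y ∪ P) := by
  induction P using Finset.induction_on with
  | empty => rw [union_empty]; exact ⟨h, hCl⟩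
  | @insert x P hx ih =>
    obtain ⟨h1, h1'⟩ := ih fun z hz => hP z (mem_insert_of_mem hz)
    obtain ⟨h2, h3, h4⟩ := hP x (mem_insert_self _ _)
    rw [union_insert]
    refine ⟨RZ.free h1 ?_ h3 h1' (uniT_mono subset_union_left h4), ?_⟩
    · rw [mem_union, not_or]
      exact ⟨h2, hx⟩
    · intro u hu t ht hut
      rcases mem_insert.mp hu with h5 | h5
      · rw [h5] at hut
        rw [← hT.2 x h3 t ht hut]
        exact mem_insert_self _ _
      · exact mem_insert_of_mem (h1' u h5 t ht hut)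

/-- the case of a connected graph and `a ∈ T` -/
theorem finZ' (hSTR : ∀ {V : Type} [Fintype V] {G : SimpleGraph V} (a : V)
    (_ : 2 ≤ Fintype.card V) (B C W : Finset V)
    (D : ℕ) (_ : 2 ≤ D) (_ : W ⊆ C) (_ : ∀ w ∈ W, deg G w ≤ D)
    (_ : (G.induce (W : Set V)).Connected)
    (_ : (B.card : ℝ) ≤ W.card / (1000 * Real.logb 2 D))
    (_ : ∀ v ∈ B, v ∉ W → ∃ w ∈ W, G.Adj v w)
    (_ : ∀ v ∈ C, v ∉ B → ∀ u, u ∉ B → u ≠ v →
      100000 * Real.logb 2 D ≤ (((sep G v u) ∩ W).card : ℝ)),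
    50000 * Real.logb 2 D ≤ (D : ℝ) ∧ 100000 * Real.logb 2 D ≤ (Fintype.card V : ℝ) ∧
    ∃ (Xc P : Finset V) (c : ℝ), CH G {a} Xc c ∧ 0 ≤ c ∧
      c ≤ (2 : ℝ) ^ ((Fintype.card V : ℝ) * (112 / 1000)) ∧ a ∈ Xc ∧ B ⊆ Xc ∧ P ⊆ W ∧
      (Xc.card : ℝ) ≤ Fintype.card V / 100 ∧ (P.card : ℝ) ≤ Fintype.card V / 10000 ∧
      (∀ v ∈ C, v ∉ Xc → ∀ u, u ∉ B → u ≠ v →
        ∃ w ∈ Xc, w ≠ u ∧ w ≠ v ∧ ¬(G.Adj w u ↔ G.Adj w v)) ∧
      ∀ v ∈ C, v ∉ B → ∀ u, u ∉ B → u ≠ v →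
        ∃ w ∈ Xc ∪ P, w ≠ u ∧ w ≠ v ∧ ¬(G.Adj w u ↔ G.Adj w v))
    (hTRZ : SpecTRZ) (hCNTZ : SpecCNTZ) (hMAINU : SpecMAINU) (hBONT : SpecBONT)
    (hNUFZ : SpecNUFZ)
    {V : Type} [Fintype V] {G : SimpleGraph V} {a b : V} (hH : H2 G a b)
    (T B C W : Finset V) (D : ℕ) (hT : Trv G T) (haT : a ∈ T) (hT2 : 2 ≤ T.card) (hCT : C ⊆ T)
    (hWC : W ⊆ C) (hBt : ∀ u ∈ B, ∀ v, Tw G u v → v ∈ B) (hD : 2 ≤ D)
    (hdeg : ∀ w ∈ W, ((T ∪ B).filter fun x => G.Adj w x).card ≤ D)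
    (hWc : (G.induce (W : Set V)).Connected)
    (hB : (B.card : ℝ) ≤ W.card / (1000 * Real.logb 2 D))
    (hBW : ∀ v ∈ B, v ∉ W → ∃ w ∈ W, G.Adj v w)
    (hsep : ∀ v ∈ C, v ∉ B → ∀ u ∈ T, u ∉ B → u ≠ v →
      100000 * Real.logb 2 D ≤ (((sep G v u) ∩ W).card : ℝ))
    (hloc : ∀ u ∈ T, u ∉ B ∪ C → ∀ v ∈ T, v ∉ B ∪ C → u ≠ v →
      ∃ w ∈ B ∪ C, ¬(G.Adj w u ↔ G.Adj w v)) :
    ∃ φ : G ≃g G, φ a = b := by
  set A : Finset V := T ∪ B with hA
  have hTA : T ⊆ A := subset_union_left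
  have hBA : B ⊆ A := subset_union_right
  have hCA : C ⊆ A := hCT.trans hTA
  have hWA : W ⊆ A := hWC.trans hCA
  set H : SimpleGraph ((A : Set V) : Type) := G.induce (A : Set V) with hHdef
  have hcA : Fintype.card ((A : Set V) : Type) = A.card := by
    rw [← card_univ, ← card_im (univ : Finset ((A : Set V) : Type))]
    congr 1
    ext x
    rw [mem_image]
    constructor
    · rintro ⟨y, -, rfl⟩
      exact mem_coe.mp y.2
    · intro hx
      exact ⟨⟨x, mem_coe.mpr hx⟩, mem_univ _, rfl⟩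
  have haA : a ∈ A := hTA haT
  have hTcA : T.card ≤ A.card := card_le_card hTA
  obtain ⟨hnD, hnp, Xc₁, P₁, c, hCH, hc0, hcc, haX, hBX, hPW, hXcc, hPc, hs1, hs2⟩ :=
    hSTR (G := H) ⟨a, mem_coe.mpr haA⟩ (by rw [hcA]; omega) (lft A B) (lft A C) (lft A W) D hD
      (fun x hx => mem_lft.mpr (hWC (mem_lft.mp hx))) (by
        intro w hw
        refine le_trans ?_ (hdeg w.1 (mem_lft.mp hw))
        rw [deg, ← card_im]
        apply card_le_card
        intro x hx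
        obtain ⟨y, hy, rfl⟩ := mem_image.mp hx
        exact mem_filter.mpr ⟨mem_coe.mp y.2, (mem_filter.mp hy).2⟩) (by
        let f : (G.induce (W : Set V)) →g (H.induce ((lft A W : Finset ((A : Set V) : Type)) :
            Set ((A : Set V) : Type))) :=
          { toFun := fun x => ⟨⟨x.1, mem_coe.mpr (hWA (mem_coe.mp x.2))⟩,
              mem_coe.mpr (mem_lft.mpr (mem_coe.mp x.2))⟩
            map_rel' := fun {x y} hxy => hxy }
        have hf : Function.Surjective f := by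
          rintro ⟨y, hy⟩
          exact ⟨⟨y.1, mem_coe.mpr (mem_lft.mp (mem_coe.mp hy))⟩, rfl⟩
        exact hWc.map f hf) (by rw [card_lft hBA, card_lft hWA]; exact hB) (by
        intro v hv hvW
        obtain ⟨w, hw, hvw⟩ := hBW v.1 (mem_lft.mp hv) (fun h => hvW (mem_lft.mpr h))
        exact ⟨⟨w, mem_coe.mpr (hWA hw)⟩, mem_lft.mpr hw, hvw⟩) (by
        intro v hv hvB u hu huv
        have huT : u.1 ∈ T := (mem_union.mp (mem_coe.mp u.2)).resolve_right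
          (fun h => hu (mem_lft.mpr h))
        have h1 := hsep v.1 (mem_lft.mp hv) (fun h => hvB (mem_lft.mpr h)) u.1 huT
          (fun h => hu (mem_lft.mpr h)) (fun h => huv (Subtype.ext h))
        refine h1.trans ?_
        have h2 := fz_inter (Subtype.val : ((A : Set V) : Type) → V) (sep H v u) (lft A W)
          (sep G v.1 u.1 ∩ W) (by
            intro w hw
            obtain ⟨hw1, hwW⟩ := mem_inter.mp hw
            obtain ⟨hw2, hw3, hw4⟩ := mem_sep'.mp hw1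
            exact ⟨⟨w, mem_coe.mpr (hWA hwW)⟩, mem_sep'.mpr ⟨fun h => hw2 (congrArg Subtype.val h),
              fun h => hw3 (congrArg Subtype.val h), hw4⟩, mem_lft.mpr hwW, rfl⟩)
        exact_mod_cast h2)
  rw [hcA] at hnp hcc hXcc hPc
  set Xc : Finset V := Xc₁.image Subtype.val with hXc
  set P : Finset V := P₁.image Subtype.val with hP
  have hRZ := hTRZ V G T A {⟨a, mem_coe.mpr haA⟩} Xc₁ c hCH
  rw [image_singleton] at hRZ
  have hXcA : Xc ⊆ A := by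
    intro x hx
    obtain ⟨y, -, rfl⟩ := mem_image.mp hx
    exact mem_coe.mp y.2
  have hPW' : P ⊆ W := by
    intro x hx
    obtain ⟨y, hy, rfl⟩ := mem_image.mp hx
    exact mem_lft.mp (hPW hy)
  have hBXc : B ⊆ Xc := by
    intro x hx
    exact mem_image.mpr ⟨⟨x, mem_coe.mpr (hBA hx)⟩, hBX (mem_lft.mpr hx), rfl⟩
  have haXc : a ∈ Xc := mem_image.mpr ⟨_, haX, rfl⟩
  have hXcc' : (Xc.card : ℝ) ≤ A.card / 100 := by rw [hXc, card_im]; exact hXcc
  have hPc' : (P.card : ℝ) ≤ A.card / 10000 := by rw [hP, card_im]; exact hPc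
  have hClX : ClT G T Xc := by
    intro u hu t ht hut
    by_cases huB : u ∈ B
    · exact hBXc (hBt u huB t hut)
    · have huT : u ∈ T := (mem_union.mp (hXcA hu)).resolve_right huB
      rw [← hT.2 u huT t ht hut]
      exact hu
  have hs1' : ∀ v ∈ C, v ∉ Xc → ∀ u ∈ T, u ∉ B → u ≠ v →
      ∃ w ∈ Xc, w ≠ u ∧ w ≠ v ∧ ¬(G.Adj w u ↔ G.Adj w v) := by
    intro v hv hvX u hu huB huv
    obtain ⟨w, hw, hwu, hwv, hadj⟩ := hs1 ⟨v, mem_coe.mpr (hCA hv)⟩ (mem_lft.mpr hv)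
      (fun h => hvX (mem_image.mpr ⟨_, h, rfl⟩)) ⟨u, mem_coe.mpr (hTA hu)⟩
      (fun h => huB (mem_lft.mp h)) (fun h => huv (congrArg Subtype.val h))
    exact ⟨w.1, mem_image.mpr ⟨w, hw, rfl⟩, fun h => hwu (Subtype.ext h),
      fun h => hwv (Subtype.ext h), hadj⟩
  have hs2' : ∀ v ∈ C, v ∉ B → ∀ u ∈ T, u ∉ B → u ≠ v →
      ∃ w ∈ Xc ∪ P, w ≠ u ∧ w ≠ v ∧ ¬(G.Adj w u ↔ G.Adj w v) := by
    intro v hv hvB u hu huB huv
    obtain ⟨w, hw, hwu, hwv, hadj⟩ := hs2 ⟨v, mem_coe.mpr (hCA hv)⟩ (mem_lft.mpr hv)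
      (fun h => hvB (mem_lft.mp h)) ⟨u, mem_coe.mpr (hTA hu)⟩
      (fun h => huB (mem_lft.mp h)) (fun h => huv (congrArg Subtype.val h))
    refine ⟨w.1, ?_, fun h => hwu (Subtype.ext h), fun h => hwv (Subtype.ext h), hadj⟩
    rcases mem_un.mp hw with h | h
    · exact mem_union_left _ (mem_image.mpr ⟨w, h, rfl⟩)
    · exact mem_union_right _ (mem_image.mpr ⟨w, h, rfl⟩)
  -- the free vertices
  obtain ⟨hRZ1, hCl1⟩ := rz_free hT hClX hRZ (P \ Xc) (by
    intro x hx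
    obtain ⟨hxP, hxX⟩ := mem_sdiff.mp hx
    have hxC : x ∈ C := hWC (hPW' hxP)
    exact ⟨hxX, hCT hxC, fv_uni hT hBt hBXc (fun u hu huB hux => hs1' x hxC hxX u hu huB hux)⟩)
  rw [union_sdiff_self_eq_union] at hRZ1 hCl1
  set Y : Finset V := Xc ∪ P with hY
  have hBY : B ⊆ Y := hBXc.trans subset_union_left
  obtain ⟨P₂, hPC, hPcd, hPl⟩ := hBONT V G T B C Y hCT hBY hloc
  obtain ⟨hRX, hClX2⟩ := rz_free hT hCl1 hRZ1 P₂ (by
    intro x hx
    obtain ⟨hxC, hxY⟩ := mem_sdiff.mp (hPC hx)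
    exact ⟨hxY, hCT hxC, fv_uni hT hBt hBY (fun u hu huB hux =>
      hs2' x hxC (fun h => hxY (hBY h)) u hu huB hux)⟩)
  set X := Y ∪ P₂ with hXdef
  have hYX : Y ⊆ X := subset_union_left
  have haX' : a ∈ X := hYX (mem_union_left _ haXc)
  have hrep : ∀ u, u ∉ X → ∃ t ∈ T, Tw G u t ∧ t ∉ B := by
    intro u hu
    obtain ⟨t, ht, hut⟩ := hT.1 u
    exact ⟨t, ht, hut, fun h => hu (hYX (hBY (hBt t h u hut.symm)))⟩
  have hLo : LocT G X := by
    intro u hu v hv huv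
    obtain ⟨t, ht, hut, htB⟩ := hrep u hu
    obtain ⟨r, hr, hvr, hrB⟩ := hrep v hv
    have htr : t ≠ r := fun h => huv (hut.trans (h ▸ hvr.symm))
    have hfin : ∀ w ∈ X, w ≠ t → w ≠ r → ¬(G.Adj w t ↔ G.Adj w r) →
        ∃ w ∈ X, ¬(G.Adj w u ↔ G.Adj w v) := by
      intro w hw hwt hwr hadj
      have h1 : G.Adj w u ↔ G.Adj w t := hut w (fun h => hu (h ▸ hw)) hwt
      have h2 : G.Adj w v ↔ G.Adj w r := hvr w (fun h => hv (h ▸ hw)) hwr
      exact ⟨w, hw, fun h => hadj (h1.symm.trans (h.trans h2))⟩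
    by_cases htC : t ∈ C
    · obtain ⟨w, hw, hwr, hwt, hadj⟩ := hs2' t htC htB r hr hrB (Ne.symm htr)
      exact hfin w (hYX hw) hwt hwr (fun h => hadj h.symm)
    by_cases hrC : r ∈ C
    · obtain ⟨w, hw, hwt, hwr, hadj⟩ := hs2' r hrC hrB t ht htB htr
      exact hfin w (hYX hw) hwt hwr hadj
    have htBC : t ∉ B ∪ C := by rw [mem_union, not_or]; exact ⟨htB, htC⟩
    have hrBC : r ∉ B ∪ C := by rw [mem_union, not_or]; exact ⟨hrB, hrC⟩
    obtain ⟨w, hw, hwBC, hadj⟩ := hPl t ht htBC r hr hrBC htr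
    exact hfin w hw (fun h => htBC (h ▸ hwBC)) (fun h => hrBC (h ▸ hwBC)) hadj
  -- the count
  by_contra hno
  set m := (T \ X).card with hm
  have hmT : m ≤ T.card := card_le_card sdiff_subset
  have hmA : m ≤ A.card := hmT.trans hTcA
  have hcB : (A.card : ℝ) ≤ m + Xc.card + P.card + P₂.card := by
    have h1 : A.card ≤ (T \ X).card + X.card := by
      have h3 := Finset.card_le_card (show A ⊆ (T \ X) ∪ X from by
        intro x hx
        rw [mem_union, mem_sdiff]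
        by_cases h : x ∈ X
        · exact Or.inr h
        · left
          refine ⟨?_, h⟩
          exact (mem_union.mp hx).resolve_right (fun h' => h (hYX (hBY h'))))
      exact h3.trans (card_union_le _ _)
    have h2 : X.card ≤ Y.card + P₂.card := card_union_le _ _
    have h3 : Y.card ≤ Xc.card + P.card := card_union_le _ _
    have h4 : A.card ≤ m + Xc.card + P.card + P₂.card := by omega
    exact_mod_cast h4
  have hP2 : (2 : ℝ) * P₂.card ≤ A.card := by exact_mod_cast hPcd.trans hTcA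
  have h48 : 48 * A.card ≤ 100 * m := by
    have h1 : (48 : ℝ) * A.card ≤ 100 * m := by
      have h2 : (0 : ℝ) ≤ A.card := Nat.cast_nonneg _
      linarith
    exact_mod_cast h1
  have hfin := hNUFZ A.card D m hD hnD hnp hmA h48
  set R : Finset (Finset (V × V)) := {{(a, a)}, {(a, b)}} with hR
  have hRc : (R.card : ℝ) ≤ 2 := by exact_mod_cast card_le_two
  have hRr : ∀ I : Finset (V × V), Good G I → I.image Prod.fst = {a} →
      ((a, a) ∈ I ∨ (a, b) ∈ I) →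
        ∃ I₀ ∈ R, ∃ φ : G ≃g G, I = I₀.image fun u => (u.1, φ u.2) := by
    intro I hI hIa hab
    have h1 : ∀ y, (a, y) ∈ I → I = {(a, y)} := by
      intro y hy
      apply eq_singleton_iff_unique_mem.mpr
      refine ⟨hy, ?_⟩
      intro u hu
      have h2 : u.1 = a := by
        have h3 : u.1 ∈ I.image Prod.fst := mem_image_of_mem _ hu
        rw [hIa, mem_singleton] at h3
        exact h3
      have h4 : u.2 = y := (hI u hu (a, y) hy).1.mp h2
      exact Prod.ext h2 h4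
    have h5 : ∀ J : Finset (V × V), (J.image fun u => (u.1, (RelIso.refl G.Adj : G ≃g G) u.2)) = J := by
      intro J
      ext u
      simp
    rcases hab with h | h
    · refine ⟨{(a, a)}, by simp [hR], RelIso.refl _, ?_⟩
      rw [h5]; exact h1 a h
    · refine ⟨{(a, b)}, by simp [hR], RelIso.refl _, ?_⟩
      rw [h5]; exact h1 b h
  have h5m : (5 : ℝ) ^ m ≤ (m + 1) * (2 * (2 : ℝ) ^ ((A.card : ℝ) * (112 / 1000)) * 4 ^ m) := by
    have h2 : (5 : ℝ) ^ m = ∑ k ∈ range (m + 1), 1 ^ k * 4 ^ (m - k) * (m.choose k : ℝ) := by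
      have h := add_pow (1 : ℝ) 4 m
      rw [← h]; norm_num
    rw [h2]
    have h3 : ∀ k ∈ range (m + 1), (1 : ℝ) ^ k * 4 ^ (m - k) * (m.choose k : ℝ) ≤
        2 * (2 : ℝ) ^ ((A.card : ℝ) * (112 / 1000)) * 4 ^ m := by
      intro k hk
      rw [mem_range] at hk
      have hk' : k ≤ m := by omega
      have h4 := hMAINU V G a b T {a} X k (4 ^ k * c) hT (mem_singleton_self a)
        (singleton_subset_iff.mpr haX') hH hno hk' (by positivity)
        (fun g hg => hCNTZ V G T A {a} X k A.card c hT hRX hClX2 hLo (by exact_mod_cast hTcA) g hg)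
        R hRr
      have h6 : (m.choose k : ℝ) ≤
          4 ^ k * (2 : ℝ) ^ ((A.card : ℝ) * (112 / 1000)) * 2 := by
        refine h4.trans (mul_le_mul (mul_le_mul_of_nonneg_left hcc (by positivity)) hRc
          (Nat.cast_nonneg _) (by positivity))
      calc (1 : ℝ) ^ k * 4 ^ (m - k) * (m.choose k : ℝ)
          ≤ 1 ^ k * 4 ^ (m - k) * (4 ^ k * (2 : ℝ) ^ ((A.card : ℝ) * (112 / 1000)) * 2) :=
            mul_le_mul_of_nonneg_left h6 (by positivity)
        _ = 2 * (2 : ℝ) ^ ((A.card : ℝ) * (112 / 1000)) * (4 ^ (m - k) * 4 ^ k) := by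
            rw [one_pow]; ring
        _ = 2 * (2 : ℝ) ^ ((A.card : ℝ) * (112 / 1000)) * 4 ^ m := by
            rw [← pow_add, Nat.sub_add_cancel hk']
    refine (sum_le_card_nsmul _ _ _ h3).trans ?_
    rw [card_range, nsmul_eq_mul]
    push_cast
    exact le_rfl
  have h9 : (m + 1 : ℝ) * (2 * (2 : ℝ) ^ ((A.card : ℝ) * (112 / 1000)) * 4 ^ m) =
      2 * (2 : ℝ) ^ ((A.card : ℝ) * (112 / 1000)) * (m + 1) * 4 ^ m := by ring
  rw [h9] at h5m
  exact absurd hfin (not_lt.mpr h5m)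

/-- the theorem with twins -/
theorem finZ (hITY : SpecITY) (hPHIY : SpecPHIY) (hFSTT : SpecFSTT) (hFREE : SpecFREE)
    (hNETY : SpecNETY) (hPCMX : SpecPCMX) (hCHNY : SpecCHNY) (hNUSX : SpecNUSX)
    (hNUNY : SpecNUNY) (hNUTZ : SpecNUTZ) (hNUPZ : SpecNUPZ) (hNUBY : SpecNUBY)
    (hCDST : SpecCDST) (hTRZ : SpecTRZ) (hCNTZ : SpecCNTZ) (hMAINU : SpecMAINU)
    (hBONT : SpecBONT) (hNUFZ : SpecNUFZ) (hCONT : SpecCONT) (hH2T : SpecH2T) (hDIS : SpecDIS)
    {V : Type} [Fintype V] {G : SimpleGraph V} {a b : V} (hH : H2 G a b)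
    (T B C W : Finset V) (D : ℕ) (hT : Trv G T) (hCT : C ⊆ T)
    (hWC : W ⊆ C) (hBt : ∀ u ∈ B, ∀ v, Tw G u v → v ∈ B) (hD : 2 ≤ D)
    (hdeg : ∀ w ∈ W, ((T ∪ B).filter fun x => G.Adj w x).card ≤ D)
    (hWcon : (G.induce (W : Set V)).Connected ∨ W = T)
    (hB : (B.card : ℝ) ≤ W.card / (1000 * Real.logb 2 D))
    (hBW : ∀ v ∈ B, v ∉ W → ∃ w ∈ W, G.Adj v w)
    (hsep : ∀ v ∈ C, v ∉ B → ∀ u ∈ T, u ∉ B → u ≠ v →
      100000 * Real.logb 2 D ≤ (((sep G v u) ∩ W).card : ℝ))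
    (hloc : ∀ u ∈ T, u ∉ B ∪ C → ∀ v ∈ T, v ∉ B ∪ C → u ≠ v →
      ∃ w ∈ B ∪ C, ¬(G.Adj w u ↔ G.Adj w v)) :
    ∃ φ : G ≃g G, φ a = b := by
  by_cases hcon : G.Connected
  swap
  · exact hDIS V G a b hcon hH
  by_cases hab : Tw G a b
  · exact ⟨twSwap hab, twSwap_left hab⟩
  obtain ⟨a', ha'T, haa'⟩ := hT.1 a
  have hT2 : 2 ≤ T.card := by
    obtain ⟨b', hb'T, hbb'⟩ := hT.1 b
    have h1 : a' ≠ b' := fun h => hab (haa'.trans (h ▸ hbb'.symm))
    exact Finset.one_lt_card.mpr ⟨a', ha'T, b', hb'T, h1⟩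
  have hWc : (G.induce (W : Set V)).Connected := by
    rcases hWcon with h | h
    · exact h
    · obtain ⟨h1, -⟩ := hCONT V G T ∅ hT hcon hT2
      rw [union_empty] at h1
      rw [h]; exact h1
  have hH' := hH2T V G a a' b haa' hH
  obtain ⟨φ, hφ⟩ : ∃ φ : G ≃g G, φ a' = b :=
    finZ' (fun {V} _ {G} a => strZ hITY hPHIY hFSTT hFREE hNETY hPCMX hCHNY hNUSX hNUNY hNUTZ
      hNUPZ hNUBY hCDST (V := V) (G := G) a) hTRZ hCNTZ hMAINU hBONT hNUFZ hH' T B C W D hT ha'T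
      hT2 hCT hWC hBt hD hdeg hWc hB hBW hsep hloc
  refine ⟨(twSwap haa').trans φ, ?_⟩
  show φ (twSwap haa' a) = b
  rw [twSwap_left haa', hφ]

end Pool.Agent.Lib.MP50ecf8.LOC
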