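import Pool.Agent.Lib.MP_50ecf8_co.LOC.Spec7
import Pool.Agent.Lib.MP_50ecf8_co.LOC.FIN
import Pool.Agent.Lib.MP_50ecf8_co.LOC.FINB

/-!
# Separation linear in `log2 D`: assembly
-/

set_option autoImplicit false

open Finset
open scoped Classical

namespace Pool.Agent.Lib.MP50ecf8.LOC

theorem finX (hITX : SpecITX) (hPHIX : SpecPHIX) (hFSTX : SpecFSTX) (hNETX : SpecNETX)
    (hPCMX : SpecPCMX) (hECNX : SpecECNX) (hNUSX : SpecNUSX) (hNUNX : SpecNUNX)
    (hNUTX : SpecNUTX) (hNUFX : SpecNUFX) (hMAINK : SpecMAINK) (hCDS2 : SpecCDS2)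
    (hDIS : SpecDIS)
    {V : Type} [Fintype V] {G : SimpleGraph V} {a b : V} (hH : H2 G a b) (B : Finset V) (D : ℕ)
    (hD : 2 ≤ D) (hdeg : ∀ v, deg G v ≤ D)
    (hB : (B.card : ℝ) ≤ Fintype.card V / (100 * Real.logb 2 D))
    (hsep : ∀ u, u ∉ B → ∀ v, v ∉ B → u ≠ v → 10000 * Real.logb 2 D ≤ ((sep G u v).card : ℝ)) :
    ∃ φ : G ≃g G, φ a = b := by
  rcases eq_or_ne a b with rfl | hab
  · exact ⟨RelIso.refl _, rfl⟩
  by_cases hcon : G.Connected
  swap
  · exact hDIS V G a b hcon hH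
  have hp : 2 ≤ Fintype.card V := Fintype.one_lt_card_iff.mpr ⟨a, b, hab⟩
  have hp' : (2 : ℝ) ≤ Fintype.card V := by exact_mod_cast hp
  have hl : 1 ≤ Real.logb 2 D := fin_logb hD
  set L := Real.logb 2 D with hL
  have hL0 : 0 < L := by linarith
  have ht0 : 0 < 10000 * L := by positivity
  -- two vertices outside `B`
  have hBp : (B.card : ℝ) ≤ Fintype.card V / 100 := by
    refine hB.trans ?_
    apply div_le_div_of_nonneg_left (by linarith) (by norm_num)
    linarith
  obtain ⟨u₀, hu₀, v₀, hv₀, huv₀⟩ : ∃ u, u ∉ B ∧ ∃ v, v ∉ B ∧ u ≠ v := by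
    have h1 : B.card + 1 < Fintype.card V := by
      have : (B.card : ℝ) + 1 < Fintype.card V := by linarith
      exact_mod_cast this
    have h2 : 1 < (univ \ B).card := by
      rw [card_sdiff_of_subset (subset_univ _), card_univ]; omega
    obtain ⟨u, hu, v, hv, huv⟩ := one_lt_card.mp h2
    exact ⟨u, (mem_sdiff.mp hu).2, v, (mem_sdiff.mp hv).2, huv⟩
  have hbig := hsep u₀ hu₀ v₀ hv₀ huv₀
  have hnp : 10000 * L ≤ (Fintype.card V : ℝ) :=
    hbig.trans (by exact_mod_cast card_le_univ (sep G u₀ v₀))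
  have hnD : 5000 * L ≤ (D : ℝ) := by
    have h4 := (fin_sep_deg G u₀ v₀).trans (Nat.add_le_add (hdeg u₀) (hdeg v₀))
    have h5 : (sep G u₀ v₀).card ≤ 2 * D := by omega
    have h6 : ((sep G u₀ v₀).card : ℝ) ≤ 2 * D := by exact_mod_cast h5
    linarith
  have hL12 : 12 ≤ L := by
    have h1 : (5000 : ℝ) ≤ D := by linarith
    rw [hL, Real.le_logb_iff_rpow_le (by norm_num) (by linarith)]
    have h2 : (2 : ℝ) ^ (12 : ℝ) = 4096 := by
      rw [show (12 : ℝ) = ((12 : ℕ) : ℝ) by norm_num, Real.rpow_natCast]; norm_num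
    rw [h2]; linarith
  -- the vertices of low degree outside `B`
  set low : Finset V := univ.filter fun v => v ∉ B ∧ (deg G v : ℝ) < 10000 * L / 2 with hlow
  have hlowc : low.card ≤ 1 := by
    rw [card_le_one]
    intro u hu v hv
    by_contra huv
    rw [hlow, mem_filter] at hu hv
    have h1 := hsep u hu.2.1 v hv.2.1 huv
    have h2 : ((sep G u v).card : ℝ) ≤ deg G u + deg G v := by exact_mod_cast fin_sep_deg G u v
    linarith [hu.2.2, hv.2.2]
  have hnb : ∀ v : V, ∃ w, G.Adj v w := by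
    intro v
    obtain ⟨w, hw⟩ : ∃ w, w ≠ v := by
      by_cases h : a = v
      · exact ⟨b, fun h' => hab (h.trans h'.symm)⟩
      · exact ⟨a, h⟩
    have : Nontrivial V := ⟨⟨w, v, hw⟩⟩
    exact hcon.preconnected.exists_adj_of_nontrivial v
  choose nb hnb' using hnb
  set F₀ : Finset V := insert a (B ∪ low ∪ low.image nb) with hF₀
  have hF₀c : F₀.card ≤ B.card + 3 := by
    have h1 : F₀.card ≤ (B ∪ low ∪ low.image nb).card + 1 := card_insert_le a _
    have h2 := card_union_le (B ∪ low) (low.image nb)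
    have h3 := card_union_le B low
    have h4 := card_image_le (s := low) (f := nb)
    omega
  have hBF₀ : B ⊆ F₀ := fun w hw => mem_insert_of_mem (mem_union_left _ (mem_union_left _ hw))
  have hlF₀ : low ⊆ F₀ := fun w hw => mem_insert_of_mem (mem_union_left _ (mem_union_right _ hw))
  have hEE : ∀ v ∈ EE G B F₀, 10000 * L / 2 ≤ (deg G v : ℝ) := by
    intro v hv
    rw [EE, mem_filter] at hv
    by_contra h
    rw [not_le] at h
    have hvl : v ∈ low := mem_filter.mpr ⟨mem_univ _, hv.2.1, h⟩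
    exact hv.2.2 (nb v) (mem_insert_of_mem (mem_union_right _ (mem_image_of_mem _ hvl)))
      (hnb' v).symm
  -- the phases
  obtain ⟨s, hs1, hs2⟩ := hNUSX (Fintype.card V) (10000 * L) ht0 hnp
  set m := ⌈200 * L ^ 2⌉₊ with hm
  have hmL : 200 * L ^ 2 ≤ (m : ℝ) := Nat.le_ceil _
  have hm200 : (200 : ℝ) ≤ m := by nlinarith
  have hm8 : 8 ≤ m := by
    have : (8 : ℝ) ≤ m := by linarith
    exact_mod_cast this
  have hR0 : 0 < 6 * (Fintype.card V : ℝ) / (10000 * L) := by positivity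
  obtain ⟨N, hN1, hN2, hN3⟩ := hNUNX (Fintype.card V) D hD hnD hnp
  rw [← hL] at hN1 hN2 hN3
  obtain ⟨F, Y, hF₀F, hFY, hPC, -, hu, hFc, hYc⟩ := hITX V G B F₀ D m s (10000 * L)
    (6 * (Fintype.card V : ℝ) / (10000 * L)) hm8 hdeg hBF₀ ht0 hnp hs1 hs2 hR0 hsep hEE N
  set U : Finset V := EE G B Y ∪ BB G B Y m with hU
  have hUc : (U.card : ℝ) ≤ Fintype.card V / (500 * L) := by
    have h1 : U.card ≤ (EE G B Y).card + (BB G B Y m).card := card_union_le _ _
    have h2 : (U.card : ℝ) ≤ (EE G B Y).card + (BB G B Y m).card := by exact_mod_cast h1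
    have h3 : (0 : ℝ) ≤ (EE G B Y).card := Nat.cast_nonneg _
    linarith
  set F' : Finset V := F ∪ U with hF'
  set Y' : Finset V := Y ∪ F' with hY'
  have hFF' : F ⊆ F' := subset_union_left
  have hPC' := hPCMX V G F F' Y _ hPC hFF'
  have hBF' : B ⊆ F' := (hBF₀.trans hF₀F).trans hFF'
  have hBY' : B ⊆ Y' := hBF'.trans subset_union_right
  have hcl : ∀ v, v ∉ Y' → (cl G B Y' v).card ≤ 2 * m := by
    intro v hv
    have hvF' : v ∉ F' := fun h => hv (mem_union_right _ h)
    have hvU : v ∉ U := fun h => hvF' (mem_union_right _ h)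
    have hvB : v ∉ B := fun h => hvF' (hBF' h)
    have h1 : ¬ Em G Y v := fun h =>
      hvU (mem_union_left _ (mem_filter.mpr ⟨mem_univ _, hvB, h⟩))
    have h2 : ¬ 2 * m ≤ (cl G B Y v).card := fun h =>
      hvU (mem_union_right _ (mem_filter.mpr ⟨mem_univ _, hvB, h1, h⟩))
    have h3 : (cl G B Y' v).card ≤ (cl G B Y v).card := by
      apply card_le_card
      intro u hu
      rw [cl, mem_filter] at hu ⊢
      exact ⟨hu.1, hu.2.1, fun w hw => hu.2.2 w (mem_union_left _ hw)⟩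
    omega
  -- the last stage
  obtain ⟨s', hs'1, hs'2⟩ := hNUTX (Fintype.card V) D hD hnD hnp
  rw [← hL, ← hm] at hs'1 hs'2
  obtain ⟨Z, hYZ, hZloc, hZc⟩ := hFSTX V G B Y' (2 * m) s' (10000 * L) ht0 hnp hBY' hcl hsep
  have hsq : 1 ≤ Real.sqrt L := by
    rw [Real.one_le_sqrt]; exact hl
  have hR'0 : 0 < (Fintype.card V : ℝ) / (600 * Real.sqrt L) := by positivity
  have hZc' : (((Z \ Y').card : ℕ) : ℝ) ≤ Fintype.card V / (600 * Real.sqrt L) := hZc.trans hs'1
  have hPC'' : PC G F' Z ((((((2 * m : ℕ) : ℝ) * (1 + Fintype.card V /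
      (6 * (Fintype.card V : ℝ) / (10000 * L)))) ^ (6 * (Fintype.card V : ℝ) / (10000 * L))) ^ N) *
      (((2 * m : ℕ) : ℝ) * (1 + Fintype.card V / ((Fintype.card V : ℝ) / (600 * Real.sqrt L)))) ^
        ((Fintype.card V : ℝ) / (600 * Real.sqrt L))) := by
    refine PC.paid hPC' hYZ (by omega) ?_ hZc' hR'0
    intro z _ hz
    refine le_trans (card_le_card ?_) (hcl z hz)
    intro u hu
    rw [tc, mem_filter] at hu
    rw [cl, mem_filter]
    exact ⟨mem_univ _, fun h => hu.2.1 (hBY' h), hu.2.2⟩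
  -- the connected seed
  obtain ⟨N₀, hN₀c, hN₀⟩ := hNETX V G (10000 * L) ht0
  set D₁ : Finset V := N₀ ∪ F' with hD₁
  have haF' : a ∈ F' := hFF' (hF₀F (mem_insert_self _ _))
  have hdom : ∀ v, v ∈ D₁ ∨ (∃ w ∈ D₁, G.Adj v w) ∨ ∃ w ∈ D₁, ∃ z, G.Adj v z ∧ G.Adj z w := by
    intro v
    by_cases h1 : 10000 * L / 2 ≤ (deg G v : ℝ)
    · rcases hN₀ v h1 with h | ⟨w, hw, h⟩ | ⟨w, hw, z, h, h'⟩
      · exact Or.inl (mem_union_left _ h)
      · exact Or.inr (Or.inl ⟨w, mem_union_left _ hw, h⟩)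
      · exact Or.inr (Or.inr ⟨w, mem_union_left _ hw, z, h, h'⟩)
    · left
      apply mem_union_right
      by_cases hvB : v ∈ B
      · exact hBF' hvB
      · exact hFF' (hF₀F (hlF₀ (mem_filter.mpr ⟨mem_univ _, hvB, not_le.mp h1⟩)))
  obtain ⟨X₀, hDX, hXcon, hXc⟩ := hCDS2 V G hcon D₁ ⟨a, mem_union_right _ haF'⟩ hdom
  have hF'X₀ : F' ⊆ X₀ := fun w hw => hDX (mem_union_right _ hw)
  have ha : a ∈ X₀ := hF'X₀ haF'
  have hPC3 := hPCMX V G F' X₀ Z _ hPC'' hF'X₀
  set X : Finset V := Z ∪ X₀ with hX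
  have hXloc : Locating G X := fin_mono subset_union_left hZloc
  have haX : a ∈ X := mem_union_right _ ha
  have hc1 : 1 ≤ X₀.card := card_pos.mpr ⟨a, ha⟩
  -- the size of the seed
  have hpL : 10000 ≤ (Fintype.card V : ℝ) / L := by
    rw [le_div_iff₀ hL0]; exact hnp
  have hX₀c : (X₀.card : ℝ) ≤ Fintype.card V / (5 * L) := by
    have h1 : X₀.card + 4 ≤ 5 * (N₀.card + (F.card + U.card)) := by
      have h2 : D₁.card ≤ N₀.card + F'.card := card_union_le N₀ F'
      have h3 : F'.card ≤ F.card + U.card := card_union_le F U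
      omega
    have h2 : (X₀.card : ℝ) + 4 ≤ 5 * (N₀.card + (F.card + U.card)) := by exact_mod_cast h1
    have h3 : (N₀.card : ℝ) ≤ Fintype.card V / (5000 * L) := by
      rw [le_div_iff₀ (by positivity)]
      linarith
    have h4 : Phi G B Y D / m ≤ Fintype.card V / (200 * L) := by
      have h5 := (hPHIX V G B D hdeg).2.1 Y
      rw [← hL] at h5
      rw [div_le_div_iff₀ (by linarith) (by positivity)]
      have h6 : Phi G B Y D * (200 * L) ≤ (Fintype.card V * L) * (200 * L) :=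
        mul_le_mul_of_nonneg_right h5 (by positivity)
      have h7 : (Fintype.card V : ℝ) * (200 * L ^ 2) ≤ Fintype.card V * m :=
        mul_le_mul_of_nonneg_left hmL (by linarith)
      linarith
    have h5 : 36 * (s : ℝ) * (1 - (3 / 4 : ℝ) ^ N) ≤ 36 * (6 * Fintype.card V / (10000 * L)) := by
      have h6 : (0 : ℝ) ≤ (3 / 4 : ℝ) ^ N := by positivity
      have h7 : (0 : ℝ) ≤ s := Nat.cast_nonneg _
      nlinarith
    have h6 : (F₀.card : ℝ) ≤ B.card + 3 := by exact_mod_cast hF₀c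
    have e1 : (Fintype.card V : ℝ) / (5000 * L) = (Fintype.card V / L) / 5000 := by
      field_simp
    have e2 : (Fintype.card V : ℝ) / (200 * L) = (Fintype.card V / L) / 200 := by
      field_simp
    have e3 : 6 * (Fintype.card V : ℝ) / (10000 * L) = (Fintype.card V / L) * (6 / 10000) := by
      field_simp
    have e4 : (Fintype.card V : ℝ) / (500 * L) = (Fintype.card V / L) / 500 := by
      field_simp
    have e5 : (Fintype.card V : ℝ) / (100 * L) = (Fintype.card V / L) / 100 := by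
      field_simp
    have e6 : (Fintype.card V : ℝ) / (5 * L) = (Fintype.card V / L) / 5 := by
      field_simp
    rw [e1] at h3
    rw [e2] at h4
    rw [e3] at h5
    rw [e4] at hUc
    rw [e5] at hB
    rw [e6]
    linarith
  -- the number of the other vertices
  set k₀ := Fintype.card V - X.card with hk₀
  have hXp : X.card ≤ Fintype.card V := card_le_univ _
  have hXc' : (X.card : ℝ) ≤ Fintype.card V / 10 := by
    have h1 : X ⊆ X₀ ∪ ((Z \ Y') ∪ (Y \ F)) := by
      intro w hw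
      rw [hX, mem_union] at hw
      rcases hw with hw | hw
      · by_cases hY : w ∈ Y'
        · rw [hY', mem_union] at hY
          rcases hY with hY | hY
          · by_cases hwF : w ∈ F
            · exact mem_union_left _ (hF'X₀ (hFF' hwF))
            · exact mem_union_right _ (mem_union_right _ (mem_sdiff.mpr ⟨hY, hwF⟩))
          · exact mem_union_left _ (hF'X₀ hY)
        · exact mem_union_right _ (mem_union_left _ (mem_sdiff.mpr ⟨hw, hY⟩))
      · exact mem_union_left _ hw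
    have h2 : X.card ≤ X₀.card + ((Z \ Y').card + (Y \ F).card) :=
      (card_le_card h1).trans ((card_union_le _ _).trans (Nat.add_le_add_left (card_union_le _ _) _))
    have h3 : (Y \ F).card ≤ N * s := by
      rw [card_sdiff_of_subset hFY]; omega
    have h4 : (X.card : ℝ) ≤ X₀.card + (((Z \ Y').card : ℕ) + (N * s : ℕ)) := by
      exact_mod_cast h2.trans (Nat.add_le_add_left (Nat.add_le_add_left h3 _) _)
    push_cast at h4
    have h5 : (N : ℝ) * s ≤ Fintype.card V / 100 :=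
      (mul_le_mul_of_nonneg_left hs2 (Nat.cast_nonneg _)).trans hN3
    have h6 : (Fintype.card V : ℝ) / (600 * Real.sqrt L) ≤ Fintype.card V / 600 := by
      apply div_le_div_of_nonneg_left (by linarith) (by norm_num)
      linarith
    have h7 : (Fintype.card V : ℝ) / (5 * L) ≤ Fintype.card V / 60 := by
      apply div_le_div_of_nonneg_left (by linarith) (by norm_num)
      linarith
    linarith
  have hk₀p : k₀ ≤ Fintype.card V := Nat.sub_le _ _
  have h9k : 9 * Fintype.card V ≤ 10 * k₀ := by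
    have h1 : ((Fintype.card V - X.card : ℕ) : ℝ) = Fintype.card V - X.card := by
      rw [Nat.cast_sub hXp]
    have h2 : (9 : ℝ) * Fintype.card V ≤ 10 * k₀ := by
      rw [hk₀, h1]; linarith
    exact_mod_cast h2
  -- the count
  by_contra hno
  have hfin := hNUFX (Fintype.card V) D X₀.card k₀ hD hnD hnp hc1 hX₀c hk₀p h9k
  set K : ℝ := (D : ℝ) ^ (X₀.card - 1) * (2 : ℝ) ^ ((Fintype.card V : ℝ) * (13 / 180)) with hK
  have hE : ∀ r k, k ≤ Fintype.card V → ((embk G a r X k).card : ℝ) ≤ K := by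
    intro r k hk
    refine (hECNX V G a r D X₀ X _ k hPC3 ha hk hXcon hdeg).trans ?_
    apply mul_le_mul_of_nonneg_left _ (by positivity)
    have h1 : (2 : ℝ) ^ ((Fintype.card V : ℝ) * (13 / 180)) =
        (2 : ℝ) ^ ((Fintype.card V : ℝ) / 18) * (2 : ℝ) ^ ((Fintype.card V : ℝ) / 60) := by
      rw [← Real.rpow_add (by norm_num)]
      congr 1
      ring
    rw [h1]
    exact mul_le_mul hN2 hs'2 (by positivity) (by positivity)
  have h4m : (4 : ℝ) ^ k₀ ≤ (k₀ + 1) * (2 * K * 3 ^ k₀) := by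
    have h2 : (4 : ℝ) ^ k₀ = ∑ k ∈ range (k₀ + 1), 1 ^ k * 3 ^ (k₀ - k) * (k₀.choose k : ℝ) := by
      have h := add_pow (1 : ℝ) 3 k₀
      rw [← h]; norm_num
    rw [h2]
    have h3 : ∀ k ∈ range (k₀ + 1),
        (1 : ℝ) ^ k * 3 ^ (k₀ - k) * (k₀.choose k : ℝ) ≤ 2 * K * 3 ^ k₀ := by
      intro k hk
      rw [mem_range] at hk
      have hk' : k ≤ k₀ := by omega
      have h4 := hMAINK V G a b X X haX Reach.base hXloc hH hno k hk'
      have h5 : ((k₀.choose k : ℕ) : ℝ) ≤ 3 ^ k * (((embk G a a X k).card : ℝ) +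
          ((embk G a b X k).card : ℝ)) := by exact_mod_cast h4
      have h6 := hE a k (hk'.trans hk₀p)
      have h7 := hE b k (hk'.trans hk₀p)
      have h8 : ((k₀.choose k : ℕ) : ℝ) ≤ 3 ^ k * (2 * K) := by
        refine h5.trans (mul_le_mul_of_nonneg_left ?_ (by positivity))
        linarith
      calc (1 : ℝ) ^ k * 3 ^ (k₀ - k) * (k₀.choose k : ℝ)
            ≤ 1 ^ k * 3 ^ (k₀ - k) * (3 ^ k * (2 * K)) :=
            mul_le_mul_of_nonneg_left h8 (by positivity)
        _ = 2 * K * (3 ^ (k₀ - k) * 3 ^ k) := by rw [one_pow]; ring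
        _ = 2 * K * 3 ^ k₀ := by rw [← pow_add, Nat.sub_add_cancel hk']
    refine (sum_le_card_nsmul _ _ _ h3).trans ?_
    rw [card_range, nsmul_eq_mul]
    push_cast
    exact le_rfl
  have h9 : (k₀ + 1 : ℝ) * (2 * K * 3 ^ k₀) = 2 * (D : ℝ) ^ (X₀.card - 1) *
      (2 : ℝ) ^ ((Fintype.card V : ℝ) * (13 / 180)) * (k₀ + 1) * 3 ^ k₀ := by
    rw [hK]; ring
  rw [h9] at h4m
  exact absurd hfin (not_lt.mpr h4m)

end Pool.Agent.Lib.MP50ecf8.LOC
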