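import Pool.Agent.Lib.MP_50ecf8_co.LOC.Spec

/-!
# NBP: the trivial bound for the number of partial isomorphisms
-/

set_option autoImplicit false

open Finset
open scoped Classical

namespace Pool.Agent.Lib.MP50ecf8.LOC

theorem specNBP : SpecNBP := by
  intro V _ G a r X haX
  let F : ({x // x ∈ X.erase a} → V) → Finset (V × V) := fun f =>
    insert (a, r) (univ.image fun x => (x.1, f x))
  have h1 : emb G a r X ⊆ univ.image F := by
    intro I hI
    simp only [emb, mem_filter, mem_univ, true_and] at hI
    obtain ⟨hg, har, him⟩ := hI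
    have h2 : ∀ x : {x // x ∈ X.erase a}, ∃ y, (x.1, y) ∈ I := by
      intro x
      have hx : x.1 ∈ I.image Prod.fst := by
        rw [him]
        exact mem_of_mem_erase x.2
      obtain ⟨u, hu, hux⟩ := mem_image.1 hx
      exact ⟨u.2, by rw [← hux]; exact hu⟩
    choose f hf using h2
    refine mem_image.2 ⟨f, mem_univ _, ?_⟩
    ext u
    simp only [F, mem_insert, mem_image, mem_univ, true_and]
    constructor
    · rintro (rfl | ⟨x, rfl⟩)
      · exact har
      · exact hf x
    · intro hu
      by_cases h3 : u.1 = a
      · left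
        have h4 := ((hg u hu (a, r) har).1).1 h3
        exact Prod.ext h3 h4
      · right
        have h5 : u.1 ∈ X.erase a :=
          mem_erase.2 ⟨h3, by rw [← him]; exact mem_image_of_mem _ hu⟩
        refine ⟨⟨u.1, h5⟩, ?_⟩
        have h6 := ((hg _ (hf ⟨u.1, h5⟩) u hu).1).1 rfl
        exact Prod.ext rfl h6
  calc (emb G a r X).card ≤ (univ.image F).card := card_le_card h1
    _ ≤ (univ : Finset ({x // x ∈ X.erase a} → V)).card := card_image_le
    _ = Fintype.card V ^ (X.card - 1) := by
      rw [card_univ, Fintype.card_fun, Fintype.card_coe, card_erase_of_mem haX]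

end Pool.Agent.Lib.MP50ecf8.LOC
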