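import Pool.Agent.Lib.MP_50ecf8_co.LOC.Spec4

/-!
# Twins: graphs whose reduced graph has a well separated core

`u` and `v` are twins if no third vertex tells them apart. `T` is a transversal: it has exactly one
vertex in each class of twins. We locate vertices up to twins only; the vertices outside `T` are
always in the domain of the partial isomorphisms. `4 ^ k` replaces `3 ^ k`, and nothing depends on
the sizes of the classes.
-/

set_option autoImplicit false

open Finset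
open scoped Classical

namespace Pool.Agent.Lib.MP50ecf8.LOC

/-- twins (or equal): no other vertex tells `u` and `v` apart -/
def Tw {V : Type} (G : SimpleGraph V) (u v : V) : Prop :=
  ∀ w, w ≠ u → w ≠ v → (G.Adj w u ↔ G.Adj w v)

theorem Tw.refl {V : Type} (G : SimpleGraph V) (u : V) : Tw G u u := fun _ _ _ => Iff.rfl

theorem Tw.symm {V : Type} {G : SimpleGraph V} {u v : V} (h : Tw G u v) : Tw G v u :=
  fun w h1 h2 => (h w h2 h1).symm

theorem Tw.trans {V : Type} {G : SimpleGraph V} {u v z : V} (h : Tw G u v) (h' : Tw G v z) :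
    Tw G u z := by
  intro w h1 h2
  by_cases hwv : w = v
  · subst hwv
    by_cases huz : u = z
    · subst huz; exact Iff.rfl
    · -- `w = v`, different from `u` and `z`
      have e1 : G.Adj u w ↔ G.Adj u z := h' u (Ne.symm h1) huz
      have e2 : G.Adj z u ↔ G.Adj z w := h z (Ne.symm huz) (Ne.symm h2)
      rw [G.adj_comm w u, e1, G.adj_comm u z, e2, G.adj_comm z w]
  · exact (h w h1 hwv).trans (h' w hwv h2)

/-- adjacency is invariant under replacing vertices by twins -/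
theorem Tw.adj {V : Type} {G : SimpleGraph V} {x x' y y' : V} (hx : Tw G x x') (hy : Tw G y y')
    (hxy : x ≠ y) (hxy' : x' ≠ y') : G.Adj x y ↔ G.Adj x' y' := by
  by_cases h1 : x' = y
  · subst h1
    by_cases h2 : x = y'
    · subst h2; exact G.adj_comm _ _
    · have e1 : G.Adj x x' ↔ G.Adj x y' := hy x hxy h2
      have e2 : G.Adj y' x ↔ G.Adj y' x' := hx y' (Ne.symm h2) (Ne.symm hxy')
      rw [e1, G.adj_comm x y', e2, G.adj_comm y' x']
  · have e1 : G.Adj y x ↔ G.Adj y x' := hx y (Ne.symm hxy) (Ne.symm h1)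
    have e2 : G.Adj x' y ↔ G.Adj x' y' := hy x' h1 hxy'
    rw [G.adj_comm x y, e1, G.adj_comm y x', e2]

/-- `T` is a transversal of the classes of twins -/
def Trv {V : Type} (G : SimpleGraph V) (T : Finset V) : Prop :=
  (∀ v, ∃ t ∈ T, Tw G v t) ∧ ∀ s ∈ T, ∀ t ∈ T, Tw G s t → s = t

/-- `Y` contains the representative of each of its elements -/
def ClT {V : Type} (G : SimpleGraph V) (T Y : Finset V) : Prop :=
  ∀ u ∈ Y, ∀ t ∈ T, Tw G u t → t ∈ Y

/-- `x` is located by `Y` up to twins -/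
def UniT {V : Type} (G : SimpleGraph V) (Y : Finset V) (x : V) : Prop :=
  ∀ u, u ∉ Y → ¬ Tw G u x → ∃ w ∈ Y, ¬(G.Adj w u ↔ G.Adj w x)

/-- vertices outside `X` with the same neighbourhood in `X` are twins -/
def LocT {V : Type} (G : SimpleGraph V) (X : Finset V) : Prop :=
  ∀ u, u ∉ X → ∀ v, v ∉ X → ¬ Tw G u v → ∃ w ∈ X, ¬(G.Adj w u ↔ G.Adj w v)

/-- `X` is obtained from `X₀` by adding vertices of `T` located up to twins by what is there -/
inductive ReachT {V : Type} (G : SimpleGraph V) (T X₀ : Finset V) : Finset V → Prop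
  | base : ReachT G T X₀ X₀
  | step {Y : Finset V} {x : V} : ReachT G T X₀ Y → x ∉ Y → x ∈ T → UniT G Y x →
      ReachT G T X₀ (insert x Y)

/-- the partial isomorphisms considered: closed, equal to `h` on `Y`, defined on `X` and outside `T`,
undefined at exactly `k` vertices -/
noncomputable def AdT {V : Type} [Fintype V] (G : SimpleGraph V) (T X : Finset V) (k : ℕ)
    (Y : Finset V) (h : Finset (V × V)) : Finset (Finset (V × V)) :=
  univ.filter fun J => Good G J ∧ Closed G J ∧ J.filter (fun u => u.1 ∈ Y) = h ∧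
    X ⊆ J.image Prod.fst ∧ univ \ T ⊆ J.image Prod.fst ∧ J.card + k = Fintype.card V

/-- their domains -/
noncomputable def FT {V : Type} [Fintype V] (G : SimpleGraph V) (T X : Finset V) (k : ℕ)
    (Y : Finset V) (h : Finset (V × V)) : Finset (Finset V) :=
  (AdT G T X k Y h).image fun J => J.image Prod.fst

/-- the candidates for the images of the vertices whose class does not meet `Y` -/
noncomputable def UT {V : Type} [Fintype V] (G : SimpleGraph V) (Y : Finset V)
    (h : Finset (V × V)) : Finset V :=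
  univ.filter fun y => ∃ x, (∀ u ∈ Y, ¬ Tw G u x) ∧ ∀ z ∈ h, Cmp G (x, y) z

/-- DET: the domain is determined by the states of the `y ∉ im J₀`. Proof. Let `t ∈ dom J₁`, `t ∉ dom J₂`; so
`t ∈ T \ X` and (`ClT`) no element of `X` is a twin of `t`. Let `c` be the class of `t`; `c \ {t}` is outside `T`, hence in
all domains. (0) If `y` is compatible with `h` as image of `t` and `y = J u`, then `u ∉ X` (otherwise `(u, y) ∈ h` and `Cmp`
gives `t = u`), `u` and `t` have the same trace on `X` (both are the preimage of the trace of `y`), so `Tw u t`.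
Let `Cand` be the set of the `y` with `(t, y)` compatible with `h` (same set for all elements of `c`);
so `|Cand ∩ im J| = |c ∩ dom J|`: `n = |c|` for `J₁`, `n - 1` for `J₂`, at most `n` for `J₀`. (1) No `y' ∈ Cand \ im J₀` is in
`im J₁`: by (s2) with `x' = t` we would have `t ∈ dom J₂`. By (s1) none is in `im J₂`. So
`Cand ∩ im J₁ = Cand ∩ im J₀` (both have `n` elements) and exactly one `y` in it is not in `im J₂` (*).
Let `y = J₀ x₁ = J₁ x₃`, `x₁, x₃ ∈ c`, and `u = (t, y)`. If `(x', y') ∈ J₂` is in conflict with `u`, then `t ≠ x'`, `y ≠ y'`,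
so the adjacencies differ, and `x' ∉ X`. If `y' = J₀ x₂`: `x₂ ∉ X`, same trace, `Tw x₂ x'`; `Tw.adj` (twice) gives
`Adj t x' ↔ Adj x₁ x₂ ↔ Adj y y'`, a contradiction. If `y' ∉ im J₀`: by (s1) `y' = J₁ x''`, `Tw x'' x'`, and
`Adj t x' ↔ Adj x₃ x'' ↔ Adj y y'`. So `u` is compatible with `J₂`; as `J₂` is closed there is `w = (x', y')`
compatible with `J₂` with `¬ Cmp u w`; then `w ∉ J₂`, `x' ∉ dom J₂`, so `x' ∈ T \ X`, `y' ∉ im J₂`. If `x' = t`: `y' ≠ y`, so by (*)
`y' ∉ im J₀`; (s3) with `x' = t` gives `t ∉ dom J₁`. If `x' ≠ t` and `y' = y`: `t` and `x'` have the same trace: twins, both in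
`T`: equal. Otherwise the adjacencies differ: if `y' = J₀ x₂` as before; if `y' ∉ im J₀`: (s3) (for `(x', y')`,
`y' ∉ im J₁` by (s1)): `(x', y')` is compatible with `J₁`, in particular with `(x₃, y)`: `Adj x' x₃ ↔ Adj y' y`, and
`Adj t x' ↔ Adj x₃ x'` by `Tw.adj`: contradiction. -/
def SpecDET : Prop :=
  ∀ (V : Type) [Fintype V] (G : SimpleGraph V) (T X : Finset V) (k : ℕ) (h : Finset (V × V)),
    Trv G T → LocT G X → ClT G T X → h.image Prod.fst = X →
    ∀ J₀ ∈ AdT G T X k X h, ∀ J₁ ∈ AdT G T X k X h, ∀ J₂ ∈ AdT G T X k X h,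
    (∀ y, y ∉ J₀.image Prod.snd → (y ∈ J₁.image Prod.snd ↔ y ∈ J₂.image Prod.snd)) →
    (∀ y, y ∉ J₀.image Prod.snd → ∀ x ∈ T, x ∉ X → (∀ z ∈ h, Cmp G (x, y) z) →
      y ∈ J₁.image Prod.snd → (x ∈ J₁.image Prod.fst ↔ x ∈ J₂.image Prod.fst)) →
    (∀ y, y ∉ J₀.image Prod.snd → ∀ x ∈ T, x ∉ X → (∀ z ∈ h, Cmp G (x, y) z) →
      y ∉ J₁.image Prod.snd →
      ((x ∉ J₁.image Prod.fst ∧ ∀ z ∈ J₁, Cmp G (x, y) z) ↔
        (x ∉ J₂.image Prod.fst ∧ ∀ z ∈ J₂, Cmp G (x, y) z))) →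
    J₁.image Prod.fst ⊆ J₂.image Prod.fst

/-- BCT (from DET): the base of the count. Proof: if `AdT` is empty, trivial; fix `J₀`, `M = univ \ im J₀`, `|M| = k`
(`|im J| = |J|` for good `J`). The state of `J` is the function `M → Fin 4`: for `y ∉ UT`: `0` if `y ∈ im J`, `1` otherwise.
For `y ∈ UT` there is a unique `x ∈ T \ X` with `(x, y)` compatible with `h` (uniqueness: two such have the same
trace, `LocT`, `Trv`; existence: the representative of the `x` in `UT`); state `2` / `3` if `y ∈ im J` and `x` is / is not in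
`dom J`; state `0` if `y ∉ im J`, `x ∉ dom J` and `(x, y)` is compatible with all of `J`, state `1` otherwise. By DET (twice) the domain
is determined by the state (if `(x, y)` as in (s2), (s3) then `y ∈ UT` and `x` is this unique one). So
`|FT| ≤ 2 ^ a * 4 ^ (k - a)`, `a = |M \ UT| ≥ |D \ im J₀| ≥ κ`, and `2 ^ κ * 2 ^ a * 4 ^ (k - a) ≤ 4 ^ k`. -/
def SpecBCT : Prop :=
  ∀ (V : Type) [Fintype V] (G : SimpleGraph V) (T X : Finset V) (k : ℕ) (h : Finset (V × V)),
    Trv G T → LocT G X → ClT G T X → h.image Prod.fst = X →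
    ∀ (D : Finset V) (κ : ℕ), (∀ y ∈ D, y ∉ UT G X h) →
    (∀ J ∈ AdT G T X k X h, κ ≤ (D \ J.image Prod.snd).card) →
    2 ^ κ * (FT G T X k X h).card ≤ 4 ^ k

/-- STPT: the step of the count. Proof: let `AdT G T X k Y h` be nonempty (otherwise trivial; then `h` is good), `c` the class of `x`;
`c ∩ Y = ∅` by `ClT`, `c ⊆ dom J` for all `J` considered (`x ∈ X`, the others are outside `T`). `B = {y | (x, y) compatible with h}`
(same set for all elements of `c`). `B ∩ im J = J(c)`: if `y = J u ∈ B` then `u ∉ Y`, same trace on `Y`, `UniT`: `Tw u x`. So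
`|B \ im J| = q := |B| - |c|`, and `|B| ≥ q + 1`. Choose `B₁ ⊆ B` with `q + 1` elements; `B₁` meets `im J` for all `J`:
`y = J v ∈ B₁`, `v ∈ c`; `J'` = `J` with `x` and `v` swapped in the first coordinates (an automorphism of `G`, so `J'` is good
and closed) has the same domain, the same restriction `h` to `Y`, and `J' x = y`. So `FT Y h ⊆ ⋃ y ∈ B₁, FT (insert x Y) (insert (x, y) h)`.
Apply IH to each with `D ∪ B`, `κ + q`: `UT (insert x Y) (insert (x, y) h)` is contained in `UT Y h` and disjoint from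
`B` (`UniT`); `B ⊆ UT Y h`, so `D`, `B` are disjoint and `|(D ∪ B) \ im J| ≥ κ + q`. Finally
`2 ^ (κ + q) |FT Y h| ≤ (q + 1) 4 ^ k ≤ 2 ^ q 4 ^ k`. -/
def SpecSTPT : Prop :=
  ∀ (V : Type) [Fintype V] (G : SimpleGraph V) (T X Y : Finset V) (x : V) (k : ℕ), Trv G T →
    ClT G T Y → x ∉ Y → x ∈ T → x ∈ X → UniT G Y x →
    (∀ h : Finset (V × V), h.image Prod.fst = insert x Y →
      ∀ (D : Finset V) (κ : ℕ), (∀ y ∈ D, y ∉ UT G (insert x Y) h) →
      (∀ J ∈ AdT G T X k (insert x Y) h, κ ≤ (D \ J.image Prod.snd).card) →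
      2 ^ κ * (FT G T X k (insert x Y) h).card ≤ 4 ^ k) →
    ∀ h : Finset (V × V), h.image Prod.fst = Y →
      ∀ (D : Finset V) (κ : ℕ), (∀ y ∈ D, y ∉ UT G Y h) →
      (∀ J ∈ AdT G T X k Y h, κ ≤ (D \ J.image Prod.snd).card) →
      2 ^ κ * (FT G T X k Y h).card ≤ 4 ^ k

/-- CNTT (from BCT, STPT): the count, by induction along the chain (`D = ∅`, `κ = 0` at the end; all sets `Y` of the chain are
`ClT`, because a twin in `T` of `x ∈ T` is `x`). As `specCNTS` at the end of CNTS.lean. -/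
def SpecCNTT : Prop :=
  ∀ (V : Type) [Fintype V] (G : SimpleGraph V) (T X₀ X : Finset V) (k : ℕ), Trv G T →
    ClT G T X₀ → ReachT G T X₀ X → LocT G X →
    ∀ g : Finset (V × V), g.image Prod.fst = X₀ → (FT G T X k X₀ g).card ≤ 4 ^ k

/-- MAINT (from KEL, INC, TOG, CNTT; adapt `critO` in CRITO.lean, `mv` is there): for each `W ⊆ T \ X`, `|W| = m - k`,
`m = |T \ X|`, `S = X ∪ (univ \ T) ∪ W` is the domain of a closed `J` with `(a, a) ∈ J` or `(a, b) ∈ J`; its restriction to `X₀` is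
`mv G φ I₀`, `I₀ ∈ R`; `mv G φ.symm J` shows `S ∈ FT G T X k X₀ I₀`. -/
def SpecMAINT : Prop :=
  ∀ (V : Type) [Fintype V] (G : SimpleGraph V) (a b : V) (T X₀ X : Finset V) (k : ℕ),
    Trv G T → ClT G T X₀ → a ∈ X₀ → ReachT G T X₀ X → LocT G X → H2 G a b →
    (¬ ∃ φ : G ≃g G, φ a = b) → k ≤ (T \ X).card →
    ∀ R : Finset (Finset (V × V)),
      (∀ I : Finset (V × V), Good G I → I.image Prod.fst = X₀ → ((a, a) ∈ I ∨ (a, b) ∈ I) →
        ∃ I₀ ∈ R, ∃ φ : G ≃g G, I = I₀.image fun u => (u.1, φ u.2)) →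
      (T \ X).card.choose k ≤ 4 ^ k * R.card

/-- PRM: partial isomorphisms with the same domain and twin images differ by an automorphism of `G`.
Proof: more generally for all finite sets `I ⊆ J₁`, where `J₂` ..: by induction on a subset `Z` of the common domain: there is an
automorphism `φ` with `Tw G v (φ v)` for all `v` and `φ (I₁ x) = I₂ x` for `x ∈ Z`. Step, new `x`: `y = φ (I₁ x)`, `y' = I₂ x` are twins and
both different from all `I₂ x'`, `x' ∈ Z`; compose with the swap of `y` and `y'` (an automorphism, as `Tw G y y'`). -/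
def SpecPRM : Prop :=
  ∀ (V : Type) [Fintype V] (G : SimpleGraph V) (I₁ I₂ : Finset (V × V)), Good G I₁ → Good G I₂ →
    I₁.image Prod.fst = I₂.image Prod.fst →
    (∀ u ∈ I₁, ∀ w ∈ I₂, u.1 = w.1 → Tw G u.2 w.2) →
    ∃ φ : G ≃g G, I₂ = I₁.image fun u => (u.1, φ u.2)

/-- REPT (from PRM): representatives up to automorphisms. Proof: let `r v ∈ T` be the twin of `v` in `T`. For a good `I` with domain `X`
put `cl I = I.image (fun u => (u.1, r u.2))`. The set `E c X` of all `cl I`, `I` good with domain `X`, `(a, c) ∈ I`, has at most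
`D ^ (|X| - 1)` elements: as NBD (adapt NBD.lean): if `x` is adjacent in `G[X]` to `w` (already treated) then `I x`, `I w` are adjacent, so `r (I x)`
is equal to `r (I w)` or adjacent to it (`Tw.adj`): at most `(degree of r (I w) in G[T]) + 1 ≤ D` possibilities. Choose one
`I` for each element of `E a X ∪ E b X`. If `cl I = cl I₀` then PRM gives `φ`. -/
def SpecREPT : Prop :=
  ∀ (V : Type) [Fintype V] (G : SimpleGraph V) (D : ℕ) (a b : V) (T X : Finset V), Trv G T →
    a ∈ X → (G.induce (X : Set V)).Connected → (∀ v ∈ T, (T.filter fun w => G.Adj v w).card < D) →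
    ∃ R : Finset (Finset (V × V)), R.card ≤ 2 * D ^ (X.card - 1) ∧
      ∀ I : Finset (V × V), Good G I → I.image Prod.fst = X → ((a, a) ∈ I ∨ (a, b) ∈ I) →
        ∃ I₀ ∈ R, ∃ φ : G ≃g G, I = I₀.image fun u => (u.1, φ u.2)

/-- RNV: random set for the core, strong form (the separating vertex differs from both). Proof: for a tuple `c` of `s` elements of `T`
let `A c` = the `v ∈ C \ B` with `t / 2 ≤ deg_T v` such that no `c i` is a neighbour of `v`, `P c` = the pairs `(v, u)`, `v ∈ C \ B`,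
`u ∈ T \ B`, `u ≠ v`, `u` adjacent to `v` or with a common neighbour in `T` with `v` (at most `D + D (D - 1) = D ^ 2` such `u`), such that no `c i`
is in `sep G v u`. `X₁` = image of `c`, a neighbour in `T` of every `v ∈ A c`, an element of `sep G v u ∩ T` for every `(v, u) ∈ P c`, and a neighbour
of the vertex `v ∈ C \ B` with `deg_T v < t / 2` (at most one: two of them would have fewer than `t` separators). If `u` is
neither adjacent to `v` nor has a common neighbour with it, the neighbour `w ∈ X₁` of `v` works.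
Averages: `(1 - t / (2 |T|)) ^ s`, `(1 - t / |T|) ^ s` (see RNCC.lean, TOPR.lean: `TOPRM.card_avC`). -/
def SpecRNV : Prop :=
  ∀ (V : Type) [Fintype V] (G : SimpleGraph V) (T B C : Finset V) (D s : ℕ) (t : ℝ), 0 < t →
    C ⊆ T → (∀ v ∈ T, (T.filter fun w => G.Adj v w).card ≤ D) → (∀ v ∈ T, ∃ w ∈ T, G.Adj v w) →
    (∀ v ∈ C, v ∉ B → ∀ u ∈ T, u ∉ B → u ≠ v → t ≤ ((sep G v u ∩ T).card : ℝ)) →
    t ≤ T.card → 0 < T.card →
    ∃ X₁ : Finset V, X₁ ⊆ T ∧
      (∀ v ∈ C, v ∉ B → (∃ w ∈ X₁, G.Adj v w) ∧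
        ∀ u ∈ T, u ∉ B → u ≠ v → ∃ w ∈ X₁, w ≠ u ∧ w ≠ v ∧ ¬(G.Adj w u ↔ G.Adj w v)) ∧
      (X₁.card : ℝ) ≤ s + 1 + T.card * (1 - t / (2 * T.card)) ^ s
        + T.card * (D : ℝ) ^ 2 * (1 - t / T.card) ^ s

/-- BONT (as BON, adapt BON.lean): `O = T \ (B ∪ C)`. Add vertices of `C \ X₀` to `P` as long as two vertices of `O` have the same trace on
`(X₀ ∪ P) ∩ (B ∪ C)`: `|P| ≤ |O|`, `|P| ≤ |C \ X₀|`, so `2 |P| ≤ |T|`. -/
def SpecBONT : Prop :=
  ∀ (V : Type) [Fintype V] (G : SimpleGraph V) (T B C X₀ : Finset V), C ⊆ T → B ⊆ X₀ →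
    (∀ u ∈ T, u ∉ B ∪ C → ∀ v ∈ T, v ∉ B ∪ C → u ≠ v →
      ∃ w ∈ B ∪ C, ¬(G.Adj w u ↔ G.Adj w v)) →
    ∃ P : Finset V, P ⊆ C \ X₀ ∧ 2 * P.card ≤ T.card ∧
      ∀ u ∈ T, u ∉ B ∪ C → ∀ v ∈ T, v ∉ B ∪ C → u ≠ v →
        ∃ w ∈ X₀ ∪ P, w ∈ B ∪ C ∧ ¬(G.Adj w u ↔ G.Adj w v)

/-- NFT: numerical (adapt NUD2.lean / NFIN.lean). `log2` of the left side: `1 + (x - 1) L + log2 (m + 1) + 2 m`;
`x L ≤ 0.11667 p + 6 L`; `m ≥ p / 2 - x ≥ 0.4918 p - 6` (`L ≥ 14.3`), `log2 (5/4) ≥ 0.3219`: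
`0.1583 p - 2 > 1 + 0.1167 p + 5 L + log2 (p + 1)` as `p ≥ 200 L^2`. -/
def SpecNFT : Prop :=
  ∀ p D x m : ℕ, 2 ≤ D → 100 * Real.logb 2 D ^ 2 ≤ (D : ℝ) → 200 * Real.logb 2 D ^ 2 ≤ (p : ℝ) →
    1 ≤ x → (x : ℝ) ≤ 7 * p / (60 * Real.logb 2 D) + 6 → m ≤ p → p ≤ 2 * m + 2 * x →
    2 * (D : ℝ) ^ (x - 1) * (m + 1) * 4 ^ m < 5 ^ m

/-- H2T: part 2 of (H) is invariant under replacing `a` by a twin. Proof: `σ` swaps `a` and `a'` (automorphism);
`τ' i = τ (σ i)`, `θ'_i = θ_{σ i} ∘ σ`. -/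
def SpecH2T : Prop :=
  ∀ (V : Type) (G : SimpleGraph V) (a a' b : V), Tw G a a' → H2 G a b → H2 G a' b

/-- CONT: the graph on `T ∪ B` is connected, no vertex of `T` is isolated in `G[T]`. Proof: `r v ∈ T` the twin of `v`. If `u`, `v` are
adjacent in `G` then `r u`, `r v` are equal or adjacent. So `G[T]` is connected (walks of `G` are mapped). A vertex `v ∈ B \ T` has
a neighbour in `T`: `r v` has a neighbour `w ∈ T` (`|T| ≥ 2`, connected), `w ≠ v`, so `v` is adjacent to `w` (twins). -/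
def SpecCONT : Prop :=
  ∀ (V : Type) [Fintype V] (G : SimpleGraph V) (T B : Finset V), Trv G T → G.Connected →
    2 ≤ T.card → (G.induce ((T ∪ B : Finset V) : Set V)).Connected ∧ ∀ v ∈ T, ∃ w ∈ T, G.Adj v w

/-- CDST (from CDS2, by transfer to the type of the elements of `W`) -/
def SpecCDST : Prop :=
  ∀ (V : Type) [Fintype V] (G : SimpleGraph V) (W D₁ : Finset V),
    (G.induce (W : Set V)).Connected → D₁.Nonempty → D₁ ⊆ W →
    (∀ v ∈ W, v ∈ D₁ ∨ (∃ w ∈ D₁, G.Adj v w) ∨ ∃ w ∈ D₁, ∃ z ∈ W, G.Adj v z ∧ G.Adj z w) →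
    ∃ X : Finset V, D₁ ⊆ X ∧ X ⊆ W ∧ (G.induce (X : Set V)).Connected ∧ X.card + 4 ≤ 5 * D₁.card

end Pool.Agent.Lib.MP50ecf8.LOC
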