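import Pool.Agent.Lib.MP_50ecf8_co.LOC.Spec8
import Pool.Agent.Lib.MP_50ecf8_co.LOC.FIN
import Pool.Agent.Lib.MP_50ecf8_co.LOC.FINB
import Pool.Agent.Lib.MP_50ecf8_co.LOC.NBP
import Pool.Agent.Lib.MP_50ecf8_co.LOC.Spec5

/-!
# Separation linear in `log2 D`, general form: assembly
-/

set_option autoImplicit false

open Finset
open scoped Classical

namespace Pool.Agent.Lib.MP50ecf8.LOC

/-- two vertices told apart have neighbours in `W` -/
lemma fy_sep {V : Type} [Fintype V] (G : SimpleGraph V) (W : Finset V) (u v : V) :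
    (sep G u v ∩ W).card ≤ (W.filter fun w => G.Adj u w).card + (W.filter fun w => G.Adj v w).card := by
  refine (card_le_card ?_).trans (card_union_le _ _)
  intro w hw
  rw [mem_inter, sep, mem_filter] at hw
  obtain ⟨⟨-, -, -, h⟩, hW⟩ := hw
  rw [mem_union, mem_filter, mem_filter]
  by_cases h1 : G.Adj u w
  · exact Or.inl ⟨hW, h1⟩
  · refine Or.inr ⟨hW, ?_⟩
    by_contra h2
    exact h ⟨fun h3 => absurd h3.symm h1, fun h3 => absurd h3.symm h2⟩

/-- the trace class of a vertex with a neighbour of small degree -/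
lemma fy_tc {V : Type} [Fintype V] {G : SimpleGraph V} {Y : Finset V} {z w : V} {D : ℕ}
    (hw : w ∈ Y) (h : G.Adj z w) (hD : deg G w ≤ D) : (tc G Y z).card ≤ D := by
  refine le_trans (card_le_card ?_) hD
  intro u hu
  rw [tc, mem_filter] at hu
  rw [mem_filter]
  exact ⟨mem_univ _, (hu.2.2 w hw).mpr h.symm⟩

/-- the price of the base -/
theorem fy_base (hEXT : SpecEXT) (hSEQY : SpecSEQY) (hCHNY : SpecCHNY) (hNUBY : SpecNUBY)
    (hNBP : SpecNBP) {V : Type} [Fintype V] {G : SimpleGraph V} (a r : V) (D k : ℕ)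
    (hD : 2 ≤ D) (hnD : 50000 * Real.logb 2 D ≤ (D : ℝ))
    (hnp : 100000 * Real.logb 2 D ≤ (Fintype.card V : ℝ)) (hl : 1 ≤ Real.logb 2 D)
    (hk : k ≤ Fintype.card V)
    (X low A : Finset V) {x₁ : V} (hx₁ : x₁ ∈ X) (hcon : (G.induce (X : Set V)).Connected)
    (hdeg : ∀ w ∈ X, deg G w ≤ D)
    (hXc : (X.card : ℝ) ≤ Fintype.card V / (20 * Real.logb 2 D))
    (hlow : low.card ≤ 1) (hA : ∀ z ∈ A, z ∉ X → z ∉ low → ∃ w ∈ X, G.Adj z w)
    (hAc : (A.card : ℝ) ≤ Fintype.card V / (200 * Real.logb 2 D)) :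
    ((embk G a r (insert a (X ∪ low ∪ A)) k).card : ℝ) ≤ (2 : ℝ) ^ ((Fintype.card V : ℝ) / 10) := by
  set L := Real.logb 2 D with hL
  have hL0 : 0 < L := by linarith
  have hp0 : (0 : ℝ) < Fintype.card V := by linarith
  have hp1 : 1 ≤ Fintype.card V := by exact_mod_cast hp0
  have hp1' : (1 : ℝ) ≤ Fintype.card V := by exact_mod_cast hp1
  obtain ⟨n1, n2, n3⟩ := hNUBY (Fintype.card V) D hD hnD hnp
  rw [← hL] at n1 n2
  -- the start
  have e0 : ((embk G a r {a} k).card : ℝ) ≤ 1 := by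
    have h1 : (embk G a r {a} k).card ≤ (emb G a r {a}).card := card_le_card (filter_subset _ _)
    have h2 := hNBP V G a r {a} (mem_singleton_self a)
    rw [card_singleton] at h2
    have h3 : (embk G a r {a} k).card ≤ 1 := by simpa using h1.trans h2
    exact_mod_cast h3
  -- one vertex
  set Y2 : Finset V := insert x₁ {a} with hY2
  have ha2 : a ∈ Y2 := mem_insert_of_mem (mem_singleton_self a)
  have h12 : ({a} : Finset V) ⊆ Y2 := subset_insert _ _
  have hone : ∀ (Y P : Finset V), P.card ≤ 1 → (((((Y ∪ P) \ Y).card : ℕ)) : ℝ) ≤ 1 := by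
    intro Y P hP
    have h1 : ((Y ∪ P) \ Y).card ≤ P.card := by
      apply card_le_card
      intro w hw
      rw [mem_sdiff, mem_union] at hw
      exact hw.1.resolve_left hw.2
    exact_mod_cast h1.trans hP
  have e1 : ((embk G a r Y2 k).card : ℝ) ≤ (Fintype.card V : ℝ) * (1 + Fintype.card V / 1) := by
    have h1 := hEXT V G a r {a} Y2 (Fintype.card V) k 1 h12 (mem_singleton_self a) hp1
      (fun z _ _ => card_le_univ _) (by
        have h2 := hone {a} {x₁} (by simp)
        have h3 : ({a} : Finset V) ∪ {x₁} = Y2 := by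
          ext w; simp [hY2, or_comm]
        rwa [h3] at h2) one_pos hk
    rw [Real.rpow_one] at h1
    refine h1.trans ?_
    have h2 : (0 : ℝ) ≤ (Fintype.card V : ℝ) * (1 + Fintype.card V / 1) := by positivity
    nlinarith
  -- the connected set
  obtain ⟨j, hj, hSQ⟩ := hCHNY V G D X Y2 x₁ hcon hx₁ (mem_insert_self _ _) hdeg
  have hR1 : 0 < (Fintype.card V : ℝ) / (20 * L) := by positivity
  have hR2 : 0 < (Fintype.card V : ℝ) / (200 * L) := by positivity
  have e2 := hSEQY V G a r Y2 (Y2 ∪ X) D j k ((Fintype.card V : ℝ) / (20 * L)) hSQ ha2 (by omega)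
    (le_trans (by exact_mod_cast hj) hXc) hR1 hk
  -- the vertex of low degree
  have e3 := hEXT V G a r (Y2 ∪ X) (Y2 ∪ X ∪ low) (Fintype.card V) k 1 subset_union_left
    (mem_union_left _ ha2) hp1 (fun z _ _ => card_le_univ _) (hone _ _ hlow) one_pos hk
  rw [Real.rpow_one] at e3
  -- the others
  have e4 := hEXT V G a r (Y2 ∪ X ∪ low) (Y2 ∪ X ∪ low ∪ A) D k ((Fintype.card V : ℝ) / (200 * L))
    subset_union_left (mem_union_left _ (mem_union_left _ ha2)) (by omega) (by
      intro z hz hz'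
      have hzA : z ∈ A := (mem_union.mp hz).resolve_left hz'
      have hzX : z ∉ X := fun h => hz' (mem_union_left _ (mem_union_right _ h))
      have hzl : z ∉ low := fun h => hz' (mem_union_right _ h)
      obtain ⟨w, hw, hzw⟩ := hA z hzA hzX hzl
      exact fy_tc (mem_union_left _ (mem_union_right _ hw)) hzw (hdeg w hw)) (by
      refine le_trans ?_ hAc
      have h1 : ((Y2 ∪ X ∪ low ∪ A) \ (Y2 ∪ X ∪ low)).card ≤ A.card := by
        apply card_le_card
        intro w hw
        rw [mem_sdiff, mem_union] at hw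
        exact hw.1.resolve_left hw.2
      exact_mod_cast h1) hR2 hk
  have hset : Y2 ∪ X ∪ low ∪ A = insert a (X ∪ low ∪ A) := by
    ext w
    simp only [hY2, mem_union, mem_insert, mem_singleton]
    constructor
    · rintro ((((h | h) | h) | h) | h)
      · rw [h]; exact Or.inr (Or.inl (Or.inl hx₁))
      · exact Or.inl h
      · exact Or.inr (Or.inl (Or.inl h))
      · exact Or.inr (Or.inl (Or.inr h))
      · exact Or.inr (Or.inr h)
    · tauto
  rw [hset] at e4
  refine e4.trans ?_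
  set P1 : ℝ := (Fintype.card V : ℝ) * (1 + Fintype.card V / 1) with hP1
  have hP10 : 0 ≤ P1 := by positivity
  have hlogD : 0 ≤ Real.log D := Real.log_nonneg (by exact_mod_cast (by omega : 1 ≤ D))
  set P2 : ℝ := ((D : ℝ) * (1 + Fintype.card V * (1 + Real.log D) /
    (Fintype.card V / (20 * L)))) ^ ((Fintype.card V : ℝ) / (20 * L)) with hP2
  have hP20 : 0 ≤ P2 := by positivity
  set P3 : ℝ := ((D : ℝ) * (1 + (Fintype.card V : ℝ) / (Fintype.card V / (200 * L)))) ^
    ((Fintype.card V : ℝ) / (200 * L)) with hP3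
  have hP30 : 0 ≤ P3 := by positivity
  have h5 : ((embk G a r (Y2 ∪ X ∪ low) k).card : ℝ) * P3 ≤ P1 ^ 2 * P2 * P3 := by
    apply mul_le_mul_of_nonneg_right _ hP30
    refine e3.trans ?_
    have h6 : ((embk G a r (Y2 ∪ X) k).card : ℝ) ≤ P1 * P2 :=
      e2.trans (mul_le_mul_of_nonneg_right e1 hP20)
    calc ((embk G a r (Y2 ∪ X) k).card : ℝ) * P1 ≤ (P1 * P2) * P1 :=
          mul_le_mul_of_nonneg_right h6 hP10
      _ = P1 ^ 2 * P2 := by ring
  refine h5.trans ?_
  have h7 : (2 : ℝ) ^ ((Fintype.card V : ℝ) / 10) = (2 : ℝ) ^ ((Fintype.card V : ℝ) / 1000) *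
      (2 : ℝ) ^ ((Fintype.card V : ℝ) * (9 / 100)) *
        (2 : ℝ) ^ ((Fintype.card V : ℝ) * (9 / 1000)) := by
    rw [← Real.rpow_add (by norm_num), ← Real.rpow_add (by norm_num)]
    congr 1
    ring
  rw [h7]
  exact mul_le_mul (mul_le_mul n3 n1 hP20 (by positivity)) n2 hP30 (by positivity)

theorem finY (hITY : SpecITY) (hPHIY : SpecPHIY) (hFSTY : SpecFSTY) (hNETY : SpecNETY)
    (hPCMX : SpecPCMX) (hECNY : SpecECNY) (hEXT : SpecEXT) (hSEQY : SpecSEQY)
    (hCHNY : SpecCHNY) (hNBP : SpecNBP) (hNUSX : SpecNUSX) (hNUNY : SpecNUNY)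
    (hNUTY : SpecNUTY) (hNUBY : SpecNUBY) (hNUFY : SpecNUFY) (hMAINK : SpecMAINK)
    (hBON : SpecBON) (hCDST : SpecCDST) (hDIS : SpecDIS)
    {V : Type} [Fintype V] {G : SimpleGraph V} {a b : V} (hH : H2 G a b) (B C W : Finset V)
    (D : ℕ) (hD : 2 ≤ D) (hWC : W ⊆ C) (hdeg : ∀ w ∈ W, deg G w ≤ D)
    (hWcon : (G.induce (W : Set V)).Connected ∨ W = univ)
    (hB : (B.card : ℝ) ≤ W.card / (1000 * Real.logb 2 D))
    (hBW : ∀ v ∈ B, v ∉ W → ∃ w ∈ W, G.Adj v w)
    (hsep : ∀ v ∈ C, v ∉ B → ∀ u, u ∉ B → u ≠ v →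
      100000 * Real.logb 2 D ≤ (((sep G v u) ∩ W).card : ℝ))
    (hloc : ∀ u, u ∉ B ∪ C → ∀ v, v ∉ B ∪ C → u ≠ v →
      ∃ w ∈ B ∪ C, ¬(G.Adj w u ↔ G.Adj w v)) :
    ∃ φ : G ≃g G, φ a = b := by
  rcases eq_or_ne a b with rfl | hab
  · exact ⟨RelIso.refl _, rfl⟩
  have hWcon' : (G.induce (W : Set V)).Connected ∨ ¬ G.Connected := by
    rcases hWcon with h | h
    · exact Or.inl h
    · by_cases hcon : G.Connected
      · left
        rw [h, coe_univ]
        exact (SimpleGraph.induceUnivIso G).connected_iff.mpr hcon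
      · exact Or.inr hcon
  rcases hWcon' with hWc | hcon
  swap
  · exact hDIS V G a b hcon hH
  have hp : 2 ≤ Fintype.card V := Fintype.one_lt_card_iff.mpr ⟨a, b, hab⟩
  have hp' : (2 : ℝ) ≤ Fintype.card V := by exact_mod_cast hp
  have hl : 1 ≤ Real.logb 2 D := fin_logb hD
  set L := Real.logb 2 D with hL
  have hL0 : 0 < L := by linarith
  have ht0 : 0 < 100000 * L := by positivity
  have hqp : (W.card : ℝ) ≤ Fintype.card V := by exact_mod_cast card_le_univ W
  obtain ⟨w₀, hw₀⟩ : W.Nonempty := by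
    obtain ⟨⟨x, hx⟩⟩ := hWc.nonempty
    exact ⟨x, mem_coe.mp hx⟩
  have hq1 : (1 : ℝ) ≤ W.card := by exact_mod_cast card_pos.mpr ⟨w₀, hw₀⟩
  -- two vertices of `W` outside `B`
  have hBq : (B.card : ℝ) ≤ W.card / 1000 := by
    refine hB.trans ?_
    apply div_le_div_of_nonneg_left (by linarith) (by norm_num)
    linarith
  obtain ⟨v₀, hv₀W, hv₀⟩ : ∃ v ∈ W, v ∉ B := by
    by_contra h
    push Not at h
    have h1 : W.card ≤ B.card := card_le_card h
    have h2 : (W.card : ℝ) ≤ B.card := by exact_mod_cast h1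
    linarith
  have hnq : 100000 * L ≤ (W.card : ℝ) := by
    obtain ⟨u, hu, huv⟩ : ∃ u, u ∉ B ∧ u ≠ v₀ := by
      have h1 : B.card + 1 < Fintype.card V := by
        have : (B.card : ℝ) + 1 < Fintype.card V := by linarith
        exact_mod_cast this
      have h2 : 1 < (univ \ B).card := by
        rw [card_sdiff_of_subset (subset_univ _), card_univ]; omega
      obtain ⟨u, hu, huv⟩ := exists_mem_ne h2 v₀
      exact ⟨u, (mem_sdiff.mp hu).2, huv⟩
    refine (hsep v₀ (hWC hv₀W) hv₀ u hu huv).trans ?_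
    exact_mod_cast card_le_card inter_subset_right
  have hnp : 100000 * L ≤ (Fintype.card V : ℝ) := hnq.trans hqp
  have hnD : 50000 * L ≤ (D : ℝ) := by
    obtain ⟨u₀, hu₀W, hu₀, huv₀⟩ : ∃ u ∈ W, u ∉ B ∧ u ≠ v₀ := by
      have h2 : 1 < (W \ B).card := by
        have h3 := le_card_sdiff B W
        have h4 : (B.card : ℝ) + 1 < W.card := by linarith
        have h5 : B.card + 1 < W.card := by exact_mod_cast h4
        omega
      obtain ⟨u, hu, huv⟩ := exists_mem_ne h2 v₀
      exact ⟨u, (mem_sdiff.mp hu).1, (mem_sdiff.mp hu).2, huv⟩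
    have h3 : (sep G v₀ u₀ ∩ W).card ≤ (sep G v₀ u₀).card := card_le_card inter_subset_left
    have h4 := (fin_sep_deg G v₀ u₀).trans (Nat.add_le_add (hdeg v₀ hv₀W) (hdeg u₀ hu₀W))
    have h5 : (sep G v₀ u₀ ∩ W).card ≤ 2 * D := by omega
    have h6 : ((sep G v₀ u₀ ∩ W).card : ℝ) ≤ 2 * D := by exact_mod_cast h5
    linarith [hsep v₀ (hWC hv₀W) hv₀ u₀ hu₀ huv₀]
  have hL15 : 15 ≤ L := by
    have h1 : (50000 : ℝ) ≤ D := by linarith
    rw [hL, Real.le_logb_iff_rpow_le (by norm_num) (by linarith)]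
    have h2 : (2 : ℝ) ^ (15 : ℝ) = 32768 := by
      rw [show (15 : ℝ) = ((15 : ℕ) : ℝ) by norm_num, Real.rpow_natCast]; norm_num
    rw [h2]; linarith
  have hpL : 100000 ≤ (Fintype.card V : ℝ) / L := by
    rw [le_div_iff₀ hL0]; exact hnp
  -- the vertex of low degree
  set low : Finset V := univ.filter fun v => v ∈ C ∧ v ∉ B ∧
    (((W.filter fun w => G.Adj v w).card : ℕ) : ℝ) < 100000 * L / 2 with hlow
  have hlowc : low.card ≤ 1 := by
    rw [card_le_one]
    intro u hu v hv
    by_contra huv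
    rw [hlow, mem_filter] at hu hv
    have h1 := hsep u hu.2.1 hu.2.2.1 v hv.2.2.1 (fun h => huv h.symm)
    have h2 : ((sep G u v ∩ W).card : ℝ) ≤ ((W.filter fun w => G.Adj u w).card : ℝ) +
        ((W.filter fun w => G.Adj v w).card : ℝ) := by exact_mod_cast fy_sep G W u v
    linarith [hu.2.2.2, hv.2.2.2]
  set B' : Finset V := B ∪ low with hB'
  have hB'c : (B'.card : ℝ) ≤ B.card + 1 := by
    have h1 : B'.card ≤ B.card + 1 := (card_union_le _ _).trans (by omega)
    exact_mod_cast h1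
  have hsep' : ∀ v ∈ C, v ∉ B' → ∀ u, u ∉ B' → u ≠ v →
      100000 * L ≤ (((sep G v u) ∩ W).card : ℝ) := fun v hv hvB u hu huv =>
    hsep v hv (fun h => hvB (mem_union_left _ h)) u (fun h => hu (mem_union_left _ h)) huv
  have hdW : ∀ v ∈ C, v ∉ B' →
      100000 * L / 2 ≤ (((W.filter fun w => G.Adj v w).card : ℕ) : ℝ) := by
    intro v hv hvB
    by_contra h
    rw [not_le] at h
    exact hvB (mem_union_right _ (mem_filter.mpr ⟨mem_univ _, hv,
      fun h' => hvB (mem_union_left _ h'), h⟩))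
  -- the phases
  obtain ⟨s, hs1, hs2⟩ := hNUSX W.card (100000 * L) ht0 hnq
  set m := ⌈1000 * L ^ 2⌉₊ with hm
  have hmL : 1000 * L ^ 2 ≤ (m : ℝ) := Nat.le_ceil _
  have hm1 : 1 ≤ m := by
    have h1 : (1 : ℝ) ≤ m := by nlinarith
    exact_mod_cast h1
  have hm0 : (0 : ℝ) < m := by exact_mod_cast hm1
  have hR0 : 0 < 6 * (Fintype.card V : ℝ) / (100000 * L) := by positivity
  have hs2' : (s : ℝ) ≤ 6 * (Fintype.card V : ℝ) / (100000 * L) :=
    hs2.trans (div_le_div_of_nonneg_right (by linarith) ht0.le)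
  obtain ⟨N, hN1, hN2, hN3⟩ := hNUNY (Fintype.card V) D hD hnD hnp
  rw [← hL] at hN1 hN2 hN3
  obtain ⟨F, Y, hFY, hYW, hPC, hu, hFc, hYc⟩ := hITY V G B' C W B' D m s (100000 * L)
    (6 * (Fintype.card V : ℝ) / (100000 * L)) hm1 hdeg hWC (Subset.refl B') ht0 hnq hs1 hs2' hR0
    hsep' hdW N
  set U : Finset V := EC G B' C Y ∪ BC G B' C Y m with hU
  have hmi : 4 * (Fintype.card V : ℝ) / m ≤ Fintype.card V / L * (4 / 15000) := by
    have h1 : 1000 * (15 * L) ≤ (m : ℝ) := by nlinarith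
    have h2 : 4 * (Fintype.card V : ℝ) / m ≤ 4 * Fintype.card V / (1000 * (15 * L)) :=
      div_le_div_of_nonneg_left (by positivity) (by positivity) h1
    have h3 : 4 * (Fintype.card V : ℝ) / (1000 * (15 * L)) = Fintype.card V / L * (4 / 15000) := by
      field_simp; norm_num
    linarith
  have hUc : (U.card : ℝ) ≤ Fintype.card V / L * (8 / 10000) := by
    have h1 : U.card ≤ (EC G B' C Y).card + (BC G B' C Y m).card := card_union_le _ _
    have h2 : (U.card : ℝ) ≤ (EC G B' C Y).card + (BC G B' C Y m).card := by exact_mod_cast h1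
    have h3 : (0 : ℝ) ≤ (EC G B' C Y).card := Nat.cast_nonneg _
    have h4 : (Fintype.card V : ℝ) / (2000 * L) = Fintype.card V / L * (1 / 2000) := by
      field_simp
    rw [h4] at hN1
    linarith
  have hB'c' : (B'.card : ℝ) ≤ Fintype.card V / L * (11 / 10000) := by
    have h1 : (W.card : ℝ) / (1000 * L) ≤ Fintype.card V / (1000 * L) :=
      div_le_div_of_nonneg_right hqp (by positivity)
    have h2 : (Fintype.card V : ℝ) / (1000 * L) = Fintype.card V / L * (1 / 1000) := by
      field_simp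
    linarith
  have hUC : ∀ v ∈ U, v ∈ C ∧ v ∉ B' := by
    intro v hv
    rw [hU, mem_union, EC, BC, mem_filter, mem_filter] at hv
    rcases hv with hv | hv
    · exact ⟨hv.2.1, hv.2.2.1⟩
    · exact ⟨hv.2.1, hv.2.2.1⟩
  -- the connected set
  obtain ⟨N₀, hN₀W, hN₀c, hN₀⟩ := hNETY V G W (100000 * L) ht0
  have hrep : ∀ v : V, ∃ w ∈ W, (v ∈ W → w = v) ∧
      (v ∉ W → (∃ w' ∈ W, G.Adj v w') → G.Adj v w) := by
    intro v
    by_cases hv : v ∈ W
    · exact ⟨v, hv, fun _ => rfl, fun h => absurd hv h⟩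
    · by_cases h : ∃ w' ∈ W, G.Adj v w'
      · obtain ⟨w', hw', h'⟩ := h
        exact ⟨w', hw', fun h => absurd h hv, fun _ _ => h'⟩
      · exact ⟨w₀, hw₀, fun h => absurd h hv, fun _ h' => absurd h' h⟩
  choose rep hrepW hrep1 hrep2 using hrep
  set D₁ : Finset V := insert w₀ (F ∪ N₀ ∪ (U ∪ B').image rep) with hD₁
  have hD₁W : D₁ ⊆ W := by
    intro v hv
    rw [hD₁, mem_insert, mem_union, mem_union, mem_image] at hv
    rcases hv with hv | (hv | hv) | ⟨x, -, hv⟩
    · rw [hv]; exact hw₀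
    · exact hYW (hFY hv)
    · exact hN₀W hv
    · rw [← hv]; exact hrepW x
  have hdom : ∀ v ∈ W, v ∈ D₁ ∨ (∃ w ∈ D₁, G.Adj v w) ∨
      ∃ w ∈ D₁, ∃ z ∈ W, G.Adj v z ∧ G.Adj z w := by
    intro v hv
    have hN : ∀ w ∈ N₀, w ∈ D₁ := fun w hw =>
      mem_insert_of_mem (mem_union_left _ (mem_union_right _ hw))
    by_cases hvB : v ∈ B'
    · left
      have h1 : rep v ∈ D₁ := mem_insert_of_mem (mem_union_right _
        (mem_image_of_mem _ (mem_union_right _ hvB)))
      rwa [hrep1 v hv] at h1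
    · rcases hN₀ v hv (hdW v (hWC hv) hvB) with h | ⟨w, hw, h⟩ | ⟨w, hw, z, hz, h⟩
      · exact Or.inl (hN v h)
      · exact Or.inr (Or.inl ⟨w, hN w hw, h⟩)
      · exact Or.inr (Or.inr ⟨w, hN w hw, z, hz, h⟩)
  obtain ⟨X₁, hDX, hXW, hXcon, hXc⟩ := hCDST V G W D₁ hWc ⟨w₀, mem_insert_self _ _⟩ hD₁W hdom
  have hFX : F ⊆ X₁ := fun w hw =>
    hDX (mem_insert_of_mem (mem_union_left _ (mem_union_left _ hw)))
  have hw₀X : w₀ ∈ X₁ := hDX (mem_insert_self _ _)
  have hrepX : ∀ v ∈ U ∪ B', rep v ∈ X₁ := fun v hv =>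
    hDX (mem_insert_of_mem (mem_union_right _ (mem_image_of_mem _ hv)))
  -- the size of the connected set
  have hX₁c : (X₁.card : ℝ) ≤ Fintype.card V / (20 * L) := by
    have h1 : D₁.card ≤ F.card + N₀.card + (U.card + B'.card) + 1 := by
      have h2 : D₁.card ≤ (F ∪ N₀ ∪ (U ∪ B').image rep).card + 1 := card_insert_le _ _
      have h3 := card_union_le (F ∪ N₀) ((U ∪ B').image rep)
      have h4 := card_union_le F N₀
      have h5 := card_image_le (s := U ∪ B') (f := rep)
      have h6 := card_union_le U B'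
      omega
    have h2 : X₁.card + 4 ≤ 5 * (F.card + N₀.card + (U.card + B'.card) + 1) := by omega
    have h2' : (X₁.card : ℝ) + 4 ≤ 5 * (F.card + N₀.card + (U.card + B'.card) + 1) := by
      exact_mod_cast h2
    have h3 : (N₀.card : ℝ) ≤ Fintype.card V / L * (2 / 100000) := by
      have h4 : (N₀.card : ℝ) ≤ Fintype.card V / (50000 * L) := by
        rw [le_div_iff₀ (by positivity)]
        linarith
      have h5 : (Fintype.card V : ℝ) / (50000 * L) = Fintype.card V / L * (2 / 100000) := by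
        field_simp; norm_num
      linarith
    have h4 : Phi G B' Y D / m ≤ Fintype.card V / L * (1 / 1000) := by
      have h5 := (hPHIY V G B' W D hdeg).2.1 Y hYW
      rw [← hL] at h5
      have h6 : (Fintype.card V : ℝ) / L * (1 / 1000) = Fintype.card V / (1000 * L) := by
        field_simp
      rw [h6, div_le_div_iff₀ hm0 (by positivity)]
      have h7 : Phi G B' Y D * (1000 * L) ≤ (Fintype.card V * L) * (1000 * L) :=
        mul_le_mul_of_nonneg_right h5 (by positivity)
      have h8 : (Fintype.card V : ℝ) * (1000 * L ^ 2) ≤ Fintype.card V * m :=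
        mul_le_mul_of_nonneg_left hmL (by linarith)
      linarith
    have hsq : (s : ℝ) / W.card ≤ 6 / (100000 * L) := by
      rw [div_le_div_iff₀ (by linarith) ht0]
      rw [le_div_iff₀ ht0] at hs2
      linarith
    have h5 : 36 * (s : ℝ) * Fintype.card V / W.card * (1 - (3 / 4 : ℝ) ^ N) ≤
        Fintype.card V / L * (216 / 100000) := by
      have h6 : (0 : ℝ) ≤ (3 / 4 : ℝ) ^ N := by positivity
      have h7 : (0 : ℝ) ≤ 36 * (s : ℝ) * Fintype.card V / W.card := by positivity
      have h8 : 36 * (s : ℝ) * Fintype.card V / W.card = 36 * Fintype.card V * (s / W.card) := by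
        ring
      have h9 : 36 * Fintype.card V * ((s : ℝ) / W.card) ≤
          36 * Fintype.card V * (6 / (100000 * L)) :=
        mul_le_mul_of_nonneg_left hsq (by positivity)
      have h10 : 36 * (Fintype.card V : ℝ) * (6 / (100000 * L)) =
          Fintype.card V / L * (216 / 100000) := by
        field_simp; norm_num
      nlinarith
    have h6 : 12 * (s : ℝ) * N * Fintype.card V / (m * W.card) ≤
        Fintype.card V / L * (1 / 100000) := by
      have h8 : 12 * (s : ℝ) * N * Fintype.card V / (m * W.card) =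
          12 * (N * Fintype.card V / m) * (s / W.card) := by
        field_simp
      have h9 : 12 * ((N : ℝ) * Fintype.card V / m) * (s / W.card) ≤
          12 * (N * Fintype.card V / m) * (6 / (100000 * L)) :=
        mul_le_mul_of_nonneg_left hsq (by positivity)
      have h10 : (N : ℝ) * (6 / (100000 * L)) ≤ 1 / 1000 := by
        have h11 : (N : ℝ) * (6 * Fintype.card V / (100000 * L)) =
            (N * (6 / (100000 * L))) * Fintype.card V := by ring
        rw [h11] at hN3
        have h12 : (Fintype.card V : ℝ) / 1000 = (1 / 1000) * Fintype.card V := by ring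
        rw [h12] at hN3
        exact le_of_mul_le_mul_right hN3 (by linarith)
      have h13 : 12 * ((N : ℝ) * Fintype.card V / m) * (6 / (100000 * L)) =
          (4 * Fintype.card V / m) * (3 * (N * (6 / (100000 * L)))) := by ring
      have h14 : (4 * (Fintype.card V : ℝ) / m) * (3 * (N * (6 / (100000 * L)))) ≤
          (Fintype.card V / L * (4 / 15000)) * (3 * (1 / 1000)) := by
        apply mul_le_mul hmi (by linarith) (by positivity) (by positivity)
      have h15 : (0 : ℝ) ≤ Fintype.card V / L := by positivity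
      rw [h8]
      linarith
    have e6 : (Fintype.card V : ℝ) / (20 * L) = (Fintype.card V / L) / 20 := by
      field_simp
    rw [e6]
    linarith
  -- the base
  set X₀ : Finset V := insert a (X₁ ∪ low ∪ (U ∪ B)) with hX₀
  have haX₀ : a ∈ X₀ := mem_insert_self _ _
  have hX₁X₀ : X₁ ⊆ X₀ := fun w hw => mem_insert_of_mem (mem_union_left _ (mem_union_left _ hw))
  have hUX₀ : U ⊆ X₀ := fun w hw => mem_insert_of_mem (mem_union_right _ (mem_union_left _ hw))
  have hB'X₀ : B' ⊆ X₀ := by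
    intro w hw
    rcases mem_union.mp hw with hw | hw
    · exact mem_insert_of_mem (mem_union_right _ (mem_union_right _ hw))
    · exact mem_insert_of_mem (mem_union_left _ (mem_union_right _ hw))
  have hUBc : ((U ∪ B).card : ℝ) ≤ Fintype.card V / L * (19 / 10000) := by
    have h1 : (U ∪ B).card ≤ U.card + B.card := card_union_le _ _
    have h2 : ((U ∪ B).card : ℝ) ≤ U.card + B.card := by exact_mod_cast h1
    have h3 : (B.card : ℝ) ≤ B'.card := by exact_mod_cast card_le_card subset_union_left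
    linarith
  have hbase : ∀ r k, k ≤ Fintype.card V →
      ((embk G a r X₀ k).card : ℝ) ≤ (2 : ℝ) ^ ((Fintype.card V : ℝ) / 10) := by
    intro r k hk
    refine fy_base hEXT hSEQY hCHNY hNUBY hNBP a r D k hD hnD hnp hl hk X₁ low (U ∪ B) hw₀X
      hXcon (fun w hw => hdeg w (hXW hw)) hX₁c hlowc ?_ ?_
    · intro z hz hzX hzl
      have hzUB : z ∈ U ∪ B' := by
        rcases mem_union.mp hz with h | h
        · exact mem_union_left _ h
        · exact mem_union_right _ (mem_union_left _ h)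
      have hzW : z ∉ W := by
        intro h
        apply hzX
        have h1 := hrepX z hzUB
        rwa [hrep1 z h] at h1
      refine ⟨rep z, hrepX z hzUB, hrep2 z hzW ?_⟩
      rcases mem_union.mp hz with h | h
      · obtain ⟨h1, h2⟩ := hUC z h
        have h3 := hdW z h1 h2
        have h4 : (0 : ℝ) < (((W.filter fun w => G.Adj z w).card : ℕ) : ℝ) := by linarith
        have h5 : 0 < (W.filter fun w => G.Adj z w).card := by exact_mod_cast h4
        obtain ⟨w, hw⟩ := card_pos.mp h5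
        exact ⟨w, (mem_filter.mp hw).1, (mem_filter.mp hw).2⟩
      · exact hBW z h hzW
    · refine hUBc.trans ?_
      have e6 : (Fintype.card V : ℝ) / (200 * L) = (Fintype.card V / L) * (1 / 200) := by
        field_simp
      rw [← hL, e6]
      linarith
  -- the last stage
  have hPC' := hPCMX V G (F ∪ B') X₀ (Y ∪ B') _ hPC (union_subset (hFX.trans hX₁X₀) hB'X₀)
  have hcl : ∀ v ∈ C, v ∉ Y ∪ X₀ → (cl G B' Y v).card ≤ 2 * m := by
    intro v hvC hv
    have hvX : v ∉ X₀ := fun h => hv (mem_union_right _ h)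
    have hvB : v ∉ B' := fun h => hvX (hB'X₀ h)
    have hvU : v ∉ U := fun h => hvX (hUX₀ h)
    have h1 : ¬ Em G Y v := fun h =>
      hvU (mem_union_left _ (mem_filter.mpr ⟨mem_univ _, hvC, hvB, h⟩))
    have h2 : ¬ 2 * m ≤ (cl G B' Y v).card := fun h =>
      hvU (mem_union_right _ (mem_filter.mpr ⟨mem_univ _, hvC, hvB, h1, h⟩))
    omega
  obtain ⟨s', hs'1, hs'2⟩ := hNUTY (Fintype.card V) W.card D hD hnD hnq (card_le_univ W)
  rw [← hL, ← hm] at hs'1 hs'2
  obtain ⟨S, hSW, hSc, hSsep⟩ := hFSTY V G B' C W Y X₀ (2 * m) s' (100000 * L) ht0 hnq hB'X₀ hcl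
    hsep'
  have hSc' : (S.card : ℝ) ≤ Fintype.card V / (6000 * Real.sqrt L) := hSc.trans hs'1
  have hsq : 1 ≤ Real.sqrt L := by
    rw [Real.one_le_sqrt]; exact hl
  have hR'0 : 0 < (Fintype.card V : ℝ) / (6000 * Real.sqrt L) := by positivity
  set Xc : Finset V := (Y ∪ B') ∪ X₀ ∪ S with hXcd
  have hPC'' : PC G X₀ Xc ((((((2 * m : ℕ) : ℝ) * (1 + Fintype.card V /
      (6 * (Fintype.card V : ℝ) / (100000 * L)))) ^ (6 * (Fintype.card V : ℝ) / (100000 * L))) ^ N) *
      (((2 * m : ℕ) : ℝ) * (1 + Fintype.card V / ((Fintype.card V : ℝ) / (6000 * Real.sqrt L)))) ^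
        ((Fintype.card V : ℝ) / (6000 * Real.sqrt L))) := by
    refine PC.paid hPC' subset_union_left (by omega) ?_ ?_ hR'0
    · intro z hz hz'
      have hzS : z ∈ S := (mem_union.mp hz).resolve_left hz'
      have hzC : z ∈ C := hWC (hSW hzS)
      have hzYX : z ∉ Y ∪ X₀ := by
        intro h
        rcases mem_union.mp h with h | h
        · exact hz' (mem_union_left _ (mem_union_left _ h))
        · exact hz' (mem_union_right _ h)
      refine le_trans (card_le_card ?_) (hcl z hzC hzYX)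
      intro u hu
      rw [tc, mem_filter] at hu
      rw [cl, mem_filter]
      exact ⟨mem_univ _, fun h => hu.2.1 (mem_union_left _ (mem_union_right _ h)),
        fun w hw => hu.2.2 w (mem_union_left _ (mem_union_left _ hw))⟩
    · refine le_trans ?_ hSc'
      have h1 : (Xc \ ((Y ∪ B') ∪ X₀)).card ≤ S.card := by
        apply card_le_card
        intro w hw
        rw [mem_sdiff, hXcd, mem_union] at hw
        exact hw.1.resolve_left hw.2
      exact_mod_cast h1
  have hX₀Xc : X₀ ⊆ Xc := fun w hw => mem_union_left _ (mem_union_right _ hw)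
  have hB'Xc : B' ⊆ Xc := hB'X₀.trans hX₀Xc
  have haXc : a ∈ Xc := hX₀Xc haX₀
  have huniq : ∀ c ∈ C, c ∉ Xc → Uniq G Xc c := by
    intro c hc hcX u hu huc
    have h1 : c ∉ Y ∪ X₀ := by
      intro h
      rcases mem_union.mp h with h | h
      · exact hcX (mem_union_left _ (mem_union_left _ (mem_union_left _ h)))
      · exact hcX (hX₀Xc h)
    obtain ⟨w, hw, hw'⟩ := hSsep c hc h1 u (fun h => hu (hB'Xc h)) huc
    refine ⟨w, ?_, hw'⟩
    rcases mem_union.mp hw with h | h
    · exact mem_union_left _ (mem_union_left _ (mem_union_left _ h))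
    · exact mem_union_right _ h
  have hlocX : Locating G (Xc ∪ C) := by
    intro u hu v hv huv
    have h1 : ∀ x, x ∉ Xc ∪ C → x ∉ B ∪ C := by
      intro x hx h
      rcases mem_union.mp h with h | h
      · exact hx (mem_union_left _ (hB'Xc (mem_union_left _ h)))
      · exact hx (mem_union_right _ h)
    obtain ⟨w, hw, hw'⟩ := hloc u (h1 u hu) v (h1 v hv) huv
    refine ⟨w, ?_, hw'⟩
    rcases mem_union.mp hw with h | h
    · exact mem_union_left _ (hB'Xc (mem_union_left _ h))
    · exact mem_union_right _ h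
  obtain ⟨X, hXcX, hReach, hXloc, hBon⟩ := hBON V G Xc C huniq hlocX
  -- sizes
  have hXcc : (Xc.card : ℝ) ≤ Fintype.card V / 50 := by
    have h1 : Xc.card ≤ (Y.card + B'.card) + (((X₁.card + low.card) + (U ∪ B).card) + 1) +
        S.card := by
      have h2 : Xc.card ≤ ((Y ∪ B') ∪ X₀).card + S.card := card_union_le _ _
      have h3 := card_union_le (Y ∪ B') X₀
      have h4 := card_union_le Y B'
      have h5 : X₀.card ≤ (X₁ ∪ low ∪ (U ∪ B)).card + 1 := card_insert_le _ _
      have h6 := card_union_le (X₁ ∪ low) (U ∪ B)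
      have h7 := card_union_le X₁ low
      omega
    have h2 : F.card ≤ X₁.card := card_le_card hFX
    have h3 : Xc.card ≤ ((X₁.card + N * s) + B'.card) + (((X₁.card + 1) + (U ∪ B).card) + 1) +
        S.card := by omega
    have h4 : (Xc.card : ℝ) ≤ ((X₁.card + N * s) + B'.card) +
        (((X₁.card + 1) + (U ∪ B).card) + 1) + S.card := by exact_mod_cast h3
    have h5 : (N : ℝ) * s ≤ Fintype.card V / 1000 :=
      (mul_le_mul_of_nonneg_left hs2' (Nat.cast_nonneg _)).trans hN3
    have h6 : (Fintype.card V : ℝ) / (6000 * Real.sqrt L) ≤ Fintype.card V / 6000 := by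
      apply div_le_div_of_nonneg_left (by linarith) (by norm_num)
      linarith
    have h7 : (Fintype.card V : ℝ) / (20 * L) ≤ Fintype.card V / 300 := by
      apply div_le_div_of_nonneg_left (by linarith) (by norm_num)
      linarith
    have h8 : (Fintype.card V : ℝ) / L ≤ Fintype.card V / 15 := by
      apply div_le_div_of_nonneg_left (by linarith) (by norm_num) hL15
    linarith
  set m' := Fintype.card V - X.card with hm'
  have hm'p : m' ≤ Fintype.card V := Nat.sub_le _ _
  have h49 : 49 * Fintype.card V ≤ 100 * m' := by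
    have h1 : (Fintype.card V : ℝ) ≤ 2 * m' + Xc.card := by exact_mod_cast hBon
    have h2 : (49 : ℝ) * Fintype.card V ≤ 100 * m' := by linarith
    exact_mod_cast h2
  -- the count
  by_contra hno
  have hfin := hNUFY (Fintype.card V) D m' hD hnD hnp hm'p h49
  set K : ℝ := (2 : ℝ) ^ ((Fintype.card V : ℝ) * (112 / 1000)) with hK
  have hE : ∀ r k, k ≤ Fintype.card V → ((embk G a r Xc k).card : ℝ) ≤ K := by
    intro r k hk
    refine (hECNY V G a r X₀ Xc _ k hPC'' haX₀ hk).trans ?_
    have h1 : K = (2 : ℝ) ^ ((Fintype.card V : ℝ) / 10) *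
        ((2 : ℝ) ^ ((Fintype.card V : ℝ) / 100) * (2 : ℝ) ^ ((Fintype.card V : ℝ) / 500)) := by
      rw [hK, ← Real.rpow_add (by norm_num), ← Real.rpow_add (by norm_num)]
      congr 1
      ring
    rw [h1]
    exact mul_le_mul (hbase r k hk) (mul_le_mul hN2 hs'2 (by positivity) (by positivity))
      (by positivity) (by positivity)
  have h4m : (4 : ℝ) ^ m' ≤ (m' + 1) * (2 * K * 3 ^ m') := by
    have h2 : (4 : ℝ) ^ m' = ∑ k ∈ range (m' + 1), 1 ^ k * 3 ^ (m' - k) * (m'.choose k : ℝ) := by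
      have h := add_pow (1 : ℝ) 3 m'
      rw [← h]; norm_num
    rw [h2]
    have h3 : ∀ k ∈ range (m' + 1),
        (1 : ℝ) ^ k * 3 ^ (m' - k) * (m'.choose k : ℝ) ≤ 2 * K * 3 ^ m' := by
      intro k hk
      rw [mem_range] at hk
      have hk' : k ≤ m' := by omega
      have h4 := hMAINK V G a b Xc X haXc hReach hXloc hH hno k hk'
      have h5 : ((m'.choose k : ℕ) : ℝ) ≤ 3 ^ k * (((embk G a a Xc k).card : ℝ) +
          ((embk G a b Xc k).card : ℝ)) := by exact_mod_cast h4
      have h6 := hE a k (hk'.trans hm'p)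
      have h7 := hE b k (hk'.trans hm'p)
      have h8 : ((m'.choose k : ℕ) : ℝ) ≤ 3 ^ k * (2 * K) := by
        refine h5.trans (mul_le_mul_of_nonneg_left ?_ (by positivity))
        linarith
      calc (1 : ℝ) ^ k * 3 ^ (m' - k) * (m'.choose k : ℝ)
            ≤ 1 ^ k * 3 ^ (m' - k) * (3 ^ k * (2 * K)) :=
            mul_le_mul_of_nonneg_left h8 (by positivity)
        _ = 2 * K * (3 ^ (m' - k) * 3 ^ k) := by rw [one_pow]; ring
        _ = 2 * K * 3 ^ m' := by rw [← pow_add, Nat.sub_add_cancel hk']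
    refine (sum_le_card_nsmul _ _ _ h3).trans ?_
    rw [card_range, nsmul_eq_mul]
    push_cast
    exact le_rfl
  have h9 : (m' + 1 : ℝ) * (2 * K * 3 ^ m') = 2 * K * (m' + 1) * 3 ^ m' := by ring
  rw [h9] at h4m
  exact absurd hfin (not_lt.mpr h4m)

end Pool.Agent.Lib.MP50ecf8.LOC
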