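import Pool.Agent.Lib.MP_50ecf8_co.LOC.Spec4

/-!
# Module STG: one stage of the random revealing
-/

set_option autoImplicit false

open Finset
open scoped Classical

namespace Pool.Agent.Lib.MP50ecf8.LOC

namespace STGM

variable {V : Type} [Fintype V]

/-- the tuples with values in `C` which avoid `A` -/
noncomputable def avC (s : ℕ) (C A : Finset V) : Finset (Fin s → V) :=
  Fintype.piFinset fun _ => C \ A

theorem card_avC (s : ℕ) (C A : Finset V) (x : ℝ) (hAC : A ⊆ C) (hx : x ≤ A.card)
    (hp : 0 < C.card) :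
    ((avC s C A).card : ℝ) ≤ (C.card : ℝ) ^ s * (1 - x / C.card) ^ s := by
  have h2 : (avC s C A).card = (C.card - A.card) ^ s := by
    rw [avC, Fintype.card_piFinset, prod_const, card_univ, Fintype.card_fin,
      card_sdiff_of_subset hAC]
  have hp0 : (0 : ℝ) < C.card := by exact_mod_cast hp
  have h3 : (C.card : ℝ) * (1 - x / C.card) = C.card - x := by
    field_simp
  rw [← mul_pow, h3, h2, Nat.cast_pow, Nat.cast_sub (card_le_card hAC)]
  apply pow_le_pow_left₀
  · rw [sub_nonneg]
    exact_mod_cast card_le_card hAC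
  · linarith

/-- the bad vertices -/
noncomputable def bad (G : SimpleGraph V) (Y C : Finset V) (t : ℝ) {s : ℕ} (c : Fin s → V) :
    Finset V :=
  (C \ Y).filter fun v => ∃ u ∈ (tc G Y v).filter (fun u => t ≤ ((sC G C v u).card : ℝ)),
    ∀ i, c i ∉ sC G C v u

end STGM

open STGM

theorem specSTG : SpecSTG := by
  intro V _ G Y C n s t ht htC hC hn
  have hP0 : (0 : ℝ) < C.card := by exact_mod_cast hC
  set P : ℝ := (C.card : ℝ) with hP
  have hx1 : 0 ≤ 1 - t / P := by
    rw [sub_nonneg, div_le_one hP0]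
    exact htC
  set T : Finset (Fin s → V) := Fintype.piFinset fun _ => C with hT
  have hTc : (T.card : ℝ) = P ^ s := by
    rw [hT, Fintype.card_piFinset, prod_const, card_univ, Fintype.card_fin, Nat.cast_pow]
  have hTn : T.Nonempty := by
    obtain ⟨x, hx⟩ := card_pos.1 hC
    exact ⟨fun _ => x, by rw [hT, Fintype.mem_piFinset]; exact fun _ => hx⟩
  -- double counting
  have hcount : ∑ c ∈ T, ((bad G Y C t c).card : ℝ) ≤
      ∑ v ∈ C \ Y, ∑ u ∈ (tc G Y v).filter (fun u => t ≤ ((sC G C v u).card : ℝ)),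
        ((avC s C (sC G C v u)).card : ℝ) := by
    have e1 : ∑ c ∈ T, ((bad G Y C t c).card : ℝ) =
        ∑ v ∈ C \ Y, ((T.filter fun c : Fin s → V => v ∈ bad G Y C t c).card : ℝ) := by
      have h : ∀ c : Fin s → V, ((bad G Y C t c).card : ℝ) =
          ∑ v ∈ C \ Y, if v ∈ bad G Y C t c then (1 : ℝ) else 0 := by
        intro c
        rw [sum_ite_mem, sum_const, nsmul_eq_mul, mul_one]
        congr 2
        symm
        rw [inter_eq_right]
        exact filter_subset _ _
      rw [sum_congr rfl fun c _ => h c, sum_comm]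
      refine sum_congr rfl fun v _ => ?_
      rw [← sum_filter, sum_const, nsmul_eq_mul, mul_one]
    rw [e1]
    refine sum_le_sum fun v _ => ?_
    have h1 : (T.filter fun c : Fin s → V => v ∈ bad G Y C t c) ⊆
        ((tc G Y v).filter (fun u => t ≤ ((sC G C v u).card : ℝ))).biUnion
          fun u => avC s C (sC G C v u) := by
      intro c hc
      rw [mem_filter, bad, mem_filter] at hc
      obtain ⟨hcT, -, u, hu, h⟩ := hc
      rw [mem_biUnion]
      refine ⟨u, hu, ?_⟩
      rw [avC, Fintype.mem_piFinset]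
      intro i
      rw [mem_sdiff]
      rw [hT, Fintype.mem_piFinset] at hcT
      exact ⟨hcT i, h i⟩
    have h2 := (card_le_card h1).trans card_biUnion_le
    exact_mod_cast h2
  have hb : ∑ v ∈ C \ Y, ∑ u ∈ (tc G Y v).filter (fun u => t ≤ ((sC G C v u).card : ℝ)),
      ((avC s C (sC G C v u)).card : ℝ) ≤ P * ((n : ℝ) * (P ^ s * (1 - t / P) ^ s)) := by
    have hpos : 0 ≤ P ^ s * (1 - t / P) ^ s := by positivity
    calc ∑ v ∈ C \ Y, ∑ u ∈ (tc G Y v).filter (fun u => t ≤ ((sC G C v u).card : ℝ)),
          ((avC s C (sC G C v u)).card : ℝ) ≤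
        ∑ v ∈ C \ Y, ∑ u ∈ (tc G Y v).filter (fun u => t ≤ ((sC G C v u).card : ℝ)),
          (P ^ s * (1 - t / P) ^ s) := by
          refine sum_le_sum fun v _ => sum_le_sum fun u hu => ?_
          rw [mem_filter] at hu
          exact card_avC s C (sC G C v u) t inter_subset_right hu.2 hC
      _ ≤ ∑ v ∈ C \ Y, ((n : ℝ) * (P ^ s * (1 - t / P) ^ s)) := by
          refine sum_le_sum fun v hv => ?_
          rw [mem_sdiff] at hv
          rw [sum_const, nsmul_eq_mul]
          apply mul_le_mul_of_nonneg_right _ hpos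
          exact_mod_cast (card_filter_le _ _).trans (hn v hv.1 hv.2)
      _ = ((C \ Y).card : ℝ) * ((n : ℝ) * (P ^ s * (1 - t / P) ^ s)) := by
          rw [sum_const, nsmul_eq_mul]
      _ ≤ _ := by
          apply mul_le_mul_of_nonneg_right _ (by positivity)
          rw [hP]
          exact_mod_cast card_le_card sdiff_subset
  -- the average
  set K : ℝ := P * n * (1 - t / P) ^ s with hK
  obtain ⟨c, hcT, hc⟩ := exists_le_of_sum_le (s := T) hTn
    (f := fun c => ((bad G Y C t c).card : ℝ)) (g := fun _ => K) (by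
      refine (hcount.trans hb).trans (le_of_eq ?_)
      rw [sum_const, nsmul_eq_mul, hTc, hK]
      ring)
  have hcC : ∀ i, c i ∈ C := by
    rw [hT, Fintype.mem_piFinset] at hcT
    exact hcT
  refine ⟨Y ∪ (univ.image c ∪ bad G Y C t c), subset_union_left, ?_, ?_, ?_⟩
  · intro x hx
    rw [mem_sdiff, mem_union, mem_union] at hx
    obtain ⟨hx, hxY⟩ := hx
    rcases hx with hx | hx | hx
    · exact absurd hx hxY
    · rw [mem_image] at hx
      obtain ⟨i, -, rfl⟩ := hx
      exact hcC i
    · rw [bad, mem_filter, mem_sdiff] at hx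
      exact hx.1.1
  · have h1 : ((Y ∪ (univ.image c ∪ bad G Y C t c)).card : ℝ) ≤
        Y.card + (s + (bad G Y C t c).card) := by
      have h2 : (univ.image c).card ≤ s := by
        refine card_image_le.trans ?_
        rw [card_univ, Fintype.card_fin]
      exact_mod_cast (card_union_le _ _).trans (Nat.add_le_add_left
        ((card_union_le _ _).trans (Nat.add_le_add_right h2 _)) _)
    linarith
  · intro v hvC hvZ u huZ huv hw
    by_contra hlt
    rw [not_lt] at hlt
    rw [mem_union, not_or, mem_union, not_or] at hvZ huZ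
    have huT : u ∈ tc G Y v := by
      rw [tc, mem_filter]
      exact ⟨mem_univ _, huZ.1, fun w hwY => hw w (mem_union_left _ hwY)⟩
    have h1 : ¬ ∀ i, c i ∉ sC G C v u := by
      intro h
      apply hvZ.2.2
      rw [bad, mem_filter, mem_sdiff]
      exact ⟨⟨hvC, hvZ.1⟩, u, mem_filter.2 ⟨huT, hlt⟩, h⟩
    push Not at h1
    obtain ⟨i, hi⟩ := h1
    rw [sC, mem_inter, sep, mem_filter] at hi
    exact hi.1.2.2.2 (hw (c i)
      (mem_union_right _ (mem_union_left _ (mem_image_of_mem c (mem_univ i))))).symm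

end Pool.Agent.Lib.MP50ecf8.LOC
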