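import Pool.Agent.Lib.MP_50ecf8_co.LOC.Spec9
import Pool.Agent.Lib.MP_50ecf8_co.LOC.STG

/-!
# Module FREE: a random set which tells everything apart (adaptation of `FSTY.lean`)
-/

set_option autoImplicit false

open Finset
open scoped Classical

namespace Pool.Agent.Lib.MP50ecf8.LOC

namespace FREEM

variable {V : Type} [Fintype V]

/-- the vertices which are not strictly told apart from `v` by `Y` -/
noncomputable def QQ (G : SimpleGraph V) (B Y : Finset V) (v : V) : Finset V :=
  univ.filter fun u => u ∉ B ∧ u ≠ v ∧ ∀ w ∈ Y, w ≠ u → w ≠ v → (G.Adj w u ↔ G.Adj w v)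

theorem card_QQ (G : SimpleGraph V) (B W Y : Finset V) (D : ℕ) (hD : 1 ≤ D)
    (hdeg : ∀ w ∈ W, deg G w ≤ D) (v : V) (hv : ∃ w ∈ Y, w ∈ W ∧ G.Adj v w) :
    (QQ G B Y v).card ≤ 2 * D := by
  obtain ⟨w, hwY, hwW, hadj⟩ := hv
  have hsub : QQ G B Y v ⊆ insert w (univ.filter fun u => G.Adj w u) := by
    intro u hu
    rw [QQ, mem_filter] at hu
    rw [mem_insert, mem_filter]
    by_cases h : u = w
    · exact Or.inl h
    · refine Or.inr ⟨mem_univ _, ?_⟩
      have h1 : w ≠ v := fun e => G.loopless.irrefl v (by rw [e] at hadj; exact hadj)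
      exact (hu.2.2.2 w hwY (fun e => h e.symm) h1).2 hadj.symm
  have h2 := card_le_card hsub
  have h3 := card_insert_le w (univ.filter fun u => G.Adj w u)
  have h4 : (univ.filter fun u => G.Adj w u).card ≤ D := hdeg w hwW
  omega

end FREEM

open STGM FREEM

theorem specFREE : SpecFREE := by
  intro V _ G B C W Y D s t ht htW hD hdeg hsep hone
  have hq0 : (0 : ℝ) < W.card := lt_of_lt_of_le ht htW
  set q : ℝ := (W.card : ℝ) with hq
  set p : ℝ := (Fintype.card V : ℝ) with hp
  have hx1 : 0 ≤ 1 - t / q := by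
    rw [sub_nonneg, div_le_one hq0]
    exact htW
  have hW : 0 < W.card := by
    rw [hq] at hq0
    exact_mod_cast hq0
  set CB : Finset V := C.filter fun v => v ∉ B with hCB
  have hCBc : CB.card ≤ Fintype.card V := by
    rw [← card_univ]
    exact card_le_card (subset_univ _)
  -- the number of pairs
  have hpairs : ∑ v ∈ CB, (QQ G B Y v).card ≤ 3 * Fintype.card V * D := by
    rw [← sum_filter_add_sum_filter_not CB (fun v => ∃ w ∈ Y, w ∈ W ∧ G.Adj v w)]
    have h1 : ∑ v ∈ CB.filter (fun v => ∃ w ∈ Y, w ∈ W ∧ G.Adj v w), (QQ G B Y v).card ≤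
        Fintype.card V * (2 * D) := by
      calc ∑ v ∈ CB.filter (fun v => ∃ w ∈ Y, w ∈ W ∧ G.Adj v w), (QQ G B Y v).card ≤
          ∑ v ∈ CB.filter (fun v => ∃ w ∈ Y, w ∈ W ∧ G.Adj v w), 2 * D :=
            sum_le_sum fun v hv => card_QQ G B W Y D hD hdeg v (mem_filter.1 hv).2
        _ = (CB.filter (fun v => ∃ w ∈ Y, w ∈ W ∧ G.Adj v w)).card * (2 * D) := by
            rw [sum_const, smul_eq_mul]
        _ ≤ Fintype.card V * (2 * D) :=
            Nat.mul_le_mul_right _ ((card_filter_le _ _).trans hCBc)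
    have h2 : ∑ v ∈ CB.filter (fun v => ¬ ∃ w ∈ Y, w ∈ W ∧ G.Adj v w), (QQ G B Y v).card ≤
        1 * Fintype.card V := by
      calc ∑ v ∈ CB.filter (fun v => ¬ ∃ w ∈ Y, w ∈ W ∧ G.Adj v w), (QQ G B Y v).card ≤
          ∑ v ∈ CB.filter (fun v => ¬ ∃ w ∈ Y, w ∈ W ∧ G.Adj v w), Fintype.card V :=
            sum_le_sum fun v hv => by
              rw [← card_univ]
              exact card_le_card (subset_univ _)
        _ = (CB.filter (fun v => ¬ ∃ w ∈ Y, w ∈ W ∧ G.Adj v w)).card * Fintype.card V := by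
            rw [sum_const, smul_eq_mul]
        _ ≤ 1 * Fintype.card V := by
            refine Nat.mul_le_mul_right _ (le_trans (card_le_card ?_) hone)
            intro v hv
            rw [hCB, mem_filter, mem_filter] at hv
            rw [mem_filter]
            exact ⟨hv.1.1, hv.1.2, hv.2⟩
    have h3 : Fintype.card V * 1 ≤ Fintype.card V * D := Nat.mul_le_mul_left _ hD
    calc _ ≤ Fintype.card V * (2 * D) + 1 * Fintype.card V := Nat.add_le_add h1 h2
      _ ≤ Fintype.card V * (2 * D) + Fintype.card V * D := by omega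
      _ = 3 * Fintype.card V * D := by ring
  have hpairsR : ∑ v ∈ CB, ((QQ G B Y v).card : ℝ) ≤ 3 * p * D := by
    rw [hp]
    exact_mod_cast hpairs
  set F : Finset (Fin s → V) := Fintype.piFinset fun _ => W with hF
  have hFc : (F.card : ℝ) = q ^ s := by
    rw [hF, Fintype.card_piFinset, prod_const, card_univ, Fintype.card_fin, Nat.cast_pow]
  have hFn : F.Nonempty := by
    obtain ⟨x, hx⟩ := card_pos.1 hW
    exact ⟨fun _ => x, by rw [hF, Fintype.mem_piFinset]; exact fun _ => hx⟩
  obtain ⟨w₀, hw₀⟩ := card_pos.1 hW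
  -- choices
  have hg : ∀ v u, ∃ w ∈ W, t ≤ (((sep G v u) ∩ W).card : ℝ) → w ∈ sep G v u := by
    intro v u
    by_cases h : t ≤ (((sep G v u) ∩ W).card : ℝ)
    · have h3 : 0 < ((sep G v u) ∩ W).card := by
        have : (0 : ℝ) < (((sep G v u) ∩ W).card : ℝ) := lt_of_lt_of_le ht h
        exact_mod_cast this
      obtain ⟨w, hw⟩ := card_pos.1 h3
      rw [mem_inter] at hw
      exact ⟨w, hw.2, fun _ => hw.1⟩
    · exact ⟨w₀, hw₀, fun a => absurd a h⟩
  choose g hgW hg using hg
  -- double counting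
  have hc2 : ∑ c ∈ F, ∑ v ∈ CB,
      (((QQ G B Y v).filter fun u => ∀ i, c i ∉ sep G v u).card : ℝ) =
      ∑ v ∈ CB, ∑ u ∈ QQ G B Y v, ((F.filter fun c => ∀ i, c i ∉ sep G v u).card : ℝ) := by
    rw [sum_comm]
    refine sum_congr rfl fun v _ => ?_
    have h := sum_card_bipartiteAbove_eq_sum_card_bipartiteBelow
      (s := F) (t := QQ G B Y v)
      (fun c u => ∀ i, c i ∉ sep G v u)
    exact_mod_cast h
  have hb : ∑ v ∈ CB, ∑ u ∈ QQ G B Y v,
      ((F.filter fun c => ∀ i, c i ∉ sep G v u).card : ℝ) ≤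
      3 * p * D * (q ^ s * (1 - t / q) ^ s) := by
    have hpos : 0 ≤ q ^ s * (1 - t / q) ^ s := by positivity
    calc ∑ v ∈ CB, ∑ u ∈ QQ G B Y v,
          ((F.filter fun c => ∀ i, c i ∉ sep G v u).card : ℝ) ≤
        ∑ v ∈ CB, ∑ u ∈ QQ G B Y v, (q ^ s * (1 - t / q) ^ s) := by
          refine sum_le_sum fun v hv => sum_le_sum fun u hu => ?_
          rw [QQ, mem_filter] at hu
          rw [hCB, mem_filter] at hv
          have h1 : (F.filter fun c => ∀ i, c i ∉ sep G v u) ⊆ avC s W (sep G v u ∩ W) := by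
            intro c hc
            rw [mem_filter, hF, Fintype.mem_piFinset] at hc
            rw [avC, Fintype.mem_piFinset]
            intro i
            rw [mem_sdiff]
            exact ⟨hc.1 i, fun h => hc.2 i (mem_inter.1 h).1⟩
          have h2 : ((F.filter fun c => ∀ i, c i ∉ sep G v u).card : ℝ) ≤
              ((avC s W (sep G v u ∩ W)).card : ℝ) := by
            exact_mod_cast card_le_card h1
          have h3 : t ≤ (((sep G v u) ∩ W).card : ℝ) :=
            hsep v hv.1 hv.2 u hu.2.1 hu.2.2.1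
          have h4 := card_avC s W (sep G v u ∩ W) t inter_subset_right h3 hW
          exact h2.trans h4
      _ = (∑ v ∈ CB, ((QQ G B Y v).card : ℝ)) * (q ^ s * (1 - t / q) ^ s) := by
          rw [sum_mul]
          refine sum_congr rfl fun v _ => ?_
          rw [sum_const, nsmul_eq_mul]
      _ ≤ _ := mul_le_mul_of_nonneg_right hpairsR hpos
  -- the average
  set K : ℝ := 3 * p * D * (1 - t / q) ^ s with hK
  obtain ⟨c, hcF, hc⟩ := exists_le_of_sum_le (s := F) hFn
    (f := fun c : Fin s → V => ∑ v ∈ CB,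
      (((QQ G B Y v).filter fun u => ∀ i, c i ∉ sep G v u).card : ℝ))
    (g := fun _ => K) (by
      rw [hc2]
      refine hb.trans (le_of_eq ?_)
      rw [sum_const, nsmul_eq_mul, hFc, hK]
      ring)
  have hcW : ∀ i, c i ∈ W := by
    rw [hF, Fintype.mem_piFinset] at hcF
    exact hcF
  set FP : V → Finset V := fun v => (QQ G B Y v).filter fun u => ∀ i, c i ∉ sep G v u
    with hFP
  set U : Finset V := CB.biUnion fun v => (FP v).image (g v) with hU
  refine ⟨univ.image c ∪ U, ?_, ?_, ?_⟩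
  · intro x hx
    rw [mem_union] at hx
    rcases hx with hx | hx
    · rw [mem_image] at hx
      obtain ⟨i, -, rfl⟩ := hx
      exact hcW i
    · rw [hU, mem_biUnion] at hx
      obtain ⟨v, -, hx⟩ := hx
      rw [mem_image] at hx
      obtain ⟨u, -, rfl⟩ := hx
      exact hgW v u
  · have h2 : (univ.image c).card ≤ s := by
      refine card_image_le.trans ?_
      rw [card_univ, Fintype.card_fin]
    have h3 : U.card ≤ ∑ v ∈ CB, (FP v).card :=
      card_biUnion_le.trans (sum_le_sum fun v _ => card_image_le)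
    have h4 : (univ.image c ∪ U).card ≤ s + ∑ v ∈ CB, (FP v).card :=
      (card_union_le _ _).trans (Nat.add_le_add h2 h3)
    have h5 : (((univ.image c ∪ U).card : ℕ) : ℝ) ≤
        s + ∑ v ∈ CB, ((FP v).card : ℝ) := by
      exact_mod_cast h4
    have h6 : ∑ v ∈ CB, ((FP v).card : ℝ) ≤ K := hc
    linarith
  · intro v hvC hvB u huB huv
    by_contra hno
    push Not at hno
    have hst : t ≤ (((sep G v u) ∩ W).card : ℝ) := hsep v hvC hvB u huB huv
    have hv : v ∈ CB := by
      rw [hCB, mem_filter]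
      exact ⟨hvC, hvB⟩
    have huN : u ∈ QQ G B Y v := by
      rw [QQ, mem_filter]
      exact ⟨mem_univ u, huB, huv, fun w hwY h1 h2 => hno w (mem_union_left _ hwY) h1 h2⟩
    have key : ∀ w, w ∈ sep G v u → w ∉ Y ∪ (univ.image c ∪ U) := by
      intro w hws hwZ
      rw [sep, mem_filter] at hws
      exact hws.2.2.2 (hno w hwZ hws.2.2.1 hws.2.1).symm
    by_cases hav : ∀ i, c i ∉ sep G v u
    · refine key (g v u) (hg v u hst) (mem_union_right _ (mem_union_right _ ?_))
      rw [hU, mem_biUnion]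
      refine ⟨v, hv, mem_image_of_mem (g v) ?_⟩
      rw [hFP]
      simp only [mem_filter]
      exact ⟨huN, hav⟩
    · push Not at hav
      obtain ⟨i, hi⟩ := hav
      exact key (c i) hi
        (mem_union_right _ (mem_union_left _ (mem_image_of_mem c (mem_univ i))))

end Pool.Agent.Lib.MP50ecf8.LOC
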