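import Pool.Agent.Lib.MP_50ecf8_co.LOC.Spec10
import Pool.Agent.Lib.MP_50ecf8_co.LOC.STG

/-!
# Module FREN: a random set which tells everything apart, with near twins (adaptation of `FREE.lean`)
-/

set_option autoImplicit false

open Finset
open scoped Classical

namespace Pool.Agent.Lib.MP50ecf8.LOC

namespace FRENM

variable {V : Type} [Fintype V]

/-- the vertices which are not strictly told apart from `v` by `Y` -/
noncomputable def QQ (G : SimpleGraph V) (B Y : Finset V) (v : V) : Finset V :=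
  univ.filter fun u => u ∉ B ∧ u ≠ v ∧ ∀ w ∈ Y, w ≠ u → w ≠ v → (G.Adj w u ↔ G.Adj w v)

theorem card_QQ (G : SimpleGraph V) (B W Y : Finset V) (D : ℕ) (hD : 1 ≤ D)
    (hdeg : ∀ w ∈ W, deg G w ≤ D) (v : V) (hv : ∃ w ∈ Y, w ∈ W ∧ G.Adj v w) :
    (QQ G B Y v).card ≤ 2 * D := by
  obtain ⟨w, hwY, hwW, hadj⟩ := hv
  have hsub : QQ G B Y v ⊆ insert w (univ.filter fun u => G.Adj w u) := by
    intro u hu
    rw [QQ, mem_filter] at hu
    rw [mem_insert, mem_filter]
    by_cases h : u = w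
    · exact Or.inl h
    · refine Or.inr ⟨mem_univ _, ?_⟩
      have h1 : w ≠ v := fun e => G.loopless.irrefl v (by rw [e] at hadj; exact hadj)
      exact (hu.2.2.2 w hwY (fun e => h e.symm) h1).2 hadj.symm
  have h2 := card_le_card hsub
  have h3 := card_insert_le w (univ.filter fun u => G.Adj w u)
  have h4 : (univ.filter fun u => G.Adj w u).card ≤ D := hdeg w hwW
  omega

/-- the bound of `SpecFREN` is smaller than `2` for `r < 8000` -/
theorem pow_lt_two {r : ℕ} (hr : r < 8000) : (2 : ℝ) ^ ((r : ℝ) ^ ((1 : ℝ) / 3) / 20) < 2 := by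
  have h1 : (r : ℝ) < 8000 := by exact_mod_cast hr
  have h2 : (r : ℝ) ^ ((1 : ℝ) / 3) < (8000 : ℝ) ^ ((1 : ℝ) / 3) :=
    Real.rpow_lt_rpow (Nat.cast_nonneg _) h1 (by norm_num)
  have h3 : (8000 : ℝ) ^ ((1 : ℝ) / 3) = 20 := by
    rw [show (8000 : ℝ) = 20 ^ (3 : ℝ) by norm_num, ← Real.rpow_mul (by norm_num)]
    norm_num
  rw [h3] at h2
  calc (2 : ℝ) ^ ((r : ℝ) ^ ((1 : ℝ) / 3) / 20) < (2 : ℝ) ^ (1 : ℝ) := by
        apply Real.rpow_lt_rpow_of_exponent_lt (by norm_num)
        linarith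
    _ = 2 := Real.rpow_one 2

/-- a near pair has at least `8000` separating vertices -/
theorem near_ge (G : SimpleGraph V) (B W : Finset V) (v u : V) (t : ℝ) (hvB : v ∉ B)
    (huB : u ∉ B) (huv : u ≠ v) (hr : ((sep G v u ∩ W).card : ℝ) < t)
    (hnw : ∀ r : ℕ, (r : ℝ) < t →
      ((nw G B W v r).card : ℝ) ≤ (2 : ℝ) ^ ((r : ℝ) ^ ((1 : ℝ) / 3) / 20)) :
    8000 ≤ (sep G v u ∩ W).card := by
  by_contra hlt
  rw [not_le] at hlt
  have h1 := hnw _ hr
  have h2 := pow_lt_two hlt
  have hsub : ({v, u} : Finset V) ⊆ nw G B W v (sep G v u ∩ W).card := by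
    intro x hx
    rw [mem_insert, mem_singleton] at hx
    rw [nw, mem_filter]
    rcases hx with rfl | rfl
    · refine ⟨mem_univ _, hvB, ?_⟩
      have h3 : sep G x x = ∅ := by
        rw [sep]
        apply filter_false_of_mem
        intro w _ h
        exact h.2.2 Iff.rfl
      rw [h3, empty_inter, card_empty]
      exact Nat.zero_le _
    · exact ⟨mem_univ _, huB, le_rfl⟩
  have h3 := card_le_card hsub
  rw [card_pair (Ne.symm huv)] at h3
  have h4 : (2 : ℝ) ≤ ((nw G B W v (sep G v u ∩ W).card).card : ℝ) := by exact_mod_cast h3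
  linarith

/-- the near pairs of one vertex -/
theorem near_sum (G : SimpleGraph V) (B W : Finset V) (v : V) (t q : ℝ) (s : ℕ) (hq : 0 < q)
    (htq : t ≤ q) (hvB : v ∉ B)
    (hnw : ∀ r : ℕ, (r : ℝ) < t →
      ((nw G B W v r).card : ℝ) ≤ (2 : ℝ) ^ ((r : ℝ) ^ ((1 : ℝ) / 3) / 20))
    (N : Finset V) (hN : ∀ u ∈ N, u ∉ B ∧ u ≠ v ∧ ((sep G v u ∩ W).card : ℝ) < t) :
    ∑ u ∈ N, (1 - ((sep G v u ∩ W).card : ℝ) / q) ^ s ≤
      ∑ r ∈ Ico 8000 ⌈t⌉₊, (2 : ℝ) ^ ((r : ℝ) ^ ((1 : ℝ) / 3) / 20) * (1 - r / q) ^ s := by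
  have hmaps : ∀ u ∈ N, (sep G v u ∩ W).card ∈ Ico 8000 ⌈t⌉₊ := by
    intro u hu
    obtain ⟨h1, h2, h3⟩ := hN u hu
    rw [mem_Ico]
    exact ⟨near_ge G B W v u t hvB h1 h2 h3 hnw, Nat.lt_ceil.2 h3⟩
  rw [← sum_fiberwise_of_maps_to hmaps]
  refine sum_le_sum fun r hr => ?_
  rw [mem_Ico] at hr
  have hrt : (r : ℝ) < t := Nat.lt_ceil.1 hr.2
  have hpos : 0 ≤ (1 - (r : ℝ) / q) ^ s := by
    apply pow_nonneg
    rw [sub_nonneg, div_le_one hq]
    linarith
  calc ∑ u ∈ N.filter (fun u => (sep G v u ∩ W).card = r),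
        (1 - ((sep G v u ∩ W).card : ℝ) / q) ^ s =
      ∑ u ∈ N.filter (fun u => (sep G v u ∩ W).card = r), (1 - (r : ℝ) / q) ^ s := by
        refine sum_congr rfl fun u hu => ?_
        rw [(mem_filter.1 hu).2]
    _ = ((N.filter fun u => (sep G v u ∩ W).card = r).card : ℝ) * (1 - (r : ℝ) / q) ^ s := by
        rw [sum_const, nsmul_eq_mul]
    _ ≤ _ := by
        apply mul_le_mul_of_nonneg_right _ hpos
        refine le_trans ?_ (hnw r hrt)
        have hsub : (N.filter fun u => (sep G v u ∩ W).card = r) ⊆ nw G B W v r := by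
          intro u hu
          rw [mem_filter] at hu
          rw [nw, mem_filter]
          exact ⟨mem_univ _, (hN u hu.1).1, hu.2.le⟩
        exact_mod_cast card_le_card hsub

end FRENM

open STGM FRENM

theorem specFREN : SpecFREN := by
  intro V _ G B C W Y D s t M ht htW hD hdeg hnw hM
  have hq0 : (0 : ℝ) < W.card := lt_of_lt_of_le ht htW
  set q : ℝ := (W.card : ℝ) with hq
  set p : ℝ := (Fintype.card V : ℝ) with hp
  have hx1 : 0 ≤ 1 - t / q := by
    rw [sub_nonneg, div_le_one hq0]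
    exact htW
  have hW : 0 < W.card := by
    rw [hq] at hq0
    exact_mod_cast hq0
  set CB : Finset V := C.filter fun v => v ∉ B with hCB
  have hCBc : CB.card ≤ Fintype.card V := by
    rw [← card_univ]
    exact card_le_card (subset_univ _)
  have hp0 : 0 ≤ p := Nat.cast_nonneg _
  -- the number of pairs
  have hpairsR : ∑ v ∈ CB, ((QQ G B Y v).card : ℝ) ≤ 2 * p * D + M * p := by
    rw [← sum_filter_add_sum_filter_not CB (fun v => ∃ w ∈ Y, w ∈ W ∧ G.Adj v w)]
    have h1 : ∑ v ∈ CB.filter (fun v => ∃ w ∈ Y, w ∈ W ∧ G.Adj v w), ((QQ G B Y v).card : ℝ) ≤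
        2 * p * D := by
      have h : ∑ v ∈ CB.filter (fun v => ∃ w ∈ Y, w ∈ W ∧ G.Adj v w), (QQ G B Y v).card ≤
          2 * Fintype.card V * D := by
        calc ∑ v ∈ CB.filter (fun v => ∃ w ∈ Y, w ∈ W ∧ G.Adj v w), (QQ G B Y v).card ≤
            ∑ v ∈ CB.filter (fun v => ∃ w ∈ Y, w ∈ W ∧ G.Adj v w), 2 * D :=
              sum_le_sum fun v hv => card_QQ G B W Y D hD hdeg v (mem_filter.1 hv).2
          _ = (CB.filter (fun v => ∃ w ∈ Y, w ∈ W ∧ G.Adj v w)).card * (2 * D) := by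
              rw [sum_const, smul_eq_mul]
          _ ≤ Fintype.card V * (2 * D) :=
              Nat.mul_le_mul_right _ ((card_filter_le _ _).trans hCBc)
          _ = 2 * Fintype.card V * D := by ring
      rw [hp]
      exact_mod_cast h
    have h2 : ∑ v ∈ CB.filter (fun v => ¬ ∃ w ∈ Y, w ∈ W ∧ G.Adj v w),
        ((QQ G B Y v).card : ℝ) ≤ M * p := by
      calc ∑ v ∈ CB.filter (fun v => ¬ ∃ w ∈ Y, w ∈ W ∧ G.Adj v w), ((QQ G B Y v).card : ℝ) ≤
          ∑ v ∈ CB.filter (fun v => ¬ ∃ w ∈ Y, w ∈ W ∧ G.Adj v w), p :=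
            sum_le_sum fun v hv => by
              have h : (QQ G B Y v).card ≤ Fintype.card V := by
                rw [← card_univ]
                exact card_le_card (subset_univ _)
              rw [hp]
              exact_mod_cast h
        _ = ((CB.filter (fun v => ¬ ∃ w ∈ Y, w ∈ W ∧ G.Adj v w)).card : ℝ) * p := by
            rw [sum_const, nsmul_eq_mul]
        _ ≤ M * p := by
            refine mul_le_mul_of_nonneg_right (le_trans ?_ hM) hp0
            have h : (CB.filter (fun v => ¬ ∃ w ∈ Y, w ∈ W ∧ G.Adj v w)) ⊆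
                C.filter fun v => v ∉ B ∧ ¬ ∃ w ∈ Y, w ∈ W ∧ G.Adj v w := by
              intro v hv
              rw [hCB, mem_filter, mem_filter] at hv
              rw [mem_filter]
              exact ⟨hv.1.1, hv.1.2, hv.2⟩
            exact_mod_cast card_le_card h
    linarith
  set F : Finset (Fin s → V) := Fintype.piFinset fun _ => W with hF
  have hFc : (F.card : ℝ) = q ^ s := by
    rw [hF, Fintype.card_piFinset, prod_const, card_univ, Fintype.card_fin, Nat.cast_pow]
  have hFn : F.Nonempty := by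
    obtain ⟨x, hx⟩ := card_pos.1 hW
    exact ⟨fun _ => x, by rw [hF, Fintype.mem_piFinset]; exact fun _ => hx⟩
  obtain ⟨w₀, hw₀⟩ := card_pos.1 hW
  -- choices
  have hg : ∀ v u, ∃ w ∈ W, 0 < ((sep G v u) ∩ W).card → w ∈ sep G v u := by
    intro v u
    by_cases h : 0 < ((sep G v u) ∩ W).card
    · obtain ⟨w, hw⟩ := card_pos.1 h
      rw [mem_inter] at hw
      exact ⟨w, hw.2, fun _ => hw.1⟩
    · exact ⟨w₀, hw₀, fun a => absurd a h⟩
  choose g hgW hg using hg
  have hposr : ∀ v ∈ C, v ∉ B → ∀ u, u ∉ B → u ≠ v → 0 < ((sep G v u) ∩ W).card := by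
    intro v hvC hvB u huB huv
    by_cases h : t ≤ (((sep G v u) ∩ W).card : ℝ)
    · have : (0 : ℝ) < (((sep G v u) ∩ W).card : ℝ) := lt_of_lt_of_le ht h
      exact_mod_cast this
    · rw [not_le] at h
      have := near_ge G B W v u t hvB huB huv h (hnw v hvC hvB)
      omega
  -- double counting
  have hc2 : ∑ c ∈ F, ∑ v ∈ CB,
      (((QQ G B Y v).filter fun u => ∀ i, c i ∉ sep G v u).card : ℝ) =
      ∑ v ∈ CB, ∑ u ∈ QQ G B Y v, ((F.filter fun c => ∀ i, c i ∉ sep G v u).card : ℝ) := by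
    rw [sum_comm]
    refine sum_congr rfl fun v _ => ?_
    have h := sum_card_bipartiteAbove_eq_sum_card_bipartiteBelow
      (s := F) (t := QQ G B Y v)
      (fun c u => ∀ i, c i ∉ sep G v u)
    exact_mod_cast h
  set Z : ℝ := ∑ r ∈ Ico 8000 ⌈t⌉₊,
    (2 : ℝ) ^ ((r : ℝ) ^ ((1 : ℝ) / 3) / 20) * (1 - r / q) ^ s with hZ
  have hZ0 : 0 ≤ Z := by
    rw [hZ]
    refine sum_nonneg fun r hr => ?_
    rw [mem_Ico] at hr
    have hrt : (r : ℝ) < t := Nat.lt_ceil.1 hr.2
    have h1 : 0 ≤ (1 - (r : ℝ) / q) ^ s := by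
      apply pow_nonneg
      rw [sub_nonneg, div_le_one hq0]
      linarith
    exact mul_nonneg (Real.rpow_nonneg (by norm_num) _) h1
  have hqs : 0 ≤ q ^ s := pow_nonneg hq0.le s
  have hqsZ : 0 ≤ q ^ s * Z := mul_nonneg hqs hZ0
  have hb : ∑ v ∈ CB, ∑ u ∈ QQ G B Y v,
      ((F.filter fun c => ∀ i, c i ∉ sep G v u).card : ℝ) ≤
      (2 * p * D + M * p) * (q ^ s * (1 - t / q) ^ s) + p * (q ^ s * Z) := by
    have hpos : 0 ≤ q ^ s * (1 - t / q) ^ s := mul_nonneg hqs (pow_nonneg hx1 s)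
    have hmiss : ∀ v u (x : ℝ), x ≤ (((sep G v u) ∩ W).card : ℝ) →
        ((F.filter fun c => ∀ i, c i ∉ sep G v u).card : ℝ) ≤ q ^ s * (1 - x / q) ^ s := by
      intro v u x hx
      have h1 : (F.filter fun c => ∀ i, c i ∉ sep G v u) ⊆ avC s W (sep G v u ∩ W) := by
        intro c hc
        rw [mem_filter, hF, Fintype.mem_piFinset] at hc
        rw [avC, Fintype.mem_piFinset]
        intro i
        rw [mem_sdiff]
        exact ⟨hc.1 i, fun h => hc.2 i (mem_inter.1 h).1⟩
      have h2 : ((F.filter fun c => ∀ i, c i ∉ sep G v u).card : ℝ) ≤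
          ((avC s W (sep G v u ∩ W)).card : ℝ) := by
        exact_mod_cast card_le_card h1
      exact h2.trans (card_avC s W (sep G v u ∩ W) x inter_subset_right hx hW)
    have hv : ∀ v ∈ CB, ∑ u ∈ QQ G B Y v,
        ((F.filter fun c => ∀ i, c i ∉ sep G v u).card : ℝ) ≤
        ((QQ G B Y v).card : ℝ) * (q ^ s * (1 - t / q) ^ s) + q ^ s * Z := by
      intro v hv
      rw [hCB, mem_filter] at hv
      rw [← sum_filter_add_sum_filter_not (QQ G B Y v)
        (fun u => t ≤ (((sep G v u) ∩ W).card : ℝ))]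
      refine add_le_add ?_ ?_
      · calc ∑ u ∈ (QQ G B Y v).filter (fun u => t ≤ (((sep G v u) ∩ W).card : ℝ)),
              ((F.filter fun c => ∀ i, c i ∉ sep G v u).card : ℝ) ≤
            ∑ u ∈ (QQ G B Y v).filter (fun u => t ≤ (((sep G v u) ∩ W).card : ℝ)),
              (q ^ s * (1 - t / q) ^ s) :=
              sum_le_sum fun u hu => hmiss v u t (mem_filter.1 hu).2
          _ = (((QQ G B Y v).filter (fun u => t ≤ (((sep G v u) ∩ W).card : ℝ))).card : ℝ) *
              (q ^ s * (1 - t / q) ^ s) := by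
              rw [sum_const, nsmul_eq_mul]
          _ ≤ _ := by
              apply mul_le_mul_of_nonneg_right _ hpos
              exact_mod_cast card_filter_le _ _
      · calc ∑ u ∈ (QQ G B Y v).filter (fun u => ¬ t ≤ (((sep G v u) ∩ W).card : ℝ)),
              ((F.filter fun c => ∀ i, c i ∉ sep G v u).card : ℝ) ≤
            ∑ u ∈ (QQ G B Y v).filter (fun u => ¬ t ≤ (((sep G v u) ∩ W).card : ℝ)),
              (q ^ s * (1 - (((sep G v u) ∩ W).card : ℝ) / q) ^ s) :=
              sum_le_sum fun u hu => hmiss v u _ le_rfl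
          _ = q ^ s * ∑ u ∈ (QQ G B Y v).filter (fun u => ¬ t ≤ (((sep G v u) ∩ W).card : ℝ)),
              (1 - (((sep G v u) ∩ W).card : ℝ) / q) ^ s := by
              rw [mul_sum]
          _ ≤ q ^ s * Z := by
              apply mul_le_mul_of_nonneg_left _ hqs
              rw [hZ]
              refine near_sum G B W v t q s hq0 htW hv.2 (hnw v hv.1 hv.2) _ ?_
              intro u hu
              rw [mem_filter, QQ, mem_filter] at hu
              exact ⟨hu.1.2.1, hu.1.2.2.1, not_le.1 hu.2⟩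
    calc _ ≤ ∑ v ∈ CB, (((QQ G B Y v).card : ℝ) * (q ^ s * (1 - t / q) ^ s) + q ^ s * Z) :=
          sum_le_sum hv
      _ = (∑ v ∈ CB, ((QQ G B Y v).card : ℝ)) * (q ^ s * (1 - t / q) ^ s) +
          (CB.card : ℝ) * (q ^ s * Z) := by
          rw [sum_add_distrib, sum_mul, sum_const, nsmul_eq_mul]
      _ ≤ _ := by
          have hCBr : (CB.card : ℝ) ≤ p := by
            rw [hp]
            exact_mod_cast hCBc
          exact add_le_add (mul_le_mul_of_nonneg_right hpairsR hpos)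
            (mul_le_mul_of_nonneg_right hCBr hqsZ)
  -- the average
  set K : ℝ := (2 * p * D + M * p) * (1 - t / q) ^ s + p * Z with hK
  obtain ⟨c, hcF, hc⟩ := exists_le_of_sum_le (s := F) hFn
    (f := fun c : Fin s → V => ∑ v ∈ CB,
      (((QQ G B Y v).filter fun u => ∀ i, c i ∉ sep G v u).card : ℝ))
    (g := fun _ => K) (by
      rw [hc2]
      refine hb.trans (le_of_eq ?_)
      rw [sum_const, nsmul_eq_mul, hFc, hK]
      ring)
  have hcW : ∀ i, c i ∈ W := by
    rw [hF, Fintype.mem_piFinset] at hcF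
    exact hcF
  set FP : V → Finset V := fun v => (QQ G B Y v).filter fun u => ∀ i, c i ∉ sep G v u
    with hFP
  set U : Finset V := CB.biUnion fun v => (FP v).image (g v) with hU
  refine ⟨univ.image c ∪ U, ?_, ?_, ?_⟩
  · intro x hx
    rw [mem_union] at hx
    rcases hx with hx | hx
    · rw [mem_image] at hx
      obtain ⟨i, -, rfl⟩ := hx
      exact hcW i
    · rw [hU, mem_biUnion] at hx
      obtain ⟨v, -, hx⟩ := hx
      rw [mem_image] at hx
      obtain ⟨u, -, rfl⟩ := hx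
      exact hgW v u
  · have h2 : (univ.image c).card ≤ s := by
      refine card_image_le.trans ?_
      rw [card_univ, Fintype.card_fin]
    have h3 : U.card ≤ ∑ v ∈ CB, (FP v).card :=
      card_biUnion_le.trans (sum_le_sum fun v _ => card_image_le)
    have h4 : (univ.image c ∪ U).card ≤ s + ∑ v ∈ CB, (FP v).card :=
      (card_union_le _ _).trans (Nat.add_le_add h2 h3)
    have h5 : (((univ.image c ∪ U).card : ℕ) : ℝ) ≤
        s + ∑ v ∈ CB, ((FP v).card : ℝ) := by
      exact_mod_cast h4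
    have h6 : ∑ v ∈ CB, ((FP v).card : ℝ) ≤ K := hc
    rw [hK] at h6
    linarith
  · intro v hvC hvB u huB huv
    by_contra hno
    push Not at hno
    have hst := hposr v hvC hvB u huB huv
    have hv : v ∈ CB := by
      rw [hCB, mem_filter]
      exact ⟨hvC, hvB⟩
    have huN : u ∈ QQ G B Y v := by
      rw [QQ, mem_filter]
      exact ⟨mem_univ u, huB, huv, fun w hwY h1 h2 => hno w (mem_union_left _ hwY) h1 h2⟩
    have key : ∀ w, w ∈ sep G v u → w ∉ Y ∪ (univ.image c ∪ U) := by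
      intro w hws hwZ
      rw [sep, mem_filter] at hws
      exact hws.2.2.2 (hno w hwZ hws.2.2.1 hws.2.1).symm
    by_cases hav : ∀ i, c i ∉ sep G v u
    · refine key (g v u) (hg v u hst) (mem_union_right _ (mem_union_right _ ?_))
      rw [hU, mem_biUnion]
      refine ⟨v, hv, mem_image_of_mem (g v) ?_⟩
      rw [hFP]
      simp only [mem_filter]
      exact ⟨huN, hav⟩
    · push Not at hav
      obtain ⟨i, hi⟩ := hav
      exact key (c i) hi
        (mem_union_right _ (mem_union_left _ (mem_image_of_mem c (mem_univ i))))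

end Pool.Agent.Lib.MP50ecf8.LOC
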