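import Pool.Agent.Lib.MP_50ecf8_co.LOC.Spec9
import Pool.Agent.Lib.MP_50ecf8_co.LOC.STG

/-!
# Module FSTT: the last stage, strict separation
-/

set_option autoImplicit false

open Finset
open scoped Classical

namespace Pool.Agent.Lib.MP50ecf8.LOC

namespace FSTTM

variable {V : Type} [Fintype V]

/-- the vertices not strictly told apart from `v` by `Y` -/
noncomputable def NN (G : SimpleGraph V) (B Y : Finset V) (v : V) : Finset V :=
  univ.filter fun u => u ∉ B ∧ u ≠ v ∧ ∀ w ∈ Y, w ≠ u → w ≠ v → (G.Adj w u ↔ G.Adj w v)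

/-- those in `Y` and adjacent to `v` -/
noncomputable def N2 (G : SimpleGraph V) (B Y : Finset V) (v : V) : Finset V :=
  (NN G B Y v).filter fun u => u ∈ Y ∧ G.Adj u v

theorem NN_sub (G : SimpleGraph V) (B Y : Finset V) {v : V} (hv : v ∉ Y) :
    NN G B Y v ⊆ cl G B Y v ∪ N2 G B Y v := by
  intro u hu
  have hu' := hu
  rw [NN, mem_filter] at hu'
  obtain ⟨-, huB, huv, hw⟩ := hu'
  by_cases hc : ∀ w ∈ Y, (G.Adj w u ↔ G.Adj w v)
  · exact mem_union_left _ (by rw [cl, mem_filter]; exact ⟨mem_univ u, huB, hc⟩)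
  · simp only [not_forall] at hc
    obtain ⟨w, hwY, hne⟩ := hc
    have hwv : w ≠ v := fun h => hv (h ▸ hwY)
    have hwu : w = u := by
      by_contra h
      exact hne (hw w hwY h hwv)
    subst hwu
    refine mem_union_right _ ?_
    rw [N2, mem_filter]
    refine ⟨hu, hwY, ?_⟩
    by_contra h
    exact hne ⟨fun h1 => absurd h1 (G.loopless.irrefl w), fun h1 => absurd h1 h⟩

theorem sum_N2 (G : SimpleGraph V) (B Y CB : Finset V) (n : ℕ)
    (hCB : ∀ v ∈ CB, v ∉ Y ∧ v ∉ B ∧ (cl G B Y v).card ≤ n) :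
    ∑ v ∈ CB, (N2 G B Y v).card ≤ Fintype.card V * n := by
  have h := sum_card_bipartiteAbove_eq_sum_card_bipartiteBelow
    (s := CB) (t := (univ : Finset V)) (fun v u => u ∈ N2 G B Y v)
  have h1 : ∑ v ∈ CB, (N2 G B Y v).card =
      ∑ v ∈ CB, (bipartiteAbove (fun v u => u ∈ N2 G B Y v) (univ : Finset V) v).card := by
    refine sum_congr rfl fun v _ => ?_
    congr 1
    ext u
    simp [bipartiteAbove]
  rw [h1, h]
  have h2 : ∀ u ∈ (univ : Finset V),
      (bipartiteBelow (fun v u => u ∈ N2 G B Y v) CB u).card ≤ n := by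
    intro u _
    rcases (bipartiteBelow (fun v u => u ∈ N2 G B Y v) CB u).eq_empty_or_nonempty with h0 | ⟨v₀, hv₀⟩
    · rw [h0]
      simp
    · rw [bipartiteBelow, mem_filter] at hv₀
      obtain ⟨hv₀C, hv₀N⟩ := hv₀
      refine (card_le_card ?_).trans (hCB v₀ hv₀C).2.2
      intro v hv
      rw [bipartiteBelow, mem_filter] at hv
      obtain ⟨hvC, hvN⟩ := hv
      rw [N2, mem_filter, NN, mem_filter] at hv₀N hvN
      obtain ⟨⟨-, -, -, ha⟩, -, hb⟩ := hv₀N
      obtain ⟨⟨-, -, -, ha'⟩, -, hb'⟩ := hvN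
      rw [cl, mem_filter]
      refine ⟨mem_univ v, (hCB v hvC).2.1, ?_⟩
      intro w hw
      by_cases hwu : w = u
      · subst hwu
        exact ⟨fun _ => hb, fun _ => hb'⟩
      · have h3 : w ≠ v := fun h => (hCB v hvC).1 (h ▸ hw)
        have h4 : w ≠ v₀ := fun h => (hCB v₀ hv₀C).1 (h ▸ hw)
        exact (ha' w hw hwu h3).symm.trans (ha w hw hwu h4)
  refine (sum_le_sum h2).trans ?_
  rw [sum_const, card_univ, smul_eq_mul]

theorem sum_NN (G : SimpleGraph V) (B Y CB : Finset V) (n : ℕ)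
    (hCB : ∀ v ∈ CB, v ∉ Y ∧ v ∉ B ∧ (cl G B Y v).card ≤ n) :
    ∑ v ∈ CB, (NN G B Y v).card ≤ 2 * (Fintype.card V * n) := by
  have h1 : ∑ v ∈ CB, (NN G B Y v).card ≤
      ∑ v ∈ CB, ((cl G B Y v).card + (N2 G B Y v).card) := by
    refine sum_le_sum fun v hv => ?_
    exact (card_le_card (NN_sub G B Y (hCB v hv).1)).trans (card_union_le _ _)
  rw [sum_add_distrib] at h1
  have h2 : ∑ v ∈ CB, (cl G B Y v).card ≤ Fintype.card V * n := by
    refine (sum_le_sum fun v hv => (hCB v hv).2.2).trans ?_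
    rw [sum_const, smul_eq_mul]
    exact Nat.mul_le_mul_right n (card_le_univ CB)
  have h3 := sum_N2 G B Y CB n hCB
  omega

end FSTTM

open STGM FSTTM

theorem specFSTT : SpecFSTT := by
  intro V _ G B C W Y B₀ n s t ht htW hBB hn hsep
  have hq0 : (0 : ℝ) < W.card := lt_of_lt_of_le ht htW
  set q : ℝ := (W.card : ℝ) with hq
  set p : ℝ := (Fintype.card V : ℝ) with hp
  have hx1 : 0 ≤ 1 - t / q := by
    rw [sub_nonneg, div_le_one hq0]
    exact htW
  have hW : 0 < W.card := by
    rw [hq] at hq0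
    exact_mod_cast hq0
  set CB : Finset V := C.filter fun v => v ∉ Y ∪ B₀ with hCB
  have hCBc : (CB.card : ℝ) ≤ p := by
    have h : CB.card ≤ Fintype.card V := by
      rw [← card_univ]
      exact card_le_card (subset_univ _)
    rw [hp]
    exact_mod_cast h
  set F : Finset (Fin s → V) := Fintype.piFinset fun _ => W with hF
  have hFc : (F.card : ℝ) = q ^ s := by
    rw [hF, Fintype.card_piFinset, prod_const, card_univ, Fintype.card_fin, Nat.cast_pow]
  have hFn : F.Nonempty := by
    obtain ⟨x, hx⟩ := card_pos.1 hW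
    exact ⟨fun _ => x, by rw [hF, Fintype.mem_piFinset]; exact fun _ => hx⟩
  obtain ⟨w₀, hw₀⟩ := card_pos.1 hW
  -- choices
  have hg : ∀ v u, ∃ w ∈ W, t ≤ (((sep G v u) ∩ W).card : ℝ) → w ∈ sep G v u := by
    intro v u
    by_cases h : t ≤ (((sep G v u) ∩ W).card : ℝ)
    · have h3 : 0 < ((sep G v u) ∩ W).card := by
        have : (0 : ℝ) < (((sep G v u) ∩ W).card : ℝ) := lt_of_lt_of_le ht h
        exact_mod_cast this
      obtain ⟨w, hw⟩ := card_pos.1 h3
      rw [mem_inter] at hw
      exact ⟨w, hw.2, fun _ => hw.1⟩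
    · exact ⟨w₀, hw₀, fun a => absurd a h⟩
  choose g hgW hg using hg
  have hBv : ∀ v, v ∉ Y ∪ B₀ → v ∉ B := fun v hv h => hv (mem_union_right _ (hBB h))
  -- double counting
  have hc2 : ∑ c ∈ F, ∑ v ∈ CB,
      (((NN G B Y v).filter fun u => ∀ i, c i ∉ sep G v u).card : ℝ) =
      ∑ v ∈ CB, ∑ u ∈ NN G B Y v, ((F.filter fun c => ∀ i, c i ∉ sep G v u).card : ℝ) := by
    rw [sum_comm]
    refine sum_congr rfl fun v _ => ?_
    have h := sum_card_bipartiteAbove_eq_sum_card_bipartiteBelow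
      (s := F) (t := NN G B Y v)
      (fun c u => ∀ i, c i ∉ sep G v u)
    exact_mod_cast h
  have hb : ∑ v ∈ CB, ∑ u ∈ NN G B Y v,
      ((F.filter fun c => ∀ i, c i ∉ sep G v u).card : ℝ) ≤
      2 * (p * n) * (q ^ s * (1 - t / q) ^ s) := by
    have hpos : 0 ≤ q ^ s * (1 - t / q) ^ s := by positivity
    calc ∑ v ∈ CB, ∑ u ∈ NN G B Y v,
          ((F.filter fun c => ∀ i, c i ∉ sep G v u).card : ℝ) ≤
        ∑ v ∈ CB, ∑ u ∈ NN G B Y v, (q ^ s * (1 - t / q) ^ s) := by
          refine sum_le_sum fun v hv => sum_le_sum fun u hu => ?_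
          rw [NN, mem_filter] at hu
          rw [hCB, mem_filter] at hv
          have h1 : (F.filter fun c => ∀ i, c i ∉ sep G v u) ⊆ avC s W (sep G v u ∩ W) := by
            intro c hc
            rw [mem_filter, hF, Fintype.mem_piFinset] at hc
            rw [avC, Fintype.mem_piFinset]
            intro i
            rw [mem_sdiff]
            exact ⟨hc.1 i, fun h => hc.2 i (mem_inter.1 h).1⟩
          have h2 : ((F.filter fun c => ∀ i, c i ∉ sep G v u).card : ℝ) ≤
              ((avC s W (sep G v u ∩ W)).card : ℝ) := by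
            exact_mod_cast card_le_card h1
          have h3 : t ≤ (((sep G v u) ∩ W).card : ℝ) :=
            hsep v hv.1 (hBv v hv.2) u hu.2.1 hu.2.2.1
          have h4 := card_avC s W (sep G v u ∩ W) t inter_subset_right h3 hW
          exact h2.trans h4
      _ = ((∑ v ∈ CB, (NN G B Y v).card : ℕ) : ℝ) * (q ^ s * (1 - t / q) ^ s) := by
          rw [Nat.cast_sum, sum_mul]
          exact sum_congr rfl fun v _ => by rw [sum_const, nsmul_eq_mul]
      _ ≤ 2 * (p * n) * (q ^ s * (1 - t / q) ^ s) := by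
          apply mul_le_mul_of_nonneg_right _ hpos
          have h5 := sum_NN G B Y CB n (by
            intro v hv
            rw [hCB, mem_filter] at hv
            exact ⟨fun h => hv.2 (mem_union_left _ h), hBv v hv.2, hn v hv.1 hv.2⟩)
          rw [hp]
          exact_mod_cast h5
  -- the average
  set K : ℝ := 2 * p * n * (1 - t / q) ^ s with hK
  obtain ⟨c, hcF, hc⟩ := exists_le_of_sum_le (s := F) hFn
    (f := fun c : Fin s → V => ∑ v ∈ CB,
      (((NN G B Y v).filter fun u => ∀ i, c i ∉ sep G v u).card : ℝ))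
    (g := fun _ => K) (by
      rw [hc2]
      refine hb.trans (le_of_eq ?_)
      rw [sum_const, nsmul_eq_mul, hFc, hK]
      ring)
  have hcW : ∀ i, c i ∈ W := by
    rw [hF, Fintype.mem_piFinset] at hcF
    exact hcF
  set FP : V → Finset V := fun v => (NN G B Y v).filter fun u => ∀ i, c i ∉ sep G v u
    with hFP
  set U : Finset V := CB.biUnion fun v => (FP v).image (g v) with hU
  refine ⟨univ.image c ∪ U, ?_, ?_, ?_⟩
  · intro x hx
    rw [mem_union] at hx
    rcases hx with hx | hx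
    · rw [mem_image] at hx
      obtain ⟨i, -, rfl⟩ := hx
      exact hcW i
    · rw [hU, mem_biUnion] at hx
      obtain ⟨v, -, hx⟩ := hx
      rw [mem_image] at hx
      obtain ⟨u, -, rfl⟩ := hx
      exact hgW v u
  · have h2 : (univ.image c).card ≤ s := by
      refine card_image_le.trans ?_
      rw [card_univ, Fintype.card_fin]
    have h3 : U.card ≤ ∑ v ∈ CB, (FP v).card :=
      card_biUnion_le.trans (sum_le_sum fun v _ => card_image_le)
    have h4 : (univ.image c ∪ U).card ≤ s + ∑ v ∈ CB, (FP v).card :=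
      (card_union_le _ _).trans (Nat.add_le_add h2 h3)
    have h5 : (((univ.image c ∪ U).card : ℕ) : ℝ) ≤
        s + ∑ v ∈ CB, ((FP v).card : ℝ) := by
      exact_mod_cast h4
    have h6 : ∑ v ∈ CB, ((FP v).card : ℝ) ≤ K := hc
    linarith
  · intro v hvC hvY u huB huv
    by_contra hno
    push Not at hno
    have hvB := hBv v hvY
    have hst : t ≤ (((sep G v u) ∩ W).card : ℝ) := hsep v hvC hvB u huB huv
    have hv : v ∈ CB := by
      rw [hCB, mem_filter]
      exact ⟨hvC, hvY⟩
    have huN : u ∈ NN G B Y v := by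
      rw [NN, mem_filter]
      exact ⟨mem_univ u, huB, huv, fun w hwY h1 h2 => hno w (mem_union_left _ hwY) h1 h2⟩
    have key : ∀ w, w ∈ sep G v u → w ∉ Y ∪ (univ.image c ∪ U) := by
      intro w hws hwZ
      rw [sep, mem_filter] at hws
      exact hws.2.2.2 (hno w hwZ hws.2.2.1 hws.2.1).symm
    by_cases hav : ∀ i, c i ∉ sep G v u
    · refine key (g v u) (hg v u hst) (mem_union_right _ (mem_union_right _ ?_))
      rw [hU, mem_biUnion]
      refine ⟨v, hv, mem_image_of_mem (g v) ?_⟩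
      rw [hFP]
      simp only [mem_filter]
      exact ⟨huN, hav⟩
    · push Not at hav
      obtain ⟨i, hi⟩ := hav
      exact key (c i) hi
        (mem_union_right _ (mem_union_left _ (mem_image_of_mem c (mem_univ i))))

end Pool.Agent.Lib.MP50ecf8.LOC
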