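import Pool.Agent.Lib.MP_50ecf8_co.LOC.Spec7
import Pool.Agent.Lib.MP_50ecf8_co.LOC.STG

/-!
# Module FSTX: the last stage
-/

set_option autoImplicit false

open Finset
open scoped Classical

namespace Pool.Agent.Lib.MP50ecf8.LOC

namespace FSTXM

variable {V : Type} [Fintype V]

/-- the vertices outside `Y` in the class of `v`, different from `v` -/
noncomputable def QQ (G : SimpleGraph V) (B Y : Finset V) (v : V) : Finset V :=
  (cl G B Y v).filter fun u => u ∉ Y ∧ u ≠ v

end FSTXM

open STGM FSTXM

theorem specFSTX : SpecFSTX := by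
  intro V _ G B Y n s t ht htC hBY hn hsep
  have hp0 : (0 : ℝ) < Fintype.card V := lt_of_lt_of_le ht htC
  set P : ℝ := (Fintype.card V : ℝ) with hP
  have hx1 : 0 ≤ 1 - t / P := by
    rw [sub_nonneg, div_le_one hp0]
    exact htC
  have huC : ((univ : Finset V).card : ℝ) = P := by
    rw [card_univ, hP]
  have hC : 0 < (univ : Finset V).card := by
    rw [card_univ]
    rw [hP] at hp0
    exact_mod_cast hp0
  set CB : Finset V := univ \ Y with hCB
  have hCBc : (CB.card : ℝ) ≤ P := by
    rw [← huC]
    exact_mod_cast card_le_card (subset_univ _)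
  set F : Finset (Fin s → V) := Fintype.piFinset fun _ => (univ : Finset V) with hF
  have hFc : (F.card : ℝ) = P ^ s := by
    rw [hF, Fintype.card_piFinset, prod_const, card_univ, card_univ, Fintype.card_fin,
      Nat.cast_pow]
  have hFn : F.Nonempty := by
    obtain ⟨x, hx⟩ := card_pos.1 hC
    exact ⟨fun _ => x, by rw [hF, Fintype.mem_piFinset]; exact fun _ => hx⟩
  -- choices
  have hg : ∀ v u, ∃ w, t ≤ ((sep G u v).card : ℝ) → w ∈ sep G u v := by
    intro v u
    by_cases h : t ≤ ((sep G u v).card : ℝ)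
    · have h3 : 0 < (sep G u v).card := by
        have : (0 : ℝ) < ((sep G u v).card : ℝ) := lt_of_lt_of_le ht h
        exact_mod_cast this
      obtain ⟨w, hw⟩ := card_pos.1 h3
      exact ⟨w, fun _ => hw⟩
    · exact ⟨v, fun a => absurd a h⟩
  choose g hg using hg
  -- double counting
  have hc2 : ∑ c ∈ F, ∑ v ∈ CB,
      (((QQ G B Y v).filter fun u => ∀ i, c i ∉ sep G u v).card : ℝ) =
      ∑ v ∈ CB, ∑ u ∈ QQ G B Y v, ((F.filter fun c => ∀ i, c i ∉ sep G u v).card : ℝ) := by
    rw [sum_comm]
    refine sum_congr rfl fun v _ => ?_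
    have h := sum_card_bipartiteAbove_eq_sum_card_bipartiteBelow
      (s := F) (t := QQ G B Y v)
      (fun c u => ∀ i, c i ∉ sep G u v)
    exact_mod_cast h
  have hb : ∑ v ∈ CB, ∑ u ∈ QQ G B Y v,
      ((F.filter fun c => ∀ i, c i ∉ sep G u v).card : ℝ) ≤
      P * ((n : ℝ) * (P ^ s * (1 - t / P) ^ s)) := by
    have hpos : 0 ≤ P ^ s * (1 - t / P) ^ s := by positivity
    calc ∑ v ∈ CB, ∑ u ∈ QQ G B Y v,
          ((F.filter fun c => ∀ i, c i ∉ sep G u v).card : ℝ) ≤
        ∑ v ∈ CB, ∑ u ∈ QQ G B Y v, (P ^ s * (1 - t / P) ^ s) := by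
          refine sum_le_sum fun v hv => sum_le_sum fun u hu => ?_
          rw [QQ, mem_filter] at hu
          rw [hCB, mem_sdiff] at hv
          have h1 : (F.filter fun c => ∀ i, c i ∉ sep G u v) ⊆ avC s univ (sep G u v) := by
            intro c hc
            rw [mem_filter, hF, Fintype.mem_piFinset] at hc
            rw [avC, Fintype.mem_piFinset]
            intro i
            rw [mem_sdiff]
            exact ⟨hc.1 i, hc.2 i⟩
          have h2 : ((F.filter fun c => ∀ i, c i ∉ sep G u v).card : ℝ) ≤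
              ((avC s univ (sep G u v)).card : ℝ) := by
            exact_mod_cast card_le_card h1
          have h3 : t ≤ ((sep G u v).card : ℝ) :=
            hsep u (fun h => hu.2.1 (hBY h)) v (fun h => hv.2 (hBY h)) hu.2.2
          have h4 := card_avC s univ (sep G u v) t (subset_univ _) h3 hC
          rw [huC] at h4
          exact h2.trans h4
      _ ≤ ∑ v ∈ CB, ((n : ℝ) * (P ^ s * (1 - t / P) ^ s)) := by
          refine sum_le_sum fun v hv => ?_
          rw [hCB, mem_sdiff] at hv
          rw [sum_const, nsmul_eq_mul]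
          apply mul_le_mul_of_nonneg_right _ hpos
          exact_mod_cast (card_filter_le _ _).trans (hn v hv.2)
      _ = (CB.card : ℝ) * ((n : ℝ) * (P ^ s * (1 - t / P) ^ s)) := by
          rw [sum_const, nsmul_eq_mul]
      _ ≤ _ := mul_le_mul_of_nonneg_right hCBc (by positivity)
  -- the average
  set K : ℝ := P * n * (1 - t / P) ^ s with hK
  obtain ⟨c, hcF, hc⟩ := exists_le_of_sum_le (s := F) hFn
    (f := fun c : Fin s → V => ∑ v ∈ CB,
      (((QQ G B Y v).filter fun u => ∀ i, c i ∉ sep G u v).card : ℝ))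
    (g := fun _ => K) (by
      rw [hc2]
      refine hb.trans (le_of_eq ?_)
      rw [sum_const, nsmul_eq_mul, hFc, hK]
      ring)
  set FP : V → Finset V := fun v => (QQ G B Y v).filter fun u => ∀ i, c i ∉ sep G u v
    with hFP
  set U : Finset V := CB.biUnion fun v => (FP v).image (g v) with hU
  refine ⟨Y ∪ (univ.image c ∪ U), subset_union_left, ?_, ?_⟩
  · intro u huZ v hvZ huv
    have huY : u ∉ Y := fun h => huZ (mem_union_left _ h)
    have hvY : v ∉ Y := fun h => hvZ (mem_union_left _ h)
    by_contra hno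
    push Not at hno
    have hst : t ≤ ((sep G u v).card : ℝ) :=
      hsep u (fun h => huY (hBY h)) v (fun h => hvY (hBY h)) huv
    have hv : v ∈ CB := by
      rw [hCB, mem_sdiff]
      exact ⟨mem_univ v, hvY⟩
    have huN : u ∈ QQ G B Y v := by
      rw [QQ, mem_filter, cl, mem_filter]
      exact ⟨⟨mem_univ u, fun h => huY (hBY h), fun w hwY => hno w (mem_union_left _ hwY)⟩,
        huY, huv⟩
    have key : ∀ w, w ∈ sep G u v → w ∉ Y ∪ (univ.image c ∪ U) := by
      intro w hws hwZ
      rw [sep, mem_filter] at hws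
      exact hws.2.2.2 (hno w hwZ)
    by_cases hav : ∀ i, c i ∉ sep G u v
    · refine key (g v u) (hg v u hst) (mem_union_right _ (mem_union_right _ ?_))
      rw [hU, mem_biUnion]
      refine ⟨v, hv, mem_image_of_mem (g v) ?_⟩
      rw [hFP]
      simp only [mem_filter]
      exact ⟨huN, hav⟩
    · push Not at hav
      obtain ⟨i, hi⟩ := hav
      exact key (c i) hi
        (mem_union_right _ (mem_union_left _ (mem_image_of_mem c (mem_univ i))))
  · have h2 : (univ.image c).card ≤ s := by
      refine card_image_le.trans ?_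
      rw [card_univ, Fintype.card_fin]
    have h3 : U.card ≤ ∑ v ∈ CB, (FP v).card :=
      card_biUnion_le.trans (sum_le_sum fun v _ => card_image_le)
    have h4 : ((Y ∪ (univ.image c ∪ U)) \ Y).card ≤ s + ∑ v ∈ CB, (FP v).card := by
      have h5 : (Y ∪ (univ.image c ∪ U)) \ Y ⊆ univ.image c ∪ U := by
        intro x hx
        rw [mem_sdiff, mem_union] at hx
        exact hx.1.resolve_left hx.2
      refine (card_le_card h5).trans ?_
      exact (card_union_le _ _).trans (Nat.add_le_add h2 h3)
    have h5 : ((((Y ∪ (univ.image c ∪ U)) \ Y).card : ℕ) : ℝ) ≤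
        s + ∑ v ∈ CB, ((FP v).card : ℝ) := by
      exact_mod_cast h4
    have h6 : ∑ v ∈ CB, ((FP v).card : ℝ) ≤ K := hc
    linarith

end Pool.Agent.Lib.MP50ecf8.LOC
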