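import Pool.Agent.Lib.MP_50ecf8_co.LOC.Spec5

/-!
# Module H2T: part 2 of (H) is invariant under replacing `a` by a twin
-/

set_option autoImplicit false

open scoped Classical

namespace Pool.Agent.Lib.MP50ecf8.LOC

namespace H2TM

theorem tw_swap {V : Type} {G : SimpleGraph V} {a a' : V} (h : Tw G a a') (u : V) :
    Tw G u (Equiv.swap a a' u) := by
  by_cases h1 : u = a
  · rw [h1, Equiv.swap_apply_left]
    exact h
  · by_cases h2 : u = a'
    · rw [h2, Equiv.swap_apply_right]
      exact h.symm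
    · rw [Equiv.swap_apply_of_ne_of_ne h1 h2]
      exact Tw.refl G u

theorem adj_swap {V : Type} {G : SimpleGraph V} {a a' : V} (h : Tw G a a') (u v : V) :
    G.Adj (Equiv.swap a a' u) (Equiv.swap a a' v) ↔ G.Adj u v := by
  by_cases huv : u = v
  · subst huv
    exact ⟨fun h => absurd h (G.loopless.irrefl _), fun h => absurd h (G.loopless.irrefl _)⟩
  · exact (Tw.adj (tw_swap h u) (tw_swap h v) huv
      (fun e => huv ((Equiv.swap a a').injective e))).symm

theorem ne_iff {V : Type} (a a' v : V) : v ≠ a' ↔ Equiv.swap a a' v ≠ a := by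
  have e : Equiv.swap a a' v = a ↔ v = a' := by
    rw [Equiv.apply_eq_iff_eq_symm_apply, Equiv.symm_swap, Equiv.swap_apply_left]
  exact not_congr e.symm

theorem mem_iff {V : Type} (a a' i v : V) :
    v ∈ ({i}ᶜ : Set V) ↔ Equiv.swap a a' v ∈ ({Equiv.swap a a' i}ᶜ : Set V) := by
  simp only [Set.mem_compl_iff, Set.mem_singleton_iff]
  exact not_congr (Equiv.swap a a').injective.eq_iff.symm

end H2TM

open H2TM in
theorem specH2T : SpecH2T := by
  intro V G a a' b h hH
  obtain ⟨τ, hτ⟩ := hH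
  refine ⟨((Equiv.swap a a').subtypeEquiv (ne_iff a a')).trans τ, fun i hi => ?_⟩
  obtain ⟨θ, hθ⟩ := hτ (Equiv.swap a a' i) ((ne_iff a a' i).1 hi)
  let E : G.induce ({i}ᶜ : Set V) ≃g G.induce ({Equiv.swap a a' i}ᶜ : Set V) :=
    ⟨(Equiv.swap a a').subtypeEquiv (mem_iff a a' i), by
      intro x y
      exact adj_swap h x y⟩
  refine ⟨E.trans θ, ?_⟩
  intro x hx
  have h1 : ((E x : ({Equiv.swap a a' i}ᶜ : Set V)) : V) = a := by
    change Equiv.swap a a' (x : V) = a
    rw [hx, Equiv.swap_apply_right]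
  exact hθ (E x) h1

end Pool.Agent.Lib.MP50ecf8.LOC
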