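import Pool.Agent.Lib.MP_50ecf8_co.LOC.Spec

/-!
# LOC, module INC (helper53): inclusion and exclusion over the domain
-/

set_option autoImplicit false

open Finset
open scoped Classical

namespace Pool.Agent.Lib.MP50ecf8.LOC

namespace INCM

theorem card_eq {V : Type} (G : SimpleGraph V) (I : Finset (V × V)) (hI : Good G I) :
    (I.image Prod.fst).card = I.card := by
  apply Finset.card_image_of_injOn
  intro u hu w hw huw
  have h := (hI u hu w hw).1
  exact Prod.ext huw (h.1 huw)

theorem T_eq {V : Type} [Fintype V] (G : SimpleGraph V) (a r : V) (S : Finset V) :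
    T G a r S = ∑ Z ∈ univ.filter (fun Z : Finset V => S ⊆ Z), (-1 : ℤ) ^ Z.card * ((emb G a r Z).card : ℤ) := by
  unfold T
  rw [← Finset.sum_fiberwise_of_maps_to (g := fun I : Finset (V × V) => I.image Prod.fst)
    (t := univ.filter (fun Z : Finset V => S ⊆ Z))]
  · apply Finset.sum_congr rfl
    intro Z hZ
    have hZ' : S ⊆ Z := (Finset.mem_filter.1 hZ).2
    have e : ((univ.filter (fun I : Finset (V × V) => Good G I ∧ (a, r) ∈ I ∧ S ⊆ I.image Prod.fst)).filter
        fun I => I.image Prod.fst = Z) = emb G a r Z := by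
      ext I
      simp only [emb, mem_filter, mem_univ, true_and]
      constructor
      · rintro ⟨⟨h1, h2, h3⟩, h4⟩
        exact ⟨h1, h2, h4⟩
      · rintro ⟨h1, h2, h4⟩
        exact ⟨⟨h1, h2, by rw [h4]; exact hZ'⟩, h4⟩
    rw [e]
    have h2 : ∀ I ∈ emb G a r Z, (-1 : ℤ) ^ I.card = (-1 : ℤ) ^ Z.card := by
      intro I hI
      simp only [emb, mem_filter, mem_univ, true_and] at hI
      obtain ⟨h1, _, h4⟩ := hI
      rw [← card_eq G I h1, h4]
    rw [Finset.sum_congr rfl h2, Finset.sum_const, nsmul_eq_mul]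
    ring
  · intro I hI
    simp only [mem_filter, mem_univ, true_and] at hI ⊢
    exact hI.2.2

theorem id_mem {V : Type} [Fintype V] (G : SimpleGraph V) (a : V) :
    (univ : Finset V).image (fun x => (x, x)) ∈ emb G a a univ := by
  simp only [emb, mem_filter, mem_univ, true_and]
  refine ⟨?_, ?_, ?_⟩
  · intro u hu w hw
    rw [mem_image] at hu hw
    obtain ⟨x, _, rfl⟩ := hu
    obtain ⟨y, _, rfl⟩ := hw
    exact ⟨Iff.rfl, Iff.rfl⟩
  · rw [mem_image]
    exact ⟨a, mem_univ _, rfl⟩
  · ext x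
    simp

theorem aut_of_mem {V : Type} [Fintype V] (G : SimpleGraph V) (a b : V) (I : Finset (V × V))
    (hI : I ∈ emb G a b univ) : ∃ φ : G ≃g G, φ a = b := by
  simp only [emb, mem_filter, mem_univ, true_and] at hI
  obtain ⟨h1, h2, h3⟩ := hI
  have hex : ∀ x : V, ∃ y : V, (x, y) ∈ I := by
    intro x
    have : x ∈ I.image Prod.fst := by
      rw [h3]
      exact mem_univ x
    rw [mem_image] at this
    obtain ⟨⟨x', y⟩, hu, hx⟩ := this
    simp only at hx
    subst hx
    exact ⟨y, hu⟩
  choose f hf using hex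
  have hinj : Function.Injective f := by
    intro x y hxy
    exact ((h1 _ (hf x) _ (hf y)).1).2 hxy
  have hbij : Function.Bijective f := Finite.injective_iff_bijective.1 hinj
  refine ⟨⟨Equiv.ofBijective f hbij, ?_⟩, ?_⟩
  · intro x y
    exact ((h1 _ (hf x) _ (hf y)).2).symm
  · change f a = b
    exact ((h1 _ (hf a) _ h2).1).1 rfl

end INCM

open INCM in
theorem inc : SpecINC := by
  intro V _ G a b hK hno S
  by_contra hcon
  push Not at hcon
  obtain ⟨h1, h2⟩ := hcon
  rw [T_eq] at h1 h2
  have hu : (univ : Finset V) ∈ univ.filter (fun Z : Finset V => S ⊆ Z) := by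
    simp only [mem_filter, mem_univ, true_and]
    exact Finset.subset_univ S
  rw [← Finset.add_sum_erase _ _ hu] at h1 h2
  have h3 : ∑ Z ∈ (univ.filter (fun Z : Finset V => S ⊆ Z)).erase univ,
        (-1 : ℤ) ^ Z.card * ((emb G a a Z).card : ℤ) =
      ∑ Z ∈ (univ.filter (fun Z : Finset V => S ⊆ Z)).erase univ,
        (-1 : ℤ) ^ Z.card * ((emb G a b Z).card : ℤ) := by
    apply Finset.sum_congr rfl
    intro Z hZ
    rw [hK Z (Finset.ne_of_mem_erase hZ)]
  rw [h3] at h1
  have h4 : (-1 : ℤ) ^ (univ : Finset V).card * ((emb G a a univ).card : ℤ) =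
      (-1 : ℤ) ^ (univ : Finset V).card * ((emb G a b univ).card : ℤ) := by linarith
  have h5 : ((emb G a a univ).card : ℤ) = ((emb G a b univ).card : ℤ) :=
    mul_left_cancel₀ (pow_ne_zero _ (by norm_num)) h4
  have h6 : 0 < (emb G a a univ).card := Finset.card_pos.2 ⟨_, id_mem G a⟩
  have h7 : 0 < (emb G a b univ).card := by
    have : (emb G a a univ).card = (emb G a b univ).card := by exact_mod_cast h5
    omega
  obtain ⟨I, hI⟩ := Finset.card_pos.1 h7
  exact hno (aut_of_mem G a b I hI)

end Pool.Agent.Lib.MP50ecf8.LOC
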