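import Pool.Agent.Lib.MP_50ecf8_co.LOC.Spec3

/-!
# IND: independence of the labels
-/

set_option autoImplicit false

open Finset
open scoped Classical

namespace Pool.Agent.Lib.MP50ecf8.LOC

namespace INDM

/-- exchange of the values on `T` -/
noncomputable def mix {V : Type} {K : ℕ} (T : Finset V) (f g : V → Fin (K + 1)) :
    V → Fin (K + 1) := fun v => if v ∈ T then g v else f v

theorem mix_mix {V : Type} {K : ℕ} (T : Finset V) (f g : V → Fin (K + 1)) :
    mix T (mix T f g) (mix T g f) = f := by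
  funext v
  unfold mix
  split_ifs <;> rfl

end INDM

open INDM in
theorem specIND : SpecIND := by
  intro V _ K T 𝒜 ℰ hA hE
  have h : ((𝒜 ∩ ℰ) ×ˢ (univ : Finset (V → Fin (K + 1)))).card = (𝒜 ×ˢ ℰ).card := by
    refine Finset.card_nbij' (fun x => (mix T x.1 x.2, mix T x.2 x.1))
      (fun x => (mix T x.1 x.2, mix T x.2 x.1)) ?_ ?_ ?_ ?_
    · rintro ⟨f, g⟩ hx
      simp only [coe_product, Set.mem_prod, mem_coe, mem_inter] at hx ⊢
      refine ⟨hA f _ (fun v hv => ?_) hx.1.1, hE f _ (fun v hv => ?_) hx.1.2⟩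
      · simp only [mix, if_neg hv]
      · simp only [mix, if_pos hv]
    · rintro ⟨a, e⟩ hx
      simp only [coe_product, Set.mem_prod, mem_coe, mem_inter, mem_univ, and_true] at hx ⊢
      refine ⟨hA a _ (fun v hv => ?_) hx.1, hE e _ (fun v hv => ?_) hx.2⟩
      · simp only [mix, if_neg hv]
      · simp only [mix, if_pos hv]
    · rintro ⟨f, g⟩ _
      simp only [mix_mix]
    · rintro ⟨f, g⟩ _
      simp only [mix_mix]
  rw [card_product, card_product, card_univ, Fintype.card_fun, Fintype.card_fin] at h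
  exact h

end Pool.Agent.Lib.MP50ecf8.LOC
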