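import Pool.Agent.Lib.MP_50ecf8_co.LOC.Spec8

/-!
# MP_50ecf8_co, module ISOY: few exceptional vertices in the big classes
-/

set_option autoImplicit false

open Finset
open scoped Classical

namespace Pool.Agent.Lib.MP50ecf8.LOC

namespace ISOYM

variable {V : Type} [Fintype V] {G : SimpleGraph V} {B C W Y : Finset V}

theorem mem_cl {u v : V} :
    u ∈ cl G B Y v ↔ u ∉ B ∧ ∀ w ∈ Y, (G.Adj w u ↔ G.Adj w v) := by
  simp [cl]

theorem cl_eq {u v : V} (h : ∀ w ∈ Y, (G.Adj w u ↔ G.Adj w v)) :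
    cl G B Y u = cl G B Y v := by
  ext x
  rw [mem_cl, mem_cl]
  refine and_congr Iff.rfl ?_
  exact forall₂_congr fun w hw => by rw [h w hw]

theorem mem_BC {m : ℕ} {v : V} :
    v ∈ BC G B C Y m ↔ v ∈ C ∧ v ∉ B ∧ ¬ Em G Y v ∧ 2 * m ≤ (cl G B Y v).card := by
  simp [BC]

theorem mem_iso {m : ℕ} {v w : V} :
    w ∈ iso G B W Y m v ↔ w ∈ W ∧ (side G B Y v w).card < m := by
  simp [iso]

theorem side_pos {v w : V} (h : G.Adj w v) :
    side G B Y v w = (cl G B Y v).filter fun u => G.Adj w u := by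
  unfold side
  exact filter_congr fun u _ => by simp [h]

theorem side_neg {v w : V} (h : ¬ G.Adj w v) :
    side G B Y v w = (cl G B Y v).filter fun u => ¬ G.Adj w u := by
  unfold side
  exact filter_congr fun u _ => by simp [h]

theorem sep_sub {m : ℕ} (hs : StW G B W Y m) {v v' : V} (hv : v ∈ BC G B C Y m)
    (hc : ∀ w ∈ Y, (G.Adj w v' ↔ G.Adj w v)) :
    sep G v v' ∩ W ⊆ iso G B W Y m v ∪ iso G B W Y m v' := by
  intro w hw
  rw [mem_inter] at hw
  obtain ⟨hw, hwW⟩ := hw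
  rw [mem_BC] at hv
  have hne : ¬(G.Adj w v ↔ G.Adj w v') := by
    simp only [sep, mem_filter, mem_univ, true_and] at hw
    exact hw.2.2
  have hcl : cl G B Y v' = cl G B Y v := cl_eq hc
  rw [mem_union, mem_iso, mem_iso]
  by_cases h1 : G.Adj w v
  · have h2 : ¬ G.Adj w v' := fun h => hne ⟨fun _ => h, fun _ => h1⟩
    rw [side_pos h1, side_neg h2, hcl]
    rcases hs v hv.2.1 hv.2.2.1 w hwW with h | h
    · exact Or.inl ⟨hwW, h⟩
    · exact Or.inr ⟨hwW, h⟩
  · have h2 : G.Adj w v' := by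
      by_contra h
      exact hne ⟨fun h' => absurd h' h1, fun h' => absurd h' h⟩
    rw [side_neg h1, side_pos h2, hcl]
    rcases hs v hv.2.1 hv.2.2.1 w hwW with h | h
    · exact Or.inr ⟨hwW, h⟩
    · exact Or.inl ⟨hwW, h⟩

end ISOYM

open ISOYM

theorem specISOY : SpecISOY := by
  intro V _ G B C W Y m t hs ht
  set Bad := (BC G B C Y m).filter fun v => ((iso G B W Y m v).card : ℝ) < t / 2 with hBad
  have hmem : ∀ v, v ∈ Bad ↔ v ∈ BC G B C Y m ∧ ((iso G B W Y m v).card : ℝ) < t / 2 := by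
    intro v
    rw [hBad, mem_filter]
  have hdis : ∀ v ∈ Bad, ∀ v' ∈ Bad, v ≠ v' → Disjoint (cl G B Y v) (cl G B Y v') := by
    intro v hv v' hv' hne
    rw [Finset.disjoint_left]
    intro x hx hx'
    rw [mem_cl] at hx hx'
    have hc : ∀ w ∈ Y, (G.Adj w v' ↔ G.Adj w v) := fun w hw =>
      (hx'.2 w hw).symm.trans (hx.2 w hw)
    rw [hmem] at hv hv'
    have h1 := sep_sub hs hv.1 hc
    have h2 : t ≤ ((sep G v v' ∩ W).card : ℝ) :=
      ht v (mem_BC.1 hv.1).1 (mem_BC.1 hv.1).2.1 v' (mem_BC.1 hv'.1).2.1 hne.symm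
    have h3 : (sep G v v' ∩ W).card ≤ (iso G B W Y m v).card + (iso G B W Y m v').card :=
      (card_le_card h1).trans (card_union_le _ _)
    have h4 : ((sep G v v' ∩ W).card : ℝ) ≤
        ((iso G B W Y m v).card : ℝ) + ((iso G B W Y m v').card : ℝ) := by
      exact_mod_cast h3
    have h5 := hv.2
    have h6 := hv'.2
    linarith
  have hsum : (Bad.biUnion fun v => cl G B Y v).card = ∑ v ∈ Bad, (cl G B Y v).card :=
    card_biUnion hdis
  have hge : Bad.card • (2 * m) ≤ ∑ v ∈ Bad, (cl G B Y v).card :=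
    card_nsmul_le_sum _ _ _ fun v hv => (mem_BC.1 ((hmem v).1 hv).1).2.2.2
  have hle : (Bad.biUnion fun v => cl G B Y v).card ≤ Fintype.card V := card_le_univ _
  rw [hsum] at hle
  rw [smul_eq_mul] at hge
  calc 2 * m * Bad.card = Bad.card * (2 * m) := by ring
    _ ≤ _ := hge.trans hle

end Pool.Agent.Lib.MP50ecf8.LOC
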