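import Pool.Agent.Lib.MP_50ecf8_co.LOC.Spec10
import Pool.Agent.Lib.MP_50ecf8_co.LOC.ISOY

/-!
# MP_50ecf8_co, module ISON: few exceptional vertices in the big classes, with near twins
-/

set_option autoImplicit false

open Finset
open scoped Classical

namespace Pool.Agent.Lib.MP50ecf8.LOC

open ISOYM

theorem specISON : SpecISON := by
  intro V _ G B C W Y m t M hs hM ht
  set Bad := (BC G B C Y m).filter fun v => ((iso G B W Y m v).card : ℝ) < t / 2 with hBad
  have hmem : ∀ v, v ∈ Bad ↔ v ∈ BC G B C Y m ∧ ((iso G B W Y m v).card : ℝ) < t / 2 := by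
    intro v
    rw [hBad, mem_filter]
  have hx : ∀ x : V, ((Bad.filter fun v => x ∈ cl G B Y v).card : ℝ) ≤ M := by
    intro x
    rcases (Bad.filter fun v => x ∈ cl G B Y v).eq_empty_or_nonempty with h0 | ⟨v, hv⟩
    · rw [h0, card_empty, Nat.cast_zero]
      exact hM
    · rw [mem_filter] at hv
      obtain ⟨hvB, hvx⟩ := hv
      have hv1 := (hmem v).1 hvB
      refine le_trans ?_ (ht v (mem_BC.1 hv1.1).1 (mem_BC.1 hv1.1).2.1)
      have hsub : (Bad.filter fun v => x ∈ cl G B Y v) ⊆ nr G B W v t := by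
        intro v' hv'
        rw [mem_filter] at hv'
        have hv2 := (hmem v').1 hv'.1
        have hx1 := mem_cl.1 hvx
        have hx2 := mem_cl.1 hv'.2
        have hc : ∀ w ∈ Y, (G.Adj w v' ↔ G.Adj w v) := fun w hw =>
          (hx2.2 w hw).symm.trans (hx1.2 w hw)
        have h1 := sep_sub hs hv1.1 hc
        have h3 : (sep G v v' ∩ W).card ≤ (iso G B W Y m v).card + (iso G B W Y m v').card :=
          (card_le_card h1).trans (card_union_le _ _)
        have h4 : ((sep G v v' ∩ W).card : ℝ) ≤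
            ((iso G B W Y m v).card : ℝ) + ((iso G B W Y m v').card : ℝ) := by
          exact_mod_cast h3
        have h5 := hv1.2
        have h6 := hv2.2
        rw [nr, mem_filter]
        exact ⟨mem_univ _, (mem_BC.1 hv2.1).2.1, by linarith⟩
      exact_mod_cast card_le_card hsub
  have e1 : ∀ v, ((cl G B Y v).card : ℝ) = ∑ x : V, if x ∈ cl G B Y v then (1 : ℝ) else 0 := by
    intro v
    rw [Finset.sum_boole, Finset.filter_mem_eq_inter, Finset.univ_inter]
  have e2 : ∀ x, ((Bad.filter fun v => x ∈ cl G B Y v).card : ℝ)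
      = ∑ v ∈ Bad, if x ∈ cl G B Y v then (1 : ℝ) else 0 := by
    intro x
    rw [Finset.sum_boole]
  calc 2 * m * (Bad.card : ℝ) = ∑ _v ∈ Bad, (2 * m : ℝ) := by
        rw [Finset.sum_const, nsmul_eq_mul]; ring
    _ ≤ ∑ v ∈ Bad, ((cl G B Y v).card : ℝ) := by
        refine Finset.sum_le_sum fun v hv => ?_
        exact_mod_cast (mem_BC.1 ((hmem v).1 hv).1).2.2.2
    _ = ∑ x : V, ((Bad.filter fun v => x ∈ cl G B Y v).card : ℝ) := by
        simp_rw [e1, e2]
        exact Finset.sum_comm
    _ ≤ ∑ _x : V, M := Finset.sum_le_sum fun x _ => hx x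
    _ = M * Fintype.card V := by
        rw [Finset.sum_const, nsmul_eq_mul, Finset.card_univ]; ring

end Pool.Agent.Lib.MP50ecf8.LOC
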