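import Pool.Agent.Lib.MP_50ecf8_co.LOC.Spec7

/-!
# MP_50ecf8_co, module ISOX: in each big class all vertices but at most one have many isolating vertices
-/

set_option autoImplicit false

open Finset
open scoped Classical

namespace Pool.Agent.Lib.MP50ecf8.LOC

namespace ISOXM

variable {V : Type} [Fintype V] {G : SimpleGraph V} {B Y : Finset V}

theorem mem_cl {u v : V} :
    u ∈ cl G B Y v ↔ u ∉ B ∧ ∀ w ∈ Y, (G.Adj w u ↔ G.Adj w v) := by
  simp [cl]

theorem cl_eq {u v : V} (h : ∀ w ∈ Y, (G.Adj w u ↔ G.Adj w v)) :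
    cl G B Y u = cl G B Y v := by
  ext x
  rw [mem_cl, mem_cl]
  refine and_congr Iff.rfl ?_
  exact forall₂_congr fun w hw => by rw [h w hw]

theorem em_iff {u v : V} (h : ∀ w ∈ Y, (G.Adj w u ↔ G.Adj w v)) :
    Em G Y u ↔ Em G Y v := by
  unfold Em
  exact forall₂_congr fun w hw => by rw [h w hw]

theorem mem_BB {m : ℕ} {v : V} :
    v ∈ BB G B Y m ↔ v ∉ B ∧ ¬ Em G Y v ∧ 2 * m ≤ (cl G B Y v).card := by
  simp [BB]

theorem cl_sub_BB {m : ℕ} {v : V} (hv : v ∈ BB G B Y m) : cl G B Y v ⊆ BB G B Y m := by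
  intro u hu
  rw [mem_cl] at hu
  rw [mem_BB] at hv ⊢
  refine ⟨hu.1, ?_, ?_⟩
  · rw [em_iff hu.2]; exact hv.2.1
  · rw [cl_eq hu.2]; exact hv.2.2

/-- the isolating vertices -/
noncomputable def W (G : SimpleGraph V) (B Y : Finset V) (m : ℕ) (v : V) : Finset V :=
  univ.filter fun w => (side G B Y v w).card < m

theorem mem_W {m : ℕ} {v w : V} : w ∈ W G B Y m v ↔ (side G B Y v w).card < m := by
  simp [W]

theorem side_pos {v w : V} (h : G.Adj w v) :
    side G B Y v w = (cl G B Y v).filter fun u => G.Adj w u := by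
  unfold side
  exact filter_congr fun u _ => by simp [h]

theorem side_neg {v w : V} (h : ¬ G.Adj w v) :
    side G B Y v w = (cl G B Y v).filter fun u => ¬ G.Adj w u := by
  unfold side
  exact filter_congr fun u _ => by simp [h]

theorem sep_sub {m : ℕ} (hs : Star G B Y m) {v v' : V} (hv : v ∈ BB G B Y m)
    (hc : ∀ w ∈ Y, (G.Adj w v' ↔ G.Adj w v)) :
    sep G v v' ⊆ W G B Y m v ∪ W G B Y m v' := by
  intro w hw
  rw [mem_BB] at hv
  have hne : ¬(G.Adj w v ↔ G.Adj w v') := by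
    simp only [sep, mem_filter, mem_univ, true_and] at hw
    exact hw.2.2
  have hcl : cl G B Y v' = cl G B Y v := cl_eq hc
  rw [mem_union, mem_W, mem_W]
  by_cases h1 : G.Adj w v
  · have h2 : ¬ G.Adj w v' := fun h => hne ⟨fun _ => h, fun _ => h1⟩
    rw [side_pos h1, side_neg h2, hcl]
    exact hs v hv.1 hv.2.1 w
  · have h2 : G.Adj w v' := by
      by_contra h
      exact hne ⟨fun h' => absurd h' h1, fun h' => absurd h' h⟩
    rw [side_neg h1, side_pos h2, hcl]
    exact (hs v hv.1 hv.2.1 w).symm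

end ISOXM

open ISOXM

theorem specISOX : SpecISOX := by
  intro V _ G B Y m t hs ht
  set Bad := (BB G B Y m).filter fun v =>
      (((univ.filter fun w => (side G B Y v w).card < m).card : ℕ) : ℝ) < t / 2 with hBad
  have hmem : ∀ v, v ∈ Bad ↔ v ∈ BB G B Y m ∧ ((W G B Y m v).card : ℝ) < t / 2 := by
    intro v
    rw [hBad, mem_filter]
    rfl
  have hdis : ∀ v ∈ Bad, ∀ v' ∈ Bad, v ≠ v' → Disjoint (cl G B Y v) (cl G B Y v') := by
    intro v hv v' hv' hne
    rw [Finset.disjoint_left]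
    intro x hx hx'
    rw [mem_cl] at hx hx'
    have hc : ∀ w ∈ Y, (G.Adj w v' ↔ G.Adj w v) := fun w hw =>
      (hx'.2 w hw).symm.trans (hx.2 w hw)
    rw [hmem] at hv hv'
    have h1 := sep_sub hs hv.1 hc
    have h2 : t ≤ ((sep G v v').card : ℝ) :=
      ht v (mem_BB.1 hv.1).1 v' (mem_BB.1 hv'.1).1 hne
    have h3 : (sep G v v').card ≤ (W G B Y m v).card + (W G B Y m v').card :=
      (card_le_card h1).trans (card_union_le _ _)
    have h4 : ((sep G v v').card : ℝ) ≤ ((W G B Y m v).card : ℝ) + ((W G B Y m v').card : ℝ) := by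
      exact_mod_cast h3
    have h5 := hv.2
    have h6 := hv'.2
    linarith
  have hsum : (Bad.biUnion fun v => cl G B Y v).card = ∑ v ∈ Bad, (cl G B Y v).card :=
    card_biUnion hdis
  have hsub : (Bad.biUnion fun v => cl G B Y v) ⊆ BB G B Y m := by
    intro x hx
    rw [mem_biUnion] at hx
    obtain ⟨v, hv, hxv⟩ := hx
    exact cl_sub_BB ((hmem v).1 hv).1 hxv
  have hge : Bad.card • (2 * m) ≤ ∑ v ∈ Bad, (cl G B Y v).card :=
    card_nsmul_le_sum _ _ _ fun v hv => (mem_BB.1 ((hmem v).1 hv).1).2.2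
  have := card_le_card hsub
  rw [hsum] at this
  rw [smul_eq_mul] at hge
  calc 2 * m * Bad.card = Bad.card * (2 * m) := by ring
    _ ≤ _ := hge.trans this

end Pool.Agent.Lib.MP50ecf8.LOC
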