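import Pool.Agent.Lib.MP_50ecf8_co.LOC.Spec8

/-!
# MP_50ecf8_co, module ITY: the phases (general form; adapted from ITX of helper52)
-/

set_option autoImplicit false

open Finset
open scoped Classical

namespace Pool.Agent.Lib.MP50ecf8.LOC

namespace ITYM

variable {V : Type} [Fintype V]

theorem em_mono {G : SimpleGraph V} {Y Y' : Finset V} (h : Y ⊆ Y') {v : V} (hv : Em G Y' v) :
    Em G Y v := fun w hw => hv w (h hw)

theorem cl_mono {G : SimpleGraph V} {B Y Y' : Finset V} (h : Y ⊆ Y') (v : V) :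
    cl G B Y' v ⊆ cl G B Y v := by
  intro u hu
  rw [cl, mem_filter] at hu ⊢
  exact ⟨mem_univ u, hu.2.1, fun w hw => hu.2.2 w (h hw)⟩

theorem ec_mono {G : SimpleGraph V} {B C Y Y' : Finset V} (h : Y ⊆ Y') :
    EC G B C Y' ⊆ EC G B C Y := by
  intro v hv
  rw [EC, mem_filter] at hv ⊢
  exact ⟨mem_univ v, hv.2.1, hv.2.2.1, em_mono h hv.2.2.2⟩

theorem ec_bc_card (G : SimpleGraph V) (B C Y : Finset V) (m : ℕ) :
    (EC G B C Y).card + (BC G B C Y m).card ≤ Fintype.card V := by
  have hd : Disjoint (EC G B C Y) (BC G B C Y m) := by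
    rw [disjoint_left]
    intro v hv hv'
    rw [EC, mem_filter] at hv
    rw [BC, mem_filter] at hv'
    exact hv'.2.2.2.1 hv.2.2.2
  rw [← card_union_of_disjoint hd]
  exact card_le_univ _

/-- the weight does not grow -/
theorem weight_mono {G : SimpleGraph V} {B C Y Y' : Finset V} (h : Y ⊆ Y') (m : ℕ) :
    3 * (EC G B C Y').card + (BC G B C Y' m).card ≤
      3 * (EC G B C Y).card + (BC G B C Y m).card := by
  have h1 : (EC G B C Y').card ≤ (EC G B C Y).card := card_le_card (ec_mono h)
  have h2 : BC G B C Y' m ⊆ BC G B C Y m ∪ (EC G B C Y \ EC G B C Y') := by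
    intro v hv
    rw [BC, mem_filter] at hv
    obtain ⟨_, hvC, hvB, hvE, hvc⟩ := hv
    rw [mem_union]
    by_cases hE : Em G Y v
    · right
      rw [mem_sdiff, EC, EC, mem_filter, mem_filter]
      exact ⟨⟨mem_univ v, hvC, hvB, hE⟩, fun h3 => hvE h3.2.2.2⟩
    · left
      rw [BC, mem_filter]
      exact ⟨mem_univ v, hvC, hvB, hE, le_trans hvc (card_le_card (cl_mono h v))⟩
  have h3 : (BC G B C Y' m).card ≤
      (BC G B C Y m).card + ((EC G B C Y).card - (EC G B C Y').card) := by
    refine le_trans (card_le_card h2) (le_trans (card_union_le _ _) ?_)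
    rw [card_sdiff_of_subset (ec_mono h)]
  omega

end ITYM

open ITYM in
theorem specITY (hPHIY : SpecPHIY) (hSPLY : SpecSPLY) (hPHSY : SpecPHSY) (hPCMX : SpecPCMX) :
    SpecITY := by
  intro V _ G B C W B₀ D m s t R hm hdeg hWC hBB ht htW hq hsR hR hsep hE N
  obtain ⟨hPhi0, -, hPhiMono⟩ := hPHIY V G B W D hdeg
  have hmR : (0 : ℝ) < m := by exact_mod_cast hm
  have hqW : (0 : ℝ) < W.card := lt_of_lt_of_le ht htW
  suffices hmain : ∃ F Y : Finset V, F ⊆ Y ∧ Y ⊆ W ∧
      PC G (F ∪ B₀) (Y ∪ B₀) (((((2 * m : ℕ) : ℝ) * (1 + Fintype.card V / R)) ^ R) ^ N) ∧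
      StW G B W Y m ∧
      (3 * (EC G B C Y).card + (BC G B C Y m).card : ℝ) ≤
        3 * Fintype.card V * (3 / 4 : ℝ) ^ N + 4 * Fintype.card V / m ∧
      (F.card : ℝ) ≤ 36 * s * Fintype.card V / W.card * (1 - (3 / 4 : ℝ) ^ N) +
        12 * s * N * Fintype.card V / (m * W.card) + Phi G B Y D / m ∧
      Y.card ≤ F.card + N * s by
    obtain ⟨F, Y, h1, h2, h3, -, h5, h6, h7⟩ := hmain
    exact ⟨F, Y, h1, h2, h3, h5, h6, h7⟩
  induction N with
  | zero =>
    obtain ⟨S, hSW, hStar, hS⟩ := hSPLY V G B W ∅ D m hm (empty_subset W) hdeg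
    rw [empty_union] at hStar hS
    refine ⟨S, S, Subset.refl _, hSW, ?_, hStar, ?_, ?_, ?_⟩
    · rw [pow_zero]
      exact PC.base
    · rw [pow_zero, mul_one]
      have h1 := ec_bc_card G B C S m
      have h2 : ((EC G B C S).card : ℝ) + ((BC G B C S m).card : ℝ) ≤
          Fintype.card V := by exact_mod_cast h1
      have h3 : (0 : ℝ) ≤ ((BC G B C S m).card : ℝ) := Nat.cast_nonneg _
      have h4 : (0 : ℝ) ≤ 4 * Fintype.card V / m := by positivity
      linarith
    · have h2 : (S.card : ℝ) ≤ Phi G B S D / m := by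
        rw [le_div_iff₀ hmR]
        have := hPhi0 ∅ (empty_subset W)
        linarith
      rw [pow_zero, sub_self, mul_zero, Nat.cast_zero, mul_zero, zero_mul, zero_div, add_zero,
        zero_add]
      exact h2
    · omega
  | succ N ih =>
    obtain ⟨F, Y, hFY, hYW, hPC, hStar, hwt, hFc, hYc⟩ := ih
    obtain ⟨S, hSW, hSs, hSU, hS34⟩ := hPHSY V G B C W Y m s t hm ht htW hq hStar hsep hE
    have hYSW : Y ∪ S ⊆ W := union_subset hYW hSW
    obtain ⟨T, hTW, hStar', hT⟩ := hSPLY V G B W (Y ∪ S) D m hm hYSW hdeg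
    obtain ⟨U, hU⟩ : ∃ U : Finset V, U = EC G B C Y ∪ BC G B C Y m := ⟨_, rfl⟩
    rw [← hU] at hSU
    obtain ⟨F', hF'⟩ : ∃ F' : Finset V, F' = F ∪ (S ∩ U) ∪ T := ⟨_, rfl⟩
    obtain ⟨Y', hY'⟩ : ∃ Y' : Finset V, Y' = Y ∪ S ∪ T := ⟨_, rfl⟩
    rw [← hY'] at hStar' hT
    have hFF' : F ⊆ F' := by
      rw [hF']
      exact subset_union_left.trans subset_union_left
    have hYY' : Y ⊆ Y' := by
      rw [hY']
      exact subset_union_left.trans subset_union_left
    have hY'W : Y' ⊆ W := by
      rw [hY']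
      exact union_subset hYSW hTW
    have hF'Y' : F' ⊆ Y' := by
      intro v hv
      rw [hF', mem_union, mem_union, mem_inter] at hv
      rw [hY', mem_union, mem_union]
      rcases hv with (hv | hv) | hv
      · exact Or.inl (Or.inl (hFY hv))
      · exact Or.inl (Or.inr hv.1)
      · exact Or.inr hv
    have hout : ∀ z ∈ Y', z ∉ Y → z ∉ F' → z ∈ S ∧ z ∉ U ∧ z ∉ Y := by
      intro z hz z1 hz'
      rw [hF', mem_union, mem_union, not_or, not_or, mem_inter] at hz'
      rw [hY', mem_union, mem_union] at hz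
      obtain ⟨⟨z2, z3⟩, z4⟩ := hz'
      have hzS : z ∈ S := (hz.resolve_right z4).resolve_left z1
      exact ⟨hzS, fun h => z3 ⟨hzS, h⟩, z1⟩
    have hout' : ∀ z ∈ Y' ∪ B₀, z ∉ (Y ∪ B₀) ∪ (F' ∪ B₀) →
        z ∉ B₀ ∧ z ∈ S ∧ z ∉ U ∧ z ∉ Y := by
      intro z hz hz'
      rw [mem_union, mem_union, mem_union, not_or, not_or, not_or] at hz'
      obtain ⟨⟨z1, z2⟩, z3, -⟩ := hz'
      have hz1 : z ∈ Y' := (mem_union.1 hz).resolve_right z2
      exact ⟨z2, hout z hz1 z1 z3⟩
    refine ⟨F', Y', hF'Y', hY'W, ?_, hStar', ?_, ?_, ?_⟩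
    · rw [pow_succ]
      refine PC.paid (hPCMX V G (F ∪ B₀) (F' ∪ B₀) (Y ∪ B₀) _ hPC
        (union_subset_union_left hFF'))
        (union_subset (union_subset_union_left hYY') (union_subset_union_left hF'Y'))
        (by omega) ?_ ?_ hR
      · intro z hz hz'
        obtain ⟨zB₀, zS, zU, zY⟩ := hout' z hz hz'
        rw [hU, mem_union, not_or] at zU
        have hzB : z ∉ B := fun h => zB₀ (hBB h)
        have hzC : z ∈ C := hWC (hSW zS)
        have hzE : ¬ Em G Y z := by
          intro h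
          refine zU.1 ?_
          rw [EC, mem_filter]
          exact ⟨mem_univ z, hzC, hzB, h⟩
        have hzc : (cl G B Y z).card ≤ 2 * m := by
          by_contra hcon
          refine zU.2 ?_
          rw [BC, mem_filter]
          exact ⟨mem_univ z, hzC, hzB, hzE, by omega⟩
        refine le_trans (card_le_card ?_) hzc
        intro u hu
        rw [tc, mem_filter] at hu
        rw [cl, mem_filter]
        exact ⟨mem_univ u, fun h => hu.2.1 (mem_union_left _ (mem_union_right _ (hBB h))),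
          fun w hw => hu.2.2 w (mem_union_left _ (mem_union_left _ hw))⟩
      · refine le_trans ?_ hsR
        have h1 : ((Y' ∪ B₀) \ ((Y ∪ B₀) ∪ (F' ∪ B₀))).card ≤ S.card := by
          apply card_le_card
          intro z hz
          rw [mem_sdiff] at hz
          exact (hout' z hz.1 hz.2).2.1
        exact_mod_cast h1.trans hSs
    · have h1 := weight_mono (G := G) (B := B) (C := C) (show Y ∪ S ⊆ Y' by
        rw [hY']
        exact subset_union_left) m
      have h2 : (3 * (EC G B C Y').card + (BC G B C Y' m).card : ℝ) ≤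
          3 * (EC G B C (Y ∪ S)).card + (BC G B C (Y ∪ S) m).card := by exact_mod_cast h1
      calc (3 * (EC G B C Y').card + (BC G B C Y' m).card : ℝ) ≤ _ := h2
        _ ≤ _ := hS34
        _ ≤ 3 / 4 * (3 * Fintype.card V * (3 / 4 : ℝ) ^ N + 4 * Fintype.card V / m) +
            Fintype.card V / m := by linarith
        _ = 3 * Fintype.card V * (3 / 4 : ℝ) ^ (N + 1) + 4 * Fintype.card V / m := by ring
    · have h1 : (F'.card : ℝ) ≤ F.card + (S ∩ U).card + T.card := by
        have h3 : F'.card ≤ F.card + (S ∩ U).card + T.card := by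
          rw [hF']
          have h4 := card_union_le (F ∪ (S ∩ U)) T
          have h5 := card_union_le F (S ∩ U)
          omega
        exact_mod_cast h3
      have h2 : (((S ∩ U).card : ℕ) : ℝ) ≤ 9 * s * Fintype.card V / W.card * (3 / 4 : ℝ) ^ N +
          12 * s * Fintype.card V / (m * W.card) := by
        refine le_trans hSU ?_
        have h3 : (0 : ℝ) ≤ 3 * s / W.card := by positivity
        calc 3 * (s : ℝ) * (3 * (EC G B C Y).card + (BC G B C Y m).card) / W.card
            = 3 * s / W.card * (3 * (EC G B C Y).card + (BC G B C Y m).card) := by ring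
          _ ≤ 3 * s / W.card * (3 * Fintype.card V * (3 / 4 : ℝ) ^ N + 4 * Fintype.card V / m) :=
              mul_le_mul_of_nonneg_left hwt h3
          _ = _ := by field_simp; ring
      have h3 : (T.card : ℝ) ≤ Phi G B Y' D / m - Phi G B Y D / m := by
        rw [← sub_div, le_div_iff₀ hmR]
        have h4 := hPhiMono Y (Y ∪ S) subset_union_left hYSW
        linarith
      have h4 : (36 : ℝ) * s * Fintype.card V / W.card * (1 - (3 / 4 : ℝ) ^ (N + 1)) =
          36 * s * Fintype.card V / W.card * (1 - (3 / 4 : ℝ) ^ N) +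
            9 * s * Fintype.card V / W.card * (3 / 4 : ℝ) ^ N := by ring
      have h5 : (12 : ℝ) * s * ((N + 1 : ℕ) : ℝ) * Fintype.card V / (m * W.card) =
          12 * s * N * Fintype.card V / (m * W.card) +
            12 * s * Fintype.card V / (m * W.card) := by
        rw [Nat.cast_add, Nat.cast_one]
        ring
      rw [h4, h5]
      linarith
    · have h1 : Y' \ F' ⊆ (Y \ F) ∪ S := by
        intro v hv
        rw [mem_sdiff] at hv
        rw [mem_union, mem_sdiff]
        by_cases hvY : v ∈ Y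
        · exact Or.inl ⟨hvY, fun h => hv.2 (hFF' h)⟩
        · exact Or.inr (hout v hv.1 hvY hv.2).1
      have h2 : (Y' \ F').card ≤ (Y \ F).card + S.card :=
        le_trans (card_le_card h1) (card_union_le _ _)
      rw [card_sdiff_of_subset hF'Y', card_sdiff_of_subset hFY] at h2
      have h3 := card_le_card hF'Y'
      have h4 := card_le_card hFY
      have h5 : (N + 1) * s = N * s + s := by ring
      rw [h5]
      omega

end Pool.Agent.Lib.MP50ecf8.LOC
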