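import Pool.Agent.Lib.MP_50ecf8_co.LOC.Spec7

/-!
# MP_50ecf8_co, module ITX: the phases
-/

set_option autoImplicit false

open Finset
open scoped Classical

namespace Pool.Agent.Lib.MP50ecf8.LOC

namespace ITXM

variable {V : Type} [Fintype V]

theorem em_mono {G : SimpleGraph V} {Y Y' : Finset V} (h : Y ⊆ Y') {v : V} (hv : Em G Y' v) :
    Em G Y v := fun w hw => hv w (h hw)

theorem cl_mono {G : SimpleGraph V} {B Y Y' : Finset V} (h : Y ⊆ Y') (v : V) :
    cl G B Y' v ⊆ cl G B Y v := by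
  intro u hu
  rw [cl, mem_filter] at hu ⊢
  exact ⟨mem_univ u, hu.2.1, fun w hw => hu.2.2 w (h hw)⟩

theorem ee_mono {G : SimpleGraph V} {B Y Y' : Finset V} (h : Y ⊆ Y') : EE G B Y' ⊆ EE G B Y := by
  intro v hv
  rw [EE, mem_filter] at hv ⊢
  exact ⟨mem_univ v, hv.2.1, em_mono h hv.2.2⟩

theorem ee_bb_card (G : SimpleGraph V) (B Y : Finset V) (m : ℕ) :
    (EE G B Y).card + (BB G B Y m).card ≤ Fintype.card V := by
  have hd : Disjoint (EE G B Y) (BB G B Y m) := by
    rw [disjoint_left]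
    intro v hv hv'
    rw [EE, mem_filter] at hv
    rw [BB, mem_filter] at hv'
    exact hv'.2.2.1 hv.2.2
  rw [← card_union_of_disjoint hd]
  exact card_le_univ _

/-- the weight does not grow -/
theorem weight_mono {G : SimpleGraph V} {B Y Y' : Finset V} (h : Y ⊆ Y') (m : ℕ) :
    3 * (EE G B Y').card + (BB G B Y' m).card ≤ 3 * (EE G B Y).card + (BB G B Y m).card := by
  have h1 : (EE G B Y').card ≤ (EE G B Y).card := card_le_card (ee_mono h)
  have h2 : BB G B Y' m ⊆ BB G B Y m ∪ (EE G B Y \ EE G B Y') := by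
    intro v hv
    rw [BB, mem_filter] at hv
    obtain ⟨_, hvB, hvE, hvc⟩ := hv
    rw [mem_union]
    by_cases hE : Em G Y v
    · right
      rw [mem_sdiff, EE, EE, mem_filter, mem_filter]
      exact ⟨⟨mem_univ v, hvB, hE⟩, fun h3 => hvE h3.2.2⟩
    · left
      rw [BB, mem_filter]
      exact ⟨mem_univ v, hvB, hE, le_trans hvc (card_le_card (cl_mono h v))⟩
  have h3 : (BB G B Y' m).card ≤ (BB G B Y m).card + ((EE G B Y).card - (EE G B Y').card) := by
    refine le_trans (card_le_card h2) (le_trans (card_union_le _ _) ?_)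
    rw [card_sdiff_of_subset (ee_mono h)]
  omega

end ITXM

open ITXM in
theorem specITX (hPHIX : SpecPHIX) (hSPLX : SpecSPLX) (hPHSX : SpecPHSX) (hPCMX : SpecPCMX) :
    SpecITX := by
  intro V _ G B F₀ D m s t R hm hdeg hBF ht htp hq hsR hR hsep hEE N
  obtain ⟨hPhi0, -, hPhiMono⟩ := hPHIX V G B D hdeg
  have hm1 : 1 ≤ m := by omega
  have hmR : (0 : ℝ) < m := by exact_mod_cast hm1
  have hp : (0 : ℝ) < Fintype.card V := lt_of_lt_of_le ht htp
  induction N with
  | zero =>
    obtain ⟨W, hStar, hW⟩ := hSPLX V G B F₀ D m hm1 hdeg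
    refine ⟨F₀ ∪ W, F₀ ∪ W, subset_union_left, Subset.refl _, ?_, hStar, ?_, ?_, ?_⟩
    · rw [pow_zero]
      exact PC.base
    · rw [pow_zero, mul_one]
      have h1 := ee_bb_card G B (F₀ ∪ W) m
      have h2 : ((EE G B (F₀ ∪ W)).card : ℝ) + ((BB G B (F₀ ∪ W) m).card : ℝ) ≤
          Fintype.card V := by exact_mod_cast h1
      have h3 : (0 : ℝ) ≤ ((BB G B (F₀ ∪ W) m).card : ℝ) := Nat.cast_nonneg _
      linarith
    · rw [pow_zero, sub_self, mul_zero, add_zero]
      have h1 : (((F₀ ∪ W).card : ℕ) : ℝ) ≤ F₀.card + W.card := by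
        exact_mod_cast card_union_le F₀ W
      have h2 : (W.card : ℝ) ≤ Phi G B (F₀ ∪ W) D / m := by
        rw [le_div_iff₀ hmR]
        have := hPhi0 F₀
        linarith
      linarith
    · omega
  | succ N ih =>
    obtain ⟨F, Y, hF₀F, hFY, hPC, hStar, hwt, hFc, hYc⟩ := ih
    have hF₀Y : F₀ ⊆ Y := hF₀F.trans hFY
    have hBY : B ⊆ Y := hBF.trans hF₀Y
    obtain ⟨S, hSs, hSU, hS34⟩ := hPHSX V G B Y m s t hm ht htp hq hStar hsep
      (fun v hv => hEE v (ee_mono hF₀Y hv))
    obtain ⟨W, hStar', hW⟩ := hSPLX V G B (Y ∪ S) D m hm1 hdeg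
    obtain ⟨U, hU⟩ : ∃ U : Finset V, U = EE G B Y ∪ BB G B Y m := ⟨_, rfl⟩
    rw [← hU] at hSU
    obtain ⟨F', hF'⟩ : ∃ F' : Finset V, F' = F ∪ (S ∩ U) ∪ W := ⟨_, rfl⟩
    obtain ⟨Y', hY'⟩ : ∃ Y' : Finset V, Y' = Y ∪ S ∪ W := ⟨_, rfl⟩
    rw [← hY'] at hStar' hW
    have hFF' : F ⊆ F' := by
      rw [hF']
      exact subset_union_left.trans subset_union_left
    have hYY' : Y ⊆ Y' := by
      rw [hY']
      exact subset_union_left.trans subset_union_left
    have hF'Y' : F' ⊆ Y' := by
      intro v hv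
      rw [hF', mem_union, mem_union, mem_inter] at hv
      rw [hY', mem_union, mem_union]
      rcases hv with (hv | hv) | hv
      · exact Or.inl (Or.inl (hFY hv))
      · exact Or.inl (Or.inr hv.1)
      · exact Or.inr hv
    have hout : ∀ z ∈ Y', z ∉ Y ∪ F' → z ∈ S ∧ z ∉ U ∧ z ∉ Y := by
      intro z hz hz'
      rw [mem_union, not_or, hF', mem_union, mem_union, not_or, not_or, mem_inter] at hz'
      rw [hY', mem_union, mem_union] at hz
      obtain ⟨z1, ⟨z2, z3⟩, z4⟩ := hz'
      have hzS : z ∈ S := (hz.resolve_right z4).resolve_left z1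
      exact ⟨hzS, fun h => z3 ⟨hzS, h⟩, z1⟩
    refine ⟨F', Y', hF₀F.trans hFF', hF'Y', ?_, hStar', ?_, ?_, ?_⟩
    · rw [pow_succ]
      refine PC.paid (hPCMX V G F F' Y _ hPC hFF') (union_subset hYY' hF'Y') (by omega) ?_ ?_ hR
      · intro z hz hz'
        obtain ⟨_, zU, zY⟩ := hout z hz hz'
        rw [hU, mem_union, not_or] at zU
        have hzB : z ∉ B := fun h => zY (hBY h)
        have hzE : ¬ Em G Y z := by
          intro h
          refine zU.1 ?_
          rw [EE, mem_filter]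
          exact ⟨mem_univ z, hzB, h⟩
        have hzc : (cl G B Y z).card ≤ 2 * m := by
          by_contra hcon
          refine zU.2 ?_
          rw [BB, mem_filter]
          exact ⟨mem_univ z, hzB, hzE, by omega⟩
        refine le_trans (card_le_card ?_) hzc
        intro u hu
        rw [tc, mem_filter] at hu
        rw [cl, mem_filter]
        exact ⟨mem_univ u, fun h => hu.2.1 (mem_union_left _ (hBY h)), fun w hw =>
          hu.2.2 w (mem_union_left _ hw)⟩
      · refine le_trans ?_ hsR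
        have h1 : (Y' \ (Y ∪ F')).card ≤ S.card := by
          apply card_le_card
          intro z hz
          rw [mem_sdiff] at hz
          exact (hout z hz.1 hz.2).1
        exact_mod_cast h1.trans hSs
    · have h1 := weight_mono (G := G) (B := B) (show Y ∪ S ⊆ Y' by
        rw [hY']
        exact subset_union_left) m
      have h2 : (3 * (EE G B Y').card + (BB G B Y' m).card : ℝ) ≤
          3 * (EE G B (Y ∪ S)).card + (BB G B (Y ∪ S) m).card := by exact_mod_cast h1
      calc (3 * (EE G B Y').card + (BB G B Y' m).card : ℝ) ≤ _ := h2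
        _ ≤ _ := hS34
        _ ≤ 3 / 4 * (3 * Fintype.card V * (3 / 4 : ℝ) ^ N) := by linarith
        _ = 3 * Fintype.card V * (3 / 4 : ℝ) ^ (N + 1) := by ring
    · have h1 : (F'.card : ℝ) ≤ F.card + (S ∩ U).card + W.card := by
        have h3 : F'.card ≤ F.card + (S ∩ U).card + W.card := by
          rw [hF']
          have h4 := card_union_le (F ∪ (S ∩ U)) W
          have h5 := card_union_le F (S ∩ U)
          omega
        exact_mod_cast h3
      have h2 : (((S ∩ U).card : ℕ) : ℝ) ≤ 9 * s * (3 / 4 : ℝ) ^ N := by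
        refine le_trans hSU ?_
        rw [div_le_iff₀ hp]
        have h3 : (0 : ℝ) ≤ 3 * s := by positivity
        calc 3 * (s : ℝ) * (3 * (EE G B Y).card + (BB G B Y m).card)
            ≤ 3 * s * (3 * Fintype.card V * (3 / 4 : ℝ) ^ N) := mul_le_mul_of_nonneg_left hwt h3
          _ = 9 * s * (3 / 4 : ℝ) ^ N * Fintype.card V := by ring
      have h3 : (W.card : ℝ) ≤ Phi G B Y' D / m - Phi G B Y D / m := by
        rw [← sub_div, le_div_iff₀ hmR]
        have h4 := hPhiMono Y (Y ∪ S) subset_union_left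
        linarith
      have h4 : (36 : ℝ) * s * (1 - (3 / 4 : ℝ) ^ (N + 1)) =
          36 * s * (1 - (3 / 4 : ℝ) ^ N) + 9 * s * (3 / 4 : ℝ) ^ N := by ring
      rw [h4]
      linarith
    · have h1 : Y' \ F' ⊆ (Y \ F) ∪ S := by
        intro v hv
        rw [mem_sdiff] at hv
        rw [mem_union, mem_sdiff]
        by_cases hvY : v ∈ Y
        · exact Or.inl ⟨hvY, fun h => hv.2 (hFF' h)⟩
        · refine Or.inr (hout v hv.1 ?_).1
          rw [mem_union, not_or]
          exact ⟨hvY, hv.2⟩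
      have h2 : (Y' \ F').card ≤ (Y \ F).card + S.card :=
        le_trans (card_le_card h1) (card_union_le _ _)
      rw [card_sdiff_of_subset hF'Y', card_sdiff_of_subset hFY] at h2
      have h3 := card_le_card hF'Y'
      have h4 := card_le_card hFY
      have h5 : (N + 1) * s = N * s + s := by ring
      rw [h5]
      omega

end Pool.Agent.Lib.MP50ecf8.LOC
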