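import Pool.Agent.Lib.MP_50ecf8_co.LOC.Spec

set_option autoImplicit false

open Finset
open scoped Classical

namespace Pool.Agent.Lib.MP50ecf8.LOC

/-- `C(m, k) ≤ N 3 ^ k` -/
lemma main_choose (hKEL : SpecKEL) (hINC : SpecINC) (hTOG : SpecTOG) (hCNT : SpecCNT)
    {V : Type} [Fintype V] {G : SimpleGraph V} {a b : V} {X : Finset V} (ha : a ∈ X)
    (hX : Locating G X) (hH : H2 G a b) (hno : ¬ ∃ φ : G ≃g G, φ a = b) (k : ℕ)
    (hk : k ≤ Fintype.card V - X.card) :
    (Fintype.card V - X.card).choose k ≤ 3 ^ k * ((emb G a a X).card + (emb G a b X).card) := by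
  set m := Fintype.card V - X.card with hm
  have hXV : X.card ≤ Fintype.card V := Finset.card_le_univ X
  set F := (univ : Finset (Finset (V × V))).filter fun J => Good G J ∧ Closed G J ∧
        J.filter (fun u => u.1 ∈ X) ∈ emb G a a X ∪ emb G a b X ∧ J.card + k = Fintype.card V
    with hF
  have hex : ∀ W : Finset V, W ∈ powersetCard (m - k) (univ \ X) →
      ∃ J ∈ F, J.image Prod.fst = X ∪ W := by
    intro W hW
    rw [mem_powersetCard] at hW
    obtain ⟨hWs, hWc⟩ := hW
    have hdisj : Disjoint X W := by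
      rw [Finset.disjoint_left]
      intro x hx hxW
      exact (Finset.mem_sdiff.mp (hWs hxW)).2 hx
    have haS : a ∈ X ∪ W := Finset.mem_union_left _ ha
    have hr : ∃ r, (r = a ∨ r = b) ∧ T G a r (X ∪ W) ≠ 0 := by
      rcases hINC V G a b (hKEL V G a b hH) hno (X ∪ W) with h | h
      · exact ⟨a, Or.inl rfl, h⟩
      · exact ⟨b, Or.inr rfl, h⟩
    obtain ⟨r, hr, hT⟩ := hr
    obtain ⟨J, hJ, har, hJS, hcl⟩ := hTOG V G a r (X ∪ W) haS hT
    refine ⟨J, ?_, hJS⟩
    rw [hF, Finset.mem_filter]
    refine ⟨Finset.mem_univ _, hJ, hcl, ?_, ?_⟩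
    · have hmem : J.filter (fun u => u.1 ∈ X) ∈ emb G a r X := by
        rw [emb, Finset.mem_filter]
        refine ⟨Finset.mem_univ _, ?_, ?_, ?_⟩
        · intro u hu w hw
          exact hJ u (Finset.mem_filter.mp hu).1 w (Finset.mem_filter.mp hw).1
        · exact Finset.mem_filter.mpr ⟨har, ha⟩
        · ext x
          simp only [Finset.mem_image, Finset.mem_filter]
          constructor
          · rintro ⟨u, ⟨_, hu⟩, rfl⟩
            exact hu
          · intro hx
            have h1 : x ∈ J.image Prod.fst := by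
              rw [hJS]; exact Finset.mem_union_left _ hx
            obtain ⟨u, hu, rfl⟩ := Finset.mem_image.mp h1
            exact ⟨u, ⟨hu, hx⟩, rfl⟩
      rcases hr with rfl | rfl
      · exact Finset.mem_union_left _ hmem
      · exact Finset.mem_union_right _ hmem
    · have h1 : (J.image Prod.fst).card = J.card := by
        apply Finset.card_image_of_injOn
        intro u hu w hw huw
        exact Prod.ext huw ((hJ u (by simpa using hu) w (by simpa using hw)).1.mp huw)
      rw [← h1, hJS, Finset.card_union_of_disjoint hdisj, hWc]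
      omega
  choose! f hfF hfS using hex
  have h1 : (powersetCard (m - k) (univ \ X)).card ≤ F.card := by
    apply Finset.card_le_card_of_injOn f (fun W hW => hfF W (by simpa using hW))
    intro W hW W' hW' h
    have hW1 : W ∈ powersetCard (m - k) (univ \ X) := by simpa using hW
    have hW1' : W' ∈ powersetCard (m - k) (univ \ X) := by simpa using hW'
    have h2 := hfS W hW1
    have h3 := hfS W' hW1'
    rw [h, h3] at h2
    have hd : ∀ Y : Finset V, Y ∈ powersetCard (m - k) (univ \ X) → (X ∪ Y) \ X = Y := by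
      intro Y hY
      rw [Finset.union_sdiff_left]
      apply Finset.sdiff_eq_self_of_disjoint
      rw [Finset.disjoint_right]
      intro x hx hxY
      exact (Finset.mem_sdiff.mp ((mem_powersetCard.mp hY).1 hxY)).2 hx
    rw [← hd W hW1, ← hd W' hW1', h2]
  have h2 : F.card ≤ 3 ^ k * (emb G a a X ∪ emb G a b X).card := by
    apply Finset.card_le_mul_card_image_of_maps_to (f := fun J => J.filter (fun u => u.1 ∈ X))
    · intro J hJ
      exact (Finset.mem_filter.mp hJ).2.2.2.1
    · intro g hg
      have hgX : g.image Prod.fst = X := by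
        rcases Finset.mem_union.mp hg with h | h
        · exact (Finset.mem_filter.mp h).2.2.2
        · exact (Finset.mem_filter.mp h).2.2.2
      refine le_trans (Finset.card_le_card ?_) (hCNT V G X hX g k hgX)
      intro J hJ
      rw [Finset.mem_filter, hF, Finset.mem_filter] at hJ
      rw [Finset.mem_filter]
      exact ⟨Finset.mem_univ _, hJ.1.2.1, hJ.1.2.2.1, hJ.2, hJ.1.2.2.2.2⟩
  have h3 : (powersetCard (m - k) (univ \ X)).card = m.choose k := by
    rw [Finset.card_powersetCard, Finset.card_sdiff_of_subset (Finset.subset_univ X),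
      Finset.card_univ, ← hm, Nat.choose_symm hk]
  rw [h3] at h1
  refine (h1.trans h2).trans ?_
  exact Nat.mul_le_mul_left _ (Finset.card_union_le _ _)

theorem main (hKEL : SpecKEL) (hINC : SpecINC) (hTOG : SpecTOG) (hCNT : SpecCNT) : SpecMAIN := by
  intro V _ G a b X ha hX hH hlt
  by_contra hno
  set m := Fintype.card V - X.card with hm
  set N := (emb G a a X).card + (emb G a b X).card with hN
  have h1 : 4 ^ m ≤ N * (m + 1) * 3 ^ m := by
    have h2 : (4 : ℕ) ^ m = ∑ k ∈ range (m + 1), 1 ^ k * 3 ^ (m - k) * m.choose k := by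
      have h := add_pow (1 : ℕ) 3 m
      simp only [Nat.cast_id] at h
      exact h
    rw [h2]
    have h3 : ∀ k ∈ range (m + 1), 1 ^ k * 3 ^ (m - k) * m.choose k ≤ N * 3 ^ m := by
      intro k hk
      rw [Finset.mem_range] at hk
      have hk' : k ≤ m := by omega
      have h4 := main_choose hKEL hINC hTOG hCNT ha hX hH hno k hk'
      calc 1 ^ k * 3 ^ (m - k) * m.choose k ≤ 1 ^ k * 3 ^ (m - k) * (3 ^ k * N) :=
            Nat.mul_le_mul_left _ h4
        _ = N * (3 ^ (m - k) * 3 ^ k) := by ring
        _ = N * 3 ^ m := by rw [← pow_add, Nat.sub_add_cancel hk']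
    refine (Finset.sum_le_card_nsmul _ _ _ h3).trans ?_
    rw [Finset.card_range, smul_eq_mul]
    exact le_of_eq (by ring)
  omega

end Pool.Agent.Lib.MP50ecf8.LOC
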