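import Pool.Agent.Lib.MP_50ecf8_co.LOC.Spec5
import Pool.Agent.Lib.MP_50ecf8_co.LOC.CRITO

/-!
# MAINT: the criterion up to automorphisms, with twins
-/

set_option autoImplicit false

open Finset
open scoped Classical

namespace Pool.Agent.Lib.MP50ecf8.LOC

namespace MAINTM

theorem reachT_sub {V : Type} {G : SimpleGraph V} {T X₀ X : Finset V} (h : ReachT G T X₀ X) :
    X₀ ⊆ X := by
  induction h with
  | base => exact Finset.Subset.refl _
  | step _ _ _ _ ih => exact ih.trans (Finset.subset_insert _ _)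

theorem image_filter_fst {V : Type} {X₀ : Finset V} {J : Finset (V × V)}
    (h : X₀ ⊆ J.image Prod.fst) : (J.filter fun u => u.1 ∈ X₀).image Prod.fst = X₀ := by
  ext x
  simp only [Finset.mem_image, Finset.mem_filter]
  constructor
  · rintro ⟨u, ⟨_, hu⟩, rfl⟩
    exact hu
  · intro hx
    obtain ⟨u, hu, rfl⟩ := Finset.mem_image.mp (h hx)
    exact ⟨u, ⟨hu, hx⟩, rfl⟩

end MAINTM

open MAINTM

theorem specMAINT (hKEL : SpecKEL) (hINC : SpecINC) (hTOG : SpecTOG) (hCNTT : SpecCNTT) :
    SpecMAINT := by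
  intro V _ G a b T₁ X₀ X k hTrv hCl ha₀ hR hX hH hno hk R hRep
  have hX₀X : X₀ ⊆ X := reachT_sub hR
  have ha : a ∈ X := hX₀X ha₀
  set m := (T₁ \ X).card with hm
  have hex : ∀ W : Finset V, W ∈ powersetCard (m - k) (T₁ \ X) →
      X ∪ (univ \ T₁) ∪ W ∈ R.biUnion fun g => FT G T₁ X k X₀ g := by
    intro W hW
    rw [mem_powersetCard] at hW
    obtain ⟨hWs, hWc⟩ := hW
    set S := X ∪ (univ \ T₁) ∪ W with hS
    have hXS : X ⊆ S := fun x hx => Finset.mem_union_left _ (Finset.mem_union_left _ hx)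
    have hTS : univ \ T₁ ⊆ S := fun x hx => Finset.mem_union_left _ (Finset.mem_union_right _ hx)
    have haS : a ∈ S := hXS ha
    have hcomp : univ \ S = (T₁ \ X) \ W := by
      ext v
      simp only [hS, Finset.mem_sdiff, Finset.mem_univ, true_and, Finset.mem_union, not_or, not_not]
      tauto
    have hSc : S.card + k = Fintype.card V := by
      have h1 : (univ \ S).card + S.card = (univ : Finset V).card :=
        Finset.card_sdiff_add_card_eq_card (Finset.subset_univ S)
      rw [hcomp, Finset.card_sdiff_of_subset hWs, hWc, Finset.card_univ] at h1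
      omega
    have hr : ∃ r, (r = a ∨ r = b) ∧ Pool.Agent.Lib.MP50ecf8.LOC.T G a r S ≠ 0 := by
      rcases hINC V G a b (hKEL V G a b hH) hno S with h | h
      · exact ⟨a, Or.inl rfl, h⟩
      · exact ⟨b, Or.inr rfl, h⟩
    obtain ⟨r, hr, hT⟩ := hr
    obtain ⟨J, hJ, har, hJS, hcl⟩ := hTOG V G a r S haS hT
    have hJc : J.card + k = Fintype.card V := by
      have h1 : (J.image Prod.fst).card = J.card := by
        apply Finset.card_image_of_injOn
        intro u hu w hw huw
        exact Prod.ext huw ((hJ u (by simpa using hu) w (by simpa using hw)).1.mp huw)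
      rw [← h1, hJS]
      exact hSc
    have hX₀J : X₀ ⊆ J.image Prod.fst := by
      rw [hJS]
      exact hX₀X.trans hXS
    obtain ⟨I₀, hI₀, φ, hφ⟩ := hRep (J.filter fun u => u.1 ∈ X₀)
      (fun u hu w hw => hJ u (Finset.mem_filter.mp hu).1 w (Finset.mem_filter.mp hw).1)
      (image_filter_fst hX₀J) (by
        rcases hr with rfl | rfl
        · exact Or.inl (Finset.mem_filter.mpr ⟨har, ha₀⟩)
        · exact Or.inr (Finset.mem_filter.mpr ⟨har, ha₀⟩))
    have hφ' : (J.filter fun u => u.1 ∈ X₀) = mv G φ I₀ := hφ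
    rw [Finset.mem_biUnion]
    refine ⟨I₀, hI₀, ?_⟩
    rw [FT, Finset.mem_image]
    refine ⟨mv G φ.symm J, ?_, by rw [fst_mv, hJS]⟩
    rw [AdT, Finset.mem_filter]
    refine ⟨Finset.mem_univ _, good_mv hJ, closed_mv hcl, ?_, ?_, ?_, ?_⟩
    · rw [filter_mv, hφ', mv_symm]
    · rw [fst_mv, hJS]
      exact hXS
    · rw [fst_mv, hJS]
      exact hTS
    · rw [card_mv]
      exact hJc
  have h1 : (powersetCard (m - k) (T₁ \ X)).card ≤
      (R.biUnion fun g => FT G T₁ X k X₀ g).card := by
    apply Finset.card_le_card_of_injOn (fun W => X ∪ (univ \ T₁) ∪ W)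
      (fun W hW => hex W (by simpa using hW))
    intro W hW W' hW' h
    have hW1 : W ∈ powersetCard (m - k) (T₁ \ X) := by simpa using hW
    have hW1' : W' ∈ powersetCard (m - k) (T₁ \ X) := by simpa using hW'
    have h' : X ∪ (univ \ T₁) ∪ W = X ∪ (univ \ T₁) ∪ W' := h
    have hd : ∀ Y : Finset V, Y ∈ powersetCard (m - k) (T₁ \ X) →
        (X ∪ (univ \ T₁) ∪ Y) ∩ (T₁ \ X) = Y := by
      intro Y hY
      have hYs := (mem_powersetCard.mp hY).1
      ext v
      simp only [Finset.mem_inter, Finset.mem_union, Finset.mem_sdiff, Finset.mem_univ, true_and]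
      constructor
      · rintro ⟨(h1 | h1) | h1, h2, h3⟩
        · exact absurd h1 h3
        · exact absurd h2 h1
        · exact h1
      · intro hv
        have := Finset.mem_sdiff.mp (hYs hv)
        exact ⟨Or.inr hv, this.1, this.2⟩
    rw [← hd W hW1, ← hd W' hW1', h']
  have h2 : (R.biUnion fun g => FT G T₁ X k X₀ g).card ≤ 4 ^ k * R.card := by
    refine Finset.card_biUnion_le.trans ?_
    have h3 : ∀ g ∈ R, (FT G T₁ X k X₀ g).card ≤ 4 ^ k := by
      intro g _
      by_cases hgX : g.image Prod.fst = X₀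
      · exact hCNTT V G T₁ X₀ X k hTrv hCl hR hX g hgX
      · have h0 : FT G T₁ X k X₀ g = ∅ := by
          rw [FT, Finset.image_eq_empty, AdT, Finset.filter_eq_empty_iff]
          rintro J _ ⟨_, _, hJg, hXJ, _, _⟩
          apply hgX
          rw [← hJg]
          exact image_filter_fst (hX₀X.trans hXJ)
        rw [h0, Finset.card_empty]
        exact Nat.zero_le _
    calc ∑ g ∈ R, (FT G T₁ X k X₀ g).card ≤ ∑ _g ∈ R, 4 ^ k := Finset.sum_le_sum h3
      _ = 4 ^ k * R.card := by rw [Finset.sum_const, smul_eq_mul, mul_comm]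
  have h3 : (powersetCard (m - k) (T₁ \ X)).card = m.choose k := by
    rw [Finset.card_powersetCard, ← hm, Nat.choose_symm hk]
  rw [h3] at h1
  exact h1.trans h2

end Pool.Agent.Lib.MP50ecf8.LOC
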