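import Pool.Agent.Lib.MP_50ecf8_co.LOC.Spec6
import Pool.Agent.Lib.MP_50ecf8_co.LOC.MAINT

/-!
# MAINU: the criterion up to automorphisms, with twins and a general bound
-/

set_option autoImplicit false

open Finset
open scoped Classical

namespace Pool.Agent.Lib.MP50ecf8.LOC

open MAINTM

theorem specMAINU (hKEL : SpecKEL) (hINC : SpecINC) (hTOG : SpecTOG) : SpecMAINU := by
  intro V _ G a b T₁ X₀ X k M hTrv ha₀ hX₀X hH hno hk hM hCNT R hRep
  have ha : a ∈ X := hX₀X ha₀
  set m := (T₁ \ X).card with hm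
  have hex : ∀ W : Finset V, W ∈ powersetCard (m - k) (T₁ \ X) →
      X ∪ (univ \ T₁) ∪ W ∈ R.biUnion fun g => FT G T₁ X k X₀ g := by
    intro W hW
    rw [mem_powersetCard] at hW
    obtain ⟨hWs, hWc⟩ := hW
    set S := X ∪ (univ \ T₁) ∪ W with hS
    have hXS : X ⊆ S := fun x hx => Finset.mem_union_left _ (Finset.mem_union_left _ hx)
    have hTS : univ \ T₁ ⊆ S := fun x hx => Finset.mem_union_left _ (Finset.mem_union_right _ hx)
    have haS : a ∈ S := hXS ha
    have hcomp : univ \ S = (T₁ \ X) \ W := by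
      ext v
      simp only [hS, Finset.mem_sdiff, Finset.mem_univ, true_and, Finset.mem_union, not_or, not_not]
      tauto
    have hSc : S.card + k = Fintype.card V := by
      have h1 : (univ \ S).card + S.card = (univ : Finset V).card :=
        Finset.card_sdiff_add_card_eq_card (Finset.subset_univ S)
      rw [hcomp, Finset.card_sdiff_of_subset hWs, hWc, Finset.card_univ] at h1
      omega
    have hr : ∃ r, (r = a ∨ r = b) ∧ Pool.Agent.Lib.MP50ecf8.LOC.T G a r S ≠ 0 := by
      rcases hINC V G a b (hKEL V G a b hH) hno S with h | h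
      · exact ⟨a, Or.inl rfl, h⟩
      · exact ⟨b, Or.inr rfl, h⟩
    obtain ⟨r, hr, hT⟩ := hr
    obtain ⟨J, hJ, har, hJS, hcl⟩ := hTOG V G a r S haS hT
    have hJc : J.card + k = Fintype.card V := by
      have h1 : (J.image Prod.fst).card = J.card := by
        apply Finset.card_image_of_injOn
        intro u hu w hw huw
        exact Prod.ext huw ((hJ u (by simpa using hu) w (by simpa using hw)).1.mp huw)
      rw [← h1, hJS]
      exact hSc
    have hX₀J : X₀ ⊆ J.image Prod.fst := by
      rw [hJS]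
      exact hX₀X.trans hXS
    obtain ⟨I₀, hI₀, φ, hφ⟩ := hRep (J.filter fun u => u.1 ∈ X₀)
      (fun u hu w hw => hJ u (Finset.mem_filter.mp hu).1 w (Finset.mem_filter.mp hw).1)
      (image_filter_fst hX₀J) (by
        rcases hr with rfl | rfl
        · exact Or.inl (Finset.mem_filter.mpr ⟨har, ha₀⟩)
        · exact Or.inr (Finset.mem_filter.mpr ⟨har, ha₀⟩))
    have hφ' : (J.filter fun u => u.1 ∈ X₀) = mv G φ I₀ := hφ
    rw [Finset.mem_biUnion]
    refine ⟨I₀, hI₀, ?_⟩
    rw [FT, Finset.mem_image]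
    refine ⟨mv G φ.symm J, ?_, by rw [fst_mv, hJS]⟩
    rw [AdT, Finset.mem_filter]
    refine ⟨Finset.mem_univ _, good_mv hJ, closed_mv hcl, ?_, ?_, ?_, ?_⟩
    · rw [filter_mv, hφ', mv_symm]
    · rw [fst_mv, hJS]
      exact hXS
    · rw [fst_mv, hJS]
      exact hTS
    · rw [card_mv]
      exact hJc
  have h1 : (powersetCard (m - k) (T₁ \ X)).card ≤
      (R.biUnion fun g => FT G T₁ X k X₀ g).card := by
    apply Finset.card_le_card_of_injOn (fun W => X ∪ (univ \ T₁) ∪ W)
      (fun W hW => hex W (by simpa using hW))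
    intro W hW W' hW' h
    have hW1 : W ∈ powersetCard (m - k) (T₁ \ X) := by simpa using hW
    have hW1' : W' ∈ powersetCard (m - k) (T₁ \ X) := by simpa using hW'
    have h' : X ∪ (univ \ T₁) ∪ W = X ∪ (univ \ T₁) ∪ W' := h
    have hd : ∀ Y : Finset V, Y ∈ powersetCard (m - k) (T₁ \ X) →
        (X ∪ (univ \ T₁) ∪ Y) ∩ (T₁ \ X) = Y := by
      intro Y hY
      have hYs := (mem_powersetCard.mp hY).1
      ext v
      simp only [Finset.mem_inter, Finset.mem_union, Finset.mem_sdiff, Finset.mem_univ, true_and]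
      constructor
      · rintro ⟨(h1 | h1) | h1, h2, h3⟩
        · exact absurd h1 h3
        · exact absurd h2 h1
        · exact h1
      · intro hv
        have := Finset.mem_sdiff.mp (hYs hv)
        exact ⟨Or.inr hv, this.1, this.2⟩
    rw [← hd W hW1, ← hd W' hW1', h']
  have h2 : ((R.biUnion fun g => FT G T₁ X k X₀ g).card : ℝ) ≤ M * R.card := by
    have h2a : ((R.biUnion fun g => FT G T₁ X k X₀ g).card : ℝ) ≤
        ((∑ g ∈ R, (FT G T₁ X k X₀ g).card : ℕ) : ℝ) := by
      exact_mod_cast Finset.card_biUnion_le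
    refine h2a.trans ?_
    have h3 : ∀ g ∈ R, ((FT G T₁ X k X₀ g).card : ℝ) ≤ M := by
      intro g _
      by_cases hgX : g.image Prod.fst = X₀
      · exact hCNT g hgX
      · have h0 : FT G T₁ X k X₀ g = ∅ := by
          rw [FT, Finset.image_eq_empty, AdT, Finset.filter_eq_empty_iff]
          rintro J _ ⟨_, _, hJg, hXJ, _, _⟩
          apply hgX
          rw [← hJg]
          exact image_filter_fst (hX₀X.trans hXJ)
        rw [h0, Finset.card_empty]
        exact_mod_cast hM
    rw [Nat.cast_sum]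
    calc ∑ g ∈ R, ((FT G T₁ X k X₀ g).card : ℝ) ≤ ∑ _g ∈ R, M := Finset.sum_le_sum h3
      _ = M * R.card := by rw [Finset.sum_const, nsmul_eq_mul, mul_comm]
  have h3 : (powersetCard (m - k) (T₁ \ X)).card = m.choose k := by
    rw [Finset.card_powersetCard, ← hm, Nat.choose_symm hk]
  rw [h3] at h1
  have h4 : (m.choose k : ℝ) ≤ ((R.biUnion fun g => FT G T₁ X k X₀ g).card : ℝ) := by
    exact_mod_cast h1
  exact h4.trans h2

end Pool.Agent.Lib.MP50ecf8.LOC
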