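import Pool.Agent.Lib.MP_50ecf8_co.LOC.Spec

set_option autoImplicit false

open Finset
open scoped Classical

namespace Pool.Agent.Lib.MP50ecf8.LOC

namespace NBDM

variable {V : Type} [Fintype V] (G : SimpleGraph V)

theorem eq_of_fst {I : Finset (V × V)} (hI : Good G I) {u w : V × V} (hu : u ∈ I) (hw : w ∈ I)
    (h : u.1 = w.1) : u = w :=
  Prod.ext h ((hI u hu w hw).1.1 h)

theorem base (a r : V) : (emb G a r {a}).card ≤ 1 := by
  rw [Finset.card_le_one]
  have key : ∀ I ∈ emb G a r {a}, I = {(a, r)} := by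
    intro I hI
    rw [emb, mem_filter] at hI
    obtain ⟨-, hg, har, him⟩ := hI
    ext u
    rw [mem_singleton]
    constructor
    · intro hu
      have h1 : u.1 ∈ I.image Prod.fst := mem_image_of_mem _ hu
      rw [him, mem_singleton] at h1
      exact eq_of_fst G hg hu har h1
    · rintro rfl
      exact har
  intro I hI J hJ
  rw [key I hI, key J hJ]

theorem step {D : ℕ} (hD : ∀ v, deg G v ≤ D) {a r x y : V} {Y : Finset V} (haY : a ∈ Y)
    (hy : y ∈ Y) (hx : x ∉ Y) (hadj : G.Adj y x) :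
    (emb G a r (insert x Y)).card ≤ D * (emb G a r Y).card := by
  refine Finset.card_le_mul_card_image_of_maps_to (f := fun I => I.filter fun u => u.1 ∈ Y)
    ?_ D ?_
  · intro I hI
    rw [emb, mem_filter] at hI ⊢
    obtain ⟨-, hg, har, him⟩ := hI
    refine ⟨mem_univ _, fun u hu w hw => hg u (mem_of_mem_filter _ hu) w (mem_of_mem_filter _ hw),
      mem_filter.2 ⟨har, haY⟩, ?_⟩
    ext v
    rw [mem_image]
    constructor
    · rintro ⟨u, hu, rfl⟩
      exact (mem_filter.1 hu).2
    · intro hv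
      have h1 : v ∈ I.image Prod.fst := by
        rw [him]
        exact mem_insert_of_mem hv
      obtain ⟨u, hu, rfl⟩ := mem_image.1 h1
      exact ⟨u, mem_filter.2 ⟨hu, hv⟩, rfl⟩
  · intro J hJ
    rw [emb, mem_filter] at hJ
    obtain ⟨-, hgJ, -, himJ⟩ := hJ
    have h1 : y ∈ J.image Prod.fst := by
      rw [himJ]
      exact hy
    obtain ⟨⟨y₀, y'⟩, hyJ, hy0⟩ := mem_image.1 h1
    have hy0' : y₀ = y := hy0
    subst hy0'
    have hsub : (filter (fun I : Finset (V × V) => (I.filter fun u => u.1 ∈ Y) = J)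
        (emb G a r (insert x Y))) ⊆
        (univ.filter fun w => G.Adj y' w).image (fun z => insert (x, z) J) := by
      intro I hI
      rw [mem_filter, emb, mem_filter] at hI
      obtain ⟨⟨-, hg, har, him⟩, hIJ⟩ := hI
      have h2 : x ∈ I.image Prod.fst := by
        rw [him]
        exact mem_insert_self _ _
      obtain ⟨⟨x₀, z⟩, hxI, hx0⟩ := mem_image.1 h2
      have hx0' : x₀ = x := hx0
      subst hx0'
      have hyI : (y₀, y') ∈ I := by
        rw [← hIJ] at hyJ
        exact mem_of_mem_filter _ hyJ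
      rw [mem_image]
      refine ⟨z, ?_, ?_⟩
      · rw [mem_filter]
        exact ⟨mem_univ _, ((hg _ hyI _ hxI).2.1 hadj)⟩
      · ext u
        rw [mem_insert, ← hIJ, mem_filter]
        constructor
        · rintro (rfl | h3)
          · exact hxI
          · exact h3.1
        · intro hu
          have h3 : u.1 ∈ I.image Prod.fst := mem_image_of_mem _ hu
          rw [him, mem_insert] at h3
          rcases h3 with h3 | h3
          · left
            exact eq_of_fst G hg hu hxI h3
          · exact Or.inr ⟨hu, h3⟩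
    exact (card_le_card hsub).trans (card_image_le.trans (hD y'))

theorem exists_edge {X Y : Finset V} (hc : (G.induce (X : Set V)).Connected) {a : V}
    (ha : a ∈ Y) (hYX : Y ⊆ X) (hne : Y ≠ X) : ∃ y ∈ Y, ∃ x ∈ X, x ∉ Y ∧ G.Adj y x := by
  obtain ⟨b, hbX, hbY⟩ : ∃ b ∈ X, b ∉ Y := by
    by_contra hcon
    push Not at hcon
    exact hne (Subset.antisymm hYX hcon)
  obtain ⟨p⟩ := hc.preconnected ⟨a, Finset.mem_coe.2 (hYX ha)⟩ ⟨b, Finset.mem_coe.2 hbX⟩
  obtain ⟨d, -, hd1, hd2⟩ := p.exists_boundary_dart {v | v.1 ∈ Y} ha hbY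
  exact ⟨d.fst.1, hd1, d.snd.1, Finset.mem_coe.1 d.snd.2, hd2, d.adj⟩

end NBDM

open NBDM in
theorem specNBD : SpecNBD := by
  intro V _ G D a r X ha hc hD
  have key : ∀ n, n + 1 ≤ X.card → ∃ Y ⊆ X, a ∈ Y ∧ Y.card = n + 1 ∧
      (emb G a r Y).card ≤ D ^ n := by
    intro n
    induction n with
    | zero =>
      intro _
      exact ⟨{a}, singleton_subset_iff.2 ha, mem_singleton_self a, card_singleton a,
        by rw [pow_zero]; exact base G a r⟩
    | succ n ih =>
      intro hn
      obtain ⟨Y, hYX, haY, hYc, hYe⟩ := ih (by omega)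
      have hne : Y ≠ X := by
        rintro rfl
        omega
      obtain ⟨y, hy, x, hxX, hxY, hadj⟩ := exists_edge G hc haY hYX hne
      refine ⟨insert x Y, insert_subset hxX hYX, mem_insert_of_mem haY, ?_, ?_⟩
      · rw [card_insert_of_notMem hxY, hYc]
      · calc (emb G a r (insert x Y)).card ≤ D * (emb G a r Y).card := step G hD haY hy hxY hadj
          _ ≤ D * D ^ n := Nat.mul_le_mul_left _ hYe
          _ = D ^ (n + 1) := by rw [pow_succ, mul_comm]
  have hpos : 0 < X.card := card_pos.2 ⟨a, ha⟩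
  obtain ⟨Y, hYX, -, hYc, hYe⟩ := key (X.card - 1) (by omega)
  have hYX' : Y = X := eq_of_subset_of_card_le hYX (by omega)
  rwa [hYX'] at hYe

end Pool.Agent.Lib.MP50ecf8.LOC
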