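import Pool.Agent.Lib.MP_50ecf8_co.LOC.Spec7

/-!
# NETX
-/

set_option autoImplicit false

open Finset
open scoped Classical

namespace Pool.Agent.Lib.MP50ecf8.LOC

theorem specNETX : SpecNETX := by
  intro V _ G t ht
  let S : Finset (Finset V) := univ.filter fun N => (∀ v ∈ N, t / 2 ≤ (deg G v : ℝ)) ∧
    ∀ v ∈ N, ∀ w ∈ N, v ≠ w → ∀ z, ¬ (G.Adj v z ∧ G.Adj w z)
  have hS : S.Nonempty := ⟨∅, by simp [S]⟩
  obtain ⟨N, hN, hmax⟩ := S.exists_max_image Finset.card hS
  have hN' := (mem_filter.1 hN).2
  refine ⟨N, ?_, ?_⟩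
  · have hdisj : Set.PairwiseDisjoint (N : Set V)
        (fun v => univ.filter fun z => G.Adj v z) := by
      intro v hv w hw hvw
      rw [Function.onFun, Finset.disjoint_left]
      intro z hz hz'
      exact hN'.2 v hv w hw hvw z ⟨(mem_filter.1 hz).2, (mem_filter.1 hz').2⟩
    have h1 : (N.biUnion fun v => univ.filter fun z => G.Adj v z).card ≤ Fintype.card V :=
      Finset.card_le_univ _
    rw [Finset.card_biUnion hdisj] at h1
    have h2 : ∑ v ∈ N, t / 2 ≤ ∑ v ∈ N, (((univ.filter fun z => G.Adj v z).card : ℕ) : ℝ) :=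
      Finset.sum_le_sum fun v hv => hN'.1 v hv
    rw [Finset.sum_const, nsmul_eq_mul, ← Nat.cast_sum] at h2
    exact h2.trans (by exact_mod_cast h1)
  · intro v hv
    by_contra hcon
    push Not at hcon
    obtain ⟨hvN, h1, h2⟩ := hcon
    have hins : insert v N ∈ S := by
      refine mem_filter.2 ⟨mem_univ _, ?_, ?_⟩
      · intro w hw
        rcases mem_insert.1 hw with rfl | hw
        · exact hv
        · exact hN'.1 w hw
      · intro x hx y hy hxy z hz
        rcases mem_insert.1 hx with hx | hx <;> rcases mem_insert.1 hy with hy | hy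
        · exact hxy (hx.trans hy.symm)
        · rw [hx] at hz
          exact h2 y hy z hz.1 hz.2.symm
        · rw [hy] at hz
          exact h2 x hx z hz.2 hz.1.symm
        · exact hN'.2 x hx y hy hxy z hz
    have h3 := hmax _ hins
    rw [card_insert_of_notMem hvN] at h3
    omega

end Pool.Agent.Lib.MP50ecf8.LOC

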