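import Pool.Agent.Lib.MP_50ecf8_co.LOC.Spec3
import Pool.Agent.Lib.MP_50ecf8_co.LOC.NUDB

/-!
# Module NUD2 (MP_50ecf8_co): numerical part (helper26, after NUDB)
-/

set_option autoImplicit false

open Finset
open scoped Classical

namespace Pool.Agent.Lib.MP50ecf8.LOC

namespace NUD2M

theorem core (q x m : ℕ) (hq : 2 ≤ q) (hx1 : 1 ≤ x)
    (h : 1 + Real.logb 2 q * ((x : ℝ) - 1) + Real.logb 2 ((m : ℝ) + 1) < 2 / 5 * (m : ℝ)) :
    2 * q ^ (x - 1) * (m + 1) * 3 ^ m < 4 ^ m := by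
  have hl2 : 0 < Real.log 2 := Real.log_pos (by norm_num)
  have hq0 : (0 : ℝ) < q := by exact_mod_cast (by omega : 0 < q)
  have hx' : ((x - 1 : ℕ) : ℝ) = (x : ℝ) - 1 := by rw [Nat.cast_sub hx1]; norm_num
  have h1 : Real.log 2 + ((x : ℝ) - 1) * Real.log q + Real.log ((m : ℝ) + 1) <
      2 / 5 * Real.log 2 * (m : ℝ) := by
    have h2 := mul_lt_mul_of_pos_right h hl2
    unfold Real.logb at h2
    have e1 : (1 + Real.log q / Real.log 2 * ((x : ℝ) - 1) +
        Real.log ((m : ℝ) + 1) / Real.log 2) * Real.log 2 =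
        Real.log 2 + ((x : ℝ) - 1) * Real.log q + Real.log ((m : ℝ) + 1) := by
      field_simp
    rw [e1] at h2
    linarith
  have hA : 2 * (q : ℝ) ^ (x - 1) * ((m : ℝ) + 1) < (4 / 3 : ℝ) ^ m := by
    by_contra hcon
    rw [not_lt] at hcon
    have h2 := Real.log_le_log (by positivity) hcon
    rw [Real.log_pow, Real.log_mul (by positivity) (by positivity),
      Real.log_mul (by norm_num) (by positivity), Real.log_pow, hx'] at h2
    have h4 : 2 / 5 * Real.log 2 * (m : ℝ) ≤ (m : ℝ) * Real.log (4 / 3) := by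
      calc 2 / 5 * Real.log 2 * (m : ℝ) = (m : ℝ) * (2 / 5 * Real.log 2) := by ring
        _ ≤ _ := mul_le_mul_of_nonneg_left NUDBM.log43 (Nat.cast_nonneg _)
    linarith
  have h2 : ((2 * q ^ (x - 1) * (m + 1) * 3 ^ m : ℕ) : ℝ) < ((4 ^ m : ℕ) : ℝ) := by
    push_cast
    have h3 : (4 : ℝ) ^ m = (4 / 3 : ℝ) ^ m * 3 ^ m := by
      rw [← mul_pow]; norm_num
    rw [h3]
    exact mul_lt_mul_of_pos_right hA (by positivity)
  exact_mod_cast h2

/-- `L ≥ 12` -/
theorem twelve_le (D : ℕ) (hD : 2 ≤ D) (h : 50 * Real.logb 2 D ^ 2 ≤ (D : ℝ)) :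
    12 ≤ Real.logb 2 D := by
  have hD0 : (0 : ℝ) < D := by exact_mod_cast (by omega : 0 < D)
  set L := Real.logb 2 D with hL
  have hDL : (D : ℝ) = (2 : ℝ) ^ L := by
    rw [hL, Real.rpow_logb (by norm_num) (by norm_num) hD0]
  have h1 : 1 ≤ L := by
    rw [hL, Real.le_logb_iff_rpow_le (by norm_num) hD0]
    norm_num
    exact_mod_cast hD
  rw [hDL] at h
  have step : ∀ k : ℕ, (2 : ℝ) ^ (k + 1) < 50 * (k : ℝ) ^ 2 → (k : ℝ) ≤ L →
      ((k + 1 : ℕ) : ℝ) ≤ L := by
    intro k hk hkL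
    by_contra hcon
    rw [not_le] at hcon
    have h2 : (2 : ℝ) ^ L ≤ (2 : ℝ) ^ ((k + 1 : ℕ) : ℝ) :=
      Real.rpow_le_rpow_of_exponent_le (by norm_num) hcon.le
    rw [Real.rpow_natCast] at h2
    have h3 : (k : ℝ) ^ 2 ≤ L ^ 2 := pow_le_pow_left₀ (Nat.cast_nonneg _) hkL 2
    linarith
  have h2 := step 1 (by norm_num) (by simpa using h1)
  have h3 := step 2 (by norm_num) (by simpa using h2)
  have h4 := step 3 (by norm_num) (by simpa using h3)
  have h5 := step 4 (by norm_num) (by simpa using h4)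
  have h6 := step 5 (by norm_num) (by simpa using h5)
  have h7 := step 6 (by norm_num) (by simpa using h6)
  have h8 := step 7 (by norm_num) (by simpa using h7)
  have h9 := step 8 (by norm_num) (by simpa using h8)
  have h10 := step 9 (by norm_num) (by simpa using h9)
  have h11 := step 10 (by norm_num) (by simpa using h10)
  have h12 := step 11 (by norm_num) (by simpa using h11)
  simpa using h12

theorem logp (p : ℕ) (hp : 0 < p) : Real.logb 2 p ≤ (p : ℝ) / 700 + 9 := by
  have hp0 : (0 : ℝ) < p := by exact_mod_cast hp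
  have hl2 : (0.6931471803 : ℝ) < Real.log 2 := Real.log_two_gt_d9
  have hl3 : Real.log 2 < 0.6931471808 := Real.log_two_lt_d9
  have h1 := Real.log_le_sub_one_of_pos (show (0 : ℝ) < (p : ℝ) / 1024 by positivity)
  rw [Real.log_div (by positivity) (by norm_num), show (1024 : ℝ) = 2 ^ 10 by norm_num,
    Real.log_pow] at h1
  push_cast at h1
  unfold Real.logb
  rw [div_le_iff₀ (by linarith)]
  nlinarith [mul_pos hp0 (by linarith : (0 : ℝ) < Real.log 2 - 0.6931471803)]

end NUD2M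

open NUD2M in
theorem specNUD2 : SpecNUD2 := by
  intro p D x m hD h50 h100 hx1 hxp hx hmp hpm
  have hL := twelve_le D hD h50
  set L := Real.logb 2 D with hLdef
  have hp : 0 < p := by omega
  have hp0 : (0 : ℝ) < p := by exact_mod_cast hp
  have hlp := logp p hp
  apply core D x m hD hx1
  rw [← hLdef]
  have hL0 : 0 < L := by linarith
  have hp1 : 1200 * L ≤ (p : ℝ) := by nlinarith
  have hp2 : (14400 : ℝ) ≤ p := by linarith
  set v : ℝ := 17 * (p : ℝ) / (90 * L) with hv
  have hv1 : L * v = 17 / 90 * p := by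
    rw [hv]; field_simp
  have h1 : L * ((x : ℝ) - 1) ≤ 17 / 90 * (p : ℝ) + 5 * L := by
    calc L * ((x : ℝ) - 1) ≤ L * (v + 5) := by
          apply mul_le_mul_of_nonneg_left _ hL0.le
          linarith
      _ = 17 / 90 * (p : ℝ) + 5 * L := by rw [mul_add, hv1]; ring
  have h2 : v ≤ 17 * (p : ℝ) / 1080 := by
    rw [hv]
    apply div_le_div_of_nonneg_left (by positivity) (by norm_num)
    linarith
  have hpm' : (p : ℝ) ≤ 2 * m + x := by exact_mod_cast hpm
  have h3 : Real.logb 2 ((m : ℝ) + 1) ≤ 1 + Real.logb 2 p := by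
    have h4 : Real.logb 2 ((m : ℝ) + 1) ≤ Real.logb 2 (2 * (p : ℝ)) := by
      refine Real.logb_le_logb_of_le (by norm_num) (by positivity) ?_
      have h5 : (m : ℝ) ≤ p := by exact_mod_cast hmp
      linarith
    rw [Real.logb_mul (by norm_num) (by positivity), Real.logb_self_eq_one (by norm_num)] at h4
    exact h4
  linarith

end Pool.Agent.Lib.MP50ecf8.LOC
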