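import Pool.Agent.Lib.MP_50ecf8_co.LOC.Spec5
import Pool.Agent.Lib.MP_50ecf8_co.LOC.NUD2

/-!
# Module NFT (MP_50ecf8_co): numerical part (helper84, after NUD2 and NFIN)
-/

set_option autoImplicit false

open Finset
open scoped Classical

namespace Pool.Agent.Lib.MP50ecf8.LOC

namespace NFTM

theorem log54 : 8 / 25 * Real.log 2 ≤ Real.log (5 / 4) := by
  have h := Real.log_le_log (by positivity) (show (2 : ℝ) ^ 8 ≤ (5 / 4 : ℝ) ^ 25 by norm_num)
  rw [Real.log_pow, Real.log_pow] at h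
  push_cast at h
  linarith

theorem core (q x m : ℕ) (hq : 2 ≤ q) (hx1 : 1 ≤ x)
    (h : 1 + Real.logb 2 q * ((x : ℝ) - 1) + Real.logb 2 ((m : ℝ) + 1) < 8 / 25 * (m : ℝ)) :
    2 * (q : ℝ) ^ (x - 1) * (m + 1) * 4 ^ m < 5 ^ m := by
  have hl2 : 0 < Real.log 2 := Real.log_pos (by norm_num)
  have hq0 : (0 : ℝ) < q := by exact_mod_cast (by omega : 0 < q)
  have hx' : ((x - 1 : ℕ) : ℝ) = (x : ℝ) - 1 := by rw [Nat.cast_sub hx1]; norm_num
  have h1 : Real.log 2 + ((x : ℝ) - 1) * Real.log q + Real.log ((m : ℝ) + 1) <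
      8 / 25 * Real.log 2 * (m : ℝ) := by
    have h2 := mul_lt_mul_of_pos_right h hl2
    unfold Real.logb at h2
    have e1 : (1 + Real.log q / Real.log 2 * ((x : ℝ) - 1) +
        Real.log ((m : ℝ) + 1) / Real.log 2) * Real.log 2 =
        Real.log 2 + ((x : ℝ) - 1) * Real.log q + Real.log ((m : ℝ) + 1) := by
      field_simp
    rw [e1] at h2
    linarith
  have hA : 2 * (q : ℝ) ^ (x - 1) * ((m : ℝ) + 1) < (5 / 4 : ℝ) ^ m := by
    by_contra hcon
    rw [not_lt] at hcon
    have h2 := Real.log_le_log (by positivity) hcon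
    rw [Real.log_pow, Real.log_mul (by positivity) (by positivity),
      Real.log_mul (by norm_num) (by positivity), Real.log_pow, hx'] at h2
    have h4 : 8 / 25 * Real.log 2 * (m : ℝ) ≤ (m : ℝ) * Real.log (5 / 4) := by
      calc 8 / 25 * Real.log 2 * (m : ℝ) = (m : ℝ) * (8 / 25 * Real.log 2) := by ring
        _ ≤ _ := mul_le_mul_of_nonneg_left log54 (Nat.cast_nonneg _)
    linarith
  have h3 : (5 : ℝ) ^ m = (5 / 4 : ℝ) ^ m * 4 ^ m := by
    rw [← mul_pow]; norm_num
  rw [h3]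
  exact mul_lt_mul_of_pos_right hA (by positivity)

end NFTM

open NFTM in
theorem specNFT : SpecNFT := by
  intro p D x m hD h100 h200 hx1 hx hmp hpm
  have hL := NUD2M.twelve_le D hD (by nlinarith [sq_nonneg (Real.logb 2 D)])
  set L := Real.logb 2 D with hLdef
  have hL0 : 0 < L := by linarith
  have hp1 : 2400 * L ≤ (p : ℝ) := by nlinarith
  have hp2 : (28800 : ℝ) ≤ p := by linarith
  have hp0 : (0 : ℝ) < p := by linarith
  have hp : 0 < p := by exact_mod_cast hp0
  have hlp := NUD2M.logp p hp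
  apply core D x m hD hx1
  rw [← hLdef]
  set v : ℝ := 7 * (p : ℝ) / (60 * L) with hv
  have hv1 : L * v = 7 / 60 * p := by
    rw [hv]; field_simp
  have h1 : L * ((x : ℝ) - 1) ≤ 7 / 60 * (p : ℝ) + 5 * L := by
    calc L * ((x : ℝ) - 1) ≤ L * (v + 5) := by
          apply mul_le_mul_of_nonneg_left _ hL0.le
          linarith
      _ = 7 / 60 * (p : ℝ) + 5 * L := by rw [mul_add, hv1]; ring
  have h2 : v ≤ 7 * (p : ℝ) / 720 := by
    rw [hv]
    apply div_le_div_of_nonneg_left (by positivity) (by norm_num)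
    linarith
  have hpm' : (p : ℝ) ≤ 2 * m + 2 * x := by exact_mod_cast hpm
  have h3 : Real.logb 2 ((m : ℝ) + 1) ≤ 1 + Real.logb 2 p := by
    have h4 : Real.logb 2 ((m : ℝ) + 1) ≤ Real.logb 2 (2 * (p : ℝ)) := by
      refine Real.logb_le_logb_of_le (by norm_num) (by positivity) ?_
      have h5 : (m : ℝ) ≤ p := by exact_mod_cast hmp
      linarith
    rw [Real.logb_mul (by norm_num) (by positivity), Real.logb_self_eq_one (by norm_num)] at h4
    exact h4
  linarith

end Pool.Agent.Lib.MP50ecf8.LOC
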