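import Pool.Agent.Lib.MP_50ecf8_co.LOC.Spec4
import Pool.Agent.Lib.MP_50ecf8_co.LOC.NUD2

/-!
# Module NFIN (MP_50ecf8_co): numerical part (helper25, after NUD2)
-/

set_option autoImplicit false

open Finset
open scoped Classical

namespace Pool.Agent.Lib.MP50ecf8.LOC

namespace NFINM

theorem core (q x m : ℕ) (s : ℝ) (hq : 2 ≤ q) (hx1 : 1 ≤ x)
    (h : 1 + Real.logb 2 q * ((x : ℝ) - 1) + s + Real.logb 2 ((m : ℝ) + 1) < 2 / 5 * (m : ℝ)) :
    2 * (q : ℝ) ^ (x - 1) * (2 : ℝ) ^ s * (m + 1) * 3 ^ m < 4 ^ m := by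
  have hl2 : 0 < Real.log 2 := Real.log_pos (by norm_num)
  have hq0 : (0 : ℝ) < q := by exact_mod_cast (by omega : 0 < q)
  have hx' : ((x - 1 : ℕ) : ℝ) = (x : ℝ) - 1 := by rw [Nat.cast_sub hx1]; norm_num
  have h2s : (0 : ℝ) < (2 : ℝ) ^ s := Real.rpow_pos_of_pos (by norm_num) s
  have h1 : Real.log 2 + ((x : ℝ) - 1) * Real.log q + s * Real.log 2 + Real.log ((m : ℝ) + 1) <
      2 / 5 * Real.log 2 * (m : ℝ) := by
    have h2 := mul_lt_mul_of_pos_right h hl2
    unfold Real.logb at h2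
    have e1 : (1 + Real.log q / Real.log 2 * ((x : ℝ) - 1) + s +
        Real.log ((m : ℝ) + 1) / Real.log 2) * Real.log 2 =
        Real.log 2 + ((x : ℝ) - 1) * Real.log q + s * Real.log 2 + Real.log ((m : ℝ) + 1) := by
      field_simp
    rw [e1] at h2
    linarith
  have hA : 2 * (q : ℝ) ^ (x - 1) * (2 : ℝ) ^ s * ((m : ℝ) + 1) < (4 / 3 : ℝ) ^ m := by
    by_contra hcon
    rw [not_lt] at hcon
    have h2 := Real.log_le_log (by positivity) hcon
    rw [Real.log_pow, Real.log_mul (by positivity) (by positivity),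
      Real.log_mul (by positivity) (by positivity),
      Real.log_mul (by norm_num) (by positivity), Real.log_pow, hx',
      Real.log_rpow (by norm_num)] at h2
    have h4 : 2 / 5 * Real.log 2 * (m : ℝ) ≤ (m : ℝ) * Real.log (4 / 3) := by
      calc 2 / 5 * Real.log 2 * (m : ℝ) = (m : ℝ) * (2 / 5 * Real.log 2) := by ring
        _ ≤ _ := mul_le_mul_of_nonneg_left NUDBM.log43 (Nat.cast_nonneg _)
    linarith
  have h3 : (4 : ℝ) ^ m = (4 / 3 : ℝ) ^ m * 3 ^ m := by
    rw [← mul_pow]; norm_num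
  rw [h3]
  exact mul_lt_mul_of_pos_right hA (by positivity)

end NFINM

open NFINM in
theorem specNFIN : SpecNFIN := by
  intro p D x y m hD h100 h200 hx1 hx hy hmp hpm
  have hL := NUD2M.twelve_le D hD (by nlinarith [sq_nonneg (Real.logb 2 D)])
  set L := Real.logb 2 D with hLdef
  have hp200 : 28800 ≤ (p : ℝ) := by nlinarith
  have hp0 : (0 : ℝ) < p := by linarith
  have hp : 0 < p := by exact_mod_cast hp0
  have hlp := NUD2M.logp p hp
  refine core D x m _ hD hx1 ?_
  rw [← hLdef]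
  have hL0 : 0 < L := by linarith
  set v : ℝ := 59 * (p : ℝ) / (480 * L) with hv
  have hv1 : L * v = 59 / 480 * p := by
    rw [hv]; field_simp
  have h1 : L * ((x : ℝ) - 1) ≤ 59 / 480 * (p : ℝ) := by
    calc L * ((x : ℝ) - 1) ≤ L * v := by
          apply mul_le_mul_of_nonneg_left _ hL0.le
          linarith
      _ = 59 / 480 * (p : ℝ) := hv1
  have h2 : v ≤ 59 * (p : ℝ) / 5760 := by
    rw [hv]
    apply div_le_div_of_nonneg_left (by positivity) (by norm_num)
    linarith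
  have hpm' : (p : ℝ) ≤ 2 * m + y := by exact_mod_cast hpm
  have h3 : Real.logb 2 ((m : ℝ) + 1) ≤ 1 + Real.logb 2 p := by
    have h4 : Real.logb 2 ((m : ℝ) + 1) ≤ Real.logb 2 (2 * (p : ℝ)) := by
      refine Real.logb_le_logb_of_le (by norm_num) (by positivity) ?_
      have h5 : (m : ℝ) ≤ p := by exact_mod_cast hmp
      linarith
    rw [Real.logb_mul (by norm_num) (by positivity), Real.logb_self_eq_one (by norm_num)] at h4
    exact h4
  linarith

end Pool.Agent.Lib.MP50ecf8.LOC
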