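import Pool.Agent.Lib.MP_50ecf8_co.LOC.Spec4

/-!
# Module NLOW
-/

set_option autoImplicit false

namespace Pool.Agent.Lib.MP50ecf8.LOC

namespace NLOWM

theorem interp {a b x : ℝ} (ha : 0 < a) (hab : a < b) (h1 : a ≤ x) (h2 : x ≤ b) :
    (b - x) * Real.log a + (x - a) * Real.log b ≤ (b - a) * Real.log x := by
  have hba : 0 < b - a := by linarith
  have h := (strictConcaveOn_log_Ioi.concaveOn).2 (Set.mem_Ioi.2 ha) (Set.mem_Ioi.2 (ha.trans hab))
    (div_nonneg (sub_nonneg.2 h2) hba.le) (div_nonneg (sub_nonneg.2 h1) hba.le)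
    (by rw [← add_div, div_eq_one_iff_eq hba.ne']; ring)
  have e : (b - x) / (b - a) * a + (x - a) / (b - a) * b = x := by
    field_simp
    ring
  simp only [smul_eq_mul] at h
  rw [e] at h
  have h3 := mul_le_mul_of_nonneg_left h hba.le
  have e2 : (b - a) * ((b - x) / (b - a) * Real.log a + (x - a) / (b - a) * Real.log b) =
      (b - x) * Real.log a + (x - a) * Real.log b := by
    field_simp
  rwa [e2] at h3

theorem key : 7 * Real.log 2 ≤ 3 * Real.log 3 + Real.log 5 := by
  have h1 : Real.log ((2 : ℝ) ^ 7) ≤ Real.log ((3 : ℝ) ^ 3 * 5) :=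
    Real.log_le_log (by norm_num) (by norm_num)
  rw [Real.log_pow, Real.log_mul (by norm_num) (by norm_num), Real.log_pow] at h1
  push_cast at h1
  exact h1

/-- `4 ^ y ≤ (5 / 2) y ^ 3` on `[3/2, 3]` -/
theorem mid {y : ℝ} (h1 : 3 / 2 ≤ y) (h2 : y ≤ 3) :
    y * (2 * Real.log 2) ≤ 3 * Real.log y + (Real.log 5 - Real.log 2) := by
  have h := interp (by norm_num : (0 : ℝ) < 3 / 2) (by norm_num : (3 : ℝ) / 2 < 3) h1 h2
  rw [Real.log_div (by norm_num) (by norm_num)] at h
  have hk := key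
  nlinarith

/-- the lower bound for `L` -/
theorem low {L : ℝ} (h1 : 1 ≤ L) (h : 100 * L ^ 2 ≤ (2 : ℝ) ^ L) : 12 ≤ L := by
  by_contra hcon
  push Not at hcon
  have hL0 : 0 < L := by linarith
  have h2 := interp (by norm_num : (0 : ℝ) < 1) (by norm_num : (1 : ℝ) < 12) h1 hcon.le
  rw [Real.log_one] at h2
  have h3 : Real.log (100 * L ^ 2) ≤ Real.log ((2 : ℝ) ^ L) := Real.log_le_log (by positivity) h
  rw [Real.log_mul (by norm_num) (by positivity), Real.log_pow, Real.log_rpow (by norm_num)] at h3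
  push_cast at h3
  have h4 : Real.log 2 < Real.log 100 := Real.log_lt_log (by norm_num) (by norm_num)
  have h5 : Real.log ((2 : ℝ) ^ 12) < Real.log (100 * 12 ^ 2) :=
    Real.log_lt_log (by norm_num) (by norm_num)
  rw [Real.log_pow, Real.log_mul (by norm_num) (by norm_num), Real.log_pow] at h5
  push_cast at h5
  have h6 : 0 < Real.log 2 := Real.log_pos (by norm_num)
  nlinarith

end NLOWM

open NLOWM in
theorem specNLOW : SpecNLOW := by
  intro p D hD hDp hL hp
  have hD0 : (0 : ℝ) < D := by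
    have : 0 < D := by omega
    exact_mod_cast this
  have hD2 : (2 : ℝ) ≤ D := by exact_mod_cast hD
  have hDp' : (D : ℝ) ≤ p := by exact_mod_cast hDp
  have hDL : (2 : ℝ) ^ Real.logb 2 D = D := Real.rpow_logb (by norm_num) (by norm_num) hD0
  set L : ℝ := Real.logb 2 D with hLdef
  have hL1 : 1 ≤ L := by
    rw [hLdef, Real.le_logb_iff_rpow_le (by norm_num) hD0, Real.rpow_one]
    exact hD2
  have hL12 : 12 ≤ L := low hL1 (by rw [hDL]; exact hL)
  have hL0 : 0 < L := by linarith
  have ha3 : ((200 * L ^ 2) ^ ((1 : ℝ) / 3)) ^ 3 = 200 * L ^ 2 := by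
    rw [← Real.rpow_natCast, ← Real.rpow_mul (by positivity)]
    norm_num
  have ha0 : 0 < (200 * L ^ 2) ^ ((1 : ℝ) / 3) := Real.rpow_pos_of_pos (by positivity) _
  set y : ℝ := (200 * L ^ 2) ^ ((1 : ℝ) / 3) / 20 with hy
  have hy0 : 0 < y := by positivity
  have hy3 : 40 * y ^ 3 = L ^ 2 := by
    rw [hy, div_pow, ha3]
    ring
  have hy1 : 3 / 2 ≤ y := by
    by_contra hcon
    push Not at hcon
    have h1 : y ^ 3 < (3 / 2) ^ 3 := pow_lt_pow_left₀ hcon hy0.le (by norm_num)
    nlinarith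
  rw [le_div_iff₀ (by positivity)]
  rcases le_or_gt y 3 with hy2 | hy2
  · -- the middle range
    have hm := mid hy1 hy2
    have h1 : Real.log (40 * y ^ 3) = Real.log (L ^ 2) := by rw [hy3]
    rw [Real.log_mul (by norm_num) (by positivity), Real.log_pow, Real.log_pow,
      show (40 : ℝ) = 2 ^ 3 * 5 by norm_num, Real.log_mul (by norm_num) (by norm_num),
      Real.log_pow] at h1
    push_cast at h1
    have h2 : (2 : ℝ) ^ y ≤ L / 4 := by
      rw [← Real.log_le_log_iff (Real.rpow_pos_of_pos (by norm_num) _) (by positivity),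
        Real.log_rpow (by norm_num), Real.log_div hL0.ne' (by norm_num),
        show (4 : ℝ) = 2 ^ 2 by norm_num, Real.log_pow]
      push_cast
      linarith
    calc (2 : ℝ) ^ y * (800 * L) ≤ L / 4 * (800 * L) := mul_le_mul_of_nonneg_right h2 (by positivity)
      _ = 200 * L ^ 2 := by ring
      _ ≤ p := hp
  · -- large `L`
    have hL32 : 32 ≤ L := by
      by_contra hcon
      push Not at hcon
      have h1 : (3 : ℝ) ^ 3 < y ^ 3 := pow_lt_pow_left₀ hy2 (by norm_num) (by norm_num)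
      nlinarith
    have hyL : y ≤ L / 2 := by
      by_contra hcon
      push Not at hcon
      have h1 : (L / 2) ^ 3 < y ^ 3 := pow_lt_pow_left₀ hcon (by positivity) (by norm_num)
      nlinarith [mul_pos hL0 hL0]
    have h2 : (2 : ℝ) ^ y ≤ (2 : ℝ) ^ (L / 2) := Real.rpow_le_rpow_of_exponent_le (by norm_num) hyL
    have h3 : 800 * L ≤ (2 : ℝ) ^ (L / 2) := by
      have e1 : (2 : ℝ) ^ (L / 2) = 2 ^ (16 : ℕ) * Real.exp (Real.log 2 * (L / 2 - 16)) := by
        rw [← Real.rpow_natCast, Real.exp_mul, Real.exp_log (by norm_num), ← Real.rpow_add (by norm_num)]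
        congr 1
        push_cast
        ring
      rw [e1]
      have h4 := Real.add_one_le_exp (Real.log 2 * (L / 2 - 16))
      have h5 : (1 : ℝ) / 2 ≤ Real.log 2 := by
        have := Real.log_two_gt_d9
        linarith
      have h6 : 1 / 2 * (L / 2 - 16) ≤ Real.log 2 * (L / 2 - 16) :=
        mul_le_mul_of_nonneg_right h5 (by linarith)
      have h7 : (2 : ℝ) ^ (16 : ℕ) * (1 / 2 * (L / 2 - 16) + 1) ≤
          2 ^ (16 : ℕ) * Real.exp (Real.log 2 * (L / 2 - 16)) :=
        mul_le_mul_of_nonneg_left (by linarith) (by norm_num)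
      refine le_trans ?_ h7
      norm_num
      linarith
    calc (2 : ℝ) ^ y * (800 * L) ≤ (2 : ℝ) ^ (L / 2) * (2 : ℝ) ^ (L / 2) :=
          mul_le_mul h2 h3 (by positivity) (Real.rpow_nonneg (by norm_num) _)
      _ = (2 : ℝ) ^ L := by
          rw [← Real.rpow_add (by norm_num)]
          congr 1
          ring
      _ = D := hDL
      _ ≤ p := hDp'

end Pool.Agent.Lib.MP50ecf8.LOC
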