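import Pool.Agent.Lib.MP_50ecf8_co.LOC.Spec4

/-!
# Module NPOW (MP_50ecf8_co): numerical part (helper25)
-/

set_option autoImplicit false

open Finset
open scoped Classical

namespace Pool.Agent.Lib.MP50ecf8.LOC

theorem specNPOW : SpecNPOW := by
  intro p j hp
  have hp0 : (0 : ℝ) < p := by exact_mod_cast hp
  have h4 : (1 : ℝ) ≤ 4 ^ j := one_le_pow₀ (by norm_num)
  have e1 : (p : ℝ) / ((p : ℝ) / (384 * 4 ^ j)) = 384 * 4 ^ j := by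
    field_simp
  rw [e1]
  have e2 : ((2 ^ 2 ^ (j + 1) : ℕ) : ℝ) = (2 : ℝ) ^ (((2 : ℝ) ^ (j + 1))) := by
    rw [Nat.cast_pow, Nat.cast_ofNat, ← Real.rpow_natCast]
    congr 1
    push_cast
    ring
  have e3 : (1 + 384 * 4 ^ j : ℝ) ≤ (2 : ℝ) ^ ((9 : ℝ) + 2 * j) := by
    have e4 : (2 : ℝ) ^ ((9 : ℝ) + 2 * j) = 512 * 4 ^ j := by
      have : ((9 : ℝ) + 2 * j) = ((9 + 2 * j : ℕ) : ℝ) := by push_cast; ring
      rw [this, Real.rpow_natCast, pow_add, pow_mul]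
      norm_num
    rw [e4]
    linarith
  have e5 : ((2 ^ 2 ^ (j + 1) : ℕ) : ℝ) * (1 + 384 * 4 ^ j) ≤
      (2 : ℝ) ^ ((2 : ℝ) ^ (j + 1) + ((9 : ℝ) + 2 * j)) := by
    rw [e2, Real.rpow_add (by norm_num : (0 : ℝ) < 2) (((2 : ℝ) ^ (j + 1)))]
    exact mul_le_mul_of_nonneg_left e3 (Real.rpow_nonneg (by norm_num) _)
  have e6 : (0 : ℝ) ≤ (p : ℝ) / (384 * 4 ^ j) := by positivity
  calc (((2 ^ 2 ^ (j + 1) : ℕ) : ℝ) * (1 + 384 * 4 ^ j)) ^ ((p : ℝ) / (384 * 4 ^ j))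
      ≤ ((2 : ℝ) ^ ((2 : ℝ) ^ (j + 1) + ((9 : ℝ) + 2 * j))) ^ ((p : ℝ) / (384 * 4 ^ j)) :=
        Real.rpow_le_rpow (by positivity) e5 e6
    _ = (2 : ℝ) ^ ((p : ℝ) * (2 ^ (j + 1) + 9 + 2 * j) / (384 * 4 ^ j)) := by
        rw [← Real.rpow_mul (by norm_num)]
        congr 1
        ring

end Pool.Agent.Lib.MP50ecf8.LOC
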