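import Pool.Agent.Lib.MP_50ecf8_co.LOC.Spec4

/-!
# Module NST: numerical, one stage
-/

set_option autoImplicit false

open Finset
open scoped Classical

namespace Pool.Agent.Lib.MP50ecf8.LOC

namespace NSTM

theorem two_le : (2 : ℝ) ≤ Real.exp (7 / 10) := by
  have h := Real.log_two_lt_d9
  rw [← Real.log_le_iff_le_exp (by norm_num)]
  linarith

theorem exp_ge {x : ℝ} (hx : 1 ≤ x) : 3072 * x ^ 2 ≤ Real.exp (14 * x) := by
  have h0 : (2 : ℝ) ≤ Real.exp 1 := by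
    have := Real.add_one_le_exp (1 : ℝ)
    linarith
  have h1 : (3072 : ℝ) ≤ Real.exp (12 * x) := by
    have h2 : Real.exp 12 ≤ Real.exp (12 * x) := Real.exp_le_exp.mpr (by linarith)
    have h3 : Real.exp 12 = Real.exp 1 ^ 12 := by
      rw [← Real.exp_nat_mul]
      norm_num
    have h4 : (2 : ℝ) ^ 12 ≤ Real.exp 1 ^ 12 := pow_le_pow_left₀ (by norm_num) h0 12
    norm_num at h4
    linarith
  have h5 : x ≤ Real.exp x := by
    have := Real.add_one_le_exp x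
    linarith
  have h6 : x ^ 2 ≤ Real.exp x ^ 2 := pow_le_pow_left₀ (by linarith) h5 2
  have h7 : Real.exp (14 * x) = Real.exp (12 * x) * Real.exp x ^ 2 := by
    rw [← Real.exp_nat_mul, ← Real.exp_add]
    congr 1
    push_cast
    ring
  rw [h7]
  exact mul_le_mul h1 h6 (by positivity) (by positivity)

end NSTM

theorem specNST : SpecNST := by
  intro q j hq
  obtain ⟨x, hx⟩ : ∃ x : ℝ, x = 2 ^ j := ⟨_, rfl⟩
  have hx1 : 1 ≤ x := by rw [hx]; exact one_le_pow₀ (by norm_num)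
  have h4 : (4 : ℝ) ^ j = x ^ 2 := by
    rw [hx, ← pow_mul, mul_comm, pow_mul]
    norm_num
  have h8 : (8 : ℝ) ^ j = x ^ 3 := by
    rw [hx, ← pow_mul, mul_comm, pow_mul]
    norm_num
  have ht : ((8000 * 8 ^ j : ℕ) : ℝ) = 8000 * x ^ 3 := by
    push_cast
    rw [h8]
  have hq' : 8000 * x ^ 3 ≤ (q : ℝ) := by
    rw [← ht]
    exact_mod_cast hq
  have hx3 : 0 < x ^ 3 := by positivity
  have hq0 : (0 : ℝ) < q := by linarith
  have hx2 : 0 < x ^ 2 := by positivity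
  refine ⟨⌈(q : ℝ) / (512 * 4 ^ j)⌉₊, ?_⟩
  rw [h4, ht]
  have hs1 : ((⌈(q : ℝ) / (512 * x ^ 2)⌉₊ : ℕ) : ℝ) ≤ q / (512 * x ^ 2) + 1 :=
    (Nat.ceil_lt_add_one (by positivity)).le
  have hs2 : (q : ℝ) / (512 * x ^ 2) ≤ ((⌈(q : ℝ) / (512 * x ^ 2)⌉₊ : ℕ) : ℝ) := Nat.le_ceil _
  set s := ⌈(q : ℝ) / (512 * x ^ 2)⌉₊ with hs
  -- the power
  have hp1 : (1 - 8000 * x ^ 3 / q) ^ s ≤ Real.exp (-(125 / 8 * x)) := by
    have h1 : 0 ≤ 1 - 8000 * x ^ 3 / (q : ℝ) := by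
      rw [sub_nonneg, div_le_one hq0]
      exact hq'
    have h2 : 1 - 8000 * x ^ 3 / (q : ℝ) ≤ Real.exp (-(8000 * x ^ 3 / q)) :=
      Real.one_sub_le_exp_neg _
    refine (pow_le_pow_left₀ h1 h2 s).trans ?_
    rw [← Real.exp_nat_mul]
    apply Real.exp_le_exp.mpr
    have h3 : (q : ℝ) / (512 * x ^ 2) * (8000 * x ^ 3 / q) ≤ s * (8000 * x ^ 3 / q) :=
      mul_le_mul_of_nonneg_right hs2 (by positivity)
    have h5 : (q : ℝ) / (512 * x ^ 2) * (8000 * x ^ 3 / q) = 125 / 8 * x := by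
      field_simp
      ring
    rw [h5] at h3
    linarith
  have hp2 : ((2 ^ 2 ^ (j + 1) : ℕ) : ℝ) ≤ Real.exp (7 / 5 * x) := by
    push_cast
    refine (pow_le_pow_left₀ (by norm_num) NSTM.two_le _).trans (le_of_eq ?_)
    rw [← Real.exp_nat_mul]
    congr 1
    push_cast
    rw [hx]
    ring
  have hp3 : ((2 ^ 2 ^ (j + 1) : ℕ) : ℝ) * (1 - 8000 * x ^ 3 / q) ^ s ≤ 1 / (3072 * x ^ 2) := by
    have h0 : 0 ≤ (1 - 8000 * x ^ 3 / (q : ℝ)) ^ s := by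
      apply pow_nonneg
      rw [sub_nonneg, div_le_one hq0]
      exact hq'
    refine (mul_le_mul hp2 hp1 h0 (Real.exp_pos _).le).trans ?_
    rw [← Real.exp_add]
    have h1 : Real.exp (7 / 5 * x + -(125 / 8 * x)) ≤ Real.exp (-(14 * x)) :=
      Real.exp_le_exp.mpr (by linarith)
    refine h1.trans ?_
    rw [Real.exp_neg, ← one_div]
    exact one_div_le_one_div_of_le (by positivity) (NSTM.exp_ge hx1)
  have hp4 : (q : ℝ) * ((2 ^ 2 ^ (j + 1) : ℕ) : ℝ) * (1 - 8000 * x ^ 3 / q) ^ s ≤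
      q * (1 / (3072 * x ^ 2)) := by
    rw [mul_assoc]
    exact mul_le_mul_of_nonneg_left hp3 hq0.le
  have hq2 : 1 ≤ (q : ℝ) * (1 / (3072 * x ^ 2)) := by
    rw [mul_one_div, le_div_iff₀ (by positivity), one_mul]
    have : x ^ 2 ≤ x ^ 3 := pow_le_pow_right₀ hx1 (by norm_num)
    linarith
  have hfin : (q : ℝ) / (512 * x ^ 2) + q * (1 / (3072 * x ^ 2)) + q * (1 / (3072 * x ^ 2)) =
      q / (384 * x ^ 2) := by
    field_simp
    ring
  linarith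

end Pool.Agent.Lib.MP50ecf8.LOC
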