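import Pool.Agent.Lib.MP_50ecf8_co.LOC.Spec10

/-!
# Module NUBN: the price of the base (numerical)
-/

set_option autoImplicit false

namespace Pool.Agent.Lib.MP50ecf8.LOC

namespace NUBNM

lemma step {D : ℕ} (hD : 2 ≤ D) (k : ℕ) (h : (2 : ℝ) ^ k ≤ (D : ℝ)) : (k : ℝ) ≤ Real.logb 2 D := by
  have hD0 : (0 : ℝ) < (D : ℝ) := by
    have : (2 : ℝ) ≤ (D : ℝ) := by exact_mod_cast hD
    linarith
  rw [Real.le_logb_iff_rpow_le one_lt_two hD0, Real.rpow_natCast]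
  exact h

lemma nineteen {D : ℕ} (hD : 2 ≤ D) (h : 50000 * Real.logb 2 D ≤ (D : ℝ)) :
    19 ≤ Real.logb 2 D := by
  have h1 := step hD 1 (by rw [pow_one]; exact_mod_cast hD)
  push_cast at h1
  have h2 := step hD 15 (le_trans (by norm_num : (2 : ℝ) ^ 15 ≤ 50000) (by linarith))
  push_cast at h2
  have h4 := step hD 19 (le_trans (by norm_num : (2 : ℝ) ^ 19 ≤ 750000) (by linarith))
  push_cast at h4
  exact h4

/-- `1 + y / 2 ≤ 2 ^ y` for `y ≥ 0` -/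
lemma two_rpow {y : ℝ} (hy : 0 ≤ y) : 1 + y / 2 ≤ (2 : ℝ) ^ y := by
  rw [Real.rpow_def_of_pos two_pos]
  have h1 := Real.add_one_le_exp (Real.log 2 * y)
  have h2 : (1 : ℝ) / 2 ≤ Real.log 2 := by
    have := Real.log_two_gt_d9
    linarith
  nlinarith [mul_le_mul_of_nonneg_right h2 hy]

lemma two_nat {x : ℝ} (k : ℕ) (h : (k : ℝ) ≤ x) : (2 : ℝ) ^ k ≤ (2 : ℝ) ^ x := by
  rw [← Real.rpow_natCast]
  exact Real.rpow_le_rpow_of_exponent_le one_le_two h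

lemma key {L : ℝ} (hL : 19 ≤ L) : 20 * L ^ 2 ≤ (2 : ℝ) ^ (3 / 4 * L) := by
  have h1 := two_rpow (y := 3 / 8 * (L - 19)) (by linarith)
  have h2 : L / 19 ≤ (2 : ℝ) ^ (3 / 8 * (L - 19)) := by linarith
  have h3 : (L / 19) ^ 2 ≤ ((2 : ℝ) ^ (3 / 8 * (L - 19))) ^ 2 :=
    pow_le_pow_left₀ (by linarith) h2 2
  have h4 : ((2 : ℝ) ^ (3 / 8 * (L - 19))) ^ 2 = (2 : ℝ) ^ (3 / 4 * (L - 19)) := by
    rw [← Real.rpow_natCast, ← Real.rpow_mul (by norm_num)]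
    congr 1
    push_cast
    ring
  have h5 : (2 : ℝ) ^ (3 / 4 * L) = (2 : ℝ) ^ ((57 : ℝ) / 4) * (2 : ℝ) ^ (3 / 4 * (L - 19)) := by
    rw [← Real.rpow_add two_pos]
    congr 1
    ring
  have h6 : (16384 : ℝ) ≤ (2 : ℝ) ^ ((57 : ℝ) / 4) := by
    have h7 := two_nat (x := (57 : ℝ) / 4) 14 (by norm_num)
    have h8 : (2 : ℝ) ^ 14 = 16384 := by norm_num
    linarith
  rw [h5]
  have h9 : (16384 : ℝ) * (L / 19) ^ 2 ≤
      (2 : ℝ) ^ ((57 : ℝ) / 4) * (2 : ℝ) ^ (3 / 4 * (L - 19)) :=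
    mul_le_mul h6 (h4 ▸ h3) (by positivity) (by positivity)
  have h10 : (16384 : ℝ) * (L / 19) ^ 2 = 16384 / 361 * L ^ 2 := by ring
  have h11 : 0 ≤ L ^ 2 := sq_nonneg L
  linarith

/-- the common last step -/
lemma fin {P L D x c a e : ℝ} (hL : 0 < L) (hP : 0 < P) (hc : 0 < c) (hD : D = (2 : ℝ) ^ L)
    (hx0 : 0 ≤ x) (hx : x ≤ (2 : ℝ) ^ (a * L)) (he : (1 + a) / c = e) :
    (D * x) ^ (P / (c * L)) ≤ (2 : ℝ) ^ (P * e) := by
  have h1 : D * x ≤ (2 : ℝ) ^ ((1 + a) * L) := by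
    have h2 : (2 : ℝ) ^ ((1 + a) * L) = (2 : ℝ) ^ L * (2 : ℝ) ^ (a * L) := by
      rw [← Real.rpow_add two_pos]
      congr 1
      ring
    rw [h2, hD]
    exact mul_le_mul_of_nonneg_left hx (by positivity)
  have h3 : (D * x) ^ (P / (c * L)) ≤ ((2 : ℝ) ^ ((1 + a) * L)) ^ (P / (c * L)) :=
    Real.rpow_le_rpow (mul_nonneg (by rw [hD]; positivity) hx0) h1 (by positivity)
  refine h3.trans (le_of_eq ?_)
  rw [← Real.rpow_mul (by norm_num), ← he]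
  congr 1
  field_simp

lemma third {P : ℝ} (hP : 500000 ≤ P) : P * (1 + P / 1) ≤ (2 : ℝ) ^ (P / 1000) := by
  have h1 : P * (1 + P / 1) ≤ (2 * P) ^ 2 := by
    rw [div_one]
    nlinarith
  have h3 := two_rpow (y := P / 4000) (by positivity)
  have h4 : (65536 : ℝ) ≤ (2 : ℝ) ^ (P / 4000) := by
    have h7 := two_nat (x := P / 4000) 16 (by push_cast; linarith)
    have h8 : (2 : ℝ) ^ 16 = 65536 := by norm_num
    linarith
  have h5 : 2 * P ≤ (2 : ℝ) ^ (P / 4000) * (2 : ℝ) ^ (P / 4000) := by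
    have h6 : (65536 : ℝ) * (P / 8000) ≤ (2 : ℝ) ^ (P / 4000) * (2 : ℝ) ^ (P / 4000) :=
      mul_le_mul h4 (by linarith) (by positivity) (by positivity)
    linarith
  have h6 : (2 : ℝ) ^ (P / 4000) * (2 : ℝ) ^ (P / 4000) = (2 : ℝ) ^ (P / 2000) := by
    rw [← Real.rpow_add two_pos]
    congr 1
    ring
  rw [h6] at h5
  have h7 : (2 * P) ^ 2 ≤ ((2 : ℝ) ^ (P / 2000)) ^ 2 :=
    pow_le_pow_left₀ (by positivity) h5 2
  have h8 : ((2 : ℝ) ^ (P / 2000)) ^ 2 = (2 : ℝ) ^ (P / 1000) := by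
    rw [← Real.rpow_natCast, ← Real.rpow_mul (by norm_num)]
    congr 1
    push_cast
    ring
  linarith

/-- the cube root -/
lemma cube {L z : ℝ} (hL : 0 ≤ L) (hz : 0 ≤ z) (h : L ≤ 41 / 2 + z) :
    (100000 * L) ^ ((1 : ℝ) / 3) / 20 ≤ 6355 / 1000 + z / 2 := by
  have h1 : (100000 * L) ^ ((1 : ℝ) / 3) ≤ 1271 / 10 + 10 * z := by
    have h2 : 100000 * L ≤ (1271 / 10 + 10 * z) ^ 3 := by
      nlinarith [mul_nonneg hz hz, mul_nonneg (mul_nonneg hz hz) hz]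
    have h3 : (100000 * L) ^ ((1 : ℝ) / 3) ≤ ((1271 / 10 + 10 * z) ^ 3) ^ ((1 : ℝ) / 3) :=
      Real.rpow_le_rpow (by positivity) h2 (by norm_num)
    have h4 : (((1271 : ℝ) / 10 + 10 * z) ^ 3) ^ ((1 : ℝ) / 3) = 1271 / 10 + 10 * z := by
      rw [← Real.rpow_natCast, ← Real.rpow_mul (by positivity)]
      norm_num
    linarith
  linarith

/-- the number of near twins -/
lemma fourth {L D : ℝ} (hL : 19 ≤ L) (hD : D = (2 : ℝ) ^ L) (hDL : 50000 * L ≤ D) :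
    (2 : ℝ) ^ ((100000 * L) ^ ((1 : ℝ) / 3) / 20) * (600 * L) ≤ D := by
  rcases le_total L (41 / 2) with h | h
  · have h1 := cube (L := L) (z := 0) (by linarith) le_rfl (by linarith)
    have h2 : (2 : ℝ) ^ ((100000 * L) ^ ((1 : ℝ) / 3) / 20) ≤ (2 : ℝ) ^ ((51 : ℝ) / 8) :=
      Real.rpow_le_rpow_of_exponent_le one_le_two (by linarith)
    have h3 : (2 : ℝ) ^ ((51 : ℝ) / 8) ≤ 250 / 3 := by
      apply le_of_pow_le_pow_left₀ (n := 8) (by norm_num) (by norm_num)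
      rw [← Real.rpow_natCast, ← Real.rpow_mul (by norm_num)]
      have h4 : (2 : ℝ) ^ ((51 : ℝ) / 8 * ((8 : ℕ) : ℝ)) = (2 : ℝ) ^ 51 := by
        rw [show (51 : ℝ) / 8 * ((8 : ℕ) : ℝ) = ((51 : ℕ) : ℝ) by push_cast; norm_num,
          Real.rpow_natCast]
      rw [h4]
      norm_num
    have h5 : (2 : ℝ) ^ ((100000 * L) ^ ((1 : ℝ) / 3) / 20) * (600 * L) ≤ 250 / 3 * (600 * L) :=
      mul_le_mul_of_nonneg_right (h2.trans h3) (by linarith)
    linarith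
  · obtain ⟨z, hz⟩ : ∃ z : ℝ, z = L - 41 / 2 := ⟨_, rfl⟩
    have hz0 : 0 ≤ z := by linarith
    have h1 := cube (L := L) (z := z) (by linarith) hz0 (by linarith)
    have h2 : (2 : ℝ) ^ ((100000 * L) ^ ((1 : ℝ) / 3) / 20) ≤ (2 : ℝ) ^ (6355 / 1000 + z / 2) :=
      Real.rpow_le_rpow_of_exponent_le one_le_two h1
    have h3 : (12300 : ℝ) ≤ (2 : ℝ) ^ ((55 : ℝ) / 4) := by
      apply le_of_pow_le_pow_left₀ (n := 4) (by norm_num) (by positivity)
      rw [← Real.rpow_natCast ((2 : ℝ) ^ ((55 : ℝ) / 4)), ← Real.rpow_mul (by norm_num)]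
      have h4 : (2 : ℝ) ^ ((55 : ℝ) / 4 * ((4 : ℕ) : ℝ)) = (2 : ℝ) ^ 55 := by
        rw [show (55 : ℝ) / 4 * ((4 : ℕ) : ℝ) = ((55 : ℕ) : ℝ) by push_cast; norm_num,
          Real.rpow_natCast]
      rw [h4]
      norm_num
    have h4 := two_rpow (y := z / 2) (by positivity)
    have h5 : 600 * L ≤ (2 : ℝ) ^ ((55 : ℝ) / 4) * (2 : ℝ) ^ (z / 2) := by
      have h6 : 12300 * (1 + z / 2 / 2) ≤ (2 : ℝ) ^ ((55 : ℝ) / 4) * (2 : ℝ) ^ (z / 2) :=
        mul_le_mul h3 h4 (by positivity) (by positivity)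
      have h7 : 600 * L = 600 * z + 12300 := by rw [hz]; ring
      linarith
    have h6 : (2 : ℝ) ^ ((100000 * L) ^ ((1 : ℝ) / 3) / 20) * (600 * L) ≤
        (2 : ℝ) ^ (6355 / 1000 + z / 2) * ((2 : ℝ) ^ ((55 : ℝ) / 4) * (2 : ℝ) ^ (z / 2)) :=
      mul_le_mul h2 h5 (by linarith) (by positivity)
    refine h6.trans ?_
    rw [← Real.rpow_add two_pos, ← Real.rpow_add two_pos, hD]
    apply Real.rpow_le_rpow_of_exponent_le one_le_two
    linarith

/-- `1 + 2 log2 P ≤ (1 + 2 L) P / D` -/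
lemma logP {L D P : ℝ} (hL : 19 ≤ L) (hD0 : 0 < D) (hDP : D ≤ P) (hLD : L = Real.logb 2 D) :
    1 + 2 * Real.logb 2 P ≤ (1 + 2 * L) * (P / D) := by
  have hy : 1 ≤ P / D := by
    rw [le_div_iff₀ hD0]
    linarith
  have h1 : Real.logb 2 P = L + Real.logb 2 (P / D) := by
    rw [hLD, ← Real.logb_mul hD0.ne' (by positivity)]
    congr 1
    field_simp
  have h2 : Real.logb 2 (P / D) ≤ 2 * (P / D - 1) := by
    rw [Real.logb, div_le_iff₀ (Real.log_pos one_lt_two)]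
    have h3 := Real.log_le_sub_one_of_pos (x := P / D) (by linarith)
    have h4 : (1 : ℝ) / 2 ≤ Real.log 2 := by
      have := Real.log_two_gt_d9
      linarith
    have h5 : 0 ≤ P / D - 1 := by linarith
    nlinarith [mul_le_mul_of_nonneg_left h4 h5]
  rw [h1]
  nlinarith

lemma fifth {L D P M : ℝ} (hL : 19 ≤ L) (hD0 : 0 < D) (hDP : D ≤ P) (hLD : L = Real.logb 2 D)
    (hP : 500000 ≤ P) (hM : 1 ≤ M) (hMD : M * (600 * L) ≤ D) :
    (P * (1 + P / M)) ^ M ≤ (2 : ℝ) ^ (P * (4 / 1000)) := by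
  have hP0 : 0 < P := by linarith
  have h1 : P * (1 + P / M) ≤ (2 : ℝ) ^ (1 + 2 * Real.logb 2 P) := by
    have h2 : (2 : ℝ) ^ (1 + 2 * Real.logb 2 P) = 2 * P ^ 2 := by
      rw [Real.rpow_add two_pos, Real.rpow_one, mul_comm 2 (Real.logb 2 P), Real.rpow_mul (by norm_num),
        Real.rpow_logb two_pos (by norm_num) hP0]
      norm_num
    have h3 : P / M ≤ P := div_le_self hP0.le hM
    rw [h2]
    nlinarith
  have h4 : (P * (1 + P / M)) ^ M ≤ ((2 : ℝ) ^ (1 + 2 * Real.logb 2 P)) ^ M :=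
    Real.rpow_le_rpow (by positivity) h1 (by linarith)
  refine h4.trans ?_
  rw [← Real.rpow_mul (by norm_num)]
  apply Real.rpow_le_rpow_of_exponent_le one_le_two
  have h5 := logP hL hD0 hDP hLD
  have h6 : (1 + 2 * Real.logb 2 P) * M ≤ (1 + 2 * L) * (P / D) * M :=
    mul_le_mul_of_nonneg_right h5 (by linarith)
  have h7 : M / D ≤ 1 / (600 * L) := by
    rw [div_le_div_iff₀ hD0 (by linarith)]
    linarith
  have h8 : (1 + 2 * L) * (P / D) * M = (1 + 2 * L) * P * (M / D) := by ring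
  have h9 : (1 + 2 * L) * P * (M / D) ≤ (1 + 2 * L) * P * (1 / (600 * L)) :=
    mul_le_mul_of_nonneg_left h7 (by positivity)
  have h10 : (1 + 2 * L) * P * (1 / (600 * L)) ≤ P * (4 / 1000) := by
    have h11 : (1 + 2 * L) * (1 / (600 * L)) ≤ 4 / 1000 := by
      rw [mul_one_div, div_le_iff₀ (by linarith)]
      linarith
    have h12 := mul_le_mul_of_nonneg_left h11 hP0.le
    linarith
  linarith

end NUBNM

open NUBNM in
theorem specNUBN : SpecNUBN := by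
  intro p D hD hDL hp
  have hL19 := nineteen hD hDL
  have hD0 : (0 : ℝ) < (D : ℝ) := by
    have : (2 : ℝ) ≤ (D : ℝ) := by exact_mod_cast hD
    linarith
  obtain ⟨L, hLdef⟩ : ∃ L : ℝ, L = Real.logb 2 D := ⟨_, rfl⟩
  have hD2 : (D : ℝ) = (2 : ℝ) ^ L := by
    rw [hLdef, Real.rpow_logb two_pos (by norm_num) hD0]
  have hln : Real.log D ≤ 6932 / 10000 * L := by
    rw [hD2, Real.log_rpow two_pos]
    have h1 := Real.log_two_lt_d9
    have h2 : 0 ≤ L := by linarith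
    nlinarith
  have hln0 : 0 ≤ Real.log D := Real.log_natCast_nonneg D
  have hpD : (D : ℝ) ≤ (p : ℝ) := by exact_mod_cast hp
  unfold MM
  rw [← hLdef] at hL19 hDL ⊢
  obtain ⟨P, hP⟩ : ∃ P : ℝ, P = (p : ℝ) := ⟨_, rfl⟩
  rw [← hP] at hpD ⊢
  have hL0 : 0 < L := by linarith
  have hP0 : 500000 ≤ P := by linarith
  have hPpos : 0 < P := by linarith
  have hk := key hL19
  have h4 := fourth hL19 hD2 hDL
  refine ⟨?_, ?_, third hP0, ?_, ?_⟩
  · have h1 : P * (1 + Real.log D) / (P / (25 * L)) = 25 * L * (1 + Real.log D) := by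
      field_simp
    rw [h1]
    refine fin (a := 3 / 4) hL0 hPpos (by norm_num) hD2 (by positivity) (le_trans ?_ hk) (by norm_num)
    have h2 : 25 * L * (1 + Real.log D) ≤ 25 * L * (1 + 6932 / 10000 * L) :=
      mul_le_mul_of_nonneg_left (by linarith) (by positivity)
    nlinarith
  · have h1 : P / (P / (200 * L)) = 200 * L := by
      field_simp
    rw [h1]
    refine fin (a := 4 / 5) hL0 hPpos (by norm_num) hD2 (by positivity) ?_ (by norm_num)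
    have h2 : (2 : ℝ) ^ (3 / 4 * L) ≤ (2 : ℝ) ^ (4 / 5 * L) :=
      Real.rpow_le_rpow_of_exponent_le one_le_two (by linarith)
    nlinarith
  · rw [le_div_iff₀ (by linarith)]
    linarith
  · refine fifth hL19 hD0 hpD hLdef hP0 ?_ h4
    apply Real.one_le_rpow one_le_two
    positivity

end Pool.Agent.Lib.MP50ecf8.LOC
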