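import Pool.Agent.Lib.MP_50ecf8_co.LOC.Spec8

/-!
# Module NUBY: the price of the base (numerical)
-/

set_option autoImplicit false

namespace Pool.Agent.Lib.MP50ecf8.LOC

namespace NUBYM

lemma step {D : ℕ} (hD : 2 ≤ D) (k : ℕ) (h : (2 : ℝ) ^ k ≤ (D : ℝ)) : (k : ℝ) ≤ Real.logb 2 D := by
  have hD0 : (0 : ℝ) < (D : ℝ) := by
    have : (2 : ℝ) ≤ (D : ℝ) := by exact_mod_cast hD
    linarith
  rw [Real.le_logb_iff_rpow_le one_lt_two hD0, Real.rpow_natCast]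
  exact h

lemma sixteen {D : ℕ} (hD : 2 ≤ D) (h : 50000 * Real.logb 2 D ≤ (D : ℝ)) :
    16 ≤ Real.logb 2 D := by
  have h1 := step hD 1 (by rw [pow_one]; exact_mod_cast hD)
  push_cast at h1
  have h2 := step hD 15 (le_trans (by norm_num : (2 : ℝ) ^ 15 ≤ 50000) (by linarith))
  push_cast at h2
  have h4 := step hD 16 (le_trans (by norm_num : (2 : ℝ) ^ 16 ≤ 75000) (by linarith))
  push_cast at h4
  exact h4

/-- `1 + y / 2 ≤ 2 ^ y` for `y ≥ 0` -/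
lemma two_rpow {y : ℝ} (hy : 0 ≤ y) : 1 + y / 2 ≤ (2 : ℝ) ^ y := by
  rw [Real.rpow_def_of_pos two_pos]
  have h1 := Real.add_one_le_exp (Real.log 2 * y)
  have h2 : (1 : ℝ) / 2 ≤ Real.log 2 := by
    have := Real.log_two_gt_d9
    linarith
  nlinarith [mul_le_mul_of_nonneg_right h2 hy]

lemma key {L : ℝ} (hL : 16 ≤ L) : 16 * L ^ 2 ≤ (2 : ℝ) ^ (4 / 5 * L) := by
  have h1 := two_rpow (y := 2 / 5 * (L - 16)) (by linarith)
  have h2 : L / 16 ≤ (2 : ℝ) ^ (2 / 5 * (L - 16)) := by linarith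
  have h3 : (L / 16) ^ 2 ≤ ((2 : ℝ) ^ (2 / 5 * (L - 16))) ^ 2 :=
    pow_le_pow_left₀ (by linarith) h2 2
  have h4 : ((2 : ℝ) ^ (2 / 5 * (L - 16))) ^ 2 = (2 : ℝ) ^ (4 / 5 * (L - 16)) := by
    rw [← Real.rpow_natCast, ← Real.rpow_mul (by norm_num)]
    congr 1
    push_cast
    ring
  have h5 : (2 : ℝ) ^ (4 / 5 * L) = (2 : ℝ) ^ ((64 : ℝ) / 5) * (2 : ℝ) ^ (4 / 5 * (L - 16)) := by
    rw [← Real.rpow_add two_pos]
    congr 1
    ring
  have h6 : (4096 : ℝ) ≤ (2 : ℝ) ^ ((64 : ℝ) / 5) := by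
    have h7 : (2 : ℝ) ^ (12 : ℝ) ≤ (2 : ℝ) ^ ((64 : ℝ) / 5) :=
      Real.rpow_le_rpow_of_exponent_le one_le_two (by norm_num)
    have h8 : (2 : ℝ) ^ (12 : ℝ) = 4096 := by
      rw [show (12 : ℝ) = ((12 : ℕ) : ℝ) by norm_num, Real.rpow_natCast]
      norm_num
    linarith
  rw [h5]
  have h9 : (4096 : ℝ) * (L / 16) ^ 2 ≤
      (2 : ℝ) ^ ((64 : ℝ) / 5) * (2 : ℝ) ^ (4 / 5 * (L - 16)) :=
    mul_le_mul h6 (h4 ▸ h3) (by positivity) (by positivity)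
  have h10 : (4096 : ℝ) * (L / 16) ^ 2 = 16 * L ^ 2 := by ring
  linarith

/-- the common last step -/
lemma fin {P L D x c e : ℝ} (hL : 0 < L) (hP : 0 < P) (hc : 0 < c) (hD : D = (2 : ℝ) ^ L)
    (hx0 : 0 ≤ x) (hx : x ≤ (2 : ℝ) ^ (4 / 5 * L)) (he : 9 / 5 / c = e) :
    (D * x) ^ (P / (c * L)) ≤ (2 : ℝ) ^ (P * e) := by
  have h1 : D * x ≤ (2 : ℝ) ^ (9 / 5 * L) := by
    have h2 : (2 : ℝ) ^ (9 / 5 * L) = (2 : ℝ) ^ L * (2 : ℝ) ^ (4 / 5 * L) := by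
      rw [← Real.rpow_add two_pos]
      congr 1
      ring
    rw [h2, hD]
    exact mul_le_mul_of_nonneg_left hx (by positivity)
  have h3 : (D * x) ^ (P / (c * L)) ≤ ((2 : ℝ) ^ (9 / 5 * L)) ^ (P / (c * L)) :=
    Real.rpow_le_rpow (mul_nonneg (by rw [hD]; positivity) hx0) h1 (by positivity)
  refine h3.trans (le_of_eq ?_)
  rw [← Real.rpow_mul (by norm_num), ← he]
  congr 1
  field_simp

lemma third {P : ℝ} (hP : 1600000 ≤ P) : (P * (1 + P / 1)) ^ 2 ≤ (2 : ℝ) ^ (P / 1000) := by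
  have h1 : P * (1 + P / 1) ≤ (2 * P) ^ 2 := by
    rw [div_one]
    nlinarith
  have h2 : (P * (1 + P / 1)) ^ 2 ≤ ((2 * P) ^ 2) ^ 2 :=
    pow_le_pow_left₀ (by positivity) h1 2
  have h3 := two_rpow (y := P / 8000) (by positivity)
  have h4 : (32000 : ℝ) ≤ (2 : ℝ) ^ (P / 8000) := by
    have h7 : (2 : ℝ) ^ (15 : ℝ) ≤ (2 : ℝ) ^ (P / 8000) :=
      Real.rpow_le_rpow_of_exponent_le one_le_two (by linarith)
    have h8 : (2 : ℝ) ^ (15 : ℝ) = 32768 := by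
      rw [show (15 : ℝ) = ((15 : ℕ) : ℝ) by norm_num, Real.rpow_natCast]
      norm_num
    linarith
  have h5 : 2 * P ≤ (2 : ℝ) ^ (P / 8000) * (2 : ℝ) ^ (P / 8000) := by
    have h6 : (32000 : ℝ) * (P / 16000) ≤ (2 : ℝ) ^ (P / 8000) * (2 : ℝ) ^ (P / 8000) :=
      mul_le_mul h4 (by linarith) (by positivity) (by positivity)
    linarith
  have h6 : (2 : ℝ) ^ (P / 8000) * (2 : ℝ) ^ (P / 8000) = (2 : ℝ) ^ (P / 4000) := by
    rw [← Real.rpow_add two_pos]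
    congr 1
    ring
  rw [h6] at h5
  have h7 : ((2 * P) ^ 2) ^ 2 ≤ (((2 : ℝ) ^ (P / 4000)) ^ 2) ^ 2 :=
    pow_le_pow_left₀ (by positivity) (pow_le_pow_left₀ (by positivity) h5 2) 2
  have h8 : (((2 : ℝ) ^ (P / 4000)) ^ 2) ^ 2 = (2 : ℝ) ^ (P / 1000) := by
    rw [← pow_mul, ← Real.rpow_natCast, ← Real.rpow_mul (by norm_num)]
    congr 1
    push_cast
    ring
  linarith

end NUBYM

open NUBYM in
theorem specNUBY : SpecNUBY := by
  intro p D hD hDL hp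
  have hL16 := sixteen hD hDL
  have hD0 : (0 : ℝ) < (D : ℝ) := by
    have : (2 : ℝ) ≤ (D : ℝ) := by exact_mod_cast hD
    linarith
  obtain ⟨L, hLdef⟩ : ∃ L : ℝ, L = Real.logb 2 D := ⟨_, rfl⟩
  have hD2 : (D : ℝ) = (2 : ℝ) ^ L := by
    rw [hLdef, Real.rpow_logb two_pos (by norm_num) hD0]
  have hln : Real.log D ≤ 6932 / 10000 * L := by
    rw [hD2, Real.log_rpow two_pos]
    have h1 := Real.log_two_lt_d9
    have h2 : 0 ≤ L := by linarith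
    nlinarith
  have hln0 : 0 ≤ Real.log D := Real.log_natCast_nonneg D
  rw [← hLdef] at hL16 hDL hp ⊢
  obtain ⟨P, hP⟩ : ∃ P : ℝ, P = (p : ℝ) := ⟨_, rfl⟩
  rw [← hP] at hp ⊢
  have hL0 : 0 < L := by linarith
  have hP0 : 1600000 ≤ P := by linarith
  have hPpos : 0 < P := by linarith
  have hk := key hL16
  refine ⟨?_, ?_, third hP0⟩
  · have h1 : P * (1 + Real.log D) / (P / (20 * L)) = 20 * L * (1 + Real.log D) := by
      field_simp
    rw [h1]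
    refine fin hL0 hPpos (by norm_num) hD2 (by positivity) (le_trans ?_ hk) (by norm_num)
    have h2 : 20 * L * (1 + Real.log D) ≤ 20 * L * (1 + 6932 / 10000 * L) :=
      mul_le_mul_of_nonneg_left (by linarith) (by positivity)
    nlinarith
  · have h1 : P / (P / (200 * L)) = 200 * L := by
      field_simp
    rw [h1]
    refine fin hL0 hPpos (by norm_num) hD2 (by positivity) (le_trans ?_ hk) (by norm_num)
    nlinarith

end Pool.Agent.Lib.MP50ecf8.LOC
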