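import Pool.Agent.Lib.MP_50ecf8_co.LOC.Spec

/-!
# Module NUD (MP_50ecf8_co): numerical part
-/

set_option autoImplicit false

open Finset
open scoped Classical

namespace Pool.Agent.Lib.MP50ecf8.LOC

namespace NUDM

theorem log43 : 2 / 5 * Real.log 2 ≤ Real.log (4 / 3) := by
  have h1 : Real.log ((2 : ℝ) ^ 2) ≤ Real.log ((4 / 3 : ℝ) ^ 5) :=
    Real.log_le_log (by norm_num) (by norm_num)
  rw [Real.log_pow, Real.log_pow] at h1
  push_cast at h1
  linarith

theorem core (q p x : ℕ) (hq : 2 ≤ q) (hx1 : 1 ≤ x) (hxp : x ≤ p)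
    (h : 1 + Real.logb 2 q * ((x : ℝ) - 1) + Real.logb 2 p < 2 / 5 * ((p : ℝ) - x)) :
    2 * q ^ (x - 1) * (p - x + 1) * 3 ^ (p - x) < 4 ^ (p - x) := by
  have hl2 : 0 < Real.log 2 := Real.log_pos (by norm_num)
  have hq0 : (0 : ℝ) < q := by exact_mod_cast (by omega : 0 < q)
  have hp0 : (0 : ℝ) < p := by exact_mod_cast (by omega : 0 < p)
  have hm : ((p - x : ℕ) : ℝ) = (p : ℝ) - x := Nat.cast_sub hxp
  have hx' : ((x - 1 : ℕ) : ℝ) = (x : ℝ) - 1 := by rw [Nat.cast_sub hx1]; norm_num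
  have h1 : Real.log 2 + ((x : ℝ) - 1) * Real.log q + Real.log p <
      2 / 5 * Real.log 2 * ((p : ℝ) - x) := by
    have h2 := mul_lt_mul_of_pos_right h hl2
    unfold Real.logb at h2
    have e1 : (1 + Real.log q / Real.log 2 * ((x : ℝ) - 1) + Real.log p / Real.log 2) * Real.log 2 =
        Real.log 2 + ((x : ℝ) - 1) * Real.log q + Real.log p := by
      field_simp
    rw [e1] at h2
    linarith
  have hA0 : (0 : ℝ) < 2 * (q : ℝ) ^ (x - 1) * (((p - x : ℕ) : ℝ) + 1) := by positivity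
  have hA : 2 * (q : ℝ) ^ (x - 1) * (((p - x : ℕ) : ℝ) + 1) < (4 / 3 : ℝ) ^ (p - x) := by
    by_contra hcon
    rw [not_lt] at hcon
    have h2 := Real.log_le_log (by positivity) hcon
    rw [Real.log_pow, Real.log_mul (by positivity) (by positivity),
      Real.log_mul (by norm_num) (by positivity), Real.log_pow, hm, hx'] at h2
    have h3 : Real.log ((p : ℝ) - x + 1) ≤ Real.log p := by
      apply Real.log_le_log
      · have : (x : ℝ) ≤ p := by exact_mod_cast hxp
        linarith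
      · have : (1 : ℝ) ≤ x := by exact_mod_cast hx1
        linarith
    have h4 : 2 / 5 * Real.log 2 * ((p : ℝ) - x) ≤ ((p : ℝ) - x) * Real.log (4 / 3) := by
      have h5 : (0 : ℝ) ≤ (p : ℝ) - x := by
        have : (x : ℝ) ≤ p := by exact_mod_cast hxp
        linarith
      calc 2 / 5 * Real.log 2 * ((p : ℝ) - x) = ((p : ℝ) - x) * (2 / 5 * Real.log 2) := by ring
        _ ≤ _ := mul_le_mul_of_nonneg_left log43 h5
    linarith
  have h2 : ((2 * q ^ (x - 1) * (p - x + 1) * 3 ^ (p - x) : ℕ) : ℝ) < ((4 ^ (p - x) : ℕ) : ℝ) := by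
    push_cast [hm]
    rw [hm] at hA
    have h3 : (4 : ℝ) ^ (p - x) = (4 / 3 : ℝ) ^ (p - x) * 3 ^ (p - x) := by
      rw [← mul_pow]; norm_num
    rw [h3]
    exact mul_lt_mul_of_pos_right hA (by positivity)
  exact_mod_cast h2


/-- `L ≥ 10` -/
theorem ten_le (D : ℕ) (hD : 2 ≤ D) (h : 16 * Real.logb 2 D ^ 2 ≤ (D : ℝ)) :
    10 ≤ Real.logb 2 D := by
  have hD0 : (0 : ℝ) < D := by exact_mod_cast (by omega : 0 < D)
  set L := Real.logb 2 D with hL
  have hDL : (D : ℝ) = (2 : ℝ) ^ L := by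
    rw [hL, Real.rpow_logb (by norm_num) (by norm_num) hD0]
  have h1 : 1 ≤ L := by
    rw [hL, Real.le_logb_iff_rpow_le (by norm_num) hD0]
    norm_num
    exact_mod_cast hD
  rw [hDL] at h
  have step : ∀ k : ℕ, (2 : ℝ) ^ (k + 1) < 16 * (k : ℝ) ^ 2 → (k : ℝ) ≤ L → ((k + 1 : ℕ) : ℝ) ≤ L := by
    intro k hk hkL
    by_contra hcon
    rw [not_le] at hcon
    have h2 : (2 : ℝ) ^ L ≤ (2 : ℝ) ^ ((k + 1 : ℕ) : ℝ) :=
      Real.rpow_le_rpow_of_exponent_le (by norm_num) hcon.le
    rw [Real.rpow_natCast] at h2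
    have h3 : (k : ℝ) ^ 2 ≤ L ^ 2 := pow_le_pow_left₀ (Nat.cast_nonneg _) hkL 2
    linarith
  have h2 := step 1 (by norm_num) (by simpa using h1)
  have h3 := step 2 (by norm_num) (by simpa using h2)
  have h4 := step 3 (by norm_num) (by simpa using h3)
  have h5 := step 4 (by norm_num) (by simpa using h4)
  have h6 := step 5 (by norm_num) (by simpa using h5)
  have h7 := step 6 (by norm_num) (by simpa using h6)
  have h8 := step 7 (by norm_num) (by simpa using h7)
  have h9 := step 8 (by norm_num) (by simpa using h8)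
  have h10 := step 9 (by norm_num) (by simpa using h9)
  simpa using h10

theorem logp (p : ℕ) (hp : 0 < p) : Real.logb 2 p ≤ (p : ℝ) / 40 + 6 := by
  have hp0 : (0 : ℝ) < p := by exact_mod_cast hp
  have hl2 : (0.6931471803 : ℝ) < Real.log 2 := Real.log_two_gt_d9
  have h1 := Real.log_le_sub_one_of_pos (show (0 : ℝ) < (p : ℝ) / 64 by positivity)
  rw [Real.log_div (by positivity) (by norm_num), show (64 : ℝ) = 2 ^ 6 by norm_num,
    Real.log_pow] at h1
  push_cast at h1
  unfold Real.logb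
  rw [div_le_iff₀ (by linarith)]
  nlinarith

end NUDM

open NUDM in
theorem specNUD : SpecNUD := by
  intro p D x hD h16 h32 hx1 hxp hx
  have hL := ten_le D hD h16
  set L := Real.logb 2 D with hLdef
  have hp : 0 < p := by omega
  have hlp := logp p hp
  apply core D p x hD hx1 hxp
  rw [← hLdef]
  have hp1 : 320 * L ≤ (p : ℝ) := by nlinarith
  have h1 : L * ((x : ℝ) - 1) ≤ (p : ℝ) / 4 + 3 * L := by
    calc L * ((x : ℝ) - 1) ≤ L * ((p : ℝ) / (4 * L) + 3) := by
          apply mul_le_mul_of_nonneg_left _ (by linarith)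
          linarith
      _ = (p : ℝ) / 4 + 3 * L := by
          have : L ≠ 0 := by linarith
          field_simp
  have h2 : (p : ℝ) / (4 * L) ≤ (p : ℝ) / 40 := by
    apply div_le_div_of_nonneg_left (by positivity) (by norm_num)
    linarith
  linarith

end Pool.Agent.Lib.MP50ecf8.LOC
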