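import Pool.Agent.Lib.MP_50ecf8_co.LOC.Spec3

/-!
# Module NUD4 (MP_50ecf8_co): numerical part
-/

set_option autoImplicit false

open Finset
open scoped Classical

namespace Pool.Agent.Lib.MP50ecf8.LOC

namespace NUD4M

theorem log43 : 2 / 5 * Real.log 2 ≤ Real.log (4 / 3) := by
  have h1 : Real.log ((2 : ℝ) ^ 2) ≤ Real.log ((4 / 3 : ℝ) ^ 5) :=
    Real.log_le_log (by norm_num) (by norm_num)
  rw [Real.log_pow, Real.log_pow] at h1
  push_cast at h1
  linarith

theorem core (q m x : ℕ) (hq : 2 ≤ q) (hx1 : 1 ≤ x)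
    (h : 1 + Real.logb 2 q * ((x : ℝ) - 1) + Real.logb 2 ((m : ℝ) + 1) < 2 / 5 * (m : ℝ)) :
    2 * q ^ (x - 1) * (m + 1) * 3 ^ m < 4 ^ m := by
  have hl2 : 0 < Real.log 2 := Real.log_pos (by norm_num)
  have hq0 : (0 : ℝ) < q := by exact_mod_cast (by omega : 0 < q)
  have hx' : ((x - 1 : ℕ) : ℝ) = (x : ℝ) - 1 := by rw [Nat.cast_sub hx1]; norm_num
  have h1 : Real.log 2 + ((x : ℝ) - 1) * Real.log q + Real.log ((m : ℝ) + 1) <
      2 / 5 * Real.log 2 * (m : ℝ) := by
    have h2 := mul_lt_mul_of_pos_right h hl2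
    unfold Real.logb at h2
    have e1 : (1 + Real.log q / Real.log 2 * ((x : ℝ) - 1) +
        Real.log ((m : ℝ) + 1) / Real.log 2) * Real.log 2 =
        Real.log 2 + ((x : ℝ) - 1) * Real.log q + Real.log ((m : ℝ) + 1) := by
      field_simp
    rw [e1] at h2
    linarith
  have hA : 2 * (q : ℝ) ^ (x - 1) * ((m : ℝ) + 1) < (4 / 3 : ℝ) ^ m := by
    by_contra hcon
    rw [not_lt] at hcon
    have h2 := Real.log_le_log (by positivity) hcon
    rw [Real.log_pow, Real.log_mul (by positivity) (by positivity),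
      Real.log_mul (by norm_num) (by positivity), Real.log_pow, hx'] at h2
    have h4 : 2 / 5 * Real.log 2 * (m : ℝ) ≤ (m : ℝ) * Real.log (4 / 3) := by
      calc 2 / 5 * Real.log 2 * (m : ℝ) = (m : ℝ) * (2 / 5 * Real.log 2) := by ring
        _ ≤ _ := mul_le_mul_of_nonneg_left log43 (Nat.cast_nonneg _)
    linarith
  have h2 : ((2 * q ^ (x - 1) * (m + 1) * 3 ^ m : ℕ) : ℝ) < ((4 ^ m : ℕ) : ℝ) := by
    push_cast
    have h3 : (4 : ℝ) ^ m = (4 / 3 : ℝ) ^ m * 3 ^ m := by
      rw [← mul_pow]; norm_num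
    rw [h3]
    exact mul_lt_mul_of_pos_right hA (by positivity)
  exact_mod_cast h2

/-- `L ≥ 7` -/
theorem seven_le (D : ℕ) (hD : 2 ≤ D) (h : 25 * Real.logb 2 D ≤ (D : ℝ)) :
    7 ≤ Real.logb 2 D := by
  have hD0 : (0 : ℝ) < D := by exact_mod_cast (by omega : 0 < D)
  set L := Real.logb 2 D with hL
  have hDL : (D : ℝ) = (2 : ℝ) ^ L := by
    rw [hL, Real.rpow_logb (by norm_num) (by norm_num) hD0]
  have h1 : 1 ≤ L := by
    rw [hL, Real.le_logb_iff_rpow_le (by norm_num) hD0]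
    norm_num
    exact_mod_cast hD
  rw [hDL] at h
  have step : ∀ k : ℕ, (2 : ℝ) ^ (k + 1) < 25 * (k : ℝ) → (k : ℝ) ≤ L → ((k + 1 : ℕ) : ℝ) ≤ L := by
    intro k hk hkL
    by_contra hcon
    rw [not_le] at hcon
    have h2 : (2 : ℝ) ^ L ≤ (2 : ℝ) ^ ((k + 1 : ℕ) : ℝ) :=
      Real.rpow_le_rpow_of_exponent_le (by norm_num) hcon.le
    rw [Real.rpow_natCast] at h2
    linarith
  have h2 := step 1 (by norm_num) (by simpa using h1)
  have h3 := step 2 (by norm_num) (by simpa using h2)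
  have h4 := step 3 (by norm_num) (by simpa using h3)
  have h5 := step 4 (by norm_num) (by simpa using h4)
  have h6 := step 5 (by norm_num) (by simpa using h5)
  have h7 := step 6 (by norm_num) (by simpa using h6)
  simpa using h7

theorem logy (y : ℝ) (hy : 0 < y) : Real.logb 2 y ≤ y / 700 + 10 := by
  have hl2 : (0.6931471803 : ℝ) < Real.log 2 := Real.log_two_gt_d9
  have h1 := Real.log_le_sub_one_of_pos (show (0 : ℝ) < y / 1024 by positivity)
  rw [Real.log_div (by positivity) (by norm_num), show (1024 : ℝ) = 2 ^ 10 by norm_num,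
    Real.log_pow] at h1
  push_cast at h1
  unfold Real.logb
  rw [div_le_iff₀ (by linarith)]
  nlinarith

end NUD4M

open NUD4M in
theorem specNUD4 : SpecNUD4 := by
  intro p D x m hD h25 h600 hx1 hxp hx hmp hm
  have hL := seven_le D hD h25
  set L := Real.logb 2 D with hLdef
  have hL0 : 0 < L := by linarith
  apply core D m x hD hx1
  rw [← hLdef]
  have hp1 : (29400 : ℝ) ≤ (p : ℝ) := by nlinarith
  have hm' : (p : ℝ) ≤ 2 * (m : ℝ) + x := by exact_mod_cast hm
  have hmp' : (m : ℝ) ≤ p := by exact_mod_cast hmp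
  have hlog := logy ((m : ℝ) + 1) (by positivity)
  set v : ℝ := 11 * (p : ℝ) / (60 * L) with hv
  have hv1 : L * v = 11 / 60 * p := by
    rw [hv]; field_simp
  have h1 : L * ((x : ℝ) - 1) ≤ 11 / 60 * (p : ℝ) := by
    calc L * ((x : ℝ) - 1) ≤ L * v := by
          apply mul_le_mul_of_nonneg_left _ hL0.le
          linarith
      _ = 11 / 60 * (p : ℝ) := hv1
  have h2 : v ≤ 11 * (p : ℝ) / 420 := by
    rw [hv]
    apply div_le_div_of_nonneg_left (by positivity) (by norm_num)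
    linarith
  linarith

end Pool.Agent.Lib.MP50ecf8.LOC
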