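import Pool.Agent.Lib.MP_50ecf8_co.LOC.Spec7

/-!
# The last numerical inequality (module NUFX)
-/

set_option autoImplicit false

namespace Pool.Agent.Lib.MP50ecf8.LOC

namespace NUFXM

/-- `2 ^ (2 / 5) ≤ 4 / 3` -/
theorem twoFifth : (2 : ℝ) ^ ((2 : ℝ) / 5) ≤ 4 / 3 := by
  have h5 : ((2 : ℝ) ^ ((2 : ℝ) / 5)) ^ (5 : ℕ) = 4 := by
    rw [← Real.rpow_natCast, ← Real.rpow_mul (by norm_num)]
    norm_num
  refine le_of_pow_le_pow_left₀ (n := 5) (by norm_num) (by norm_num) ?_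
  rw [h5]
  norm_num

/-- `3 ^ m 2 ^ (2 m / 5) ≤ 4 ^ m` -/
theorem three (m : ℕ) : (3 : ℝ) ^ m * (2 : ℝ) ^ ((2 : ℝ) / 5 * m) ≤ 4 ^ m := by
  rw [Real.rpow_mul (by norm_num), Real.rpow_natCast, ← mul_pow]
  refine pow_le_pow_left₀ (by positivity) ?_ m
  have := twoFifth
  linarith

/-- `2 (m + 1) < 2 ^ (m / 11)` -/
theorem small (m : ℝ) (hm : 9000 ≤ m) : 2 * (m + 1) < (2 : ℝ) ^ (m / 11) := by
  have h1 : (2 : ℝ) ^ (m / 11) = Real.exp (Real.log 2 * (m / 11)) :=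
    Real.rpow_def_of_pos (by norm_num) _
  have hl : (0.69 : ℝ) < Real.log 2 := lt_trans (by norm_num) Real.log_two_gt_d9
  have h2 : m / 16 ≤ Real.log 2 * (m / 11) := by nlinarith
  have h3 : Real.exp (m / 16) ≤ Real.exp (Real.log 2 * (m / 11)) := Real.exp_le_exp.2 h2
  have h4 := Real.quadratic_le_exp_of_nonneg (x := m / 16) (by linarith)
  rw [h1]
  nlinarith

end NUFXM

open NUFXM in
theorem specNUFX : SpecNUFX := by
  intro p D x m hD hD2 hp hx hxp hmp hm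
  have hD0 : (2 : ℝ) ≤ D := by exact_mod_cast hD
  have hL1 : 1 ≤ Real.logb 2 D := by
    rw [Real.le_logb_iff_rpow_le (by norm_num) (by linarith)]
    simpa using hD0
  have hp' : (10000 : ℝ) ≤ p := by nlinarith
  have hm' : (9 : ℝ) * p ≤ 10 * m := by exact_mod_cast hm
  have hm0 : (9000 : ℝ) ≤ m := by linarith
  have h1 : (D : ℝ) ^ (x - 1) ≤ (2 : ℝ) ^ ((p : ℝ) / 5) := by
    calc (D : ℝ) ^ (x - 1) ≤ (D : ℝ) ^ x := pow_le_pow_right₀ (by linarith) (Nat.sub_le x 1)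
      _ = (2 : ℝ) ^ (Real.logb 2 D * x) := by
        rw [Real.rpow_mul (by norm_num), Real.rpow_logb (by norm_num) (by norm_num) (by linarith),
          Real.rpow_natCast]
      _ ≤ (2 : ℝ) ^ ((p : ℝ) / 5) := by
        refine Real.rpow_le_rpow_of_exponent_le (by norm_num) ?_
        rw [le_div_iff₀ (by linarith)] at hxp
        linarith
  have h2 : (2 : ℝ) ^ ((p : ℝ) / 5) * (2 : ℝ) ^ ((p : ℝ) * (13 / 180)) ≤
      (2 : ℝ) ^ ((49 : ℝ) / 162 * m) := by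
    rw [← Real.rpow_add (by norm_num)]
    refine Real.rpow_le_rpow_of_exponent_le (by norm_num) ?_
    linarith
  have h3 : 2 * ((m : ℝ) + 1) < (2 : ℝ) ^ ((79 : ℝ) / 810 * m) := by
    refine lt_of_lt_of_le (small m hm0) (Real.rpow_le_rpow_of_exponent_le (by norm_num) ?_)
    linarith
  have h4 : (2 : ℝ) ^ ((49 : ℝ) / 162 * m) * (2 : ℝ) ^ ((79 : ℝ) / 810 * m) =
      (2 : ℝ) ^ ((2 : ℝ) / 5 * m) := by
    rw [← Real.rpow_add (by norm_num)]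
    congr 1
    ring
  have hA : (0 : ℝ) < (2 : ℝ) ^ ((p : ℝ) * (13 / 180)) := Real.rpow_pos_of_pos (by norm_num) _
  have hB : (0 : ℝ) < (2 : ℝ) ^ ((49 : ℝ) / 162 * m) := Real.rpow_pos_of_pos (by norm_num) _
  have h3m : (0 : ℝ) < (3 : ℝ) ^ m := by positivity
  calc 2 * (D : ℝ) ^ (x - 1) * (2 : ℝ) ^ ((p : ℝ) * (13 / 180)) * (m + 1) * 3 ^ m
      = ((D : ℝ) ^ (x - 1) * (2 : ℝ) ^ ((p : ℝ) * (13 / 180))) * (2 * ((m : ℝ) + 1)) * 3 ^ m := by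
        ring
    _ ≤ ((2 : ℝ) ^ ((p : ℝ) / 5) * (2 : ℝ) ^ ((p : ℝ) * (13 / 180))) * (2 * ((m : ℝ) + 1)) *
          3 ^ m := by
        gcongr
    _ ≤ (2 : ℝ) ^ ((49 : ℝ) / 162 * m) * (2 * ((m : ℝ) + 1)) * 3 ^ m := by
        gcongr
    _ < (2 : ℝ) ^ ((49 : ℝ) / 162 * m) * (2 : ℝ) ^ ((79 : ℝ) / 810 * m) * 3 ^ m := by
        refine mul_lt_mul_of_pos_right (mul_lt_mul_of_pos_left h3 hB) h3m
    _ = (3 : ℝ) ^ m * (2 : ℝ) ^ ((2 : ℝ) / 5 * m) := by rw [h4, mul_comm]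
    _ ≤ 4 ^ m := three m

end Pool.Agent.Lib.MP50ecf8.LOC
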