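import Pool.Agent.Lib.MP_50ecf8_co.LOC.Spec9

/-!
# The last numerical inequality, classes of twins of any sizes (module NUFZ)
-/

set_option autoImplicit false

namespace Pool.Agent.Lib.MP50ecf8.LOC

namespace NUFZM

/-- `2 ^ (8 / 25) ≤ 5 / 4` -/
theorem root25 : (2 : ℝ) ^ ((8 : ℝ) / 25) ≤ 5 / 4 := by
  have h5 : ((2 : ℝ) ^ ((8 : ℝ) / 25)) ^ (25 : ℕ) = 256 := by
    rw [← Real.rpow_natCast, ← Real.rpow_mul (by norm_num)]
    norm_num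
  refine le_of_pow_le_pow_left₀ (n := 25) (by norm_num) (by norm_num) ?_
  rw [h5]
  norm_num

/-- `4 ^ m 2 ^ (8 m / 25) ≤ 5 ^ m` -/
theorem four (m : ℕ) : (4 : ℝ) ^ m * (2 : ℝ) ^ ((8 : ℝ) / 25 * m) ≤ 5 ^ m := by
  rw [Real.rpow_mul (by norm_num), Real.rpow_natCast, ← mul_pow]
  refine pow_le_pow_left₀ (by positivity) ?_ m
  have := root25
  linarith

/-- `2 (m + 1) < 2 ^ (m / 12)` -/
theorem small (m : ℝ) (hm : 9000 ≤ m) : 2 * (m + 1) < (2 : ℝ) ^ (m / 12) := by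
  have h1 : (2 : ℝ) ^ (m / 12) = Real.exp (Real.log 2 * (m / 12)) :=
    Real.rpow_def_of_pos (by norm_num) _
  have hl : (0.69 : ℝ) < Real.log 2 := lt_trans (by norm_num) Real.log_two_gt_d9
  have h2 : m / 18 ≤ Real.log 2 * (m / 12) := by nlinarith
  have h3 : Real.exp (m / 18) ≤ Real.exp (Real.log 2 * (m / 12)) := Real.exp_le_exp.2 h2
  have h4 := Real.quadratic_le_exp_of_nonneg (x := m / 18) (by linarith)
  rw [h1]
  nlinarith

end NUFZM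

open NUFZM in
theorem specNUFZ : SpecNUFZ := by
  intro p D m hD hD2 hp hmp hm
  have hD0 : (2 : ℝ) ≤ D := by exact_mod_cast hD
  have hL1 : 1 ≤ Real.logb 2 D := by
    rw [Real.le_logb_iff_rpow_le (by norm_num) (by linarith)]
    simpa using hD0
  have hp' : (100000 : ℝ) ≤ p := by nlinarith
  have hm' : (48 : ℝ) * p ≤ 100 * m := by exact_mod_cast hm
  have hm0 : (9000 : ℝ) ≤ m := by linarith
  have h2 : (2 : ℝ) ^ ((p : ℝ) * (112 / 1000)) ≤ (2 : ℝ) ^ ((112 : ℝ) / 480 * m) := by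
    refine Real.rpow_le_rpow_of_exponent_le (by norm_num) ?_
    linarith
  have h3 : 2 * ((m : ℝ) + 1) < (2 : ℝ) ^ ((13 : ℝ) / 150 * m) := by
    refine lt_of_lt_of_le (small m hm0) (Real.rpow_le_rpow_of_exponent_le (by norm_num) ?_)
    linarith
  have h4 : (2 : ℝ) ^ ((112 : ℝ) / 480 * m) * (2 : ℝ) ^ ((13 : ℝ) / 150 * m) =
      (2 : ℝ) ^ ((8 : ℝ) / 25 * m) := by
    rw [← Real.rpow_add (by norm_num)]
    congr 1
    ring
  have hB : (0 : ℝ) < (2 : ℝ) ^ ((112 : ℝ) / 480 * m) := Real.rpow_pos_of_pos (by norm_num) _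
  have h3m : (0 : ℝ) < (4 : ℝ) ^ m := by positivity
  calc 2 * (2 : ℝ) ^ ((p : ℝ) * (112 / 1000)) * (m + 1) * 4 ^ m
      = (2 : ℝ) ^ ((p : ℝ) * (112 / 1000)) * (2 * ((m : ℝ) + 1)) * 4 ^ m := by
        ring
    _ ≤ (2 : ℝ) ^ ((112 : ℝ) / 480 * m) * (2 * ((m : ℝ) + 1)) * 4 ^ m := by
        gcongr
    _ < (2 : ℝ) ^ ((112 : ℝ) / 480 * m) * (2 : ℝ) ^ ((13 : ℝ) / 150 * m) * 4 ^ m := by
        refine mul_lt_mul_of_pos_right (mul_lt_mul_of_pos_left h3 hB) h3m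
    _ = (4 : ℝ) ^ m * (2 : ℝ) ^ ((8 : ℝ) / 25 * m) := by rw [h4, mul_comm]
    _ ≤ 5 ^ m := four m

end Pool.Agent.Lib.MP50ecf8.LOC
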