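import Pool.Agent.Lib.MP_50ecf8_co.LOC.Spec4

/-!
# MP_50ecf8_co, LOC, NUM1: numerical (helper94)
-/

set_option autoImplicit false

namespace Pool.Agent.Lib.MP50ecf8.LOC

theorem specNUM1 : SpecNUM1 := by
  intro p D hD hDp
  have hD' : (2 : ℝ) ≤ D := by exact_mod_cast hD
  have hp : (D : ℝ) ≤ p := by exact_mod_cast hDp
  set L : ℝ := Real.logb 2 D with hL
  have hL1 : 1 ≤ L := by
    rw [hL, Real.le_logb_iff_rpow_le (by norm_num) (by linarith)]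
    simpa using hD'
  have hr : (200 * L ^ 2) ^ ((1 : ℝ) / 3) ≤ 6 * L := by
    have h1 : (200 * L ^ 2) ≤ (6 * L) ^ (3 : ℕ) := by
      nlinarith [sq_nonneg L, mul_nonneg (sq_nonneg L) (by linarith : (0 : ℝ) ≤ L - 1)]
    calc (200 * L ^ 2) ^ ((1 : ℝ) / 3) ≤ ((6 * L) ^ (3 : ℕ)) ^ ((1 : ℝ) / 3) :=
          Real.rpow_le_rpow (by positivity) h1 (by norm_num)
      _ = 6 * L := by
          rw [← Real.rpow_natCast, ← Real.rpow_mul (by linarith)]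
          norm_num
  have h2 : (200 * L ^ 2) ^ ((1 : ℝ) / 3) / 20 ≤ L - 1 / 2 := by linarith
  have h3 : (2 : ℝ) ^ ((200 * L ^ 2) ^ ((1 : ℝ) / 3) / 20) ≤ (2 : ℝ) ^ (L - 1 / 2) :=
    Real.rpow_le_rpow_of_exponent_le (by norm_num) h2
  have h4 : (2 : ℝ) ^ (L - 1 / 2) = D / Real.sqrt 2 := by
    rw [Real.rpow_sub (by norm_num), hL, Real.rpow_logb (by norm_num) (by norm_num) (by linarith),
      Real.sqrt_eq_rpow]
  have h5 : (7 / 5 : ℝ) ≤ Real.sqrt 2 := by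
    rw [show (7 / 5 : ℝ) = Real.sqrt ((7 / 5) ^ 2) by rw [Real.sqrt_sq (by norm_num)]]
    exact Real.sqrt_le_sqrt (by norm_num)
  have h6 : (D : ℝ) / Real.sqrt 2 ≤ D / (7 / 5) :=
    div_le_div_of_nonneg_left (by linarith) (by norm_num) h5
  rw [h4] at h3
  linarith

end Pool.Agent.Lib.MP50ecf8.LOC
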