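import Pool.Agent.Lib.MP_50ecf8_co.LOC.Spec3

/-!
# Module NUM4 (MP_50ecf8_co): numerical part
-/

set_option autoImplicit false

open Finset
open scoped Classical

namespace Pool.Agent.Lib.MP50ecf8.LOC

namespace NUM4M

/-- `L ≥ 7` -/
theorem seven_le (D : ℕ) (hD : 2 ≤ D) (h : 25 * Real.logb 2 D ≤ (D : ℝ)) :
    7 ≤ Real.logb 2 D := by
  have hD0 : (0 : ℝ) < D := by exact_mod_cast (by omega : 0 < D)
  set L := Real.logb 2 D with hL
  have hDL : (D : ℝ) = (2 : ℝ) ^ L := by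
    rw [hL, Real.rpow_logb (by norm_num) (by norm_num) hD0]
  have h1 : 1 ≤ L := by
    rw [hL, Real.le_logb_iff_rpow_le (by norm_num) hD0]
    norm_num
    exact_mod_cast hD
  rw [hDL] at h
  have step : ∀ k : ℕ, (2 : ℝ) ^ (k + 1) < 25 * (k : ℝ) → (k : ℝ) ≤ L → ((k + 1 : ℕ) : ℝ) ≤ L := by
    intro k hk hkL
    by_contra hcon
    rw [not_le] at hcon
    have h2 : (2 : ℝ) ^ L ≤ (2 : ℝ) ^ ((k + 1 : ℕ) : ℝ) :=
      Real.rpow_le_rpow_of_exponent_le (by norm_num) hcon.le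
    rw [Real.rpow_natCast] at h2
    linarith
  have h2 := step 1 (by norm_num) (by simpa using h1)
  have h3 := step 2 (by norm_num) (by simpa using h2)
  have h4 := step 3 (by norm_num) (by simpa using h3)
  have h5 := step 4 (by norm_num) (by simpa using h4)
  have h6 := step 5 (by norm_num) (by simpa using h5)
  have h7 := step 6 (by norm_num) (by simpa using h6)
  simpa using h7

theorem decay (n : ℕ) (hn : 175 ≤ n) : 12 * (n : ℝ) ^ 2 * (9 / 10 : ℝ) ^ (n - 1) ≤ 1 := by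
  induction n, hn using Nat.le_induction with
  | base => norm_num
  | succ n hn ih =>
    have h1 : n + 1 - 1 = (n - 1) + 1 := by omega
    rw [h1, pow_succ]
    have hn' : (175 : ℝ) ≤ n := by exact_mod_cast hn
    have h2 : ((n + 1 : ℕ) : ℝ) ^ 2 * (9 / 10) ≤ (n : ℝ) ^ 2 := by
      push_cast
      nlinarith
    have h3 : (0 : ℝ) ≤ (9 / 10 : ℝ) ^ (n - 1) := by positivity
    calc 12 * ((n + 1 : ℕ) : ℝ) ^ 2 * ((9 / 10 : ℝ) ^ (n - 1) * (9 / 10))
        = 12 * (9 / 10 : ℝ) ^ (n - 1) * (((n + 1 : ℕ) : ℝ) ^ 2 * (9 / 10)) := by ring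
      _ ≤ 12 * (9 / 10 : ℝ) ^ (n - 1) * (n : ℝ) ^ 2 :=
          mul_le_mul_of_nonneg_left h2 (by positivity)
      _ = 12 * (n : ℝ) ^ 2 * (9 / 10 : ℝ) ^ (n - 1) := by ring
      _ ≤ 1 := ih

theorem exp_small : Real.exp (-(2 / 5 : ℝ)) ≤ 68 / 100 := by
  have h1 := Real.quadratic_le_exp_of_nonneg (show (0 : ℝ) ≤ 2 / 5 by norm_num)
  rw [Real.exp_neg]
  rw [inv_le_comm₀ (Real.exp_pos _) (by norm_num)]
  linarith

end NUM4M

open NUM4M in
theorem specNUM4 : SpecNUM4 := by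
  intro D hD h25
  have hL := seven_le D hD h25
  set L := Real.logb 2 D with hLdef
  have hL0 : 0 < L := by linarith
  set d : ℕ := ⌈25 * L⌉₊ with hd
  have hd1 : 25 * L ≤ (d : ℝ) := Nat.le_ceil _
  have hd2 : (175 : ℕ) ≤ d := by
    have : (175 : ℝ) ≤ (d : ℝ) := by linarith
    exact_mod_cast this
  set N : ℕ := ⌈30 * L⌉₊ with hN
  have hN1 : 30 * L ≤ (N : ℝ) := Nat.le_ceil _
  have hN2 : (N : ℝ) < 30 * L + 1 := Nat.ceil_lt_add_one (by positivity)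
  have hN0 : 1 ≤ N := by
    have : (1 : ℝ) ≤ (N : ℝ) := by linarith
    exact_mod_cast this
  refine ⟨N - 1, d, by omega, fun n hn => Nat.ceil_le.2 hn, ?_⟩
  have hK : ((N - 1 : ℕ) : ℝ) + 1 = N := by
    rw [Nat.cast_sub hN0]; simp
  rw [hK]
  set h : ℕ := (d - 1) / 2 with hh
  have hh1 : d ≤ 2 * h + 2 := by omega
  have hh2 : (d : ℝ) ≤ 2 * (h : ℝ) + 2 := by exact_mod_cast hh1
  have hNpos : (0 : ℝ) < N := by linarith
  set q : ℝ := 1 / (N : ℝ) with hq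
  have hq0 : 0 ≤ q := by positivity
  have hq1 : q ≤ 1 := by
    rw [hq, div_le_one hNpos]
    exact_mod_cast hN0
  have hqh : 2 / 5 ≤ q * h := by
    rw [hq, div_mul_eq_mul_div, one_mul, le_div_iff₀ hNpos]
    nlinarith
  have hpow0 : 0 ≤ (1 - q) ^ h := pow_nonneg (by linarith) _
  have hpow : (1 - q) ^ h ≤ 68 / 100 := by
    have h1 : 1 - q ≤ Real.exp (-q) := Real.one_sub_le_exp_neg q
    calc (1 - q) ^ h ≤ (Real.exp (-q)) ^ h := pow_le_pow_left₀ (by linarith) h1 h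
      _ = Real.exp (-(q * h)) := by
          rw [← Real.exp_nat_mul]; congr 1; ring
      _ ≤ Real.exp (-(2 / 5)) := Real.exp_le_exp.2 (by linarith)
      _ ≤ _ := exp_small
  have hρ : 1 - (1 - (1 - q) ^ h) ^ 2 ≤ 9 / 10 := by nlinarith
  have hρ0 : 0 ≤ 1 - (1 - (1 - q) ^ h) ^ 2 := by nlinarith
  have hp2 : (1 - (1 - (1 - q) ^ h) ^ 2) ^ (d - 1) ≤ (9 / 10 : ℝ) ^ (d - 1) :=
    pow_le_pow_left₀ hρ0 hρ _
  have hdec := decay d hd2
  have h3 : (d : ℝ) * (1 - (1 - (1 - q) ^ h) ^ 2) ^ (d - 1) ≤ 1 / (300 * L) := by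
    rw [le_div_iff₀ (by positivity)]
    have hnn : 0 ≤ (9 / 10 : ℝ) ^ (d - 1) := by positivity
    calc (d : ℝ) * (1 - (1 - (1 - q) ^ h) ^ 2) ^ (d - 1) * (300 * L)
        ≤ (d : ℝ) * (9 / 10 : ℝ) ^ (d - 1) * (12 * d) := by
          apply mul_le_mul _ (by linarith) (by positivity) (by positivity)
          exact mul_le_mul_of_nonneg_left hp2 (Nat.cast_nonneg _)
      _ = 12 * (d : ℝ) ^ 2 * (9 / 10 : ℝ) ^ (d - 1) := by ring
      _ ≤ 1 := hdec
  have h4 : q ≤ 1 / (30 * L) := by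
    rw [hq]
    exact one_div_le_one_div_of_le (by positivity) hN1
  have h5 : (11 : ℝ) / (300 * L) = 1 / (30 * L) + 1 / (300 * L) := by
    field_simp; norm_num
  rw [h5]
  exact add_le_add h4 h3

end Pool.Agent.Lib.MP50ecf8.LOC
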