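import Pool.Agent.Lib.MP_50ecf8_co.LOC.Spec10

/-!
# Module NUMN: `MM D < p / 4`
-/

set_option autoImplicit false

namespace Pool.Agent.Lib.MP50ecf8.LOC

namespace NUMNM

lemma aux {l : ℝ} (hl : 12 ≤ l) : (100000 * l) ^ ((1 : ℝ) / 3) < 20 * (l - 2) := by
  have h0 : 0 ≤ l - 12 := by linarith
  have h1 : 100000 * l < (20 * (l - 2)) ^ (3 : ℕ) := by
    have h2 : (10 : ℝ) ^ 2 ≤ (l - 2) ^ 2 := by
      apply pow_le_pow_left₀ (by norm_num)
      linarith
    have h3 : (10 : ℝ) ^ 2 * (l - 2) ≤ (l - 2) ^ 2 * (l - 2) :=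
      mul_le_mul_of_nonneg_right h2 (by linarith)
    have h4 : (20 * (l - 2)) ^ (3 : ℕ) = 8000 * ((l - 2) ^ 2 * (l - 2)) := by ring
    rw [h4]
    linarith
  have h2 : (100000 * l) ^ ((1 : ℝ) / 3) < ((20 * (l - 2)) ^ (3 : ℕ)) ^ ((1 : ℝ) / 3) :=
    Real.rpow_lt_rpow (by linarith) h1 (by norm_num)
  have h3 : ((20 * (l - 2)) ^ (3 : ℕ)) ^ ((1 : ℝ) / 3) = 20 * (l - 2) := by
    rw [← Real.rpow_natCast, ← Real.rpow_mul (by linarith)]
    norm_num
  rw [h3] at h2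
  exact h2

end NUMNM

theorem specNUMN : SpecNUMN := by
  intro p D hD hDp hp
  have hD' : (2 : ℝ) ≤ D := by exact_mod_cast hD
  have hDp' : (D : ℝ) ≤ p := by exact_mod_cast hDp
  have hp' : (8000 : ℝ) ≤ p := by exact_mod_cast hp
  have hp0 : (0 : ℝ) < p := by linarith
  have hL0 : 0 ≤ Real.logb 2 D := Real.logb_nonneg (by norm_num) (by linarith)
  have hLl : Real.logb 2 D ≤ Real.logb 2 p :=
    Real.logb_le_logb_of_le (by norm_num) (by linarith) hDp'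
  have hl : 12 ≤ Real.logb 2 p := by
    rw [Real.le_logb_iff_rpow_le (by norm_num) hp0]
    have : (2 : ℝ) ^ (12 : ℝ) = 4096 := by
      rw [show (12 : ℝ) = ((12 : ℕ) : ℝ) by norm_num, Real.rpow_natCast]
      norm_num
    rw [this]
    linarith
  have h1 : (100000 * Real.logb 2 D) ^ ((1 : ℝ) / 3) ≤ (100000 * Real.logb 2 p) ^ ((1 : ℝ) / 3) :=
    Real.rpow_le_rpow (by positivity) (by linarith) (by norm_num)
  have h2 := NUMNM.aux hl
  have h3 : (100000 * Real.logb 2 D) ^ ((1 : ℝ) / 3) / 20 < Real.logb 2 p - 2 := by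
    rw [div_lt_iff₀ (by norm_num)]
    linarith
  have h4 : MM D < (2 : ℝ) ^ (Real.logb 2 p - 2) := by
    unfold MM
    exact Real.rpow_lt_rpow_of_exponent_lt (by norm_num) h3
  have h5 : (2 : ℝ) ^ (Real.logb 2 p - 2) = (p : ℝ) / 4 := by
    rw [Real.rpow_sub (by norm_num), Real.rpow_logb (by norm_num) (by norm_num) hp0]
    norm_num
  rw [h5] at h4
  exact h4

end Pool.Agent.Lib.MP50ecf8.LOC
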