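import Pool.Agent.Lib.MP_50ecf8_co.LOC.Spec8

set_option autoImplicit false

namespace Pool.Agent.Lib.MP50ecf8.LOC

namespace NUNYM

theorem sixteen (D : ℕ) (hD : 2 ≤ D) (h5 : 5000 * Real.logb 2 D ≤ (D : ℝ)) :
    (16 : ℝ) ≤ Real.logb 2 D := by
  have hDr : (2 : ℝ) ≤ D := by exact_mod_cast hD
  have key : ∀ k : ℕ, (2 : ℝ) ^ k ≤ D → (k : ℝ) ≤ Real.logb 2 D := by
    intro k hk
    rw [Real.le_logb_iff_rpow_le one_lt_two (by linarith)]
    rwa [Real.rpow_natCast]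
  have h1 : (1 : ℝ) ≤ Real.logb 2 D := by
    have := key 1 (by simpa using hDr)
    simpa using this
  have h12 : (12 : ℝ) ≤ Real.logb 2 D := by
    have := key 12 (le_trans (by norm_num : (2 : ℝ) ^ 12 ≤ 5000) (by linarith))
    simpa using this
  have h15 : (15 : ℝ) ≤ Real.logb 2 D := by
    have := key 15 (le_trans (by norm_num : (2 : ℝ) ^ 15 ≤ 60000) (by linarith))
    simpa using this
  have := key 16 (le_trans (by norm_num : (2 : ℝ) ^ 16 ≤ 75000) (by linarith))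
  simpa using this

theorem half : (2 : ℝ) ≤ (4 / 3 : ℝ) ^ (5 / 2 : ℝ) := by
  have h0 : (0 : ℝ) ≤ (4 / 3 : ℝ) ^ (5 / 2 : ℝ) := Real.rpow_nonneg (by norm_num) _
  have h : (2 : ℝ) ^ 2 ≤ ((4 / 3 : ℝ) ^ (5 / 2 : ℝ)) ^ 2 := by
    rw [← Real.rpow_natCast ((4 / 3 : ℝ) ^ (5 / 2 : ℝ)) 2, ← Real.rpow_mul (by norm_num)]
    have e : (5 / 2 : ℝ) * ((2 : ℕ) : ℝ) = ((5 : ℕ) : ℝ) := by norm_num
    rw [e, Real.rpow_natCast]
    norm_num
  exact (sq_le_sq₀ (by norm_num) h0).1 h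

theorem big (u : ℝ) (hu : 0 ≤ u) (N : ℕ) (hN : 31 + 5 / 2 * u ≤ (N : ℝ)) :
    6000 * (2 : ℝ) ^ u ≤ (4 / 3 : ℝ) ^ N := by
  have h1 : (4 / 3 : ℝ) ^ (31 + 5 / 2 * u) ≤ (4 / 3 : ℝ) ^ N := by
    rw [← Real.rpow_natCast (4 / 3 : ℝ) N]
    exact Real.rpow_le_rpow_of_exponent_le (by norm_num) hN
  refine le_trans ?_ h1
  rw [Real.rpow_add (by norm_num), Real.rpow_mul (by norm_num)]
  have h2 : (6000 : ℝ) ≤ (4 / 3 : ℝ) ^ (31 : ℝ) := by
    have e : (31 : ℝ) = ((31 : ℕ) : ℝ) := by norm_num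
    rw [e, Real.rpow_natCast]
    norm_num
  have h3 : (2 : ℝ) ^ u ≤ ((4 / 3 : ℝ) ^ (5 / 2 : ℝ)) ^ u :=
    Real.rpow_le_rpow (by norm_num) half hu
  exact mul_le_mul h2 h3 (Real.rpow_nonneg (by norm_num) _) (by linarith)

theorem num (u : ℝ) (hu : 4 ≤ u) :
    (32 + 5 / 2 * u) * (25 + 3 * u) * 600 ≤ 100000 * (2 : ℝ) ^ u := by
  obtain ⟨x, rfl⟩ : ∃ x, u = 4 + x := ⟨u - 4, by ring⟩
  have hx : 0 ≤ x := by linarith
  have h1 : (2 : ℝ) ^ (4 + x) = 16 * ((2 : ℝ) ^ (x / 2)) ^ 2 := by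
    rw [← Real.rpow_natCast ((2 : ℝ) ^ (x / 2)) 2, ← Real.rpow_mul (by norm_num),
      Real.rpow_add (by norm_num)]
    have e : x / 2 * ((2 : ℕ) : ℝ) = x := by push_cast; ring
    have e4 : (2 : ℝ) ^ (4 : ℝ) = 16 := by
      have e : (4 : ℝ) = ((4 : ℕ) : ℝ) := by norm_num
      rw [e, Real.rpow_natCast]; norm_num
    rw [e, e4]
  have h2 : 1 + 17 / 50 * x ≤ (2 : ℝ) ^ (x / 2) := by
    rw [Real.rpow_def_of_pos (by norm_num)]
    have h3 := Real.add_one_le_exp (Real.log 2 * (x / 2))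
    have h4 := Real.log_two_gt_d9
    nlinarith
  have h5 : (1 + 17 / 50 * x) ^ 2 ≤ ((2 : ℝ) ^ (x / 2)) ^ 2 :=
    pow_le_pow_left₀ (by positivity) h2 2
  rw [h1]
  nlinarith

end NUNYM

open NUNYM in
theorem specNUNY : SpecNUNY := by
  intro p D hD h5 h10
  have hD1 : (0 : ℝ) ≤ Real.logb 2 D :=
    Real.logb_nonneg one_lt_two (by exact_mod_cast (by omega : 1 ≤ D))
  have h16 := sixteen D hD (by linarith)
  set L := Real.logb 2 D with hL
  have hL0 : 0 < L := by linarith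
  have hp0 : (0 : ℝ) < p := by linarith
  obtain ⟨u, hu⟩ : ∃ u, u = Real.logb 2 L := ⟨_, rfl⟩
  have hLu : (2 : ℝ) ^ u = L := by
    rw [hu]; exact Real.rpow_logb (by norm_num) (by norm_num) hL0
  have hu4 : 4 ≤ u := by
    rw [hu, Real.le_logb_iff_rpow_le one_lt_two hL0]
    have e : (4 : ℝ) = ((4 : ℕ) : ℝ) := by norm_num
    rw [e, Real.rpow_natCast]; norm_num; linarith
  have huL : u ≤ L := by
    rw [← hLu, Real.rpow_def_of_pos (by norm_num)]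
    have h1 : (1 + Real.log 2 * u / 2) ≤ Real.exp (Real.log 2 * u / 2) := by
      have := Real.add_one_le_exp (Real.log 2 * u / 2)
      linarith
    have h2 : Real.exp (Real.log 2 * u) = Real.exp (Real.log 2 * u / 2) ^ 2 := by
      rw [← Real.exp_nat_mul]; congr 1; push_cast; ring
    rw [h2]
    have h4 := Real.log_two_gt_d9
    have h5 : 1 + 17 / 50 * u ≤ Real.exp (Real.log 2 * u / 2) := by nlinarith
    have h6 : (1 + 17 / 50 * u) ^ 2 ≤ Real.exp (Real.log 2 * u / 2) ^ 2 :=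
      pow_le_pow_left₀ (by positivity) h5 2
    nlinarith
  have hN1 : 31 + 5 / 2 * u ≤ (⌈31 + 5 / 2 * u⌉₊ : ℝ) := Nat.le_ceil _
  have hN2 : (⌈31 + 5 / 2 * u⌉₊ : ℝ) < 32 + 5 / 2 * u := by
    have := Nat.ceil_lt_add_one (a := 31 + 5 / 2 * u) (by linarith)
    linarith
  generalize ⌈31 + 5 / 2 * u⌉₊ = N at hN1 hN2
  refine ⟨N, ?_, ?_, ?_⟩
  · have h1 := big u (by linarith) N hN1
    rw [hLu] at h1
    have h2 : (3 / 4 : ℝ) ^ N = ((4 / 3 : ℝ) ^ N)⁻¹ := by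
      rw [← inv_pow]; norm_num
    rw [h2, le_div_iff₀ (by positivity)]
    have h3 : 0 < (4 / 3 : ℝ) ^ N := by positivity
    have h4 : 3 * (p : ℝ) * ((4 / 3 : ℝ) ^ N)⁻¹ * (2000 * L)
        = p * (6000 * L) * ((4 / 3 : ℝ) ^ N)⁻¹ := by ring
    rw [h4]
    calc (p : ℝ) * (6000 * L) * ((4 / 3 : ℝ) ^ N)⁻¹
        ≤ p * (4 / 3 : ℝ) ^ N * ((4 / 3 : ℝ) ^ N)⁻¹ := by gcongr
      _ = p := by field_simp
  · have e1 : (p : ℝ) / (6 * p / (100000 * L)) = 100000 * L / 6 := by field_simp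
    rw [e1]
    have hm : ((⌈1000 * L ^ 2⌉₊ : ℕ) : ℝ) ≤ 1000 * L ^ 2 + 1 :=
      (Nat.ceil_lt_add_one (by positivity)).le
    have hb : ((2 * ⌈1000 * L ^ 2⌉₊ : ℕ) : ℝ) * (1 + 100000 * L / 6) ≤ 33350667 * L ^ 3 := by
      push_cast
      have h1 : 2 * ((⌈1000 * L ^ 2⌉₊ : ℕ) : ℝ) ≤ 2001 * L ^ 2 := by nlinarith
      have h2 : 1 + 100000 * L / 6 ≤ 16667 * L := by linarith
      calc 2 * ((⌈1000 * L ^ 2⌉₊ : ℕ) : ℝ) * (1 + 100000 * L / 6)
          ≤ (2001 * L ^ 2) * (16667 * L) := by gcongr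
        _ = 33350667 * L ^ 3 := by ring
    have hc : (33350667 : ℝ) ≤ (2 : ℝ) ^ (25 : ℝ) := by
      have e : (25 : ℝ) = ((25 : ℕ) : ℝ) := by norm_num
      rw [e, Real.rpow_natCast]
      norm_num
    have hL3 : L ^ 3 = (2 : ℝ) ^ (3 * u) := by
      rw [mul_comm, Real.rpow_mul (by norm_num), hLu]
      have e : (3 : ℝ) = ((3 : ℕ) : ℝ) := by norm_num
      rw [e, Real.rpow_natCast]
    have hB : ((2 * ⌈1000 * L ^ 2⌉₊ : ℕ) : ℝ) * (1 + 100000 * L / 6)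
        ≤ (2 : ℝ) ^ (25 + 3 * u) := by
      refine hb.trans ?_
      rw [Real.rpow_add (by norm_num), ← hL3]
      gcongr
    have hE0 : 0 ≤ 6 * (p : ℝ) / (100000 * L) := by positivity
    calc ((((2 * ⌈1000 * L ^ 2⌉₊ : ℕ) : ℝ) * (1 + 100000 * L / 6)) ^
          (6 * (p : ℝ) / (100000 * L))) ^ N
        ≤ (((2 : ℝ) ^ (25 + 3 * u)) ^ (6 * (p : ℝ) / (100000 * L))) ^ N := by
          gcongr
      _ = (2 : ℝ) ^ ((25 + 3 * u) * (6 * (p : ℝ) / (100000 * L)) * N) := by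
          rw [← Real.rpow_mul (by norm_num), ← Real.rpow_natCast, ← Real.rpow_mul (by norm_num)]
      _ ≤ (2 : ℝ) ^ ((p : ℝ) / 100) := by
          apply Real.rpow_le_rpow_of_exponent_le (by norm_num)
          have h1 : (25 + 3 * u) * (6 * (p : ℝ) / (100000 * L)) * N
              ≤ (25 + 3 * u) * (6 * (p : ℝ) / (100000 * L)) * (32 + 5 / 2 * u) := by
            gcongr
          refine h1.trans ?_
          have h2 := num u hu4
          rw [hLu] at h2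
          have h3 : (25 + 3 * u) * (6 * (p : ℝ) / (100000 * L)) * (32 + 5 / 2 * u)
              = ((32 + 5 / 2 * u) * (25 + 3 * u) * 600) * (p / 100) / (100000 * L) := by
            field_simp
            ring
          rw [h3, div_le_iff₀ (by positivity)]
          have h4 : 0 ≤ (p : ℝ) / 100 := by positivity
          nlinarith
  · have h1 : (N : ℝ) * (6 * p / (100000 * L)) = p * (6 * N) / (100000 * L) := by ring
    rw [h1, div_le_div_iff₀ (by positivity) (by norm_num)]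
    have h2 : 6 * (N : ℝ) ≤ 100 * L := by nlinarith
    have h3 : (p : ℝ) * (6 * N) ≤ p * (100 * L) := by gcongr
    linarith

end Pool.Agent.Lib.MP50ecf8.LOC
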