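import Pool.Agent.Lib.MP_50ecf8_co.LOC.Spec10
import Pool.Agent.Lib.MP_50ecf8_co.LOC.NUNY

set_option autoImplicit false

namespace Pool.Agent.Lib.MP50ecf8.LOC

namespace NUNNM

/-- with `y = 2 ^ (x / 2)`, `u = 4 + x`: `L = 16 y ^ 2` and `x ≤ 50 / 17 (y - 1)` -/
theorem lower (x : ℝ) (hx : 0 ≤ x) : 1 + 17 / 50 * x ≤ (2 : ℝ) ^ (x / 2) := by
  rw [Real.rpow_def_of_pos (by norm_num)]
  have h3 := Real.add_one_le_exp (Real.log 2 * (x / 2))
  have h4 := Real.log_two_gt_d9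
  nlinarith

theorem sixteen_sq (x : ℝ) : (2 : ℝ) ^ (4 + x) = 16 * ((2 : ℝ) ^ (x / 2)) ^ 2 := by
  rw [← Real.rpow_natCast ((2 : ℝ) ^ (x / 2)) 2, ← Real.rpow_mul (by norm_num),
    Real.rpow_add (by norm_num)]
  have e : x / 2 * ((2 : ℕ) : ℝ) = x := by push_cast; ring
  have e4 : (2 : ℝ) ^ (4 : ℝ) = 16 := by
    have e : (4 : ℝ) = ((4 : ℕ) : ℝ) := by norm_num
    rw [e, Real.rpow_natCast]; norm_num
  rw [e, e4]

/-- the cube root of `100000 L` -/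
theorem root (L y : ℝ) (hy : 1 ≤ y) (hL : L = 16 * y ^ 2) :
    (100000 * L) ^ ((1 : ℝ) / 3) ≤ 1172 / 10 * y := by
  have hL0 : 0 ≤ L := by rw [hL]; positivity
  have h1 : ((100000 * L) ^ ((1 : ℝ) / 3)) ^ 3 = 100000 * L := by
    rw [← Real.rpow_natCast, ← Real.rpow_mul (by positivity)]
    have e : (1 : ℝ) / 3 * ((3 : ℕ) : ℝ) = 1 := by push_cast; norm_num
    rw [e, Real.rpow_one]
  have h2 : ((100000 * L) ^ ((1 : ℝ) / 3)) ^ 3 ≤ (1172 / 10 * y) ^ 3 := by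
    rw [h1, hL]
    have h3 : y ^ 2 ≤ y ^ 3 := pow_le_pow_right₀ hy (by norm_num)
    have h4 : (0 : ℝ) ≤ y ^ 2 := by positivity
    nlinarith
  exact le_of_pow_le_pow_left₀ (by norm_num) (by positivity) h2

theorem num (x y : ℝ) (hx : 0 ≤ x) (h2 : 1 + 17 / 50 * x ≤ y) :
    (32 + 5 / 2 * (4 + x)) * (25 + 3 * (4 + x) + 586 / 100 * y) * 600 ≤
      100000 * (16 * y ^ 2) := by
  have hy : 1 ≤ y := by linarith
  have ha : 32 + 5 / 2 * (4 + x) ≤ 42 * y := by linarith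
  have hb : 25 + 3 * (4 + x) + 586 / 100 * y ≤ 43 * y := by linarith
  have ha0 : 0 ≤ 32 + 5 / 2 * (4 + x) := by linarith
  have hb0 : 0 ≤ 25 + 3 * (4 + x) + 586 / 100 * y := by linarith
  have h3 : (32 + 5 / 2 * (4 + x)) * (25 + 3 * (4 + x) + 586 / 100 * y) ≤ (42 * y) * (43 * y) :=
    mul_le_mul ha hb hb0 (by linarith)
  nlinarith [sq_nonneg y]

end NUNNM

open NUNNM in
theorem specNUNN : SpecNUNN := by
  intro p D hD h5 h10
  have h16 := NUNYM.sixteen D hD (by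
    have hD1 : (0 : ℝ) ≤ Real.logb 2 D :=
      Real.logb_nonneg one_lt_two (by exact_mod_cast (by omega : 1 ≤ D))
    linarith)
  unfold mm MM
  generalize Real.logb 2 (D : ℝ) = L at *
  have hL0 : 0 < L := by linarith
  have hp0 : (0 : ℝ) < p := by linarith
  obtain ⟨u, hu⟩ : ∃ u, u = Real.logb 2 L := ⟨_, rfl⟩
  have hLu : (2 : ℝ) ^ u = L := by
    rw [hu]; exact Real.rpow_logb (by norm_num) (by norm_num) hL0
  have hu4 : 4 ≤ u := by
    rw [hu, Real.le_logb_iff_rpow_le one_lt_two hL0]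
    have e : (4 : ℝ) = ((4 : ℕ) : ℝ) := by norm_num
    rw [e, Real.rpow_natCast]; norm_num; linarith
  obtain ⟨x, hx⟩ : ∃ x, u = 4 + x := ⟨u - 4, by ring⟩
  have hx0 : 0 ≤ x := by linarith
  obtain ⟨y, hy⟩ : ∃ y : ℝ, y = (2 : ℝ) ^ (x / 2) := ⟨_, rfl⟩
  have hyx : 1 + 17 / 50 * x ≤ y := by rw [hy]; exact lower x hx0
  have hy1 : 1 ≤ y := by linarith
  have hLy : L = 16 * y ^ 2 := by rw [← hLu, hx, sixteen_sq, hy]
  have hT := root L y hy1 hLy
  have hT0 : 0 ≤ (100000 * L) ^ ((1 : ℝ) / 3) := Real.rpow_nonneg (by positivity) _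
  generalize (100000 * L) ^ ((1 : ℝ) / 3) = T at *
  have hMM1 : (1 : ℝ) ≤ (2 : ℝ) ^ (T / 20) := Real.one_le_rpow (by norm_num) (by positivity)
  obtain ⟨W, hW⟩ : ∃ W : ℝ, W = (2 : ℝ) ^ (T / 20) := ⟨_, rfl⟩
  rw [← hW] at hMM1 ⊢
  have hN1 : 31 + 5 / 2 * u ≤ (⌈31 + 5 / 2 * u⌉₊ : ℝ) := Nat.le_ceil _
  have hN2 : (⌈31 + 5 / 2 * u⌉₊ : ℝ) < 32 + 5 / 2 * u := by
    have := Nat.ceil_lt_add_one (a := 31 + 5 / 2 * u) (by linarith)
    linarith
  generalize ⌈31 + 5 / 2 * u⌉₊ = N at hN1 hN2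
  have hnum := num x y hx0 hyx
  rw [← hx, ← hLy] at hnum
  refine ⟨N, ?_, ?_, ?_⟩
  · have h1 := NUNYM.big u (by linarith) N hN1
    rw [hLu] at h1
    have h2 : (3 / 4 : ℝ) ^ N = ((4 / 3 : ℝ) ^ N)⁻¹ := by
      rw [← inv_pow]; norm_num
    rw [h2, le_div_iff₀ (by positivity)]
    have h3 : 0 < (4 / 3 : ℝ) ^ N := by positivity
    have h4 : 3 * (p : ℝ) * ((4 / 3 : ℝ) ^ N)⁻¹ * (2000 * L)
        = p * (6000 * L) * ((4 / 3 : ℝ) ^ N)⁻¹ := by ring
    rw [h4]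
    calc (p : ℝ) * (6000 * L) * ((4 / 3 : ℝ) ^ N)⁻¹
        ≤ p * (4 / 3 : ℝ) ^ N * ((4 / 3 : ℝ) ^ N)⁻¹ := by gcongr
      _ = p := by field_simp
  · have e1 : (p : ℝ) / (6 * p / (100000 * L)) = 100000 * L / 6 := by field_simp
    rw [e1]
    have hm : ((⌈1000 * L ^ 2 * W⌉₊ : ℕ) : ℝ) ≤ 1000 * L ^ 2 * W + 1 :=
      (Nat.ceil_lt_add_one (by positivity)).le
    have hLW : 256 ≤ L ^ 2 * W := by
      have h1 : (256 : ℝ) ≤ L ^ 2 := by nlinarith
      nlinarith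
    have hb : ((2 * ⌈1000 * L ^ 2 * W⌉₊ : ℕ) : ℝ) * (1 + 100000 * L / 6) ≤
        33350667 * L ^ 3 * W := by
      push_cast
      have h1 : 2 * ((⌈1000 * L ^ 2 * W⌉₊ : ℕ) : ℝ) ≤ 2001 * (L ^ 2 * W) := by linarith
      have h2 : 1 + 100000 * L / 6 ≤ 16667 * L := by linarith
      calc 2 * ((⌈1000 * L ^ 2 * W⌉₊ : ℕ) : ℝ) * (1 + 100000 * L / 6)
          ≤ (2001 * (L ^ 2 * W)) * (16667 * L) := by gcongr
        _ = 33350667 * L ^ 3 * W := by ring
    have hc : (33350667 : ℝ) ≤ (2 : ℝ) ^ (25 : ℝ) := by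
      have e : (25 : ℝ) = ((25 : ℕ) : ℝ) := by norm_num
      rw [e, Real.rpow_natCast]
      norm_num
    have hL3 : L ^ 3 = (2 : ℝ) ^ (3 * u) := by
      rw [mul_comm, Real.rpow_mul (by norm_num), hLu]
      have e : (3 : ℝ) = ((3 : ℕ) : ℝ) := by norm_num
      rw [e, Real.rpow_natCast]
    have hB : ((2 * ⌈1000 * L ^ 2 * W⌉₊ : ℕ) : ℝ) * (1 + 100000 * L / 6)
        ≤ (2 : ℝ) ^ (25 + 3 * u + 586 / 100 * y) := by
      refine hb.trans ?_
      have h1 : W ≤ (2 : ℝ) ^ (586 / 100 * y) := by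
        rw [hW]
        exact Real.rpow_le_rpow_of_exponent_le (by norm_num) (by linarith)
      rw [Real.rpow_add (by norm_num), Real.rpow_add (by norm_num), ← hL3]
      have h2 : (33350667 : ℝ) * L ^ 3 ≤ (2 : ℝ) ^ (25 : ℝ) * L ^ 3 :=
        mul_le_mul_of_nonneg_right hc (by positivity)
      exact mul_le_mul h2 h1 (by linarith) (by positivity)
    have hE0 : 0 ≤ 6 * (p : ℝ) / (100000 * L) := by positivity
    have hZ0 : 0 ≤ 25 + 3 * u + 586 / 100 * y := by linarith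
    generalize 25 + 3 * u + 586 / 100 * y = Z at *
    calc ((((2 * ⌈1000 * L ^ 2 * W⌉₊ : ℕ) : ℝ) * (1 + 100000 * L / 6)) ^
          (6 * (p : ℝ) / (100000 * L))) ^ N
        ≤ (((2 : ℝ) ^ Z) ^ (6 * (p : ℝ) / (100000 * L))) ^ N := by
          gcongr
      _ = (2 : ℝ) ^ (Z * (6 * (p : ℝ) / (100000 * L)) * N) := by
          rw [← Real.rpow_mul (by norm_num), ← Real.rpow_natCast, ← Real.rpow_mul (by norm_num)]
      _ ≤ (2 : ℝ) ^ ((p : ℝ) / 100) := by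
          apply Real.rpow_le_rpow_of_exponent_le (by norm_num)
          have h1 : Z * (6 * (p : ℝ) / (100000 * L)) * N
              ≤ Z * (6 * (p : ℝ) / (100000 * L)) * (32 + 5 / 2 * u) := by
            gcongr
          refine h1.trans ?_
          have h3 : Z * (6 * (p : ℝ) / (100000 * L)) * (32 + 5 / 2 * u)
              = ((32 + 5 / 2 * u) * Z * 600) * (p / 100) / (100000 * L) := by
            field_simp
            ring
          rw [h3, div_le_iff₀ (by positivity)]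
          have h4 : 0 ≤ (p : ℝ) / 100 := by positivity
          calc (32 + 5 / 2 * u) * Z * 600 * (p / 100) ≤ 100000 * L * (p / 100) :=
                mul_le_mul_of_nonneg_right hnum h4
            _ = p / 100 * (100000 * L) := by ring
  · have h1 : (N : ℝ) * (6 * p / (100000 * L)) = p * (6 * N) / (100000 * L) := by ring
    rw [h1, div_le_div_iff₀ (by positivity) (by norm_num)]
    have h2 : 6 * (N : ℝ) ≤ 100 * L := by
      have h3 : 37 * (32 + 5 / 2 * u) * 600 ≤ 100000 * L := by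
        refine le_trans ?_ hnum
        have h4 : 37 ≤ 25 + 3 * u + 586 / 100 * y := by linarith
        have h5 : 0 ≤ 32 + 5 / 2 * u := by linarith
        nlinarith
      linarith
    have h3 : (p : ℝ) * (6 * N) ≤ p * (100 * L) := by gcongr
    linarith

end Pool.Agent.Lib.MP50ecf8.LOC
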