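import Pool.Agent.Lib.MP_50ecf8_co.LOC.Spec

/-!
# Module NUP (MP_50ecf8_co): numerical part
-/

set_option autoImplicit false

open Finset
open scoped Classical

namespace Pool.Agent.Lib.MP50ecf8.LOC

namespace NUPM

theorem log43 : 2 / 5 * Real.log 2 ≤ Real.log (4 / 3) := by
  have h1 : Real.log ((2 : ℝ) ^ 2) ≤ Real.log ((4 / 3 : ℝ) ^ 5) :=
    Real.log_le_log (by norm_num) (by norm_num)
  rw [Real.log_pow, Real.log_pow] at h1
  push_cast at h1
  linarith

theorem core (q p x : ℕ) (hq : 2 ≤ q) (hx1 : 1 ≤ x) (hxp : x ≤ p)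
    (h : 1 + Real.logb 2 q * ((x : ℝ) - 1) + Real.logb 2 p < 2 / 5 * ((p : ℝ) - x)) :
    2 * q ^ (x - 1) * (p - x + 1) * 3 ^ (p - x) < 4 ^ (p - x) := by
  have hl2 : 0 < Real.log 2 := Real.log_pos (by norm_num)
  have hq0 : (0 : ℝ) < q := by exact_mod_cast (by omega : 0 < q)
  have hp0 : (0 : ℝ) < p := by exact_mod_cast (by omega : 0 < p)
  have hm : ((p - x : ℕ) : ℝ) = (p : ℝ) - x := Nat.cast_sub hxp
  have hx' : ((x - 1 : ℕ) : ℝ) = (x : ℝ) - 1 := by rw [Nat.cast_sub hx1]; norm_num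
  have h1 : Real.log 2 + ((x : ℝ) - 1) * Real.log q + Real.log p <
      2 / 5 * Real.log 2 * ((p : ℝ) - x) := by
    have h2 := mul_lt_mul_of_pos_right h hl2
    unfold Real.logb at h2
    have e1 : (1 + Real.log q / Real.log 2 * ((x : ℝ) - 1) + Real.log p / Real.log 2) * Real.log 2 =
        Real.log 2 + ((x : ℝ) - 1) * Real.log q + Real.log p := by
      field_simp
    rw [e1] at h2
    linarith
  have hA0 : (0 : ℝ) < 2 * (q : ℝ) ^ (x - 1) * (((p - x : ℕ) : ℝ) + 1) := by positivity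
  have hA : 2 * (q : ℝ) ^ (x - 1) * (((p - x : ℕ) : ℝ) + 1) < (4 / 3 : ℝ) ^ (p - x) := by
    by_contra hcon
    rw [not_lt] at hcon
    have h2 := Real.log_le_log (by positivity) hcon
    rw [Real.log_pow, Real.log_mul (by positivity) (by positivity),
      Real.log_mul (by norm_num) (by positivity), Real.log_pow, hm, hx'] at h2
    have h3 : Real.log ((p : ℝ) - x + 1) ≤ Real.log p := by
      apply Real.log_le_log
      · have : (x : ℝ) ≤ p := by exact_mod_cast hxp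
        linarith
      · have : (1 : ℝ) ≤ x := by exact_mod_cast hx1
        linarith
    have h4 : 2 / 5 * Real.log 2 * ((p : ℝ) - x) ≤ ((p : ℝ) - x) * Real.log (4 / 3) := by
      have h5 : (0 : ℝ) ≤ (p : ℝ) - x := by
        have : (x : ℝ) ≤ p := by exact_mod_cast hxp
        linarith
      calc 2 / 5 * Real.log 2 * ((p : ℝ) - x) = ((p : ℝ) - x) * (2 / 5 * Real.log 2) := by ring
        _ ≤ _ := mul_le_mul_of_nonneg_left log43 h5
    linarith
  have h2 : ((2 * q ^ (x - 1) * (p - x + 1) * 3 ^ (p - x) : ℕ) : ℝ) < ((4 ^ (p - x) : ℕ) : ℝ) := by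
    push_cast [hm]
    rw [hm] at hA
    have h3 : (4 : ℝ) ^ (p - x) = (4 / 3 : ℝ) ^ (p - x) * 3 ^ (p - x) := by
      rw [← mul_pow]; norm_num
    rw [h3]
    exact mul_lt_mul_of_pos_right hA (by positivity)
  exact_mod_cast h2


/-- `ℓ ≥ 8` -/
theorem eight_le (D : ℕ) (hD : 2 ≤ D) (h : 5 * Real.logb 2 D ^ 2 + 2 ≤ (D : ℝ)) :
    8 ≤ Real.logb 2 D := by
  have hD0 : (0 : ℝ) < D := by exact_mod_cast (by omega : 0 < D)
  set L := Real.logb 2 D with hL
  have hDL : (D : ℝ) = (2 : ℝ) ^ L := by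
    rw [hL, Real.rpow_logb (by norm_num) (by norm_num) hD0]
  have h1 : 1 ≤ L := by
    rw [hL, Real.le_logb_iff_rpow_le (by norm_num) hD0]
    norm_num
    exact_mod_cast hD
  rw [hDL] at h
  have step : ∀ k : ℕ, (2 : ℝ) ^ (k + 1) < 5 * (k : ℝ) ^ 2 + 2 → (k : ℝ) ≤ L →
      ((k + 1 : ℕ) : ℝ) ≤ L := by
    intro k hk hkL
    by_contra hcon
    rw [not_le] at hcon
    have h2 : (2 : ℝ) ^ L ≤ (2 : ℝ) ^ ((k + 1 : ℕ) : ℝ) :=
      Real.rpow_le_rpow_of_exponent_le (by norm_num) hcon.le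
    rw [Real.rpow_natCast] at h2
    have h3 : (k : ℝ) ^ 2 ≤ L ^ 2 := pow_le_pow_left₀ (Nat.cast_nonneg _) hkL 2
    linarith
  have h2 := step 1 (by norm_num) (by simpa using h1)
  have h3 := step 2 (by norm_num) (by simpa using h2)
  have h4 := step 3 (by norm_num) (by simpa using h3)
  have h5 := step 4 (by norm_num) (by simpa using h4)
  have h6 := step 5 (by norm_num) (by simpa using h5)
  have h7 := step 6 (by norm_num) (by simpa using h6)
  have h7' : (7 : ℝ) ≤ L := by simpa using h7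
  have h8 : (15 / 2 : ℝ) ≤ L := by
    by_contra hcon
    rw [not_le] at hcon
    have h2 : (2 : ℝ) ^ L ≤ (2 : ℝ) ^ (15 / 2 : ℝ) :=
      Real.rpow_le_rpow_of_exponent_le (by norm_num) hcon.le
    have h3 : ((2 : ℝ) ^ (15 / 2 : ℝ)) ^ 2 = 32768 := by
      rw [← Real.rpow_natCast, ← Real.rpow_mul (by norm_num)]
      norm_num
    have h4 : (2 : ℝ) ^ (15 / 2 : ℝ) ≤ 192 := by
      have h5 : (0 : ℝ) < (2 : ℝ) ^ (15 / 2 : ℝ) := by positivity
      nlinarith
    nlinarith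
  by_contra hcon
  rw [not_le] at hcon
  have h9 : (2 : ℝ) ^ L ≤ (2 : ℝ) ^ (8 : ℝ) :=
    Real.rpow_le_rpow_of_exponent_le (by norm_num) hcon.le
  have h10 : (2 : ℝ) ^ (8 : ℝ) = 256 := by
    rw [show (8 : ℝ) = ((8 : ℕ) : ℝ) by norm_num, Real.rpow_natCast]; norm_num
  nlinarith

theorem powexp {y : ℝ} (hy : y ≤ 1) (s : ℕ) : (1 - y) ^ s ≤ Real.exp (-(y * s)) := by
  have h1 : 1 - y ≤ Real.exp (-y) := Real.one_sub_le_exp_neg y
  calc (1 - y) ^ s ≤ (Real.exp (-y)) ^ s := pow_le_pow_left₀ (by linarith) h1 s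
    _ = Real.exp (-(y * s)) := by
        rw [← Real.exp_nat_mul]
        congr 1
        ring

end NUPM

open NUPM in
theorem specNUP : SpecNUP := by
  intro p hp h5
  have hL := eight_le p hp h5
  have hl2 : Real.log 2 < 0.6931471808 := Real.log_two_lt_d9
  have hl2' : 0.6931471803 < Real.log 2 := Real.log_two_gt_d9
  have hp0 : (0 : ℝ) < p := by exact_mod_cast (by omega : 0 < p)
  set L := Real.logb 2 p with hLdef
  have hlog : Real.log p = L * Real.log 2 := by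
    rw [hLdef]; unfold Real.logb
    field_simp
  have hL0 : 0 < L := by linarith
  have hp40 : 40 * L ≤ (p : ℝ) := by nlinarith
  set w : ℝ := 2 * Real.log 2 / 5 * p / L with hw
  have hw0 : 0 ≤ w := by positivity
  have hw1 : L * w = 2 * Real.log 2 / 5 * p := by
    rw [hw]; field_simp
  have hw2 : w ≤ 0.035 * p := by
    rw [hw, div_le_iff₀ hL0]
    nlinarith
  have hs1 : w ≤ (⌈w⌉₊ : ℝ) := Nat.le_ceil w
  have hs2 : (⌈w⌉₊ : ℝ) < w + 1 := Nat.ceil_lt_add_one hw0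
  refine ⟨⌈w⌉₊, ?_, ?_, ?_⟩
  · have hy : 5 * L ^ 2 / (p : ℝ) ≤ 1 := by
      rw [div_le_one hp0]; linarith
    have h1 := powexp hy ⌈w⌉₊
    have h2 : 2 * Real.log p ≤ 5 * L ^ 2 / (p : ℝ) * ⌈w⌉₊ := by
      calc 2 * Real.log p = 5 * L ^ 2 / (p : ℝ) * w := by
            rw [hlog, hw]; field_simp
        _ ≤ _ := mul_le_mul_of_nonneg_left hs1 (by positivity)
    have h3 : Real.exp (-(5 * L ^ 2 / (p : ℝ) * ⌈w⌉₊)) ≤ Real.exp (-(2 * Real.log p)) :=
      Real.exp_le_exp.2 (by linarith)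
    have h4 : Real.exp (-(2 * Real.log p)) = ((p : ℝ) ^ 2)⁻¹ := by
      rw [Real.exp_neg, show 2 * Real.log (p : ℝ) = ((2 : ℕ) : ℝ) * Real.log p by norm_num,
        Real.exp_nat_mul, Real.exp_log hp0]
    calc (p : ℝ) ^ 2 * (1 - 5 * L ^ 2 / p) ^ ⌈w⌉₊ ≤ (p : ℝ) ^ 2 * ((p : ℝ) ^ 2)⁻¹ := by
          apply mul_le_mul_of_nonneg_left _ (by positivity)
          rw [← h4]; exact h1.trans h3
      _ = 1 := by field_simp
  · have h1 : ((⌈w⌉₊ + 1 : ℕ) : ℝ) ≤ ((p : ℕ) : ℝ) := by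
      push_cast
      nlinarith
    exact_mod_cast h1
  · intro x hx1 hxs
    have hxs' : (x : ℝ) ≤ ⌈w⌉₊ + 1 := by exact_mod_cast hxs
    have hxp : x ≤ p := by
      have : (x : ℝ) ≤ p := by nlinarith
      exact_mod_cast this
    apply core p p x hp hx1 hxp
    rw [← hLdef]
    have h1 : L * ((x : ℝ) - 1) ≤ 0.2773 * p + L := by
      calc L * ((x : ℝ) - 1) ≤ L * (w + 1) := by
            apply mul_le_mul_of_nonneg_left _ hL0.le
            linarith
        _ = 2 * Real.log 2 / 5 * p + L := by rw [mul_add, hw1, mul_one]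
        _ ≤ _ := by nlinarith
    nlinarith

end Pool.Agent.Lib.MP50ecf8.LOC
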