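import Pool.Agent.Lib.MP_50ecf8_co.LOC.Spec10

/-!
# Module NUPN: numerical estimate
-/

set_option autoImplicit false

open Finset
open scoped Classical

namespace Pool.Agent.Lib.MP50ecf8.LOC

namespace NUPNM

theorem e20 : Real.exp (-20) ≤ 1 / 100000000 := by
  rw [Real.exp_neg, ← one_div]
  apply one_div_le_one_div_of_le (by norm_num)
  have h1 : Real.exp 20 = Real.exp 1 ^ 20 := by
    rw [← Real.exp_nat_mul]
    norm_num
  rw [h1]
  have h2 : (2.7 : ℝ) ≤ Real.exp 1 := by
    have := Real.exp_one_gt_d9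
    linarith
  calc (100000000 : ℝ) ≤ 2.7 ^ 20 := by norm_num
    _ ≤ Real.exp 1 ^ 20 := pow_le_pow_left₀ (by norm_num) h2 20

theorem cube {r : ℝ} (hr : 8000 ≤ r) : r ^ ((1 : ℝ) / 3) ≤ 20 + (r - 8000) / 1200 := by
  set t := (r - 8000) / 1200 with ht
  have ht0 : 0 ≤ t := by
    rw [ht]
    exact div_nonneg (by linarith) (by norm_num)
  have h1 : r ≤ (20 + t) ^ 3 := by
    have : r = 8000 + 1200 * t := by rw [ht]; ring
    rw [this]
    have h2 : (20 + t) ^ 3 = 8000 + 1200 * t + (60 * t ^ 2 + t ^ 3) := by ring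
    rw [h2]
    have : 0 ≤ 60 * t ^ 2 + t ^ 3 := by positivity
    linarith
  calc r ^ ((1 : ℝ) / 3) ≤ ((20 + t) ^ 3) ^ ((1 : ℝ) / 3) :=
        Real.rpow_le_rpow (by linarith) h1 (by norm_num)
    _ = 20 + t := by
        rw [← Real.rpow_natCast, ← Real.rpow_mul (by linarith)]
        norm_num

theorem term {q r s : ℝ} {n : ℕ} (hn : (n : ℝ) = s) (hq : 0 < q) (hs : q / 400 ≤ s)
    (hr : 8000 ≤ r) (hrq : r ≤ q) :
    (2 : ℝ) ^ (r ^ ((1 : ℝ) / 3) / 20) * (1 - r / q) ^ n ≤
      2 * Real.exp (-20) * Real.exp (-(1 / 500) * (r - 8000)) := by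
  have hl0 : 0 < Real.log 2 := Real.log_pos (by norm_num)
  have hl1 : Real.log 2 ≤ 1 := by
    have := Real.log_two_lt_d9
    linarith
  have a1 := cube hr
  have a2 : (2 : ℝ) ^ (r ^ ((1 : ℝ) / 3) / 20) ≤
      Real.exp (Real.log 2 * (1 + (r - 8000) / 24000)) := by
    rw [Real.rpow_def_of_pos (by norm_num)]
    apply Real.exp_le_exp.2
    refine mul_le_mul_of_nonneg_left ?_ hl0.le
    linarith
  have hr1 : r / q ≤ 1 := (div_le_one hq).2 hrq
  have a3 : (1 - r / q) ^ n ≤ Real.exp (-(r / 400)) := by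
    have h1 : 1 - r / q ≤ Real.exp (-(r / q)) := by
      have := Real.add_one_le_exp (-(r / q))
      linarith
    calc (1 - r / q) ^ n ≤ Real.exp (-(r / q)) ^ n := pow_le_pow_left₀ (by linarith) h1 n
      _ = Real.exp (-(r / q * s)) := by
          rw [← Real.exp_nat_mul, hn]
          congr 1
          ring
      _ ≤ Real.exp (-(r / 400)) := by
          apply Real.exp_le_exp.2
          have h2 : r / q * (q / 400) ≤ r / q * s :=
            mul_le_mul_of_nonneg_left hs (div_nonneg (by linarith) hq.le)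
          have h3 : r / q * (q / 400) = r / 400 := by field_simp
          linarith
  calc (2 : ℝ) ^ (r ^ ((1 : ℝ) / 3) / 20) * (1 - r / q) ^ n ≤
        Real.exp (Real.log 2 * (1 + (r - 8000) / 24000)) * Real.exp (-(r / 400)) :=
        mul_le_mul a2 a3 (pow_nonneg (by linarith) n) (Real.exp_pos _).le
    _ = Real.exp (Real.log 2 * (1 + (r - 8000) / 24000) + -(r / 400)) := (Real.exp_add _ _).symm
    _ ≤ Real.exp (Real.log 2 + -20 + -(1 / 500) * (r - 8000)) := by
        apply Real.exp_le_exp.2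
        have h4 : Real.log 2 * ((r - 8000) / 24000) ≤ 1 * ((r - 8000) / 24000) :=
          mul_le_mul_of_nonneg_right hl1 (div_nonneg (by linarith) (by norm_num))
        have h5 : Real.log 2 * (1 + (r - 8000) / 24000) =
          Real.log 2 + Real.log 2 * ((r - 8000) / 24000) := by ring
        rw [h5]
        linarith
    _ = 2 * Real.exp (-20) * Real.exp (-(1 / 500) * (r - 8000)) := by
        rw [Real.exp_add, Real.exp_add, Real.exp_log (by norm_num)]

theorem geo (n : ℕ) : ∑ j ∈ range n, Real.exp (-(1 / 500)) ^ j ≤ 501 := by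
  set ρ := Real.exp (-(1 / 500)) with hρ
  have h0 : 0 < ρ := Real.exp_pos _
  have h1 : ρ ≤ 500 / 501 := by
    rw [hρ, Real.exp_neg]
    have := Real.add_one_le_exp ((1 : ℝ) / 500)
    rw [inv_le_comm₀ (Real.exp_pos _) (by norm_num)]
    have h2 : ((500 : ℝ) / 501)⁻¹ = 1 / 500 + 1 := by norm_num
    rw [h2]
    exact this
  have h2 : (∑ j ∈ range n, ρ ^ j) * (1 - ρ) = 1 - ρ ^ n := geom_sum_mul_neg ρ n
  have h3 : 0 ≤ ∑ j ∈ range n, ρ ^ j := Finset.sum_nonneg fun j _ => by positivity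
  have h4 : 0 < ρ ^ n := by positivity
  have h5 : (∑ j ∈ range n, ρ ^ j) * (1 / 501) ≤ (∑ j ∈ range n, ρ ^ j) * (1 - ρ) :=
    mul_le_mul_of_nonneg_left (by linarith) h3
  linarith

end NUPNM

open NUPNM in
theorem specNUPN : SpecNUPN := by
  intro p q D hD hD1 hq1 hqp
  set L := Real.logb 2 D with hL
  have hD2 : (2 : ℝ) ≤ D := by exact_mod_cast hD
  have hD0 : (0 : ℝ) < D := by linarith
  have hL1 : 1 ≤ L := by
    rw [hL, Real.le_logb_iff_rpow_le (by norm_num) hD0]
    simpa using hD2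
  have hL15 : 15 ≤ L := by
    rw [hL, Real.le_logb_iff_rpow_le (by norm_num) hD0]
    have h1 : (50000 : ℝ) ≤ D := by linarith
    have h2 : (2 : ℝ) ^ (15 : ℝ) = 32768 := by
      rw [show (15 : ℝ) = ((15 : ℕ) : ℝ) by norm_num, Real.rpow_natCast]
      norm_num
    rw [h2]
    linarith
  have hln0 : 0 < Real.log 2 := Real.log_pos (by norm_num)
  have hln1 : Real.log 2 ≤ 1 := by
    have := Real.log_two_lt_d9
    linarith
  have hlog : Real.log D = L * Real.log 2 := by
    rw [hL, Real.logb, div_mul_cancel₀ _ hln0.ne']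
  have hq0 : (0 : ℝ) < q := by linarith
  have hqp' : (q : ℝ) ≤ p := by exact_mod_cast hqp
  have hp0 : (0 : ℝ) < p := by linarith
  have hDexp : (D : ℝ) ≤ Real.exp L := by
    rw [← Real.exp_log hD0, hlog]
    apply Real.exp_le_exp.2
    have := mul_le_mul_of_nonneg_left hln1 (by linarith : (0 : ℝ) ≤ L)
    linarith
  have hD2L : (D : ℝ) = (2 : ℝ) ^ L := by
    rw [hL, Real.rpow_logb (by norm_num) (by norm_num) hD0]
  have hMM : MM D ≤ D := by
    unfold MM
    rw [← hL]
    conv_rhs => rw [hD2L]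
    apply Real.rpow_le_rpow_of_exponent_le (by norm_num)
    have h1 : (100000 * L) ^ ((1 : ℝ) / 3) ≤ ((20 * L) ^ 3) ^ ((1 : ℝ) / 3) := by
      apply Real.rpow_le_rpow (by linarith) ?_ (by norm_num)
      have h2 : (225 : ℝ) ≤ L ^ 2 := by nlinarith
      have h3 : (20 * L) ^ 3 = 8000 * L ^ 2 * L := by ring
      rw [h3]
      refine mul_le_mul_of_nonneg_right ?_ (by linarith)
      linarith
    have h4 : ((20 * L) ^ 3) ^ ((1 : ℝ) / 3) = 20 * L := by
      rw [← Real.rpow_natCast, ← Real.rpow_mul (by linarith)]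
      norm_num
    rw [h4] at h1
    linarith
  set s := ⌈(q : ℝ) / 400⌉₊ with hs
  have hs1 : (q : ℝ) / 400 ≤ s := Nat.le_ceil _
  have hs2 : (s : ℝ) < q / 400 + 1 := Nat.ceil_lt_add_one (by positivity)
  have hE := e20
  have hE0 : 0 < Real.exp (-20) := Real.exp_pos _
  refine ⟨s, ?_⟩
  -- far pairs
  have hx1 : 100000 * L / q ≤ 1 := (div_le_one hq0).2 hq1
  have hfar : (1 - 100000 * L / q) ^ s ≤ Real.exp (-(250 * L)) := by
    have h1 : 1 - 100000 * L / q ≤ Real.exp (-(100000 * L / q)) := by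
      have := Real.add_one_le_exp (-(100000 * L / q))
      linarith
    calc (1 - 100000 * L / q) ^ s ≤ Real.exp (-(100000 * L / q)) ^ s :=
          pow_le_pow_left₀ (by linarith) h1 s
      _ = Real.exp (-(100000 * L / q * s)) := by
          rw [← Real.exp_nat_mul]
          congr 1
          ring
      _ ≤ Real.exp (-(250 * L)) := by
          apply Real.exp_le_exp.2
          have h2 : 100000 * L / q * (q / 400) ≤ 100000 * L / q * s :=
            mul_le_mul_of_nonneg_left hs1 (by positivity)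
          have h3 : 100000 * L / q * (q / 400) = 250 * L := by field_simp; norm_num
          linarith
  have hMM0 : 0 ≤ MM D := by
    unfold MM
    positivity
  have hfar2 : (2 * (p : ℝ) * D + MM D * p) * (1 - 100000 * L / q) ^ s ≤ 3 * p * (1 / 100000000) := by
    have h1 : 2 * (p : ℝ) * D + MM D * p ≤ 3 * p * Real.exp L := by
      have h2 := mul_le_mul_of_nonneg_left hDexp hp0.le
      have h3 := mul_le_mul_of_nonneg_right (hMM.trans hDexp) hp0.le
      linarith
    calc (2 * (p : ℝ) * D + MM D * p) * (1 - 100000 * L / q) ^ s ≤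
          (3 * p * Real.exp L) * Real.exp (-(250 * L)) :=
          mul_le_mul h1 hfar (pow_nonneg (by linarith) s) (by positivity)
      _ = 3 * p * Real.exp (L + -(250 * L)) := by rw [Real.exp_add]; ring
      _ ≤ 3 * p * Real.exp (-20) := by
          refine mul_le_mul_of_nonneg_left (Real.exp_le_exp.2 ?_) (by positivity)
          linarith
      _ ≤ 3 * p * (1 / 100000000) := mul_le_mul_of_nonneg_left hE (by positivity)
  -- near pairs
  have hj : ∀ j : ℕ, Real.exp (-(1 / 500) * (((8000 + j : ℕ) : ℝ) - 8000)) =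
      Real.exp (-(1 / 500)) ^ j := by
    intro j
    rw [← Real.exp_nat_mul, Nat.cast_add]
    have h1 : ((8000 : ℕ) : ℝ) = 8000 := by norm_num
    rw [h1]
    congr 1
    ring
  have hnear : ∑ r ∈ Ico 8000 ⌈100000 * L⌉₊,
      (2 : ℝ) ^ ((r : ℝ) ^ ((1 : ℝ) / 3) / 20) * (1 - r / q) ^ s ≤ 1002 * (1 / 100000000) := by
    calc ∑ r ∈ Ico 8000 ⌈100000 * L⌉₊, (2 : ℝ) ^ ((r : ℝ) ^ ((1 : ℝ) / 3) / 20) * (1 - r / q) ^ s ≤
          ∑ r ∈ Ico 8000 ⌈100000 * L⌉₊,
            2 * Real.exp (-20) * Real.exp (-(1 / 500) * ((r : ℝ) - 8000)) := by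
          refine Finset.sum_le_sum fun r hr => ?_
          rw [mem_Ico] at hr
          have h1 : (8000 : ℝ) ≤ r := by exact_mod_cast hr.1
          have h2 : (r : ℝ) < 100000 * L := Nat.lt_ceil.1 hr.2
          exact term (n := s) rfl hq0 hs1 h1 (by linarith)
      _ = 2 * Real.exp (-20) * ∑ j ∈ range (⌈100000 * L⌉₊ - 8000), Real.exp (-(1 / 500)) ^ j := by
          rw [← Finset.mul_sum, Finset.sum_Ico_eq_sum_range]
          simp only [hj]
      _ ≤ 2 * Real.exp (-20) * 501 := mul_le_mul_of_nonneg_left (geo _) (by positivity)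
      _ ≤ 1002 * (1 / 100000000) := by linarith
  have h6 := mul_le_mul_of_nonneg_left hnear hp0.le
  have h7 : (1500000 : ℝ) ≤ p := by linarith
  have h8 : (s : ℝ) + (2 * p * D + MM D * p) * (1 - 100000 * L / q) ^ s +
      p * ∑ r ∈ Ico 8000 ⌈100000 * L⌉₊,
        (2 : ℝ) ^ ((r : ℝ) ^ ((1 : ℝ) / 3) / 20) * (1 - r / q) ^ s ≤ p / 300 := by
    linarith
  exact h8

end Pool.Agent.Lib.MP50ecf8.LOC
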