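import Pool.Agent.Lib.MP_50ecf8_co.LOC.Spec9

/-!
# Module NUPZ: numerical estimate
-/

set_option autoImplicit false

open Finset
open scoped Classical

namespace Pool.Agent.Lib.MP50ecf8.LOC

theorem specNUPZ : SpecNUPZ := by
  intro p q D hD hD1 hq1 hqp
  set L := Real.logb 2 D with hL
  have hD2 : (2 : ℝ) ≤ D := by exact_mod_cast hD
  have hD0 : (0 : ℝ) < D := by linarith
  have hL1 : 1 ≤ L := by
    rw [hL, Real.le_logb_iff_rpow_le (by norm_num) hD0]
    simpa using hD2
  have hL15 : 15 ≤ L := by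
    rw [hL, Real.le_logb_iff_rpow_le (by norm_num) hD0]
    have h1 : (50000 : ℝ) ≤ D := by linarith
    have h2 : (2 : ℝ) ^ (15 : ℝ) = 32768 := by
      rw [show (15 : ℝ) = ((15 : ℕ) : ℝ) by norm_num, Real.rpow_natCast]
      norm_num
    rw [h2]
    linarith
  have hD3 : (750000 : ℝ) ≤ D := by linarith
  have hln0 : 0 < Real.log 2 := Real.log_pos (by norm_num)
  have hln1 : Real.log 2 < 0.6931471808 := Real.log_two_lt_d9
  have hlog : Real.log D = L * Real.log 2 := by
    rw [hL, Real.logb, div_mul_cancel₀ _ hln0.ne']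
  have hq0 : (0 : ℝ) < q := by linarith
  have hqp' : (q : ℝ) ≤ p := by exact_mod_cast hqp
  have hp0 : (0 : ℝ) < p := by linarith
  set x := 100000 * L / q with hx
  have hL0 : 0 < L := by linarith
  have hx0 : 0 < x := by positivity
  have hx1 : x ≤ 1 := by
    rw [hx, div_le_one hq0]
    exact hq1
  set s := ⌈2 * q * Real.log 2 / 100000⌉₊ with hs
  have hs1 : 2 * q * Real.log 2 / 100000 ≤ s := Nat.le_ceil _
  have hs2 : (s : ℝ) < 2 * q * Real.log 2 / 100000 + 1 := Nat.ceil_lt_add_one (by positivity)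
  have hpow : (1 - x) ^ s ≤ 1 / (D : ℝ) ^ 2 := by
    have h1 : 1 - x ≤ Real.exp (-x) := by
      have := Real.add_one_le_exp (-x)
      linarith
    calc (1 - x) ^ s ≤ Real.exp (-x) ^ s := pow_le_pow_left₀ (by linarith) h1 s
      _ = Real.exp (-(x * s)) := by
          rw [← Real.exp_nat_mul]
          congr 1
          ring
      _ ≤ Real.exp (-(2 * Real.log D)) := by
          apply Real.exp_le_exp.2
          have h2 : 2 * Real.log D = x * (2 * q * Real.log 2 / 100000) := by
            rw [hlog, hx]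
            field_simp
          rw [h2]
          have h3 := mul_le_mul_of_nonneg_left hs1 hx0.le
          linarith
      _ = 1 / (D : ℝ) ^ 2 := by
          rw [Real.exp_neg, two_mul, Real.exp_add, Real.exp_log hD0, one_div, sq]
  refine ⟨s, ?_⟩
  have h3 : 3 * (p : ℝ) * D * (1 - x) ^ s ≤ 3 * p / D := by
    calc 3 * (p : ℝ) * D * (1 - x) ^ s ≤ 3 * p * D * (1 / (D : ℝ) ^ 2) :=
          mul_le_mul_of_nonneg_left hpow (by positivity)
      _ = 3 * p / D := by
          field_simp
  have h4 : 3 * (p : ℝ) / D ≤ 4 * p / 1000000 := by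
    rw [div_le_div_iff₀ hD0 (by norm_num)]
    have := mul_le_mul_of_nonneg_left hD3 hp0.le
    linarith
  have h5 : 2 * q * Real.log 2 / 100000 ≤ 14 * (p : ℝ) / 1000000 := by
    have h6 : (q : ℝ) * Real.log 2 ≤ p * 0.6931471808 :=
      mul_le_mul hqp' hln1.le hln0.le hp0.le
    rw [div_le_div_iff₀ (by norm_num) (by norm_num)]
    linarith
  have h7 : (1000000 : ℝ) ≤ p := by linarith
  have h8 : (s : ℝ) + 3 * (p : ℝ) * D * (1 - x) ^ s ≤ p / 10000 := by linarith
  exact h8

end Pool.Agent.Lib.MP50ecf8.LOC
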