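import Pool.Agent.Lib.MP_50ecf8_co.LOC.Spec7

/-!
# NUSX: the number of steps of one phase
-/

set_option autoImplicit false

open Finset
open scoped Classical

namespace Pool.Agent.Lib.MP50ecf8.LOC

namespace NUSXM

theorem exp_ge : (8 : ℝ) ≤ Real.exp (5 / 2) := by
  have h1 : (2.7182 : ℝ) ≤ Real.exp 1 := by
    have := Real.exp_one_gt_d9
    linarith
  have h2 : (1.5 : ℝ) ≤ Real.exp (1 / 2) := by
    have := Real.add_one_le_exp (1 / 2 : ℝ)
    linarith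
  have h3 : Real.exp (5 / 2) = Real.exp 1 * Real.exp 1 * Real.exp (1 / 2) := by
    rw [← Real.exp_add, ← Real.exp_add]
    norm_num
  rw [h3]
  have h4 : (2.7182 : ℝ) * 2.7182 ≤ Real.exp 1 * Real.exp 1 :=
    mul_le_mul h1 h1 (by norm_num) (by linarith)
  have h5 : (2.7182 : ℝ) * 2.7182 * 1.5 ≤ Real.exp 1 * Real.exp 1 * Real.exp (1 / 2) :=
    mul_le_mul h4 h2 (by norm_num) (by positivity)
  linarith

end NUSXM

theorem specNUSX : SpecNUSX := by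
  intro p t ht htp
  have hp : (0 : ℝ) < p := lt_of_lt_of_le ht htp
  have h1 : (1 : ℝ) ≤ p / t := by rw [le_div_iff₀ ht]; linarith
  refine ⟨⌈5 * (p : ℝ) / t⌉₊, ?_, ?_⟩
  · have hs : 5 * (p : ℝ) / t ≤ (⌈5 * (p : ℝ) / t⌉₊ : ℝ) := Nat.le_ceil _
    set s : ℕ := ⌈5 * (p : ℝ) / t⌉₊ with hsd
    have hx0 : 0 ≤ 1 - t / (2 * (p : ℝ)) := by
      rw [sub_nonneg, div_le_one (by positivity)]
      linarith
    have hx1 : 1 - t / (2 * (p : ℝ)) ≤ Real.exp (-(t / (2 * (p : ℝ)))) := by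
      have := Real.add_one_le_exp (-(t / (2 * (p : ℝ))))
      linarith
    have hx2 : (5 / 2 : ℝ) ≤ (s : ℝ) * (t / (2 * (p : ℝ))) := by
      have e1 : 5 * (p : ℝ) / t * (t / (2 * (p : ℝ))) = 5 / 2 := by
        field_simp
      calc (5 / 2 : ℝ) = 5 * (p : ℝ) / t * (t / (2 * (p : ℝ))) := e1.symm
        _ ≤ (s : ℝ) * (t / (2 * (p : ℝ))) := mul_le_mul_of_nonneg_right hs (by positivity)
    calc (1 - t / (2 * (p : ℝ))) ^ s ≤ Real.exp (-(t / (2 * (p : ℝ)))) ^ s := pow_le_pow_left₀ hx0 hx1 s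
      _ = Real.exp (-((s : ℝ) * (t / (2 * (p : ℝ))))) := by
          rw [← Real.exp_nat_mul]
          congr 1
          ring
      _ ≤ Real.exp (-(5 / 2)) := Real.exp_le_exp.mpr (by linarith)
      _ = (Real.exp (5 / 2))⁻¹ := Real.exp_neg _
      _ ≤ 8⁻¹ := inv_anti₀ (by norm_num) NUSXM.exp_ge
      _ = 1 / 8 := by norm_num
  · have hs : (⌈5 * (p : ℝ) / t⌉₊ : ℝ) < 5 * (p : ℝ) / t + 1 := Nat.ceil_lt_add_one (by positivity)
    have e2 : 5 * (p : ℝ) / t = 5 * (p / t) := by ring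
    have e3 : 6 * (p : ℝ) / t = 6 * (p / t) := by ring
    rw [e3]
    rw [e2] at hs
    rw [e2]
    linarith

end Pool.Agent.Lib.MP50ecf8.LOC
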