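import Pool.Agent.Lib.MP_50ecf8_co.LOC.Spec10

set_option autoImplicit false

namespace Pool.Agent.Lib.MP50ecf8.LOC

namespace NUTNM

lemma step {D : ℕ} (hD : 2 ≤ D) (k : ℕ) (h : (2 : ℝ) ^ k ≤ (D : ℝ)) : (k : ℝ) ≤ Real.logb 2 D := by
  have hD0 : (0 : ℝ) < (D : ℝ) := by
    have : (2 : ℝ) ≤ (D : ℝ) := by exact_mod_cast hD
    linarith
  rw [Real.le_logb_iff_rpow_le one_lt_two hD0, Real.rpow_natCast]
  exact h

lemma sixteen {D : ℕ} (hD : 2 ≤ D) (h : 50000 * Real.logb 2 D ≤ (D : ℝ)) :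
    16 ≤ Real.logb 2 D := by
  have h1 := step hD 1 (by rw [pow_one]; exact_mod_cast hD)
  push_cast at h1
  have h2 := step hD 15 (le_trans (by norm_num : (2 : ℝ) ^ 15 ≤ 50000) (by linarith))
  push_cast at h2
  have h4 := step hD 16 (le_trans (by norm_num : (2 : ℝ) ^ 16 ≤ 750000) (by linarith))
  push_cast at h4
  exact h4

lemma exp17 : (24000000 : ℝ) ≤ Real.exp 17 := by
  have h1 : (2.7182 : ℝ) ≤ Real.exp 1 := by
    have := Real.exp_one_gt_d9
    linarith
  have h2 : Real.exp 17 = Real.exp 1 ^ 17 := by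
    rw [← Real.exp_nat_mul]; norm_num
  rw [h2]
  have h3 := pow_le_pow_left₀ (by norm_num) h1 17
  refine le_trans ?_ h3
  norm_num

lemma c1 : (100000 : ℝ) ^ ((1 : ℝ) / 3) ≤ 46.42 := by
  have h : (100000 : ℝ) ≤ 46.42 ^ (3 : ℕ) := by norm_num
  have h1 : (100000 : ℝ) ^ ((1 : ℝ) / 3) ≤ ((46.42 : ℝ) ^ (3 : ℕ)) ^ ((1 : ℝ) / 3) :=
    Real.rpow_le_rpow (by norm_num) h (by norm_num)
  have h2 : ((46.42 : ℝ) ^ (3 : ℕ)) ^ ((1 : ℝ) / 3) = 46.42 := by
    rw [← Real.rpow_natCast, ← Real.rpow_mul (by norm_num)]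
    norm_num
  rwa [h2] at h1

lemma MM_le {D : ℕ} (hL : 16 ≤ Real.logb 2 D) :
    MM D ≤ Real.exp (1.61 * Real.logb 2 D ^ ((1 : ℝ) / 3)) := by
  unfold MM
  have hR : 0 ≤ Real.logb 2 (D : ℝ) ^ ((1 : ℝ) / 3) := Real.rpow_nonneg (by linarith) _
  rw [Real.rpow_def_of_pos (by norm_num : (0 : ℝ) < 2), Real.mul_rpow (by norm_num) (by linarith)]
  apply Real.exp_le_exp.2
  generalize Real.logb 2 (D : ℝ) ^ ((1 : ℝ) / 3) = R at *
  have h1 := c1
  have h0 : 0 ≤ (100000 : ℝ) ^ ((1 : ℝ) / 3) := Real.rpow_nonneg (by norm_num) _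
  have h2 := Real.log_two_lt_d9
  have h3 : 0 < Real.log 2 := Real.log_pos one_lt_two
  generalize (100000 : ℝ) ^ ((1 : ℝ) / 3) = c at *
  have h4 : c * R ≤ 46.42 * R := mul_le_mul_of_nonneg_right h1 hR
  calc Real.log 2 * (c * R / 20) ≤ Real.log 2 * (46.42 * R / 20) := by
        apply mul_le_mul_of_nonneg_left _ h3.le
        linarith
    _ ≤ 0.6931471808 * (46.42 * R / 20) := by
        apply mul_le_mul_of_nonneg_right h2.le
        positivity
    _ ≤ 1.61 * R := by nlinarith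

lemma one_le_MM {D : ℕ} (hL : 16 ≤ Real.logb 2 D) : 1 ≤ MM D := by
  unfold MM
  apply Real.one_le_rpow one_le_two
  have : 0 ≤ (100000 * Real.logb 2 (D : ℝ)) ^ ((1 : ℝ) / 3) := Real.rpow_nonneg (by linarith) _
  positivity

lemma mm_le {D : ℕ} (hL : 16 ≤ Real.logb 2 D) :
    (((3 * mm D : ℕ) : ℝ)) ≤ 3001 * Real.logb 2 D ^ 2 * MM D := by
  have h1 := one_le_MM hL
  unfold mm
  push_cast
  generalize MM D = N at *
  generalize Real.logb 2 (D : ℝ) = L at *
  have h2 := (Nat.ceil_lt_add_one (a := 1000 * L ^ 2 * N) (by positivity)).le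
  have h3 : (256 : ℝ) ≤ L ^ 2 := by nlinarith
  have h4 : (256 : ℝ) ≤ L ^ 2 * N := by nlinarith
  linarith

/-- the probability term -/
lemma prob {U L R N : ℝ} (hU : 1 ≤ U) (hL : 16 ≤ L) (hN0 : 0 ≤ N) (hN : N ≤ Real.exp (1.61 * R))
    (s : ℕ) (hs : U * (17 + 3 * Real.log L + 1.61 * R) ≤ s) :
    (1 - 1 / U) ^ s * (24000000 * L ^ 3 * N) ≤ 1 := by
  have hU0 : 0 < U := by linarith
  have hL0 : 0 < L := by linarith
  have h1 : 0 ≤ 1 - 1 / U := by
    rw [sub_nonneg, div_le_one hU0]; exact hU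
  have h2 : (1 - 1 / U) ^ s ≤ Real.exp ((s : ℝ) * (-(1 / U))) := by
    rw [Real.exp_nat_mul]
    exact pow_le_pow_left₀ h1 (Real.one_sub_le_exp_neg _) s
  have h3 : (s : ℝ) * (-(1 / U)) ≤ -(17 + 3 * Real.log L + 1.61 * R) := by
    have : 17 + 3 * Real.log L + 1.61 * R ≤ (s : ℝ) * (1 / U) := by
      rw [mul_one_div, le_div_iff₀ hU0]
      linarith
    linarith
  have h4 : (1 - 1 / U) ^ s ≤ Real.exp (-(17 + 3 * Real.log L + 1.61 * R)) :=
    h2.trans (Real.exp_le_exp.2 h3)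
  have h5 : 24000000 * L ^ 3 * N ≤ Real.exp (17 + 3 * Real.log L + 1.61 * R) := by
    have h6 : Real.exp (3 * Real.log L) = L ^ 3 := by
      rw [show (3 : ℝ) * Real.log L = ((3 : ℕ) : ℝ) * Real.log L by norm_num, Real.exp_nat_mul,
        Real.exp_log hL0]
    rw [Real.exp_add, Real.exp_add, h6]
    exact mul_le_mul (mul_le_mul_of_nonneg_right exp17 (by positivity)) hN hN0 (by positivity)
  calc (1 - 1 / U) ^ s * (24000000 * L ^ 3 * N)
      ≤ Real.exp (-(17 + 3 * Real.log L + 1.61 * R)) * Real.exp (17 + 3 * Real.log L + 1.61 * R) :=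
        mul_le_mul h4 h5 (by positivity) (Real.exp_pos _).le
    _ = 1 := by rw [← Real.exp_add, neg_add_cancel, Real.exp_zero]

end NUTNM

open NUTNM in
theorem specNUTN : SpecNUTN := by
  intro p q D hD hDL hq hqp
  have hL16 := sixteen hD hDL
  have hNe := MM_le hL16
  have hN1 := one_le_MM hL16
  have hM := mm_le hL16
  have hM0 : (0 : ℝ) ≤ (((3 * mm D : ℕ) : ℝ)) := Nat.cast_nonneg _
  generalize (((3 * mm D : ℕ) : ℝ)) = M at *
  generalize MM D = N at *
  generalize Real.logb 2 (D : ℝ) = L at *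
  have hqp' : (q : ℝ) ≤ (p : ℝ) := by exact_mod_cast hqp
  obtain ⟨P, hP⟩ : ∃ P : ℝ, P = (p : ℝ) := ⟨_, rfl⟩
  obtain ⟨W, hW⟩ : ∃ W : ℝ, W = (q : ℝ) := ⟨_, rfl⟩
  rw [← hW] at hq hqp'
  rw [← hP] at hqp'
  rw [← hP, ← hW]
  obtain ⟨Q, hQ⟩ : ∃ Q : ℝ, Q = Real.sqrt L := ⟨_, rfl⟩
  rw [← hQ]
  have hL0 : 0 < L := by linarith
  have hN0 : 0 < N := by linarith
  have hR3 : (L ^ ((1 : ℝ) / 3)) ^ 3 = L := by
    rw [← Real.rpow_natCast, ← Real.rpow_mul hL0.le]
    norm_num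
  have hR0 : 0 ≤ L ^ ((1 : ℝ) / 3) := Real.rpow_nonneg hL0.le _
  generalize L ^ ((1 : ℝ) / 3) = R at *
  have hQQ : L = Q ^ 2 := by rw [hQ, Real.sq_sqrt hL0.le]
  have hQ4 : 4 ≤ Q := by
    rw [hQ]
    exact Real.le_sqrt_of_sq_le (by norm_num; exact hL16)
  have hQ0 : 0 < Q := by linarith
  have hRQ : R ≤ 0.63 * Q := by
    by_contra hc
    push Not at hc
    have h1 : (0.63 * Q) ^ 3 < R ^ 3 := pow_lt_pow_left₀ hc (by positivity) (by norm_num)
    rw [hR3, hQQ] at h1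
    have h2 : (0.63 * Q) ^ 3 = 0.250047 * Q * Q ^ 2 := by ring
    have h3 : Q ^ 2 ≤ 0.250047 * Q * Q ^ 2 := by
      have h4 : 1 ≤ 0.250047 * Q := by linarith
      nlinarith [sq_nonneg Q]
    linarith
  have hlog : Real.log L ≤ 2 * (Q - 1) := by
    rw [hQQ, Real.log_pow]
    push_cast
    have := Real.log_le_sub_one_of_pos hQ0
    linarith
  have hlog0 : 0 ≤ Real.log L := Real.log_nonneg (by linarith)
  obtain ⟨U, hU⟩ : ∃ U : ℝ, U = W / (100000 * L) := ⟨_, rfl⟩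
  obtain ⟨A, hA⟩ : ∃ A : ℝ, A = P / (100000 * L) := ⟨_, rfl⟩
  have hPA : P = 100000 * L * A := by
    rw [hA]; field_simp
  have hWU : W = 100000 * L * U := by
    rw [hU]; field_simp
  have hU1 : 1 ≤ U := by
    rw [hU, le_div_iff₀ (by positivity), one_mul]; exact hq
  have hUA : U ≤ A := by
    rw [hU, hA]
    exact div_le_div_of_nonneg_right hqp' (by positivity)
  have hU0 : 0 < U := by linarith
  have hA0 : 0 < A := by linarith
  have hP0 : 0 < P := by rw [hPA]; positivity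
  have hT0 : 0 ≤ 17 + 3 * Real.log L + 1.61 * R := by positivity
  refine ⟨⌈U * (17 + 3 * Real.log L + 1.61 * R)⌉₊, ?_, ?_⟩
  · have h1 : 100000 * L / W = 1 / U := by
      rw [hWU]; field_simp
    rw [h1]
    have h2 := prob hU1 hL16 hN0.le hNe ⌈U * (17 + 3 * Real.log L + 1.61 * R)⌉₊ (Nat.le_ceil _)
    have h3 := (Nat.ceil_lt_add_one (a := U * (17 + 3 * Real.log L + 1.61 * R)) (by positivity)).le
    have h0 : 0 ≤ (1 - 1 / U) ^ ⌈U * (17 + 3 * Real.log L + 1.61 * R)⌉₊ := by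
      apply pow_nonneg
      rw [sub_nonneg, div_le_one hU0]; exact hU1
    generalize (1 - 1 / U) ^ ⌈U * (17 + 3 * Real.log L + 1.61 * R)⌉₊ = e at *
    have h4 : 2 * P * M * e ≤ 25.01 * A := by
      have h5 : 2 * P * M * e ≤ 2 * P * (3001 * L ^ 2 * N) * e :=
        mul_le_mul_of_nonneg_right (mul_le_mul_of_nonneg_left hM (by positivity)) h0
      have h6 : 2 * P * (3001 * L ^ 2 * N) * e = A * (6002 / 240) * (e * (24000000 * L ^ 3 * N)) := by
        rw [hPA]; ring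
      have h7 : A * (6002 / 240) * (e * (24000000 * L ^ 3 * N)) ≤ A * (6002 / 240) * 1 :=
        mul_le_mul_of_nonneg_left h2 (by positivity)
      rw [h6] at h5
      linarith
    have h7 : P / (6000 * Q) = A * (50 / 3 * Q) := by
      rw [hPA, hQQ]; field_simp; ring
    rw [h7]
    have h9 : U * (17 + 3 * Real.log L + 1.61 * R) ≤ A * (17 + 3 * Real.log L + 1.61 * R) :=
      mul_le_mul_of_nonneg_right hUA hT0
    have h8 : (⌈U * (17 + 3 * Real.log L + 1.61 * R)⌉₊ : ℝ) + 2 * P * M * e ≤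
        A * (43.01 + 3 * Real.log L + 1.61 * R) := by
      nlinarith
    refine h8.trans (mul_le_mul_of_nonneg_left ?_ hA0.le)
    linarith
  · have h1 : P / (P / (6000 * Q)) = 6000 * Q := by
      field_simp
    rw [h1]
    have h2 : M * (1 + 6000 * Q) ≤ (2 : ℝ) ^ (12 * Q) := by
      have h3 : M * (1 + 6000 * Q) ≤ 3001 * L ^ 2 * N * (6001 * Q) :=
        mul_le_mul hM (by linarith) (by positivity) (by positivity)
      have h4 : 3001 * L ^ 2 * N * (6001 * Q) = 18009001 * Q ^ 5 * N := by rw [hQQ]; ring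
      have h5 : Q ^ 5 = Real.exp (5 * Real.log Q) := by
        rw [show (5 : ℝ) * Real.log Q = ((5 : ℕ) : ℝ) * Real.log Q by norm_num, Real.exp_nat_mul,
          Real.exp_log hQ0]
      have h6 : 18009001 * Q ^ 5 * N ≤ Real.exp 17 * Real.exp (5 * Real.log Q) * Real.exp (1.61 * R) := by
        rw [h5]
        refine mul_le_mul (mul_le_mul_of_nonneg_right ?_ (Real.exp_pos _).le) hNe hN0.le (by positivity)
        exact le_trans (by norm_num) exp17
      have h7 : Real.log Q ≤ 2 * Real.log 2 + (Q / 4 - 1) := by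
        have h71 := Real.log_le_sub_one_of_pos (show 0 < Q / 4 by positivity)
        rw [Real.log_div hQ0.ne' (by norm_num)] at h71
        have h72 : Real.log 4 = 2 * Real.log 2 := by
          rw [show (4 : ℝ) = 2 ^ 2 by norm_num, Real.log_pow]
          norm_num
        linarith
      have h8 := Real.log_two_lt_d9
      have h9 := Real.log_two_gt_d9
      rw [← Real.exp_add, ← Real.exp_add] at h6
      have h10 : (2 : ℝ) ^ (12 * Q) = Real.exp (Real.log 2 * (12 * Q)) :=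
        Real.rpow_def_of_pos (by norm_num) _
      rw [h10]
      refine (h3.trans (h4.le.trans h6)).trans (Real.exp_le_exp.2 ?_)
      have h11 : 0.6931 * (12 * Q) ≤ Real.log 2 * (12 * Q) :=
        mul_le_mul_of_nonneg_right (by linarith) (by positivity)
      linarith
    have h11 : 0 ≤ M * (1 + 6000 * Q) := by positivity
    refine (Real.rpow_le_rpow h11 h2 (by positivity)).trans ?_
    rw [← Real.rpow_mul (by norm_num)]
    have h12 : 12 * Q * (P / (6000 * Q)) = P / 500 := by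
      field_simp; ring
    rw [h12]

end Pool.Agent.Lib.MP50ecf8.LOC
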