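import Pool.Agent.Lib.MP_50ecf8_co.LOC.Spec8

set_option autoImplicit false

namespace Pool.Agent.Lib.MP50ecf8.LOC

namespace NUTYM

lemma step {D : ℕ} (hD : 2 ≤ D) (k : ℕ) (h : (2 : ℝ) ^ k ≤ (D : ℝ)) : (k : ℝ) ≤ Real.logb 2 D := by
  have hD0 : (0 : ℝ) < (D : ℝ) := by
    have : (2 : ℝ) ≤ (D : ℝ) := by exact_mod_cast hD
    linarith
  rw [Real.le_logb_iff_rpow_le one_lt_two hD0, Real.rpow_natCast]
  exact h

lemma sixteen {D : ℕ} (hD : 2 ≤ D) (h : 50000 * Real.logb 2 D ≤ (D : ℝ)) :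
    16 ≤ Real.logb 2 D := by
  have h1 := step hD 1 (by rw [pow_one]; exact_mod_cast hD)
  push_cast at h1
  have h2 := step hD 15 (le_trans (by norm_num : (2 : ℝ) ^ 15 ≤ 50000) (by linarith))
  push_cast at h2
  have h4 := step hD 16 (le_trans (by norm_num : (2 : ℝ) ^ 16 ≤ 750000) (by linarith))
  push_cast at h4
  exact h4

lemma exp16 : (7500000 : ℝ) ≤ Real.exp 16 := by
  have h1 : (2.7 : ℝ) ≤ Real.exp 1 := by
    have := Real.exp_one_gt_d9
    linarith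
  have h2 : Real.exp 16 = Real.exp 1 ^ 16 := by
    rw [← Real.exp_nat_mul]; norm_num
  rw [h2]
  have h3 := pow_le_pow_left₀ (by norm_num) h1 16
  refine le_trans ?_ h3
  norm_num

/-- the probability term -/
lemma prob {U L : ℝ} (hU : 1 ≤ U) (hL : 16 ≤ L) (s : ℕ) (hs : U * (16 + 3 * Real.log L) ≤ s) :
    (1 - 1 / U) ^ s * (7500000 * L ^ 3) ≤ 1 := by
  have hU0 : 0 < U := by linarith
  have hL0 : 0 < L := by linarith
  have h1 : 0 ≤ 1 - 1 / U := by
    rw [sub_nonneg, div_le_one hU0]; exact hU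
  have h2 : (1 - 1 / U) ^ s ≤ Real.exp ((s : ℝ) * (-(1 / U))) := by
    rw [Real.exp_nat_mul]
    exact pow_le_pow_left₀ h1 (Real.one_sub_le_exp_neg _) s
  have h3 : (s : ℝ) * (-(1 / U)) ≤ -(16 + 3 * Real.log L) := by
    have : 16 + 3 * Real.log L ≤ (s : ℝ) * (1 / U) := by
      rw [mul_one_div, le_div_iff₀ hU0]
      linarith
    linarith
  have h4 : (1 - 1 / U) ^ s ≤ Real.exp (-(16 + 3 * Real.log L)) := h2.trans (Real.exp_le_exp.2 h3)
  have h5 : 7500000 * L ^ 3 ≤ Real.exp (16 + 3 * Real.log L) := by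
    have h6 : Real.exp (3 * Real.log L) = L ^ 3 := by
      rw [show (3 : ℝ) * Real.log L = ((3 : ℕ) : ℝ) * Real.log L by norm_num, Real.exp_nat_mul,
        Real.exp_log hL0]
    rw [Real.exp_add, h6]
    exact mul_le_mul_of_nonneg_right exp16 (by positivity)
  calc (1 - 1 / U) ^ s * (7500000 * L ^ 3)
      ≤ Real.exp (-(16 + 3 * Real.log L)) * Real.exp (16 + 3 * Real.log L) :=
        mul_le_mul h4 h5 (by positivity) (Real.exp_pos _).le
    _ = 1 := by rw [← Real.exp_add]; simp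

end NUTYM

open NUTYM in
theorem specNUTY : SpecNUTY := by
  intro p q D hD hDL hq hqp
  have hL16 := sixteen hD hDL
  generalize Real.logb 2 (D : ℝ) = L at *
  have hqp' : (q : ℝ) ≤ (p : ℝ) := by exact_mod_cast hqp
  obtain ⟨P, hP⟩ : ∃ P : ℝ, P = (p : ℝ) := ⟨_, rfl⟩
  obtain ⟨W, hW⟩ : ∃ W : ℝ, W = (q : ℝ) := ⟨_, rfl⟩
  rw [← hW] at hq hqp'
  rw [← hP] at hqp'
  rw [← hP, ← hW]
  obtain ⟨Q, hQ⟩ : ∃ Q : ℝ, Q = Real.sqrt L := ⟨_, rfl⟩
  rw [← hQ]
  have hL0 : 0 < L := by linarith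
  have hQQ : L = Q ^ 2 := by rw [hQ, Real.sq_sqrt hL0.le]
  have hQ4 : 4 ≤ Q := by
    rw [hQ]
    exact Real.le_sqrt_of_sq_le (by norm_num; exact hL16)
  have hQ0 : 0 < Q := by linarith
  have hlog : Real.log L ≤ 2 * (Q - 1) := by
    rw [hQQ, Real.log_pow]
    push_cast
    have := Real.log_le_sub_one_of_pos hQ0
    linarith
  have hlog0 : 0 ≤ Real.log L := Real.log_nonneg (by linarith)
  have hM : (((2 * ⌈1000 * L ^ 2⌉₊ : ℕ) : ℝ)) ≤ 2001 * L ^ 2 := by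
    push_cast
    have h1 := (Nat.ceil_lt_add_one (a := 1000 * L ^ 2) (by positivity)).le
    nlinarith
  have hM0 : (0 : ℝ) ≤ (((2 * ⌈1000 * L ^ 2⌉₊ : ℕ) : ℝ)) := Nat.cast_nonneg _
  generalize (((2 * ⌈1000 * L ^ 2⌉₊ : ℕ) : ℝ)) = M at *
  obtain ⟨U, hU⟩ : ∃ U : ℝ, U = W / (100000 * L) := ⟨_, rfl⟩
  obtain ⟨A, hA⟩ : ∃ A : ℝ, A = P / (100000 * L) := ⟨_, rfl⟩
  have hPA : P = 100000 * L * A := by
    rw [hA]; field_simp
  have hWU : W = 100000 * L * U := by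
    rw [hU]; field_simp
  have hU1 : 1 ≤ U := by
    rw [hU, le_div_iff₀ (by positivity), one_mul]; exact hq
  have hUA : U ≤ A := by
    rw [hU, hA]
    exact div_le_div_of_nonneg_right hqp' (by positivity)
  have hU0 : 0 < U := by linarith
  have hA0 : 0 < A := by linarith
  have hP0 : 0 < P := by rw [hPA]; positivity
  refine ⟨⌈U * (16 + 3 * Real.log L)⌉₊, ?_, ?_⟩
  · have h1 : 100000 * L / W = 1 / U := by
      rw [hWU]; field_simp
    rw [h1]
    have h2 := prob hU1 hL16 ⌈U * (16 + 3 * Real.log L)⌉₊ (Nat.le_ceil _)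
    have h3 := (Nat.ceil_lt_add_one (a := U * (16 + 3 * Real.log L)) (by positivity)).le
    have h0 : 0 ≤ (1 - 1 / U) ^ ⌈U * (16 + 3 * Real.log L)⌉₊ := by
      apply pow_nonneg
      rw [sub_nonneg, div_le_one hU0]; exact hU1
    generalize (1 - 1 / U) ^ ⌈U * (16 + 3 * Real.log L)⌉₊ = e at *
    have h4 : P * M * e ≤ 27 * A := by
      have h5 : P * M * e ≤ P * (2001 * L ^ 2) * e :=
        mul_le_mul_of_nonneg_right (mul_le_mul_of_nonneg_left hM hP0.le) h0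
      have h6 : P * (2001 * L ^ 2) * e = A * (2001 / 75) * (e * (7500000 * L ^ 3)) := by
        rw [hPA]; ring
      have h7 : A * (2001 / 75) * (e * (7500000 * L ^ 3)) ≤ A * (2001 / 75) * 1 :=
        mul_le_mul_of_nonneg_left h2 (by positivity)
      rw [h6] at h5
      linarith
    have h7 : P / (6000 * Q) = A * (50 / 3 * Q) := by
      rw [hPA, hQQ]; field_simp; ring
    rw [h7]
    have h9 : U * (16 + 3 * Real.log L) ≤ A * (16 + 3 * Real.log L) :=
      mul_le_mul_of_nonneg_right hUA (by positivity)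
    have h8 : (⌈U * (16 + 3 * Real.log L)⌉₊ : ℝ) + P * M * e ≤ A * (44 + 3 * Real.log L) := by
      nlinarith
    refine h8.trans (mul_le_mul_of_nonneg_left ?_ hA0.le)
    linarith
  · have h1 : P / (P / (6000 * Q)) = 6000 * Q := by
      field_simp
    rw [h1]
    have h2 : M * (1 + 6000 * Q) ≤ (2 : ℝ) ^ (12 * Q) := by
      have h3 : M * (1 + 6000 * Q) ≤ 2001 * L ^ 2 * (6001 * Q) :=
        mul_le_mul hM (by linarith) (by positivity) (by positivity)
      have h4 : 2001 * L ^ 2 * (6001 * Q) = 12008001 * Q ^ 5 := by rw [hQQ]; ring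
      have h5 : Q ≤ (2 : ℝ) ^ Q := by
        have := one_add_mul_self_le_rpow_one_add (s := (1 : ℝ)) (by norm_num) (p := Q) (by linarith)
        norm_num at this
        linarith
      have h6 : Q ^ 5 ≤ ((2 : ℝ) ^ Q) ^ 5 := pow_le_pow_left₀ hQ0.le h5 5
      have h7 : (16 : ℝ) ≤ (2 : ℝ) ^ Q := by
        have h71 : (2 : ℝ) ^ (4 : ℝ) ≤ (2 : ℝ) ^ Q := Real.rpow_le_rpow_of_exponent_le one_le_two hQ4
        have h72 : (2 : ℝ) ^ (4 : ℝ) = 16 := by
          rw [show (4 : ℝ) = ((4 : ℕ) : ℝ) by norm_num, Real.rpow_natCast]; norm_num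
        linarith
      have h8 : (16 : ℝ) ^ 7 ≤ ((2 : ℝ) ^ Q) ^ 7 := pow_le_pow_left₀ (by norm_num) h7 7
      have h9 : (2 : ℝ) ^ (12 * Q) = ((2 : ℝ) ^ Q) ^ 7 * ((2 : ℝ) ^ Q) ^ 5 := by
        rw [← pow_add, ← Real.rpow_natCast, ← Real.rpow_mul (by norm_num)]
        congr 1
        push_cast
        ring
      rw [h9]
      have h10 : (12008001 : ℝ) * Q ^ 5 ≤ ((2 : ℝ) ^ Q) ^ 7 * ((2 : ℝ) ^ Q) ^ 5 :=
        mul_le_mul (le_trans (by norm_num) h8) h6 (by positivity) (by positivity)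
      linarith
    have h11 : 0 ≤ M * (1 + 6000 * Q) := by positivity
    refine (Real.rpow_le_rpow h11 h2 (by positivity)).trans ?_
    rw [← Real.rpow_mul (by norm_num)]
    have h12 : 12 * Q * (P / (6000 * Q)) = P / 500 := by
      field_simp; ring
    rw [h12]

end Pool.Agent.Lib.MP50ecf8.LOC
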