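import Pool.Agent.Lib.MP_50ecf8_co.LOC.Spec3

/-!
# P4: the number of vertices of a graph without 4-cycles
-/

set_option autoImplicit false

open Finset
open scoped Classical

namespace Pool.Agent.Lib.MP50ecf8.LOC

namespace P4M

variable {V : Type} [Fintype V]

/-- the neighbours -/
noncomputable def nb (G : SimpleGraph V) (v : V) : Finset V := univ.filter fun w => G.Adj v w

theorem mem_nb {G : SimpleGraph V} {v w : V} : w ∈ nb G v ↔ G.Adj v w := by
  rw [nb, mem_filter]
  exact ⟨fun h => h.2, fun h => ⟨mem_univ _, h⟩⟩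

theorem disj {G : SimpleGraph V}
    (h4 : ∀ u v x y : V, u ≠ v → x ≠ y → G.Adj u x → G.Adj u y → G.Adj v x → ¬ G.Adj v y)
    (v : V) {y y' : V} (hy : y ∈ nb G v) (hy' : y' ∈ nb G v) (hne : y ≠ y') :
    Disjoint ((nb G y).erase v) ((nb G y').erase v) := by
  rw [Finset.disjoint_left]
  intro w hw hw'
  rw [mem_erase, mem_nb] at hw hw'
  rw [mem_nb] at hy hy'
  exact h4 v w y y' hw.1.symm hne hy hy' hw.2.symm hw'.2.symm

theorem card_erase {G : SimpleGraph V} {n : ℕ} (hn : ∀ v, n ≤ deg G v) {v y : V}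
    (hy : y ∈ nb G v) : n - 1 ≤ ((nb G y).erase v).card := by
  have h1 : v ∈ nb G y := mem_nb.2 (mem_nb.1 hy).symm
  rw [Finset.card_erase_of_mem h1]
  have h2 : n ≤ (nb G y).card := hn y
  omega

end P4M

open P4M in
theorem specP4 : SpecP4 := by
  intro V _ G n hV h4 hn
  obtain ⟨v⟩ := Fintype.card_pos_iff.1 hV
  have h1 : ((nb G v).biUnion fun y => (nb G y).erase v).card =
      ∑ y ∈ nb G v, ((nb G y).erase v).card :=
    card_biUnion fun y hy y' hy' hne => disj h4 v hy hy' hne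
  have h2 : (nb G v).card * (n - 1) ≤ ∑ y ∈ nb G v, ((nb G y).erase v).card := by
    rw [← smul_eq_mul]
    exact card_nsmul_le_sum _ _ _ fun y hy => card_erase hn hy
  have h3 : n ≤ (nb G v).card := hn v
  calc n * (n - 1) ≤ (nb G v).card * (n - 1) := Nat.mul_le_mul_right _ h3
    _ ≤ _ := h2
    _ = _ := h1.symm
    _ ≤ Fintype.card V := card_le_univ _

end Pool.Agent.Lib.MP50ecf8.LOC
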