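import Pool.Agent.Lib.MP_50ecf8_co.LOC.Spec6
import Pool.Agent.Lib.MP_50ecf8_co.LOC.EXT

/-!
# PAY (helper21): a paid step of the count (adapted from EXT of helper89)
-/

set_option autoImplicit false

open Finset
open scoped Classical

namespace Pool.Agent.Lib.MP50ecf8.LOC

open EXTM

namespace PAYM

/-- the product over the revealed vertices -/
theorem prod_candK {V : Type} [Fintype V] (G : SimpleGraph V) (Y W : Finset V) (n : ℕ) (K R : ℝ)
    (hn : 1 ≤ n) (hW : ∀ z ∈ W, z ∉ Y) (htc : ∀ z ∈ W, (tc G Y z).card ≤ n)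
    (hWR : (W.card : ℝ) ≤ R) (hR : 0 < R) (hK : 0 ≤ K)
    (g J : Finset (V × V)) (hJ : Good G J) (hgJ : g ⊆ J) (hY : g.image Prod.fst = Y)
    (hTk : ((univ \ J.image Prod.snd).card : ℝ) ≤ K) :
    ((∏ z ∈ W, (Cand G g z).card : ℕ) : ℝ) ≤
      ((n : ℝ) * (1 + K / R)) ^ R := by
  set T : Finset V := univ \ J.image Prod.snd with hT
  have hn0 : (1 : ℝ) ≤ n := by exact_mod_cast hn
  have hc : ∀ z ∈ W, 0 < (tc G Y z).card := by
    intro z hz
    refine Finset.card_pos.2 ⟨z, ?_⟩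
    rw [mem_tc]
    exact ⟨hW z hz, fun w _ => Iff.rfl⟩
  set q : V → ℝ := fun z => (((Cand G g z).filter fun y => y ∈ T).card : ℝ) / (tc G Y z).card
    with hq
  have hq0 : ∀ z, 0 ≤ q z := fun z => div_nonneg (Nat.cast_nonneg _) (Nat.cast_nonneg _)
  have h1 : ∀ z ∈ W, ((Cand G g z).card : ℝ) ≤ n * (1 + q z) := by
    intro z hz
    have hcz : (0 : ℝ) < (tc G Y z).card := by exact_mod_cast hc z hz
    have h2 : (Cand G g z).card ≤
        (Cand G g z ∩ J.image Prod.snd).card + ((Cand G g z).filter fun y => y ∈ T).card := by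
      have h3 : Cand G g z ⊆ (Cand G g z ∩ J.image Prod.snd) ∪
          ((Cand G g z).filter fun y => y ∈ T) := by
        intro y hy
        by_cases hyJ : y ∈ J.image Prod.snd
        · exact Finset.mem_union_left _ (Finset.mem_inter.2 ⟨hy, hyJ⟩)
        · exact Finset.mem_union_right _ (Finset.mem_filter.2 ⟨hy,
            Finset.mem_sdiff.2 ⟨Finset.mem_univ _, hyJ⟩⟩)
      exact (Finset.card_le_card h3).trans (Finset.card_union_le _ _)
    have h4 := cand_inter G Y g J hJ hgJ hY z (hW z hz)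
    have h5 : ((Cand G g z).card : ℝ) ≤ (tc G Y z).card +
        ((Cand G g z).filter fun y => y ∈ T).card := by
      exact_mod_cast h2.trans (Nat.add_le_add_right h4 _)
    have h6 : ((tc G Y z).card : ℝ) + ((Cand G g z).filter fun y => y ∈ T).card =
        (tc G Y z).card * (1 + q z) := by
      rw [hq]
      field_simp
    have h7 : ((tc G Y z).card : ℝ) ≤ n := by exact_mod_cast htc z hz
    rw [h6] at h5
    exact h5.trans (mul_le_mul_of_nonneg_right h7 (by linarith [hq0 z]))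
  have hsum : ∑ z ∈ W, q z ≤ K := (sum_excess G Y W g hY hW T).trans hTk
  have hprod : ∏ z ∈ W, (1 + q z) ≤ (1 + K / R) ^ R :=
    prod_bound W q (fun z _ => hq0 z) _ R hK hR hWR hsum
  rw [Nat.cast_prod]
  calc ∏ z ∈ W, ((Cand G g z).card : ℝ) ≤ ∏ z ∈ W, ((n : ℝ) * (1 + q z)) :=
        Finset.prod_le_prod (fun z _ => Nat.cast_nonneg _) h1
    _ = (n : ℝ) ^ (W.card : ℝ) * ∏ z ∈ W, (1 + q z) := by
        rw [Finset.prod_mul_distrib, Finset.prod_const, Real.rpow_natCast]
    _ ≤ (n : ℝ) ^ R * (1 + K / R) ^ R := by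
        refine mul_le_mul (Real.rpow_le_rpow_of_exponent_le hn0 hWR) hprod ?_ ?_
        · exact Finset.prod_nonneg fun z _ => by linarith [hq0 z]
        · exact Real.rpow_nonneg (by linarith) _
    _ = ((n : ℝ) * (1 + K / R)) ^ R := by
        rw [Real.mul_rpow (by linarith) (by positivity)]

theorem card_snd {V : Type} {G : SimpleGraph V} {J : Finset (V × V)} (hJ : Good G J) :
    (J.image Prod.snd).card = J.card := by
  refine Finset.card_image_of_injOn ?_
  intro u hu w hw h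
  exact Prod.ext ((hJ u hu w hw).1.mpr h) h

theorem mem_AdT {V : Type} [Fintype V] {G : SimpleGraph V} {T X : Finset V} {k : ℕ}
    {Y : Finset V} {h J : Finset (V × V)} : J ∈ AdT G T X k Y h ↔
    Good G J ∧ Closed G J ∧ J.filter (fun u => u.1 ∈ Y) = h ∧
    X ⊆ J.image Prod.fst ∧ univ \ T ⊆ J.image Prod.fst ∧ J.card + k = Fintype.card V := by
  simp [AdT]

theorem mem_UT {V : Type} [Fintype V] {G : SimpleGraph V} {Y : Finset V} {h : Finset (V × V)}
    {y : V} : y ∈ UT G Y h ↔ ∃ x, (∀ u ∈ Y, ¬ Tw G u x) ∧ ∀ z ∈ h, Cmp G (x, y) z := by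
  simp [UT]

/-- the restrictions to `Z` -/
noncomputable def Rs {V : Type} [Fintype V] (G : SimpleGraph V) (T X : Finset V) (k : ℕ)
    (Y Z : Finset V) (h : Finset (V × V)) : Finset (Finset (V × V)) :=
  (AdT G T X k Y h).image fun J => J.filter fun u => u.1 ∈ Z

theorem Rs_card {V : Type} [Fintype V] (G : SimpleGraph V) (T X : Finset V) (k : ℕ)
    (Y Z : Finset V) (h : Finset (V × V)) (hYZ : Y ⊆ Z) (hZX : Z ⊆ X) :
    (Rs G T X k Y Z h).card ≤ ∏ z ∈ Z \ Y, (Cand G h z).card := by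
  rw [← Finset.card_pi]
  have hfst : ∀ J ∈ AdT G T X k Y h, (J.filter fun u => u.1 ∈ Z).image Prod.fst = Z := by
    intro J hJ
    obtain ⟨-, -, -, hX, -, -⟩ := mem_AdT.1 hJ
    ext x
    constructor
    · intro hx
      obtain ⟨⟨x', y⟩, h1, rfl⟩ := Finset.mem_image.1 hx
      exact (Finset.mem_filter.1 h1).2
    · intro hx
      obtain ⟨⟨x', y⟩, h1, h2⟩ := Finset.mem_image.1 (hX (hZX hx))
      simp only at h2
      subst h2
      exact Finset.mem_image.2 ⟨(x', y), Finset.mem_filter.2 ⟨h1, hx⟩, rfl⟩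
  refine Finset.card_le_card_of_injOn (fun h' => fun z _ => im h' z) ?_ ?_
  · intro h' hh'
    obtain ⟨J, hJ, rfl⟩ := Finset.mem_image.1 (Finset.mem_coe.1 hh')
    obtain ⟨hgood, -, hJY, -, -, -⟩ := mem_AdT.1 hJ
    rw [Finset.mem_coe, Finset.mem_pi]
    intro z hz
    rw [mem_Cand]
    intro w hw
    have hw' : w ∈ J := by
      rw [← hJY] at hw
      exact (Finset.mem_filter.1 hw).1
    have h1 := im_mem (exIm (hfst J hJ) (Finset.mem_sdiff.1 hz).1)
    exact hgood _ (Finset.mem_filter.1 h1).1 _ hw'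
  · have key : ∀ J J' : Finset (V × V), J ∈ AdT G T X k Y h → J' ∈ AdT G T X k Y h →
        (∀ z ∈ Z \ Y, im (J.filter fun u => u.1 ∈ Z) z = im (J'.filter fun u => u.1 ∈ Z) z) →
        (J.filter fun u => u.1 ∈ Z) ⊆ (J'.filter fun u => u.1 ∈ Z) := by
      intro J J' hJ hJ' heq
      obtain ⟨hgood, -, hJY, -, -, -⟩ := mem_AdT.1 hJ
      obtain ⟨hgood', -, hJY', -, -, -⟩ := mem_AdT.1 hJ'
      rintro ⟨x, y⟩ hxy
      have hxy' := Finset.mem_filter.1 hxy
      have hxZ : x ∈ Z := hxy'.2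
      by_cases hx : x ∈ Y
      · have h1 : (x, y) ∈ J.filter fun u => u.1 ∈ Y := Finset.mem_filter.2 ⟨hxy'.1, hx⟩
        rw [hJY, ← hJY'] at h1
        exact Finset.mem_filter.2 ⟨(Finset.mem_filter.1 h1).1, hxZ⟩
      · have h1 := heq x (Finset.mem_sdiff.2 ⟨hxZ, hx⟩)
        have h2 : im (J.filter fun u => u.1 ∈ Z) x = y :=
          uniq hgood (Finset.mem_filter.1 (im_mem ⟨y, hxy⟩)).1 hxy'.1
        have h3 := im_mem (exIm (hfst J' hJ') hxZ)
        rw [← h1, h2] at h3
        exact h3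
    intro h' hh' h'' hh'' heq
    obtain ⟨J, hJ, rfl⟩ := Finset.mem_image.1 (Finset.mem_coe.1 hh')
    obtain ⟨J', hJ', rfl⟩ := Finset.mem_image.1 (Finset.mem_coe.1 hh'')
    have heq' : ∀ z ∈ Z \ Y,
        im (J.filter fun u => u.1 ∈ Z) z = im (J'.filter fun u => u.1 ∈ Z) z :=
      fun z hz => congrFun (congrFun heq z) hz
    exact Finset.Subset.antisymm (key J J' hJ hJ' heq')
      (key J' J hJ' hJ fun z hz => (heq' z hz).symm)

end PAYM

open PAYM

theorem specPAY : SpecPAY := by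
  intro V _ G T X Y Z n k K R M hYZ hZX hn htc hR0 hR hkK hM hIH h hY D κ hD hκ
  have hK0 : 0 ≤ K := (Nat.cast_nonneg k).trans hkK
  have hb0 : 0 ≤ ((n : ℝ) * (1 + K / R)) ^ R := Real.rpow_nonneg (by positivity) _
  rcases (AdT G T X k Y h).eq_empty_or_nonempty with hemp | ⟨J₀, hJ₀⟩
  · have h0 : FT G T X k Y h = ∅ := by
      unfold FT
      rw [hemp, Finset.image_empty]
    rw [h0, Finset.card_empty, Nat.cast_zero, mul_zero]
    exact mul_nonneg hM hb0
  · -- the bound for each restriction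
    have hstep : ∀ h' ∈ Rs G T X k Y Z h, 2 ^ κ * ((FT G T X k Z h').card : ℝ) ≤ M := by
      intro h' hh'
      obtain ⟨J, hJ, rfl⟩ := Finset.mem_image.1 hh'
      obtain ⟨hgood, hcl, hJY, hX, hT, hk⟩ := mem_AdT.1 hJ
      have hsub : h ⊆ J.filter fun u => u.1 ∈ Z := by
        rw [← hJY]
        intro u hu
        have hu' := Finset.mem_filter.1 hu
        exact Finset.mem_filter.2 ⟨hu'.1, hYZ hu'.2⟩
      have hAd : ∀ J' ∈ AdT G T X k Z (J.filter fun u => u.1 ∈ Z), J' ∈ AdT G T X k Y h := by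
        intro J' hJ'
        obtain ⟨g1, g2, g3, g4, g5, g6⟩ := mem_AdT.1 hJ'
        refine mem_AdT.2 ⟨g1, g2, ?_, g4, g5, g6⟩
        have e1 : ∀ I : Finset (V × V), I.filter (fun u => u.1 ∈ Y) =
            (I.filter fun u => u.1 ∈ Z).filter fun u => u.1 ∈ Y := by
          intro I
          ext u
          simp only [Finset.mem_filter]
          constructor
          · rintro ⟨a1, a2⟩
            exact ⟨⟨a1, hYZ a2⟩, a2⟩
          · rintro ⟨⟨a1, -⟩, a2⟩
            exact ⟨a1, a2⟩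
        rw [e1, g3, ← e1, hJY]
      refine hIH _ ?_ D κ ?_ ?_
      · ext x
        constructor
        · intro hx
          obtain ⟨⟨x', y⟩, h1, rfl⟩ := Finset.mem_image.1 hx
          exact (Finset.mem_filter.1 h1).2
        · intro hx
          obtain ⟨⟨x', y⟩, h1, h2⟩ := Finset.mem_image.1 (hX (hZX hx))
          simp only at h2
          subst h2
          exact Finset.mem_image.2 ⟨(x', y), Finset.mem_filter.2 ⟨h1, hx⟩, rfl⟩
      · intro y hy hyU
        apply hD y hy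
        obtain ⟨x, hx1, hx2⟩ := mem_UT.1 hyU
        exact mem_UT.2 ⟨x, fun u hu => hx1 u (hYZ hu), fun z hz => hx2 z (hsub hz)⟩
      · intro J' hJ'
        exact hκ J' (hAd J' hJ')
    -- the union
    have hcov : FT G T X k Y h ⊆ (Rs G T X k Y Z h).biUnion fun h' => FT G T X k Z h' := by
      intro A hA
      obtain ⟨J, hJ, rfl⟩ := Finset.mem_image.1 hA
      obtain ⟨g1, g2, g3, g4, g5, g6⟩ := mem_AdT.1 hJ
      refine Finset.mem_biUnion.2 ⟨J.filter fun u => u.1 ∈ Z, Finset.mem_image.2 ⟨J, hJ, rfl⟩, ?_⟩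
      exact Finset.mem_image.2 ⟨J, mem_AdT.2 ⟨g1, g2, rfl, g4, g5, g6⟩, rfl⟩
    have hc1 : ((FT G T X k Y h).card : ℝ) ≤ ∑ h' ∈ Rs G T X k Y Z h, ((FT G T X k Z h').card : ℝ) := by
      have := (Finset.card_le_card hcov).trans Finset.card_biUnion_le
      exact_mod_cast this
    have hc2 : 2 ^ κ * ((FT G T X k Y h).card : ℝ) ≤ (Rs G T X k Y Z h).card * M := by
      calc 2 ^ κ * ((FT G T X k Y h).card : ℝ)
          ≤ 2 ^ κ * ∑ h' ∈ Rs G T X k Y Z h, ((FT G T X k Z h').card : ℝ) :=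
            mul_le_mul_of_nonneg_left hc1 (by positivity)
        _ = ∑ h' ∈ Rs G T X k Y Z h, 2 ^ κ * ((FT G T X k Z h').card : ℝ) := by
            rw [Finset.mul_sum]
        _ ≤ ∑ _h' ∈ Rs G T X k Y Z h, M := Finset.sum_le_sum hstep
        _ = (Rs G T X k Y Z h).card * M := by rw [Finset.sum_const, nsmul_eq_mul]
    -- the number of restrictions
    obtain ⟨g1, g2, g3, g4, g5, g6⟩ := mem_AdT.1 hJ₀
    have hTk : ((univ \ J₀.image Prod.snd).card : ℝ) ≤ K := by
      refine le_trans ?_ hkK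
      have e1 : (univ \ J₀.image Prod.snd).card = k := by
        rw [Finset.card_sdiff_of_subset (Finset.subset_univ _), Finset.card_univ, card_snd g1]
        omega
      rw [e1]
    have hgJ : h ⊆ J₀ := by
      rw [← g3]
      exact Finset.filter_subset _ _
    have hprod := prod_candK G Y (Z \ Y) n K R hn (fun z hz => (Finset.mem_sdiff.1 hz).2)
      (fun z hz => htc z (Finset.mem_sdiff.1 hz).1 (Finset.mem_sdiff.1 hz).2) hR0 hR hK0 h J₀ g1 hgJ
      hY hTk
    have hRs : ((Rs G T X k Y Z h).card : ℝ) ≤ ((n : ℝ) * (1 + K / R)) ^ R := by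
      refine le_trans ?_ hprod
      exact_mod_cast Rs_card G T X k Y Z h hYZ hZX
    refine hc2.trans ?_
    rw [mul_comm]
    exact mul_le_mul_of_nonneg_left hRs hM

end Pool.Agent.Lib.MP50ecf8.LOC

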