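import Pool.Agent.Lib.MP_50ecf8_co.LOC.Spec9
import Pool.Agent.Lib.MP_50ecf8_co.LOC.PAY

/-!
# PAYZ (helper24): a paid step of the count, images up to twins (adapted from PAY of helper21)
-/

set_option autoImplicit false

open Finset
open scoped Classical

namespace Pool.Agent.Lib.MP50ecf8.LOC

open EXTM PAYM

namespace PAYZM

variable {V : Type} [Fintype V]

/-- the elements of `T` with a twin which is a candidate for the image of `z` -/
noncomputable def CT (G : SimpleGraph V) (T : Finset V) (h : Finset (V × V)) (z : V) : Finset V :=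
  T.filter fun t => ∃ y, Tw G y t ∧ ∀ w ∈ h, Cmp G (z, y) w

theorem mem_CT {G : SimpleGraph V} {T : Finset V} {h : Finset (V × V)} {z t : V} :
    t ∈ CT G T h z ↔ t ∈ T ∧ ∃ y, Tw G y t ∧ ∀ w ∈ h, Cmp G (z, y) w := by
  simp [CT]

theorem same_trace' {G : SimpleGraph V} {T : Finset V} {h : Finset (V × V)} {Y : Finset V}
    (hY : h.image Prod.fst = Y) {z z' t : V} (hzY : z ∉ Y) (hzY' : z' ∉ Y)
    (hz : t ∈ CT G T h z) (hz' : t ∈ CT G T h z') :
    ∀ w ∈ Y, (G.Adj w z ↔ G.Adj w z') := by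
  intro w hw
  obtain ⟨w', hw'⟩ := exIm hY hw
  obtain ⟨-, y, hy, h1⟩ := mem_CT.1 hz
  obtain ⟨-, y', hy', h2⟩ := mem_CT.1 hz'
  have a1 := h1 _ hw'
  have a2 := h2 _ hw'
  have b1 : w' ≠ y := by
    intro e
    have e2 : z = w := a1.1.2 e.symm
    exact hzY (e2 ▸ hw)
  have b2 : w' ≠ y' := by
    intro e
    have e2 : z' = w := a2.1.2 e.symm
    exact hzY' (e2 ▸ hw)
  have c1 := a1.2
  have c2 := a2.2
  simp only at c1 c2
  rw [G.adj_comm w z, G.adj_comm w z', c1, c2, G.adj_comm y w', G.adj_comm y' w']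
  exact (hy.trans hy'.symm) w' b1 b2

theorem sum_CT (G : SimpleGraph V) (Y W A : Finset V) (h : Finset (V × V))
    (hY : h.image Prod.fst = Y) (hW : ∀ z ∈ W, z ∉ Y) (hA : ∀ z ∈ W, z ∈ A) (T : Finset V) :
    ∑ z ∈ W, ((CT G T h z).card : ℝ) / (tc G Y z ∩ A).card ≤ T.card := by
  have h1 : ∀ z ∈ W, ((CT G T h z).card : ℝ) / (tc G Y z ∩ A).card =
      ∑ t ∈ T, if t ∈ CT G T h z then (1 : ℝ) / (tc G Y z ∩ A).card else 0 := by
    intro z _
    rw [← Finset.sum_filter, Finset.sum_const, nsmul_eq_mul]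
    have h2 : (T.filter fun t => t ∈ CT G T h z) = CT G T h z := by
      ext t
      rw [Finset.mem_filter]
      constructor
      · exact fun ht => ht.2
      · exact fun ht => ⟨(mem_CT.1 ht).1, ht⟩
    rw [h2]
    ring
  rw [Finset.sum_congr rfl h1, Finset.sum_comm]
  have h3 : ∀ t ∈ T, ∑ z ∈ W,
      (if t ∈ CT G T h z then (1 : ℝ) / (tc G Y z ∩ A).card else 0) ≤ 1 := by
    intro t _
    rw [← Finset.sum_filter]
    rcases (W.filter fun z => t ∈ CT G T h z).eq_empty_or_nonempty with h4 | ⟨z₀, hz₀⟩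
    · rw [h4, Finset.sum_empty]
      exact zero_le_one
    · have hz₀' := Finset.mem_filter.1 hz₀
      have hst : ∀ z ∈ W.filter (fun z => t ∈ CT G T h z), ∀ w ∈ Y,
          (G.Adj w z ↔ G.Adj w z₀) := by
        intro z hz
        have hz' := Finset.mem_filter.1 hz
        exact same_trace' hY (hW z hz'.1) (hW z₀ hz₀'.1) hz'.2 hz₀'.2
      have htr : ∀ z ∈ W.filter (fun z => t ∈ CT G T h z), tc G Y z = tc G Y z₀ := by
        intro z hz
        have hs := hst z hz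
        ext u
        rw [mem_tc, mem_tc]
        constructor
        · rintro ⟨hu, h⟩
          exact ⟨hu, fun w hw => (h w hw).trans (hs w hw)⟩
        · rintro ⟨hu, h⟩
          exact ⟨hu, fun w hw => (h w hw).trans (hs w hw).symm⟩
      have hsub : W.filter (fun z => t ∈ CT G T h z) ⊆ tc G Y z₀ ∩ A := by
        intro z hz
        have hz' := Finset.mem_filter.1 hz
        rw [Finset.mem_inter, mem_tc]
        exact ⟨⟨hW z hz'.1, hst z hz⟩, hA z hz'.1⟩
      rw [Finset.sum_congr rfl fun z hz => by rw [htr z hz], Finset.sum_const, nsmul_eq_mul]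
      have hpos : 0 < (tc G Y z₀ ∩ A).card := Finset.card_pos.2 ⟨z₀, hsub hz₀⟩
      have hpos' : (0 : ℝ) < (tc G Y z₀ ∩ A).card := by exact_mod_cast hpos
      rw [mul_one_div, div_le_one hpos']
      exact_mod_cast Finset.card_le_card hsub
  calc ∑ t ∈ T, ∑ z ∈ W, (if t ∈ CT G T h z then (1 : ℝ) / (tc G Y z ∩ A).card else 0)
      ≤ ∑ _t ∈ T, (1 : ℝ) := Finset.sum_le_sum h3
    _ = T.card := by simp

/-- the product over the revealed vertices -/
theorem prod_CT (G : SimpleGraph V) (Y W A T : Finset V) (n : ℕ) (K R : ℝ)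
    (hn : 1 ≤ n) (hW : ∀ z ∈ W, z ∉ Y) (hA : ∀ z ∈ W, z ∈ A)
    (htc : ∀ z ∈ W, (tc G Y z ∩ A).card ≤ n)
    (hWR : (W.card : ℝ) ≤ R) (hR : 0 < R) (hTK : (T.card : ℝ) ≤ K)
    (h : Finset (V × V)) (hY : h.image Prod.fst = Y) :
    ((∏ z ∈ W, (CT G T h z).card : ℕ) : ℝ) ≤ ((n : ℝ) * (1 + K / R)) ^ R := by
  have hK : 0 ≤ K := (Nat.cast_nonneg _).trans hTK
  have hn0 : (1 : ℝ) ≤ n := by exact_mod_cast hn
  have hc : ∀ z ∈ W, 0 < (tc G Y z ∩ A).card := by
    intro z hz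
    refine Finset.card_pos.2 ⟨z, ?_⟩
    rw [Finset.mem_inter, mem_tc]
    exact ⟨⟨hW z hz, fun w _ => Iff.rfl⟩, hA z hz⟩
  set q : V → ℝ := fun z => ((CT G T h z).card : ℝ) / (tc G Y z ∩ A).card with hq
  have hq0 : ∀ z, 0 ≤ q z := fun z => div_nonneg (Nat.cast_nonneg _) (Nat.cast_nonneg _)
  have h1 : ∀ z ∈ W, ((CT G T h z).card : ℝ) ≤ n * (1 + q z) := by
    intro z hz
    have hcz : (0 : ℝ) < (tc G Y z ∩ A).card := by exact_mod_cast hc z hz
    have h6 : ((CT G T h z).card : ℝ) = (tc G Y z ∩ A).card * q z := by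
      rw [hq]
      field_simp
    have h7 : ((tc G Y z ∩ A).card : ℝ) ≤ n := by exact_mod_cast htc z hz
    rw [h6]
    calc ((tc G Y z ∩ A).card : ℝ) * q z ≤ n * q z := mul_le_mul_of_nonneg_right h7 (hq0 z)
      _ ≤ n * (1 + q z) := mul_le_mul_of_nonneg_left (by linarith) (by linarith)
  have hsum : ∑ z ∈ W, q z ≤ K := (sum_CT G Y W A h hY hW hA T).trans hTK
  have hprod : ∏ z ∈ W, (1 + q z) ≤ (1 + K / R) ^ R :=
    prod_bound W q (fun z _ => hq0 z) _ R hK hR hWR hsum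
  rw [Nat.cast_prod]
  calc ∏ z ∈ W, ((CT G T h z).card : ℝ) ≤ ∏ z ∈ W, ((n : ℝ) * (1 + q z)) :=
        Finset.prod_le_prod (fun z _ => Nat.cast_nonneg _) h1
    _ = (n : ℝ) ^ (W.card : ℝ) * ∏ z ∈ W, (1 + q z) := by
        rw [Finset.prod_mul_distrib, Finset.prod_const, Real.rpow_natCast]
    _ ≤ (n : ℝ) ^ R * (1 + K / R) ^ R := by
        refine mul_le_mul (Real.rpow_le_rpow_of_exponent_le hn0 hWR) hprod ?_ ?_
        · exact Finset.prod_nonneg fun z _ => by linarith [hq0 z]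
        · exact Real.rpow_nonneg (by linarith) _
    _ = ((n : ℝ) * (1 + K / R)) ^ R := by
        rw [Real.mul_rpow (by linarith) (by positivity)]

/-! ### composition with an automorphism -/

/-- `φ ∘ J` -/
noncomputable def cp {G : SimpleGraph V} (φ : G ≃g G) (J : Finset (V × V)) : Finset (V × V) :=
  J.image fun u => (u.1, φ u.2)

theorem cmp_cp {G : SimpleGraph V} (φ : G ≃g G) (u w : V × V) :
    Cmp G (u.1, φ u.2) (w.1, φ w.2) ↔ Cmp G u w := by
  unfold Cmp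
  rw [φ.injective.eq_iff, φ.map_adj_iff]

theorem mem_cp {G : SimpleGraph V} {φ : G ≃g G} {J : Finset (V × V)} {u : V × V} :
    u ∈ cp φ J ↔ (u.1, φ.symm u.2) ∈ J := by
  unfold cp
  rw [Finset.mem_image]
  constructor
  · rintro ⟨w, hw, rfl⟩
    show (w.1, φ.symm (φ w.2)) ∈ J
    rw [φ.symm_apply_apply]
    exact hw
  · intro h
    exact ⟨_, h, Prod.ext rfl (φ.apply_symm_apply u.2)⟩

theorem cp_fst {G : SimpleGraph V} (φ : G ≃g G) (J : Finset (V × V)) :
    (cp φ J).image Prod.fst = J.image Prod.fst := by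
  unfold cp
  rw [Finset.image_image]
  rfl

theorem cp_card {G : SimpleGraph V} (φ : G ≃g G) (J : Finset (V × V)) :
    (cp φ J).card = J.card := by
  unfold cp
  refine Finset.card_image_of_injective _ ?_
  intro u w h
  have h1 := congrArg Prod.fst h
  have h2 := congrArg Prod.snd h
  exact Prod.ext h1 (φ.injective h2)

theorem cp_good {G : SimpleGraph V} (φ : G ≃g G) {J : Finset (V × V)} (hJ : Good G J) :
    Good G (cp φ J) := by
  intro u hu w hw
  obtain ⟨u', hu', rfl⟩ := Finset.mem_image.1 hu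
  obtain ⟨w', hw', rfl⟩ := Finset.mem_image.1 hw
  exact (cmp_cp φ u' w').2 (hJ u' hu' w' hw')

theorem cp_closed {G : SimpleGraph V} (φ : G ≃g G) {J : Finset (V × V)} (hJ : Closed G J) :
    Closed G (cp φ J) := by
  intro u hu hcomp
  have e : ∀ u : V × V, ((u.1, φ.symm u.2).1, φ (u.1, φ.symm u.2).2) = u := fun u =>
    Prod.ext rfl (φ.apply_symm_apply u.2)
  obtain ⟨w, hw, hnw⟩ := hJ (u.1, φ.symm u.2) (fun h => hu (mem_cp.2 h)) (by
    intro z hz
    have h1 := hcomp (z.1, φ z.2) (Finset.mem_image.2 ⟨z, hz, rfl⟩)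
    rw [← cmp_cp φ, e]
    exact h1)
  refine ⟨(w.1, φ w.2), ?_, ?_⟩
  · intro z hz
    obtain ⟨z', hz', rfl⟩ := Finset.mem_image.1 hz
    exact (cmp_cp φ w z').2 (hw z' hz')
  · intro hc
    apply hnw
    rw [← cmp_cp φ, e]
    exact hc

theorem cp_filter {G : SimpleGraph V} (φ : G ≃g G) (J : Finset (V × V)) (Z : Finset V) :
    (cp φ J).filter (fun u => u.1 ∈ Z) = (J.filter fun u => u.1 ∈ Z).image
      fun u => (u.1, φ u.2) := by
  ext u
  rw [Finset.mem_filter, Finset.mem_image]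
  constructor
  · rintro ⟨h1, h2⟩
    obtain ⟨w, hw, rfl⟩ := Finset.mem_image.1 h1
    exact ⟨w, Finset.mem_filter.2 ⟨hw, h2⟩, rfl⟩
  · rintro ⟨w, hw, rfl⟩
    obtain ⟨hw1, hw2⟩ := Finset.mem_filter.1 hw
    exact ⟨Finset.mem_image.2 ⟨w, hw1, rfl⟩, hw2⟩

end PAYZM

open PAYZM

theorem specPAYZ (hPRM : SpecPRM) : SpecPAYZ := by
  intro V _ G T A X Y Z n k K R M hT hYZ hZX hZA hn htc hR0 hR hTK hM hIH h hY D κ hD hκ
  choose r hr1 hr2 using hT.1
  -- facts on the elements of `AdT`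
  have hsubJ : ∀ J ∈ AdT G T X k Y h, h ⊆ J := by
    intro J hJ
    obtain ⟨-, -, g3, -, -, -⟩ := mem_AdT.1 hJ
    rw [← g3]
    exact Finset.filter_subset _ _
  have hdom : ∀ J ∈ AdT G T X k Y h, (J.filter fun u => u.1 ∈ Z).image Prod.fst = Z := by
    intro J hJ
    obtain ⟨-, -, -, hX, -, -⟩ := mem_AdT.1 hJ
    ext x
    constructor
    · intro hx
      obtain ⟨⟨x', y⟩, h1, rfl⟩ := Finset.mem_image.1 hx
      exact (Finset.mem_filter.1 h1).2
    · intro hx
      obtain ⟨⟨x', y⟩, h1, h2⟩ := Finset.mem_image.1 (hX (hZX hx))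
      simp only at h2
      subst h2
      exact Finset.mem_image.2 ⟨(x', y), Finset.mem_filter.2 ⟨h1, hx⟩, rfl⟩
  have him : ∀ J ∈ AdT G T X k Y h, ∀ z ∈ Z, (z, im J z) ∈ J := by
    intro J hJ z hz
    apply im_mem
    obtain ⟨y, hy⟩ := exIm (hdom J hJ) hz
    exact ⟨y, (Finset.mem_filter.1 hy).1⟩
  -- the images up to twins
  set Φ : Finset (V × V) → ((z : V) → z ∈ Z \ Y → V) := fun J z _ => r (im J z) with hΦ
  set S := (AdT G T X k Y h).image Φ with hS
  have hScard : (S.card : ℝ) ≤ ((n : ℝ) * (1 + K / R)) ^ R := by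
    have h1 : S.card ≤ ∏ z ∈ Z \ Y, (CT G T h z).card := by
      rw [← Finset.card_pi]
      apply Finset.card_le_card
      intro σ hσ
      obtain ⟨J, hJ, rfl⟩ := Finset.mem_image.1 hσ
      rw [Finset.mem_pi]
      intro z hz
      rw [mem_CT]
      refine ⟨hr1 _, im J z, hr2 _, ?_⟩
      intro w hw
      exact (mem_AdT.1 hJ).1 _ (him J hJ z (Finset.mem_sdiff.1 hz).1) _ (hsubJ J hJ hw)
    have h2 := prod_CT G Y (Z \ Y) A T n K R hn (fun z hz => (Finset.mem_sdiff.1 hz).2)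
      (fun z hz => hZA hz)
      (fun z hz => htc z (Finset.mem_sdiff.1 hz).1 (Finset.mem_sdiff.1 hz).2) hR0 hR hTK h hY
    refine le_trans ?_ h2
    exact_mod_cast h1
  have hchoice : ∀ σ ∈ S, ∃ J ∈ AdT G T X k Y h, Φ J = σ := fun σ hσ => Finset.mem_image.1 hσ
  choose! Jc hJc1 hJc2 using hchoice
  -- the bound for each restriction
  have hstep : ∀ σ ∈ S, 2 ^ κ *
      ((FT G T X k Z ((Jc σ).filter fun u => u.1 ∈ Z)).card : ℝ) ≤ M := by
    intro σ hσ
    have hJ := hJc1 σ hσ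
    obtain ⟨hgood, hcl, hJY, hX, hT', hk⟩ := mem_AdT.1 hJ
    have hsub : h ⊆ (Jc σ).filter fun u => u.1 ∈ Z := by
      rw [← hJY]
      intro u hu
      have hu' := Finset.mem_filter.1 hu
      exact Finset.mem_filter.2 ⟨hu'.1, hYZ hu'.2⟩
    have hAd : ∀ J' ∈ AdT G T X k Z ((Jc σ).filter fun u => u.1 ∈ Z), J' ∈ AdT G T X k Y h := by
      intro J' hJ'
      obtain ⟨g1, g2, g3, g4, g5, g6⟩ := mem_AdT.1 hJ'
      refine mem_AdT.2 ⟨g1, g2, ?_, g4, g5, g6⟩
      have e1 : ∀ I : Finset (V × V), I.filter (fun u => u.1 ∈ Y) =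
          (I.filter fun u => u.1 ∈ Z).filter fun u => u.1 ∈ Y := by
        intro I
        ext u
        simp only [Finset.mem_filter]
        constructor
        · rintro ⟨a1, a2⟩
          exact ⟨⟨a1, hYZ a2⟩, a2⟩
        · rintro ⟨⟨a1, -⟩, a2⟩
          exact ⟨a1, a2⟩
      rw [e1, g3, ← e1, hJY]
    refine hIH _ (hdom _ hJ) D κ ?_ ?_
    · intro y hy hyU
      apply hD y hy
      obtain ⟨x, hx1, hx2⟩ := mem_UT.1 hyU
      exact mem_UT.2 ⟨x, fun u hu => hx1 u (hYZ hu), fun z hz => hx2 z (hsub hz)⟩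
    · intro J' hJ'
      exact hκ J' (hAd J' hJ')
  -- the union
  have hcov : FT G T X k Y h ⊆
      S.biUnion fun σ => FT G T X k Z ((Jc σ).filter fun u => u.1 ∈ Z) := by
    intro A' hA'
    obtain ⟨J, hJ, rfl⟩ := Finset.mem_image.1 hA'
    have hσ : Φ J ∈ S := Finset.mem_image.2 ⟨J, hJ, rfl⟩
    have hJ' := hJc1 _ hσ
    have heq := hJc2 _ hσ
    set J' := Jc (Φ J) with hJ'd
    obtain ⟨g1, g2, g3, g4, g5, g6⟩ := mem_AdT.1 hJ
    obtain ⟨g1', g2', g3', g4', g5', g6'⟩ := mem_AdT.1 hJ'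
    obtain ⟨φ, hφ⟩ := hPRM V G (J.filter fun u => u.1 ∈ Z) (J'.filter fun u => u.1 ∈ Z)
      (fun u hu w hw => g1 u (Finset.mem_filter.1 hu).1 w (Finset.mem_filter.1 hw).1)
      (fun u hu w hw => g1' u (Finset.mem_filter.1 hu).1 w (Finset.mem_filter.1 hw).1)
      ((hdom J hJ).trans (hdom J' hJ').symm) (by
        rintro ⟨x, y⟩ hu ⟨x', y'⟩ hw huw
        simp only at huw
        subst huw
        obtain ⟨hu1, hxZ⟩ := Finset.mem_filter.1 hu
        obtain ⟨hw1, -⟩ := Finset.mem_filter.1 hw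
        simp only at hxZ ⊢
        by_cases hxY : x ∈ Y
        · have a1 : (x, y) ∈ h := by
            rw [← g3]
            exact Finset.mem_filter.2 ⟨hu1, hxY⟩
          have a2 : y = y' := uniq g1' (hsubJ J' hJ' a1) hw1
          rw [a2]
          exact Tw.refl G y'
        · have hz : x ∈ Z \ Y := Finset.mem_sdiff.2 ⟨hxZ, hxY⟩
          have a1 : r (im J' x) = r (im J x) := congrFun (congrFun heq x) hz
          have a2 : im J x = y := uniq g1 (him J hJ x hxZ) hu1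
          have a3 : im J' x = y' := uniq g1' (him J' hJ' x hxZ) hw1
          rw [a2, a3] at a1
          have a4 := hr2 y'
          rw [a1] at a4
          exact (hr2 y).trans a4.symm)
    refine Finset.mem_biUnion.2 ⟨Φ J, hσ, ?_⟩
    refine Finset.mem_image.2 ⟨cp φ J, mem_AdT.2 ⟨cp_good φ g1, cp_closed φ g2, ?_, ?_, ?_, ?_⟩,
      cp_fst φ J⟩
    · rw [cp_filter]
      exact hφ.symm
    · rw [cp_fst]
      exact g4
    · rw [cp_fst]
      exact g5
    · rw [cp_card]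
      exact g6
  have hc1 : ((FT G T X k Y h).card : ℝ) ≤
      ∑ σ ∈ S, ((FT G T X k Z ((Jc σ).filter fun u => u.1 ∈ Z)).card : ℝ) := by
    have := (Finset.card_le_card hcov).trans Finset.card_biUnion_le
    exact_mod_cast this
  have hc2 : 2 ^ κ * ((FT G T X k Y h).card : ℝ) ≤ S.card * M := by
    calc 2 ^ κ * ((FT G T X k Y h).card : ℝ)
        ≤ 2 ^ κ * ∑ σ ∈ S, ((FT G T X k Z ((Jc σ).filter fun u => u.1 ∈ Z)).card : ℝ) :=
          mul_le_mul_of_nonneg_left hc1 (by positivity)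
      _ = ∑ σ ∈ S, 2 ^ κ * ((FT G T X k Z ((Jc σ).filter fun u => u.1 ∈ Z)).card : ℝ) := by
          rw [Finset.mul_sum]
      _ ≤ ∑ _σ ∈ S, M := Finset.sum_le_sum hstep
      _ = S.card * M := by rw [Finset.sum_const, nsmul_eq_mul]
  refine hc2.trans ?_
  rw [mul_comm]
  exact mul_le_mul_of_nonneg_left hScard hM

end Pool.Agent.Lib.MP50ecf8.LOC
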