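import Pool.Agent.Lib.MP_50ecf8_co.LOC.Spec7

/-!
# MP_50ecf8_co, module PCMX: the base of a chain may be enlarged
-/

set_option autoImplicit false

open Finset
open scoped Classical

namespace Pool.Agent.Lib.MP50ecf8.LOC

theorem specPCMX : SpecPCMX := by
  intro V _ G X₀ X₁ Y c h hX
  induction h with
  | base =>
    have e : X₀ ∪ X₁ = X₁ := union_eq_right.2 hX
    rw [e]
    exact PC.base
  | @paid Y Z c R n _ hYZ hn htc hcard hR ih =>
    refine PC.paid ih (union_subset_union hYZ (Subset.refl X₁)) hn ?_ ?_ hR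
    · intro z hz hz'
      rw [mem_union, not_or] at hz'
      have hzZ : z ∈ Z := (mem_union.1 hz).resolve_right hz'.2
      refine le_trans (card_le_card ?_) (htc z hzZ hz'.1)
      intro u hu
      rw [tc, mem_filter] at hu ⊢
      exact ⟨mem_univ u, fun h => hu.2.1 (mem_union_left _ h), fun w hw =>
        hu.2.2 w (mem_union_left _ hw)⟩
    · refine le_trans ?_ hcard
      have hsub : (Z ∪ X₁) \ (Y ∪ X₁) ⊆ Z \ Y := by
        intro u hu
        rw [mem_sdiff, mem_union, mem_union, not_or] at hu
        rw [mem_sdiff]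
        exact ⟨hu.1.resolve_right hu.2.2, hu.2.1⟩
      exact_mod_cast card_le_card hsub

end Pool.Agent.Lib.MP50ecf8.LOC
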