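import Pool.Agent.Lib.MP_50ecf8_co.LOC.Spec8

/-!
# PHIY (MP_50ecf8_co): bounds for the potential (adapted from PHIX of helper15)
-/

set_option autoImplicit false

open Finset
open scoped Classical

namespace Pool.Agent.Lib.MP50ecf8.LOC

namespace PHIYM

lemma self_mem {V : Type} [Fintype V] (G : SimpleGraph V) (B Y : Finset V) {v : V} (hv : v ∉ B) :
    v ∈ cl G B Y v := by
  unfold cl
  rw [mem_filter]
  exact ⟨mem_univ _, hv, fun w _ => Iff.rfl⟩

lemma cl_anti {V : Type} [Fintype V] (G : SimpleGraph V) (B : Finset V) {Y Y' : Finset V}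
    (h : Y ⊆ Y') (v : V) : cl G B Y' v ⊆ cl G B Y v := by
  unfold cl
  intro u hu
  rw [mem_filter] at hu ⊢
  exact ⟨mem_univ _, hu.2.1, fun w hw => hu.2.2 w (h hw)⟩

lemma card_pos' {V : Type} [Fintype V] (G : SimpleGraph V) (B Y : Finset V) {v : V}
    (hv : v ∉ B) : 1 ≤ (cl G B Y v).card :=
  card_pos.2 ⟨v, self_mem G B Y hv⟩

lemma card_le' {V : Type} [Fintype V] (G : SimpleGraph V) (B Y : Finset V) {D : ℕ}
    (hD : ∀ w ∈ Y, deg G w ≤ D) {v : V} (hv : ¬ Em G Y v) : (cl G B Y v).card ≤ D := by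
  unfold Em at hv
  push Not at hv
  obtain ⟨w, hw, hwv⟩ := hv
  refine le_trans (card_le_card ?_) (hD w hw)
  intro u hu
  unfold cl at hu
  rw [mem_filter] at hu ⊢
  exact ⟨mem_univ _, (hu.2.2 w hw).2 hwv⟩

lemma log_mono {a b : ℕ} (ha : 1 ≤ a) (h : a ≤ b) :
    Real.logb 2 (a : ℝ) ≤ Real.logb 2 (b : ℝ) := by
  have h1 : (0 : ℝ) < a := by exact_mod_cast ha
  have h2 : (a : ℝ) ≤ b := by exact_mod_cast h
  exact Real.logb_le_logb_of_le (by norm_num) h1 h2

lemma log_nonneg (a : ℕ) : 0 ≤ Real.logb 2 (a : ℝ) := by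
  rcases Nat.eq_zero_or_pos a with h | h
  · subst h; simp
  · exact Real.logb_nonneg (by norm_num) (by exact_mod_cast h)

lemma term_nonneg {V : Type} [Fintype V] (G : SimpleGraph V) (B Y : Finset V) {D : ℕ}
    (hD : ∀ w ∈ Y, deg G w ≤ D) {v : V} (h1 : v ∉ B) (h2 : ¬ Em G Y v) :
    0 ≤ Real.logb 2 D - Real.logb 2 ((cl G B Y v).card : ℝ) :=
  sub_nonneg.2 (log_mono (card_pos' G B Y h1) (card_le' G B Y hD h2))

end PHIYM

open PHIYM in
theorem specPHIY : SpecPHIY := by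
  intro V _ G B W D hD
  refine ⟨?_, ?_, ?_⟩
  · intro Y hYW
    unfold Phi
    refine sum_nonneg fun v hv => ?_
    rw [mem_filter] at hv
    exact term_nonneg G B Y (fun w hw => hD w (hYW hw)) hv.2.1 hv.2.2
  · intro Y _
    unfold Phi
    have h1 : ∑ v ∈ univ.filter (fun v => v ∉ B ∧ ¬ Em G Y v),
        (Real.logb 2 D - Real.logb 2 ((cl G B Y v).card : ℝ)) ≤
        ∑ v ∈ univ.filter (fun v => v ∉ B ∧ ¬ Em G Y v), Real.logb 2 (D : ℝ) := by
      refine sum_le_sum fun v _ => ?_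
      have := log_nonneg (cl G B Y v).card
      linarith
    refine h1.trans ?_
    rw [sum_const, nsmul_eq_mul]
    refine mul_le_mul_of_nonneg_right ?_ (log_nonneg D)
    exact_mod_cast card_le_univ _
  · intro Y Y' hYY hYW
    unfold Phi
    have hsub : univ.filter (fun v => v ∉ B ∧ ¬ Em G Y v) ⊆
        univ.filter (fun v => v ∉ B ∧ ¬ Em G Y' v) := by
      intro v hv
      rw [mem_filter] at hv ⊢
      exact ⟨mem_univ _, hv.2.1, fun h => hv.2.2 fun w hw => h w (hYY hw)⟩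
    have h1 : ∑ v ∈ univ.filter (fun v => v ∉ B ∧ ¬ Em G Y v),
        (Real.logb 2 D - Real.logb 2 ((cl G B Y v).card : ℝ)) ≤
        ∑ v ∈ univ.filter (fun v => v ∉ B ∧ ¬ Em G Y v),
        (Real.logb 2 D - Real.logb 2 ((cl G B Y' v).card : ℝ)) := by
      refine sum_le_sum fun v hv => ?_
      rw [mem_filter] at hv
      have := log_mono (card_pos' G B Y' hv.2.1) (card_le_card (cl_anti G B hYY v))
      linarith
    refine h1.trans (sum_le_sum_of_subset_of_nonneg hsub fun v hv _ => ?_)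
    rw [mem_filter] at hv
    exact term_nonneg G B Y' (fun w hw => hD w (hYW hw)) hv.2.1 hv.2.2

end Pool.Agent.Lib.MP50ecf8.LOC
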