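import Pool.Agent.Lib.MP_50ecf8_co.LOC.Spec8
import Pool.Agent.Lib.MP_50ecf8_co.LOC.STG

/-!
# Module PHSY: one phase of the random revealing, general form (helper47, from PHSX of helper77)
-/

set_option autoImplicit false

open Finset
open scoped Classical

namespace Pool.Agent.Lib.MP50ecf8.LOC

namespace PHSYM

variable {V : Type} [Fintype V]

/-- the tuples in `W` -/
noncomputable def TT (W : Finset V) (s : ℕ) : Finset (Fin s → V) :=
  Fintype.piFinset fun _ => W

lemma mem_TT (W : Finset V) (s : ℕ) (c : Fin s → V) : c ∈ TT W s ↔ ∀ i, c i ∈ W := by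
  rw [TT, Fintype.mem_piFinset]

lemma card_TT (W : Finset V) (s : ℕ) : (TT W s).card = W.card ^ s := by
  rw [TT, Fintype.card_piFinset, prod_const, card_univ, Fintype.card_fin]

omit [Fintype V] in
lemma dc {τ : Type} (T : Finset τ) (A : Finset V) (F : τ → Finset V) (hF : ∀ c ∈ T, F c ⊆ A) :
    ∑ c ∈ T, ((F c).card : ℝ) = ∑ v ∈ A, ((T.filter fun c => v ∈ F c).card : ℝ) := by
  have h : ∀ c ∈ T, ((F c).card : ℝ) = ∑ v ∈ A, if v ∈ F c then (1 : ℝ) else 0 := by
    intro c hc
    rw [sum_ite_mem, sum_const, nsmul_eq_mul, mul_one]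
    congr 2
    symm
    rw [inter_eq_right]
    exact hF c hc
  rw [sum_congr rfl h, sum_comm]
  refine sum_congr rfl fun v _ => ?_
  rw [← sum_filter, sum_const, nsmul_eq_mul, mul_one]

lemma card_coord (s : ℕ) (W U : Finset V) (i : Fin s) :
    W.card * ((TT W s).filter fun c => c i ∈ U).card ≤ U.card * W.card ^ s := by
  have h1 : ((TT W s).filter fun c => c i ∈ U) =
      Fintype.piFinset (fun j => if j = i then W ∩ U else W) := by
    ext c
    rw [mem_filter, mem_TT, Fintype.mem_piFinset]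
    constructor
    · rintro ⟨h0, h⟩ j
      by_cases hj : j = i
      · rw [if_pos hj, hj]
        exact mem_inter.2 ⟨h0 i, h⟩
      · rw [if_neg hj]
        exact h0 j
    · intro h
      refine ⟨fun j => ?_, ?_⟩
      · have := h j
        by_cases hj : j = i
        · rw [if_pos hj] at this
          exact (mem_inter.1 this).1
        · rwa [if_neg hj] at this
      · have := h i
        rw [if_pos rfl] at this
        exact (mem_inter.1 this).2
  rw [h1, Fintype.card_piFinset, ← mul_prod_erase univ _ (mem_univ i)]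
  have h2 : ∀ j ∈ univ.erase i, (if j = i then W ∩ U else W : Finset V).card = W.card := by
    intro j hj
    rw [if_neg (ne_of_mem_erase hj)]
  rw [prod_congr rfl h2, if_pos rfl, prod_const, card_erase_of_mem (mem_univ i), card_univ,
    Fintype.card_fin]
  have hs : 0 < s := i.pos
  obtain ⟨s', rfl⟩ := Nat.exists_eq_succ_of_ne_zero hs.ne'
  rw [Nat.succ_sub_one, Nat.succ_eq_add_one, pow_succ]
  have h3 : (W ∩ U).card ≤ U.card := card_le_card inter_subset_right
  calc W.card * ((W ∩ U).card * W.card ^ s') = (W ∩ U).card * (W.card ^ s' * W.card) := by ring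
    _ ≤ U.card * (W.card ^ s' * W.card) := Nat.mul_le_mul_right _ h3

/-- the tuples which avoid `A` -/
lemma card_avoid (s : ℕ) (W A : Finset V) (t : ℝ) (hAW : A ⊆ W) (hA : t / 2 ≤ (A.card : ℝ))
    (hp : 0 < W.card) (hq : (1 - t / (2 * W.card)) ^ s ≤ 1 / 8)
    (T : Finset (Fin s → V)) (hTW : ∀ c ∈ T, ∀ i, c i ∈ W) (hT : ∀ c ∈ T, ∀ i, c i ∉ A) :
    (T.card : ℝ) ≤ (W.card : ℝ) ^ s * (1 / 8) := by
  have h1 : T ⊆ STGM.avC s W A := by
    intro c hc
    rw [STGM.avC, Fintype.mem_piFinset]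
    intro i
    rw [mem_sdiff]
    exact ⟨hTW c hc i, hT c hc i⟩
  have h2 := STGM.card_avC s W A (t / 2) hAW hA hp
  rw [div_div] at h2
  have h3 : (T.card : ℝ) ≤ ((STGM.avC s W A).card : ℝ) := by exact_mod_cast card_le_card h1
  refine h3.trans (h2.trans ?_)
  exact mul_le_mul_of_nonneg_left hq (by positivity)

omit [Fintype V] in
lemma em_mono (G : SimpleGraph V) {Y Y' : Finset V} (h : Y ⊆ Y') (v : V) (hv : Em G Y' v) :
    Em G Y v := fun w hw => hv w (h hw)

lemma cl_anti (G : SimpleGraph V) (B : Finset V) {Y Y' : Finset V} (h : Y ⊆ Y') (v : V) :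
    cl G B Y' v ⊆ cl G B Y v := by
  intro u hu
  rw [cl, mem_filter] at hu ⊢
  exact ⟨hu.1, hu.2.1, fun w hw => hu.2.2 w (h hw)⟩

lemma mem_EC (G : SimpleGraph V) (B C Y : Finset V) (v : V) :
    v ∈ EC G B C Y ↔ v ∈ C ∧ v ∉ B ∧ Em G Y v := by
  rw [EC, mem_filter]
  exact ⟨fun h => h.2, fun h => ⟨mem_univ _, h⟩⟩

lemma mem_BC (G : SimpleGraph V) (B C Y : Finset V) (m : ℕ) (v : V) :
    v ∈ BC G B C Y m ↔ v ∈ C ∧ v ∉ B ∧ ¬ Em G Y v ∧ 2 * m ≤ (cl G B Y v).card := by
  rw [BC, mem_filter]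
  exact ⟨fun h => h.2, fun h => ⟨mem_univ _, h⟩⟩

lemma EC_anti (G : SimpleGraph V) (B C : Finset V) {Y Y' : Finset V} (h : Y ⊆ Y') :
    EC G B C Y' ⊆ EC G B C Y := by
  intro v hv
  rw [mem_EC] at hv ⊢
  exact ⟨hv.1, hv.2.1, em_mono G h v hv.2.2⟩

lemma BC_sub (G : SimpleGraph V) (B C : Finset V) {Y Y' : Finset V} (h : Y ⊆ Y') (m : ℕ) :
    BC G B C Y' m ⊆ (EC G B C Y \ EC G B C Y') ∪ (BC G B C Y m ∩ BC G B C Y' m) := by
  intro v hv
  have hv0 := hv
  rw [mem_BC] at hv
  obtain ⟨hvC, hvB, hEm, hc⟩ := hv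
  rw [mem_union]
  by_cases hY : Em G Y v
  · left
    rw [mem_sdiff, mem_EC, mem_EC]
    exact ⟨⟨hvC, hvB, hY⟩, fun h' => hEm h'.2.2⟩
  · right
    rw [mem_inter]
    refine ⟨?_, hv0⟩
    rw [mem_BC]
    exact ⟨hvC, hvB, hY, hc.trans (card_le_card (cl_anti G B h v))⟩

/-- the weight after the phase -/
lemma weight (G : SimpleGraph V) (B C : Finset V) {Y Y' : Finset V} (h : Y ⊆ Y') (m : ℕ) :
    (3 * (EC G B C Y').card + (BC G B C Y' m).card : ℝ) ≤
      (EC G B C Y).card + 2 * (EC G B C Y').card + (BC G B C Y m ∩ BC G B C Y' m).card := by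
  have h1 := (card_le_card (BC_sub G B C h m)).trans (card_union_le _ _)
  have h2 := card_sdiff_add_card_eq_card (EC_anti G B C h)
  have h3 : 3 * (EC G B C Y').card + (BC G B C Y' m).card ≤
      (EC G B C Y).card + 2 * (EC G B C Y').card + (BC G B C Y m ∩ BC G B C Y' m).card := by
    omega
  exact_mod_cast h3

lemma sumE (G : SimpleGraph V) (B C W Y : Finset V) (s : ℕ) (t : ℝ) (hp : 0 < W.card)
    (hq : (1 - t / (2 * W.card)) ^ s ≤ 1 / 8)
    (hdeg : ∀ v ∈ C, v ∉ B → t / 2 ≤ (((W.filter fun w => G.Adj v w).card : ℕ) : ℝ)) :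
    ∑ c ∈ TT W s, ((EC G B C (Y ∪ univ.image c)).card : ℝ) ≤
      (EC G B C Y).card * ((W.card : ℝ) ^ s * (1 / 8)) := by
  rw [dc (TT W s) (EC G B C Y) (fun c : Fin s → V => EC G B C (Y ∪ univ.image c))
    (fun c _ => EC_anti G B C subset_union_left), ← nsmul_eq_mul, ← sum_const]
  refine sum_le_sum fun v hv => ?_
  rw [mem_EC] at hv
  refine card_avoid s W (W.filter fun w => G.Adj v w) t (filter_subset _ _) (hdeg v hv.1 hv.2.1)
    hp hq _ ?_ ?_
  · intro c hc
    rw [mem_filter, mem_TT] at hc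
    exact hc.1
  · intro c hc i hi
    rw [mem_filter, mem_EC] at hc
    rw [mem_filter] at hi
    exact hc.2.2.2 (c i) (mem_union_right _ (mem_image_of_mem c (mem_univ i))) hi.2.symm

lemma sumB (G : SimpleGraph V) (B C W Y : Finset V) (m s : ℕ) (t : ℝ) (hp : 0 < W.card)
    (hm : 1 ≤ m) (hq : (1 - t / (2 * W.card)) ^ s ≤ 1 / 8)
    (hiso : 2 * m * ((BC G B C Y m).filter fun v => ((iso G B W Y m v).card : ℝ) < t / 2).card ≤
      Fintype.card V) :
    ∑ c ∈ TT W s, ((BC G B C Y m ∩ BC G B C (Y ∪ univ.image c) m).card : ℝ) ≤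
      (BC G B C Y m).card * ((W.card : ℝ) ^ s * (1 / 8)) +
        (Fintype.card V : ℝ) / (2 * m) * (W.card : ℝ) ^ s := by
  have hcard : ((TT W s).card : ℝ) = (W.card : ℝ) ^ s := by
    rw [card_TT, Nat.cast_pow]
  have hP : (0 : ℝ) ≤ (W.card : ℝ) ^ s := by positivity
  rw [dc (TT W s) (BC G B C Y m)
    (fun c : Fin s → V => BC G B C Y m ∩ BC G B C (Y ∪ univ.image c) m)
    (fun c _ => inter_subset_left)]
  have h1 : ∀ v ∈ BC G B C Y m, (((TT W s).filter fun c =>
      v ∈ BC G B C Y m ∩ BC G B C (Y ∪ univ.image c) m).card : ℝ) ≤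
      (W.card : ℝ) ^ s * (1 / 8) +
        if ((iso G B W Y m v).card : ℝ) < t / 2 then (W.card : ℝ) ^ s else 0 := by
    intro v hv
    by_cases hb : ((iso G B W Y m v).card : ℝ) < t / 2
    · rw [if_pos hb, ← hcard]
      have h2 : (((TT W s).filter fun c =>
          v ∈ BC G B C Y m ∩ BC G B C (Y ∪ univ.image c) m).card : ℝ) ≤
          ((TT W s).card : ℝ) := by
        exact_mod_cast card_filter_le _ _
      have h3 : (0 : ℝ) ≤ ((TT W s).card : ℝ) * (1 / 8) := by positivity
      linarith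
    · rw [if_neg hb, add_zero]
      rw [not_lt] at hb
      refine card_avoid s W _ t (filter_subset _ _) hb hp hq _ ?_ ?_
      · intro c hc
        rw [mem_filter, mem_TT] at hc
        exact hc.1
      · intro c hc i hi
        rw [mem_filter, mem_inter, mem_BC, mem_BC] at hc
        have hc2 := hc.2.2
        rw [mem_filter] at hi
        have h4 : cl G B (Y ∪ univ.image c) v ⊆ side G B Y v (c i) := by
          intro x hx
          have hx2 := cl_anti G B (subset_union_left (s₂ := univ.image c)) v hx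
          rw [side, mem_filter]
          refine ⟨hx2, ?_⟩
          rw [cl, mem_filter] at hx
          exact hx.2.2 (c i) (mem_union_right _ (mem_image_of_mem c (mem_univ i)))
        have h5 := card_le_card h4
        have h6 := hc2.2.2.2
        have h7 := hi.2
        omega
  refine (sum_le_sum h1).trans ?_
  rw [sum_add_distrib, sum_const, nsmul_eq_mul, ← sum_filter, sum_const, nsmul_eq_mul]
  have hmR : (0 : ℝ) < 2 * m := by
    have : (1 : ℝ) ≤ m := by exact_mod_cast hm
    linarith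
  have h9 : (((BC G B C Y m).filter fun v => ((iso G B W Y m v).card : ℝ) < t / 2).card : ℝ) ≤
      (Fintype.card V : ℝ) / (2 * m) := by
    rw [le_div_iff₀ hmR]
    have h10 : (2 : ℝ) * m *
        (((BC G B C Y m).filter fun v => ((iso G B W Y m v).card : ℝ) < t / 2).card : ℝ) ≤
          (Fintype.card V : ℝ) := by exact_mod_cast hiso
    linarith
  have h11 := mul_le_mul_of_nonneg_right h9 hP
  linarith

lemma sumW (W U : Finset V) (s : ℕ) :
    (W.card : ℝ) * ∑ c ∈ TT W s, ((univ.image c ∩ U).card : ℝ) ≤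
      s * U.card * (W.card : ℝ) ^ s := by
  have h1 : ∀ c : Fin s → V, ((univ.image c ∩ U).card : ℝ) ≤
      ∑ i : Fin s, if c i ∈ U then (1 : ℝ) else 0 := by
    intro c
    rw [← sum_filter, sum_const, nsmul_eq_mul, mul_one]
    have h2 : univ.image c ∩ U ⊆ (univ.filter fun i => c i ∈ U).image c := by
      intro x hx
      rw [mem_inter, mem_image] at hx
      obtain ⟨⟨i, -, rfl⟩, hW⟩ := hx
      exact mem_image_of_mem c (mem_filter.2 ⟨mem_univ _, hW⟩)
    exact_mod_cast (card_le_card h2).trans card_image_le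
  have h3 : ∑ c ∈ TT W s, ((univ.image c ∩ U).card : ℝ) ≤
      ∑ i : Fin s, (((TT W s).filter fun c => c i ∈ U).card : ℝ) := by
    refine (sum_le_sum fun c _ => h1 c).trans (le_of_eq ?_)
    rw [sum_comm]
    refine sum_congr rfl fun i _ => ?_
    rw [← sum_filter, sum_const, nsmul_eq_mul, mul_one]
  have h4 : ∀ i : Fin s, (W.card : ℝ) * (((TT W s).filter fun c => c i ∈ U).card : ℝ) ≤
        U.card * (W.card : ℝ) ^ s := by
    intro i
    exact_mod_cast card_coord s W U i
  calc (W.card : ℝ) * ∑ c ∈ TT W s, ((univ.image c ∩ U).card : ℝ) ≤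
      (W.card : ℝ) * ∑ i : Fin s, (((TT W s).filter fun c => c i ∈ U).card : ℝ) :=
        mul_le_mul_of_nonneg_left h3 (by positivity)
    _ ≤ ∑ i : Fin s, (U.card * (W.card : ℝ) ^ s) := by
        rw [mul_sum]
        exact sum_le_sum fun i _ => h4 i
    _ = s * U.card * (W.card : ℝ) ^ s := by
        rw [sum_const, card_univ, Fintype.card_fin, nsmul_eq_mul]
        ring

end PHSYM

open PHSYM

theorem specPHSY (hI : SpecISOY) : SpecPHSY := by
  intro V _ G B C W Y m s t hm ht htp hq hSt hsep hdeg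
  have hiso := hI V G B C W Y m t hSt hsep
  have hp : (0 : ℝ) < W.card := lt_of_lt_of_le ht htp
  have hpn : 0 < W.card := by exact_mod_cast hp
  have hsE := sumE G B C W Y s t hpn hq hdeg
  have hsB := sumB G B C W Y m s t hpn hm hq hiso
  have hsW := sumW W (EC G B C Y ∪ BC G B C Y m) s
  have hs : 0 < s := by
    rcases Nat.eq_zero_or_pos s with h | h
    · rw [h, pow_zero] at hq
      norm_num at hq
    · exact h
  have hsR : (0 : ℝ) < s := by exact_mod_cast hs
  have hWc : ((EC G B C Y ∪ BC G B C Y m).card : ℝ) ≤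
      (EC G B C Y).card + (BC G B C Y m).card := by
    exact_mod_cast card_union_le _ _
  have hE0 : (0 : ℝ) ≤ (EC G B C Y).card := Nat.cast_nonneg _
  have hB0 : (0 : ℝ) ≤ (BC G B C Y m).card := Nat.cast_nonneg _
  have hP : (0 : ℝ) < (W.card : ℝ) ^ s := by positivity
  have hmR : (0 : ℝ) < m := by
    have : (1 : ℝ) ≤ m := by exact_mod_cast hm
    linarith
  obtain ⟨e, he⟩ : ∃ e : ℝ, e = (Fintype.card V : ℝ) / (2 * m) := ⟨_, rfl⟩
  have he0 : 0 ≤ e := by
    rw [he]
    positivity
  have he2 : (Fintype.card V : ℝ) / m = 2 * e := by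
    rw [he]
    field_simp
  rw [← he] at hsB
  rw [he2]
  obtain ⟨u, hu⟩ : ∃ u : ℝ, u = 3 * (EC G B C Y).card + (BC G B C Y m).card := ⟨_, rfl⟩
  rw [← hu]
  have hu0 : 0 ≤ u := by
    rw [hu]
    positivity
  rcases eq_or_lt_of_le hu0 with h0 | hupos
  · refine ⟨∅, empty_subset _, by simp, ?_, ?_⟩
    · rw [empty_inter, card_empty, ← h0]
      simp
    · rw [union_empty, ← hu, ← h0]
      linarith
  · have hcard : ((TT W s).card : ℝ) = (W.card : ℝ) ^ s := by
      rw [card_TT, Nat.cast_pow]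
    have hne : (TT W s).Nonempty := by
      rw [← card_pos]
      have : (0 : ℝ) < ((TT W s).card : ℝ) := by
        rw [hcard]
        exact hP
      exact_mod_cast this
    -- the two sums
    have hA : ∑ c ∈ TT W s, (3 * (EC G B C (Y ∪ univ.image c)).card +
        (BC G B C (Y ∪ univ.image c) m).card : ℝ) ≤
          ((5 / 12) * u + e) * (W.card : ℝ) ^ s := by
      refine (sum_le_sum fun c _ => weight G B C (subset_union_left (s₂ := univ.image c)) m).trans ?_
      rw [sum_add_distrib, sum_add_distrib, sum_const, nsmul_eq_mul, hcard, ← mul_sum, hu]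
      nlinarith [mul_nonneg hB0 hP.le]
    have hC : ∑ c ∈ TT W s, ((univ.image c ∩ (EC G B C Y ∪ BC G B C Y m)).card : ℝ) ≤
        s * u / W.card * (W.card : ℝ) ^ s := by
      rw [div_mul_eq_mul_div, le_div_iff₀ hp, mul_comm]
      refine hsW.trans ?_
      apply mul_le_mul_of_nonneg_right _ hP.le
      apply mul_le_mul_of_nonneg_left _ hsR.le
      rw [hu]
      linarith
    have hD : 0 < 3 / 4 * u + 2 * e := by linarith
    obtain ⟨c, hcT, hc⟩ := exists_le_of_sum_le (s := TT W s) hne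
      (f := fun c => (3 * (EC G B C (Y ∪ univ.image c)).card +
        (BC G B C (Y ∪ univ.image c) m).card : ℝ) * (1 / (3 / 4 * u + 2 * e)) +
        ((univ.image c ∩ (EC G B C Y ∪ BC G B C Y m)).card : ℝ) *
          (W.card / (3 * s * u)))
      (g := fun _ => (1 : ℝ)) (by
        rw [sum_add_distrib, ← sum_mul, ← sum_mul, sum_const, nsmul_eq_mul, mul_one, hcard]
        have e1 := mul_le_mul_of_nonneg_right hA
          (by positivity : (0 : ℝ) ≤ 1 / (3 / 4 * u + 2 * e))
        have e2 := mul_le_mul_of_nonneg_right hC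
          (by positivity : (0 : ℝ) ≤ W.card / (3 * s * u))
        have e3 : ((5 / 12) * u + e) * (W.card : ℝ) ^ s * (1 / (3 / 4 * u + 2 * e)) ≤
            5 / 9 * (W.card : ℝ) ^ s := by
          rw [mul_one_div, div_le_iff₀ hD]
          have h5 : ((5 / 12) * u + e) ≤ 5 / 9 * (3 / 4 * u + 2 * e) := by linarith
          have h6 := mul_le_mul_of_nonneg_right h5 hP.le
          linarith
        have e4 : s * u / W.card * (W.card : ℝ) ^ s *
            (W.card / (3 * s * u)) = 1 / 3 * (W.card : ℝ) ^ s := by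
          field_simp
        rw [e4] at e2
        linarith)
    have hx0 : (0 : ℝ) ≤ (3 * (EC G B C (Y ∪ univ.image c)).card +
        (BC G B C (Y ∪ univ.image c) m).card : ℝ) * (1 / (3 / 4 * u + 2 * e)) := by positivity
    have hy0 : (0 : ℝ) ≤ ((univ.image c ∩ (EC G B C Y ∪ BC G B C Y m)).card : ℝ) *
          (W.card / (3 * s * u)) := by positivity
    refine ⟨univ.image c, ?_, ?_, ?_, ?_⟩
    · intro x hx
      rw [mem_image] at hx
      obtain ⟨i, -, rfl⟩ := hx
      exact (mem_TT W s c).1 hcT i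
    · exact card_image_le.trans (by rw [card_univ, Fintype.card_fin])
    · have h1 : ((univ.image c ∩ (EC G B C Y ∪ BC G B C Y m)).card : ℝ) *
          (W.card / (3 * s * u)) ≤ 1 := by
        linarith
      rw [mul_div_assoc', div_le_one (by positivity)] at h1
      rw [le_div_iff₀ hp]
      exact h1
    · have h1 : (3 * (EC G B C (Y ∪ univ.image c)).card +
          (BC G B C (Y ∪ univ.image c) m).card : ℝ) * (1 / (3 / 4 * u + 2 * e)) ≤ 1 := by
        linarith
      rw [mul_one_div, div_le_one hD] at h1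
      exact h1

end Pool.Agent.Lib.MP50ecf8.LOC
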