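import Pool.Agent.Lib.MP_50ecf8_co.LOC.Spec10
import Pool.Agent.Lib.MP_50ecf8_co.LOC.PHSY

/-!
# Module PHSN: one phase of the random revealing, with near twins (adaptation of `PHSY.lean` of
helper47, from `PHSX.lean` of helper77)
-/

set_option autoImplicit false

open Finset
open scoped Classical

namespace Pool.Agent.Lib.MP50ecf8.LOC

open PHSYM

namespace PHSNM

variable {V : Type} [Fintype V]

lemma sumBN (G : SimpleGraph V) (B C W Y : Finset V) (m s : ℕ) (t M : ℝ) (hp : 0 < W.card)
    (hm : 1 ≤ m) (hq : (1 - t / (2 * W.card)) ^ s ≤ 1 / 8)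
    (hiso : 2 * m * (((BC G B C Y m).filter fun v => ((iso G B W Y m v).card : ℝ) < t / 2).card : ℝ) ≤
      M * Fintype.card V) :
    ∑ c ∈ TT W s, ((BC G B C Y m ∩ BC G B C (Y ∪ univ.image c) m).card : ℝ) ≤
      (BC G B C Y m).card * ((W.card : ℝ) ^ s * (1 / 8)) +
        (M * Fintype.card V : ℝ) / (2 * m) * (W.card : ℝ) ^ s := by
  have hcard : ((TT W s).card : ℝ) = (W.card : ℝ) ^ s := by
    rw [card_TT, Nat.cast_pow]
  have hP : (0 : ℝ) ≤ (W.card : ℝ) ^ s := by positivity
  rw [dc (TT W s) (BC G B C Y m)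
    (fun c : Fin s → V => BC G B C Y m ∩ BC G B C (Y ∪ univ.image c) m)
    (fun c _ => inter_subset_left)]
  have h1 : ∀ v ∈ BC G B C Y m, (((TT W s).filter fun c =>
      v ∈ BC G B C Y m ∩ BC G B C (Y ∪ univ.image c) m).card : ℝ) ≤
      (W.card : ℝ) ^ s * (1 / 8) +
        if ((iso G B W Y m v).card : ℝ) < t / 2 then (W.card : ℝ) ^ s else 0 := by
    intro v hv
    by_cases hb : ((iso G B W Y m v).card : ℝ) < t / 2
    · rw [if_pos hb, ← hcard]
      have h2 : (((TT W s).filter fun c =>
          v ∈ BC G B C Y m ∩ BC G B C (Y ∪ univ.image c) m).card : ℝ) ≤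
          ((TT W s).card : ℝ) := by
        exact_mod_cast card_filter_le _ _
      have h3 : (0 : ℝ) ≤ ((TT W s).card : ℝ) * (1 / 8) := by positivity
      linarith
    · rw [if_neg hb, add_zero]
      rw [not_lt] at hb
      refine card_avoid s W _ t (filter_subset _ _) hb hp hq _ ?_ ?_
      · intro c hc
        rw [mem_filter, mem_TT] at hc
        exact hc.1
      · intro c hc i hi
        rw [mem_filter, mem_inter, mem_BC, mem_BC] at hc
        have hc2 := hc.2.2
        rw [mem_filter] at hi
        have h4 : cl G B (Y ∪ univ.image c) v ⊆ side G B Y v (c i) := by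
          intro x hx
          have hx2 := cl_anti G B (subset_union_left (s₂ := univ.image c)) v hx
          rw [side, mem_filter]
          refine ⟨hx2, ?_⟩
          rw [cl, mem_filter] at hx
          exact hx.2.2 (c i) (mem_union_right _ (mem_image_of_mem c (mem_univ i)))
        have h5 := card_le_card h4
        have h6 := hc2.2.2.2
        have h7 := hi.2
        omega
  refine (sum_le_sum h1).trans ?_
  rw [sum_add_distrib, sum_const, nsmul_eq_mul, ← sum_filter, sum_const, nsmul_eq_mul]
  have hmR : (0 : ℝ) < 2 * m := by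
    have : (1 : ℝ) ≤ m := by exact_mod_cast hm
    linarith
  have h9 : (((BC G B C Y m).filter fun v => ((iso G B W Y m v).card : ℝ) < t / 2).card : ℝ) ≤
      (M * Fintype.card V : ℝ) / (2 * m) := by
    rw [le_div_iff₀ hmR]
    linarith
  have h11 := mul_le_mul_of_nonneg_right h9 hP
  linarith

end PHSNM

open PHSNM

theorem specPHSN (hI : SpecISON) : SpecPHSN := by
  intro V _ G B C W Y m s t M hm ht htp hq hSt hM hnr hdeg
  have hiso := hI V G B C W Y m t M hSt hM hnr
  have hp : (0 : ℝ) < W.card := lt_of_lt_of_le ht htp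
  have hpn : 0 < W.card := by exact_mod_cast hp
  have hsE := sumE G B C W Y s t hpn hq hdeg
  have hsB := sumBN G B C W Y m s t M hpn hm hq hiso
  have hsW := sumW W (EC G B C Y ∪ BC G B C Y m) s
  have hs : 0 < s := by
    rcases Nat.eq_zero_or_pos s with h | h
    · rw [h, pow_zero] at hq
      norm_num at hq
    · exact h
  have hsR : (0 : ℝ) < s := by exact_mod_cast hs
  have hWc : ((EC G B C Y ∪ BC G B C Y m).card : ℝ) ≤
      (EC G B C Y).card + (BC G B C Y m).card := by
    exact_mod_cast card_union_le _ _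
  have hE0 : (0 : ℝ) ≤ (EC G B C Y).card := Nat.cast_nonneg _
  have hB0 : (0 : ℝ) ≤ (BC G B C Y m).card := Nat.cast_nonneg _
  have hP : (0 : ℝ) < (W.card : ℝ) ^ s := by positivity
  have hmR : (0 : ℝ) < m := by
    have : (1 : ℝ) ≤ m := by exact_mod_cast hm
    linarith
  obtain ⟨e, he⟩ : ∃ e : ℝ, e = (M * Fintype.card V : ℝ) / (2 * m) := ⟨_, rfl⟩
  have he0 : 0 ≤ e := by
    rw [he]
    positivity
  have he2 : (M * Fintype.card V : ℝ) / m = 2 * e := by
    rw [he]
    field_simp
  rw [← he] at hsB
  rw [he2]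
  obtain ⟨u, hu⟩ : ∃ u : ℝ, u = 3 * (EC G B C Y).card + (BC G B C Y m).card := ⟨_, rfl⟩
  rw [← hu]
  have hu0 : 0 ≤ u := by
    rw [hu]
    positivity
  rcases eq_or_lt_of_le hu0 with h0 | hupos
  · refine ⟨∅, empty_subset _, by simp, ?_, ?_⟩
    · rw [empty_inter, card_empty, ← h0]
      simp
    · rw [union_empty, ← hu, ← h0]
      linarith
  · have hcard : ((TT W s).card : ℝ) = (W.card : ℝ) ^ s := by
      rw [card_TT, Nat.cast_pow]
    have hne : (TT W s).Nonempty := by
      rw [← card_pos]
      have : (0 : ℝ) < ((TT W s).card : ℝ) := by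
        rw [hcard]
        exact hP
      exact_mod_cast this
    -- the two sums
    have hA : ∑ c ∈ TT W s, (3 * (EC G B C (Y ∪ univ.image c)).card +
        (BC G B C (Y ∪ univ.image c) m).card : ℝ) ≤
          ((5 / 12) * u + e) * (W.card : ℝ) ^ s := by
      refine (sum_le_sum fun c _ => weight G B C (subset_union_left (s₂ := univ.image c)) m).trans ?_
      rw [sum_add_distrib, sum_add_distrib, sum_const, nsmul_eq_mul, hcard, ← mul_sum, hu]
      nlinarith [mul_nonneg hB0 hP.le]
    have hC : ∑ c ∈ TT W s, ((univ.image c ∩ (EC G B C Y ∪ BC G B C Y m)).card : ℝ) ≤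
        s * u / W.card * (W.card : ℝ) ^ s := by
      rw [div_mul_eq_mul_div, le_div_iff₀ hp, mul_comm]
      refine hsW.trans ?_
      apply mul_le_mul_of_nonneg_right _ hP.le
      apply mul_le_mul_of_nonneg_left _ hsR.le
      rw [hu]
      linarith
    have hD : 0 < 3 / 4 * u + 2 * e := by linarith
    obtain ⟨c, hcT, hc⟩ := exists_le_of_sum_le (s := TT W s) hne
      (f := fun c => (3 * (EC G B C (Y ∪ univ.image c)).card +
        (BC G B C (Y ∪ univ.image c) m).card : ℝ) * (1 / (3 / 4 * u + 2 * e)) +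
        ((univ.image c ∩ (EC G B C Y ∪ BC G B C Y m)).card : ℝ) *
          (W.card / (3 * s * u)))
      (g := fun _ => (1 : ℝ)) (by
        rw [sum_add_distrib, ← sum_mul, ← sum_mul, sum_const, nsmul_eq_mul, mul_one, hcard]
        have e1 := mul_le_mul_of_nonneg_right hA
          (by positivity : (0 : ℝ) ≤ 1 / (3 / 4 * u + 2 * e))
        have e2 := mul_le_mul_of_nonneg_right hC
          (by positivity : (0 : ℝ) ≤ W.card / (3 * s * u))
        have e3 : ((5 / 12) * u + e) * (W.card : ℝ) ^ s * (1 / (3 / 4 * u + 2 * e)) ≤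
            5 / 9 * (W.card : ℝ) ^ s := by
          rw [mul_one_div, div_le_iff₀ hD]
          have h5 : ((5 / 12) * u + e) ≤ 5 / 9 * (3 / 4 * u + 2 * e) := by linarith
          have h6 := mul_le_mul_of_nonneg_right h5 hP.le
          linarith
        have e4 : s * u / W.card * (W.card : ℝ) ^ s *
            (W.card / (3 * s * u)) = 1 / 3 * (W.card : ℝ) ^ s := by
          field_simp
        rw [e4] at e2
        linarith)
    have hx0 : (0 : ℝ) ≤ (3 * (EC G B C (Y ∪ univ.image c)).card +
        (BC G B C (Y ∪ univ.image c) m).card : ℝ) * (1 / (3 / 4 * u + 2 * e)) := by positivity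
    have hy0 : (0 : ℝ) ≤ ((univ.image c ∩ (EC G B C Y ∪ BC G B C Y m)).card : ℝ) *
          (W.card / (3 * s * u)) := by positivity
    refine ⟨univ.image c, ?_, ?_, ?_, ?_⟩
    · intro x hx
      rw [mem_image] at hx
      obtain ⟨i, -, rfl⟩ := hx
      exact (mem_TT W s c).1 hcT i
    · exact card_image_le.trans (by rw [card_univ, Fintype.card_fin])
    · have h1 : ((univ.image c ∩ (EC G B C Y ∪ BC G B C Y m)).card : ℝ) *
          (W.card / (3 * s * u)) ≤ 1 := by
        linarith
      rw [mul_div_assoc', div_le_one (by positivity)] at h1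
      rw [le_div_iff₀ hp]
      exact h1
    · have h1 : (3 * (EC G B C (Y ∪ univ.image c)).card +
          (BC G B C (Y ∪ univ.image c) m).card : ℝ) * (1 / (3 / 4 * u + 2 * e)) ≤ 1 := by
        linarith
      rw [mul_one_div, div_le_one hD] at h1
      exact h1

end Pool.Agent.Lib.MP50ecf8.LOC
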