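import Pool.Agent.Lib.MP_50ecf8_co.LOC.Spec7
import Pool.Agent.Lib.MP_50ecf8_co.LOC.STG

/-!
# Module PHSX: one phase of the random revealing (helper77)
-/

set_option autoImplicit false

open Finset
open scoped Classical

namespace Pool.Agent.Lib.MP50ecf8.LOC

namespace PHSXM

variable {V : Type} [Fintype V]

omit [Fintype V] in
lemma dc {τ : Type} (T : Finset τ) (A : Finset V) (F : τ → Finset V) (hF : ∀ c ∈ T, F c ⊆ A) :
    ∑ c ∈ T, ((F c).card : ℝ) = ∑ v ∈ A, ((T.filter fun c => v ∈ F c).card : ℝ) := by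
  have h : ∀ c ∈ T, ((F c).card : ℝ) = ∑ v ∈ A, if v ∈ F c then (1 : ℝ) else 0 := by
    intro c hc
    rw [sum_ite_mem, sum_const, nsmul_eq_mul, mul_one]
    congr 2
    symm
    rw [inter_eq_right]
    exact hF c hc
  rw [sum_congr rfl h, sum_comm]
  refine sum_congr rfl fun v _ => ?_
  rw [← sum_filter, sum_const, nsmul_eq_mul, mul_one]

lemma card_coord (s : ℕ) (W : Finset V) (i : Fin s) :
    Fintype.card V * ((univ : Finset (Fin s → V)).filter fun c => c i ∈ W).card =
      W.card * Fintype.card V ^ s := by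
  have h1 : ((univ : Finset (Fin s → V)).filter fun c => c i ∈ W) =
      Fintype.piFinset (fun j => if j = i then W else univ) := by
    ext c
    rw [mem_filter, Fintype.mem_piFinset]
    constructor
    · rintro ⟨-, h⟩ j
      by_cases hj : j = i
      · rw [if_pos hj, hj]
        exact h
      · rw [if_neg hj]
        exact mem_univ _
    · intro h
      refine ⟨mem_univ _, ?_⟩
      have := h i
      rwa [if_pos rfl] at this
  rw [h1, Fintype.card_piFinset, ← mul_prod_erase univ _ (mem_univ i)]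
  have h2 : ∀ j ∈ univ.erase i, (if j = i then W else univ : Finset V).card =
      Fintype.card V := by
    intro j hj
    rw [if_neg (ne_of_mem_erase hj), card_univ]
  rw [prod_congr rfl h2, if_pos rfl, prod_const, card_erase_of_mem (mem_univ i), card_univ,
    Fintype.card_fin]
  have hs : 0 < s := i.pos
  obtain ⟨s', rfl⟩ := Nat.exists_eq_succ_of_ne_zero hs.ne'
  rw [Nat.succ_sub_one, Nat.succ_eq_add_one, pow_succ]
  ring

/-- the tuples which avoid `A` -/
lemma card_avoid (s : ℕ) (A : Finset V) (t : ℝ) (hA : t / 2 ≤ (A.card : ℝ))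
    (hp : 0 < Fintype.card V) (hq : (1 - t / (2 * Fintype.card V)) ^ s ≤ 1 / 8)
    (T : Finset (Fin s → V)) (hT : ∀ c ∈ T, ∀ i, c i ∉ A) :
    (T.card : ℝ) ≤ (Fintype.card V : ℝ) ^ s * (1 / 8) := by
  have h1 : T ⊆ STGM.avC s univ A := by
    intro c hc
    rw [STGM.avC, Fintype.mem_piFinset]
    intro i
    rw [mem_sdiff]
    exact ⟨mem_univ _, hT c hc i⟩
  have h2 := STGM.card_avC s univ A (t / 2) (subset_univ _) hA (by rw [card_univ]; exact hp)
  rw [card_univ, div_div] at h2
  have h3 : (T.card : ℝ) ≤ ((STGM.avC s univ A).card : ℝ) := by exact_mod_cast card_le_card h1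
  refine h3.trans (h2.trans ?_)
  exact mul_le_mul_of_nonneg_left hq (by positivity)

omit [Fintype V] in
lemma em_mono (G : SimpleGraph V) {Y Y' : Finset V} (h : Y ⊆ Y') (v : V) (hv : Em G Y' v) :
    Em G Y v := fun w hw => hv w (h hw)

lemma cl_anti (G : SimpleGraph V) (B : Finset V) {Y Y' : Finset V} (h : Y ⊆ Y') (v : V) :
    cl G B Y' v ⊆ cl G B Y v := by
  intro u hu
  rw [cl, mem_filter] at hu ⊢
  exact ⟨hu.1, hu.2.1, fun w hw => hu.2.2 w (h hw)⟩

lemma EE_anti (G : SimpleGraph V) (B : Finset V) {Y Y' : Finset V} (h : Y ⊆ Y') :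
    EE G B Y' ⊆ EE G B Y := by
  intro v hv
  rw [EE, mem_filter] at hv ⊢
  exact ⟨hv.1, hv.2.1, em_mono G h v hv.2.2⟩

lemma BB_sub (G : SimpleGraph V) (B : Finset V) {Y Y' : Finset V} (h : Y ⊆ Y') (m : ℕ) :
    BB G B Y' m ⊆ (EE G B Y \ EE G B Y') ∪ (BB G B Y m ∩ BB G B Y' m) := by
  intro v hv
  have hv0 := hv
  rw [BB, mem_filter] at hv
  obtain ⟨-, hvB, hEm, hc⟩ := hv
  rw [mem_union]
  by_cases hY : Em G Y v
  · left
    rw [mem_sdiff, EE, EE, mem_filter, mem_filter]
    exact ⟨⟨mem_univ _, hvB, hY⟩, fun h' => hEm h'.2.2⟩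
  · right
    rw [mem_inter]
    refine ⟨?_, hv0⟩
    rw [BB, mem_filter]
    exact ⟨mem_univ _, hvB, hY, hc.trans (card_le_card (cl_anti G B h v))⟩

/-- the weight after the phase -/
lemma weight (G : SimpleGraph V) (B : Finset V) {Y Y' : Finset V} (h : Y ⊆ Y') (m : ℕ) :
    (3 * (EE G B Y').card + (BB G B Y' m).card : ℝ) ≤
      (EE G B Y).card + 2 * (EE G B Y').card + (BB G B Y m ∩ BB G B Y' m).card := by
  have h1 := (card_le_card (BB_sub G B h m)).trans (card_union_le _ _)
  have h2 := card_sdiff_add_card_eq_card (EE_anti G B h)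
  have h3 : 3 * (EE G B Y').card + (BB G B Y' m).card ≤
      (EE G B Y).card + 2 * (EE G B Y').card + (BB G B Y m ∩ BB G B Y' m).card := by omega
  exact_mod_cast h3

lemma sumE (G : SimpleGraph V) (B Y : Finset V) (s : ℕ) (t : ℝ) (hp : 0 < Fintype.card V)
    (hq : (1 - t / (2 * Fintype.card V)) ^ s ≤ 1 / 8)
    (hdeg : ∀ v ∈ EE G B Y, t / 2 ≤ (deg G v : ℝ)) :
    ∑ c : Fin s → V, ((EE G B (Y ∪ univ.image c)).card : ℝ) ≤
      (EE G B Y).card * ((Fintype.card V : ℝ) ^ s * (1 / 8)) := by
  rw [dc univ (EE G B Y) (fun c : Fin s → V => EE G B (Y ∪ univ.image c))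
    (fun c _ => EE_anti G B subset_union_left), ← nsmul_eq_mul, ← sum_const]
  refine sum_le_sum fun v hv => ?_
  refine card_avoid s (univ.filter fun w => G.Adj v w) t (hdeg v hv) hp hq _ ?_
  intro c hc i hi
  rw [mem_filter, EE, mem_filter] at hc
  rw [mem_filter] at hi
  exact hc.2.2.2 (c i) (mem_union_right _ (mem_image_of_mem c (mem_univ i))) hi.2.symm

lemma sumB (G : SimpleGraph V) (B Y : Finset V) (m s : ℕ) (t : ℝ) (hp : 0 < Fintype.card V)
    (hm : 8 ≤ m) (hq : (1 - t / (2 * Fintype.card V)) ^ s ≤ 1 / 8)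
    (hiso : 2 * m * ((BB G B Y m).filter fun v =>
      (((univ.filter fun w => (side G B Y v w).card < m).card : ℕ) : ℝ) < t / 2).card ≤
        (BB G B Y m).card) :
    ∑ c : Fin s → V, ((BB G B Y m ∩ BB G B (Y ∪ univ.image c) m).card : ℝ) ≤
      (BB G B Y m).card * ((Fintype.card V : ℝ) ^ s * (3 / 16)) := by
  have hcard : ((univ : Finset (Fin s → V)).card : ℝ) = (Fintype.card V : ℝ) ^ s := by
    rw [card_univ, Fintype.card_fun, Fintype.card_fin, Nat.cast_pow]
  have hP : (0 : ℝ) ≤ (Fintype.card V : ℝ) ^ s := by positivity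
  rw [dc univ (BB G B Y m) (fun c : Fin s → V => BB G B Y m ∩ BB G B (Y ∪ univ.image c) m)
    (fun c _ => inter_subset_left)]
  have h1 : ∀ v ∈ BB G B Y m, (((univ : Finset (Fin s → V)).filter fun c =>
      v ∈ BB G B Y m ∩ BB G B (Y ∪ univ.image c) m).card : ℝ) ≤
      (Fintype.card V : ℝ) ^ s * (1 / 8) +
        if (((univ.filter fun w => (side G B Y v w).card < m).card : ℕ) : ℝ) < t / 2 then
          (Fintype.card V : ℝ) ^ s else 0 := by
    intro v hv
    by_cases hb : (((univ.filter fun w => (side G B Y v w).card < m).card : ℕ) : ℝ) < t / 2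
    · rw [if_pos hb, ← hcard]
      have h2 : (((univ : Finset (Fin s → V)).filter fun c =>
          v ∈ BB G B Y m ∩ BB G B (Y ∪ univ.image c) m).card : ℝ) ≤
          ((univ : Finset (Fin s → V)).card : ℝ) := by
        exact_mod_cast card_filter_le _ _
      have h3 : (0 : ℝ) ≤ ((univ : Finset (Fin s → V)).card : ℝ) * (1 / 8) := by positivity
      linarith
    · rw [if_neg hb, add_zero]
      rw [not_lt] at hb
      refine card_avoid s _ t hb hp hq _ ?_
      intro c hc i hi
      rw [mem_filter, mem_inter] at hc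
      have hc2 := hc.2.2
      rw [BB, mem_filter] at hc2
      rw [mem_filter] at hi
      have h4 : cl G B (Y ∪ univ.image c) v ⊆ side G B Y v (c i) := by
        intro x hx
        have hx2 := cl_anti G B (subset_union_left (s₂ := univ.image c)) v hx
        rw [side, mem_filter]
        refine ⟨hx2, ?_⟩
        rw [cl, mem_filter] at hx
        exact hx.2.2 (c i) (mem_union_right _ (mem_image_of_mem c (mem_univ i)))
      have h5 := card_le_card h4
      have h6 := hc2.2.2.2
      have h7 := hi.2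
      omega
  refine (sum_le_sum h1).trans ?_
  rw [sum_add_distrib, sum_const, nsmul_eq_mul, ← sum_filter, sum_const, nsmul_eq_mul]
  have h8 : 16 * ((BB G B Y m).filter fun v =>
      (((univ.filter fun w => (side G B Y v w).card < m).card : ℕ) : ℝ) < t / 2).card ≤
        (BB G B Y m).card := le_trans (Nat.mul_le_mul_right _ (by omega)) hiso
  have h9 : (16 : ℝ) * (((BB G B Y m).filter fun v =>
      (((univ.filter fun w => (side G B Y v w).card < m).card : ℕ) : ℝ) < t / 2).card : ℝ) ≤
        ((BB G B Y m).card : ℝ) := by exact_mod_cast h8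
  nlinarith [mul_le_mul_of_nonneg_right h9 hP]

lemma sumW (W : Finset V) (s : ℕ) :
    (Fintype.card V : ℝ) * ∑ c : Fin s → V, ((univ.image c ∩ W).card : ℝ) ≤
      s * W.card * (Fintype.card V : ℝ) ^ s := by
  have h1 : ∀ c : Fin s → V, ((univ.image c ∩ W).card : ℝ) ≤
      ∑ i : Fin s, if c i ∈ W then (1 : ℝ) else 0 := by
    intro c
    rw [← sum_filter, sum_const, nsmul_eq_mul, mul_one]
    have h2 : univ.image c ∩ W ⊆ (univ.filter fun i => c i ∈ W).image c := by
      intro x hx
      rw [mem_inter, mem_image] at hx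
      obtain ⟨⟨i, -, rfl⟩, hW⟩ := hx
      exact mem_image_of_mem c (mem_filter.2 ⟨mem_univ _, hW⟩)
    exact_mod_cast (card_le_card h2).trans card_image_le
  have h3 : ∑ c : Fin s → V, ((univ.image c ∩ W).card : ℝ) ≤
      ∑ i : Fin s, (((univ : Finset (Fin s → V)).filter fun c => c i ∈ W).card : ℝ) := by
    refine (sum_le_sum fun c _ => h1 c).trans (le_of_eq ?_)
    rw [sum_comm]
    refine sum_congr rfl fun i _ => ?_
    rw [← sum_filter, sum_const, nsmul_eq_mul, mul_one]
  have h4 : ∀ i : Fin s, (Fintype.card V : ℝ) *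
      (((univ : Finset (Fin s → V)).filter fun c => c i ∈ W).card : ℝ) =
        W.card * (Fintype.card V : ℝ) ^ s := by
    intro i
    exact_mod_cast card_coord s W i
  calc (Fintype.card V : ℝ) * ∑ c : Fin s → V, ((univ.image c ∩ W).card : ℝ) ≤
      (Fintype.card V : ℝ) *
        ∑ i : Fin s, (((univ : Finset (Fin s → V)).filter fun c => c i ∈ W).card : ℝ) :=
        mul_le_mul_of_nonneg_left h3 (by positivity)
    _ = ∑ i : Fin s, (W.card * (Fintype.card V : ℝ) ^ s) := by
        rw [mul_sum]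
        exact sum_congr rfl fun i _ => h4 i
    _ = s * W.card * (Fintype.card V : ℝ) ^ s := by
        rw [sum_const, card_univ, Fintype.card_fin, nsmul_eq_mul]
        ring

end PHSXM

open PHSXM

theorem specPHSX (hI : SpecISOX) : SpecPHSX := by
  intro V _ G B Y m s t hm ht htp hq hStar hsep hdeg
  have hiso := hI V G B Y m t hStar hsep
  have hp : (0 : ℝ) < Fintype.card V := lt_of_lt_of_le ht htp
  have hpn : 0 < Fintype.card V := by exact_mod_cast hp
  have hsE := sumE G B Y s t hpn hq hdeg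
  have hsB := sumB G B Y m s t hpn hm hq hiso
  have hsW := sumW (EE G B Y ∪ BB G B Y m) s
  have hs : 0 < s := by
    rcases Nat.eq_zero_or_pos s with h | h
    · rw [h, pow_zero] at hq
      norm_num at hq
    · exact h
  have hsR : (0 : ℝ) < s := by exact_mod_cast hs
  have hWc : ((EE G B Y ∪ BB G B Y m).card : ℝ) ≤ (EE G B Y).card + (BB G B Y m).card := by
    exact_mod_cast card_union_le _ _
  have hE0 : (0 : ℝ) ≤ (EE G B Y).card := Nat.cast_nonneg _
  have hB0 : (0 : ℝ) ≤ (BB G B Y m).card := Nat.cast_nonneg _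
  have hP : (0 : ℝ) < (Fintype.card V : ℝ) ^ s := by positivity
  obtain ⟨u, hu⟩ : ∃ u : ℝ, u = 3 * (EE G B Y).card + (BB G B Y m).card := ⟨_, rfl⟩
  rw [← hu]
  have hu0 : 0 ≤ u := by
    rw [hu]
    positivity
  rcases eq_or_lt_of_le hu0 with h0 | hupos
  · refine ⟨∅, by simp, ?_, ?_⟩
    · rw [empty_inter, card_empty, ← h0]
      simp
    · rw [union_empty, ← hu, ← h0]
      simp
  · have hcard : ((univ : Finset (Fin s → V)).card : ℝ) = (Fintype.card V : ℝ) ^ s := by
      rw [card_univ, Fintype.card_fun, Fintype.card_fin, Nat.cast_pow]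
    have hne : (univ : Finset (Fin s → V)).Nonempty := by
      rw [← card_pos]
      have : (0 : ℝ) < ((univ : Finset (Fin s → V)).card : ℝ) := by
        rw [hcard]
        exact hP
      exact_mod_cast this
    -- the two sums
    have hA : ∑ c : Fin s → V, (3 * (EE G B (Y ∪ univ.image c)).card +
        (BB G B (Y ∪ univ.image c) m).card : ℝ) ≤ (5 / 12) * u * (Fintype.card V : ℝ) ^ s := by
      refine (sum_le_sum fun c _ => weight G B (subset_union_left (s₂ := univ.image c)) m).trans ?_
      rw [sum_add_distrib, sum_add_distrib, sum_const, nsmul_eq_mul, hcard, ← mul_sum, hu]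
      nlinarith [mul_nonneg hB0 hP.le]
    have hC : ∑ c : Fin s → V, ((univ.image c ∩ (EE G B Y ∪ BB G B Y m)).card : ℝ) ≤
        s * u / Fintype.card V * (Fintype.card V : ℝ) ^ s := by
      rw [div_mul_eq_mul_div, le_div_iff₀ hp, mul_comm]
      refine hsW.trans ?_
      apply mul_le_mul_of_nonneg_right _ hP.le
      apply mul_le_mul_of_nonneg_left _ hsR.le
      rw [hu]
      linarith
    obtain ⟨c, -, hc⟩ := exists_le_of_sum_le (s := (univ : Finset (Fin s → V))) hne
      (f := fun c => (3 * (EE G B (Y ∪ univ.image c)).card +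
        (BB G B (Y ∪ univ.image c) m).card : ℝ) * (4 / (3 * u)) +
        ((univ.image c ∩ (EE G B Y ∪ BB G B Y m)).card : ℝ) *
          (Fintype.card V / (3 * s * u)))
      (g := fun _ => (1 : ℝ)) (by
        rw [sum_add_distrib, ← sum_mul, ← sum_mul, sum_const, nsmul_eq_mul, mul_one, hcard]
        have e1 := mul_le_mul_of_nonneg_right hA (by positivity : (0 : ℝ) ≤ 4 / (3 * u))
        have e2 := mul_le_mul_of_nonneg_right hC
          (by positivity : (0 : ℝ) ≤ Fintype.card V / (3 * s * u))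
        have e3 : (5 / 12) * u * (Fintype.card V : ℝ) ^ s * (4 / (3 * u)) =
            5 / 9 * (Fintype.card V : ℝ) ^ s := by
          field_simp
          ring
        have e4 : s * u / Fintype.card V * (Fintype.card V : ℝ) ^ s *
            (Fintype.card V / (3 * s * u)) = 1 / 3 * (Fintype.card V : ℝ) ^ s := by
          field_simp
        rw [e3] at e1
        rw [e4] at e2
        linarith)
    have hx0 : (0 : ℝ) ≤ (3 * (EE G B (Y ∪ univ.image c)).card +
        (BB G B (Y ∪ univ.image c) m).card : ℝ) * (4 / (3 * u)) := by positivity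
    have hy0 : (0 : ℝ) ≤ ((univ.image c ∩ (EE G B Y ∪ BB G B Y m)).card : ℝ) *
          (Fintype.card V / (3 * s * u)) := by positivity
    refine ⟨univ.image c, ?_, ?_, ?_⟩
    · exact card_image_le.trans (by rw [card_univ, Fintype.card_fin])
    · have h1 : ((univ.image c ∩ (EE G B Y ∪ BB G B Y m)).card : ℝ) *
          (Fintype.card V / (3 * s * u)) ≤ 1 := by
        linarith
      rw [mul_div_assoc', div_le_one (by positivity)] at h1
      rw [le_div_iff₀ hp]
      exact h1
    · have h1 : (3 * (EE G B (Y ∪ univ.image c)).card +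
          (BB G B (Y ∪ univ.image c) m).card : ℝ) * (4 / (3 * u)) ≤ 1 := by
        linarith
      rw [mul_div_assoc', div_le_one (by positivity)] at h1
      linarith

end Pool.Agent.Lib.MP50ecf8.LOC
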