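import Pool.Agent.Lib.MP_50ecf8_co.LOC.Spec5

/-!
# PRM: partial isomorphisms with twin images differ by an automorphism
-/

set_option autoImplicit false

open Finset
open scoped Classical

namespace Pool.Agent.Lib.MP50ecf8.LOC

namespace PRMM

variable {V : Type} {G : SimpleGraph V}

lemma tw_swap {y y' : V} (h : Tw G y y') (v : V) : Tw G v (Equiv.swap y y' v) := by
  by_cases h1 : v = y
  · subst h1
    rw [Equiv.swap_apply_left]
    exact h
  · by_cases h2 : v = y'
    · subst h2
      rw [Equiv.swap_apply_right]
      exact h.symm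
    · rw [Equiv.swap_apply_of_ne_of_ne h1 h2]
      exact Tw.refl G v

/-- The swap of two twins. -/
noncomputable def swapIso {y y' : V} (h : Tw G y y') : G ≃g G where
  toEquiv := Equiv.swap y y'
  map_rel_iff' := by
    intro a b
    by_cases hab : a = b
    · subst hab
      constructor
      · intro h'
        exact absurd rfl h'.ne
      · intro h'
        exact absurd rfl h'.ne
    · exact (Tw.adj (tw_swap h a) (tw_swap h b) hab
        (fun e => hab ((Equiv.swap y y').injective e))).symm

lemma swapIso_apply {y y' : V} (h : Tw G y y') (v : V) : swapIso h v = Equiv.swap y y' v := rfl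

end PRMM

open PRMM in
theorem specPRM : SpecPRM := by
  intro V _ G I₁ I₂ h₁ h₂ hdom htw
  have key : ∀ J : Finset (V × V), J ⊆ I₁ → ∃ φ : G ≃g G, (∀ v, Tw G v (φ v)) ∧
      ∀ u ∈ J, ∀ w ∈ I₂, u.1 = w.1 → φ u.2 = w.2 := by
    intro J
    induction J using Finset.induction_on with
    | empty =>
      intro _
      exact ⟨SimpleGraph.Iso.refl, fun v => Tw.refl G v, fun u hu => absurd hu (Finset.notMem_empty u)⟩
    | insert u J hu ih =>
      intro hJ
      obtain ⟨φ, hφ, hφJ⟩ := ih ((Finset.subset_insert u J).trans hJ)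
      have huI : u ∈ I₁ := hJ (Finset.mem_insert_self u J)
      have hmem : u.1 ∈ I₂.image Prod.fst := by
        rw [← hdom]
        exact Finset.mem_image_of_mem _ huI
      obtain ⟨w₀, hw₀, hw₀u⟩ := Finset.mem_image.mp hmem
      have hyy : Tw G (φ u.2) w₀.2 := (hφ u.2).symm.trans (htw u huI w₀ hw₀ hw₀u.symm)
      refine ⟨φ.trans (swapIso hyy), fun v => ?_, ?_⟩
      · exact (hφ v).trans (tw_swap hyy (φ v))
      · intro v hv w hw hvw
        change swapIso hyy (φ v.2) = w.2
        rw [swapIso_apply]
        rw [Finset.mem_insert] at hv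
        by_cases hvu : v.1 = u.1
        · have hv2 : v.2 = u.2 := by
            have hvI : v ∈ I₁ := by
              rcases hv with rfl | hv
              · exact huI
              · exact hJ (Finset.mem_insert_of_mem hv)
            exact ((h₁ v hvI u huI).1).mp hvu
          have hw2 : w.2 = w₀.2 := ((h₂ w hw w₀ hw₀).1).mp (by rw [← hvw, hvu, hw₀u])
          rw [hv2, hw2, Equiv.swap_apply_left]
        · have hvJ : v ∈ J := by
            rcases hv with rfl | hv
            · exact absurd rfl hvu
            · exact hv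
          have hvI : v ∈ I₁ := hJ (Finset.mem_insert_of_mem hvJ)
          have e := hφJ v hvJ w hw hvw
          rw [e]
          refine Equiv.swap_apply_of_ne_of_ne ?_ ?_
          · intro e2
            rw [← e] at e2
            exact hvu (((h₁ v hvI u huI).1).mpr (φ.injective e2))
          · intro e2
            have := ((h₂ w hw w₀ hw₀).1).mpr e2
            exact hvu (by rw [hvw, this, hw₀u])
  obtain ⟨φ, _, hφ⟩ := key I₁ (Finset.Subset.refl _)
  refine ⟨φ, ?_⟩
  ext w
  rw [Finset.mem_image]
  constructor
  · intro hw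
    have hmem : w.1 ∈ I₁.image Prod.fst := by
      rw [hdom]
      exact Finset.mem_image_of_mem _ hw
    obtain ⟨u, hu, huw⟩ := Finset.mem_image.mp hmem
    refine ⟨u, hu, ?_⟩
    rw [hφ u hu w hw huw, huw]
  · rintro ⟨u, hu, rfl⟩
    have hmem : u.1 ∈ I₂.image Prod.fst := by
      rw [← hdom]
      exact Finset.mem_image_of_mem _ hu
    obtain ⟨w, hw, hwu⟩ := Finset.mem_image.mp hmem
    rw [hφ u hu w hw hwu.symm, ← hwu]
    exact hw

end Pool.Agent.Lib.MP50ecf8.LOC
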