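import Pool.Agent.Lib.MP_50ecf8_co.LOC.BAD4
import Pool.Agent.Lib.MP_50ecf8_co.LOC.P4

/-!
# R4: random sets in graphs without 4-cycles
-/

set_option autoImplicit false

open Finset
open scoped Classical

namespace Pool.Agent.Lib.MP50ecf8.LOC

namespace R4M

open P4M BAD4M

variable {V : Type} [Fintype V]

theorem card_zero (K : ℕ) (v : V) :
    ((univ.filter fun f : V → Fin (K + 1) => f v = 0).card : ℝ) =
      ((K + 1 : ℕ) : ℝ) ^ Fintype.card V / ((K : ℝ) + 1) := by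
  have h1 := card_filter_add_card_filter_not (s := (univ : Finset (V → Fin (K + 1))))
    (fun f => f v = 0)
  have h2 : (univ.filter fun f : V → Fin (K + 1) => ¬ f v = 0) = avo K {v} := by
    ext f
    simp [avo]
  rw [h2, card_univ, Fintype.card_fun, Fintype.card_fin] at h1
  have h3 : ((univ.filter fun f : V → Fin (K + 1) => f v = 0).card : ℝ) +
      (avo K ({v} : Finset V)).card = ((K + 1 : ℕ) : ℝ) ^ Fintype.card V := by
    exact_mod_cast h1
  rw [card_avo, card_singleton, pow_one] at h3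
  have h4 : ((K + 1 : ℕ) : ℝ) ^ Fintype.card V * (1 - 1 / ((K : ℝ) + 1)) =
      ((K + 1 : ℕ) : ℝ) ^ Fintype.card V - ((K + 1 : ℕ) : ℝ) ^ Fintype.card V / ((K : ℝ) + 1) := by
    ring
  linarith

theorem exists_PQ {G : SimpleGraph V} {d : ℕ} (hdeg : ∀ v, d ≤ deg G v) (v y : V) :
    ∃ P Q : Finset V, y ∈ nb G v → P ⊆ (nb G y).erase v ∧ Q ⊆ (nb G y).erase v ∧
      P.card = (d - 1) / 2 ∧ Q.card = (d - 1) / 2 ∧ Disjoint P Q := by
  by_cases hy : y ∈ nb G v
  · have h1 := card_erase hdeg hy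
    obtain ⟨P, hP, hPc⟩ := exists_subset_card_eq
      (show (d - 1) / 2 ≤ ((nb G y).erase v).card by omega)
    have h2 : ((nb G y).erase v \ P).card = ((nb G y).erase v).card - P.card :=
      card_sdiff_of_subset hP
    obtain ⟨Q, hQ, hQc⟩ := exists_subset_card_eq
      (show (d - 1) / 2 ≤ ((nb G y).erase v \ P).card by omega)
    exact ⟨P, Q, fun _ => ⟨hP, hQ.trans sdiff_subset, hPc, hQc,
      (disjoint_sdiff_self_right).mono_right hQ⟩⟩
  · exact ⟨∅, ∅, fun h => absurd h hy⟩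

end R4M

open R4M P4M BAD4M in
theorem specR4 (hBAD : SpecBAD4) : SpecR4 := by
  intro V _ G K d hd h4 hdeg
  have hY : ∀ v, ∃ Y ⊆ nb G v, Y.card = d := fun v => exists_subset_card_eq (hdeg v)
  choose Y hYs hYc using hY
  choose P Q hPQ using fun v y => exists_PQ hdeg v y
  set ρ : ℝ := 1 - (1 - (1 - 1 / ((K : ℝ) + 1)) ^ ((d - 1) / 2)) ^ 2 with hρ
  -- the bad vertices
  let bad : (V → Fin (K + 1)) → Finset V := fun f => univ.filter fun v =>
    ((Y v).filter fun y => (∃ z ∈ P v y, f z = 0) ∧ (∃ z ∈ Q v y, f z = 0)).card ≤ 1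
  set N : ℝ := ((K + 1 : ℕ) : ℝ) ^ Fintype.card V with hN
  have hN0 : 0 < N := by positivity
  have hbad : ∀ v, ((univ.filter fun f : V → Fin (K + 1) =>
      ((Y v).filter fun y => (∃ z ∈ P v y, f z = 0) ∧ (∃ z ∈ Q v y, f z = 0)).card ≤ 1).card : ℝ)
        ≤ N * (d * ρ ^ (d - 1)) := by
    intro v
    refine hBAD V K ((d - 1) / 2) d (Y v) (P v) (Q v) (hYc v) hd ?_ ?_
    · intro y hy
      obtain ⟨_, _, h3, h4, h5⟩ := hPQ v y (hYs v hy)
      exact ⟨h3, h4, h5⟩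
    · intro y hy y' hy' hne
      obtain ⟨a1, a2, _⟩ := hPQ v y (hYs v hy)
      obtain ⟨b1, b2, _⟩ := hPQ v y' (hYs v hy')
      exact (disj h4 v (hYs v hy) (hYs v hy') hne).mono (union_subset a1 a2)
        (union_subset b1 b2)
  -- the sums over all labellings
  have hs1 : ∑ f : V → Fin (K + 1), ((Rz f).card : ℝ) =
      Fintype.card V * (N / ((K : ℝ) + 1)) := by
    have h1 : ∀ f : V → Fin (K + 1), ((Rz f).card : ℝ) = ∑ v, if f v = 0 then (1 : ℝ) else 0 := by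
      intro f
      rw [Rz, sum_boole]
    rw [sum_congr rfl fun f _ => h1 f, sum_comm]
    have h2 : ∀ v : V, ∑ f : V → Fin (K + 1), (if f v = 0 then (1 : ℝ) else 0) =
        N / ((K : ℝ) + 1) := by
      intro v
      rw [sum_boole, R4M.card_zero]
    rw [sum_congr rfl fun v _ => h2 v, sum_const, card_univ, nsmul_eq_mul]
  have hs2 : ∑ f : V → Fin (K + 1), ((bad f).card : ℝ) ≤
      Fintype.card V * (N * (d * ρ ^ (d - 1))) := by
    have h1 : ∀ f : V → Fin (K + 1), ((bad f).card : ℝ) = ∑ v, if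
        ((Y v).filter fun y => (∃ z ∈ P v y, f z = 0) ∧ (∃ z ∈ Q v y, f z = 0)).card ≤ 1
          then (1 : ℝ) else 0 := by
      intro f
      rw [sum_boole]
    rw [sum_congr rfl fun f _ => h1 f, sum_comm]
    calc _ ≤ ∑ _v : V, N * (d * ρ ^ (d - 1)) := by
          refine sum_le_sum fun v _ => ?_
          rw [sum_boole]
          exact hbad v
      _ = _ := by rw [sum_const, card_univ, nsmul_eq_mul]
  set β : ℝ := Fintype.card V / ((K : ℝ) + 1) + Fintype.card V * (d * ρ ^ (d - 1)) with hβ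
  obtain ⟨f, hf⟩ : ∃ f : V → Fin (K + 1), ((Rz f ∪ bad f).card : ℝ) ≤ β := by
    by_contra hcon
    push Not at hcon
    have h1 : ∑ _f : V → Fin (K + 1), β < ∑ f : V → Fin (K + 1), ((Rz f ∪ bad f).card : ℝ) :=
      sum_lt_sum_of_nonempty ⟨fun _ => 0, mem_univ _⟩ fun f _ => hcon f
    have h2 : ∑ f : V → Fin (K + 1), ((Rz f ∪ bad f).card : ℝ) ≤
        ∑ f : V → Fin (K + 1), (((Rz f).card : ℝ) + (bad f).card) := by
      refine sum_le_sum fun f _ => ?_
      exact_mod_cast card_union_le _ _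
    rw [sum_add_distrib, hs1] at h2
    rw [sum_const, card_univ, Fintype.card_fun, Fintype.card_fin, nsmul_eq_mul] at h1
    have h3 : (((K + 1) ^ Fintype.card V : ℕ) : ℝ) * β =
        Fintype.card V * (N / ((K : ℝ) + 1)) + Fintype.card V * (N * (d * ρ ^ (d - 1))) := by
      rw [hβ, Nat.cast_pow, ← hN]
      ring
    linarith
  refine ⟨Rz f ∪ bad f, ?_, hf⟩
  intro v hv
  have hvb : v ∉ bad f := fun h => hv (mem_union_right _ h)
  have hcard : 1 < ((Y v).filter fun y => (∃ z ∈ P v y, f z = 0) ∧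
      (∃ z ∈ Q v y, f z = 0)).card := by
    by_contra h
    exact hvb (mem_filter.2 ⟨mem_univ _, not_lt.1 h⟩)
  obtain ⟨y, hy, z, hz, hyz⟩ := one_lt_card.1 hcard
  have key : ∀ y, y ∈ ((Y v).filter fun y => (∃ z ∈ P v y, f z = 0) ∧
      (∃ z ∈ Q v y, f z = 0)) → G.Adj v y ∧ ∃ w ∈ Rz f ∪ bad f, ∃ w' ∈ Rz f ∪ bad f, w ≠ w' ∧
        G.Adj y w ∧ G.Adj y w' := by
    intro y hy
    obtain ⟨hyY, ⟨w, hw, hw0⟩, ⟨w', hw', hw0'⟩⟩ := mem_filter.1 hy
    obtain ⟨a1, a2, _, _, a5⟩ := hPQ v y (hYs v hyY)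
    refine ⟨mem_nb.1 (hYs v hyY), w, mem_union_left _ (mem_filter.2 ⟨mem_univ _, hw0⟩), w',
      mem_union_left _ (mem_filter.2 ⟨mem_univ _, hw0'⟩), ?_,
      mem_nb.1 (mem_of_mem_erase (a1 hw)), mem_nb.1 (mem_of_mem_erase (a2 hw'))⟩
    rintro rfl
    exact Finset.disjoint_left.1 a5 hw hw'
  exact ⟨y, z, hyz, (key y hy).1, (key z hz).1, (key y hy).2, (key z hz).2⟩

end Pool.Agent.Lib.MP50ecf8.LOC
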