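import Pool.Agent.Lib.MP_50ecf8_co.LOC.Spec5
import Pool.Agent.Lib.MP_50ecf8_co.LOC.NBD

/-!
# REPT: representatives of the partial isomorphisms up to automorphisms, with twins
-/

set_option autoImplicit false

open Finset
open scoped Classical

namespace Pool.Agent.Lib.MP50ecf8.LOC

namespace REPTM

/-- the second coordinates replaced by their representatives -/
noncomputable def cl {V : Type} (r : V → V) (I : Finset (V × V)) : Finset (V × V) :=
  I.image fun u => (u.1, r u.2)

theorem mem_cl {V : Type} {r : V → V} {I : Finset (V × V)} {u : V × V} (h : u ∈ I) :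
    (u.1, r u.2) ∈ cl r I := Finset.mem_image.mpr ⟨u, h, rfl⟩

theorem fst_cl {V : Type} {r : V → V} {I : Finset (V × V)} :
    (cl r I).image Prod.fst = I.image Prod.fst := by
  rw [cl, Finset.image_image]
  rfl

theorem filter_cl {V : Type} {r : V → V} {I : Finset (V × V)} (Y : Finset V) :
    (cl r I).filter (fun u => u.1 ∈ Y) = cl r (I.filter fun u => u.1 ∈ Y) := by
  ext u
  rw [Finset.mem_filter, cl, cl, Finset.mem_image, Finset.mem_image]
  constructor
  · rintro ⟨⟨w, hw, rfl⟩, h⟩
    exact ⟨w, Finset.mem_filter.mpr ⟨hw, h⟩, rfl⟩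
  · rintro ⟨w, hw, rfl⟩
    exact ⟨⟨w, (Finset.mem_filter.mp hw).1, rfl⟩, (Finset.mem_filter.mp hw).2⟩

/-- `cl I` is functional -/
theorem cl_fun {V : Type} [Fintype V] {G : SimpleGraph V} {r : V → V} {I : Finset (V × V)}
    (hI : Good G I) {u w : V × V} (hu : u ∈ cl r I) (hw : w ∈ cl r I) (h : u.1 = w.1) : u = w := by
  obtain ⟨u', hu', rfl⟩ := Finset.mem_image.mp hu
  obtain ⟨w', hw', rfl⟩ := Finset.mem_image.mp hw
  have h' : u'.1 = w'.1 := h
  have e : u' = w' := NBDM.eq_of_fst G hI hu' hw' h'
  rw [e]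

theorem step {V : Type} [Fintype V] {G : SimpleGraph V} {T : Finset V} {r : V → V}
    (hr : ∀ v, r v ∈ T) (hrt : ∀ v, Tw G v (r v)) {D : ℕ}
    (hD : ∀ v ∈ T, (T.filter fun w => G.Adj v w).card < D) {a c x y : V} {Y : Finset V}
    (haY : a ∈ Y) (hy : y ∈ Y) (hx : x ∉ Y) (hadj : G.Adj y x) :
    ((emb G a c (insert x Y)).image (cl r)).card ≤ D * ((emb G a c Y).image (cl r)).card := by
  refine Finset.card_le_mul_card_image_of_maps_to (f := fun C => C.filter fun u => u.1 ∈ Y)
    ?_ D ?_
  · intro C hC
    obtain ⟨I, hI, rfl⟩ := Finset.mem_image.mp hC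
    rw [emb, mem_filter] at hI
    obtain ⟨-, hg, har, him⟩ := hI
    rw [Finset.mem_image]
    refine ⟨I.filter fun u => u.1 ∈ Y, ?_, (filter_cl Y).symm⟩
    rw [emb, mem_filter]
    refine ⟨mem_univ _, fun u hu w hw => hg u (mem_of_mem_filter _ hu) w (mem_of_mem_filter _ hw),
      mem_filter.2 ⟨har, haY⟩, ?_⟩
    ext v
    rw [mem_image]
    constructor
    · rintro ⟨u, hu, rfl⟩
      exact (mem_filter.1 hu).2
    · intro hv
      have h1 : v ∈ I.image Prod.fst := by
        rw [him]
        exact mem_insert_of_mem hv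
      obtain ⟨u, hu, rfl⟩ := mem_image.1 h1
      exact ⟨u, mem_filter.2 ⟨hu, hv⟩, rfl⟩
  · intro J hJ
    obtain ⟨I', hI', rfl⟩ := Finset.mem_image.mp hJ
    rw [emb, mem_filter] at hI'
    obtain ⟨-, hgI', -, himI'⟩ := hI'
    have h1 : y ∈ I'.image Prod.fst := by
      rw [himI']
      exact hy
    obtain ⟨⟨y₀, y'⟩, hyI', hy0⟩ := mem_image.1 h1
    have hy0' : y₀ = y := hy0
    subst hy0'
    have hyJ : (y₀, r y') ∈ cl r I' := mem_cl hyI'
    have hsub : (filter (fun C : Finset (V × V) => (C.filter fun u => u.1 ∈ Y) = cl r I')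
        ((emb G a c (insert x Y)).image (cl r))) ⊆
        (insert (r y') (T.filter fun w => G.Adj (r y') w)).image
          (fun z => insert (x, z) (cl r I')) := by
      intro C hC
      rw [mem_filter] at hC
      obtain ⟨hC1, hC2⟩ := hC
      obtain ⟨I, hI, rfl⟩ := Finset.mem_image.mp hC1
      rw [emb, mem_filter] at hI
      obtain ⟨-, hg, har, him⟩ := hI
      have h2 : x ∈ I.image Prod.fst := by
        rw [him]
        exact mem_insert_self _ _
      obtain ⟨⟨x₀, z⟩, hxI, hx0⟩ := mem_image.1 h2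
      have hx0' : x₀ = x := hx0
      subst hx0'
      have h3 : y₀ ∈ I.image Prod.fst := by
        rw [him]
        exact mem_insert_of_mem hy
      obtain ⟨⟨y₁, w⟩, hyI, hy1⟩ := mem_image.1 h3
      have hy1' : y₁ = y₀ := hy1
      subst hy1'
      have hyw : (y₁, r w) ∈ cl r I' := by
        rw [← hC2, Finset.mem_filter]
        exact ⟨mem_cl hyI, hy⟩
      have hrw : r w = r y' := (Prod.ext_iff.mp (cl_fun hgI' hyw hyJ rfl)).2
      have hwz : G.Adj w z := (hg _ hyI _ hxI).2.1 hadj
      rw [mem_image]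
      refine ⟨r z, ?_, ?_⟩
      · rw [Finset.mem_insert]
        by_cases he : r z = r y'
        · exact Or.inl he
        · right
          rw [Finset.mem_filter]
          refine ⟨hr z, ?_⟩
          rw [← hrw] at he ⊢
          exact (Tw.adj (hrt w) (hrt z) hwz.ne (Ne.symm he)).mp hwz
      · ext u
        rw [Finset.mem_insert, ← hC2, Finset.mem_filter]
        constructor
        · rintro (rfl | h3)
          · exact mem_cl hxI
          · exact h3.1
        · intro hu
          have h4 : u.1 ∈ I.image Prod.fst := by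
            rw [← fst_cl (r := r)]
            exact mem_image_of_mem _ hu
          rw [him, Finset.mem_insert] at h4
          rcases h4 with h4 | h4
          · left
            exact cl_fun hg hu (mem_cl hxI) h4
          · exact Or.inr ⟨hu, h4⟩
    refine (card_le_card hsub).trans (card_image_le.trans ((Finset.card_insert_le _ _).trans ?_))
    exact hD (r y') (hr y')

theorem count {V : Type} [Fintype V] {G : SimpleGraph V} {T : Finset V} {r : V → V}
    (hr : ∀ v, r v ∈ T) (hrt : ∀ v, Tw G v (r v)) {D : ℕ}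
    (hD : ∀ v ∈ T, (T.filter fun w => G.Adj v w).card < D) {a : V} (c : V) {X : Finset V}
    (ha : a ∈ X) (hc : (G.induce (X : Set V)).Connected) :
    ((emb G a c X).image (cl r)).card ≤ D ^ (X.card - 1) := by
  have key : ∀ n, n + 1 ≤ X.card → ∃ Y ⊆ X, a ∈ Y ∧ Y.card = n + 1 ∧
      ((emb G a c Y).image (cl r)).card ≤ D ^ n := by
    intro n
    induction n with
    | zero =>
      intro _
      exact ⟨{a}, singleton_subset_iff.2 ha, mem_singleton_self a, card_singleton a,
        by rw [pow_zero]; exact card_image_le.trans (NBDM.base G a c)⟩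
    | succ n ih =>
      intro hn
      obtain ⟨Y, hYX, haY, hYc, hYe⟩ := ih (by omega)
      have hne : Y ≠ X := by
        rintro rfl
        omega
      obtain ⟨y, hy, x, hxX, hxY, hadj⟩ := NBDM.exists_edge G hc haY hYX hne
      refine ⟨insert x Y, insert_subset hxX hYX, mem_insert_of_mem haY, ?_, ?_⟩
      · rw [card_insert_of_notMem hxY, hYc]
      · calc ((emb G a c (insert x Y)).image (cl r)).card
            ≤ D * ((emb G a c Y).image (cl r)).card := step hr hrt hD haY hy hxY hadj
          _ ≤ D * D ^ n := Nat.mul_le_mul_left _ hYe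
          _ = D ^ (n + 1) := by rw [pow_succ, mul_comm]
  have hpos : 0 < X.card := card_pos.2 ⟨a, ha⟩
  obtain ⟨Y, hYX, -, hYc, hYe⟩ := key (X.card - 1) (by omega)
  have hYX' : Y = X := eq_of_subset_of_card_le hYX (by omega)
  rwa [hYX'] at hYe

end REPTM

open REPTM

theorem specREPT (hPRM : SpecPRM) : SpecREPT := by
  intro V _ G D a b T₁ X hTrv ha hc hD
  choose r hr hrt using hTrv.1
  set E : Finset (Finset (V × V)) :=
    (emb G a a X).image (cl r) ∪ (emb G a b X).image (cl r) with hE
  set g : Finset (V × V) → Finset (V × V) := fun C =>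
    if h : ∃ I : Finset (V × V), Good G I ∧ I.image Prod.fst = X ∧ cl r I = C
      then Classical.choose h else ∅ with hg
  refine ⟨E.image g, ?_, ?_⟩
  · refine card_image_le.trans ((Finset.card_union_le _ _).trans ?_)
    have h1 := count hr hrt hD a ha hc
    have h2 := count hr hrt hD b ha hc
    omega
  · intro I hI hIX hab
    have hCE : cl r I ∈ E := by
      rw [hE, Finset.mem_union]
      rcases hab with h | h
      · left
        refine Finset.mem_image.mpr ⟨I, ?_, rfl⟩
        rw [emb, Finset.mem_filter]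
        exact ⟨Finset.mem_univ _, hI, h, hIX⟩
      · right
        refine Finset.mem_image.mpr ⟨I, ?_, rfl⟩
        rw [emb, Finset.mem_filter]
        exact ⟨Finset.mem_univ _, hI, h, hIX⟩
    have hex : ∃ I' : Finset (V × V), Good G I' ∧ I'.image Prod.fst = X ∧ cl r I' = cl r I :=
      ⟨I, hI, hIX, rfl⟩
    have hgC : g (cl r I) = Classical.choose hex := by
      rw [hg]
      simp only
      rw [dif_pos hex]
    have hsp := Classical.choose_spec hex
    rw [← hgC] at hsp
    obtain ⟨s1, s2, s3⟩ := hsp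
    refine ⟨g (cl r I), Finset.mem_image_of_mem _ hCE, ?_⟩
    refine hPRM V G (g (cl r I)) I s1 hI (s2.trans hIX.symm) ?_
    intro u hu w hw huw
    have h1 : (u.1, r u.2) ∈ cl r I := by
      rw [← s3]
      exact mem_cl hu
    have h2 : (u.1, r u.2) = (w.1, r w.2) := cl_fun hI h1 (mem_cl hw) huw
    have h3 : r u.2 = r w.2 := (Prod.ext_iff.mp h2).2
    have h4 := hrt u.2
    rw [h3] at h4
    exact h4.trans (hrt w.2).symm

end Pool.Agent.Lib.MP50ecf8.LOC
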