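import Pool.Agent.Lib.MP_50ecf8_co.LOC.Spec

/-!
# Module RNC: random locating sets, second form
-/

set_option autoImplicit false

open Finset
open scoped Classical

namespace Pool.Agent.Lib.MP50ecf8.LOC

namespace RNCM

variable {V : Type} [Fintype V]

/-- the tuples which avoid `A` -/
noncomputable def av (s : ℕ) (A : Finset V) : Finset (Fin s → V) := univ.filter fun c => ∀ i, c i ∉ A

theorem card_av (s : ℕ) (A : Finset V) (x : ℝ) (hx : x ≤ A.card) (hp : 0 < Fintype.card V) :
    ((av s A).card : ℝ) ≤ (Fintype.card V : ℝ) ^ s * (1 - x / Fintype.card V) ^ s := by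
  have h1 : av s A = Fintype.piFinset (fun _ => Aᶜ) := by
    ext c
    simp [av, Fintype.mem_piFinset]
  have h2 : (av s A).card = (Fintype.card V - A.card) ^ s := by
    rw [h1, Fintype.card_piFinset, prod_const, card_univ, Fintype.card_fin, card_compl]
  have hp0 : (0 : ℝ) < Fintype.card V := by exact_mod_cast hp
  have h3 : (Fintype.card V : ℝ) * (1 - x / Fintype.card V) = Fintype.card V - x := by
    field_simp
  rw [← mul_pow, h3, h2, Nat.cast_pow, Nat.cast_sub (card_le_univ A)]
  apply pow_le_pow_left₀
  · rw [sub_nonneg]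
    exact_mod_cast card_le_univ A
  · linarith

theorem card_av_le (s : ℕ) (A : Finset V) : ((av s A).card : ℝ) ≤ (Fintype.card V : ℝ) ^ s := by
  have h : (av s A).card ≤ Fintype.card (Fin s → V) := card_le_univ _
  rw [Fintype.card_fun, Fintype.card_fin] at h
  exact_mod_cast h

/-- the neighbours -/
noncomputable def nb (G : SimpleGraph V) (v : V) : Finset V := univ.filter fun w => G.Adj v w

/-- the vertices with a common neighbour -/
noncomputable def nn (G : SimpleGraph V) (v : V) : Finset V :=
  univ.filter fun u => u ≠ v ∧ ∃ w, G.Adj v w ∧ G.Adj w u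

theorem card_nn (G : SimpleGraph V) (D : ℕ) (hD : ∀ v, deg G v ≤ D) (v : V) :
    (nn G v).card ≤ D * D := by
  have h : nn G v ⊆ (nb G v).biUnion fun w => nb G w := by
    intro u hu
    rw [nn, mem_filter] at hu
    obtain ⟨-, -, w, h1, h2⟩ := hu
    rw [mem_biUnion]
    exact ⟨w, by rw [nb, mem_filter]; exact ⟨mem_univ _, h1⟩,
      by rw [nb, mem_filter]; exact ⟨mem_univ _, h2⟩⟩
  calc (nn G v).card ≤ ((nb G v).biUnion fun w => nb G w).card := card_le_card h
    _ ≤ (nb G v).card * D := card_biUnion_le_card_mul _ _ _ fun w _ => hD w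
    _ ≤ D * D := Nat.mul_le_mul_right D (hD v)

/-- the bad vertices -/
noncomputable def bad (G : SimpleGraph V) {s : ℕ} (c : Fin s → V) : Finset V :=
  univ.filter fun v => (∀ i, c i ∉ nb G v) ∨ ∃ u ∈ nn G v, ∀ i, c i ∉ sep G u v

theorem locating (G : SimpleGraph V) {s : ℕ} (c : Fin s → V) :
    Locating G (univ.image c ∪ bad G c) := by
  intro u _ v hv huv
  by_contra hcon
  push Not at hcon
  rw [mem_union, not_or, bad, mem_filter, not_and, not_or] at hv
  obtain ⟨-, hv⟩ := hv
  obtain ⟨h1, h2⟩ := hv (mem_univ _)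
  have hc : ∀ i, (G.Adj (c i) u ↔ G.Adj (c i) v) := fun i =>
    hcon (c i) (mem_union_left _ (mem_image_of_mem c (mem_univ i)))
  push Not at h1
  obtain ⟨i, hi⟩ := h1
  rw [nb, mem_filter] at hi
  have h3 : u ∈ nn G v := by
    rw [nn, mem_filter]
    exact ⟨mem_univ _, huv, c i, hi.2, (hc i).2 hi.2.symm⟩
  push Not at h2
  obtain ⟨j, hj⟩ := h2 u h3
  rw [sep, mem_filter] at hj
  exact hj.2.2.2 (hc j)

end RNCM

open RNCM

theorem specRNC : SpecRNC := by
  intro V _ G D t s ht hD hsep hV
  have hp : 0 < Fintype.card V := by omega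
  have hp0 : (0 : ℝ) < Fintype.card V := by exact_mod_cast hp
  obtain ⟨u₀, v₀, huv₀⟩ := Fintype.exists_pair_of_one_lt_card (by omega : 1 < Fintype.card V)
  have htp : t ≤ Fintype.card V :=
    (hsep u₀ v₀ huv₀).trans (by exact_mod_cast card_le_univ _)
  set P : ℝ := (Fintype.card V : ℝ) with hP
  have hx1 : 0 ≤ 1 - t / P := by
    rw [sub_nonneg, div_le_one hp0]
    exact htp
  have hx2 : 0 ≤ 1 - t / (2 * P) := by
    rw [sub_nonneg, div_le_one (by positivity)]
    linarith
  -- the vertices of small degree
  set L : Finset V := univ.filter fun v => ((nb G v).card : ℝ) < t / 2 with hL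
  have hL1 : L.card ≤ 1 := by
    rw [card_le_one]
    intro u hu v hv
    by_contra hne
    rw [hL, mem_filter] at hu hv
    have h1 : sep G u v ⊆ nb G u ∪ nb G v := by
      intro w hw
      rw [sep, mem_filter] at hw
      rw [mem_union, nb, nb, mem_filter, mem_filter]
      by_cases h : G.Adj u w
      · exact Or.inl ⟨mem_univ _, h⟩
      · right
        refine ⟨mem_univ _, ?_⟩
        by_contra h'
        apply hw.2.2.2
        constructor
        · intro h2
          exact absurd h2.symm h
        · intro h2
          exact absurd h2.symm h'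
    have h2 : ((sep G u v).card : ℝ) ≤ (nb G u).card + (nb G v).card := by
      exact_mod_cast (card_le_card h1).trans (card_union_le _ _)
    have h3 := hsep u v hne
    linarith [hu.2, hv.2]
  -- (a)
  have ha : ∑ v : V, ((av s (nb G v)).card : ℝ) ≤ P ^ s + P * (P ^ s * (1 - t / (2 * P)) ^ s) := by
    calc ∑ v : V, ((av s (nb G v)).card : ℝ) ≤
        ∑ v : V, ((if v ∈ L then P ^ s else 0) + P ^ s * (1 - t / (2 * P)) ^ s) := by
          refine sum_le_sum fun v _ => ?_
          by_cases hv : v ∈ L
          · rw [if_pos hv]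
            have := card_av_le s (nb G v)
            have h0 : 0 ≤ P ^ s * (1 - t / (2 * P)) ^ s := by positivity
            linarith
          · rw [if_neg hv, zero_add]
            have h1 : t / 2 ≤ (nb G v).card := by
              by_contra h
              apply hv
              rw [hL, mem_filter]
              exact ⟨mem_univ _, not_le.1 h⟩
            have h2 := card_av s (nb G v) (t / 2) h1 hp
            rwa [div_div] at h2
      _ = L.card * P ^ s + P * (P ^ s * (1 - t / (2 * P)) ^ s) := by
          rw [sum_add_distrib, sum_ite_mem, univ_inter, sum_const, sum_const, card_univ,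
            nsmul_eq_mul, nsmul_eq_mul]
      _ ≤ 1 * P ^ s + P * (P ^ s * (1 - t / (2 * P)) ^ s) := by
          apply add_le_add _ le_rfl
          apply mul_le_mul_of_nonneg_right _ (by positivity)
          exact_mod_cast hL1
      _ = _ := by rw [one_mul]
  -- (b)
  have hb : ∑ v : V, ∑ u ∈ nn G v, ((av s (sep G u v)).card : ℝ) ≤
      P * ((D : ℝ) ^ 2 * (P ^ s * (1 - t / P) ^ s)) := by
    calc ∑ v : V, ∑ u ∈ nn G v, ((av s (sep G u v)).card : ℝ) ≤
        ∑ v : V, ∑ u ∈ nn G v, (P ^ s * (1 - t / P) ^ s) := by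
          refine sum_le_sum fun v _ => sum_le_sum fun u hu => ?_
          rw [nn, mem_filter] at hu
          exact card_av s (sep G u v) t (hsep u v hu.2.1) hp
      _ ≤ ∑ v : V, ((D : ℝ) ^ 2 * (P ^ s * (1 - t / P) ^ s)) := by
          refine sum_le_sum fun v _ => ?_
          rw [sum_const, nsmul_eq_mul]
          apply mul_le_mul_of_nonneg_right _ (by positivity)
          rw [sq]
          exact_mod_cast card_nn G D hD v
      _ = _ := by rw [sum_const, card_univ, nsmul_eq_mul]
  -- double counting
  have hcount : ∑ c : Fin s → V, ((bad G c).card : ℝ) ≤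
      ∑ v : V, (((av s (nb G v)).card : ℝ) + ∑ u ∈ nn G v, ((av s (sep G u v)).card : ℝ)) := by
    have e1 : ∑ c : Fin s → V, ((bad G c).card : ℝ) =
        ∑ v : V, ((univ.filter fun c : Fin s → V => v ∈ bad G c).card : ℝ) := by
      have h : ∀ c : Fin s → V, ((bad G c).card : ℝ) = ∑ v : V, if v ∈ bad G c then (1 : ℝ) else 0 := by
        intro c
        rw [sum_ite_mem, univ_inter, sum_const, nsmul_eq_mul, mul_one]
      rw [sum_congr rfl fun c _ => h c, sum_comm]
      refine sum_congr rfl fun v _ => ?_
      rw [← sum_filter, sum_const, nsmul_eq_mul, mul_one]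
    rw [e1]
    refine sum_le_sum fun v _ => ?_
    have h1 : (univ.filter fun c : Fin s → V => v ∈ bad G c) ⊆
        av s (nb G v) ∪ (nn G v).biUnion fun u => av s (sep G u v) := by
      intro c hc
      rw [mem_filter, bad, mem_filter] at hc
      rw [mem_union, mem_biUnion]
      rcases hc.2.2 with h | ⟨u, hu, h⟩
      · left
        rw [av, mem_filter]
        exact ⟨mem_univ _, h⟩
      · right
        refine ⟨u, hu, ?_⟩
        rw [av, mem_filter]
        exact ⟨mem_univ _, h⟩
    have h2 := (card_le_card h1).trans ((card_union_le _ _).trans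
      (Nat.add_le_add_left card_biUnion_le _))
    exact_mod_cast h2
  -- the average
  set K : ℝ := 1 + P * (1 - t / (2 * P)) ^ s + P * (D : ℝ) ^ 2 * (1 - t / P) ^ s with hK
  have : Nonempty V := ⟨u₀⟩
  obtain ⟨c, -, hc⟩ := exists_le_of_sum_le (s := (univ : Finset (Fin s → V))) univ_nonempty
    (f := fun c => ((bad G c).card : ℝ)) (g := fun _ => K) (by
      refine hcount.trans ?_
      rw [sum_add_distrib, sum_const, card_univ, Fintype.card_fun, Fintype.card_fin, nsmul_eq_mul,
        Nat.cast_pow]
      refine (add_le_add ha hb).trans (le_of_eq ?_)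
      rw [hK]
      ring)
  refine ⟨univ.image c ∪ bad G c, locating G c, ?_⟩
  have h1 : ((univ.image c ∪ bad G c).card : ℝ) ≤ s + (bad G c).card := by
    have h2 : (univ.image c).card ≤ s := by
      refine card_image_le.trans ?_
      rw [card_univ, Fintype.card_fin]
    exact_mod_cast (card_union_le _ _).trans (Nat.add_le_add_right h2 _)
  linarith

/-- the same theorem -/
theorem rnc : SpecRNC := specRNC

end Pool.Agent.Lib.MP50ecf8.LOC
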