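import Pool.Agent.Lib.MP_50ecf8_co.LOC.Spec3
import Pool.Agent.Lib.MP_50ecf8_co.LOC.RNC

/-!
# Module RNCC: random sets which locate and dominate a core
-/

set_option autoImplicit false

open Finset
open scoped Classical

namespace Pool.Agent.Lib.MP50ecf8.LOC

namespace RNCCM

open RNCM

variable {V : Type} [Fintype V]

/-- the bad vertices -/
noncomputable def badC (G : SimpleGraph V) (B C : Finset V) {s : ℕ} (c : Fin s → V) : Finset V :=
  univ.filter fun v => (v ∈ C ∧ v ∉ B) ∧
    ((∀ i, c i ∉ nb G v) ∨ ∃ u ∈ (nn G v).filter (fun u => u ∉ B), ∀ i, c i ∉ sep G v u)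

theorem locatingC (G : SimpleGraph V) (B C : Finset V) {s : ℕ} (c : Fin s → V) (v : V)
    (hvC : v ∈ C) (hv : v ∉ B ∪ (univ.image c ∪ badC G B C c)) :
    Uniq G (B ∪ (univ.image c ∪ badC G B C c)) v ∧
      ∃ w ∈ B ∪ (univ.image c ∪ badC G B C c), G.Adj v w := by
  rw [mem_union, not_or] at hv
  obtain ⟨hvB, hv⟩ := hv
  rw [mem_union, not_or, badC, mem_filter, not_and, not_and, not_or] at hv
  obtain ⟨-, hv⟩ := hv
  obtain ⟨h1, h2⟩ := hv (mem_univ _) ⟨hvC, hvB⟩
  push Not at h1
  obtain ⟨i, hi⟩ := h1
  rw [nb, mem_filter] at hi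
  refine ⟨?_, c i, mem_union_right _ (mem_union_left _ (mem_image_of_mem c (mem_univ i))), hi.2⟩
  intro u hu huv
  by_contra hcon
  push Not at hcon
  rw [mem_union, not_or] at hu
  have hc : ∀ i, (G.Adj (c i) u ↔ G.Adj (c i) v) := fun i =>
    hcon (c i) (mem_union_right _ (mem_union_left _ (mem_image_of_mem c (mem_univ i))))
  have h3 : u ∈ (nn G v).filter (fun u => u ∉ B) := by
    rw [mem_filter, nn, mem_filter]
    exact ⟨⟨mem_univ _, huv, c i, hi.2, (hc i).2 hi.2.symm⟩, hu.1⟩
  push Not at h2
  obtain ⟨j, hj⟩ := h2 u h3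
  rw [sep, mem_filter] at hj
  exact hj.2.2.2 (hc j).symm

end RNCCM

open RNCM RNCCM

theorem specRNCC : SpecRNCC := by
  intro V _ G B C D t s ht hD hsep htp hp
  have hp0 : (0 : ℝ) < Fintype.card V := by exact_mod_cast hp
  set P : ℝ := (Fintype.card V : ℝ) with hP
  have hx1 : 0 ≤ 1 - t / P := by
    rw [sub_nonneg, div_le_one hp0]
    exact htp
  have hx2 : 0 ≤ 1 - t / (2 * P) := by
    rw [sub_nonneg, div_le_one (by positivity)]
    linarith
  -- the vertices of small degree
  set W : Finset V := univ.filter fun v => v ∈ C ∧ v ∉ B with hW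
  have hWc : (W.card : ℝ) ≤ P := by
    rw [hP]
    exact_mod_cast card_le_univ W
  set L : Finset V := univ.filter fun v => (v ∈ C ∧ v ∉ B) ∧ ((nb G v).card : ℝ) < t / 2 with hL
  have hL1 : L.card ≤ 1 := by
    rw [card_le_one]
    intro u hu v hv
    by_contra hne
    rw [hL, mem_filter] at hu hv
    have h1 : sep G u v ⊆ nb G u ∪ nb G v := by
      intro w hw
      rw [sep, mem_filter] at hw
      rw [mem_union, nb, nb, mem_filter, mem_filter]
      by_cases h : G.Adj u w
      · exact Or.inl ⟨mem_univ _, h⟩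
      · right
        refine ⟨mem_univ _, ?_⟩
        by_contra h'
        apply hw.2.2.2
        constructor
        · intro h2
          exact absurd h2.symm h
        · intro h2
          exact absurd h2.symm h'
    have h2 : ((sep G u v).card : ℝ) ≤ (nb G u).card + (nb G v).card := by
      exact_mod_cast (card_le_card h1).trans (card_union_le _ _)
    have h3 := hsep u hu.2.1.1 hu.2.1.2 v hv.2.1.2 (Ne.symm hne)
    linarith [hu.2.2, hv.2.2]
  -- (a)
  have ha : ∑ v ∈ W, ((av s (nb G v)).card : ℝ) ≤ P ^ s + P * (P ^ s * (1 - t / (2 * P)) ^ s) := by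
    calc ∑ v ∈ W, ((av s (nb G v)).card : ℝ) ≤
        ∑ v ∈ W, ((if v ∈ L then P ^ s else 0) + P ^ s * (1 - t / (2 * P)) ^ s) := by
          refine sum_le_sum fun v hvW => ?_
          rw [hW, mem_filter] at hvW
          by_cases hv : v ∈ L
          · rw [if_pos hv]
            have := card_av_le s (nb G v)
            have h0 : 0 ≤ P ^ s * (1 - t / (2 * P)) ^ s := by positivity
            linarith
          · rw [if_neg hv, zero_add]
            have h1 : t / 2 ≤ (nb G v).card := by
              by_contra h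
              apply hv
              rw [hL, mem_filter]
              exact ⟨mem_univ _, hvW.2, not_le.1 h⟩
            have h2 := card_av s (nb G v) (t / 2) h1 hp
            rwa [div_div] at h2
      _ ≤ ∑ v : V, (if v ∈ L then P ^ s else 0) + W.card * (P ^ s * (1 - t / (2 * P)) ^ s) := by
          rw [sum_add_distrib, sum_const (s := W), nsmul_eq_mul]
          apply add_le_add _ le_rfl
          apply sum_le_sum_of_subset_of_nonneg (subset_univ _)
          intro v _ _
          split_ifs
          · positivity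
          · exact le_rfl
      _ = L.card * P ^ s + W.card * (P ^ s * (1 - t / (2 * P)) ^ s) := by
          rw [sum_ite_mem, univ_inter, sum_const, nsmul_eq_mul]
      _ ≤ 1 * P ^ s + P * (P ^ s * (1 - t / (2 * P)) ^ s) := by
          apply add_le_add
          · apply mul_le_mul_of_nonneg_right _ (by positivity)
            exact_mod_cast hL1
          · exact mul_le_mul_of_nonneg_right hWc (by positivity)
      _ = _ := by rw [one_mul]
  -- (b)
  have hb : ∑ v ∈ W, ∑ u ∈ (nn G v).filter (fun u => u ∉ B), ((av s (sep G v u)).card : ℝ) ≤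
      P * ((D : ℝ) ^ 2 * (P ^ s * (1 - t / P) ^ s)) := by
    calc ∑ v ∈ W, ∑ u ∈ (nn G v).filter (fun u => u ∉ B), ((av s (sep G v u)).card : ℝ) ≤
        ∑ v ∈ W, ∑ u ∈ (nn G v).filter (fun u => u ∉ B), (P ^ s * (1 - t / P) ^ s) := by
          refine sum_le_sum fun v hv => sum_le_sum fun u hu => ?_
          rw [hW, mem_filter] at hv
          rw [mem_filter, nn, mem_filter] at hu
          exact card_av s (sep G v u) t (hsep v hv.2.1 hv.2.2 u hu.2 hu.1.2.1) hp
      _ ≤ ∑ v ∈ W, ((D : ℝ) ^ 2 * (P ^ s * (1 - t / P) ^ s)) := by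
          refine sum_le_sum fun v _ => ?_
          rw [sum_const, nsmul_eq_mul]
          apply mul_le_mul_of_nonneg_right _ (by positivity)
          rw [sq]
          exact_mod_cast (card_filter_le _ _).trans (card_nn G D hD v)
      _ = W.card * ((D : ℝ) ^ 2 * (P ^ s * (1 - t / P) ^ s)) := by rw [sum_const, nsmul_eq_mul]
      _ ≤ _ := mul_le_mul_of_nonneg_right hWc (by positivity)
  -- double counting
  have hcount : ∑ c : Fin s → V, ((badC G B C c).card : ℝ) ≤
      ∑ v ∈ W, (((av s (nb G v)).card : ℝ) +
        ∑ u ∈ (nn G v).filter (fun u => u ∉ B), ((av s (sep G v u)).card : ℝ)) := by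
    have e1 : ∑ c : Fin s → V, ((badC G B C c).card : ℝ) =
        ∑ v ∈ W, ((univ.filter fun c : Fin s → V => v ∈ badC G B C c).card : ℝ) := by
      have h : ∀ c : Fin s → V, ((badC G B C c).card : ℝ) =
          ∑ v ∈ W, if v ∈ badC G B C c then (1 : ℝ) else 0 := by
        intro c
        rw [sum_ite_mem, sum_const, nsmul_eq_mul, mul_one]
        congr 2
        symm
        rw [inter_eq_right]
        intro v hv
        rw [badC, mem_filter] at hv
        rw [hW, mem_filter]
        exact ⟨mem_univ _, hv.2.1⟩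
      rw [sum_congr rfl fun c _ => h c, sum_comm]
      refine sum_congr rfl fun v _ => ?_
      rw [← sum_filter, sum_const, nsmul_eq_mul, mul_one]
    rw [e1]
    refine sum_le_sum fun v _ => ?_
    have h1 : (univ.filter fun c : Fin s → V => v ∈ badC G B C c) ⊆
        av s (nb G v) ∪ ((nn G v).filter (fun u => u ∉ B)).biUnion fun u => av s (sep G v u) := by
      intro c hc
      rw [mem_filter, badC, mem_filter] at hc
      rw [mem_union, mem_biUnion]
      rcases hc.2.2.2 with h | ⟨u, hu, h⟩
      · left
        rw [av, mem_filter]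
        exact ⟨mem_univ _, h⟩
      · right
        refine ⟨u, hu, ?_⟩
        rw [av, mem_filter]
        exact ⟨mem_univ _, h⟩
    have h2 := (card_le_card h1).trans ((card_union_le _ _).trans
      (Nat.add_le_add_left card_biUnion_le _))
    exact_mod_cast h2
  -- the average
  set K : ℝ := 1 + P * (1 - t / (2 * P)) ^ s + P * (D : ℝ) ^ 2 * (1 - t / P) ^ s with hK
  have : Nonempty V := Fintype.card_pos_iff.1 hp
  obtain ⟨c, -, hc⟩ := exists_le_of_sum_le (s := (univ : Finset (Fin s → V))) univ_nonempty
    (f := fun c => ((badC G B C c).card : ℝ)) (g := fun _ => K) (by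
      refine hcount.trans ?_
      rw [sum_add_distrib, sum_const, card_univ, Fintype.card_fun, Fintype.card_fin, nsmul_eq_mul,
        Nat.cast_pow]
      refine (add_le_add ha hb).trans (le_of_eq ?_)
      rw [hK]
      ring)
  refine ⟨B ∪ (univ.image c ∪ badC G B C c), subset_union_left,
    fun v hvC hv => locatingC G B C c v hvC hv, ?_⟩
  have h1 : ((B ∪ (univ.image c ∪ badC G B C c)).card : ℝ) ≤ B.card + (s + (badC G B C c).card) := by
    have h2 : (univ.image c).card ≤ s := by
      refine card_image_le.trans ?_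
      rw [card_univ, Fintype.card_fin]
    exact_mod_cast (card_union_le _ _).trans (Nat.add_le_add_left
      ((card_union_le _ _).trans (Nat.add_le_add_right h2 _)) _)
  linarith

end Pool.Agent.Lib.MP50ecf8.LOC
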