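import Pool.Agent.Lib.MP_50ecf8_co.LOC.Spec3

/-!
# Module RNN2 (MP_50ecf8_co): numerical part (helper45, adapted from RNN)
-/

set_option autoImplicit false

open Finset
open scoped Classical

namespace Pool.Agent.Lib.MP50ecf8.LOC

namespace RNN2M

/-- `L ≥ 12` -/
theorem twelve_le (D : ℕ) (hD : 2 ≤ D) (h : 50 * Real.logb 2 D ^ 2 ≤ (D : ℝ)) :
    12 ≤ Real.logb 2 D := by
  have hD0 : (0 : ℝ) < D := by exact_mod_cast (by omega : 0 < D)
  set L := Real.logb 2 D with hL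
  have hDL : (D : ℝ) = (2 : ℝ) ^ L := by
    rw [hL, Real.rpow_logb (by norm_num) (by norm_num) hD0]
  have h1 : 1 ≤ L := by
    rw [hL, Real.le_logb_iff_rpow_le (by norm_num) hD0]
    norm_num
    exact_mod_cast hD
  rw [hDL] at h
  have step : ∀ k : ℕ, (2 : ℝ) ^ (k + 1) < 50 * (k : ℝ) ^ 2 → (k : ℝ) ≤ L →
      ((k + 1 : ℕ) : ℝ) ≤ L := by
    intro k hk hkL
    by_contra hcon
    rw [not_le] at hcon
    have h2 : (2 : ℝ) ^ L ≤ (2 : ℝ) ^ ((k + 1 : ℕ) : ℝ) :=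
      Real.rpow_le_rpow_of_exponent_le (by norm_num) hcon.le
    rw [Real.rpow_natCast] at h2
    have h3 : (k : ℝ) ^ 2 ≤ L ^ 2 := pow_le_pow_left₀ (Nat.cast_nonneg _) hkL 2
    linarith
  have h2 := step 1 (by norm_num) (by simpa using h1)
  have h3 := step 2 (by norm_num) (by simpa using h2)
  have h4 := step 3 (by norm_num) (by simpa using h3)
  have h5 := step 4 (by norm_num) (by simpa using h4)
  have h6 := step 5 (by norm_num) (by simpa using h5)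
  have h7 := step 6 (by norm_num) (by simpa using h6)
  have h8 := step 7 (by norm_num) (by simpa using h7)
  have h9 := step 8 (by norm_num) (by simpa using h8)
  have h10 := step 9 (by norm_num) (by simpa using h9)
  have h11 := step 10 (by norm_num) (by simpa using h10)
  have h12 := step 11 (by norm_num) (by simpa using h11)
  simpa using h12

theorem powexp {y : ℝ} (hy : y ≤ 1) (s : ℕ) : (1 - y) ^ s ≤ Real.exp (-(y * s)) := by
  have h1 : 1 - y ≤ Real.exp (-y) := Real.one_sub_le_exp_neg y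
  calc (1 - y) ^ s ≤ (Real.exp (-y)) ^ s := pow_le_pow_left₀ (by linarith) h1 s
    _ = Real.exp (-(y * s)) := by
        rw [← Real.exp_nat_mul]
        congr 1
        ring

end RNN2M

open RNN2M in
theorem specRNN2 : SpecRNN2 := by
  intro p D hD h16 h32
  have hL := twelve_le D hD h16
  have hl2 : Real.log 2 < 0.6931471808 := Real.log_two_lt_d9
  have hl2' : 0.6931471803 < Real.log 2 := Real.log_two_gt_d9
  have hD0 : (0 : ℝ) < D := by exact_mod_cast (by omega : 0 < D)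
  set L := Real.logb 2 D with hLdef
  have hL0 : 0 < L := by linarith
  have hp0 : (0 : ℝ) < p := by nlinarith
  have hlog : Real.log D = L * Real.log 2 := by
    rw [hLdef]; unfold Real.logb
    field_simp
  set w : ℝ := 3 * Real.log 2 / 100 * p / L with hw
  have hw0 : 0 ≤ w := by positivity
  set v : ℝ := p / L with hv
  have hv1 : 100 * L ≤ v := by
    rw [hv, le_div_iff₀ hL0]; nlinarith
  have hwv : w = 3 * Real.log 2 / 100 * v := by rw [hw, hv]; ring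
  have hw2 : w ≤ 0.0208 * v := by
    rw [hwv]
    have : 0 ≤ v := by linarith
    nlinarith
  have hs1 : w ≤ (⌈w⌉₊ : ℝ) := Nat.le_ceil w
  have hs2 : (⌈w⌉₊ : ℝ) < w + 1 := Nat.ceil_lt_add_one hw0
  refine ⟨⌈w⌉₊, ?_⟩
  have hlD0 : 0 ≤ Real.log D := Real.log_nonneg (by exact_mod_cast (by omega : 1 ≤ D))
  have hA : (1 - 100 * L ^ 2 / (2 * (p : ℝ))) ^ ⌈w⌉₊ ≤ (D : ℝ)⁻¹ := by
    have hy : 100 * L ^ 2 / (2 * (p : ℝ)) ≤ 1 := by
      rw [div_le_one (by positivity)]; linarith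
    refine (powexp hy ⌈w⌉₊).trans ?_
    rw [← Real.exp_log hD0, ← Real.exp_neg, Real.exp_le_exp]
    have h2 : 3 / 2 * Real.log D ≤ 100 * L ^ 2 / (2 * (p : ℝ)) * ⌈w⌉₊ := by
      calc 3 / 2 * Real.log D = 100 * L ^ 2 / (2 * (p : ℝ)) * w := by
            rw [hlog, hw]; field_simp
        _ ≤ _ := mul_le_mul_of_nonneg_left hs1 (by positivity)
    linarith
  have hB : (1 - 100 * L ^ 2 / (p : ℝ)) ^ ⌈w⌉₊ ≤ ((D : ℝ) ^ 3)⁻¹ := by
    have hy : 100 * L ^ 2 / (p : ℝ) ≤ 1 := by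
      rw [div_le_one (by positivity)]; linarith
    refine (powexp hy ⌈w⌉₊).trans ?_
    have h4 : Real.exp (-(3 * Real.log D)) = ((D : ℝ) ^ 3)⁻¹ := by
      rw [Real.exp_neg, show 3 * Real.log (D : ℝ) = ((3 : ℕ) : ℝ) * Real.log D by norm_num,
        Real.exp_nat_mul, Real.exp_log hD0]
    rw [← h4, Real.exp_le_exp]
    have h2 : 3 * Real.log D ≤ 100 * L ^ 2 / (p : ℝ) * ⌈w⌉₊ := by
      calc 3 * Real.log D = 100 * L ^ 2 / (p : ℝ) * w := by
            rw [hlog, hw]; field_simp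
        _ ≤ _ := mul_le_mul_of_nonneg_left hs1 (by positivity)
    linarith
  have hC : (p : ℝ) * (D : ℝ)⁻¹ ≤ v / 600 := by
    have h1 : (D : ℝ)⁻¹ ≤ (50 * L ^ 2)⁻¹ := inv_anti₀ (by positivity) h16
    calc (p : ℝ) * (D : ℝ)⁻¹ ≤ (p : ℝ) * (50 * L ^ 2)⁻¹ := mul_le_mul_of_nonneg_left h1 hp0.le
      _ = v * (50 * L)⁻¹ := by rw [hv]; field_simp
      _ ≤ v * (600 : ℝ)⁻¹ := by
          apply mul_le_mul_of_nonneg_left _ (by linarith)
          exact inv_anti₀ (by norm_num) (by linarith)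
      _ = v / 600 := by ring
  have h1 : (p : ℝ) * (1 - 100 * L ^ 2 / (2 * (p : ℝ))) ^ ⌈w⌉₊ ≤ v / 600 :=
    (mul_le_mul_of_nonneg_left hA hp0.le).trans hC
  have h2 : (p : ℝ) * (D : ℝ) ^ 2 * (1 - 100 * L ^ 2 / (p : ℝ)) ^ ⌈w⌉₊ ≤ v / 600 := by
    calc (p : ℝ) * (D : ℝ) ^ 2 * (1 - 100 * L ^ 2 / (p : ℝ)) ^ ⌈w⌉₊
        ≤ (p : ℝ) * (D : ℝ) ^ 2 * ((D : ℝ) ^ 3)⁻¹ := mul_le_mul_of_nonneg_left hB (by positivity)
      _ = (p : ℝ) * (D : ℝ)⁻¹ := by field_simp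
      _ ≤ _ := hC
  have h3 : (p : ℝ) / (36 * L) = v / 36 := by rw [hv]; field_simp
  rw [h3]
  have h4 : v * (0.0035 : ℝ) ≥ 2 := by nlinarith
  linarith

end Pool.Agent.Lib.MP50ecf8.LOC
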