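import Pool.Agent.Lib.MP_50ecf8_co.LOC.Spec

/-!
# Module RNP (MP_50ecf8_co): random locating sets, first form
-/

set_option autoImplicit false

open Finset
open scoped Classical

namespace Pool.Agent.Lib.MP50ecf8.LOC

theorem specRNP : SpecRNP := by
  intro V _ G t s ht hsep hp hs
  by_contra hno
  push_neg at hno
  set p : ℕ := Fintype.card V with hpdef
  have hp0 : (0 : ℝ) < p := by exact_mod_cast (by omega : 0 < p)
  -- every tuple misses some `sep`
  have h1 : (univ : Finset (Fin s → V)) ⊆
      (univ : Finset V).offDiag.biUnion fun q =>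
        Fintype.piFinset fun _ : Fin s => (sep G q.1 q.2)ᶜ := by
    intro c _
    have hcard : (univ.image c).card ≤ s := by
      calc (univ.image c).card ≤ (univ : Finset (Fin s)).card := card_image_le
        _ = s := by simp
    have hnl : ¬ Locating G (univ.image c) := fun hl => absurd (hno _ hl) (by omega)
    unfold Locating at hnl
    push_neg at hnl
    obtain ⟨u, hu, v, hv, huv, hw⟩ := hnl
    rw [mem_biUnion]
    refine ⟨(u, v), by simpa using huv, ?_⟩
    rw [Fintype.mem_piFinset]
    intro i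
    rw [mem_compl]
    intro hi
    have h2 := hw (c i) (mem_image_of_mem _ (mem_univ i))
    unfold sep at hi
    rw [mem_filter] at hi
    exact hi.2.2.2 h2
  have h2 : p ^ s ≤ ∑ q ∈ (univ : Finset V).offDiag, (p - (sep G q.1 q.2).card) ^ s := by
    calc p ^ s = (univ : Finset (Fin s → V)).card := by
          rw [card_univ, Fintype.card_fun, Fintype.card_fin]
      _ ≤ _ := card_le_card h1
      _ ≤ ∑ q ∈ (univ : Finset V).offDiag,
          (Fintype.piFinset fun _ : Fin s => (sep G q.1 q.2)ᶜ).card := card_biUnion_le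
      _ = _ := by
          refine sum_congr rfl fun q _ => ?_
          rw [Fintype.card_piFinset, prod_const, card_univ, Fintype.card_fin, card_compl]
  -- `t ≤ p - 2`
  have hlt : ∀ u v : V, (sep G u v).card ≤ p - 1 := by
    intro u v
    have : sep G u v ⊆ univ.erase u := by
      intro w hw
      unfold sep at hw
      rw [mem_filter] at hw
      exact mem_erase.2 ⟨hw.2.1, mem_univ _⟩
    calc (sep G u v).card ≤ (univ.erase u).card := card_le_card this
      _ = p - 1 := by rw [card_erase_of_mem (mem_univ _), card_univ]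
  obtain ⟨u₀, v₀, huv₀⟩ : ∃ u v : V, u ≠ v := by
    have : Nontrivial V := Fintype.one_lt_card_iff_nontrivial.1 (by omega)
    exact exists_pair_ne V
  have hpt : (0 : ℝ) < p - t := by
    have h3 := hsep u₀ v₀ huv₀
    have h4 : ((sep G u₀ v₀).card : ℝ) ≤ ((p - 1 : ℕ) : ℝ) := by exact_mod_cast hlt u₀ v₀
    have h5 : ((p - 1 : ℕ) : ℝ) < p := by exact_mod_cast (by omega : p - 1 < p)
    linarith
  have h3 : (p : ℝ) ^ s ≤ ((p * p - p : ℕ) : ℝ) * ((p : ℝ) - t) ^ s := by
    have h4 : ((p ^ s : ℕ) : ℝ) ≤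
        ((∑ q ∈ (univ : Finset V).offDiag, (p - (sep G q.1 q.2).card) ^ s : ℕ) : ℝ) := by
      exact_mod_cast h2
    push_cast at h4
    calc (p : ℝ) ^ s ≤ _ := h4
      _ ≤ ∑ q ∈ (univ : Finset V).offDiag, ((p : ℝ) - t) ^ s := by
          refine sum_le_sum fun q hq => ?_
          rw [mem_offDiag] at hq
          have h5 : (sep G q.1 q.2).card ≤ p := (hlt _ _).trans (by omega)
          rw [Nat.cast_sub h5]
          apply pow_le_pow_left₀
          · have : ((sep G q.1 q.2).card : ℝ) ≤ p := by exact_mod_cast h5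
            linarith
          · linarith [hsep q.1 q.2 hq.2.2]
      _ = _ := by
          rw [sum_const, offDiag_card, card_univ, nsmul_eq_mul]
  have h4 : ((p * p - p : ℕ) : ℝ) < (p : ℝ) ^ 2 := by
    have : p * p - p < p ^ 2 := by
      have : 0 < p * p := by positivity
      rw [sq]; omega
    exact_mod_cast this
  have h5 : (p : ℝ) ^ 2 * ((p : ℝ) - t) ^ s ≤ (p : ℝ) ^ s := by
    have h6 : (1 - t / (p : ℝ)) ^ s = ((p : ℝ) - t) ^ s / (p : ℝ) ^ s := by
      rw [← div_pow]
      congr 1
      field_simp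
    rw [h6] at hs
    have h7 : (0 : ℝ) < (p : ℝ) ^ s := by positivity
    rw [← mul_div_assoc, div_le_one h7] at hs
    exact hs
  have h6 : ((p * p - p : ℕ) : ℝ) * ((p : ℝ) - t) ^ s < (p : ℝ) ^ 2 * ((p : ℝ) - t) ^ s :=
    mul_lt_mul_of_pos_right h4 (pow_pos hpt s)
  linarith

end Pool.Agent.Lib.MP50ecf8.LOC
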