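import Pool.Agent.Lib.MP_50ecf8_co.LOC.Spec4
import Pool.Agent.Lib.MP_50ecf8_co.LOC.RNC

/-!
# Module TOPR: the first stage, random vertices of the core
-/

set_option autoImplicit false

open Finset
open scoped Classical

namespace Pool.Agent.Lib.MP50ecf8.LOC

namespace TOPRM

open RNCM

variable {V : Type} [Fintype V]

/-- the elements of `C` which are in `A` -/
noncomputable def res (C A : Finset V) : Finset {x // x ∈ C} := univ.filter fun x => (x : V) ∈ A

theorem card_res (C A : Finset V) : (res C A).card = (A ∩ C).card := by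
  have h : (res C A).map (Function.Embedding.subtype _) = A ∩ C := by
    ext x
    simp only [res, mem_map, mem_filter, mem_univ, true_and, Function.Embedding.subtype_apply,
      Subtype.exists, exists_and_left, exists_prop, exists_eq_right_right, mem_inter]
  rw [← h, card_map]

/-- the tuples in `C` which avoid `A` -/
noncomputable def avC (s : ℕ) (C A : Finset V) : Finset (Fin s → {x // x ∈ C}) :=
  univ.filter fun c => ∀ i, (c i : V) ∉ A

theorem card_avC (s : ℕ) (C A : Finset V) (x : ℝ) (hx : x ≤ (A ∩ C).card) (hC : 0 < C.card) :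
    ((avC s C A).card : ℝ) ≤ (C.card : ℝ) ^ s * (1 - x / C.card) ^ s := by
  have h := card_av s (res C A) x (by rw [card_res]; exact hx) (by rw [Fintype.card_coe]; exact hC)
  rw [Fintype.card_coe] at h
  have e : avC s C A = av s (res C A) := by
    ext c
    simp [avC, av, res]
  rw [e]
  exact h

/-- the bad vertices -/
noncomputable def badT (G : SimpleGraph V) (C : Finset V) (t : ℝ) {s : ℕ}
    (c : Fin s → {x // x ∈ C}) : Finset V :=
  univ.filter fun v => (v ∈ C ∧ t / 2 ≤ ((C.filter fun w => G.Adj v w).card : ℝ)) ∧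
    ((∀ i, (c i : V) ∉ nb G v) ∨
      ∃ u ∈ (nn G v).filter (fun u => t ≤ ((sC G C v u).card : ℝ)), ∀ i, (c i : V) ∉ sep G v u)

end TOPRM

open RNCM TOPRM

theorem specTOPR : SpecTOPR := by
  intro V _ G B C D s t ht htC hC hD
  have hC0 : (0 : ℝ) < C.card := by exact_mod_cast hC
  set P : ℝ := (C.card : ℝ) with hP
  have hx1 : 0 ≤ 1 - t / P := by
    rw [sub_nonneg, div_le_one hC0]
    exact htC
  have hx2 : 0 ≤ 1 - t / (2 * P) := by
    rw [sub_nonneg, div_le_one (by positivity)]
    linarith
  set W : Finset V := C.filter fun v => t / 2 ≤ ((C.filter fun w => G.Adj v w).card : ℝ) with hW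
  have hWc : (W.card : ℝ) ≤ P := by
    rw [hP]
    exact_mod_cast card_filter_le _ _
  -- (a)
  have ha : ∑ v ∈ W, ((avC s C (nb G v)).card : ℝ) ≤ P * (P ^ s * (1 - t / (2 * P)) ^ s) := by
    calc ∑ v ∈ W, ((avC s C (nb G v)).card : ℝ) ≤
        ∑ v ∈ W, (P ^ s * (1 - t / (2 * P)) ^ s) := by
          refine sum_le_sum fun v hv => ?_
          rw [hW, mem_filter] at hv
          have h1 : t / 2 ≤ ((nb G v ∩ C).card : ℝ) := by
            have e : nb G v ∩ C = C.filter fun w => G.Adj v w := by
              ext w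
              simp only [nb, mem_inter, mem_filter, mem_univ, true_and]
              tauto
            rw [e]
            exact hv.2
          have h2 := card_avC s C (nb G v) (t / 2) h1 hC
          rwa [div_div] at h2
      _ = W.card * (P ^ s * (1 - t / (2 * P)) ^ s) := by rw [sum_const, nsmul_eq_mul]
      _ ≤ _ := mul_le_mul_of_nonneg_right hWc (by positivity)
  -- (b)
  have hb : ∑ v ∈ W, ∑ u ∈ (nn G v).filter (fun u => t ≤ ((sC G C v u).card : ℝ)),
      ((avC s C (sep G v u)).card : ℝ) ≤ P * ((D : ℝ) ^ 2 * (P ^ s * (1 - t / P) ^ s)) := by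
    calc ∑ v ∈ W, ∑ u ∈ (nn G v).filter (fun u => t ≤ ((sC G C v u).card : ℝ)),
        ((avC s C (sep G v u)).card : ℝ) ≤
        ∑ v ∈ W, ∑ u ∈ (nn G v).filter (fun u => t ≤ ((sC G C v u).card : ℝ)),
          (P ^ s * (1 - t / P) ^ s) := by
          refine sum_le_sum fun v _ => sum_le_sum fun u hu => ?_
          rw [mem_filter] at hu
          exact card_avC s C (sep G v u) t hu.2 hC
      _ ≤ ∑ v ∈ W, ((D : ℝ) ^ 2 * (P ^ s * (1 - t / P) ^ s)) := by
          refine sum_le_sum fun v _ => ?_
          rw [sum_const, nsmul_eq_mul]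
          apply mul_le_mul_of_nonneg_right _ (by positivity)
          rw [sq]
          exact_mod_cast (card_filter_le _ _).trans (card_nn G D hD v)
      _ = W.card * ((D : ℝ) ^ 2 * (P ^ s * (1 - t / P) ^ s)) := by rw [sum_const, nsmul_eq_mul]
      _ ≤ _ := mul_le_mul_of_nonneg_right hWc (by positivity)
  -- double counting
  have hcount : ∑ c : Fin s → {x // x ∈ C}, ((badT G C t c).card : ℝ) ≤
      ∑ v ∈ W, (((avC s C (nb G v)).card : ℝ) +
        ∑ u ∈ (nn G v).filter (fun u => t ≤ ((sC G C v u).card : ℝ)),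
          ((avC s C (sep G v u)).card : ℝ)) := by
    have e1 : ∑ c : Fin s → {x // x ∈ C}, ((badT G C t c).card : ℝ) =
        ∑ v ∈ W, ((univ.filter fun c : Fin s → {x // x ∈ C} => v ∈ badT G C t c).card : ℝ) := by
      have h : ∀ c : Fin s → {x // x ∈ C}, ((badT G C t c).card : ℝ) =
          ∑ v ∈ W, if v ∈ badT G C t c then (1 : ℝ) else 0 := by
        intro c
        rw [sum_ite_mem, sum_const, nsmul_eq_mul, mul_one]
        congr 2
        symm
        rw [inter_eq_right]
        intro v hv
        rw [badT, mem_filter] at hv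
        rw [hW, mem_filter]
        exact hv.2.1
      rw [sum_congr rfl fun c _ => h c, sum_comm]
      refine sum_congr rfl fun v _ => ?_
      rw [← sum_filter, sum_const, nsmul_eq_mul, mul_one]
    rw [e1]
    refine sum_le_sum fun v _ => ?_
    have h1 : (univ.filter fun c : Fin s → {x // x ∈ C} => v ∈ badT G C t c) ⊆
        avC s C (nb G v) ∪ ((nn G v).filter (fun u => t ≤ ((sC G C v u).card : ℝ))).biUnion
          fun u => avC s C (sep G v u) := by
      intro c hc
      rw [mem_filter, badT, mem_filter] at hc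
      rw [mem_union, mem_biUnion]
      rcases hc.2.2.2 with h | ⟨u, hu, h⟩
      · left
        rw [avC, mem_filter]
        exact ⟨mem_univ _, h⟩
      · right
        refine ⟨u, hu, ?_⟩
        rw [avC, mem_filter]
        exact ⟨mem_univ _, h⟩
    have h2 := (card_le_card h1).trans ((card_union_le _ _).trans
      (Nat.add_le_add_left card_biUnion_le _))
    exact_mod_cast h2
  -- the average
  set K : ℝ := P * (1 - t / (2 * P)) ^ s + P * (D : ℝ) ^ 2 * (1 - t / P) ^ s with hK
  obtain ⟨x₀, hx₀⟩ := card_pos.1 hC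
  have : Nonempty {x // x ∈ C} := ⟨⟨x₀, hx₀⟩⟩
  obtain ⟨c, -, hc⟩ := exists_le_of_sum_le (s := (univ : Finset (Fin s → {x // x ∈ C})))
    univ_nonempty (f := fun c => ((badT G C t c).card : ℝ)) (g := fun _ => K) (by
      refine hcount.trans ?_
      rw [sum_add_distrib, sum_const, card_univ, Fintype.card_fun, Fintype.card_fin, nsmul_eq_mul,
        Nat.cast_pow, Fintype.card_coe, ← hP]
      refine (add_le_add ha hb).trans (le_of_eq ?_)
      rw [hK]
      ring)
  refine ⟨B ∪ (univ.image (fun i => (c i : V)) ∪ badT G C t c), subset_union_left, ?_, ?_⟩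
  · intro v hvC hv hdeg
    rw [mem_union, not_or, mem_union, not_or, badT, mem_filter, not_and, not_and, not_or] at hv
    obtain ⟨-, -, hv⟩ := hv
    obtain ⟨h1, h2⟩ := hv (mem_univ _) ⟨hvC, hdeg⟩
    push Not at h1 h2
    obtain ⟨i, hi⟩ := h1
    rw [nb, mem_filter] at hi
    have hmem : ∀ j, (c j : V) ∈ B ∪ (univ.image (fun i => (c i : V)) ∪ badT G C t c) := fun j =>
      mem_union_right _ (mem_union_left _ (mem_image_of_mem (fun i => (c i : V)) (mem_univ j)))
    refine ⟨⟨c i, hmem i, hi.2⟩, ?_⟩
    intro u hu huv hut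
    by_contra hcon
    push Not at hcon
    have hcc : ∀ j, (G.Adj (c j) u ↔ G.Adj (c j) v) := fun j => hcon (c j) (hmem j)
    have h3 : u ∈ (nn G v).filter (fun u => t ≤ ((sC G C v u).card : ℝ)) := by
      rw [mem_filter, nn, mem_filter]
      exact ⟨⟨mem_univ _, huv, c i, hi.2, (hcc i).2 hi.2.symm⟩, hut⟩
    obtain ⟨j, hj⟩ := h2 u h3
    rw [sep, mem_filter] at hj
    exact hj.2.2.2 (hcc j).symm
  · have h1 : ((B ∪ (univ.image (fun i => (c i : V)) ∪ badT G C t c)).card : ℝ) ≤
        B.card + (s + (badT G C t c).card) := by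
      have h2 : (univ.image (fun i => (c i : V))).card ≤ s := by
        refine card_image_le.trans ?_
        rw [card_univ, Fintype.card_fin]
      exact_mod_cast (card_union_le _ _).trans (Nat.add_le_add_left
        ((card_union_le _ _).trans (Nat.add_le_add_right h2 _)) _)
    rw [hK] at hc
    linarith

end Pool.Agent.Lib.MP50ecf8.LOC
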