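import Pool.Agent.Lib.MP_50ecf8_co.LOC.Spec8
import Pool.Agent.Lib.MP_50ecf8_co.LOC.EXT

/-!
# SEQY: the price of a sequence of single steps
-/

set_option autoImplicit false

open Finset
open scoped Classical

namespace Pool.Agent.Lib.MP50ecf8.LOC

namespace SEQYM

open EXTM

/-- harmonic numbers -/
noncomputable def HH (a : ℕ) : ℝ := ∑ i ∈ range a, 1 / ((i : ℝ) + 1)

theorem HH_nonneg (a : ℕ) : 0 ≤ HH a := Finset.sum_nonneg fun i _ => by positivity

theorem HH_succ (a : ℕ) : HH (a + 1) = HH a + 1 / ((a : ℝ) + 1) := Finset.sum_range_succ _ _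

theorem HH_mono {a b : ℕ} (h : a ≤ b) : HH a ≤ HH b :=
  Finset.sum_le_sum_of_subset_of_nonneg (Finset.range_mono h) fun i _ _ => by positivity

theorem HH_log (n : ℕ) : HH n ≤ 1 + Real.log n := by
  have h1 := harmonic_le_one_add_log n
  have h2 : HH n = (harmonic n : ℝ) := by
    unfold HH harmonic
    push_cast
    simp [one_div]
  rw [h2]
  exact h1

/-- the vertices outside `Y` which may be mapped to `y` -/
noncomputable def AA {V : Type} [Fintype V] (G : SimpleGraph V) (Y : Finset V)
    (h : Finset (V × V)) (y : V) : Finset V :=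
  univ.filter fun x => x ∉ Y ∧ y ∈ Cand G h x

theorem mem_AA {V : Type} [Fintype V] {G : SimpleGraph V} {Y : Finset V}
    {h : Finset (V × V)} {y x : V} : x ∈ AA G Y h y ↔ x ∉ Y ∧ y ∈ Cand G h x := by
  simp [AA]

/-- the potential -/
noncomputable def pot {V : Type} [Fintype V] (G : SimpleGraph V) (Y : Finset V)
    (h : Finset (V × V)) (T : Finset V) (n : ℕ) : ℝ :=
  ∑ y ∈ T, HH (min (AA G Y h y).card n)

theorem pot_nonneg {V : Type} [Fintype V] (G : SimpleGraph V) (Y : Finset V)
    (h : Finset (V × V)) (T : Finset V) (n : ℕ) : 0 ≤ pot G Y h T n :=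
  Finset.sum_nonneg fun _ _ => HH_nonneg _

theorem pot_step {V : Type} [Fintype V] (G : SimpleGraph V) (Y : Finset V) (z : V)
    (h h' : Finset (V × V)) (T : Finset V) (n : ℕ) (hz : z ∉ Y) (hsub : h ⊆ h')
    (hY : h.image Prod.fst = Y) (hn : (tc G Y z).card ≤ n) :
    (((Cand G h z).filter fun y => y ∈ T).card : ℝ) / (tc G Y z).card +
      pot G (insert z Y) h' T n ≤ pot G Y h T n := by
  have h1 : (((Cand G h z).filter fun y => y ∈ T).card : ℝ) / (tc G Y z).card =
      ∑ y ∈ T, if y ∈ Cand G h z then (1 : ℝ) / (tc G Y z).card else 0 := by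
    rw [← Finset.sum_filter, Finset.sum_const, nsmul_eq_mul]
    have h2 : (Cand G h z).filter (fun y => y ∈ T) = T.filter fun y => y ∈ Cand G h z := by
      ext y
      simp only [Finset.mem_filter]
      tauto
    rw [h2]
    ring
  rw [h1]
  unfold pot
  rw [← Finset.sum_add_distrib]
  refine Finset.sum_le_sum fun y _ => ?_
  have hAA : AA G (insert z Y) h' y ⊆ AA G Y h y := by
    intro x hx
    rw [mem_AA] at hx ⊢
    refine ⟨fun hxY => hx.1 (Finset.mem_insert_of_mem hxY), ?_⟩
    rw [mem_Cand]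
    intro w hw
    exact mem_Cand.1 hx.2 w (hsub hw)
  by_cases hc : y ∈ Cand G h z
  · rw [if_pos hc]
    have hsub2 : AA G Y h y ⊆ tc G Y z := by
      intro x hx
      rw [mem_AA] at hx
      rw [mem_tc]
      exact ⟨hx.1, same_trace hY hx.2 hc⟩
    have hzA : z ∈ AA G Y h y := mem_AA.2 ⟨hz, hc⟩
    have hzA' : z ∉ AA G (insert z Y) h' y := fun hh =>
      (mem_AA.1 hh).1 (Finset.mem_insert_self z Y)
    have hlt : (AA G (insert z Y) h' y).card < (AA G Y h y).card :=
      Finset.card_lt_card ⟨hAA, fun hh => hzA' (hh hzA)⟩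
    have hm : (AA G Y h y).card ≤ (tc G Y z).card := Finset.card_le_card hsub2
    have hmn : (AA G Y h y).card ≤ n := hm.trans hn
    rw [min_eq_left hmn, min_eq_left (hlt.le.trans hmn)]
    obtain ⟨m', hm'⟩ : ∃ m', (AA G Y h y).card = m' + 1 := ⟨(AA G Y h y).card - 1, by omega⟩
    have h3 : HH (AA G (insert z Y) h' y).card ≤ HH m' := HH_mono (by omega)
    rw [hm', HH_succ]
    have h4 : 1 / ((tc G Y z).card : ℝ) ≤ 1 / ((m' : ℝ) + 1) := by
      refine one_div_le_one_div_of_le (by positivity) ?_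
      rw [hm'] at hm
      exact_mod_cast hm
    linarith
  · rw [if_neg hc, zero_add]
    exact HH_mono (min_le_min_right _ (Finset.card_le_card hAA))

/-- the number of the points outside the image -/
theorem card_out {V : Type} [Fintype V] (G : SimpleGraph V) (J : Finset (V × V)) (k : ℕ)
    (hJ : Good G J) (hk : J.card + k = Fintype.card V) :
    (univ \ J.image Prod.snd).card = k := by
  have h1 : (J.image Prod.snd).card = J.card := by
    refine Finset.card_image_of_injOn ?_
    rintro ⟨x, y⟩ hu ⟨x', y'⟩ hw heq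
    have heq' : y = y' := heq
    subst heq'
    rw [uniq' hJ hu hw]
  rw [Finset.card_sdiff_of_subset (Finset.subset_univ _), Finset.card_univ, h1]
  omega

theorem restr {V : Type} [Fintype V] (G : SimpleGraph V) (a r : V) (Y Z : Finset V) (k : ℕ)
    (hYZ : Y ⊆ Z) (ha : a ∈ Y) (h : Finset (V × V)) (hh : h ∈ embk G a r Z k) :
    (h.filter fun u => u.1 ∈ Y) ∈ embk G a r Y k := by
  rw [mem_embk] at hh ⊢
  obtain ⟨⟨hgood, har, hZ⟩, J, hJ, hhJ, hJk⟩ := hh
  have hsub : (h.filter fun u => u.1 ∈ Y) ⊆ h := Finset.filter_subset _ _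
  refine ⟨⟨fun u hu w hw => hgood u (hsub hu) w (hsub hw),
    Finset.mem_filter.2 ⟨har, ha⟩, ?_⟩, J, hJ, hsub.trans hhJ, hJk⟩
  ext x
  constructor
  · intro hx
    obtain ⟨⟨x', y⟩, h1, rfl⟩ := Finset.mem_image.1 hx
    exact (Finset.mem_filter.1 h1).2
  · intro hx
    obtain ⟨y, hy⟩ := exIm hZ (hYZ hx)
    exact Finset.mem_image.2 ⟨(x, y), Finset.mem_filter.2 ⟨hy, hx⟩, rfl⟩

/-- the fibre over `g` -/
noncomputable def fib {V : Type} [Fintype V] (G : SimpleGraph V) (a r : V) (Y₀ Y : Finset V)
    (k : ℕ) (g : Finset (V × V)) : Finset (Finset (V × V)) :=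
  (embk G a r Y k).filter fun h => (h.filter fun u => u.1 ∈ Y₀) = g

theorem main {V : Type} [Fintype V] (G : SimpleGraph V) (a r : V) (Y₀ : Finset V) (n k : ℕ)
    (ha : a ∈ Y₀) (hn : 1 ≤ n) (g : Finset (V × V)) {Y : Finset V} {j : ℕ}
    (hS : SQ G n Y₀ Y j) :
    Y₀ ⊆ Y ∧ ∃ wt : Finset (V × V) → ℝ, (∀ h, 0 ≤ wt h) ∧
      ∑ h ∈ fib G a r Y₀ Y k g, wt h ≤ 1 ∧
      ∀ h ∈ fib G a r Y₀ Y k g, ∀ J, Good G J → h ⊆ J → J.card + k = Fintype.card V →
        ∃ x : Fin j → ℝ, (∀ i, 0 ≤ x i) ∧ ∏ i, ((n : ℝ) * (1 + x i))⁻¹ ≤ wt h ∧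
          ∑ i, x i + pot G Y h (univ \ J.image Prod.snd) n ≤ k * HH n := by
  have hn0 : (0 : ℝ) < n := by exact_mod_cast hn
  induction hS with
  | base =>
    refine ⟨Finset.Subset.refl _, fun _ => 1, fun _ => zero_le_one, ?_, ?_⟩
    · have hone : (fib G a r Y₀ Y₀ k g).card ≤ 1 := by
        rw [Finset.card_le_one]
        have key : ∀ h ∈ fib G a r Y₀ Y₀ k g, h = g := by
          intro h hh
          unfold fib at hh
          rw [Finset.mem_filter, mem_embk] at hh
          obtain ⟨⟨⟨-, -, hY⟩, -⟩, hfg⟩ := hh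
          rw [← hfg]
          symm
          rw [Finset.filter_eq_self]
          intro u hu
          rw [← hY]
          exact Finset.mem_image_of_mem _ hu
        intro h hh h' hh'
        rw [key h hh, key h' hh']
      rw [Finset.sum_const, nsmul_eq_mul, mul_one]
      exact_mod_cast hone
    · intro h _ J hJ _ hk
      refine ⟨fun _ => 0, fun _ => le_refl _, ?_, ?_⟩
      · simp
      · rw [Finset.sum_const_zero, zero_add]
        unfold pot
        calc ∑ y ∈ univ \ J.image Prod.snd, HH (min (AA G Y₀ h y).card n)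
            ≤ ∑ _y ∈ univ \ J.image Prod.snd, HH n :=
              Finset.sum_le_sum fun y _ => HH_mono (min_le_right _ _)
          _ = k * HH n := by
              rw [Finset.sum_const, nsmul_eq_mul, card_out G J k hJ hk]
  | @step Y z j hS' hz htc ih =>
    obtain ⟨hY₀, wt, hwt0, hsum, hlow⟩ := ih
    have hYY : Y ⊆ insert z Y := Finset.subset_insert z Y
    have haY : a ∈ Y := hY₀ ha
    set φ : Finset (V × V) → Finset (V × V) := fun h => h.filter fun u => u.1 ∈ Y with hφ
    have hmap : ∀ h ∈ fib G a r Y₀ (insert z Y) k g, φ h ∈ fib G a r Y₀ Y k g := by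
      intro h hh
      unfold fib at hh ⊢
      rw [Finset.mem_filter] at hh ⊢
      refine ⟨restr G a r Y (insert z Y) k hYY haY h hh.1, ?_⟩
      rw [← hh.2, hφ]
      ext u
      simp only [Finset.mem_filter]
      constructor
      · rintro ⟨⟨h1, -⟩, h3⟩
        exact ⟨h1, h3⟩
      · rintro ⟨h1, h3⟩
        exact ⟨⟨h1, hY₀ h3⟩, h3⟩
    refine ⟨hY₀.trans hYY, fun h' => wt (φ h') / (Cand G (φ h') z).card,
      fun h' => div_nonneg (hwt0 _) (Nat.cast_nonneg _), ?_, ?_⟩
    · rw [← Finset.sum_fiberwise_of_maps_to hmap]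
      refine le_trans (Finset.sum_le_sum fun h hh => ?_) hsum
      have h1 : ∑ h' ∈ (fib G a r Y₀ (insert z Y) k g).filter (fun h' => φ h' = h),
          wt (φ h') / ((Cand G (φ h') z).card : ℝ) =
          ∑ _h' ∈ (fib G a r Y₀ (insert z Y) k g).filter (fun h' => φ h' = h),
          wt h / ((Cand G h z).card : ℝ) := by
        refine Finset.sum_congr rfl fun h' hh' => ?_
        rw [(Finset.mem_filter.1 hh').2]
      rw [h1, Finset.sum_const, nsmul_eq_mul]
      have h2 : ((fib G a r Y₀ (insert z Y) k g).filter (fun h' => φ h' = h)).card ≤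
          (Cand G h z).card := by
        have h3 := fibre_card G a r Y (insert z Y) k h
        have h4 : insert z Y \ Y = {z} := by
          ext x
          simp only [Finset.mem_sdiff, Finset.mem_insert, Finset.mem_singleton]
          constructor
          · rintro ⟨h5 | h5, h6⟩
            · exact h5
            · exact absurd h5 h6
          · rintro rfl
            exact ⟨Or.inl rfl, hz⟩
        rw [h4, Finset.prod_singleton] at h3
        refine le_trans (Finset.card_le_card ?_) h3
        intro h' hh'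
        rw [Finset.mem_filter] at hh' ⊢
        unfold fib at hh'
        exact ⟨(Finset.mem_filter.1 hh'.1).1, hh'.2⟩
      have h5 : (((fib G a r Y₀ (insert z Y) k g).filter (fun h' => φ h' = h)).card : ℝ) /
          (Cand G h z).card ≤ 1 :=
        div_le_one_of_le₀ (by exact_mod_cast h2) (Nat.cast_nonneg _)
      calc (((fib G a r Y₀ (insert z Y) k g).filter (fun h' => φ h' = h)).card : ℝ) *
            (wt h / (Cand G h z).card) =
            wt h * ((((fib G a r Y₀ (insert z Y) k g).filter (fun h' => φ h' = h)).card : ℝ) /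
          (Cand G h z).card) := by ring
        _ ≤ wt h * 1 := mul_le_mul_of_nonneg_left h5 (hwt0 h)
        _ = wt h := mul_one _
    · intro h' hh' J hJ hhJ hJk
      have hφm := hmap h' hh'
      have hsub : φ h' ⊆ h' := Finset.filter_subset _ _
      obtain ⟨x, hx0, hxw, hxs⟩ := hlow (φ h') hφm J hJ (hsub.trans hhJ) hJk
      have hφm' : φ h' ∈ embk G a r Y k := by
        unfold fib at hφm
        exact (Finset.mem_filter.1 hφm).1
      have hφY : (φ h').image Prod.fst = Y := (mem_embk.1 hφm').1.2.2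
      have hh'' : h' ∈ embk G a r (insert z Y) k := by
        unfold fib at hh'
        exact (Finset.mem_filter.1 hh').1
      obtain ⟨⟨hgood', -, hZ'⟩, -⟩ := mem_embk.1 hh''
      set T : Finset V := univ \ J.image Prod.snd with hT
      set e : ℝ := (((Cand G (φ h') z).filter fun y => y ∈ T).card : ℝ) / (tc G Y z).card
        with he
      have he0 : 0 ≤ e := div_nonneg (Nat.cast_nonneg _) (Nat.cast_nonneg _)
      have hctc : 0 < (tc G Y z).card := by
        refine Finset.card_pos.2 ⟨z, ?_⟩
        rw [mem_tc]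
        exact ⟨hz, fun w _ => Iff.rfl⟩
      have hctc' : (0 : ℝ) < (tc G Y z).card := by exact_mod_cast hctc
      have hC : ((Cand G (φ h') z).card : ℝ) ≤ n * (1 + e) := by
        have h2 : (Cand G (φ h') z).card ≤ (Cand G (φ h') z ∩ J.image Prod.snd).card +
            ((Cand G (φ h') z).filter fun y => y ∈ T).card := by
          have h3 : Cand G (φ h') z ⊆ (Cand G (φ h') z ∩ J.image Prod.snd) ∪
              ((Cand G (φ h') z).filter fun y => y ∈ T) := by
            intro y hy
            by_cases hyJ : y ∈ J.image Prod.snd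
            · exact Finset.mem_union_left _ (Finset.mem_inter.2 ⟨hy, hyJ⟩)
            · exact Finset.mem_union_right _ (Finset.mem_filter.2 ⟨hy,
                Finset.mem_sdiff.2 ⟨Finset.mem_univ _, hyJ⟩⟩)
          exact (Finset.card_le_card h3).trans (Finset.card_union_le _ _)
        have h4 := cand_inter G Y (φ h') J hJ (hsub.trans hhJ) hφY z hz
        have h5 : ((Cand G (φ h') z).card : ℝ) ≤ (tc G Y z).card +
            ((Cand G (φ h') z).filter fun y => y ∈ T).card := by
          exact_mod_cast h2.trans (Nat.add_le_add_right h4 _)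
        have h6 : ((tc G Y z).card : ℝ) + ((Cand G (φ h') z).filter fun y => y ∈ T).card =
            (tc G Y z).card * (1 + e) := by
          rw [he]
          field_simp
        have h7 : ((tc G Y z).card : ℝ) ≤ n := by exact_mod_cast htc
        rw [h6] at h5
        exact h5.trans (mul_le_mul_of_nonneg_right h7 (by linarith))
      have hCpos : 0 < (Cand G (φ h') z).card := by
        obtain ⟨y, hy⟩ := exIm hZ' (Finset.mem_insert_self z Y)
        refine Finset.card_pos.2 ⟨y, ?_⟩
        rw [mem_Cand]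
        intro w hw
        exact hgood' _ hy _ (hsub hw)
      have hCpos' : (0 : ℝ) < (Cand G (φ h') z).card := by exact_mod_cast hCpos
      refine ⟨Fin.cons e x, ?_, ?_, ?_⟩
      · intro i
        refine Fin.cases ?_ ?_ i
        · simpa using he0
        · intro i'
          simpa using hx0 i'
      · rw [Fin.prod_univ_succ]
        simp only [Fin.cons_zero, Fin.cons_succ]
        show _ ≤ wt (φ h') / ((Cand G (φ h') z).card : ℝ)
        rw [div_eq_mul_inv, mul_comm (wt (φ h'))]
        refine mul_le_mul ?_ hxw ?_ (inv_nonneg.mpr hCpos'.le)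
        · exact inv_anti₀ hCpos' hC
        · refine Finset.prod_nonneg fun i _ => inv_nonneg.mpr ?_
          have := hx0 i
          positivity
      · rw [Fin.sum_univ_succ]
        simp only [Fin.cons_zero, Fin.cons_succ]
        have hp := pot_step G Y z (φ h') h' T n hz hsub hφY htc
        rw [← he] at hp
        linarith

end SEQYM

open EXTM SEQYM

theorem specSEQY : SpecSEQY := by
  intro V _ G a r Y₀ Z n j k R hS ha hn hjR hR hk
  have hn0 : (1 : ℝ) ≤ n := by exact_mod_cast hn
  have hY₀ : Y₀ ⊆ Z := (main G a r Y₀ n k ha hn ∅ hS).1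
  have hcard : (embk G a r Z k).card = ∑ g ∈ embk G a r Y₀ k, (fib G a r Y₀ Z k g).card :=
    Finset.card_eq_sum_card_fiberwise fun h hh => restr G a r Y₀ Z k hY₀ ha h hh
  have hlog : 0 ≤ Real.log n := Real.log_nonneg hn0
  have hK0 : (0 : ℝ) ≤ Fintype.card V * (1 + Real.log n) := by positivity
  have hQ : 0 < ((n : ℝ) * (1 + Fintype.card V * (1 + Real.log n) / R)) ^ R := by positivity
  rw [hcard, Nat.cast_sum]
  have hB : ∀ g ∈ embk G a r Y₀ k, ((fib G a r Y₀ Z k g).card : ℝ) ≤
      ((n : ℝ) * (1 + Fintype.card V * (1 + Real.log n) / R)) ^ R := by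
    intro g _
    obtain ⟨-, wt, -, hsum, hlow⟩ := main G a r Y₀ n k ha hn g hS
    have h1 : ∀ h ∈ fib G a r Y₀ Z k g,
        (((n : ℝ) * (1 + Fintype.card V * (1 + Real.log n) / R)) ^ R)⁻¹ ≤ wt h := by
      intro h hh
      have hh' : h ∈ embk G a r Z k := by
        unfold fib at hh
        exact (Finset.mem_filter.1 hh).1
      obtain ⟨-, J, hJ, hhJ, hJk⟩ := mem_embk.1 hh'
      obtain ⟨x, hx0, hxw, hxs⟩ := hlow h hh J hJ hhJ hJk
      refine le_trans ?_ hxw
      rw [Finset.prod_inv_distrib]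
      have hxsum : ∑ i, x i ≤ Fintype.card V * (1 + Real.log n) := by
        have h2 := pot_nonneg G Z h (univ \ J.image Prod.snd) n
        have h3 : (k : ℝ) * HH n ≤ Fintype.card V * (1 + Real.log n) :=
          mul_le_mul (by exact_mod_cast hk) (HH_log n) (HH_nonneg n) (Nat.cast_nonneg _)
        linarith
      have hprod := prod_bound (univ : Finset (Fin j)) x (fun i _ => hx0 i) _ R hK0 hR
        (by simpa using hjR) hxsum
      have hpos : 0 < ∏ i, ((n : ℝ) * (1 + x i)) := by
        refine Finset.prod_pos fun i _ => ?_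
        have := hx0 i
        positivity
      refine inv_anti₀ hpos ?_
      calc ∏ i, ((n : ℝ) * (1 + x i)) = (n : ℝ) ^ (j : ℝ) * ∏ i, (1 + x i) := by
            rw [Finset.prod_mul_distrib, Finset.prod_const, Finset.card_univ, Fintype.card_fin,
              Real.rpow_natCast]
        _ ≤ (n : ℝ) ^ R * (1 + Fintype.card V * (1 + Real.log n) / R) ^ R := by
            refine mul_le_mul (Real.rpow_le_rpow_of_exponent_le hn0 hjR) hprod ?_ ?_
            · exact Finset.prod_nonneg fun i _ => by linarith [hx0 i]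
            · exact Real.rpow_nonneg (by linarith) _
        _ = ((n : ℝ) * (1 + Fintype.card V * (1 + Real.log n) / R)) ^ R := by
            rw [Real.mul_rpow (by linarith) (by positivity)]
    have h4 : ((fib G a r Y₀ Z k g).card : ℝ) *
        (((n : ℝ) * (1 + Fintype.card V * (1 + Real.log n) / R)) ^ R)⁻¹ ≤ 1 := by
      calc ((fib G a r Y₀ Z k g).card : ℝ) *
            (((n : ℝ) * (1 + Fintype.card V * (1 + Real.log n) / R)) ^ R)⁻¹ =
            ∑ _h ∈ fib G a r Y₀ Z k g,
              (((n : ℝ) * (1 + Fintype.card V * (1 + Real.log n) / R)) ^ R)⁻¹ := by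
            rw [Finset.sum_const, nsmul_eq_mul]
        _ ≤ ∑ h ∈ fib G a r Y₀ Z k g, wt h := Finset.sum_le_sum h1
        _ ≤ 1 := hsum
    rw [← div_eq_mul_inv, div_le_one hQ] at h4
    exact h4
  calc ∑ g ∈ embk G a r Y₀ k, ((fib G a r Y₀ Z k g).card : ℝ)
      ≤ ∑ _g ∈ embk G a r Y₀ k,
        ((n : ℝ) * (1 + Fintype.card V * (1 + Real.log n) / R)) ^ R := Finset.sum_le_sum hB
    _ = (embk G a r Y₀ k).card *
        ((n : ℝ) * (1 + Fintype.card V * (1 + Real.log n) / R)) ^ R := by
        rw [Finset.sum_const, nsmul_eq_mul]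

end Pool.Agent.Lib.MP50ecf8.LOC
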