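import Pool.Agent.Lib.MP_50ecf8_co.LOC.Spec9
import Pool.Agent.Lib.MP_50ecf8_co.LOC.SEQY

/-!
# SEQZ: the price of a sequence of single steps, images up to twins
-/

set_option autoImplicit false

open Finset
open scoped Classical

namespace Pool.Agent.Lib.MP50ecf8.LOC

namespace SEQZM

open EXTM SEQYM

/-- `x` may be mapped into the class of `t` -/
def cmpT {V : Type} (G : SimpleGraph V) (h : Finset (V × V)) (x t : V) : Prop :=
  ∃ y, Tw G y t ∧ ∀ w ∈ h, Cmp G (x, y) w

/-- the classes into which `x` may be mapped -/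
noncomputable def KK {V : Type} (G : SimpleGraph V) (T : Finset V) (h : Finset (V × V)) (x : V) :
    Finset V := T.filter fun t => cmpT G h x t

/-- the chosen element of the class -/
noncomputable def yy {V : Type} (G : SimpleGraph V) (h : Finset (V × V)) (x t : V) : V :=
  if hy : cmpT G h x t then Classical.choose hy else t

theorem yy_spec {V : Type} {G : SimpleGraph V} {h : Finset (V × V)} {x t : V}
    (hy : cmpT G h x t) : Tw G (yy G h x t) t ∧ ∀ w ∈ h, Cmp G (x, yy G h x t) w := by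
  unfold yy
  rw [dif_pos hy]
  exact Classical.choose_spec hy

/-- the vertices of `A` outside `Y` which may be mapped into the class of `t` -/
noncomputable def AZ {V : Type} (G : SimpleGraph V) (A Y : Finset V) (h : Finset (V × V)) (t : V) :
    Finset V := A.filter fun x => x ∉ Y ∧ cmpT G h x t

theorem mem_AZ {V : Type} {G : SimpleGraph V} {A Y : Finset V} {h : Finset (V × V)} {t x : V} :
    x ∈ AZ G A Y h t ↔ x ∈ A ∧ x ∉ Y ∧ cmpT G h x t := by
  simp [AZ]

/-- the potential -/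
noncomputable def potZ {V : Type} (G : SimpleGraph V) (A Y : Finset V) (h : Finset (V × V))
    (T : Finset V) (n : ℕ) : ℝ := ∑ t ∈ T, HH (min (AZ G A Y h t).card n)

theorem potZ_nonneg {V : Type} (G : SimpleGraph V) (A Y : Finset V) (h : Finset (V × V))
    (T : Finset V) (n : ℕ) : 0 ≤ potZ G A Y h T n :=
  Finset.sum_nonneg fun _ _ => HH_nonneg _

theorem pot_stepZ {V : Type} [Fintype V] (G : SimpleGraph V) (A Y : Finset V) (z : V)
    (h h' : Finset (V × V)) (T : Finset V) (n : ℕ) (hz : z ∉ Y) (hzA : z ∈ A) (hsub : h ⊆ h')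
    (hY : h.image Prod.fst = Y) (hn : (tc G Y z ∩ A).card ≤ n) :
    ((KK G T h z).card : ℝ) / (tc G Y z ∩ A).card + potZ G A (insert z Y) h' T n ≤
      potZ G A Y h T n := by
  have h1 : ((KK G T h z).card : ℝ) / (tc G Y z ∩ A).card =
      ∑ t ∈ T, if cmpT G h z t then (1 : ℝ) / (tc G Y z ∩ A).card else 0 := by
    rw [← Finset.sum_filter, Finset.sum_const, nsmul_eq_mul]
    unfold KK
    ring
  rw [h1]
  unfold potZ
  rw [← Finset.sum_add_distrib]
  refine Finset.sum_le_sum fun t _ => ?_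
  have hAA : AZ G A (insert z Y) h' t ⊆ AZ G A Y h t := by
    intro x hx
    rw [mem_AZ] at hx ⊢
    obtain ⟨hxA, hxY, y, hy, hc⟩ := hx
    exact ⟨hxA, fun hxY' => hxY (Finset.mem_insert_of_mem hxY'), y, hy,
      fun w hw => hc w (hsub hw)⟩
  by_cases hc : cmpT G h z t
  · rw [if_pos hc]
    have hsub2 : AZ G A Y h t ⊆ tc G Y z ∩ A := by
      intro x hx
      rw [mem_AZ] at hx
      obtain ⟨hxA, hxY, y, hy, hxc⟩ := hx
      obtain ⟨y', hy', hzc⟩ := hc
      rw [Finset.mem_inter, mem_tc]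
      refine ⟨⟨hxY, fun w hw => ?_⟩, hxA⟩
      obtain ⟨w', hw'⟩ := exIm hY hw
      have e1 := hxc _ hw'
      have e2 := hzc _ hw'
      have hxw : x ≠ w := fun e => hxY (e ▸ hw)
      have hzw : z ≠ w := fun e => hz (e ▸ hw)
      have hyw : w' ≠ y := fun e => hxw (e1.1.2 e.symm)
      have hyw' : w' ≠ y' := fun e => hzw (e2.1.2 e.symm)
      have h2 := (Tw.trans hy hy'.symm) w' hyw hyw'
      have e3 : G.Adj x w ↔ G.Adj y w' := e1.2
      have e4 : G.Adj z w ↔ G.Adj y' w' := e2.2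
      rw [G.adj_comm w x, G.adj_comm w z, e3, e4, G.adj_comm y w', G.adj_comm y' w', h2]
    have hzA' : z ∈ AZ G A Y h t := mem_AZ.2 ⟨hzA, hz, hc⟩
    have hzA'' : z ∉ AZ G A (insert z Y) h' t := fun hh =>
      (mem_AZ.1 hh).2.1 (Finset.mem_insert_self z Y)
    have hlt : (AZ G A (insert z Y) h' t).card < (AZ G A Y h t).card :=
      Finset.card_lt_card ⟨hAA, fun hh => hzA'' (hh hzA')⟩
    have hm : (AZ G A Y h t).card ≤ (tc G Y z ∩ A).card := Finset.card_le_card hsub2
    have hmn : (AZ G A Y h t).card ≤ n := hm.trans hn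
    rw [min_eq_left hmn, min_eq_left (hlt.le.trans hmn)]
    obtain ⟨m', hm'⟩ : ∃ m', (AZ G A Y h t).card = m' + 1 := ⟨(AZ G A Y h t).card - 1, by omega⟩
    have h3 : HH (AZ G A (insert z Y) h' t).card ≤ HH m' := HH_mono (by omega)
    rw [hm', HH_succ]
    have h4 : 1 / ((tc G Y z ∩ A).card : ℝ) ≤ 1 / ((m' : ℝ) + 1) := by
      refine one_div_le_one_div_of_le (by positivity) ?_
      rw [hm'] at hm
      exact_mod_cast hm
    linarith
  · rw [if_neg hc, zero_add]
    exact HH_mono (min_le_min_right _ (Finset.card_le_card hAA))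

/-- the image under an automorphism -/
noncomputable def mp {V : Type} {G : SimpleGraph V} (φ : G ≃g G) (J : Finset (V × V)) :
    Finset (V × V) := J.image fun u => (u.1, φ u.2)

theorem cmp_mp {V : Type} {G : SimpleGraph V} (φ : G ≃g G) (u w : V × V) :
    Cmp G (u.1, φ u.2) (w.1, φ w.2) ↔ Cmp G u w := by
  unfold Cmp
  refine and_congr (iff_congr Iff.rfl φ.injective.eq_iff) (iff_congr Iff.rfl φ.map_adj_iff)

theorem mem_mp {V : Type} {G : SimpleGraph V} (φ : G ≃g G) (J : Finset (V × V)) (u : V × V) :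
    (u.1, φ u.2) ∈ mp φ J ↔ u ∈ J := by
  unfold mp
  rw [Finset.mem_image]
  constructor
  · rintro ⟨w, hw, he⟩
    have h1 : w.1 = u.1 := (Prod.ext_iff.1 he).1
    have h2 : φ w.2 = φ u.2 := (Prod.ext_iff.1 he).2
    have h3 : w = u := Prod.ext h1 (φ.injective h2)
    exact h3 ▸ hw
  · intro hu
    exact ⟨u, hu, rfl⟩

theorem exm {V : Type} {G : SimpleGraph V} (φ : G ≃g G) (u : V × V) :
    ∃ v : V × V, u = (v.1, φ v.2) :=
  ⟨(u.1, φ.symm u.2), Prod.ext rfl (φ.apply_symm_apply u.2).symm⟩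

theorem good_mp {V : Type} {G : SimpleGraph V} (φ : G ≃g G) {J : Finset (V × V)}
    (hJ : Good G J) : Good G (mp φ J) := by
  intro u hu w hw
  obtain ⟨u, rfl⟩ := exm φ u
  obtain ⟨w, rfl⟩ := exm φ w
  rw [mem_mp] at hu hw
  rw [cmp_mp]
  exact hJ u hu w hw

theorem closed_mp {V : Type} {G : SimpleGraph V} (φ : G ≃g G) {J : Finset (V × V)}
    (hJ : Closed G J) : Closed G (mp φ J) := by
  intro u hu hcu
  obtain ⟨u, rfl⟩ := exm φ u
  rw [mem_mp] at hu
  obtain ⟨w, hw, hcw⟩ := hJ u hu (fun z hz => by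
    have h1 := hcu (z.1, φ z.2) ((mem_mp φ J z).2 hz)
    rwa [cmp_mp] at h1)
  refine ⟨(w.1, φ w.2), ?_, ?_⟩
  · intro z hz
    obtain ⟨z, rfl⟩ := exm φ z
    rw [mem_mp] at hz
    rw [cmp_mp]
    exact hw z hz
  · rw [cmp_mp]
    exact hcw

theorem dom_mp {V : Type} {G : SimpleGraph V} (φ : G ≃g G) (J : Finset (V × V)) :
    (mp φ J).image Prod.fst = J.image Prod.fst := by
  unfold mp
  rw [Finset.image_image]
  rfl

theorem card_mp {V : Type} {G : SimpleGraph V} (φ : G ≃g G) (J : Finset (V × V)) :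
    (mp φ J).card = J.card := by
  unfold mp
  refine Finset.card_image_of_injective _ ?_
  intro u w he
  have h1 : u.1 = w.1 := (Prod.ext_iff.1 he).1
  have h2 : φ u.2 = φ w.2 := (Prod.ext_iff.1 he).2
  exact Prod.ext h1 (φ.injective h2)

theorem tw_sw {V : Type} {G : SimpleGraph V} {u v : V} (h : Tw G u v) (x : V) :
    Tw G x (Equiv.swap u v x) := by
  rcases eq_or_ne x u with rfl | hxu
  · rw [Equiv.swap_apply_left]; exact h
  rcases eq_or_ne x v with rfl | hxv
  · rw [Equiv.swap_apply_right]; exact h.symm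
  rw [Equiv.swap_apply_of_ne_of_ne hxu hxv]
  exact Tw.refl G x

/-- the swap of two twins -/
noncomputable def twS {V : Type} {G : SimpleGraph V} {u v : V} (h : Tw G u v) : G ≃g G where
  toEquiv := Equiv.swap u v
  map_rel_iff' := by
    intro x y
    rcases eq_or_ne x y with rfl | hxy
    · simp
    · exact (Tw.adj (tw_sw h x) (tw_sw h y) hxy
        (fun h' => hxy ((Equiv.swap u v).injective h'))).symm

theorem twS_apply {V : Type} {G : SimpleGraph V} {u v : V} (h : Tw G u v) (x : V) :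
    twS h x = Equiv.swap u v x := rfl

theorem mem_AdT {V : Type} [Fintype V] {G : SimpleGraph V} {T X : Finset V} {k : ℕ}
    {Z : Finset V} {g J : Finset (V × V)} : J ∈ AdT G T X k Z g ↔
      (Good G J ∧ Closed G J ∧ J.filter (fun u => u.1 ∈ Z) = g ∧
        X ⊆ J.image Prod.fst ∧ univ \ T ⊆ J.image Prod.fst ∧ J.card + k = Fintype.card V) := by
  simp [AdT]

/-- one step of the cover -/
theorem cover {V : Type} [Fintype V] (G : SimpleGraph V) (T X Y : Finset V) (z : V) (k : ℕ)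
    (hT : Trv G T) (hz : z ∉ Y) (hzX : z ∈ X) (h : Finset (V × V)) (hY : h.image Prod.fst = Y) :
    FT G T X k Y h ⊆
      (KK G T h z).biUnion fun t => FT G T X k (insert z Y) (insert (z, yy G h z t) h) := by
  intro S hS
  rw [FT, Finset.mem_image] at hS
  obtain ⟨J, hJ, rfl⟩ := hS
  obtain ⟨hJg, hJc, hJY, hJX, hJT, hJk⟩ := mem_AdT.1 hJ
  have e1 : ∀ w ∈ h, w ∈ J ∧ w.1 ∈ Y := by
    intro w hw
    rw [← hJY, Finset.mem_filter] at hw
    exact hw
  have e2 : ∀ u ∈ J, u.1 ∈ Y → u ∈ h := by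
    intro u hu huY
    rw [← hJY, Finset.mem_filter]
    exact ⟨hu, huY⟩
  obtain ⟨y, hy⟩ := exIm (I := J) rfl (hJX hzX)
  obtain ⟨t, htT, hty⟩ := hT.1 y
  have hct : cmpT G h z t := ⟨y, hty, fun w hw => hJg _ hy w (e1 w hw).1⟩
  obtain ⟨hyt, hyc⟩ := yy_spec hct
  have htw : Tw G y (yy G h z t) := Tw.trans hty hyt.symm
  rw [Finset.mem_biUnion]
  refine ⟨t, Finset.mem_filter.2 ⟨htT, hct⟩, ?_⟩
  rw [FT, Finset.mem_image]
  refine ⟨mp (twS htw) J, ?_, dom_mp _ _⟩
  rw [mem_AdT, dom_mp, card_mp]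
  refine ⟨good_mp _ hJg, closed_mp _ hJc, ?_, hJX, hJT, hJk⟩
  have hfix : ∀ u ∈ h, twS htw u.2 = u.2 := by
    intro u hu
    have hzu : z ≠ u.1 := fun e => hz (e ▸ (e1 u hu).2)
    have hyu : u.2 ≠ y := fun e => hzu ((hJg _ hy u (e1 u hu).1).1.2 e.symm)
    have hyu' : u.2 ≠ yy G h z t := fun e => hzu ((hyc u hu).1.2 e.symm)
    rw [twS_apply, Equiv.swap_apply_of_ne_of_ne hyu hyu']
  have hzy : twS htw y = yy G h z t := by rw [twS_apply, Equiv.swap_apply_left]
  ext u
  rw [Finset.mem_filter, Finset.mem_insert, Finset.mem_insert]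
  constructor
  · rintro ⟨hu, hu1⟩
    unfold mp at hu
    rw [Finset.mem_image] at hu
    obtain ⟨v, hv, rfl⟩ := hu
    rcases hu1 with hu1 | hu1
    · left
      have hu1' : v.1 = z := hu1
      have h3 : v.2 = y := (hJg v hv _ hy).1.1 hu1'
      show (v.1, twS htw v.2) = _
      rw [hu1', h3, hzy]
    · right
      have h3 : v ∈ h := e2 v hv hu1
      show (v.1, twS htw v.2) ∈ h
      rw [hfix v h3]
      exact h3
  · rintro (hu | hu)
    · subst hu
      refine ⟨?_, Or.inl rfl⟩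
      have h3 : ((z, twS htw y) : V × V) ∈ mp (twS htw) J := (mem_mp (twS htw) J (z, y)).2 hy
      have h4 : ((z, twS htw y) : V × V) = (z, yy G h z t) := Prod.ext rfl hzy
      rw [h4] at h3
      exact h3
    · refine ⟨?_, Or.inr (e1 u hu).2⟩
      have h3 := (mem_mp (twS htw) J u).2 (e1 u hu).1
      rw [hfix u hu] at h3
      exact h3

theorem main {V : Type} [Fintype V] (G : SimpleGraph V) (T A X Y₀ : Finset V) (n k : ℕ)
    (hT : Trv G T) (hn : 1 ≤ n) (h₀ : Finset (V × V)) (hh₀ : h₀.image Prod.fst = Y₀)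
    {Y : Finset V} {j : ℕ} (hS : SQA G A n Y₀ Y j) : Y ⊆ X →
    Y₀ ⊆ Y ∧ ∃ (L : Finset (Finset (V × V))) (wt : Finset (V × V) → ℝ), (∀ h, 0 ≤ wt h) ∧
      ∑ h ∈ L, wt h ≤ 1 ∧
      (FT G T X k Y₀ h₀ ⊆ L.biUnion fun h => FT G T X k Y h) ∧
      ∀ h ∈ L, h.image Prod.fst = Y ∧ h.filter (fun u => u.1 ∈ Y₀) = h₀ ∧
        ∃ x : Fin j → ℝ, (∀ i, 0 ≤ x i) ∧ ∏ i, ((n : ℝ) * (1 + x i))⁻¹ ≤ wt h ∧
          ∑ i, x i + potZ G A Y h T n ≤ T.card * HH n := by
  have hn0 : (0 : ℝ) < n := by exact_mod_cast hn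
  induction hS with
  | base =>
    intro _
    refine ⟨Finset.Subset.refl _, {h₀}, fun _ => 1, fun _ => zero_le_one, by simp, ?_, ?_⟩
    · rw [Finset.singleton_biUnion]
    · intro h hh
      rw [Finset.mem_singleton] at hh
      subst hh
      refine ⟨hh₀, ?_, fun _ => 0, fun _ => le_refl _, by simp, ?_⟩
      · rw [Finset.filter_eq_self]
        intro u hu
        rw [← hh₀]
        exact Finset.mem_image_of_mem _ hu
      · rw [Finset.sum_const_zero, zero_add]
        unfold potZ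
        calc ∑ t ∈ T, HH (min (AZ G A Y₀ h t).card n) ≤ ∑ _t ∈ T, HH n :=
              Finset.sum_le_sum fun y _ => HH_mono (min_le_right _ _)
          _ = T.card * HH n := by rw [Finset.sum_const, nsmul_eq_mul]
  | @step Y z j hS' hz hzA htc ih =>
    intro hYX
    have hYY : Y ⊆ insert z Y := Finset.subset_insert z Y
    obtain ⟨hY₀, L, wt, hwt0, hsum, hcov, hL⟩ := ih (hYY.trans hYX)
    have hzX : z ∈ X := hYX (Finset.mem_insert_self z Y)
    obtain ⟨φ, hφ⟩ : ∃ φ : Finset (V × V) → Finset (V × V),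
        φ = fun h => h.filter fun u => u.1 ∈ Y := ⟨_, rfl⟩
    have hφi : ∀ h ∈ L, ∀ y, φ (insert (z, y) h) = h := by
      intro h hh y
      have hY := (hL h hh).1
      rw [hφ]
      ext u
      rw [Finset.mem_filter, Finset.mem_insert]
      constructor
      · rintro ⟨h1 | h1, h2⟩
        · exfalso
          rw [h1] at h2
          exact hz h2
        · exact h1
      · intro hu
        refine ⟨Or.inr hu, ?_⟩
        rw [← hY]
        exact Finset.mem_image_of_mem _ hu
    obtain ⟨L', hL'⟩ : ∃ L' : Finset (Finset (V × V)),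
        L' = L.biUnion fun h => (KK G T h z).image fun t => insert (z, yy G h z t) h := ⟨_, rfl⟩
    have hmem : ∀ h', h' ∈ L' ↔ ∃ h ∈ L, ∃ t ∈ KK G T h z, insert (z, yy G h z t) h = h' := by
      intro h'
      rw [hL', Finset.mem_biUnion]
      simp only [Finset.mem_image]
    have hmap : ∀ h' ∈ L', φ h' ∈ L := by
      intro h' hh'
      obtain ⟨h, hh, t, _, rfl⟩ := (hmem h').1 hh'
      rw [hφi h hh]
      exact hh
    refine ⟨hY₀.trans hYY, L', fun h' => wt (φ h') / (KK G T (φ h') z).card,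
      fun h' => div_nonneg (hwt0 _) (Nat.cast_nonneg _), ?_, ?_, ?_⟩
    · rw [← Finset.sum_fiberwise_of_maps_to hmap]
      refine le_trans (Finset.sum_le_sum fun h hh => ?_) hsum
      have h1 : ∑ h' ∈ L'.filter (fun h' => φ h' = h),
          wt (φ h') / ((KK G T (φ h') z).card : ℝ) =
          ∑ _h' ∈ L'.filter (fun h' => φ h' = h), wt h / ((KK G T h z).card : ℝ) := by
        refine Finset.sum_congr rfl fun h' hh' => ?_
        rw [(Finset.mem_filter.1 hh').2]
      rw [h1, Finset.sum_const, nsmul_eq_mul]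
      have h2 : (L'.filter (fun h' => φ h' = h)).card ≤ (KK G T h z).card := by
        have h3 : L'.filter (fun h' => φ h' = h) ⊆
            (KK G T h z).image fun t => insert (z, yy G h z t) h := by
          intro h' hh'
          rw [Finset.mem_filter] at hh'
          obtain ⟨h1, hh1, t, ht, rfl⟩ := (hmem h').1 hh'.1
          have h4 : h1 = h := by
            rw [← hh'.2, hφi h1 hh1]
          subst h4
          exact Finset.mem_image.2 ⟨t, ht, rfl⟩
        exact (Finset.card_le_card h3).trans Finset.card_image_le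
      have h5 : ((L'.filter (fun h' => φ h' = h)).card : ℝ) / (KK G T h z).card ≤ 1 :=
        div_le_one_of_le₀ (by exact_mod_cast h2) (Nat.cast_nonneg _)
      calc ((L'.filter (fun h' => φ h' = h)).card : ℝ) * (wt h / (KK G T h z).card) =
            wt h * (((L'.filter (fun h' => φ h' = h)).card : ℝ) / (KK G T h z).card) := by ring
        _ ≤ wt h * 1 := mul_le_mul_of_nonneg_left h5 (hwt0 h)
        _ = wt h := mul_one _
    · intro S hS
      have h1 := hcov hS
      rw [Finset.mem_biUnion] at h1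
      obtain ⟨h, hh, hSh⟩ := h1
      have h2 := cover G T X Y z k hT hz hzX h (hL h hh).1 hSh
      rw [Finset.mem_biUnion] at h2
      obtain ⟨t, ht, hSt⟩ := h2
      rw [Finset.mem_biUnion]
      exact ⟨insert (z, yy G h z t) h, (hmem _).2 ⟨h, hh, t, ht, rfl⟩, hSt⟩
    · intro h' hh'
      obtain ⟨h, hh, t, ht, rfl⟩ := (hmem h').1 hh'
      obtain ⟨hY, hf, x, hx0, hxw, hxs⟩ := hL h hh
      have hφh := hφi h hh (yy G h z t)
      refine ⟨?_, ?_, ?_⟩
      · rw [Finset.image_insert, hY]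
      · rw [← hf]
        ext u
        rw [Finset.mem_filter, Finset.mem_filter, Finset.mem_insert]
        constructor
        · rintro ⟨h1 | h1, h2⟩
          · exfalso
            rw [h1] at h2
            exact hz (hY₀ h2)
          · exact ⟨h1, h2⟩
        · rintro ⟨h1, h2⟩
          exact ⟨Or.inr h1, h2⟩
      · obtain ⟨e, he⟩ : ∃ e : ℝ, e = ((KK G T h z).card : ℝ) / (tc G Y z ∩ A).card := ⟨_, rfl⟩
        have he0 : 0 ≤ e := he ▸ div_nonneg (Nat.cast_nonneg _) (Nat.cast_nonneg _)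
        have hctc : 0 < (tc G Y z ∩ A).card := by
          refine Finset.card_pos.2 ⟨z, ?_⟩
          rw [Finset.mem_inter, mem_tc]
          exact ⟨⟨hz, fun w _ => Iff.rfl⟩, hzA⟩
        have hctc' : (0 : ℝ) < (tc G Y z ∩ A).card := by exact_mod_cast hctc
        have hC : ((KK G T h z).card : ℝ) ≤ n * (1 + e) := by
          have h6 : ((KK G T h z).card : ℝ) = (tc G Y z ∩ A).card * e := by
            rw [he]
            field_simp
          have h7 : ((tc G Y z ∩ A).card : ℝ) ≤ n := by exact_mod_cast htc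
          have h8 := mul_le_mul_of_nonneg_right h7 he0
          rw [h6]
          linarith
        have hCpos : 0 < (KK G T h z).card := Finset.card_pos.2 ⟨t, ht⟩
        have hCpos' : (0 : ℝ) < (KK G T h z).card := by exact_mod_cast hCpos
        refine ⟨Fin.cons e x, ?_, ?_, ?_⟩
        · intro i
          refine Fin.cases ?_ ?_ i
          · simpa using he0
          · intro i'
            simpa using hx0 i'
        · rw [Fin.prod_univ_succ]
          simp only [Fin.cons_zero, Fin.cons_succ]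
          rw [hφh]
          rw [div_eq_mul_inv, mul_comm (wt h)]
          refine mul_le_mul ?_ hxw ?_ (inv_nonneg.mpr hCpos'.le)
          · exact inv_anti₀ hCpos' hC
          · refine Finset.prod_nonneg fun i _ => inv_nonneg.mpr ?_
            have := hx0 i
            positivity
        · rw [Fin.sum_univ_succ]
          simp only [Fin.cons_zero, Fin.cons_succ]
          have hp := pot_stepZ G A Y z h (insert (z, yy G h z t) h) T n hz hzA
            (Finset.subset_insert _ _) hY htc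
          rw [← he] at hp
          linarith

end SEQZM

open EXTM SEQYM SEQZM

theorem specSEQZ : SpecSEQZ := by
  intro V _ G T A X Y₀ Z n j k K R M hT hS hZX hn hjR hR hTK hM IH h₀ hh₀ D κ hD hκ
  have hn0 : (1 : ℝ) ≤ n := by exact_mod_cast hn
  have hlog : 0 ≤ Real.log n := Real.log_nonneg hn0
  have hK : 0 ≤ K := (Nat.cast_nonneg _).trans hTK
  have hK0 : (0 : ℝ) ≤ K * (1 + Real.log n) := by positivity
  obtain ⟨Q, hQd⟩ : ∃ Q : ℝ, Q = ((n : ℝ) * (1 + K * (1 + Real.log n) / R)) ^ R := ⟨_, rfl⟩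
  have hQ : 0 < Q := by rw [hQd]; positivity
  rw [← hQd]
  obtain ⟨hY₀, L, wt, hwt0, hsum, hcov, hL⟩ := SEQZM.main G T A X Y₀ n k hT hn h₀ hh₀ hS hZX
  have h1 : ∀ h ∈ L, Q⁻¹ ≤ wt h := by
    intro h hh
    obtain ⟨-, -, x, hx0, hxw, hxs⟩ := hL h hh
    refine le_trans ?_ hxw
    rw [Finset.prod_inv_distrib]
    have hxsum : ∑ i, x i ≤ K * (1 + Real.log n) := by
      have h2 := potZ_nonneg G A Z h T n
      have h3 : (T.card : ℝ) * HH n ≤ K * (1 + Real.log n) :=
        mul_le_mul hTK (HH_log n) (HH_nonneg n) hK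
      linarith
    have hprod := prod_bound (univ : Finset (Fin j)) x (fun i _ => hx0 i) _ R hK0 hR
      (by simpa using hjR) hxsum
    have hpos : 0 < ∏ i, ((n : ℝ) * (1 + x i)) := by
      refine Finset.prod_pos fun i _ => ?_
      have := hx0 i
      positivity
    refine inv_anti₀ hpos ?_
    calc ∏ i, ((n : ℝ) * (1 + x i)) = (n : ℝ) ^ (j : ℝ) * ∏ i, (1 + x i) := by
          rw [Finset.prod_mul_distrib, Finset.prod_const, Finset.card_univ, Fintype.card_fin,
            Real.rpow_natCast]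
      _ ≤ (n : ℝ) ^ R * (1 + K * (1 + Real.log n) / R) ^ R := by
          refine mul_le_mul (Real.rpow_le_rpow_of_exponent_le hn0 hjR) hprod ?_ ?_
          · exact Finset.prod_nonneg fun i _ => by linarith [hx0 i]
          · exact Real.rpow_nonneg (by linarith) _
      _ = Q := by
          rw [hQd, Real.mul_rpow (by linarith) (by positivity)]
  have h4 : (L.card : ℝ) ≤ Q := by
    have h5 : (L.card : ℝ) * Q⁻¹ ≤ 1 := by
      calc (L.card : ℝ) * Q⁻¹ = ∑ _h ∈ L, Q⁻¹ := by rw [Finset.sum_const, nsmul_eq_mul]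
        _ ≤ ∑ h ∈ L, wt h := Finset.sum_le_sum h1
        _ ≤ 1 := hsum
    rw [← div_eq_mul_inv, div_le_one hQ] at h5
    exact h5
  have h6 : ∀ h ∈ L, 2 ^ κ * ((FT G T X k Z h).card : ℝ) ≤ M := by
    intro h hh
    obtain ⟨hZ, hf, -⟩ := hL h hh
    have hsub : ∀ u ∈ h₀, u ∈ h := by
      intro u hu
      rw [← hf] at hu
      exact (Finset.mem_filter.1 hu).1
    refine IH h hZ D κ ?_ ?_
    · intro y hy hyU
      refine hD y hy ?_
      rw [UT, Finset.mem_filter] at hyU ⊢
      obtain ⟨-, x, hx, hc⟩ := hyU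
      exact ⟨Finset.mem_univ _, x, fun u hu => hx u (hY₀ hu), fun u hu => hc u (hsub u hu)⟩
    · intro J hJ
      refine hκ J ?_
      obtain ⟨hJg, hJc, hJY, hJX, hJT, hJk⟩ := mem_AdT.1 hJ
      rw [mem_AdT]
      refine ⟨hJg, hJc, ?_, hJX, hJT, hJk⟩
      rw [← hf, ← hJY]
      ext u
      simp only [Finset.mem_filter]
      constructor
      · rintro ⟨h7, h8⟩
        exact ⟨⟨h7, hY₀ h8⟩, h8⟩
      · rintro ⟨⟨h7, _⟩, h8⟩
        exact ⟨h7, h8⟩
  have h7 : (FT G T X k Y₀ h₀).card ≤ ∑ h ∈ L, (FT G T X k Z h).card :=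
    (Finset.card_le_card hcov).trans Finset.card_biUnion_le
  have h8 : ((FT G T X k Y₀ h₀).card : ℝ) ≤ ∑ h ∈ L, ((FT G T X k Z h).card : ℝ) := by
    exact_mod_cast h7
  calc 2 ^ κ * ((FT G T X k Y₀ h₀).card : ℝ) ≤ 2 ^ κ * ∑ h ∈ L, ((FT G T X k Z h).card : ℝ) :=
        mul_le_mul_of_nonneg_left h8 (by positivity)
    _ = ∑ h ∈ L, 2 ^ κ * ((FT G T X k Z h).card : ℝ) := Finset.mul_sum _ _ _
    _ ≤ ∑ _h ∈ L, M := Finset.sum_le_sum h6
    _ = L.card * M := by rw [Finset.sum_const, nsmul_eq_mul]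
    _ ≤ Q * M := mul_le_mul_of_nonneg_right h4 hM
    _ = M * Q := mul_comm _ _

end Pool.Agent.Lib.MP50ecf8.LOC
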