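import Pool.Agent.Lib.MP_50ecf8_co.LOC.Spec8

/-!
# SPLY: splitting big classes, seeds in `W`
-/

set_option autoImplicit false

open Finset
open scoped Classical

namespace Pool.Agent.Lib.MP50ecf8.LOC

namespace SPLYM

variable {V : Type} [Fintype V]

theorem mem_cl {G : SimpleGraph V} {B Y : Finset V} {v u : V} :
    u ∈ cl G B Y v ↔ u ∉ B ∧ ∀ w ∈ Y, (G.Adj w u ↔ G.Adj w v) := by
  simp [cl]

theorem self_mem {G : SimpleGraph V} {B Y : Finset V} {v : V} (hv : v ∉ B) : v ∈ cl G B Y v :=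
  mem_cl.2 ⟨hv, fun _ _ => Iff.rfl⟩

theorem cl_anti {G : SimpleGraph V} {B Y Y' : Finset V} (h : Y ⊆ Y') (v : V) :
    cl G B Y' v ⊆ cl G B Y v := by
  intro u hu
  rw [mem_cl] at hu ⊢
  exact ⟨hu.1, fun w hw => hu.2 w (h hw)⟩

theorem cl_eq {G : SimpleGraph V} {B Y : Finset V} {v u : V} (h : u ∈ cl G B Y v) :
    cl G B Y u = cl G B Y v := by
  rw [mem_cl] at h
  ext x
  rw [mem_cl, mem_cl]
  constructor
  · rintro ⟨h1, h2⟩
    exact ⟨h1, fun w hw => (h2 w hw).trans (h.2 w hw)⟩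
  · rintro ⟨h1, h2⟩
    exact ⟨h1, fun w hw => (h2 w hw).trans (h.2 w hw).symm⟩

theorem card_le {G : SimpleGraph V} {B Y : Finset V} {D : ℕ} (hD : ∀ w ∈ Y, deg G w ≤ D) {v : V}
    (h : ¬ Em G Y v) : (cl G B Y v).card ≤ D := by
  unfold Em at h
  push Not at h
  obtain ⟨w, hw, hwv⟩ := h
  refine le_trans (card_le_card ?_) (hD w hw)
  intro u hu
  rw [mem_cl] at hu
  have := (hu.2 w hw).2 hwv
  simpa using this

theorem term_nonneg {G : SimpleGraph V} {B Y : Finset V} {D : ℕ} (hD : ∀ w ∈ Y, deg G w ≤ D)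
    {v : V}
    (hv : v ∉ B) (h : ¬ Em G Y v) :
    0 ≤ Real.logb 2 D - Real.logb 2 ((cl G B Y v).card : ℝ) := by
  have h1 := card_le (B := B) hD h
  have h2 : 0 < (cl G B Y v).card := card_pos.2 ⟨v, self_mem hv⟩
  have h3 : (0 : ℝ) < (cl G B Y v).card := by exact_mod_cast h2
  have h4 : ((cl G B Y v).card : ℝ) ≤ D := by exact_mod_cast h1
  have := Real.logb_le_logb_of_le (b := 2) (by norm_num) h3 h4
  linarith

theorem log_mono {G : SimpleGraph V} {B Y Y' : Finset V} (h : Y ⊆ Y') {v : V} (hv : v ∉ B) :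
    Real.logb 2 ((cl G B Y' v).card : ℝ) ≤ Real.logb 2 ((cl G B Y v).card : ℝ) := by
  have h2 : 0 < (cl G B Y' v).card := card_pos.2 ⟨v, self_mem hv⟩
  have h3 : (0 : ℝ) < (cl G B Y' v).card := by exact_mod_cast h2
  exact Real.logb_le_logb_of_le (b := 2) (by norm_num) h3 (by exact_mod_cast card_le_card (cl_anti h v))

/-- one split -/
theorem step {G : SimpleGraph V} {B W Y : Finset V} {D m : ℕ} (hYW : Y ⊆ W)
    (hD : ∀ w ∈ W, deg G w ≤ D) (hS : ¬ StW G B W Y m) :
    ∃ w ∈ W, (m : ℝ) + Phi G B Y D ≤ Phi G B (insert w Y) D := by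
  unfold StW at hS
  push Not at hS
  obtain ⟨v, hv, hE, w, hwW, h1, h2⟩ := hS
  refine ⟨w, hwW, ?_⟩
  have hD' : ∀ x ∈ insert w Y, deg G x ≤ D := by
    intro x hx
    rcases mem_insert.1 hx with rfl | hx
    · exact hD _ hwW
    · exact hD _ (hYW hx)
  -- the smaller part
  obtain ⟨P, hPA, hPm, hP2, hPc⟩ : ∃ P ⊆ cl G B Y v, m ≤ P.card ∧
      2 * P.card ≤ (cl G B Y v).card ∧ ∀ u ∈ P, cl G B (insert w Y) u ⊆ P := by
    have hsum := card_filter_add_card_filter_not (s := cl G B Y v) (fun u => G.Adj w u)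
    rcases le_total ((cl G B Y v).filter fun u => G.Adj w u).card
        ((cl G B Y v).filter fun u => ¬ G.Adj w u).card with h | h
    · refine ⟨(cl G B Y v).filter fun u => G.Adj w u, filter_subset _ _, h1, by omega, ?_⟩
      intro u hu x hx
      rw [mem_filter] at hu ⊢
      rw [← cl_eq hu.1]
      refine ⟨cl_anti (subset_insert w Y) u hx, ?_⟩
      exact ((mem_cl.1 hx).2 w (mem_insert_self w Y)).2 hu.2
    · refine ⟨(cl G B Y v).filter fun u => ¬ G.Adj w u, filter_subset _ _, h2, by omega, ?_⟩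
      intro u hu x hx
      rw [mem_filter] at hu ⊢
      rw [← cl_eq hu.1]
      refine ⟨cl_anti (subset_insert w Y) u hx, ?_⟩
      exact fun hc => hu.2 (((mem_cl.1 hx).2 w (mem_insert_self w Y)).1 hc)
  set I := univ.filter (fun u => u ∉ B ∧ ¬ Em G Y u) with hI
  set I' := univ.filter (fun u => u ∉ B ∧ ¬ Em G (insert w Y) u) with hI'
  have hII : I ⊆ I' := by
    intro u hu
    rw [hI, mem_filter] at hu
    rw [hI', mem_filter]
    refine ⟨mem_univ _, hu.2.1, fun h => hu.2.2 fun w' hw' => h w' (mem_insert_of_mem hw')⟩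
  have hPI : P ⊆ I := by
    intro u hu
    have hu' := mem_cl.1 (hPA hu)
    rw [hI, mem_filter]
    refine ⟨mem_univ _, hu'.1, fun h => hE fun w' hw' hadj => h w' hw' ((hu'.2 w' hw').2 hadj)⟩
  have e1 : ∑ u ∈ I, (Real.logb 2 D - Real.logb 2 ((cl G B (insert w Y) u).card : ℝ)) ≤
      Phi G B (insert w Y) D := by
    unfold Phi
    refine sum_le_sum_of_subset_of_nonneg hII fun u hu _ => ?_
    rw [mem_filter] at hu
    exact term_nonneg hD' hu.2.1 hu.2.2
  have e2 : Phi G B Y D + ∑ u ∈ I, (Real.logb 2 ((cl G B Y u).card : ℝ) -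
      Real.logb 2 ((cl G B (insert w Y) u).card : ℝ)) =
      ∑ u ∈ I, (Real.logb 2 D - Real.logb 2 ((cl G B (insert w Y) u).card : ℝ)) := by
    unfold Phi
    rw [← hI, ← sum_add_distrib]
    exact sum_congr rfl fun u _ => by ring
  have e3 : ∑ u ∈ P, (Real.logb 2 ((cl G B Y u).card : ℝ) -
      Real.logb 2 ((cl G B (insert w Y) u).card : ℝ)) ≤
      ∑ u ∈ I, (Real.logb 2 ((cl G B Y u).card : ℝ) -
      Real.logb 2 ((cl G B (insert w Y) u).card : ℝ)) := by
    refine sum_le_sum_of_subset_of_nonneg hPI fun u hu _ => ?_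
    rw [hI, mem_filter] at hu
    have := log_mono (G := G) (subset_insert w Y) hu.2.1
    linarith
  have e4 : ∑ u ∈ P, (1 : ℝ) ≤ ∑ u ∈ P, (Real.logb 2 ((cl G B Y u).card : ℝ) -
      Real.logb 2 ((cl G B (insert w Y) u).card : ℝ)) := by
    refine sum_le_sum fun u hu => ?_
    have hu' := mem_cl.1 (hPA hu)
    rw [cl_eq (hPA hu)]
    have k1 : 0 < (cl G B (insert w Y) u).card := card_pos.2 ⟨u, self_mem hu'.1⟩
    have k2 : (cl G B (insert w Y) u).card ≤ P.card := card_le_card (hPc u hu)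
    have k3 : 2 * (cl G B (insert w Y) u).card ≤ (cl G B Y v).card := by omega
    have k4 : (0 : ℝ) < (cl G B (insert w Y) u).card := by exact_mod_cast k1
    have k5 : (2 : ℝ) * (cl G B (insert w Y) u).card ≤ (cl G B Y v).card := by exact_mod_cast k3
    have k6 := Real.logb_le_logb_of_le (b := 2) (by norm_num) (by positivity) k5
    rw [Real.logb_mul (by norm_num) k4.ne', Real.logb_self_eq_one (by norm_num)] at k6
    linarith
  rw [sum_const, nsmul_eq_mul, mul_one] at e4
  have e5 : (m : ℝ) ≤ P.card := by exact_mod_cast hPm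
  linarith

end SPLYM

open SPLYM in
theorem specSPLY (hPHIY : SpecPHIY) : SpecSPLY := by
  intro V _ G B W Y D m hm hYW hD
  obtain ⟨-, hle, -⟩ := hPHIY V G B W D hD
  have key : ∀ (n : ℕ) (Y : Finset V), Y ⊆ W →
      Fintype.card V * Real.logb 2 D - Phi G B Y D < n * m →
      ∃ S : Finset V, S ⊆ W ∧ StW G B W (Y ∪ S) m ∧
        (m : ℝ) * S.card + Phi G B Y D ≤ Phi G B (Y ∪ S) D := by
    intro n
    induction n with
    | zero =>
      intro Y hYW hY
      have := hle Y hYW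
      rw [Nat.cast_zero, zero_mul] at hY
      linarith
    | succ n ih =>
      intro Y hYW hY
      by_cases hS : StW G B W Y m
      · exact ⟨∅, empty_subset _, by simpa using hS, by simp⟩
      · obtain ⟨w, hwW, hw⟩ := step hYW hD hS
        obtain ⟨S, hSW, h1, h2⟩ := ih (insert w Y) (insert_subset hwW hYW)
          (by push_cast at hY; linarith)
        refine ⟨insert w S, insert_subset hwW hSW, ?_, ?_⟩
        · rw [union_insert, ← insert_union]
          exact h1
        · rw [union_insert, ← insert_union]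
          have h3 : ((insert w S).card : ℝ) ≤ S.card + 1 := by exact_mod_cast card_insert_le w S
          have h4 : (m : ℝ) * (insert w S).card ≤ m * (S.card + 1) :=
            mul_le_mul_of_nonneg_left h3 (Nat.cast_nonneg m)
          linarith
  have hm' : (0 : ℝ) < m := by exact_mod_cast hm
  obtain ⟨n, hn⟩ := exists_nat_gt ((Fintype.card V * Real.logb 2 D - Phi G B Y D) / m)
  exact key n Y hYW (by rwa [div_lt_iff₀ hm'] at hn)

end Pool.Agent.Lib.MP50ecf8.LOC
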