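import Pool.Agent.Lib.MP_50ecf8_co.LOC.Spec10
import Pool.Agent.Lib.MP_50ecf8_co.LOC.STG

/-!
# Module STGN: one stage, seeds in `W`, pairs with many separating vertices
-/

set_option autoImplicit false

open Finset
open scoped Classical

namespace Pool.Agent.Lib.MP50ecf8.LOC

namespace STGNM

variable {V : Type} [Fintype V]

/-- the vertices not strictly told apart from `v`, with many separators in `W` -/
noncomputable def NW (G : SimpleGraph V) (B W Y : Finset V) (t : ℝ) (v : V) : Finset V :=
  (univ.filter fun u => u ∉ B ∧ u ≠ v ∧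
      ∀ w ∈ Y, w ≠ u → w ≠ v → (G.Adj w u ↔ G.Adj w v)).filter
    fun u => t ≤ (((sep G v u) ∩ W).card : ℝ)

end STGNM

open STGM STGNM

theorem specSTGN : SpecSTGN := by
  intro V _ G B C W Y n s t ht htW hn
  have hq0 : (0 : ℝ) < W.card := lt_of_lt_of_le ht htW
  set q : ℝ := (W.card : ℝ) with hq
  set p : ℝ := (Fintype.card V : ℝ) with hp
  have hx1 : 0 ≤ 1 - t / q := by
    rw [sub_nonneg, div_le_one hq0]
    exact htW
  have hW : 0 < W.card := by
    rw [hq] at hq0
    exact_mod_cast hq0
  set CB : Finset V := C.filter fun v => v ∉ Y with hCB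
  have hCBc : (CB.card : ℝ) ≤ p := by
    have h : CB.card ≤ Fintype.card V := by
      rw [← card_univ]
      exact card_le_card (subset_univ _)
    rw [hp]
    exact_mod_cast h
  set F : Finset (Fin s → V) := Fintype.piFinset fun _ => W with hF
  have hFc : (F.card : ℝ) = q ^ s := by
    rw [hF, Fintype.card_piFinset, prod_const, card_univ, Fintype.card_fin, Nat.cast_pow]
  have hFn : F.Nonempty := by
    obtain ⟨x, hx⟩ := card_pos.1 hW
    exact ⟨fun _ => x, by rw [hF, Fintype.mem_piFinset]; exact fun _ => hx⟩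
  obtain ⟨w₀, hw₀⟩ := card_pos.1 hW
  -- choices
  have hg : ∀ v u, ∃ w ∈ W, t ≤ (((sep G v u) ∩ W).card : ℝ) → w ∈ sep G v u := by
    intro v u
    by_cases h : t ≤ (((sep G v u) ∩ W).card : ℝ)
    · have h3 : 0 < ((sep G v u) ∩ W).card := by
        have : (0 : ℝ) < (((sep G v u) ∩ W).card : ℝ) := lt_of_lt_of_le ht h
        exact_mod_cast this
      obtain ⟨w, hw⟩ := card_pos.1 h3
      rw [mem_inter] at hw
      exact ⟨w, hw.2, fun _ => hw.1⟩
    · exact ⟨w₀, hw₀, fun a => absurd a h⟩
  choose g hgW hg using hg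
  -- double counting
  have hc2 : ∑ c ∈ F, ∑ v ∈ CB,
      (((NW G B W Y t v).filter fun u => ∀ i, c i ∉ sep G v u).card : ℝ) =
      ∑ v ∈ CB, ∑ u ∈ NW G B W Y t v, ((F.filter fun c => ∀ i, c i ∉ sep G v u).card : ℝ) := by
    rw [sum_comm]
    refine sum_congr rfl fun v _ => ?_
    have h := sum_card_bipartiteAbove_eq_sum_card_bipartiteBelow
      (s := F) (t := NW G B W Y t v)
      (fun c u => ∀ i, c i ∉ sep G v u)
    exact_mod_cast h
  have hb : ∑ v ∈ CB, ∑ u ∈ NW G B W Y t v,
      ((F.filter fun c => ∀ i, c i ∉ sep G v u).card : ℝ) ≤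
      p * ((n : ℝ) * (q ^ s * (1 - t / q) ^ s)) := by
    have hpos : 0 ≤ q ^ s * (1 - t / q) ^ s := by positivity
    calc ∑ v ∈ CB, ∑ u ∈ NW G B W Y t v,
          ((F.filter fun c => ∀ i, c i ∉ sep G v u).card : ℝ) ≤
        ∑ v ∈ CB, ∑ u ∈ NW G B W Y t v, (q ^ s * (1 - t / q) ^ s) := by
          refine sum_le_sum fun v hv => sum_le_sum fun u hu => ?_
          rw [NW, mem_filter] at hu
          have h1 : (F.filter fun c => ∀ i, c i ∉ sep G v u) ⊆ avC s W (sep G v u ∩ W) := by
            intro c hc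
            rw [mem_filter, hF, Fintype.mem_piFinset] at hc
            rw [avC, Fintype.mem_piFinset]
            intro i
            rw [mem_sdiff]
            exact ⟨hc.1 i, fun h => hc.2 i (mem_inter.1 h).1⟩
          have h2 : ((F.filter fun c => ∀ i, c i ∉ sep G v u).card : ℝ) ≤
              ((avC s W (sep G v u ∩ W)).card : ℝ) := by
            exact_mod_cast card_le_card h1
          have h4 := card_avC s W (sep G v u ∩ W) t inter_subset_right hu.2 hW
          exact h2.trans h4
      _ ≤ ∑ v ∈ CB, ((n : ℝ) * (q ^ s * (1 - t / q) ^ s)) := by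
          refine sum_le_sum fun v hv => ?_
          rw [hCB, mem_filter] at hv
          rw [sum_const, nsmul_eq_mul]
          apply mul_le_mul_of_nonneg_right _ hpos
          exact_mod_cast (card_filter_le _ _).trans (hn v hv.1 hv.2)
      _ = (CB.card : ℝ) * ((n : ℝ) * (q ^ s * (1 - t / q) ^ s)) := by
          rw [sum_const, nsmul_eq_mul]
      _ ≤ _ := mul_le_mul_of_nonneg_right hCBc (by positivity)
  -- the average
  set K : ℝ := p * n * (1 - t / q) ^ s with hK
  obtain ⟨c, hcF, hc⟩ := exists_le_of_sum_le (s := F) hFn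
    (f := fun c : Fin s → V => ∑ v ∈ CB,
      (((NW G B W Y t v).filter fun u => ∀ i, c i ∉ sep G v u).card : ℝ))
    (g := fun _ => K) (by
      rw [hc2]
      refine hb.trans (le_of_eq ?_)
      rw [sum_const, nsmul_eq_mul, hFc, hK]
      ring)
  have hcW : ∀ i, c i ∈ W := by
    rw [hF, Fintype.mem_piFinset] at hcF
    exact hcF
  set FP : V → Finset V := fun v => (NW G B W Y t v).filter fun u => ∀ i, c i ∉ sep G v u
    with hFP
  set U : Finset V := CB.biUnion fun v => (FP v).image (g v) with hU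
  refine ⟨univ.image c ∪ U, ?_, ?_, ?_⟩
  · intro x hx
    rw [mem_union] at hx
    rcases hx with hx | hx
    · rw [mem_image] at hx
      obtain ⟨i, -, rfl⟩ := hx
      exact hcW i
    · rw [hU, mem_biUnion] at hx
      obtain ⟨v, -, hx⟩ := hx
      rw [mem_image] at hx
      obtain ⟨u, -, rfl⟩ := hx
      exact hgW v u
  · have h2 : (univ.image c).card ≤ s := by
      refine card_image_le.trans ?_
      rw [card_univ, Fintype.card_fin]
    have h3 : U.card ≤ ∑ v ∈ CB, (FP v).card :=
      card_biUnion_le.trans (sum_le_sum fun v _ => card_image_le)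
    have h4 : (univ.image c ∪ U).card ≤ s + ∑ v ∈ CB, (FP v).card :=
      (card_union_le _ _).trans (Nat.add_le_add h2 h3)
    have h5 : (((univ.image c ∪ U).card : ℕ) : ℝ) ≤
        s + ∑ v ∈ CB, ((FP v).card : ℝ) := by
      exact_mod_cast h4
    have h6 : ∑ v ∈ CB, ((FP v).card : ℝ) ≤ K := hc
    linarith
  · intro v hvC hvY u huB huv hst
    by_contra hno
    push Not at hno
    have hv : v ∈ CB := by
      rw [hCB, mem_filter]
      exact ⟨hvC, hvY⟩
    have huN : u ∈ NW G B W Y t v := by
      rw [NW, mem_filter, mem_filter]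
      exact ⟨⟨mem_univ u, huB, huv, fun w hwY h1 h2 => hno w (mem_union_left _ hwY) h1 h2⟩, hst⟩
    have key : ∀ w, w ∈ sep G v u → w ∉ Y ∪ (univ.image c ∪ U) := by
      intro w hws hwZ
      rw [sep, mem_filter] at hws
      exact hws.2.2.2 (hno w hwZ hws.2.2.1 hws.2.1).symm
    by_cases hav : ∀ i, c i ∉ sep G v u
    · refine key (g v u) (hg v u hst) (mem_union_right _ (mem_union_right _ ?_))
      rw [hU, mem_biUnion]
      refine ⟨v, hv, mem_image_of_mem (g v) ?_⟩
      rw [hFP]
      simp only [mem_filter]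
      exact ⟨huN, hav⟩
    · push Not at hav
      obtain ⟨i, hi⟩ := hav
      exact key (c i) hi
        (mem_union_right _ (mem_union_left _ (mem_image_of_mem c (mem_univ i))))

end Pool.Agent.Lib.MP50ecf8.LOC
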