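import Pool.Agent.Lib.MP_50ecf8_co.LOC.Spec6
import Pool.Agent.Lib.MP_50ecf8_co.LOC.STG

/-!
# Module STGT: one stage of the random revealing, strong form
-/

set_option autoImplicit false

open Finset
open scoped Classical

namespace Pool.Agent.Lib.MP50ecf8.LOC

namespace STGTM

variable {V : Type} [Fintype V]

/-- the vertices not told apart from `v`, with many separators -/
noncomputable def NN (G : SimpleGraph V) (T B C Y : Finset V) (t : ℝ) (v : V) : Finset V :=
  (T.filter fun u => u ∉ B ∧ u ≠ v ∧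
      ∀ w ∈ Y, w ≠ u → w ≠ v → (G.Adj w u ↔ G.Adj w v)).filter
    fun u => t ≤ ((sC G C v u).card : ℝ)

end STGTM

open STGM STGTM

theorem specSTGT : SpecSTGT := by
  intro V _ G T B C Y n s t ht htC hC hn
  have hP0 : (0 : ℝ) < C.card := by exact_mod_cast hC
  set P : ℝ := (C.card : ℝ) with hP
  have hx1 : 0 ≤ 1 - t / P := by
    rw [sub_nonneg, div_le_one hP0]
    exact htC
  set CB : Finset V := C \ B with hCB
  have hCBc : (CB.card : ℝ) ≤ P := by
    rw [hP]
    exact_mod_cast card_le_card sdiff_subset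
  set F : Finset (Fin s → V) := Fintype.piFinset fun _ => C with hF
  have hFc : (F.card : ℝ) = P ^ s := by
    rw [hF, Fintype.card_piFinset, prod_const, card_univ, Fintype.card_fin, Nat.cast_pow]
  have hFn : F.Nonempty := by
    obtain ⟨x, hx⟩ := card_pos.1 hC
    exact ⟨fun _ => x, by rw [hF, Fintype.mem_piFinset]; exact fun _ => hx⟩
  -- choices
  have hg : ∀ v u, ∃ w, t ≤ ((sC G C v u).card : ℝ) → w ∈ sC G C v u := by
    intro v u
    by_cases h : t ≤ ((sC G C v u).card : ℝ)
    · have h3 : 0 < (sC G C v u).card := by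
        have : (0 : ℝ) < ((sC G C v u).card : ℝ) := lt_of_lt_of_le ht h
        exact_mod_cast this
      obtain ⟨w, hw⟩ := card_pos.1 h3
      exact ⟨w, fun _ => hw⟩
    · exact ⟨v, fun a => absurd a h⟩
  choose g hg using hg
  -- double counting
  have hc2 : ∑ c ∈ F, ∑ v ∈ CB,
      (((NN G T B C Y t v).filter fun u => ∀ i, c i ∉ sC G C v u).card : ℝ) =
      ∑ v ∈ CB, ∑ u ∈ NN G T B C Y t v, ((F.filter fun c => ∀ i, c i ∉ sC G C v u).card : ℝ) := by
    rw [sum_comm]
    refine sum_congr rfl fun v _ => ?_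
    have h := sum_card_bipartiteAbove_eq_sum_card_bipartiteBelow
      (s := F) (t := NN G T B C Y t v)
      (fun c u => ∀ i, c i ∉ sC G C v u)
    exact_mod_cast h
  have hb : ∑ v ∈ CB, ∑ u ∈ NN G T B C Y t v,
      ((F.filter fun c => ∀ i, c i ∉ sC G C v u).card : ℝ) ≤
      P * ((n : ℝ) * (P ^ s * (1 - t / P) ^ s)) := by
    have hpos : 0 ≤ P ^ s * (1 - t / P) ^ s := by positivity
    calc ∑ v ∈ CB, ∑ u ∈ NN G T B C Y t v,
          ((F.filter fun c => ∀ i, c i ∉ sC G C v u).card : ℝ) ≤
        ∑ v ∈ CB, ∑ u ∈ NN G T B C Y t v, (P ^ s * (1 - t / P) ^ s) := by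
          refine sum_le_sum fun v hv => sum_le_sum fun u hu => ?_
          rw [NN, mem_filter] at hu
          have h1 : (F.filter fun c => ∀ i, c i ∉ sC G C v u) ⊆ avC s C (sC G C v u) := by
            intro c hc
            rw [mem_filter, hF, Fintype.mem_piFinset] at hc
            rw [avC, Fintype.mem_piFinset]
            intro i
            rw [mem_sdiff]
            exact ⟨hc.1 i, hc.2 i⟩
          have h2 : ((F.filter fun c => ∀ i, c i ∉ sC G C v u).card : ℝ) ≤
              ((avC s C (sC G C v u)).card : ℝ) := by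
            exact_mod_cast card_le_card h1
          exact h2.trans (card_avC s C (sC G C v u) t inter_subset_right hu.2 hC)
      _ ≤ ∑ v ∈ CB, ((n : ℝ) * (P ^ s * (1 - t / P) ^ s)) := by
          refine sum_le_sum fun v hv => ?_
          rw [hCB, mem_sdiff] at hv
          rw [sum_const, nsmul_eq_mul]
          apply mul_le_mul_of_nonneg_right _ hpos
          exact_mod_cast (card_filter_le _ _).trans (hn v hv.1 hv.2)
      _ = (CB.card : ℝ) * ((n : ℝ) * (P ^ s * (1 - t / P) ^ s)) := by
          rw [sum_const, nsmul_eq_mul]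
      _ ≤ _ := mul_le_mul_of_nonneg_right hCBc (by positivity)
  -- the average
  set K : ℝ := P * n * (1 - t / P) ^ s with hK
  obtain ⟨c, hcF, hc⟩ := exists_le_of_sum_le (s := F) hFn
    (f := fun c : Fin s → V => ∑ v ∈ CB,
      (((NN G T B C Y t v).filter fun u => ∀ i, c i ∉ sC G C v u).card : ℝ))
    (g := fun _ => K) (by
      rw [hc2]
      refine hb.trans (le_of_eq ?_)
      rw [sum_const, nsmul_eq_mul, hFc, hK]
      ring)
  have hcC : ∀ i, c i ∈ C := by
    rw [hF, Fintype.mem_piFinset] at hcF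
    exact hcF
  set FP : V → Finset V := fun v => (NN G T B C Y t v).filter fun u => ∀ i, c i ∉ sC G C v u
    with hFP
  set U : Finset V := CB.biUnion fun v => (FP v).image (g v) with hU
  refine ⟨Y ∪ (univ.image c ∪ U), subset_union_left, ?_, ?_, ?_⟩
  · intro x hx
    rw [mem_sdiff, mem_union, mem_union] at hx
    obtain ⟨hx, hxY⟩ := hx
    rcases hx with hx | hx | hx
    · exact absurd hx hxY
    · rw [mem_image] at hx
      obtain ⟨i, -, rfl⟩ := hx
      exact hcC i
    · rw [hU, mem_biUnion] at hx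
      obtain ⟨v, hv, hx⟩ := hx
      rw [mem_image] at hx
      obtain ⟨u, hu, rfl⟩ := hx
      rw [hFP] at hu
      simp only [mem_filter, NN] at hu
      have h1 := hg v u hu.1.2
      rw [sC, mem_inter] at h1
      exact h1.2
  · have h2 : (univ.image c).card ≤ s := by
      refine card_image_le.trans ?_
      rw [card_univ, Fintype.card_fin]
    have h3 : U.card ≤ ∑ v ∈ CB, (FP v).card :=
      card_biUnion_le.trans (sum_le_sum fun v _ => card_image_le)
    have h4 : (Y ∪ (univ.image c ∪ U)).card ≤ Y.card + (s + ∑ v ∈ CB, (FP v).card) := by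
      refine (card_union_le _ _).trans (Nat.add_le_add_left ?_ _)
      exact (card_union_le _ _).trans (Nat.add_le_add h2 h3)
    have h5 : ((Y ∪ (univ.image c ∪ U)).card : ℝ) ≤
        Y.card + (s + ∑ v ∈ CB, ((FP v).card : ℝ)) := by
      exact_mod_cast h4
    have h6 : ∑ v ∈ CB, ((FP v).card : ℝ) ≤ K := hc
    linarith
  · intro v hvC hvB u huT huB huv hw
    by_contra hlt
    rw [not_lt] at hlt
    have hv : v ∈ CB := by
      rw [hCB, mem_sdiff]
      exact ⟨hvC, hvB⟩
    have huN : u ∈ NN G T B C Y t v := by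
      rw [NN, mem_filter, mem_filter]
      exact ⟨⟨huT, huB, huv, fun w hwY h1 h2 => hw w (mem_union_left _ hwY) h1 h2⟩, hlt⟩
    have key : ∀ w, w ∈ sC G C v u → w ∉ Y ∪ (univ.image c ∪ U) := by
      intro w hws hwZ
      rw [sC, mem_inter, sep, mem_filter] at hws
      exact hws.1.2.2.2 (hw w hwZ hws.1.2.2.1 hws.1.2.1).symm
    by_cases hav : ∀ i, c i ∉ sC G C v u
    · refine key (g v u) (hg v u hlt) (mem_union_right _ (mem_union_right _ ?_))
      rw [hU, mem_biUnion]
      refine ⟨v, hv, mem_image_of_mem (g v) ?_⟩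
      rw [hFP]
      simp only [mem_filter]
      exact ⟨huN, hav⟩
    · push Not at hav
      obtain ⟨i, hi⟩ := hav
      exact key (c i) hi
        (mem_union_right _ (mem_union_left _ (mem_image_of_mem c (mem_univ i))))

end Pool.Agent.Lib.MP50ecf8.LOC
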