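import Pool.Agent.Lib.MP_50ecf8_co.LOC.Spec5

set_option autoImplicit false

open Finset
open scoped Classical

namespace Pool.Agent.Lib.MP50ecf8.LOC

namespace STPTM

variable {V : Type} {G : SimpleGraph V}

theorem fst_inj {I : Finset (V × V)} (h : Good G I) : Set.InjOn Prod.fst (I : Set (V × V)) := by
  intro u hu w hw huw
  exact Prod.ext huw ((h u (by simpa using hu) w (by simpa using hw)).1.mp huw)

theorem snd_inj {I : Finset (V × V)} (h : Good G I) : Set.InjOn Prod.snd (I : Set (V × V)) := by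
  intro u hu w hw huw
  exact Prod.ext ((h u (by simpa using hu) w (by simpa using hw)).1.mpr huw) huw

theorem swap_tw {x v : V} (h : Tw G v x) (a : V) : Tw G (Equiv.swap x v a) a := by
  by_cases h1 : a = x
  · subst h1
    rw [Equiv.swap_apply_left]
    exact h
  · by_cases h2 : a = v
    · subst h2
      rw [Equiv.swap_apply_right]
      exact h.symm
    · rw [Equiv.swap_apply_of_ne_of_ne h1 h2]
      exact Tw.refl G a

theorem swap_adj {x v : V} (h : Tw G v x) (a b : V) :
    G.Adj (Equiv.swap x v a) (Equiv.swap x v b) ↔ G.Adj a b := by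
  by_cases hab : a = b
  · subst hab
    simp
  · exact Tw.adj (swap_tw h a) (swap_tw h b) (fun e => hab ((Equiv.swap x v).injective e)) hab

theorem cmp_swap {x v : V} (h : Tw G v x) (u w : V × V) :
    Cmp G (Equiv.swap x v u.1, u.2) (Equiv.swap x v w.1, w.2) ↔ Cmp G u w := by
  unfold Cmp
  simp only [swap_adj h, (Equiv.swap x v).injective.eq_iff]

/-- `J` with `x` and `v` swapped in the first coordinates -/
noncomputable def sw (x v : V) (J : Finset (V × V)) : Finset (V × V) :=
  J.image fun u => (Equiv.swap x v u.1, u.2)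

theorem mem_sw {x v : V} {J : Finset (V × V)} {u : V × V} :
    u ∈ sw x v J ↔ (Equiv.swap x v u.1, u.2) ∈ J := by
  rw [sw, Finset.mem_image]
  constructor
  · rintro ⟨w, hw, rfl⟩
    simpa using hw
  · intro hu
    exact ⟨_, hu, by simp⟩

theorem sw_good {x v : V} (h : Tw G v x) {J : Finset (V × V)} (hJ : Good G J) :
    Good G (sw x v J) := by
  intro u hu w hw
  rw [mem_sw] at hu hw
  have := hJ _ hu _ hw
  exact (cmp_swap h u w).1 this

theorem sw_closed {x v : V} (h : Tw G v x) {J : Finset (V × V)} (hJ : Closed G J) :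
    Closed G (sw x v J) := by
  intro u hu hcomp
  have hu' : (Equiv.swap x v u.1, u.2) ∉ J := fun h1 => hu (mem_sw.2 h1)
  have hc' : ∀ z ∈ J, Cmp G (Equiv.swap x v u.1, u.2) z := by
    intro z hz
    have hz' : (Equiv.swap x v z.1, z.2) ∈ sw x v J := by
      rw [mem_sw]
      simpa using hz
    have h1 := hcomp _ hz'
    have h2 := (cmp_swap h u (Equiv.swap x v z.1, z.2)).2 h1
    simpa using h2
  obtain ⟨w, hw, huw⟩ := hJ _ hu' hc'
  refine ⟨(Equiv.swap x v w.1, w.2), ?_, ?_⟩
  · intro z hz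
    have h1 := hw _ (mem_sw.1 hz)
    have h2 := (cmp_swap h (Equiv.swap x v w.1, w.2) z).1
    apply h2
    simpa using h1
  · intro h1
    apply huw
    have h2 := (cmp_swap h u (Equiv.swap x v w.1, w.2)).2 h1
    simpa using h2

theorem sw_card {x v : V} (J : Finset (V × V)) : (sw x v J).card = J.card := by
  apply Finset.card_image_of_injective
  intro u w huw
  rw [Prod.mk.injEq] at huw
  exact Prod.ext ((Equiv.swap x v).injective huw.1) huw.2

theorem sw_dom {x v : V} {J : Finset (V × V)} (hx : x ∈ J.image Prod.fst)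
    (hv : v ∈ J.image Prod.fst) : (sw x v J).image Prod.fst = J.image Prod.fst := by
  have key : ∀ a, a ∈ (sw x v J).image Prod.fst ↔ Equiv.swap x v a ∈ J.image Prod.fst := by
    intro a
    rw [Finset.mem_image, Finset.mem_image]
    constructor
    · rintro ⟨u, hu, rfl⟩
      exact ⟨_, mem_sw.1 hu, rfl⟩
    · rintro ⟨u, hu, hua⟩
      refine ⟨(Equiv.swap x v u.1, u.2), ?_, ?_⟩
      · rw [mem_sw]
        simpa using hu
      · show Equiv.swap x v u.1 = a
        rw [hua]
        simp
  ext a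
  rw [key]
  by_cases h1 : a = x
  · subst h1
    rw [Equiv.swap_apply_left]
    exact ⟨fun _ => hx, fun _ => hv⟩
  · by_cases h2 : a = v
    · subst h2
      rw [Equiv.swap_apply_right]
      exact ⟨fun _ => hv, fun _ => hx⟩
    · rw [Equiv.swap_apply_of_ne_of_ne h1 h2]

end STPTM

open STPTM in
theorem specSTPT : SpecSTPT := by
  intro V _ G T X Y x k hT hY hxY hxT hxX hU IH h hhY D κ hD hκ
  rcases (AdT G T X k Y h).eq_empty_or_nonempty with h0 | ⟨J₀, hJ₀⟩
  · simp [FT, h0]
  have hAd : ∀ (Z : Finset V) (g : Finset (V × V)) (J : Finset (V × V)), J ∈ AdT G T X k Z g ↔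
      (Good G J ∧ Closed G J ∧ J.filter (fun u => u.1 ∈ Z) = g ∧
        X ⊆ J.image Prod.fst ∧ univ \ T ⊆ J.image Prod.fst ∧ J.card + k = Fintype.card V) := by
    intro Z g J
    simp [AdT]
  set c : Finset V := univ.filter fun v => Tw G v x with hc
  have hcm : ∀ v, v ∈ c ↔ Tw G v x := by
    intro v
    simp [hc]
  set B : Finset V := univ.filter fun y => ∀ z ∈ h, Cmp G (x, y) z with hB
  have hBm : ∀ y, y ∈ B ↔ ∀ z ∈ h, Cmp G (x, y) z := by
    intro y
    simp [hB]
  have hcY : ∀ v, Tw G v x → v ∉ Y := fun v hv hvY => hxY (hY v hvY x hxT hv)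
  have hzY : ∀ z ∈ h, z.1 ∈ Y := by
    intro z hz
    rw [← hhY]
    exact Finset.mem_image_of_mem _ hz
  have hYz : ∀ w ∈ Y, ∃ z ∈ h, z.1 = w := by
    intro w hw
    rw [← hhY] at hw
    exact Finset.mem_image.1 hw
  -- same trace
  have htrace : ∀ (u y : V), y ∈ B → (∀ z ∈ h, Cmp G (u, y) z) → u ∉ Y → Tw G u x := by
    intro u y hy hu huY
    by_contra hcon
    obtain ⟨w, hw, hsep⟩ := hU u huY hcon
    obtain ⟨z, hz, rfl⟩ := hYz w hw
    apply hsep
    have h1 := (hu z hz).2
    have h2 := ((hBm y).1 hy z hz).2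
    simp only at h1 h2
    rw [G.adj_comm z.1 u, G.adj_comm z.1 x, h1, h2]
  have htrans : ∀ (v y : V), Tw G v x → (∀ z ∈ h, Cmp G (v, y) z) → y ∈ B := by
    intro v y hv hvy
    rw [hBm]
    intro z hz
    have h1 := hvy z hz
    have hz1 := hzY z hz
    have hvz : v ≠ z.1 := fun e => hcY v hv (e ▸ hz1)
    have hxz : x ≠ z.1 := fun e => hxY (e ▸ hz1)
    refine ⟨⟨fun e => absurd e hxz, fun e => absurd (h1.1.2 e) hvz⟩, ?_⟩
    have h2 := h1.2
    simp only at h2 ⊢
    rw [← h2, G.adj_comm x z.1, G.adj_comm v z.1]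
    exact (hv z.1 (Ne.symm hvz) (Ne.symm hxz)).symm
  -- facts about the elements of `AdT`
  have hfacts : ∀ J ∈ AdT G T X k Y h, (∀ z ∈ h, z ∈ J) ∧ (∀ u ∈ J, u.1 ∈ Y → u ∈ h) ∧
      (∀ u ∈ J, u.2 ∈ B → Tw G u.1 x) ∧ (∀ u ∈ J, Tw G u.1 x → u.2 ∈ B) ∧
      (∀ v, Tw G v x → v ∈ J.image Prod.fst) := by
    intro J hJ
    obtain ⟨hJg, hJc, hJY, hJX, hJT, hJk⟩ := (hAd _ _ _).1 hJ
    have e1 : ∀ z ∈ h, z ∈ J := by
      intro z hz
      rw [← hJY, Finset.mem_filter] at hz
      exact hz.1
    have e2 : ∀ u ∈ J, u.1 ∈ Y → u ∈ h := by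
      intro u hu huY
      rw [← hJY, Finset.mem_filter]
      exact ⟨hu, huY⟩
    refine ⟨e1, e2, ?_, ?_, ?_⟩
    · intro u hu huB
      have huY : u.1 ∉ Y := by
        intro huY
        have h1 := (hBm u.2).1 huB u (e2 u hu huY)
        have h2 : x = u.1 := h1.1.2 rfl
        exact hxY (h2 ▸ huY)
      exact htrace u.1 u.2 huB (fun z hz => hJg u hu z (e1 z hz)) huY
    · intro u hu hux
      exact htrans u.1 u.2 hux (fun z hz => hJg u hu z (e1 z hz))
    · intro v hv
      by_cases hvx : v = x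
      · rw [hvx]
        exact hJX hxX
      · apply hJT
        rw [Finset.mem_sdiff]
        exact ⟨Finset.mem_univ _, fun hvT => hvx (hT.2 v hvT x hxT hv)⟩
  have hcard : ∀ J ∈ AdT G T X k Y h, (B \ J.image Prod.snd).card + c.card = B.card := by
    intro J hJ
    obtain ⟨e1, e2, e3, e4, e5⟩ := hfacts J hJ
    have hJg := ((hAd _ _ _).1 hJ).1
    have hc1 : c = (J.filter fun u => Tw G u.1 x).image Prod.fst := by
      ext v
      rw [hcm, Finset.mem_image]
      constructor
      · intro hv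
        obtain ⟨u, hu, huv⟩ := Finset.mem_image.1 (e5 v hv)
        exact ⟨u, Finset.mem_filter.2 ⟨hu, huv ▸ hv⟩, huv⟩
      · rintro ⟨u, hu, rfl⟩
        exact (Finset.mem_filter.1 hu).2
    have hc2 : B ∩ J.image Prod.snd = (J.filter fun u => Tw G u.1 x).image Prod.snd := by
      ext y
      rw [Finset.mem_inter, Finset.mem_image, Finset.mem_image]
      constructor
      · rintro ⟨hyB, u, hu, rfl⟩
        exact ⟨u, Finset.mem_filter.2 ⟨hu, e3 u hu hyB⟩, rfl⟩
      · rintro ⟨u, hu, rfl⟩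
        rw [Finset.mem_filter] at hu
        exact ⟨e4 u hu.1 hu.2, u, hu.1, rfl⟩
    have hc3 : c.card = (B ∩ J.image Prod.snd).card := by
      rw [hc1, hc2, Finset.card_image_of_injOn, Finset.card_image_of_injOn]
      · exact (snd_inj hJg).mono (by
          intro u hu
          simp only [Finset.coe_filter, Set.mem_ofPred_eq] at hu
          exact hu.1)
      · exact (fst_inj hJg).mono (by
          intro u hu
          simp only [Finset.coe_filter, Set.mem_ofPred_eq] at hu
          exact hu.1)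
    rw [hc3]
    exact Finset.card_sdiff_add_card_inter _ _
  have hc1 : 1 ≤ c.card := Finset.card_pos.2 ⟨x, (hcm x).2 (Tw.refl G x)⟩
  obtain ⟨q, hq⟩ : ∃ q, q + c.card = B.card := ⟨_, hcard J₀ hJ₀⟩
  have hqJ : ∀ J ∈ AdT G T X k Y h, (B \ J.image Prod.snd).card = q := by
    intro J hJ
    have := hcard J hJ
    omega
  obtain ⟨B₁, hB₁, hB₁c⟩ := Finset.exists_subset_card_eq (show q + 1 ≤ B.card by omega)
  -- the cover
  have hcover : FT G T X k Y h ⊆
      B₁.biUnion fun y => FT G T X k (insert x Y) (insert (x, y) h) := by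
    intro S hS
    rw [FT, Finset.mem_image] at hS
    obtain ⟨J, hJ, rfl⟩ := hS
    obtain ⟨e1, e2, e3, e4, e5⟩ := hfacts J hJ
    obtain ⟨hJg, hJc, hJY, hJX, hJT, hJk⟩ := (hAd _ _ _).1 hJ
    have hex : ∃ y ∈ B₁, y ∈ J.image Prod.snd := by
      by_contra hcon
      push Not at hcon
      have h1 : B₁ ⊆ B \ J.image Prod.snd := fun y hy =>
        Finset.mem_sdiff.2 ⟨hB₁ hy, hcon y hy⟩
      have h2 := Finset.card_le_card h1
      rw [hB₁c, hqJ J hJ] at h2
      omega
    obtain ⟨y, hy, hyJ⟩ := hex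
    obtain ⟨u, hu, huy⟩ := Finset.mem_image.1 hyJ
    have hux : Tw G u.1 x := e3 u hu (huy ▸ hB₁ hy)
    rw [Finset.mem_biUnion]
    refine ⟨y, hy, ?_⟩
    rw [FT, Finset.mem_image]
    refine ⟨sw x u.1 J, ?_, sw_dom (hJX hxX) (e5 _ hux)⟩
    rw [hAd]
    have hdom := sw_dom (hJX hxX) (e5 _ hux)
    refine ⟨sw_good hux hJg, sw_closed hux hJc, ?_, ?_, ?_, ?_⟩
    · ext z
      rw [Finset.mem_filter, Finset.mem_insert, Finset.mem_insert, mem_sw]
      constructor
      · rintro ⟨hz, hz1 | hz2⟩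
        · left
          rw [hz1, Equiv.swap_apply_left] at hz
          have h1 := (hJg _ hz u hu).1.1 rfl
          exact Prod.ext hz1 (h1.trans huy)
        · right
          have hzx : z.1 ≠ x := fun e => hxY (e ▸ hz2)
          have hzu : z.1 ≠ u.1 := fun e => hcY _ hux (e ▸ hz2)
          rw [Equiv.swap_apply_of_ne_of_ne hzx hzu] at hz
          exact e2 z hz hz2
      · rintro (hz | hz)
        · subst hz
          refine ⟨?_, Or.inl rfl⟩
          show (Equiv.swap x u.1 x, y) ∈ J
          rw [Equiv.swap_apply_left, ← huy]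
          exact hu
        · have hz2 := hzY z hz
          have hzx : z.1 ≠ x := fun e => hxY (e ▸ hz2)
          have hzu : z.1 ≠ u.1 := fun e => hcY _ hux (e ▸ hz2)
          rw [Equiv.swap_apply_of_ne_of_ne hzx hzu]
          exact ⟨e1 z hz, Or.inr hz2⟩
    · rw [hdom]
      exact hJX
    · rw [hdom]
      exact hJT
    · rw [sw_card]
      exact hJk
  -- the induction hypothesis
  have hBU : ∀ y ∈ B, y ∈ UT G Y h := by
    intro y hy
    rw [UT, Finset.mem_filter]
    exact ⟨Finset.mem_univ _, x, fun u hu hux => hcY u hux hu, (hBm y).1 hy⟩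
  have hDB : Disjoint D B := by
    rw [Finset.disjoint_left]
    exact fun y hyD hyB => hD y hyD (hBU y hyB)
  have hone : ∀ y ∈ B₁, 2 ^ (κ + q) *
      (FT G T X k (insert x Y) (insert (x, y) h)).card ≤ 4 ^ k := by
    intro y hy
    refine IH (insert (x, y) h) (by rw [Finset.image_insert, hhY]) (D ∪ B) (κ + q) ?_ ?_
    · intro w hw hwU
      rw [UT, Finset.mem_filter] at hwU
      obtain ⟨-, x', hx', hcx'⟩ := hwU
      have hx'Y : ∀ u ∈ Y, ¬ Tw G u x' := fun u hu => hx' u (Finset.mem_insert_of_mem hu)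
      have hcx'' : ∀ z ∈ h, Cmp G (x', w) z := fun z hz =>
        hcx' z (Finset.mem_insert_of_mem hz)
      rcases Finset.mem_union.1 hw with hwD | hwB
      · apply hD w hwD
        rw [UT, Finset.mem_filter]
        exact ⟨Finset.mem_univ _, x', hx'Y, hcx''⟩
      · have h1 : x' ∉ Y := fun hx'' => hx'Y x' hx'' (Tw.refl G x')
        have h2 := htrace x' w hwB hcx'' h1
        exact hx' x (Finset.mem_insert_self _ _) h2.symm
    · intro J hJ
      have hJ' : J ∈ AdT G T X k Y h := by
        obtain ⟨hJg, hJc, hJY, hJX, hJT, hJk⟩ := (hAd _ _ _).1 hJ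
        rw [hAd]
        refine ⟨hJg, hJc, ?_, hJX, hJT, hJk⟩
        ext z
        rw [Finset.mem_filter]
        constructor
        · rintro ⟨hz, hzY'⟩
          have h1 : z ∈ J.filter (fun u => u.1 ∈ insert x Y) :=
            Finset.mem_filter.2 ⟨hz, Finset.mem_insert_of_mem hzY'⟩
          rw [hJY, Finset.mem_insert] at h1
          rcases h1 with h1 | h1
          · exfalso
            rw [h1] at hzY'
            exact hxY hzY'
          · exact h1
        · intro hz
          have h1 : z ∈ J.filter (fun u => u.1 ∈ insert x Y) := by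
            rw [hJY]
            exact Finset.mem_insert_of_mem hz
          exact ⟨(Finset.mem_filter.1 h1).1, hzY z hz⟩
      have h1 : (D ∪ B) \ J.image Prod.snd = (D \ J.image Prod.snd) ∪ (B \ J.image Prod.snd) :=
        Finset.union_sdiff_distrib _ _ _
      have h2 : Disjoint (D \ J.image Prod.snd) (B \ J.image Prod.snd) :=
        hDB.mono Finset.sdiff_subset Finset.sdiff_subset
      rw [h1, Finset.card_union_of_disjoint h2, hqJ J hJ']
      exact Nat.add_le_add_right (hκ J hJ') q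
  have hsum : (FT G T X k Y h).card ≤
      ∑ y ∈ B₁, (FT G T X k (insert x Y) (insert (x, y) h)).card :=
    (Finset.card_le_card hcover).trans Finset.card_biUnion_le
  have hfin : 2 ^ q * (2 ^ κ * (FT G T X k Y h).card) ≤ 2 ^ q * 4 ^ k := by
    calc 2 ^ q * (2 ^ κ * (FT G T X k Y h).card)
        = 2 ^ (κ + q) * (FT G T X k Y h).card := by rw [pow_add]; ring
      _ ≤ 2 ^ (κ + q) * ∑ y ∈ B₁, (FT G T X k (insert x Y) (insert (x, y) h)).card :=
          Nat.mul_le_mul_left _ hsum
      _ = ∑ y ∈ B₁, 2 ^ (κ + q) * (FT G T X k (insert x Y) (insert (x, y) h)).card :=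
          Finset.mul_sum _ _ _
      _ ≤ ∑ y ∈ B₁, 4 ^ k := Finset.sum_le_sum hone
      _ = B₁.card * 4 ^ k := by rw [Finset.sum_const, smul_eq_mul]
      _ ≤ 2 ^ q * 4 ^ k := by
          apply Nat.mul_le_mul_right
          rw [hB₁c]
          exact Nat.lt_pow_self (by norm_num)
  exact Nat.le_of_mul_le_mul_left hfin (by positivity)

end Pool.Agent.Lib.MP50ecf8.LOC
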