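import Pool.Agent.Lib.MP_50ecf8_co.LOC.STRN

/-!
# Separation linear in `log2 D`, twins and near twins: the chain in `H = G[A]`, main part
-/

set_option autoImplicit false

open Finset
open scoped Classical

namespace Pool.Agent.Lib.MP50ecf8.LOC

/-- the chain of the base -/
theorem fn_base (hCHNY : SpecCHNY) (hNUBN : SpecNUBN)
    {V : Type} [Fintype V] {G : SimpleGraph V} (a : V) (D : ℕ)
    (hD : 2 ≤ D) (hnD : 50000 * Real.logb 2 D ≤ (D : ℝ))
    (hDp : D ≤ Fintype.card V) (hl : 1 ≤ Real.logb 2 D)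
    (X low A : Finset V) {x₁ : V} (hx₁ : x₁ ∈ X) (hcon : (G.induce (X : Set V)).Connected)
    (hdeg : ∀ w ∈ X, deg G w ≤ D)
    (hXc : (X.card : ℝ) ≤ Fintype.card V / (25 * Real.logb 2 D))
    (hlow : (low.card : ℝ) ≤ MM D) (hA : ∀ z ∈ A, z ∉ X → z ∉ low → ∃ w ∈ X, G.Adj z w)
    (hAc : (A.card : ℝ) ≤ Fintype.card V / (200 * Real.logb 2 D)) :
    ∃ c : ℝ, CH G {a} (insert a (X ∪ low ∪ A)) c ∧ 0 ≤ c ∧
      c ≤ (2 : ℝ) ^ ((Fintype.card V : ℝ) * (84 / 1000)) := by
  set L := Real.logb 2 D with hL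
  have hL0 : 0 < L := by linarith
  have hp1 : 1 ≤ Fintype.card V := by omega
  have hp0 : (0 : ℝ) < Fintype.card V := by exact_mod_cast hp1
  obtain ⟨n1, n2, n3, -, n5⟩ := hNUBN (Fintype.card V) D hD hnD hDp
  rw [← hL] at n1 n2
  have hMM0 : 0 < MM D := Real.rpow_pos_of_pos (by norm_num) _
  set Y2 : Finset V := insert x₁ {a} with hY2
  have h12 : ({a} : Finset V) ⊆ Y2 := subset_insert _ _
  have hone : ∀ (Y P : Finset V), P.card ≤ 1 → (((((Y ∪ P) \ Y).card : ℕ)) : ℝ) ≤ 1 := by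
    intro Y P hP
    have h1 : ((Y ∪ P) \ Y).card ≤ P.card := by
      apply card_le_card
      intro w hw
      rw [mem_sdiff, mem_union] at hw
      exact hw.1.resolve_left hw.2
    exact_mod_cast h1.trans hP
  have c1 := CH.paid (G := G) (Z := Y2) (R := 1) (n := Fintype.card V) (CH.base (Y₀ := {a})) h12 hp1
      (fun z _ _ => card_le_univ _) (by
        have h2 := hone {a} {x₁} (by simp)
        have h3 : ({a} : Finset V) ∪ {x₁} = Y2 := by
          ext w; simp [hY2, or_comm]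
        rwa [h3] at h2) one_pos
  obtain ⟨j, hj, hSQ⟩ := hCHNY V G D X Y2 x₁ hcon hx₁ (mem_insert_self _ _) hdeg
  have hR1 : 0 < (Fintype.card V : ℝ) / (25 * L) := by positivity
  have hR2 : 0 < (Fintype.card V : ℝ) / (200 * L) := by positivity
  have c2 := CH.seq c1 hSQ (by omega) (le_trans (by exact_mod_cast hj) hXc) hR1
  have c3 := CH.paid (Z := Y2 ∪ X ∪ low) (R := MM D) (n := Fintype.card V) c2 subset_union_left
    hp1 (fun z _ _ => card_le_univ _) (by
      refine le_trans ?_ hlow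
      have h1 : ((Y2 ∪ X ∪ low) \ (Y2 ∪ X)).card ≤ low.card := by
        apply card_le_card
        intro w hw
        rw [mem_sdiff, mem_union] at hw
        exact hw.1.resolve_left hw.2
      exact_mod_cast h1) hMM0
  have c4 := CH.paid (Z := Y2 ∪ X ∪ low ∪ A) (n := D) c3 subset_union_left (by omega) (by
      intro z hz hz'
      have hzA : z ∈ A := (mem_union.mp hz).resolve_left hz'
      have hzX : z ∉ X := fun h => hz' (mem_union_left _ (mem_union_right _ h))
      have hzl : z ∉ low := fun h => hz' (mem_union_right _ h)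
      obtain ⟨w, hw, hzw⟩ := hA z hzA hzX hzl
      exact fy_tc (mem_union_left _ (mem_union_right _ hw)) hzw (hdeg w hw)) (by
      refine le_trans ?_ hAc
      have h1 : ((Y2 ∪ X ∪ low ∪ A) \ (Y2 ∪ X ∪ low)).card ≤ A.card := by
        apply card_le_card
        intro w hw
        rw [mem_sdiff, mem_union] at hw
        exact hw.1.resolve_left hw.2
      exact_mod_cast h1) hR2
  have hset : Y2 ∪ X ∪ low ∪ A = insert a (X ∪ low ∪ A) := by
    ext w
    simp only [hY2, mem_union, mem_insert, mem_singleton]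
    constructor
    · rintro ((((h | h) | h) | h) | h)
      · rw [h]; exact Or.inr (Or.inl (Or.inl hx₁))
      · exact Or.inl h
      · exact Or.inr (Or.inl (Or.inl h))
      · exact Or.inr (Or.inl (Or.inr h))
      · exact Or.inr (Or.inr h)
    · tauto
  rw [hset] at c4
  have hlogD : 0 ≤ Real.log D := Real.log_nonneg (by exact_mod_cast (by omega : 1 ≤ D))
  refine ⟨_, c4, by positivity, ?_⟩
  set P1 : ℝ := (Fintype.card V : ℝ) * (1 + Fintype.card V / 1) with hP1
  have hP10 : 0 ≤ P1 := by positivity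
  set P2 : ℝ := ((D : ℝ) * (1 + Fintype.card V * (1 + Real.log D) /
    (Fintype.card V / (25 * L)))) ^ ((Fintype.card V : ℝ) / (25 * L)) with hP2
  have hP20 : 0 ≤ P2 := by positivity
  set P4 : ℝ := ((Fintype.card V : ℝ) * (1 + Fintype.card V / MM D)) ^ (MM D) with hP4
  have hP40 : 0 ≤ P4 := by positivity
  set P3 : ℝ := ((D : ℝ) * (1 + (Fintype.card V : ℝ) / (Fintype.card V / (200 * L)))) ^
    ((Fintype.card V : ℝ) / (200 * L)) with hP3
  have hP30 : 0 ≤ P3 := by positivity
  have h7 : (2 : ℝ) ^ ((Fintype.card V : ℝ) * (84 / 1000)) =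
      (2 : ℝ) ^ ((Fintype.card V : ℝ) / 1000) * (2 : ℝ) ^ ((Fintype.card V : ℝ) * (7 / 100)) *
      (2 : ℝ) ^ ((Fintype.card V : ℝ) * (4 / 1000)) *
        (2 : ℝ) ^ ((Fintype.card V : ℝ) * (9 / 1000)) := by
    rw [← Real.rpow_add (by norm_num), ← Real.rpow_add (by norm_num),
      ← Real.rpow_add (by norm_num)]
    congr 1
    ring
  rw [h7, Real.rpow_one, one_mul]
  exact mul_le_mul (mul_le_mul (mul_le_mul n3 n1 hP20 (by positivity)) n5 hP40 (by positivity)) n2
    hP30 (by positivity)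

/-- the chain -/
theorem strN (hITN : SpecITN) (hPHIY : SpecPHIY) (hFSTN : SpecFSTN) (hSTGN : SpecSTGN)
    (hFREN : SpecFREN) (hNETY : SpecNETY) (hPCMX : SpecPCMX) (hCHNY : SpecCHNY)
    (hNUSX : SpecNUSX) (hNUNN : SpecNUNN) (hNUTN : SpecNUTN) (hNUBN : SpecNUBN)
    (hNUPN : SpecNUPN) (hDLB : SpecDLB) (hNST : SpecNST) (hNPOW : SpecNPOW)
    (hCDST : SpecCDST)
    {V : Type} [Fintype V] {G : SimpleGraph V} (a : V) (hp : 2 ≤ Fintype.card V)
    (B C W : Finset V)
    (D : ℕ) (hD : 2 ≤ D) (hDp : D ≤ Fintype.card V) (hWC : W ⊆ C) (hdeg : ∀ w ∈ W, deg G w ≤ D)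
    (hWc : (G.induce (W : Set V)).Connected)
    (hB : (B.card : ℝ) ≤ W.card / (1000 * Real.logb 2 D))
    (hBW : ∀ v ∈ B, v ∉ W → ∃ w ∈ W, G.Adj v w)
    (hnear : GrN G B C W (100000 * Real.logb 2 D)) :
    50000 * Real.logb 2 D ≤ (D : ℝ) ∧ 100000 * Real.logb 2 D ≤ (Fintype.card V : ℝ) ∧
    ∃ (Xc P : Finset V) (c : ℝ), CH G {a} Xc c ∧ 0 ≤ c ∧
      c ≤ (2 : ℝ) ^ ((Fintype.card V : ℝ) * (145 / 1000)) ∧ a ∈ Xc ∧ B ⊆ Xc ∧ P ⊆ W ∧
      (Xc.card : ℝ) ≤ Fintype.card V * (13 / 1000) ∧ (P.card : ℝ) ≤ Fintype.card V / 300 ∧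
      (∀ v ∈ C, v ∉ Xc → ∀ u, u ∉ B → u ≠ v →
        ∃ w ∈ Xc, w ≠ u ∧ w ≠ v ∧ ¬(G.Adj w u ↔ G.Adj w v)) ∧
      ∀ v ∈ C, v ∉ B → ∀ u, u ∉ B → u ≠ v →
        ∃ w ∈ Xc ∪ P, w ≠ u ∧ w ≠ v ∧ ¬(G.Adj w u ↔ G.Adj w v) := by
  have hp' : (2 : ℝ) ≤ Fintype.card V := by exact_mod_cast hp
  have hl : 1 ≤ Real.logb 2 D := fin_logb hD
  set L := Real.logb 2 D with hL
  have hL0 : 0 < L := by linarith
  have ht0 : 0 < 100000 * L := by positivity
  have hqp : (W.card : ℝ) ≤ Fintype.card V := by exact_mod_cast card_le_univ W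
  obtain ⟨w₀, hw₀⟩ : W.Nonempty := by
    obtain ⟨⟨x, hx⟩⟩ := hWc.nonempty
    exact ⟨x, mem_coe.mp hx⟩
  have hq1 : (1 : ℝ) ≤ W.card := by exact_mod_cast card_pos.mpr ⟨w₀, hw₀⟩
  -- two vertices of `W` outside `B`
  have hBq : (B.card : ℝ) ≤ W.card / 1000 := by
    refine hB.trans ?_
    apply div_le_div_of_nonneg_left (by linarith) (by norm_num)
    linarith
  obtain ⟨hnq, hnD⟩ := hDLB V G B C W D hD hDp hWC ⟨w₀, hw₀⟩ hdeg hBq hnear
  rw [← hL] at hnq hnD
  have hnp : 100000 * L ≤ (Fintype.card V : ℝ) := hnq.trans hqp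
  obtain ⟨-, -, -, hMM, -⟩ := hNUBN (Fintype.card V) D hD hnD hDp
  rw [← hL] at hMM
  have hMM0 : 0 < MM D := Real.rpow_pos_of_pos (by norm_num) _
  have hMM1 : 1 ≤ MM D := Real.one_le_rpow (by norm_num) (by positivity)
  have hnr : ∀ v ∈ C, v ∉ B → ((nr G B W v (100000 * L)).card : ℝ) ≤ MM D := fun v hv hvB =>
    fn_gb hnear hv hvB ht0 le_rfl (fun u hu => (mem_filter.mp hu).2)
  obtain ⟨w₁, hw₁, hw₁₀⟩ : ∃ w ∈ W, w ≠ w₀ := by
    have h2 : 1 < W.card := by
      have h4 : (1 : ℝ) < W.card := by linarith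
      exact_mod_cast h4
    exact exists_mem_ne h2 w₀
  have hL15 : 15 ≤ L := by
    have h1 : (50000 : ℝ) ≤ D := by linarith
    rw [hL, Real.le_logb_iff_rpow_le (by norm_num) (by linarith)]
    have h2 : (2 : ℝ) ^ (15 : ℝ) = 32768 := by
      rw [show (15 : ℝ) = ((15 : ℕ) : ℝ) by norm_num, Real.rpow_natCast]; norm_num
    rw [h2]; linarith
  have hpL : 100000 ≤ (Fintype.card V : ℝ) / L := by
    rw [le_div_iff₀ hL0]; exact hnp
  -- the vertex of low degree
  set low : Finset V := univ.filter fun v => v ∈ C ∧ v ∉ B ∧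
    (((W.filter fun w => G.Adj v w).card : ℕ) : ℝ) < 100000 * L / 2 with hlow
  have hlowc : (low.card : ℝ) ≤ MM D := by
    rcases low.eq_empty_or_nonempty with he | ⟨v₀, hv₀⟩
    · rw [he]; simpa using hMM0.le
    · have hv₀' := (mem_filter.mp hv₀).2
      refine le_trans ?_ (hnr v₀ hv₀'.1 hv₀'.2.1)
      have h0 : low ⊆ nr G B W v₀ (100000 * L) := by
        intro v hv
        have hv' := (mem_filter.mp hv).2
        refine mem_filter.mpr ⟨mem_univ _, hv'.2.1, ?_⟩
        have h2 : ((sep G v₀ v ∩ W).card : ℝ) ≤ ((W.filter fun w => G.Adj v₀ w).card : ℝ) +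
          ((W.filter fun w => G.Adj v w).card : ℝ) := by exact_mod_cast fy_sep G W v₀ v
        linarith [hv₀'.2.2, hv'.2.2]
      exact_mod_cast card_le_card h0
  set B' : Finset V := B ∪ low with hB'
  have hB'c : (B'.card : ℝ) ≤ B.card + MM D := by
    have h1 : (B'.card : ℝ) ≤ B.card + low.card := by exact_mod_cast card_union_le B low
    linarith
  have hnr' : ∀ v ∈ C, v ∉ B' → ((nr G B' W v (100000 * L)).card : ℝ) ≤ MM D := by
    intro v hv hvB
    refine le_trans ?_ (hnr v hv (fun h => hvB (mem_union_left _ h)))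
    have h1 : nr G B' W v (100000 * L) ⊆ nr G B W v (100000 * L) := by
      intro u hu
      have hu' := (mem_filter.mp hu).2
      exact mem_filter.mpr ⟨mem_univ _, fun h => hu'.1 (mem_union_left _ h), hu'.2⟩
    exact_mod_cast card_le_card h1
  have hdW : ∀ v ∈ C, v ∉ B' →
      100000 * L / 2 ≤ (((W.filter fun w => G.Adj v w).card : ℕ) : ℝ) := by
    intro v hv hvB
    by_contra h
    rw [not_le] at h
    exact hvB (mem_union_right _ (mem_filter.mpr ⟨mem_univ _, hv,
      fun h' => hvB (mem_union_left _ h'), h⟩))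
  -- the phases
  obtain ⟨s, hs1, hs2⟩ := hNUSX W.card (100000 * L) ht0 hnq
  set m := mm D with hm
  have hmLM : 1000 * L ^ 2 * MM D ≤ (m : ℝ) := by rw [hm, mm, ← hL]; exact Nat.le_ceil _
  have hmL : 1000 * L ^ 2 ≤ (m : ℝ) := by
    refine le_trans ?_ hmLM
    have h1 : (0 : ℝ) ≤ 1000 * L ^ 2 := by positivity
    nlinarith
  have hmMM : MM D ≤ m := by
    refine le_trans ?_ hmLM
    have h1 : (1 : ℝ) ≤ 1000 * L ^ 2 := by nlinarith
    nlinarith
  have hm1 : 1 ≤ m := by
    have h1 : (1 : ℝ) ≤ m := by nlinarith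
    exact_mod_cast h1
  have hm0 : (0 : ℝ) < m := by exact_mod_cast hm1
  have hR0 : 0 < 6 * (Fintype.card V : ℝ) / (100000 * L) := by positivity
  have hs2' : (s : ℝ) ≤ 6 * (Fintype.card V : ℝ) / (100000 * L) :=
    hs2.trans (div_le_div_of_nonneg_right (by linarith) ht0.le)
  obtain ⟨N, hN1, hN2, hN3⟩ := hNUNN (Fintype.card V) D hD hnD hnp
  rw [← hL] at hN1 hN2 hN3
  rw [← hm] at hN2
  obtain ⟨F, Y, hFY, hYW, hPC, hu, hFc, hYc⟩ := hITN V G B' C W B' D m s (100000 * L)
    (6 * (Fintype.card V : ℝ) / (100000 * L)) (MM D) hm1 hdeg hWC (Subset.refl B') ht0 hnq hs1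
    hs2' hR0 hMM0.le hnr' hdW N
  set U : Finset V := EC G B' C Y ∪ BC G B' C Y m with hU
  have hmi' : MM D * Fintype.card V / m ≤ Fintype.card V / (1000 * L ^ 2) := by
    rw [div_le_div_iff₀ hm0 (by positivity)]
    have h1 : (0 : ℝ) ≤ Fintype.card V := Nat.cast_nonneg _
    nlinarith
  have hmi : 4 * (MM D * Fintype.card V / m) ≤ Fintype.card V / L * (4 / 15000) := by
    have h2 : (Fintype.card V : ℝ) / (1000 * L ^ 2) ≤ Fintype.card V / (1000 * (15 * L)) :=
      div_le_div_of_nonneg_left (by positivity) (by positivity) (by nlinarith)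
    have h3 : 4 * ((Fintype.card V : ℝ) / (1000 * (15 * L))) =
        Fintype.card V / L * (4 / 15000) := by
      field_simp; norm_num
    linarith
  have hUc : (U.card : ℝ) ≤ Fintype.card V / L * (8 / 10000) := by
    have h1 : U.card ≤ (EC G B' C Y).card + (BC G B' C Y m).card := card_union_le _ _
    have h2 : (U.card : ℝ) ≤ (EC G B' C Y).card + (BC G B' C Y m).card := by exact_mod_cast h1
    have h3 : (0 : ℝ) ≤ (EC G B' C Y).card := Nat.cast_nonneg _
    have h4 : (Fintype.card V : ℝ) / (2000 * L) = Fintype.card V / L * (1 / 2000) := by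
      field_simp
    rw [h4] at hN1
    linarith
  have hBc' : (B.card : ℝ) ≤ Fintype.card V / L * (1 / 1000) := by
    have h1 : (W.card : ℝ) / (1000 * L) ≤ Fintype.card V / (1000 * L) :=
      div_le_div_of_nonneg_right hqp (by positivity)
    have h2 : (Fintype.card V : ℝ) / (1000 * L) = Fintype.card V / L * (1 / 1000) := by
      field_simp
    linarith
  have hMM' : MM D ≤ Fintype.card V / L * (1 / 600) := by
    have h2 : (Fintype.card V : ℝ) / (600 * L) = Fintype.card V / L * (1 / 600) := by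
      field_simp
    linarith
  have hB'c' : (B'.card : ℝ) ≤ Fintype.card V / L * (27 / 10000) := by
    have h0 : (0 : ℝ) ≤ Fintype.card V / L := by positivity
    linarith
  have hUC : ∀ v ∈ U, v ∈ C ∧ v ∉ B' := by
    intro v hv
    rw [hU, mem_union, EC, BC, mem_filter, mem_filter] at hv
    rcases hv with hv | hv
    · exact ⟨hv.2.1, hv.2.2.1⟩
    · exact ⟨hv.2.1, hv.2.2.1⟩
  -- the connected set
  obtain ⟨N₀, hN₀W, hN₀c, hN₀⟩ := hNETY V G W (100000 * L) ht0
  have hrep : ∀ v : V, ∃ w ∈ W, (v ∈ W → w = v) ∧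
      (v ∉ W → (∃ w' ∈ W, G.Adj v w') → G.Adj v w) := by
    intro v
    by_cases hv : v ∈ W
    · exact ⟨v, hv, fun _ => rfl, fun h => absurd hv h⟩
    · by_cases h : ∃ w' ∈ W, G.Adj v w'
      · obtain ⟨w', hw', h'⟩ := h
        exact ⟨w', hw', fun h => absurd h hv, fun _ _ => h'⟩
      · exact ⟨w₀, hw₀, fun h => absurd h hv, fun _ h' => absurd h' h⟩
  choose rep hrepW hrep1 hrep2 using hrep
  set D₁ : Finset V := insert w₁ (insert w₀ (F ∪ N₀ ∪ (U ∪ B').image rep)) with hD₁
  have hD₁W : D₁ ⊆ W := by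
    intro v hv
    rw [hD₁, mem_insert, mem_insert, mem_union, mem_union, mem_image] at hv
    rcases hv with hv | hv | (hv | hv) | ⟨x, -, hv⟩
    · rw [hv]; exact hw₁
    · rw [hv]; exact hw₀
    · exact hYW (hFY hv)
    · exact hN₀W hv
    · rw [← hv]; exact hrepW x
  have hdom : ∀ v ∈ W, v ∈ D₁ ∨ (∃ w ∈ D₁, G.Adj v w) ∨
      ∃ w ∈ D₁, ∃ z ∈ W, G.Adj v z ∧ G.Adj z w := by
    intro v hv
    have hN : ∀ w ∈ N₀, w ∈ D₁ := fun w hw =>
      mem_insert_of_mem (mem_insert_of_mem (mem_union_left _ (mem_union_right _ hw)))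
    by_cases hvB : v ∈ B'
    · left
      have h1 : rep v ∈ D₁ := mem_insert_of_mem (mem_insert_of_mem (mem_union_right _
        (mem_image_of_mem _ (mem_union_right _ hvB))))
      rwa [hrep1 v hv] at h1
    · rcases hN₀ v hv (hdW v (hWC hv) hvB) with h | ⟨w, hw, h⟩ | ⟨w, hw, z, hz, h⟩
      · exact Or.inl (hN v h)
      · exact Or.inr (Or.inl ⟨w, hN w hw, h⟩)
      · exact Or.inr (Or.inr ⟨w, hN w hw, z, hz, h⟩)
  obtain ⟨X₁, hDX, hXW, hXcon, hXc⟩ := hCDST V G W D₁ hWc ⟨w₁, mem_insert_self _ _⟩ hD₁W hdom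
  have hFX : F ⊆ X₁ := fun w hw =>
    hDX (mem_insert_of_mem (mem_insert_of_mem (mem_union_left _ (mem_union_left _ hw))))
  have hw₁X : w₁ ∈ X₁ := hDX (mem_insert_self _ _)
  have hw₀X : w₀ ∈ X₁ := hDX (mem_insert_of_mem (mem_insert_self _ _))
  have hrepX : ∀ v ∈ U ∪ B', rep v ∈ X₁ := fun v hv =>
    hDX (mem_insert_of_mem (mem_insert_of_mem (mem_union_right _ (mem_image_of_mem _ hv))))
  -- the size of the connected set
  have hX₁c : (X₁.card : ℝ) ≤ Fintype.card V / (25 * L) := by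
    have h1 : D₁.card ≤ F.card + N₀.card + (U.card + B'.card) + 2 := by
      have h2' : D₁.card ≤ (insert w₀ (F ∪ N₀ ∪ (U ∪ B').image rep)).card + 1 :=
        card_insert_le _ _
      have h2 : (insert w₀ (F ∪ N₀ ∪ (U ∪ B').image rep)).card ≤
        (F ∪ N₀ ∪ (U ∪ B').image rep).card + 1 := card_insert_le _ _
      have h3 := card_union_le (F ∪ N₀) ((U ∪ B').image rep)
      have h4 := card_union_le F N₀
      have h5 := card_image_le (s := U ∪ B') (f := rep)
      have h6 := card_union_le U B'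
      omega
    have h2 : X₁.card + 4 ≤ 5 * (F.card + N₀.card + (U.card + B'.card) + 2) := by omega
    have h2' : (X₁.card : ℝ) + 4 ≤ 5 * (F.card + N₀.card + (U.card + B'.card) + 2) := by
      exact_mod_cast h2
    have h3 : (N₀.card : ℝ) ≤ Fintype.card V / L * (2 / 100000) := by
      have h4 : (N₀.card : ℝ) ≤ Fintype.card V / (50000 * L) := by
        rw [le_div_iff₀ (by positivity)]
        linarith
      have h5 : (Fintype.card V : ℝ) / (50000 * L) = Fintype.card V / L * (2 / 100000) := by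
        field_simp; norm_num
      linarith
    have h4 : Phi G B' Y D / m ≤ Fintype.card V / L * (1 / 1000) := by
      have h5 := (hPHIY V G B' W D hdeg).2.1 Y hYW
      rw [← hL] at h5
      have h6 : (Fintype.card V : ℝ) / L * (1 / 1000) = Fintype.card V / (1000 * L) := by
        field_simp
      rw [h6, div_le_div_iff₀ hm0 (by positivity)]
      have h7 : Phi G B' Y D * (1000 * L) ≤ (Fintype.card V * L) * (1000 * L) :=
        mul_le_mul_of_nonneg_right h5 (by positivity)
      have h8 : (Fintype.card V : ℝ) * (1000 * L ^ 2) ≤ Fintype.card V * m :=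
        mul_le_mul_of_nonneg_left hmL (by linarith)
      linarith
    have hsq : (s : ℝ) / W.card ≤ 6 / (100000 * L) := by
      rw [div_le_div_iff₀ (by linarith) ht0]
      rw [le_div_iff₀ ht0] at hs2
      linarith
    have h5 : 36 * (s : ℝ) * Fintype.card V / W.card * (1 - (3 / 4 : ℝ) ^ N) ≤
        Fintype.card V / L * (216 / 100000) := by
      have h6 : (0 : ℝ) ≤ (3 / 4 : ℝ) ^ N := by positivity
      have h7 : (0 : ℝ) ≤ 36 * (s : ℝ) * Fintype.card V / W.card := by positivity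
      have h8 : 36 * (s : ℝ) * Fintype.card V / W.card = 36 * Fintype.card V * (s / W.card) := by
        ring
      have h9 : 36 * Fintype.card V * ((s : ℝ) / W.card) ≤
          36 * Fintype.card V * (6 / (100000 * L)) :=
        mul_le_mul_of_nonneg_left hsq (by positivity)
      have h10 : 36 * (Fintype.card V : ℝ) * (6 / (100000 * L)) =
          Fintype.card V / L * (216 / 100000) := by
        field_simp; norm_num
      nlinarith
    have h6 : 12 * (s : ℝ) * N / W.card * (MM D * Fintype.card V / m) ≤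
        Fintype.card V / L * (1 / 100000) := by
      have h8 : 12 * (s : ℝ) * N / W.card * (MM D * Fintype.card V / m) =
          12 * (N * (MM D * Fintype.card V / m)) * (s / W.card) := by
        ring
      have h8' : (0 : ℝ) ≤ MM D * Fintype.card V / m := by positivity
      have h9 : 12 * ((N : ℝ) * (MM D * Fintype.card V / m)) * (s / W.card) ≤
          12 * (N * (MM D * Fintype.card V / m)) * (6 / (100000 * L)) :=
        mul_le_mul_of_nonneg_left hsq (by positivity)
      have h10 : (N : ℝ) * (6 / (100000 * L)) ≤ 1 / 1000 := by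
        have h11 : (N : ℝ) * (6 * Fintype.card V / (100000 * L)) =
            (N * (6 / (100000 * L))) * Fintype.card V := by ring
        rw [h11] at hN3
        have h12 : (Fintype.card V : ℝ) / 1000 = (1 / 1000) * Fintype.card V := by ring
        rw [h12] at hN3
        exact le_of_mul_le_mul_right hN3 (by linarith)
      have h13 : 12 * ((N : ℝ) * (MM D * Fintype.card V / m)) * (6 / (100000 * L)) =
          (4 * (MM D * Fintype.card V / m)) * (3 * (N * (6 / (100000 * L)))) := by ring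
      have h14 : (4 * (MM D * Fintype.card V / m)) * (3 * (N * (6 / (100000 * L)))) ≤
          (Fintype.card V / L * (4 / 15000)) * (3 * (1 / 1000)) := by
        apply mul_le_mul hmi (by linarith) (by positivity) (by positivity)
      have h15 : (0 : ℝ) ≤ Fintype.card V / L := by positivity
      rw [h8]
      linarith
    have e6 : (Fintype.card V : ℝ) / (25 * L) = (Fintype.card V / L) / 25 := by
      field_simp
    rw [e6]
    linarith
  -- the base
  set X₀ : Finset V := insert a (X₁ ∪ low ∪ (U ∪ B)) with hX₀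
  have haX₀ : a ∈ X₀ := mem_insert_self _ _
  have hX₁X₀ : X₁ ⊆ X₀ := fun w hw => mem_insert_of_mem (mem_union_left _ (mem_union_left _ hw))
  have hUX₀ : U ⊆ X₀ := fun w hw => mem_insert_of_mem (mem_union_right _ (mem_union_left _ hw))
  have hB'X₀ : B' ⊆ X₀ := by
    intro w hw
    rcases mem_union.mp hw with hw | hw
    · exact mem_insert_of_mem (mem_union_right _ (mem_union_right _ hw))
    · exact mem_insert_of_mem (mem_union_left _ (mem_union_right _ hw))
  have hUBc : ((U ∪ B).card : ℝ) ≤ Fintype.card V / L * (18 / 10000) := by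
    have h1 : (U ∪ B).card ≤ U.card + B.card := card_union_le _ _
    have h2 : ((U ∪ B).card : ℝ) ≤ U.card + B.card := by exact_mod_cast h1
    linarith
  obtain ⟨cb, hCb, hcb0, hcb⟩ : ∃ c : ℝ, CH G {a} X₀ c ∧ 0 ≤ c ∧
      c ≤ (2 : ℝ) ^ ((Fintype.card V : ℝ) * (84 / 1000)) := by
    refine fn_base hCHNY hNUBN a D hD hnD hDp hl X₁ low (U ∪ B) hw₀X
      hXcon (fun w hw => hdeg w (hXW hw)) hX₁c hlowc ?_ ?_
    · intro z hz hzX hzl
      have hzUB : z ∈ U ∪ B' := by
        rcases mem_union.mp hz with h | h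
        · exact mem_union_left _ h
        · exact mem_union_right _ (mem_union_left _ h)
      have hzW : z ∉ W := by
        intro h
        apply hzX
        have h1 := hrepX z hzUB
        rwa [hrep1 z h] at h1
      refine ⟨rep z, hrepX z hzUB, hrep2 z hzW ?_⟩
      rcases mem_union.mp hz with h | h
      · obtain ⟨h1, h2⟩ := hUC z h
        have h3 := hdW z h1 h2
        have h4 : (0 : ℝ) < (((W.filter fun w => G.Adj z w).card : ℕ) : ℝ) := by linarith
        have h5 : 0 < (W.filter fun w => G.Adj z w).card := by exact_mod_cast h4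
        obtain ⟨w, hw⟩ := card_pos.mp h5
        exact ⟨w, (mem_filter.mp hw).1, (mem_filter.mp hw).2⟩
      · exact hBW z h hzW
    · refine hUBc.trans ?_
      have e6 : (Fintype.card V : ℝ) / (200 * L) = (Fintype.card V / L) * (1 / 200) := by
        field_simp
      rw [← hL, e6]
      linarith
  -- the last stage
  have hPC' := hPCMX V G (F ∪ B') X₀ (Y ∪ B') _ hPC (union_subset (hFX.trans hX₁X₀) hB'X₀)
  have hcl : ∀ v ∈ C, v ∉ Y ∪ X₀ → (cl G B Y v).card ≤ 3 * m := by
    intro v hvC hv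
    have hvX : v ∉ X₀ := fun h => hv (mem_union_right _ h)
    have hvB : v ∉ B' := fun h => hvX (hB'X₀ h)
    have hvU : v ∉ U := fun h => hvX (hUX₀ h)
    have h1 : ¬ Em G Y v := fun h =>
      hvU (mem_union_left _ (mem_filter.mpr ⟨mem_univ _, hvC, hvB, h⟩))
    have h2 : ¬ 2 * m ≤ (cl G B' Y v).card := fun h =>
      hvU (mem_union_right _ (mem_filter.mpr ⟨mem_univ _, hvC, hvB, h1, h⟩))
    have h3 : (cl G B Y v).card ≤ (cl G B' Y v).card + low.card := by
      refine (card_le_card ?_).trans (card_union_le _ _)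
      intro u hu
      rw [cl, mem_filter] at hu
      rw [mem_union, cl, mem_filter]
      by_cases hul : u ∈ low
      · exact Or.inr hul
      · exact Or.inl ⟨mem_univ _, fun h => (mem_union.mp h).elim hu.2.1 hul, hu.2.2⟩
    have h4 : low.card ≤ m := by
      have h5 : (low.card : ℝ) ≤ m := hlowc.trans hmMM
      exact_mod_cast h5
    omega
  have hBX₀ : B ⊆ X₀ := fun w hw => hB'X₀ (mem_union_left _ hw)
  obtain ⟨s', hs'1, hs'2⟩ := hNUTN (Fintype.card V) W.card D hD hnD hnq (card_le_univ W)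
  rw [← hL, ← hm] at hs'1 hs'2
  obtain ⟨S, hSW, hSc, hSsep⟩ := hFSTN V G B C W Y X₀ (3 * m) s' (100000 * L) ht0 hnq hBX₀ hcl
  have hSc' : (S.card : ℝ) ≤ Fintype.card V / (6000 * Real.sqrt L) := hSc.trans hs'1
  have hsq : 1 ≤ Real.sqrt L := by
    rw [Real.one_le_sqrt]; exact hl
  have hR'0 : 0 < (Fintype.card V : ℝ) / (6000 * Real.sqrt L) := by positivity
  set Xd : Finset V := (Y ∪ B') ∪ X₀ ∪ S with hXdd
  have hPC'' : PC G X₀ Xd ((((((2 * m : ℕ) : ℝ) * (1 + Fintype.card V /
      (6 * (Fintype.card V : ℝ) / (100000 * L)))) ^ (6 * (Fintype.card V : ℝ) / (100000 * L))) ^ N) *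
      (((3 * m : ℕ) : ℝ) * (1 + Fintype.card V / ((Fintype.card V : ℝ) / (6000 * Real.sqrt L)))) ^
        ((Fintype.card V : ℝ) / (6000 * Real.sqrt L))) := by
    refine PC.paid hPC' subset_union_left (by omega) ?_ ?_ hR'0
    · intro z hz hz'
      have hzS : z ∈ S := (mem_union.mp hz).resolve_left hz'
      have hzC : z ∈ C := hWC (hSW hzS)
      have hzYX : z ∉ Y ∪ X₀ := by
        intro h
        rcases mem_union.mp h with h | h
        · exact hz' (mem_union_left _ (mem_union_left _ h))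
        · exact hz' (mem_union_right _ h)
      refine le_trans (card_le_card ?_) (hcl z hzC hzYX)
      intro u hu
      rw [tc, mem_filter] at hu
      rw [cl, mem_filter]
      exact ⟨mem_univ _, fun h => hu.2.1 (mem_union_right _ (hBX₀ h)),
        fun w hw => hu.2.2 w (mem_union_left _ (mem_union_left _ hw))⟩
    · refine le_trans ?_ hSc'
      have h1 : (Xd \ ((Y ∪ B') ∪ X₀)).card ≤ S.card := by
        apply card_le_card
        intro w hw
        rw [mem_sdiff, hXdd, mem_union] at hw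
        exact hw.1.resolve_left hw.2
      exact_mod_cast h1
  have hX₀Xd : X₀ ⊆ Xd := fun w hw => mem_union_left _ (mem_union_right _ hw)
  have hB'Xd : B' ⊆ Xd := hB'X₀.trans hX₀Xd
  have haXd : a ∈ Xd := hX₀Xd haX₀
  have hPrd : PrN G B C W (100000 * L) Xd := by
    intro v hv hvX u hu huv hns
    by_contra hge
    rw [not_lt] at hge
    have h1 : v ∉ Y ∪ X₀ := by
      intro h
      rcases mem_union.mp h with h | h
      · exact hvX (mem_union_left _ (mem_union_left _ (mem_union_left _ h)))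
      · exact hvX (hX₀Xd h)
    obtain ⟨w, hw, hwu, hwv, hadj⟩ := hSsep v hv h1 u hu huv hge
    refine hadj (hns w ?_ hwu hwv)
    rcases mem_union.mp hw with h | h
    · exact mem_union_left _ (mem_union_left _ (mem_union_left _ h))
    · exact mem_union_right _ h
  -- sizes
  have hXdc : (Xd.card : ℝ) ≤ Fintype.card V * (9 / 1000) := by
    have h1 : Xd.card ≤ (Y.card + B'.card) + (((X₁.card + low.card) + (U ∪ B).card) + 1) +
        S.card := by
      have h2 : Xd.card ≤ ((Y ∪ B') ∪ X₀).card + S.card := card_union_le _ _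
      have h3 := card_union_le (Y ∪ B') X₀
      have h4 := card_union_le Y B'
      have h5 : X₀.card ≤ (X₁ ∪ low ∪ (U ∪ B)).card + 1 := card_insert_le _ _
      have h6 := card_union_le (X₁ ∪ low) (U ∪ B)
      have h7 := card_union_le X₁ low
      omega
    have h2 : F.card ≤ X₁.card := card_le_card hFX
    have h3 : Xd.card ≤ ((X₁.card + N * s) + B'.card) + (((X₁.card + low.card) + (U ∪ B).card) + 1) +
        S.card := by omega
    have h4 : (Xd.card : ℝ) ≤ ((X₁.card + N * s) + B'.card) +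
        (((X₁.card + low.card) + (U ∪ B).card) + 1) + S.card := by exact_mod_cast h3
    have h5 : (N : ℝ) * s ≤ Fintype.card V / 1000 :=
      (mul_le_mul_of_nonneg_left hs2' (Nat.cast_nonneg _)).trans hN3
    have h6 : (Fintype.card V : ℝ) / (6000 * Real.sqrt L) ≤ Fintype.card V / 6000 := by
      apply div_le_div_of_nonneg_left (by linarith) (by norm_num)
      linarith
    have h7 : (Fintype.card V : ℝ) / (25 * L) ≤ Fintype.card V / 375 := by
      apply div_le_div_of_nonneg_left (by linarith) (by norm_num)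
      linarith
    have h8 : (Fintype.card V : ℝ) / L ≤ Fintype.card V / 15 := by
      apply div_le_div_of_nonneg_left (by linarith) (by norm_num) hL15
    linarith
  -- the stages
  have hVp : (0 : ℝ) < Fintype.card V := by linarith
  have hWpos : 0 < W.card := card_pos.mpr ⟨w₀, hw₀⟩
  have hCd := ch_pc hCb hPC''
  have hBXd : B ⊆ Xd := fun w hw => hX₀Xd (hBX₀ hw)
  obtain ⟨Xc, c, hXdc, hPrc, hXccard, hCHc, hc0, hcle⟩ := fn_stages hSTGN hNST hNPOW hWC hWpos
    hnear hBXd ht0 hCd (by positivity) hPrd 0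
  have hX₀Xc : X₀ ⊆ Xc := hX₀Xd.trans hXdc
  have haXc : a ∈ Xc := hXdc haXd
  have hstr1 : ∀ v ∈ C, v ∉ Xc → ∀ u, u ∉ B → u ≠ v →
      ∃ w ∈ Xc, w ≠ u ∧ w ≠ v ∧ ¬(G.Adj w u ↔ G.Adj w v) := by
    intro v hv hvX u hu huv
    by_contra hns
    push Not at hns
    have h1 := hPrc v hv hvX u hu huv hns
    have h1' : (sep G v u ∩ W).card < 8000 := by
      have h2 : (sep G v u ∩ W).card < 8000 * 8 ^ 0 := by exact_mod_cast h1
      omega
    have h1r : ((sep G v u ∩ W).card : ℝ) < 8000 := by exact_mod_cast h1'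
    have hvB : v ∉ B := fun h => hvX (hXdc (hBXd h))
    have h2 := hnear v hv hvB (sep G v u ∩ W).card (by linarith)
    have h4 : (2 : ℝ) ≤ ((nw G B W v (sep G v u ∩ W).card).card : ℝ) := by
      have h5 : 1 < (nw G B W v (sep G v u ∩ W).card).card :=
        Finset.one_lt_card.mpr ⟨u, mem_filter.mpr ⟨mem_univ _, hu, le_rfl⟩, v,
          mem_filter.mpr ⟨mem_univ _, hvB, by rw [sepW_self]; simp⟩, huv⟩
      exact_mod_cast h5
    have h6 : ((sep G v u ∩ W).card : ℝ) ^ ((1 : ℝ) / 3) < 20 * 2 ^ 0 := by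
      rw [← fu_third 0]
      exact Real.rpow_lt_rpow (Nat.cast_nonneg _) h1 (by norm_num)
    have h7 : (2 : ℝ) ^ (((sep G v u ∩ W).card : ℝ) ^ ((1 : ℝ) / 3) / 20) < (2 : ℝ) ^ (1 : ℝ) := by
      apply Real.rpow_lt_rpow_of_exponent_lt (by norm_num)
      linarith
    rw [Real.rpow_one] at h7
    linarith
  -- the free stage
  have hX₁Xc : X₁ ⊆ Xc := hX₁X₀.trans hX₀Xc
  have hYXc : Y ⊆ Xc := fun w hw => hXdc (mem_union_left _ (mem_union_left _ (mem_union_left _ hw)))
  have hfil0 : (C.filter fun v => v ∉ B ∧ ¬ ∃ w ∈ Xc, w ∈ W ∧ G.Adj v w) ⊆ low := by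
    intro v hv
    rw [mem_filter] at hv
    obtain ⟨hvC, hvB, hno⟩ := hv
    by_contra hvl
    have hvB' : v ∉ B' := fun h => (mem_union.mp h).elim hvB hvl
    apply hno
    by_cases hE : Em G Y v
    · have hvU : v ∈ U := mem_union_left _ (mem_filter.mpr ⟨mem_univ _, hvC, hvB', hE⟩)
      by_cases hvW : v ∈ W
      · have hvX₁ : v ∈ X₁ := by
          have h1 := hrepX v (mem_union_left _ hvU)
          rwa [hrep1 v hvW] at h1
        have hnt : Nontrivial ((X₁ : Set V) : Type) :=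
          ⟨⟨⟨w₁, mem_coe.mpr hw₁X⟩, ⟨w₀, mem_coe.mpr hw₀X⟩, fun h => hw₁₀ (congrArg Subtype.val h)⟩⟩
        obtain ⟨w, hw⟩ := hXcon.preconnected.exists_adj_of_nontrivial ⟨v, mem_coe.mpr hvX₁⟩
        exact ⟨w.1, hX₁Xc (mem_coe.mp w.2), hXW (mem_coe.mp w.2), hw⟩
      · have h3 := hdW v hvC hvB'
        have h4 : (0 : ℝ) < (((W.filter fun w => G.Adj v w).card : ℕ) : ℝ) := by linarith
        have h5 : 0 < (W.filter fun w => G.Adj v w).card := by exact_mod_cast h4
        obtain ⟨w, hw⟩ := card_pos.mp h5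
        exact ⟨rep v, hX₁Xc (hrepX v (mem_union_left _ hvU)), hrepW v,
          hrep2 v hvW ⟨w, (mem_filter.mp hw).1, (mem_filter.mp hw).2⟩⟩
    · rw [Em] at hE
      push Not at hE
      obtain ⟨w, hw, hwv⟩ := hE
      exact ⟨w, hYXc hw, hYW hw, hwv.symm⟩
  have hfil : ((C.filter fun v => v ∉ B ∧ ¬ ∃ w ∈ Xc, w ∈ W ∧ G.Adj v w).card : ℝ) ≤ MM D :=
    le_trans (by exact_mod_cast card_le_card hfil0) hlowc
  obtain ⟨s'', hs''⟩ := hNUPN (Fintype.card V) W.card D hD hnD hnq (card_le_univ W)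
  rw [← hL] at hs''
  obtain ⟨P, hPW, hPc, hPsep⟩ := hFREN V G B C W Xc D s'' (100000 * L) (MM D) ht0 hnq (by omega)
    hdeg hnear hfil
  refine ⟨hnD, hnp, Xc, P, _, hCHc, by positivity, ?_, haXc, (fun w hw => hX₀Xc (hBX₀ hw)), hPW,
    ?_, hPc.trans hs'', hstr1, hPsep⟩
  · have h2 : Sx 0 = 19 / 432 := by unfold Sx; norm_num
    rw [h2] at hcle
    have h1 : (2 : ℝ) ^ ((Fintype.card V : ℝ) * (84 / 1000 + 1 / 100 + 1 / 500 + 19 / 432)) =
        (2 : ℝ) ^ ((Fintype.card V : ℝ) * (84 / 1000)) *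
        ((2 : ℝ) ^ ((Fintype.card V : ℝ) / 100) * (2 : ℝ) ^ ((Fintype.card V : ℝ) / 500)) *
        (2 : ℝ) ^ ((Fintype.card V : ℝ) * (19 / 432)) := by
      rw [← Real.rpow_add (by norm_num), ← Real.rpow_add (by norm_num),
        ← Real.rpow_add (by norm_num)]
      congr 1
      ring
    have h3 : (2 : ℝ) ^ ((Fintype.card V : ℝ) * (84 / 1000 + 1 / 100 + 1 / 500 + 19 / 432)) ≤
        (2 : ℝ) ^ ((Fintype.card V : ℝ) * (145 / 1000)) := by
      apply Real.rpow_le_rpow_of_exponent_le (by norm_num)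
      apply mul_le_mul_of_nonneg_left _ hVp.le
      norm_num
    refine le_trans ?_ h3
    rw [h1]
    exact mul_le_mul (mul_le_mul hcb (mul_le_mul hN2 hs'2 (by positivity) (by positivity))
      (by positivity) (by positivity)) hcle hc0 (by positivity)
  · have h1 : (Fintype.card V : ℝ) / (288 * 4 ^ 0) = Fintype.card V * (1 / 288) := by
      rw [pow_zero]; ring
    rw [h1] at hXccard
    linarith

end Pool.Agent.Lib.MP50ecf8.LOC
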