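import Pool.Agent.Lib.MP_50ecf8_co.LOC.Spec10
import Pool.Agent.Lib.MP_50ecf8_co.LOC.STRZ
import Pool.Agent.Lib.MP_50ecf8_co.LOC.FINV

/-!
# Separation linear in `log2 D`, twins and near twins: the chain in `H = G[A]`
-/

set_option autoImplicit false

open Finset
open scoped Classical

namespace Pool.Agent.Lib.MP50ecf8.LOC

/-- the growth condition -/
def GrN {V : Type} [Fintype V] (G : SimpleGraph V) (B C W : Finset V) (t : ℝ) : Prop :=
  ∀ v ∈ C, v ∉ B → ∀ r : ℕ, (r : ℝ) < t →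
    ((nw G B W v r).card : ℝ) ≤ (2 : ℝ) ^ ((r : ℝ) ^ ((1 : ℝ) / 3) / 20)

/-- bounds for real thresholds -/
lemma fn_gb {V : Type} [Fintype V] {G : SimpleGraph V} {B C W : Finset V} {t : ℝ}
    (hGr : GrN G B C W t) {v : V} (hv : v ∈ C) (hvB : v ∉ B) {θ : ℝ} (h0 : 0 < θ)
    (hθ : θ ≤ t) {N : Finset V}
    (hN : ∀ u ∈ N, u ∉ B ∧ ((sep G v u ∩ W).card : ℝ) < θ) :
    (N.card : ℝ) ≤ (2 : ℝ) ^ (θ ^ ((1 : ℝ) / 3) / 20) := by
  have hc : 1 ≤ ⌈θ⌉₊ := Nat.ceil_pos.mpr h0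
  have hr : ((⌈θ⌉₊ - 1 : ℕ) : ℝ) < θ := Nat.lt_ceil.mp (by omega)
  have hsub : N ⊆ nw G B W v (⌈θ⌉₊ - 1) := by
    intro u hu
    obtain ⟨h1, h2⟩ := hN u hu
    have h5 : (sep G v u ∩ W).card < ⌈θ⌉₊ := Nat.lt_ceil.mpr h2
    exact mem_filter.mpr ⟨mem_univ _, h1, by omega⟩
  have h1 : (N.card : ℝ) ≤ ((nw G B W v (⌈θ⌉₊ - 1)).card : ℝ) := by
    exact_mod_cast card_le_card hsub
  refine h1.trans ((hGr v hv hvB (⌈θ⌉₊ - 1) (lt_of_lt_of_le hr hθ)).trans ?_)
  have h4 : ((⌈θ⌉₊ - 1 : ℕ) : ℝ) ^ ((1 : ℝ) / 3) ≤ θ ^ ((1 : ℝ) / 3) :=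
    Real.rpow_le_rpow (Nat.cast_nonneg _) hr.le (by norm_num)
  exact Real.rpow_le_rpow_of_exponent_le (by norm_num) (by linarith)

/-- the property of the set `Y` -/
def PrN {V : Type} [Fintype V] (G : SimpleGraph V) (B C W : Finset V) (θ : ℝ) (Y : Finset V) :
    Prop :=
  ∀ v ∈ C, v ∉ Y → ∀ u, u ∉ B → u ≠ v →
    (∀ w ∈ Y, w ≠ u → w ≠ v → (G.Adj w u ↔ G.Adj w v)) → ((sep G v u ∩ W).card : ℝ) < θ

lemma sepW_self {V : Type} [Fintype V] (G : SimpleGraph V) (W : Finset V) (v : V) :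
    sep G v v ∩ W = ∅ := by
  rw [Finset.eq_empty_iff_forall_notMem]
  intro w hw
  rw [mem_inter, sep, mem_filter] at hw
  exact hw.1.2.2.2 Iff.rfl

/-- the stages -/
lemma fn_stages (hSTGN : SpecSTGN) (hNST : SpecNST) (hNPOW : SpecNPOW)
    {V : Type} [Fintype V] {G : SimpleGraph V} {B C W Y₀ X₀ : Finset V} {t c₀ : ℝ}
    (hWC : W ⊆ C) (hWpos : 0 < W.card)
    (hGr : GrN G B C W t) (hBX : B ⊆ X₀) (ht : 0 < t)
    (hC₀ : CH G Y₀ X₀ c₀) (hc₀ : 0 ≤ c₀)
    (hP₀ : PrN G B C W t X₀) (i : ℕ) :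
    ∃ (Y : Finset V) (c : ℝ), X₀ ⊆ Y ∧
      PrN G B C W ((8000 * 8 ^ i : ℕ) : ℝ) Y ∧
      (Y.card : ℝ) ≤ X₀.card + Fintype.card V / (288 * 4 ^ i) ∧
      CH G Y₀ Y (c₀ * c) ∧ 0 ≤ c ∧ c ≤ (2 : ℝ) ^ ((Fintype.card V : ℝ) * Sx i) := by
  have hWp : (0 : ℝ) < W.card := by exact_mod_cast hWpos
  have hVle : W.card ≤ Fintype.card V := card_le_univ W
  have hVpos : 0 < Fintype.card V := by omega
  have hVp : (0 : ℝ) < Fintype.card V := by exact_mod_cast hVpos
  have hWV : (W.card : ℝ) ≤ Fintype.card V := by exact_mod_cast hVle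
  have htriv : ∀ i : ℕ, t ≤ ((8000 * 8 ^ i : ℕ) : ℝ) →
    ∃ (Y : Finset V) (c : ℝ), X₀ ⊆ Y ∧
      PrN G B C W ((8000 * 8 ^ i : ℕ) : ℝ) Y ∧
      (Y.card : ℝ) ≤ X₀.card + Fintype.card V / (288 * 4 ^ i) ∧
      CH G Y₀ Y (c₀ * c) ∧ 0 ≤ c ∧ c ≤ (2 : ℝ) ^ ((Fintype.card V : ℝ) * Sx i) := by
    intro i hi
    refine ⟨X₀, 1, Subset.refl _, ?_, ?_, (by rw [mul_one]; exact hC₀), zero_le_one, ?_⟩
    · intro v hv hvX u huB huv h
      exact lt_of_lt_of_le (hP₀ v hv hvX u huB huv h) hi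
    · have : (0 : ℝ) ≤ Fintype.card V / (288 * 4 ^ i) := by positivity
      linarith
    · exact Real.one_le_rpow (by norm_num) (mul_nonneg (Nat.cast_nonneg _) (Sx_nonneg i))
  have key : ∀ d i : ℕ, t ≤ ((8000 * 8 ^ (i + d) : ℕ) : ℝ) →
    ∃ (Y : Finset V) (c : ℝ), X₀ ⊆ Y ∧
      PrN G B C W ((8000 * 8 ^ i : ℕ) : ℝ) Y ∧
      (Y.card : ℝ) ≤ X₀.card + Fintype.card V / (288 * 4 ^ i) ∧
      CH G Y₀ Y (c₀ * c) ∧ 0 ≤ c ∧ c ≤ (2 : ℝ) ^ ((Fintype.card V : ℝ) * Sx i) := by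
    intro d
    induction d with
    | zero => intro i hi; exact htriv i (by simpa using hi)
    | succ d ih =>
      intro i hi
      by_cases hti : t ≤ ((8000 * 8 ^ i : ℕ) : ℝ)
      · exact htriv i hti
      rw [not_le] at hti
      obtain ⟨Y, c, hX₀Y, hPY, hYc, hRY, hc0, hcY⟩ := ih (i + 1) (by
        have h : i + 1 + d = i + (d + 1) := by ring
        rw [h]; exact hi)
      have hBY : B ⊆ Y := hBX.trans hX₀Y
      have hle4 : (Fintype.card V : ℝ) / (288 * 4 ^ (i + 1)) ≤ Fintype.card V / (288 * 4 ^ i) := by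
        apply div_le_div_of_nonneg_left (Nat.cast_nonneg _) (by positivity)
        have h2 : (4 : ℝ) ^ i ≤ 4 ^ (i + 1) := pow_le_pow_right₀ (by norm_num) (by omega)
        linarith
      -- no stage is needed if `W` is small
      by_cases hqn : W.card < 8000 * 8 ^ i
      · refine ⟨Y, c, hX₀Y, fun v hv hvY u huB huv h => ?_,
          hYc.trans (by linarith), hRY, hc0, hcY.trans ?_⟩
        · have h1 : (sep G v u ∩ W).card < 8000 * 8 ^ i :=
            lt_of_le_of_lt (card_le_card inter_subset_right) hqn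
          exact_mod_cast h1
        · exact Real.rpow_le_rpow_of_exponent_le (by norm_num)
            (mul_le_mul_of_nonneg_left (Sx_succ_le i) (Nat.cast_nonneg _))
      rw [not_lt] at hqn
      -- the threshold
      set θ : ℝ := min (((8000 * 8 ^ (i + 1) : ℕ) : ℝ)) t with hθ
      have hθ0 : 0 < θ := lt_min (by positivity) ht
      have hθτ : θ ≤ t := min_le_right _ _
      have hPθ : ∀ v ∈ C, v ∉ Y → ∀ u, u ∉ B →
          (∀ w ∈ Y, w ≠ u → w ≠ v → (G.Adj w u ↔ G.Adj w v)) →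
          ((sep G v u ∩ W).card : ℝ) < θ := by
        intro v hv hvY u huB h
        by_cases huv : u = v
        · rw [huv, sepW_self]; simpa using hθ0
        · refine lt_min (hPY v hv hvY u huB huv h) ?_
          by_contra hge
          rw [not_lt] at hge
          have h2 := hP₀ v hv (fun h' => hvY (hX₀Y h')) u huB huv
            (fun w hw => h w (hX₀Y hw))
          linarith
      have hpow : (2 : ℝ) ^ (θ ^ ((1 : ℝ) / 3) / 20) ≤ ((2 ^ 2 ^ (i + 1) : ℕ) : ℝ) := by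
        have h2 : θ ^ ((1 : ℝ) / 3) ≤ 20 * 2 ^ (i + 1) := by
          rw [← fu_third (i + 1)]
          exact Real.rpow_le_rpow hθ0.le (min_le_left _ _) (by norm_num)
        have h3 : (2 : ℝ) ^ (θ ^ ((1 : ℝ) / 3) / 20) ≤ (2 : ℝ) ^ (((2 ^ (i + 1) : ℕ) : ℝ)) := by
          apply Real.rpow_le_rpow_of_exponent_le (by norm_num)
          have h2' : (((2 ^ (i + 1) : ℕ) : ℝ)) = 2 ^ (i + 1) := by
            rw [Nat.cast_pow, Nat.cast_ofNat]
          rw [h2']
          linarith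
        rw [Real.rpow_natCast] at h3
        refine h3.trans (le_of_eq ?_)
        rw [Nat.cast_pow, Nat.cast_ofNat]
      have hclT : ∀ v ∈ C, v ∉ Y → (univ.filter fun u => u ∉ B ∧ u ≠ v ∧
          ∀ w ∈ Y, w ≠ u → w ≠ v → (G.Adj w u ↔ G.Adj w v)).card ≤ 2 ^ 2 ^ (i + 1) := by
        intro v hv hvY
        have h1 := (fn_gb hGr hv (fun h => hvY (hBY h)) hθ0 hθτ
          (N := univ.filter fun u => u ∉ B ∧ u ≠ v ∧
          ∀ w ∈ Y, w ≠ u → w ≠ v → (G.Adj w u ↔ G.Adj w v)) (fun u hu => by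
            obtain ⟨-, h2, h3, h4⟩ := mem_filter.mp hu
            exact ⟨h2, hPθ v hv hvY u h2 h4⟩)).trans hpow
        exact_mod_cast h1
      obtain ⟨s, hs⟩ := hNST W.card i hqn
      obtain ⟨S, hSW, hSc, hPS⟩ := hSTGN V G B C W Y (2 ^ 2 ^ (i + 1)) s
        (((8000 * 8 ^ i : ℕ) : ℝ)) (by positivity) (by exact_mod_cast hqn) hclT
      have hSc' : (S.card : ℝ) ≤ Fintype.card V / (384 * 4 ^ i) := by
        refine hSc.trans ?_
        set x : ℝ := ((2 ^ 2 ^ (i + 1) : ℕ) : ℝ) *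
          (1 - ((8000 * 8 ^ i : ℕ) : ℝ) / W.card) ^ s with hx
        have hq1 : ((8000 * 8 ^ i : ℕ) : ℝ) ≤ W.card := by exact_mod_cast hqn
        have hx0 : 0 ≤ x := by
          apply mul_nonneg (Nat.cast_nonneg _)
          apply pow_nonneg
          rw [sub_nonneg, div_le_one hWp]
          exact hq1
        have h1 : (s : ℝ) + W.card * x ≤ W.card / (384 * 4 ^ i) := by
          have e1 : (W.card : ℝ) * ((2 ^ 2 ^ (i + 1) : ℕ) : ℝ) *
              (1 - ((8000 * 8 ^ i : ℕ) : ℝ) / W.card) ^ s = W.card * x := by rw [hx]; ring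
          rw [← e1]; exact hs
        have e2 : (Fintype.card V : ℝ) * ((2 ^ 2 ^ (i + 1) : ℕ) : ℝ) *
              (1 - ((8000 * 8 ^ i : ℕ) : ℝ) / W.card) ^ s = Fintype.card V * x := by rw [hx]; ring
        rw [e2]
        have h2 : ((s : ℝ) + Fintype.card V * x) * W.card ≤
            (Fintype.card V / (384 * 4 ^ i)) * W.card := by
          have h3 : (s : ℝ) * W.card ≤ s * Fintype.card V :=
            mul_le_mul_of_nonneg_left hWV (Nat.cast_nonneg _)
          have h4 : ((s : ℝ) + W.card * x) * Fintype.card V ≤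
              (W.card / (384 * 4 ^ i)) * Fintype.card V :=
            mul_le_mul_of_nonneg_right h1 hVp.le
          have e3 : ((W.card : ℝ) / (384 * 4 ^ i)) * Fintype.card V =
              (Fintype.card V / (384 * 4 ^ i)) * W.card := by ring
          rw [e3] at h4
          nlinarith
        exact le_of_mul_le_mul_right h2 hWp
      have hdiff : ((((Y ∪ S) \ Y).card : ℕ) : ℝ) ≤ S.card := by
        have h1 : ((Y ∪ S) \ Y).card ≤ S.card := by
          apply card_le_card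
          intro w hw
          rw [mem_sdiff, mem_union] at hw
          exact hw.1.resolve_left hw.2
        exact_mod_cast h1
      have hCH := CH.paid (Z := Y ∪ S) (n := 2 ^ 2 ^ (i + 1)) hRY subset_union_left
        Nat.one_le_two_pow (by
          intro z hz hzY
          have hzC : z ∈ C := hWC (hSW ((mem_union.mp hz).resolve_left hzY))
          have h1 := (fn_gb hGr hzC (fun h => hzY (hBY h)) hθ0 hθτ (N := tc G Y z)
            (fun u hu => by
              rw [tc, mem_filter] at hu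
              have huB : u ∉ B := fun h => hu.2.1 (hBY h)
              exact ⟨huB, hPθ z hzC hzY u huB (fun w hw _ _ => hu.2.2 w hw)⟩)).trans hpow
          exact_mod_cast h1) (hdiff.trans hSc') (by positivity)
      refine ⟨Y ∪ S, c * (((2 ^ 2 ^ (i + 1) : ℕ) : ℝ) * (1 + Fintype.card V /
        (Fintype.card V / (384 * 4 ^ i)))) ^ ((Fintype.card V : ℝ) / (384 * 4 ^ i)),
        hX₀Y.trans subset_union_left, ?_, ?_, (by rw [← mul_assoc]; exact hCH), by positivity, ?_⟩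
      · intro v hv hvY u huB huv h
        by_contra hge
        rw [not_lt] at hge
        obtain ⟨w, hw, hwu, hwv, hadj⟩ := hPS v hv (fun h' => hvY (mem_union_left _ h')) u huB huv
          hge
        exact hadj (h w hw hwu hwv)
      · have h1 : (Fintype.card V : ℝ) / (288 * 4 ^ (i + 1)) + Fintype.card V / (384 * 4 ^ i) =
            Fintype.card V / (288 * 4 ^ i) := by
          rw [pow_succ]
          field_simp
          norm_num
        have h2 : ((Y ∪ S).card : ℝ) ≤ Y.card + S.card := by exact_mod_cast card_union_le Y S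
        linarith
      · have h2 := hNPOW (Fintype.card V) i (by omega)
        have h4 : (2 : ℝ) ^ ((Fintype.card V : ℝ) * Sx i) =
            (2 : ℝ) ^ ((Fintype.card V : ℝ) * Sx (i + 1)) *
            (2 : ℝ) ^ ((Fintype.card V : ℝ) * (2 ^ (i + 1) + 9 + 2 * i) / (384 * 4 ^ i)) := by
          rw [← Real.rpow_add (by norm_num), Sx_succ i]
          congr 1
          ring
        rw [h4]
        exact mul_le_mul hcY h2 (by positivity) (by positivity)
  obtain ⟨d, hd⟩ : ∃ d : ℕ, t ≤ ((8000 * 8 ^ (i + d) : ℕ) : ℝ) := by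
    obtain ⟨n, hn⟩ := exists_nat_ge t
    refine ⟨n, hn.trans ?_⟩
    have h1 : n ≤ 8000 * 8 ^ (i + n) := by
      have h2 : n < 8 ^ n := Nat.lt_pow_self (by norm_num)
      have h3 : 8 ^ n ≤ 8 ^ (i + n) := Nat.pow_le_pow_right (by norm_num) (by omega)
      omega
    exact_mod_cast h1
  exact key d i hd

end Pool.Agent.Lib.MP50ecf8.LOC
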