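import Mathlib

/-!
# Locating sets and part 2 of condition (H): definitions and module statements

Everything is classical (`open scoped Classical`), no `DecidableEq V` argument anywhere.
A partial isomorphism is encoded as a finite set `I` of pairs `(x, y)` (`x` is mapped to `y`).
-/

set_option autoImplicit false

open Finset
open scoped Classical

namespace Pool.Agent.Lib.MP50ecf8.LOC

/-- part 2 of condition (H) -/
def H2 {V : Type} (G : SimpleGraph V) (a b : V) : Prop :=
  ∃ τ : {v : V // v ≠ a} ≃ {v : V // v ≠ b},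
    ∀ (i : V) (hi : i ≠ a),
      ∃ θ : G.induce ({i}ᶜ : Set V) ≃g G.induce ({(τ ⟨i, hi⟩ : V)}ᶜ : Set V),
        ∀ x : ({i}ᶜ : Set V), (x : V) = a → (θ x : V) = b

/-- the vertices `w`, different from `u` and `v`, which are adjacent to exactly one of `u`, `v` -/
noncomputable def sep {V : Type} [Fintype V] (G : SimpleGraph V) (u v : V) : Finset V :=
  univ.filter fun w => w ≠ u ∧ w ≠ v ∧ ¬(G.Adj w u ↔ G.Adj w v)

/-- the degree -/
noncomputable def deg {V : Type} [Fintype V] (G : SimpleGraph V) (v : V) : ℕ :=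
  (univ.filter fun w => G.Adj v w).card

/-- distinct vertices outside `X` have distinct traces on `X` -/
def Locating {V : Type} (G : SimpleGraph V) (X : Finset V) : Prop :=
  ∀ u, u ∉ X → ∀ v, v ∉ X → u ≠ v → ∃ w ∈ X, ¬(G.Adj w u ↔ G.Adj w v)

/-- the pairs `u = (x, y)` and `w = (x', y')` are compatible -/
def Cmp {V : Type} (G : SimpleGraph V) (u w : V × V) : Prop :=
  (u.1 = w.1 ↔ u.2 = w.2) ∧ (G.Adj u.1 w.1 ↔ G.Adj u.2 w.2)

/-- `I` is (the graph of) a partial isomorphism -/
def Good {V : Type} (G : SimpleGraph V) (I : Finset (V × V)) : Prop :=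
  ∀ u ∈ I, ∀ w ∈ I, Cmp G u w

/-- the partial isomorphisms with domain `Z` which map `a` to `r` -/
noncomputable def emb {V : Type} [Fintype V] (G : SimpleGraph V) (a r : V) (Z : Finset V) :
    Finset (Finset (V × V)) :=
  univ.filter fun I => Good G I ∧ (a, r) ∈ I ∧ I.image Prod.fst = Z

/-- the signed number of partial isomorphisms which map `a` to `r` and whose domain contains `S` -/
noncomputable def T {V : Type} [Fintype V] (G : SimpleGraph V) (a r : V) (S : Finset V) : ℤ :=
  ∑ I ∈ univ.filter (fun I : Finset (V × V) => Good G I ∧ (a, r) ∈ I ∧ S ⊆ I.image Prod.fst),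
    (-1 : ℤ) ^ I.card

/-- `J` is closed: every pair `u ∉ J` compatible with `J` is in conflict with some pair `w`
compatible with `J` -/
def Closed {V : Type} (G : SimpleGraph V) (J : Finset (V × V)) : Prop :=
  ∀ u, u ∉ J → (∀ z ∈ J, Cmp G u z) → ∃ w, (∀ z ∈ J, Cmp G w z) ∧ ¬ Cmp G u w

/-- KEL (Kelly). Proof: for `r` and `Z` with `(a, r) ∈ I`: the number of `j ≠ r` not in
`I.image Prod.snd` is `p - |Z|` (note `r ∈ I.image Prod.snd`, and `Prod.snd`, `Prod.fst` are injective
on a good set). Double count the pairs `(I, j)`, `I ∈ emb G a r Z`, `j ∉ I.image Prod.snd`.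
For `i ≠ a` extend `θ_i` to `π : V ≃ V` by `π i = τ i`; then `I ↦ I.image (fun u => (u.1, π u.2))` is a
bijection from `{I ∈ emb G a a Z | i ∉ I.image Prod.snd}` to
`{I ∈ emb G a b Z | τ i ∉ I.image Prod.snd}`. So `(p - |Z|) |emb G a a Z| = (p - |Z|) |emb G a b Z|`. -/
def SpecKEL : Prop :=
  ∀ (V : Type) [Fintype V] (G : SimpleGraph V) (a b : V), H2 G a b →
    ∀ Z : Finset V, Z ≠ univ → (emb G a a Z).card = (emb G a b Z).card

/-- INC. Proof: group `T G a r S` by `Z = I.image Prod.fst ⊇ S` (`|I| = |Z|` for good `I`):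
`T G a r S = ∑ Z ⊇ S, (-1)^|Z| |emb G a r Z|`; so `T G a a S - T G a b S = (-1)^p (|emb G a a univ| -
|emb G a b univ|)`, the first number is `≥ 1` (identity), the second is `0` because `I ∈ emb G a b univ`
is an automorphism mapping `a` to `b`. -/
def SpecINC : Prop :=
  ∀ (V : Type) [Fintype V] (G : SimpleGraph V) (a b : V),
    (∀ Z : Finset V, Z ≠ univ → (emb G a a Z).card = (emb G a b Z).card) →
    (¬ ∃ φ : G ≃g G, φ a = b) →
    ∀ S : Finset V, T G a a S ≠ 0 ∨ T G a b S ≠ 0

/-- TOG (toggling). Proof: group `T G a r S` by `J = I.filter (fun u => u.1 ∈ S)`; `J` is good,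
`(a, r) ∈ J`, `J.image Prod.fst = S`. If no such `J` is closed, each group has sum zero: take
`u ∉ J` compatible with all of `J` such that every `w` compatible with all of `J` satisfies `Cmp G u w`;
then `u.1 ∉ S` (otherwise some `u' ∈ J` has `u'.1 = u.1`, so `u'.2 = u.2` and `u ∈ J`), and
`I ↦ I ∪ {u}` / `I \ {u}` is a sign reversing involution without fixed point of the group. -/
def SpecTOG : Prop :=
  ∀ (V : Type) [Fintype V] (G : SimpleGraph V) (a r : V) (S : Finset V), a ∈ S →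
    T G a r S ≠ 0 →
    ∃ J : Finset (V × V), Good G J ∧ (a, r) ∈ J ∧ J.image Prod.fst = S ∧ Closed G J

/-- CNT (the count). `g` is a set of pairs with `g.image Prod.fst = X`. Proof: if there is no such
`J`, done. Fix one, `J₀` (so `g` is good). `Ω = {u | u.1 ∉ X, u compatible with all of g}`. `Prod.snd` is
injective on `Ω` (if `(x, y), (x', y) ∈ Ω`, `x ≠ x'`, take `w ∈ X` with `¬(Adj w x ↔ Adj w x')` and
`(w, w') ∈ g`: `Adj w x ↔ Adj w' y ↔ Adj w x'`) and avoids `g.image Prod.snd` (as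
`u.1 ∉ X`, `Cmp` gives `u.2 ≠ z.2`), and `|g.image Prod.snd| = |g| = |X|`. So `|Ω| ≤ p - |X|`.
`J₀ \ g ⊆ Ω` has `p - k - |X|` elements, so `C = Ω \ J₀` has at most `k` elements. The map
`J ↦ (c ∈ C ↦ [c ∈ J] / [c conflicts with some element of J] / [neither])` is injective on the set of
all `J` of the statement: `J ⊆ g ∪ Ω`, `Ω ⊆ C ∪ J₀`, and for `u ∈ J₀ \ g`: `u ∈ J` iff `u` has no
conflict with an element of `C ∩ J` and no conflict with an element of `C` of type `neither`.
(If `u ∈ J` this is clear. If `u ∉ J`: either `u` is in conflict with some `w ∈ J`, then `w ∉ J₀`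
because `J₀` is good, `w ∉ g`, so `w ∈ C ∩ J`; or `u` is compatible with all of `J`, so by closedness
there is `w`, compatible with all of `J`, in conflict with `u`; `w ∉ J₀`, `w ∉ J`, `w.1 ∉ X` (else
`w ∈ g`), so `w ∈ C` has type `neither`.) -/
def SpecCNT : Prop :=
  ∀ (V : Type) [Fintype V] (G : SimpleGraph V) (X : Finset V), Locating G X →
    ∀ (g : Finset (V × V)) (k : ℕ), g.image Prod.fst = X →
      ((univ : Finset (Finset (V × V))).filter fun J => Good G J ∧ Closed G J ∧
        J.filter (fun u => u.1 ∈ X) = g ∧ J.card + k = Fintype.card V).card ≤ 3 ^ k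

/-- EMB: the number of partial isomorphisms with domain `X`, in terms of embeddings -/
def SpecEMB : Prop :=
  ∀ (V : Type) [Fintype V] (G : SimpleGraph V) (a b : V) (X : Finset V) (ha : a ∈ X), a ≠ b →
    (emb G a a X).card + (emb G a b X).card ≤
      Nat.card {f : G.induce (X : Set V) ↪g G //
        f ⟨a, Finset.mem_coe.mpr ha⟩ = a ∨ f ⟨a, Finset.mem_coe.mpr ha⟩ = b}

/-- NBP: trivial bound for the number of partial isomorphisms with domain `X` and `a ↦ r` -/
def SpecNBP : Prop :=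
  ∀ (V : Type) [Fintype V] (G : SimpleGraph V) (a r : V) (X : Finset V), a ∈ X →
    (emb G a r X).card ≤ Fintype.card V ^ (X.card - 1)

/-- NBD: bound for connected `X` and bounded degree. Proof: induction on the number of vertices of
a connected set, or: order `X` as `a = x₀, x₁, ...` such that every `x_i`, `i ≥ 1`, has an earlier neighbour;
given the images of the earlier vertices there are at most `D` choices for the image of `x_i` (it is a
neighbour of the image of that earlier neighbour). Suggested: the largest `Y`, `a ∈ Y ⊆ X`, with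
`|emb G a r Y| ≤ D ^ (|Y| - 1)`; if `Y ≠ X` connectedness gives an edge `yx` of `G[X]`, `y ∈ Y`,
`x ∈ X \ Y`, and `|emb G a r (insert x Y)| ≤ D |emb G a r Y|`. -/
def SpecNBD : Prop :=
  ∀ (V : Type) [Fintype V] (G : SimpleGraph V) (D : ℕ) (a r : V) (X : Finset V), a ∈ X →
    (G.induce (X : Set V)).Connected → (∀ v, deg G v ≤ D) →
    (emb G a r X).card ≤ D ^ (X.card - 1)

/-- CDS: a dominating set `D₁` of a connected graph is contained in a connected set of size
at most `3 |D₁| - 2`. Proof: by induction on the number of components of `G[X]`: start with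
`X = D₁`; if `G[X]` is not connected (`X ⊇ D₁`), there are two components of `G[X]` which can be
joined by adding at most two vertices: take `x, y ∈ X` in different components of `G[X]` at minimal
distance in `G`; if the distance were `≥ 4`, a middle vertex `z` of a shortest path (at distance `≥ 2`
from both ends) is in `X` or has a neighbour in `X` (domination), giving `z' ∈ X` closer to both `x`
and `y` (distance to each `<` the minimal distance), and `z'` is in a component different from that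
of `x` or of `y`: contradiction. So the distance is `2` or `3` and we add the `≤ 2` inner vertices.
Equivalently: keep a set `F`, `D₁ ⊇ F`, and a connected `Y ⊇ F` with `|Y| ≤ 3 |F| - 2`; if `F ≠ D₁`,
there is an element of `D₁ \ F` at distance `≤ 3` of `Y` (start: `F` a single vertex): take a vertex
`v` at distance exactly `2` of `Y` if there is one (else everything is at distance `≤ 1` of `Y`), it is
dominated by some `d ∈ D₁`; hence `d` is at distance between `1` and `3` of `Y` or `d ∈ Y`;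
`d ∈ Y` is impossible because `v` has distance `2` from `Y`; if `d ∉ Y` then add a shortest path. -/
def SpecCDS : Prop :=
  ∀ (V : Type) [Fintype V] (G : SimpleGraph V), G.Connected →
    ∀ D₁ : Finset V, D₁.Nonempty → (∀ v, v ∈ D₁ ∨ ∃ w ∈ D₁, G.Adj v w) →
    ∃ X : Finset V, D₁ ⊆ X ∧ (G.induce (X : Set V)).Connected ∧ X.card + 2 ≤ 3 * D₁.card

/-- DIS: the disconnected case. Proof: `A`, `B` the vertex sets of the components of `a` and `b`. There
is `i ∉ A` (`G` is not connected); `θ_i : G - i ≅ G - τ i` maps `a` to `b`; `A` is connected in `G - i`,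
so `θ_i(A) ⊆ B`, `|A| ≤ |B|`. There is `j ∉ B`; with `i' = τ⁻¹ j` the inverse of `θ_{i'}` maps `B` into `A`:
`|B| ≤ |A|`. So `θ_i(A) = B`. If `A = B` let `φ = θ_i` on `A`, identity outside; if `A ≠ B`
(disjoint) let `φ = θ_i` on `A`, `θ_i⁻¹` on `B`, identity elsewhere. -/
def SpecDIS : Prop :=
  ∀ (V : Type) [Fintype V] (G : SimpleGraph V) (a b : V), ¬ G.Connected → H2 G a b →
    ∃ φ : G ≃g G, φ a = b

/-- RNP: random locating sets, first form. Proof: if no `s`-tuple `c : Fin s → V` has a locating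
image, each `c` misses `sep G u v` for some pair `u ≠ v`: `p ^ s ≤ p^2 (p - t)^s`. -/
def SpecRNP : Prop :=
  ∀ (V : Type) [Fintype V] (G : SimpleGraph V) (t : ℝ) (s : ℕ), 0 ≤ t →
    (∀ u v, u ≠ v → t ≤ ((sep G u v).card : ℝ)) → 2 ≤ Fintype.card V →
    (Fintype.card V : ℝ) ^ 2 * (1 - t / Fintype.card V) ^ s ≤ 1 →
    ∃ X : Finset V, Locating G X ∧ X.card ≤ s

/-- RNC: random locating sets, second form. Proof: for a tuple `c : Fin s → V` let `B c` be the set of
all `v` such that (a) no `c i` is a neighbour of `v`, or (b) there is `u ≠ v` with a common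
neighbour with `v` such that no `c i` is in `sep G u v`. The set `X = image c ∪ B c` is locating: if
`u ≠ v` are outside `X` and not separated by `X`, then `v` has a neighbour `c i` by (a) of `v`; `c i` is
a neighbour of `u` too; so by (b) for `v` some `c j` is in `sep G u v`: it separates `u` and `v`.
Average of `|B c|` over all `p ^ s` tuples: at most one vertex has degree `< t / 2`
(two such vertices would have `|sep| < t`); for the other vertices `v`
the fraction of tuples with (a) is at most `(1 - t/(2p))^s`; each `v` has at most `D^2` vertices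
`u ≠ v` with a common neighbour, for each of them the fraction of tuples missing `sep G u v` is at most
`(1 - t/p)^s`. -/
def SpecRNC : Prop :=
  ∀ (V : Type) [Fintype V] (G : SimpleGraph V) (D : ℕ) (t : ℝ) (s : ℕ), 0 ≤ t →
    (∀ v, deg G v ≤ D) → (∀ u v, u ≠ v → t ≤ ((sep G u v).card : ℝ)) → 2 ≤ Fintype.card V →
    ∃ X : Finset V, Locating G X ∧
      (X.card : ℝ) ≤ s + 1 + Fintype.card V * (1 - t / (2 * Fintype.card V)) ^ s
        + Fintype.card V * (D : ℝ) ^ 2 * (1 - t / Fintype.card V) ^ s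

/-- NUP: numerical part of the `p`-version. Proof: `ℓ = log2 p ≥ 8.5` by the hypothesis
`5 ℓ^2 + 2 ≤ p = 2^ℓ`, `2 ≤ p`. Take `s = ⌈2 p ln p / t⌉`, `t = 5 ℓ^2`: `(1 - t/p)^s ≤ exp(-ts/p) ≤ p^(-2)`.
`s ≤ 2 ln 2 / 5 * p / ℓ + 1 ≤ 0.2773 p / ℓ + 1`. For `x ≤ s + 1`: `log2 (2 p^(x-1) (m + 1)) ≤ 1 + 0.2773 p + 2 ℓ`,
`m = p - x ≥ p (1 - 0.2773 / ℓ) - 2`, `log2(4/3) ≥ 0.415`, so
`m log2(4/3) ≥ 0.4014 p - 0.83 > 1 + 0.2773 p + 2 ℓ`. -/
def SpecNUP : Prop :=
  ∀ p : ℕ, 2 ≤ p → 5 * Real.logb 2 p ^ 2 + 2 ≤ (p : ℝ) →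
    ∃ s : ℕ, (p : ℝ) ^ 2 * (1 - 5 * Real.logb 2 p ^ 2 / p) ^ s ≤ 1 ∧ s + 1 ≤ p ∧
      ∀ x : ℕ, 1 ≤ x → x ≤ s + 1 →
        2 * p ^ (x - 1) * (p - x + 1) * 3 ^ (p - x) < 4 ^ (p - x)

/-- RNN: numerical part of RND. Proof: `L = log2 D ≥ 10.85` by `16 L^2 ≤ D = 2^L` (`D ≥ 2`), `p ≥ 32 L^2`.
`s = ⌈3 p ln D / t⌉`, `t = 32 L^2`: `s ≤ 3 ln 2 / 32 * p / L + 1 ≤ 0.065 p / L + 1`;
`(1 - t/p)^s ≤ D^(-3)`, `(1 - t/(2p))^s ≤ D^(-3/2) ≤ 1/D`; so the sum is at most
`0.065 p / L + 2 + 2 p / D`, and `2 p / D ≤ p / (8 L^2) ≤ 0.01153 p / L`,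
`1/12 - 0.065 - 0.01153 > 0.0068` and `0.0068 p / L ≥ 0.0068 * 32 L ≥ 2`. -/
def SpecRNN : Prop :=
  ∀ p D : ℕ, 2 ≤ D → 16 * Real.logb 2 D ^ 2 ≤ (D : ℝ) → 32 * Real.logb 2 D ^ 2 ≤ (p : ℝ) →
    ∃ s : ℕ, (s : ℝ) + 1 + p * (1 - 32 * Real.logb 2 D ^ 2 / (2 * p)) ^ s
        + p * (D : ℝ) ^ 2 * (1 - 32 * Real.logb 2 D ^ 2 / p) ^ s ≤ p / (12 * Real.logb 2 D)

/-- NUD: numerical part of the degree version. Proof: `L = log2 D ≥ 10.85`, `p ≥ 32 L^2`; with
`x ≤ p / (4 L) + 4`: `log2 (2 D^(x-1)) ≤ 1 + p / 4 + 3 L`; `m = p - x ≥ p - p/(4L) - 4 ≥ 0.976 p - 4`;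
`log2(4/3) m ≥ 0.405 p - 1.67`; `0.155 p - 2.67 > 3 L + log2 (p + 1)`. -/
def SpecNUD : Prop :=
  ∀ p D x : ℕ, 2 ≤ D → 16 * Real.logb 2 D ^ 2 ≤ (D : ℝ) → 32 * Real.logb 2 D ^ 2 ≤ (p : ℝ) →
    1 ≤ x → x ≤ p → (x : ℝ) ≤ p / (4 * Real.logb 2 D) + 4 →
    2 * D ^ (x - 1) * (p - x + 1) * 3 ^ (p - x) < 4 ^ (p - x)

/-- MAIN (assembly of KEL, INC, TOG, CNT) -/
def SpecMAIN : Prop :=
  ∀ (V : Type) [Fintype V] (G : SimpleGraph V) (a b : V) (X : Finset V), a ∈ X → Locating G X →
    H2 G a b →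
    ((emb G a a X).card + (emb G a b X).card) * (Fintype.card V - X.card + 1)
      * 3 ^ (Fintype.card V - X.card) < 4 ^ (Fintype.card V - X.card) →
    ∃ φ : G ≃g G, φ a = b

end Pool.Agent.Lib.MP50ecf8.LOC
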