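import Pool.Agent.Lib.MP_50ecf8_co.LOC.Spec9

/-!
# Separation linear in `log2 D`, with twins and near twins

`nw G B W v r` is the set of the vertices outside `B` told apart from `v` by at most `r` vertices of `W` (it contains `v`).
`L = log2 D`, `t = 100000 L`, `M = 2 ^ (t ^ (1/3) / 20)`; for `v ∈ C \ B` and `r < t` we assume `|nw v r| ≤ 2 ^ (r ^ (1/3) / 20)`.
-/

set_option autoImplicit false

open Finset
open scoped Classical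

namespace Pool.Agent.Lib.MP50ecf8.LOC

/-- the vertices outside `B` told apart from `v` by at most `r` vertices of `W` -/
noncomputable def nw {V : Type} [Fintype V] (G : SimpleGraph V) (B W : Finset V) (v : V) (r : ℕ) :
    Finset V :=
  univ.filter fun u => u ∉ B ∧ (sep G v u ∩ W).card ≤ r

/-- the vertices outside `B` told apart from `v` by fewer than `t` vertices of `W` -/
noncomputable def nr {V : Type} [Fintype V] (G : SimpleGraph V) (B W : Finset V) (v : V) (t : ℝ) :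
    Finset V :=
  univ.filter fun u => u ∉ B ∧ ((sep G v u ∩ W).card : ℝ) < t

/-- the bound for the number of near twins -/
noncomputable def MM (D : ℕ) : ℝ := (2 : ℝ) ^ ((100000 * Real.logb 2 D) ^ ((1 : ℝ) / 3) / 20)

/-- the size of a big class -/
noncomputable def mm (D : ℕ) : ℕ := ⌈1000 * Real.logb 2 D ^ 2 * MM D⌉₊

/-- ISON: as ISOY, with near twins: exceptional vertices `v`, `v'` of one class satisfy `sep G v v' ∩ W ⊆ iso v ∪ iso v'`, fewer than `t`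
elements, so `v' ∈ nr v t`; at most `M` exceptional vertices in each class. Double count the pairs `(v, x)`, `v` exceptional, `x ∈ cl v`: at
least `2 m` for each `v`, at most `M` for each `x`. -/
def SpecISON : Prop :=
  ∀ (V : Type) [Fintype V] (G : SimpleGraph V) (B C W Y : Finset V) (m : ℕ) (t M : ℝ),
    StW G B W Y m → 0 ≤ M → (∀ v ∈ C, v ∉ B → ((nr G B W v t).card : ℝ) ≤ M) →
    2 * m * (((BC G B C Y m).filter fun v => ((iso G B W Y m v).card : ℝ) < t / 2).card : ℝ) ≤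
      M * Fintype.card V

/-- PHSN (from ISON): as PHSY, with `e = M p / (2 m)` -/
def SpecPHSN : Prop :=
  ∀ (V : Type) [Fintype V] (G : SimpleGraph V) (B C W Y : Finset V) (m s : ℕ) (t M : ℝ), 1 ≤ m →
    0 < t → t ≤ W.card → (1 - t / (2 * W.card)) ^ s ≤ 1 / 8 → StW G B W Y m → 0 ≤ M →
    (∀ v ∈ C, v ∉ B → ((nr G B W v t).card : ℝ) ≤ M) →
    (∀ v ∈ C, v ∉ B → t / 2 ≤ (((W.filter fun w => G.Adj v w).card : ℕ) : ℝ)) →
    ∃ S : Finset V, S ⊆ W ∧ S.card ≤ s ∧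
      (((S ∩ (EC G B C Y ∪ BC G B C Y m)).card : ℕ) : ℝ) ≤
        3 * s * (3 * (EC G B C Y).card + (BC G B C Y m).card) / W.card ∧
      (3 * (EC G B C (Y ∪ S)).card + (BC G B C (Y ∪ S) m).card : ℝ) ≤
        3 / 4 * (3 * (EC G B C Y).card + (BC G B C Y m).card) + M * Fintype.card V / m

/-- ITN (from PHIY, SPLY, PHSN, PCMX): as ITY -/
def SpecITN : Prop :=
  ∀ (V : Type) [Fintype V] (G : SimpleGraph V) (B C W B₀ : Finset V) (D m s : ℕ) (t R M : ℝ),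
    1 ≤ m → (∀ w ∈ W, deg G w ≤ D) → W ⊆ C → B ⊆ B₀ → 0 < t → t ≤ W.card →
    (1 - t / (2 * W.card)) ^ s ≤ 1 / 8 → (s : ℝ) ≤ R → 0 < R → 0 ≤ M →
    (∀ v ∈ C, v ∉ B → ((nr G B W v t).card : ℝ) ≤ M) →
    (∀ v ∈ C, v ∉ B → t / 2 ≤ (((W.filter fun w => G.Adj v w).card : ℕ) : ℝ)) →
    ∀ N : ℕ, ∃ F Y : Finset V, F ⊆ Y ∧ Y ⊆ W ∧
      PC G (F ∪ B₀) (Y ∪ B₀)
        (((((2 * m : ℕ) : ℝ) * (1 + Fintype.card V / R)) ^ R) ^ N) ∧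
      (3 * (EC G B C Y).card + (BC G B C Y m).card : ℝ) ≤
        3 * Fintype.card V * (3 / 4 : ℝ) ^ N + 4 * (M * Fintype.card V / m) ∧
      (F.card : ℝ) ≤ 36 * s * Fintype.card V / W.card * (1 - (3 / 4 : ℝ) ^ N) +
        12 * s * N / W.card * (M * Fintype.card V / m) + Phi G B Y D / m ∧
      Y.card ≤ F.card + N * s

/-- FSTN: as FSTT, for the pairs with at least `t` separating vertices only (same proof) -/
def SpecFSTN : Prop :=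
  ∀ (V : Type) [Fintype V] (G : SimpleGraph V) (B C W Y B₀ : Finset V) (n s : ℕ) (t : ℝ), 0 < t →
    t ≤ W.card → B ⊆ B₀ → (∀ v ∈ C, v ∉ Y ∪ B₀ → (cl G B Y v).card ≤ n) →
    ∃ S : Finset V, S ⊆ W ∧
      (S.card : ℝ) ≤ s + 2 * Fintype.card V * n * (1 - t / W.card) ^ s ∧
      ∀ v ∈ C, v ∉ Y ∪ B₀ → ∀ u, u ∉ B → u ≠ v → t ≤ (((sep G v u) ∩ W).card : ℝ) →
        ∃ w ∈ Y ∪ S, w ≠ u ∧ w ≠ v ∧ ¬(G.Adj w u ↔ G.Adj w v)

/-- STGN: one stage (adapt FSTY or STGT). For a tuple `c : Fin s → W` consider the pairs `(v, u)`, `v ∈ C`, `v ∉ Y`, `u ∉ B`, `u ≠ v`, not strictly told apart by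
`Y`, with `t ≤ |sep G v u ∩ W|` and no `c i` in `sep G v u`; on average at most `p n (1 - t / |W|) ^ s`. -/
def SpecSTGN : Prop :=
  ∀ (V : Type) [Fintype V] (G : SimpleGraph V) (B C W Y : Finset V) (n s : ℕ) (t : ℝ), 0 < t →
    t ≤ W.card →
    (∀ v ∈ C, v ∉ Y → (univ.filter fun u => u ∉ B ∧ u ≠ v ∧
      ∀ w ∈ Y, w ≠ u → w ≠ v → (G.Adj w u ↔ G.Adj w v)).card ≤ n) →
    ∃ S : Finset V, S ⊆ W ∧ (S.card : ℝ) ≤ s + Fintype.card V * n * (1 - t / W.card) ^ s ∧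
      ∀ v ∈ C, v ∉ Y → ∀ u, u ∉ B → u ≠ v → t ≤ (((sep G v u) ∩ W).card : ℝ) →
        ∃ w ∈ Y ∪ S, w ≠ u ∧ w ≠ v ∧ ¬(G.Adj w u ↔ G.Adj w v)

/-- FREN: a random set which tells everything apart (adapt FREE). Far pairs (`t ≤ |sep G v u ∩ W|`) not strictly told apart by `Y`: at most `D + 1 ≤ 2 D` for each `v`
with a neighbour in `Y ∩ W`, at most `p` for each of the at most `M` others. Near pairs: for `r < 8000` and `r < t` we have `nw v r = {v}` (`< 2` elements), so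
`u ≠ v` has `8000 ≤ r = |sep G v u ∩ W| < t`; for each such `r` at most `2 ^ (r ^ (1/3) / 20)` vertices `u`. A pair with `r` separating vertices is missed by a
fraction `(1 - r / |W|) ^ s` of the tuples. -/
def SpecFREN : Prop :=
  ∀ (V : Type) [Fintype V] (G : SimpleGraph V) (B C W Y : Finset V) (D s : ℕ) (t M : ℝ), 0 < t →
    t ≤ W.card → 1 ≤ D → (∀ w ∈ W, deg G w ≤ D) →
    (∀ v ∈ C, v ∉ B → ∀ r : ℕ, (r : ℝ) < t →
      ((nw G B W v r).card : ℝ) ≤ (2 : ℝ) ^ ((r : ℝ) ^ ((1 : ℝ) / 3) / 20)) →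
    ((C.filter fun v => v ∉ B ∧ ¬ ∃ w ∈ Y, w ∈ W ∧ G.Adj v w).card : ℝ) ≤ M →
    ∃ P : Finset V, P ⊆ W ∧
      (P.card : ℝ) ≤ s + (2 * Fintype.card V * D + M * Fintype.card V) * (1 - t / W.card) ^ s +
        Fintype.card V * ∑ r ∈ Ico 8000 ⌈t⌉₊,
          (2 : ℝ) ^ ((r : ℝ) ^ ((1 : ℝ) / 3) / 20) * (1 - r / W.card) ^ s ∧
      ∀ v ∈ C, v ∉ B → ∀ u, u ∉ B → u ≠ v →
        ∃ w ∈ Y ∪ P, w ≠ u ∧ w ≠ v ∧ ¬(G.Adj w u ↔ G.Adj w v)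

/-- NUNN: numerical, as NUNY with `mm D`: `1 ≤ MM D`, `2 mm D ≤ 2001 L^2 MM D`, `log2 (MM D) = 2.3209 L ^ (1/3)`.
`(32 + 5/2 l)(25.1 + 3 l + 2.33 L^(1/3)) * 6 ≤ 1000 L` for `L ≥ 16`, `l = log2 L`. -/
def SpecNUNN : Prop :=
  ∀ (p D : ℕ), 2 ≤ D → 50000 * Real.logb 2 D ≤ (D : ℝ) → 100000 * Real.logb 2 D ≤ (p : ℝ) →
    ∃ N : ℕ, 3 * (p : ℝ) * (3 / 4 : ℝ) ^ N ≤ p / (2000 * Real.logb 2 D) ∧
      (((((2 * mm D : ℕ) : ℝ) *
        (1 + (p : ℝ) / (6 * p / (100000 * Real.logb 2 D)))) ^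
          (6 * (p : ℝ) / (100000 * Real.logb 2 D))) ^ N) ≤ (2 : ℝ) ^ ((p : ℝ) / 100) ∧
      (N : ℝ) * (6 * p / (100000 * Real.logb 2 D)) ≤ p / 1000

/-- NUTN: numerical, as NUTZ with `3 mm D ≤ 3001 L^2 MM D`: `s = ⌈q (17 + 3 ln L + 1.61 L^(1/3)) / (10^5 L)⌉`, `ln (MM D) ≤ 1.61 L^(1/3)`, the second term
is at most `p 6002 e^(-17) / L ≤ 25 p / (10^5 L)`; `44 + 3 ln L + 1.61 L^(1/3) ≤ 16.6 sqrt L` for `L ≥ 16`.
Price: `log2 (3 mm D (1 + 6000 sqrt L)) ≤ 24.2 + 5/2 l + 2.33 L^(1/3) ≤ 12 sqrt L`. -/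
def SpecNUTN : Prop :=
  ∀ (p q D : ℕ), 2 ≤ D → 50000 * Real.logb 2 D ≤ (D : ℝ) → 100000 * Real.logb 2 D ≤ (q : ℝ) →
    q ≤ p →
    ∃ s : ℕ, (s : ℝ) + 2 * p * ((3 * mm D : ℕ) : ℝ) *
        (1 - 100000 * Real.logb 2 D / q) ^ s ≤ p / (6000 * Real.sqrt (Real.logb 2 D)) ∧
      (((3 * mm D : ℕ) : ℝ) *
        (1 + (p : ℝ) / (p / (6000 * Real.sqrt (Real.logb 2 D))))) ^
          ((p : ℝ) / (6000 * Real.sqrt (Real.logb 2 D))) ≤ (2 : ℝ) ^ ((p : ℝ) / 500)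

/-- NUBN: numerical, the price of the base. `D ≥ 50000 L` gives `L ≥ 19.9` (`L ≥ 19` suffices). First: `log2 ≤ p / (25 L) (L + log2 (1 + 25 L (1 + 0.6932 L))) ≤ p (0.04 + 0.027)`. Second:
`p / (200 L) (L + log2 (1 + 200 L)) ≤ 0.009 p`. Third: `≤ 2 log2 p + 1 ≤ p / 1000`. Fourth (`D ≤ p`): `MM D ≤ p / (600 L)`, as `L - 2.3209 L^(1/3) - log2 (600 L) ≥ 0` for
`L ≥ 19.9` (here `2^L = D ≥ 50000 L` is needed: `p / (MM D * L) ≥ D / (MM D * L)`; for `L < 20`: `50000 / MM D ≥ 50000 / 78.8 ≥ 600`). Fifth: `log2 ≤ MM D (2 log2 p + 1)`,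
`2 log2 p + 1 ≤ (2 L + 1) p / D` (`log2 p / p` decreases, `D ≤ p`), so `≤ p (2 L + 1) MM D / D ≤ p (2 L + 1) / (600 L) ≤ 0.0035 p`. -/
def SpecNUBN : Prop :=
  ∀ (p D : ℕ), 2 ≤ D → 50000 * Real.logb 2 D ≤ (D : ℝ) → D ≤ p →
    ((D : ℝ) * (1 + p * (1 + Real.log D) / (p / (25 * Real.logb 2 D)))) ^
        ((p : ℝ) / (25 * Real.logb 2 D)) ≤ (2 : ℝ) ^ ((p : ℝ) * (7 / 100)) ∧
      ((D : ℝ) * (1 + (p : ℝ) / (p / (200 * Real.logb 2 D)))) ^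
        ((p : ℝ) / (200 * Real.logb 2 D)) ≤ (2 : ℝ) ^ ((p : ℝ) * (9 / 1000)) ∧
      (p : ℝ) * (1 + p / 1) ≤ (2 : ℝ) ^ ((p : ℝ) / 1000) ∧
      MM D ≤ p / (600 * Real.logb 2 D) ∧
      ((p : ℝ) * (1 + p / MM D)) ^ (MM D) ≤ (2 : ℝ) ^ ((p : ℝ) * (4 / 1000))

/-- NUPN: numerical. `s = ⌈q / 400⌉`; `(1 - r / q) ^ s ≤ e^(-r / 400)`; `r ^ (1/3) / 20 ≤ 1 + (r - 8000) / 24000` (concavity), so the sum is at most
`2 e^(-20) ∑_{j ≥ 0} e^(-j (1/400 - 1/34000)) ≤ 0.00001`; `(2 D + MM D) e^(-250 L) ≤ 0.0001` (`MM D ≤ 2^L = D`). -/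
def SpecNUPN : Prop :=
  ∀ (p q D : ℕ), 2 ≤ D → 50000 * Real.logb 2 D ≤ (D : ℝ) → 100000 * Real.logb 2 D ≤ (q : ℝ) →
    q ≤ p →
    ∃ s : ℕ, (s : ℝ) + (2 * p * D + MM D * p) * (1 - 100000 * Real.logb 2 D / q) ^ s +
        p * ∑ r ∈ Ico 8000 ⌈100000 * Real.logb 2 D⌉₊,
          (2 : ℝ) ^ ((r : ℝ) ^ ((1 : ℝ) / 3) / 20) * (1 - r / q) ^ s ≤ p / 300

/-- NUFN: numerical. `log2 (5/4) ≥ 0.3219`, `0.48 * 0.3219 p = 0.1545 p`. -/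
def SpecNUFN : Prop :=
  ∀ p D m : ℕ, 2 ≤ D → 50000 * Real.logb 2 D ≤ (D : ℝ) → 100000 * Real.logb 2 D ≤ (p : ℝ) →
    m ≤ p → 48 * p ≤ 100 * m →
    2 * (2 : ℝ) ^ ((p : ℝ) * (145 / 1000)) * (m + 1) * 4 ^ m < 5 ^ m

/-- NUMN: numerical. `L = log2 D ≤ log2 p`, `MM D ≤ 2 ^ (2.3209 (log2 p) ^ (1/3))`, `log2 p ≥ 12.9`. -/
def SpecNUMN : Prop :=
  ∀ p D : ℕ, 2 ≤ D → D ≤ p → 8000 ≤ p → MM D < (p : ℝ) / 4

/-- DLB (from NUMN): lower bounds for `|W|` and `D`. `nr G B W v t = nw G B W v (⌈t⌉₊ - 1)` has at most `MM D` elements for `v ∈ C \ B`. There is `v₀ ∈ W \ B`. If `p < 8000`, then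
`nw v₀ p` contains all (at least two) vertices outside `B`, but has fewer than `2` elements. So `p ≥ 8000`, `MM D < p / 4 < |V \ B|`, and some `u ∉ B` has `t ≤ |sep G v₀ u ∩ W|`: `|W| ≥ t`.
If some `v ∈ W \ B` has at least `t / 2` neighbours in `W`, then `t / 2 ≤ D`. Otherwise `W \ B ⊆ nr v₀ t` (two such vertices have fewer than `t` separating vertices in `W`), so
`|W| ≤ MM D + |W| / 1000`, `|W| ≤ p / 3`; the at least `p - |B| - MM D ≥ p / 3` vertices `u ∉ B`, `u ∉ nr v₀ t`, have more than `t / 2` neighbours in `W` each; count the edges: `|W| D ≥ (p / 3) (t / 2)`. -/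
def SpecDLB : Prop :=
  ∀ (V : Type) [Fintype V] (G : SimpleGraph V) (B C W : Finset V) (D : ℕ), 2 ≤ D →
    D ≤ Fintype.card V → W ⊆ C → W.Nonempty → (∀ w ∈ W, deg G w ≤ D) →
    (B.card : ℝ) ≤ W.card / 1000 →
    (∀ v ∈ C, v ∉ B → ∀ r : ℕ, (r : ℝ) < 100000 * Real.logb 2 D →
      ((nw G B W v r).card : ℝ) ≤ (2 : ℝ) ^ ((r : ℝ) ^ ((1 : ℝ) / 3) / 20)) →
    100000 * Real.logb 2 D ≤ (W.card : ℝ) ∧ 50000 * Real.logb 2 D ≤ (D : ℝ)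

end Pool.Agent.Lib.MP50ecf8.LOC
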