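import Pool.Agent.Lib.MP_50ecf8_co.LOC.Spec

/-!
# Versions with a set `B` of exceptional vertices
-/

set_option autoImplicit false

open Finset
open scoped Classical

namespace Pool.Agent.Lib.MP50ecf8.LOC

/-- RNP with exceptional vertices: same proof, `X = B ∪ image of the tuple` -/
def SpecRNPB : Prop :=
  ∀ (V : Type) [Fintype V] (G : SimpleGraph V) (B : Finset V) (t : ℝ) (s : ℕ), 0 ≤ t →
    (∀ u v, u ∉ B → v ∉ B → u ≠ v → t ≤ ((sep G u v).card : ℝ)) →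
    (∃ u v, u ∉ B ∧ v ∉ B ∧ u ≠ v) →
    (Fintype.card V : ℝ) ^ 2 * (1 - t / Fintype.card V) ^ s ≤ 1 →
    ∃ X : Finset V, Locating G X ∧ X.card ≤ s + B.card

/-- RNC with exceptional vertices: same proof, `X = B ∪ image ∪ bad` -/
def SpecRNCB : Prop :=
  ∀ (V : Type) [Fintype V] (G : SimpleGraph V) (B : Finset V) (D : ℕ) (t : ℝ) (s : ℕ), 0 ≤ t →
    (∀ v, deg G v ≤ D) →
    (∀ u v, u ∉ B → v ∉ B → u ≠ v → t ≤ ((sep G u v).card : ℝ)) →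
    (∃ u v, u ∉ B ∧ v ∉ B ∧ u ≠ v) →
    ∃ X : Finset V, Locating G X ∧
      (X.card : ℝ) ≤ B.card + (s + 1 + Fintype.card V * (1 - t / (2 * Fintype.card V)) ^ s
        + Fintype.card V * (D : ℝ) ^ 2 * (1 - t / Fintype.card V) ^ s)

/-- NUP with exceptional vertices. Proof: `ℓ = log2 p ≥ 8.8`; `s = ⌈2 p ln p / t⌉ ≤ 0.23105 p / ℓ + 1`,
`t = 6 ℓ^2`; `x - 1 ≤ (0.33105) p / ℓ + 1`; `log2 (2 p^(x-1) (m+1)) ≤ 1 + 0.33105 p + 2 ℓ`;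
`m ≥ p (1 - 0.33105 / ℓ) - 2 ≥ 0.9623 p - 2`, `0.415 m ≥ 0.3993 p - 0.83`; `0.0682 p > 2 ℓ + 1.83` for `p ≥ 460`. -/
def SpecNUPB : Prop :=
  ∀ p : ℕ, 2 ≤ p → 6 * Real.logb 2 p ^ 2 + 2 ≤ (p : ℝ) →
    ∃ s : ℕ, (p : ℝ) ^ 2 * (1 - 6 * Real.logb 2 p ^ 2 / p) ^ s ≤ 1 ∧
      ∀ x : ℕ, 1 ≤ x → x ≤ p → (x : ℝ) ≤ s + 1 + p / (10 * Real.logb 2 p) →
        2 * p ^ (x - 1) * (p - x + 1) * 3 ^ (p - x) < 4 ^ (p - x)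

/-- NUD with exceptional vertices: `x ≤ 13 p / (40 L) + 4`, `L = log2 D ≥ 10.85`, `p ≥ 32 L^2`.
`log2 (2 D^(x-1)) ≤ 1 + 0.325 p + 3 L`; `m ≥ 0.97 p - 4`; `0.415 m ≥ 0.4025 p - 1.67`;
`0.0775 p - 2.67 > 3 L + log2 (p + 1)`. -/
def SpecNUDB : Prop :=
  ∀ p D x : ℕ, 2 ≤ D → 16 * Real.logb 2 D ^ 2 ≤ (D : ℝ) → 32 * Real.logb 2 D ^ 2 ≤ (p : ℝ) →
    1 ≤ x → x ≤ p → (x : ℝ) ≤ 13 * p / (40 * Real.logb 2 D) + 4 →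
    2 * D ^ (x - 1) * (p - x + 1) * 3 ^ (p - x) < 4 ^ (p - x)

end Pool.Agent.Lib.MP50ecf8.LOC
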