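import Pool.Agent.Lib.MP_50ecf8_co.LOC.Spec

/-!
# Sequential location, a core of well separated vertices, graphs without 4-cycles

The improvement over `Spec.lean`: the vertices of the locating set `X` may be located one after the
other, starting from a seed `X₀`; only the embeddings of the seed are counted.
-/

set_option autoImplicit false

open Finset
open scoped Classical

namespace Pool.Agent.Lib.MP50ecf8.LOC

/-- `x` is located by `Y`: every other vertex outside `Y` is told apart from `x` by a vertex of `Y` -/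
def Uniq {V : Type} (G : SimpleGraph V) (Y : Finset V) (x : V) : Prop :=
  ∀ u, u ∉ Y → u ≠ x → ∃ w ∈ Y, ¬(G.Adj w u ↔ G.Adj w x)

/-- `X` is obtained from `X₀` by adding, one after the other, vertices located by what is there -/
inductive Reach {V : Type} (G : SimpleGraph V) (X₀ : Finset V) : Finset V → Prop
  | base : Reach G X₀ X₀
  | step {Y : Finset V} {x : V} : Reach G X₀ Y → x ∉ Y → Uniq G Y x → Reach G X₀ (insert x Y)

/-- CNTS: the count, sequential form. Proof: for a set `h` of pairs with `h.image Prod.fst = Y` let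
`U h = {y | y ∉ h.image Prod.snd, ∃ x ∉ Y, (x, y) compatible with h}` and `waste h = p - |Y| - |U h|`.
Claim for all `Y` between `X₀` and `X`: `3 ^ waste h * #F h ≤ 3 ^ k`, `F h` the set of closed good `J` with
`J.filter (·.1 ∈ Y) = h`, `X ⊆ J.image Prod.fst`, `|J| + k = p`. For `Y = X` this is the proof of CNT
(`|C| ≤ |Ω| - (m - k) = k - waste`). Step from `insert x Y` to `Y`: `F h` is the disjoint union of the
`F (insert (x, y) h)`, `y ∈ B = {y | (x, y) compatible with h}`; as `x` is located by `Y`,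
`U (insert (x, y) h) ⊆ U h \ B`, so the waste grows by `|B| - 1`, and `|B| ≤ 3 ^ (|B| - 1)`. -/
def SpecCNTS : Prop :=
  ∀ (V : Type) [Fintype V] (G : SimpleGraph V) (X₀ X : Finset V), Reach G X₀ X → Locating G X →
    ∀ (g : Finset (V × V)) (k : ℕ), g.image Prod.fst = X₀ →
      ((univ : Finset (Finset (V × V))).filter fun J => Good G J ∧ Closed G J ∧
        J.filter (fun u => u.1 ∈ X₀) = g ∧ X ⊆ J.image Prod.fst ∧
        J.card + k = Fintype.card V).card ≤ 3 ^ k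

/-- MAINS -/
def SpecMAINS : Prop :=
  ∀ (V : Type) [Fintype V] (G : SimpleGraph V) (a b : V) (X₀ X : Finset V), a ∈ X₀ →
    Reach G X₀ X → Locating G X → H2 G a b → (¬ ∃ φ : G ≃g G, φ a = b) →
    ∀ k, k ≤ Fintype.card V - X.card →
      (Fintype.card V - X.card).choose k ≤ 3 ^ k * ((emb G a a X₀).card + (emb G a b X₀).card)

/-- BON (after Bondy). Proof: let `O = V \ (X₀ ∪ C)`. Add vertices of `C \ X₀` to `P` (start `P = ∅`) as long
as two vertices of `O` have the same trace on `X₀ ∪ P` (they are told apart by some vertex of `C`):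
the number of traces of `O` grows, so `|P| ≤ |O|`; also `|P| ≤ |C \ X₀|`; hence `2 |P| ≤ p - |X₀|`.
`X = X₀ ∪ P` is reached from `X₀` (all vertices of `C \ X₀` are located by `X₀`, hence by every larger
set not containing them) and it is locating. -/
def SpecBON : Prop :=
  ∀ (V : Type) [Fintype V] (G : SimpleGraph V) (X₀ C : Finset V),
    (∀ c ∈ C, c ∉ X₀ → Uniq G X₀ c) → Locating G (X₀ ∪ C) →
    ∃ X : Finset V, X₀ ⊆ X ∧ Reach G X₀ X ∧ Locating G X ∧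
      Fintype.card V ≤ 2 * (Fintype.card V - X.card) + X₀.card

/-- CDS2: a set `D₁` such that every vertex is at distance at most `2` from `D₁` is contained in a
connected set of size at most `5 |D₁| - 4`. Same proof as CDS: keep `F ⊆ D₁` and a connected `Y ⊇ F`,
`|Y| ≤ 5 |F| - 4`; if `F ≠ D₁` and `D₁ ⊄ Y`, then some element of `D₁ \ Y` is at distance `≤ 5` from `Y`:
if some vertex is at distance exactly `3` from `Y`, it is at distance `≤ 2` from some `d ∈ D₁`, so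
`1 ≤ dist(d, Y) ≤ 5`; otherwise all vertices are at distance `≤ 2` from `Y`. Add the at most `4` inner
vertices of a shortest path and `d`. (If `D₁ ⊆ Y`, done.) -/
def SpecCDS2 : Prop :=
  ∀ (V : Type) [Fintype V] (G : SimpleGraph V), G.Connected →
    ∀ D₁ : Finset V, D₁.Nonempty →
      (∀ v, v ∈ D₁ ∨ (∃ w ∈ D₁, G.Adj v w) ∨ ∃ w ∈ D₁, ∃ z, G.Adj v z ∧ G.Adj z w) →
    ∃ X : Finset V, D₁ ⊆ X ∧ (G.induce (X : Set V)).Connected ∧ X.card + 4 ≤ 5 * D₁.card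

/-- RNCC: random set locating and dominating the core `C`. Proof: as RNC: for a tuple `c : Fin s → V`
let `bad c` be the set of the `v ∈ C` such that (a) no `c i` is a neighbour of `v`, or (b) there is `u ∉ B`,
`u ≠ v`, with a common neighbour with `v`, such that no `c i` is in `sep G v u`.
`X₁ = B ∪ image c ∪ bad c`. At most one vertex of `C \ B` has degree `< t / 2`. -/
def SpecRNCC : Prop :=
  ∀ (V : Type) [Fintype V] (G : SimpleGraph V) (B C : Finset V) (D : ℕ) (t : ℝ) (s : ℕ), 0 ≤ t →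
    (∀ v, deg G v ≤ D) →
    (∀ v ∈ C, v ∉ B → ∀ u, u ∉ B → u ≠ v → t ≤ ((sep G v u).card : ℝ)) →
    t ≤ Fintype.card V → 0 < Fintype.card V →
    ∃ X₁ : Finset V, B ⊆ X₁ ∧ (∀ v ∈ C, v ∉ X₁ → Uniq G X₁ v ∧ ∃ w ∈ X₁, G.Adj v w) ∧
      (X₁.card : ℝ) ≤ B.card + (s + 1 + Fintype.card V * (1 - t / (2 * Fintype.card V)) ^ s
        + Fintype.card V * (D : ℝ) ^ 2 * (1 - t / Fintype.card V) ^ s)

/-- RNN2: numerical. `L = log2 D ≥ 13` (from `50 L^2 ≤ D = 2^L`, `D ≥ 2`), `p ≥ 100 L^2`,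
`s = ⌈3 p ln D / t⌉`, `t = 100 L^2`: `s ≤ 0.0208 p / L + 1`, `2 p / D ≤ p / (25 L^2) ≤ 0.0031 p / L`,
`2 ≤ 0.0016 p / L`; sum `≤ 0.0256 p / L < p / (36 L)`. -/
def SpecRNN2 : Prop :=
  ∀ p D : ℕ, 2 ≤ D → 50 * Real.logb 2 D ^ 2 ≤ (D : ℝ) → 100 * Real.logb 2 D ^ 2 ≤ (p : ℝ) →
    ∃ s : ℕ, (s : ℝ) + 1 + p * (1 - 100 * Real.logb 2 D ^ 2 / (2 * p)) ^ s
        + p * (D : ℝ) ^ 2 * (1 - 100 * Real.logb 2 D ^ 2 / p) ^ s ≤ p / (36 * Real.logb 2 D)

/-- NUD2: numerical. `x ≤ (17/90) p / L + 6`, `m ≥ (p - x) / 2`, `L ≥ 13`, `p ≥ 100 L^2`: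
`log2 (2 D^(x-1)) ≤ 1 + 0.1889 p + 5 L`, `0.415 m ≥ 0.2045 p - 1.25`,
`0.0156 p > 2.25 + 5 L + log2 (p + 1)`. (`m ↦ (m + 1) (3/4)^m` is decreasing for `m ≥ 3`.) -/
def SpecNUD2 : Prop :=
  ∀ p D x m : ℕ, 2 ≤ D → 50 * Real.logb 2 D ^ 2 ≤ (D : ℝ) → 100 * Real.logb 2 D ^ 2 ≤ (p : ℝ) →
    1 ≤ x → x ≤ p → (x : ℝ) ≤ 17 * p / (90 * Real.logb 2 D) + 6 → m ≤ p → p ≤ 2 * m + x →
    2 * D ^ (x - 1) * (m + 1) * 3 ^ m < 4 ^ m

/-! ### Graphs without 4-cycles -/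

/-- the vertices with label `0` -/
noncomputable def Rz {V : Type} [Fintype V] {K : ℕ} (f : V → Fin (K + 1)) : Finset V :=
  univ.filter fun v => f v = 0

/-- IND: independence. `𝒜` does not depend on the labels on `T`, `ℰ` only depends on them.
Proof: the involution `(f, g) ↦ (f with the values of g on T, g with the values of f on T)` is a
bijection from `𝒜 × ℰ` to `(𝒜 ∩ ℰ) × all`. -/
def SpecIND : Prop :=
  ∀ (V : Type) [Fintype V] (K : ℕ) (T : Finset V) (𝒜 ℰ : Finset (V → Fin (K + 1))),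
    (∀ f g : V → Fin (K + 1), (∀ v, v ∉ T → f v = g v) → f ∈ 𝒜 → g ∈ 𝒜) →
    (∀ f g : V → Fin (K + 1), (∀ v ∈ T, f v = g v) → f ∈ ℰ → g ∈ ℰ) →
    (𝒜 ∩ ℰ).card * (K + 1) ^ Fintype.card V = 𝒜.card * ℰ.card

/-- BAD4 (from IND): `v` has `d` neighbours `Y`, each `y ∈ Y` has two disjoint sets `P y`, `Q y` of `h` further
neighbours. With `q = 1 / (K + 1)`, `ρ = (1 - (1 - q)^h)^2`, the fraction of labellings `f` such that at most one
`y ∈ Y` has `P y` and `Q y` both meeting `Rz f` is at most `d (1 - ρ)^(d - 1)`. Proof: for fixed `y₀ ∈ Y` the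
events, `y ∈ Y \ {y₀}`, are independent (the sets `P y ∪ Q y` are pairwise disjoint), union over `y₀`. -/
def SpecBAD4 : Prop :=
  ∀ (V : Type) [Fintype V] (K h d : ℕ) (Y : Finset V) (P Q : V → Finset V), Y.card = d → 1 ≤ d →
    (∀ y ∈ Y, (P y).card = h ∧ (Q y).card = h ∧ Disjoint (P y) (Q y)) →
    (∀ y ∈ Y, ∀ y' ∈ Y, y ≠ y' → Disjoint (P y ∪ Q y) (P y' ∪ Q y')) →
    ((univ.filter fun f : V → Fin (K + 1) =>
      (Y.filter fun y => (∃ z ∈ P y, f z = 0) ∧ (∃ z ∈ Q y, f z = 0)).card ≤ 1).card : ℝ) ≤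
      ((K + 1 : ℕ) : ℝ) ^ Fintype.card V *
        (d * (1 - (1 - (1 - 1 / ((K : ℝ) + 1)) ^ h) ^ 2) ^ (d - 1))

/-- R4 (from BAD4): in a graph without 4-cycles of minimum degree `≥ d` there is a set `X₁` with
`|X₁| ≤ p / (K + 1) + p d (1 - ρ)^(d - 1)` such that every vertex outside `X₁` has two distinct neighbours
each of which has two distinct neighbours in `X₁`. `h = (d - 1) / 2` (rounded down).
Proof: `X₁ = Rz f ∪ bad`; average over `f`; the sets `N(y) \ {v}`, `y ∈ N(v)`, are pairwise disjoint. -/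
def SpecR4 : Prop :=
  ∀ (V : Type) [Fintype V] (G : SimpleGraph V) (K d : ℕ), 1 ≤ d →
    (∀ u v x y : V, u ≠ v → x ≠ y → G.Adj u x → G.Adj u y → G.Adj v x → ¬ G.Adj v y) →
    (∀ v, d ≤ deg G v) →
    ∃ X₁ : Finset V, (∀ v, v ∉ X₁ → ∃ y z, y ≠ z ∧ G.Adj v y ∧ G.Adj v z ∧
        (∃ w ∈ X₁, ∃ w' ∈ X₁, w ≠ w' ∧ G.Adj y w ∧ G.Adj y w') ∧
        (∃ w ∈ X₁, ∃ w' ∈ X₁, w ≠ w' ∧ G.Adj z w ∧ G.Adj z w')) ∧
      (X₁.card : ℝ) ≤ Fintype.card V / ((K : ℝ) + 1) + Fintype.card V *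
        (d * (1 - (1 - (1 - 1 / ((K : ℝ) + 1)) ^ ((d - 1) / 2)) ^ 2) ^ (d - 1))

/-- P4: a graph without 4-cycles of minimum degree `≥ n` has at least `n (n - 1)` vertices: the sets
`N(y) \ {v}`, `y ∈ N(v)`, are pairwise disjoint. -/
def SpecP4 : Prop :=
  ∀ (V : Type) [Fintype V] (G : SimpleGraph V) (n : ℕ), 0 < Fintype.card V →
    (∀ u v x y : V, u ≠ v → x ≠ y → G.Adj u x → G.Adj u y → G.Adj v x → ¬ G.Adj v y) →
    (∀ v, n ≤ deg G v) → n * (n - 1) ≤ Fintype.card V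

/-- NUM4: numerical. `L = log2 D`, `d = ⌈25 L⌉ ≤ D`, so `L ≥ 7.5`; `K + 1 = ⌈30 L⌉`. `q h ≥ 0.38` so
`1 - (1 - q)^h ≥ 0.31`, `ρ ≥ 0.096`, `(1 - ρ)^(d-1) ≤ exp(-2.4 L + 0.1)`, `d exp(-2.4 L + 0.1) ≤ 1 / (300 L)`. -/
def SpecNUM4 : Prop :=
  ∀ D : ℕ, 2 ≤ D → 25 * Real.logb 2 D ≤ (D : ℝ) →
    ∃ K d : ℕ, 1 ≤ d ∧ (∀ n : ℕ, 25 * Real.logb 2 D ≤ (n : ℝ) → d ≤ n) ∧
      1 / ((K : ℝ) + 1) + (d * (1 - (1 - (1 - 1 / ((K : ℝ) + 1)) ^ ((d - 1) / 2)) ^ 2) ^ (d - 1)) ≤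
        11 / (300 * Real.logb 2 D)

/-- NUD4: numerical. `x ≤ 11 p / (60 L) + 1`, `m ≥ (p - x) / 2`, `L ≥ 7.5`, `p > D^(1)`, also `p ≥ 600 L^2`
(a graph without 4-cycles of minimum degree `d` has more than `d (d - 1)` vertices, `d ≥ 25 L`):
`log2 (2 D^(x-1)) ≤ 1 + 0.18334 p`, `0.415 m ≥ 0.2075 (1 - 0.0245) p - 0.21 ≥ 0.2024 p - 0.21`,
`0.019 p > 1.21 + log2 (p + 1)`. -/
def SpecNUD4 : Prop :=
  ∀ p D x m : ℕ, 2 ≤ D → 25 * Real.logb 2 D ≤ (D : ℝ) → 600 * Real.logb 2 D ^ 2 ≤ (p : ℝ) →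
    1 ≤ x → x ≤ p → (x : ℝ) ≤ 11 * p / (60 * Real.logb 2 D) + 1 → m ≤ p → p ≤ 2 * m + x →
    2 * D ^ (x - 1) * (m + 1) * 3 ^ m < 4 ^ m

end Pool.Agent.Lib.MP50ecf8.LOC
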