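import Pool.Agent.Lib.MP_50ecf8_co.LOC.Spec3

/-!
# Several scales: graphs with few near twins

Notation: `L = log2 D`. `sC G C u v` is the set of the vertices of `C` which tell `u` and `v` apart.
-/

set_option autoImplicit false

open Finset
open scoped Classical

namespace Pool.Agent.Lib.MP50ecf8.LOC

/-- the vertices of `C` which tell `u` and `v` apart -/
noncomputable def sC {V : Type} [Fintype V] (G : SimpleGraph V) (C : Finset V) (u v : V) :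
    Finset V := sep G u v ∩ C

/-- the trace class of `v`: the vertices outside `Y` with the same neighbourhood in `Y` as `v` -/
noncomputable def tc {V : Type} [Fintype V] (G : SimpleGraph V) (Y : Finset V) (v : V) : Finset V :=
  univ.filter fun u => u ∉ Y ∧ ∀ w ∈ Y, (G.Adj w u ↔ G.Adj w v)

/-- the partial isomorphisms with domain `Z`, `a ↦ r`, which can be extended to a partial isomorphism
undefined at exactly `k` vertices -/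
noncomputable def embk {V : Type} [Fintype V] (G : SimpleGraph V) (a r : V) (Z : Finset V) (k : ℕ) :
    Finset (Finset (V × V)) :=
  (emb G a r Z).filter fun I => ∃ J, Good G J ∧ I ⊆ J ∧ J.card + k = Fintype.card V

/-- MAINK: as MAINS with extendable partial isomorphisms only -/
def SpecMAINK : Prop :=
  ∀ (V : Type) [Fintype V] (G : SimpleGraph V) (a b : V) (X₀ X : Finset V), a ∈ X₀ →
    Reach G X₀ X → Locating G X → H2 G a b → (¬ ∃ φ : G ≃g G, φ a = b) →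
    ∀ k, k ≤ Fintype.card V - X.card →
      (Fintype.card V - X.card).choose k ≤
        3 ^ k * ((embk G a a X₀ k).card + (embk G a b X₀ k).card)

/-- EXT: the cost of revealing `Z \ Y` when the trace classes are small.
Proof: `h ↦ g = h.filter (·.1 ∈ Y)` maps `embk Z k` into `embk Y k` (same `J`). Fix `g ∈ embk Y k` and a good
`J ⊇ g` with `|J| + k = p`; `im = J.image Prod.snd`. For `z ∈ Z \ Y` let `Cand z` be the set of all `y` such that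
`(z, y)` is compatible with `g`, and `c z = tc G Y z` (contains `z`). A fibre element `h` is determined by
the images of the `z ∈ Z \ Y`, which are in `Cand z`: at most `∏ z, |Cand z|` elements.
Claim `|Cand z| ≤ |c z| + |Cand z \ im|`: if `y ∈ Cand z ∩ im`, `(x, y) ∈ J`, then `x ∉ Y` (else
`(x, y) ∈ g` and `Cmp (z, y) (x, y)` gives `z = x ∈ Y`) and `x`, `z` have the same trace on `Y`
(both traces are the preimage of the trace of `y`), so `x ∈ c z`; `y ↦ x` is injective.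
With `q z = |Cand z \ im| / |c z|`: `|Cand z| ≤ |c z| (1 + q z) ≤ n (1 + q z)` and
`∑ z, q z = ∑ y ∉ im, ∑ z with y ∈ Cand z, 1 / |c z| ≤ #(univ \ im) = k`, because all `z` with
`y ∈ Cand z` are in one trace class. AM-GM: with `R₀ = |Z \ Y| ≥ 1`: `∏ (1 + q z) ≤ (1 + k / R₀) ^ R₀`
`≤ (1 + p / R₀) ^ R₀ ≤ (1 + p / R) ^ R` (Bernoulli: `1 + p / R₀ ≤ (1 + p / R) ^ (R / R₀)`), and
`n ^ R₀ ≤ n ^ R`. (`R₀ = 0` is trivial.) -/
def SpecEXT : Prop :=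
  ∀ (V : Type) [Fintype V] (G : SimpleGraph V) (a r : V) (Y Z : Finset V) (n k : ℕ) (R : ℝ),
    Y ⊆ Z → a ∈ Y → 1 ≤ n → (∀ z ∈ Z, z ∉ Y → (tc G Y z).card ≤ n) →
    (((Z \ Y).card : ℕ) : ℝ) ≤ R → 0 < R → k ≤ Fintype.card V →
    ((embk G a r Z k).card : ℝ) ≤
      (embk G a r Y k).card * ((n : ℝ) * (1 + Fintype.card V / R)) ^ R

/-- STG: one stage. Proof: for a tuple `c : Fin s → C` (values in `C`) let `bad c` be the set of the `v ∈ C \ Y` such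
that there is `u ∈ tc G Y v`, `u ≠ v`, `t ≤ |sC G C v u|`, such that no `c i` is in `sC G C v u`.
`Z = Y ∪ image c ∪ bad c`. If `v ∈ C \ Z`, `u ∉ Z`, `u ≠ v`, are not told apart by `Z`, then not by `Y`, so
`u ∈ tc G Y v`; if `t ≤ |sC|` some `c i ∈ Z` tells them apart. The average of `|bad c|` is at most
`|C| n (1 - t / |C|) ^ s`. -/
def SpecSTG : Prop :=
  ∀ (V : Type) [Fintype V] (G : SimpleGraph V) (Y C : Finset V) (n s : ℕ) (t : ℝ),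
    0 ≤ t → t ≤ C.card → 0 < C.card →
    (∀ v ∈ C, v ∉ Y → (tc G Y v).card ≤ n) →
    ∃ Z : Finset V, Y ⊆ Z ∧ Z \ Y ⊆ C ∧
      (Z.card : ℝ) ≤ Y.card + (s + C.card * n * (1 - t / C.card) ^ s) ∧
      ∀ v ∈ C, v ∉ Z → ∀ u, u ∉ Z → u ≠ v → (∀ w ∈ Z, (G.Adj w u ↔ G.Adj w v)) →
        ((sC G C v u).card : ℝ) < t

/-- TOPR: the first stage. Proof: for a tuple `c : Fin s → C` let `bad c` be the set of the `v ∈ C` with
`t / 2 ≤ |N(v) ∩ C|` such that (a) no `c i` is a neighbour of `v`, or (b) there is `u ≠ v` with a common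
neighbour with `v`, `t ≤ |sC G C v u|`, such that no `c i` is in `sC G C v u`.
`X₁ = B ∪ image c ∪ bad c`; average as in RNC (at most `D ^ 2` vertices `u` for each `v`). -/
def SpecTOPR : Prop :=
  ∀ (V : Type) [Fintype V] (G : SimpleGraph V) (B C : Finset V) (D s : ℕ) (t : ℝ),
    0 ≤ t → t ≤ C.card → 0 < C.card → (∀ v, deg G v ≤ D) →
    ∃ X₁ : Finset V, B ⊆ X₁ ∧
      (∀ v ∈ C, v ∉ X₁ → t / 2 ≤ ((C.filter fun w => G.Adj v w).card : ℝ) →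
        (∃ w ∈ X₁, G.Adj v w) ∧
        ∀ u, u ∉ X₁ → u ≠ v → t ≤ ((sC G C v u).card : ℝ) →
          ∃ w ∈ X₁, ¬(G.Adj w u ↔ G.Adj w v)) ∧
      (X₁.card : ℝ) ≤ B.card + (s + C.card * (1 - t / (2 * C.card)) ^ s
        + C.card * (D : ℝ) ^ 2 * (1 - t / C.card) ^ s)

/-- NST: numerical, one stage. `s = ⌈q / (512 * 4^j)⌉`: `s ≤ q / (512 * 4^j) + 1` and
`2^(2^(j+1)) (1 - t/q)^s ≤ exp (2^j (2 ln 2 - 15.625)) ≤ exp (-14 * 2^j)`; `q / (1536 * 4^j) ≥ 5.2 * 2^j`. -/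
def SpecNST : Prop :=
  ∀ q j : ℕ, 8000 * 8 ^ j ≤ q →
    ∃ s : ℕ, (s : ℝ) + q * ((2 ^ 2 ^ (j + 1) : ℕ) : ℝ) * (1 - ((8000 * 8 ^ j : ℕ) : ℝ) / q) ^ s ≤
      q / (384 * 4 ^ j)

/-- NPOW: numerical. `1 + 384 * 4^j ≤ 2^(9 + 2j)`. -/
def SpecNPOW : Prop :=
  ∀ p j : ℕ, 1 ≤ p →
    (((2 ^ 2 ^ (j + 1) : ℕ) : ℝ) * (1 + (p : ℝ) / ((p : ℝ) / (384 * 4 ^ j)))) ^
      ((p : ℝ) / (384 * 4 ^ j)) ≤
      (2 : ℝ) ^ ((p : ℝ) * (2 ^ (j + 1) + 9 + 2 * j) / (384 * 4 ^ j))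

/-- NTOP: numerical. `L ≥ 14.3` by `100 L^2 ≤ D = 2^L`; `s = ⌈3 q ln D / (200 L^2)⌉ ≤ 0.0104 q / L + 1`,
the powers are at most `D^(-3/2) ≤ D^(-1)` and `D^(-3)`; `2 q / D ≤ 0.02 p / L^2 ≤ 0.0014 p / L`;
`2 ≤ 0.0007 p / L`; `0.0104 + 0.0014 + 0.0007 < 1 / 75`. -/
def SpecNTOP : Prop :=
  ∀ p q D : ℕ, 2 ≤ D → 100 * Real.logb 2 D ^ 2 ≤ (D : ℝ) → 200 * Real.logb 2 D ^ 2 ≤ (q : ℝ) →
    q ≤ p →
    ∃ s : ℕ, (s : ℝ) + 1 + q * (1 - 200 * Real.logb 2 D ^ 2 / (2 * q)) ^ s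
        + q * (D : ℝ) ^ 2 * (1 - 200 * Real.logb 2 D ^ 2 / q) ^ s ≤ p / (75 * Real.logb 2 D)

/-- NLOW: numerical. `(200 L^2)^(1/3) / 20 ≤ 0.2925 L^(2/3)`, `L ≥ 14.3`; `p ≥ 2^L` and `p ≥ 200 L^2`.
(For `L ≤ 20`: `2^(0.2925 L^(2/3)) ≤ L / 4` and `p / (800 L) ≥ L / 4`; for larger `L` use `p ≥ 2^L`.) -/
def SpecNLOW : Prop :=
  ∀ p D : ℕ, 2 ≤ D → D ≤ p → 100 * Real.logb 2 D ^ 2 ≤ (D : ℝ) →
    200 * Real.logb 2 D ^ 2 ≤ (p : ℝ) →
    (2 : ℝ) ^ ((200 * Real.logb 2 D ^ 2) ^ ((1 : ℝ) / 3) / 20) ≤ p / (800 * Real.logb 2 D)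

/-- NUM1: numerical. `(200 L^2)^(1/3) / 20 ≤ 0.3 L` for `L ≥ 1`, and `2^(0.3 L) < 0.99 * 2^L ≤ 0.99 p`. -/
def SpecNUM1 : Prop :=
  ∀ p D : ℕ, 2 ≤ D → D ≤ p →
    (2 : ℝ) ^ ((200 * Real.logb 2 D ^ 2) ^ ((1 : ℝ) / 3) / 20) < 99 / 100 * p

/-- NFIN: numerical. `log2` of the left side is at most `1 + p * 59/480 + 19 p / 432 + log2 (m + 1) + m log2 3`;
`m ≥ (p - y) / 2 ≥ 0.4937 p - 0.5` (`L ≥ 14.3`), `log2 (4/3) ≥ 0.415`: `0.2048 p - 0.21 > 0.167 p + 1 + log2 (p + 1)`,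
as `p ≥ 40000`. -/
def SpecNFIN : Prop :=
  ∀ p D x y m : ℕ, 2 ≤ D → 100 * Real.logb 2 D ^ 2 ≤ (D : ℝ) → 200 * Real.logb 2 D ^ 2 ≤ (p : ℝ) →
    1 ≤ x → (x : ℝ) ≤ 59 * p / (480 * Real.logb 2 D) + 1 → (y : ℝ) ≤ x + p / 288 →
    m ≤ p → p ≤ 2 * m + y →
    2 * (D : ℝ) ^ (x - 1) * (2 : ℝ) ^ ((p : ℝ) * (19 / 432)) * (m + 1) * 3 ^ m < 4 ^ m

end Pool.Agent.Lib.MP50ecf8.LOC
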