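import Pool.Agent.Lib.MP_50ecf8_co.LOC.Spec5

/-!
# Twins and near twins: the count with a price

Here vertices may be added to the chain in two ways: for free, if located up to twins, or at the price
of the number of their candidates. `K` is an upper bound for `k` (it will be `|T|`).
-/

set_option autoImplicit false

open Finset
open scoped Classical

namespace Pool.Agent.Lib.MP50ecf8.LOC

/-- `RC G T X₀ K X c`: the set `X` is reached from `X₀` at the price `c` -/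
inductive RC {V : Type} [Fintype V] (G : SimpleGraph V) (T X₀ : Finset V) (K : ℝ) :
    Finset V → ℝ → Prop
  | base : RC G T X₀ K X₀ 1
  | free {Y : Finset V} {x : V} {c : ℝ} : RC G T X₀ K Y c → x ∉ Y → x ∈ T → UniT G Y x →
      RC G T X₀ K (insert x Y) c
  | paid {Y Z : Finset V} {c R : ℝ} {n : ℕ} : RC G T X₀ K Y c → Y ⊆ Z → Z \ Y ⊆ T → 1 ≤ n →
      (∀ z ∈ Z, z ∉ Y → (tc G Y z).card ≤ n) → (((Z \ Y).card : ℕ) : ℝ) ≤ R → 0 < R →
      RC G T X₀ K Z (c * ((n : ℝ) * (1 + K / R)) ^ R)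

/-- STPM: `SpecSTPT` with an arbitrary bound `M` instead of `4 ^ k` (same proof: copy STPT.lean, namespace STPMM) -/
def SpecSTPM : Prop :=
  ∀ (V : Type) [Fintype V] (G : SimpleGraph V) (T X Y : Finset V) (x : V) (k : ℕ) (M : ℝ),
    Trv G T → ClT G T Y → x ∉ Y → x ∈ T → x ∈ X → UniT G Y x → 0 ≤ M →
    (∀ h : Finset (V × V), h.image Prod.fst = insert x Y →
      ∀ (D : Finset V) (κ : ℕ), (∀ y ∈ D, y ∉ UT G (insert x Y) h) →
      (∀ J ∈ AdT G T X k (insert x Y) h, κ ≤ (D \ J.image Prod.snd).card) →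
      2 ^ κ * ((FT G T X k (insert x Y) h).card : ℝ) ≤ M) →
    ∀ h : Finset (V × V), h.image Prod.fst = Y →
      ∀ (D : Finset V) (κ : ℕ), (∀ y ∈ D, y ∉ UT G Y h) →
      (∀ J ∈ AdT G T X k Y h, κ ≤ (D \ J.image Prod.snd).card) →
      2 ^ κ * ((FT G T X k Y h).card : ℝ) ≤ M

/-- PAY: a paid step. Proof: fix `J₀ ∈ AdT G T X k Y h` (if there is none, `FT` is empty). The restrictions `h'` to `Z` of the
`J ∈ AdT G T X k Y h` are determined by the images of the `z ∈ Z \ Y`, which are in `Cand G h z`; so there are at most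
`∏ z ∈ Z \ Y, |Cand G h z| ≤ (n (1 + k / R)) ^ R ≤ (n (1 + K / R)) ^ R` of them (copy `fibre_card` and `prod_cand` of EXT.lean,
with `K`, `k ≤ K` in place of `Fintype.card V`; `sum_excess` gives the sum `≤ |univ \ im J₀| = k`). `FT Y h` is contained in the union of the
`FT Z h'`; `Z ⊆ X` gives `h'.image Prod.fst = Z`; `UT G Z h' ⊆ UT G Y h`; `AdT Z h' ⊆ AdT Y h`. -/
def SpecPAY : Prop :=
  ∀ (V : Type) [Fintype V] (G : SimpleGraph V) (T X Y Z : Finset V) (n k : ℕ) (K R M : ℝ),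
    Y ⊆ Z → Z ⊆ X → 1 ≤ n → (∀ z ∈ Z, z ∉ Y → (tc G Y z).card ≤ n) →
    (((Z \ Y).card : ℕ) : ℝ) ≤ R → 0 < R → (k : ℝ) ≤ K → 0 ≤ M →
    (∀ h : Finset (V × V), h.image Prod.fst = Z →
      ∀ (D : Finset V) (κ : ℕ), (∀ y ∈ D, y ∉ UT G Z h) →
      (∀ J ∈ AdT G T X k Z h, κ ≤ (D \ J.image Prod.snd).card) →
      2 ^ κ * ((FT G T X k Z h).card : ℝ) ≤ M) →
    ∀ h : Finset (V × V), h.image Prod.fst = Y →
      ∀ (D : Finset V) (κ : ℕ), (∀ y ∈ D, y ∉ UT G Y h) →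
      (∀ J ∈ AdT G T X k Y h, κ ≤ (D \ J.image Prod.snd).card) →
      2 ^ κ * ((FT G T X k Y h).card : ℝ) ≤ M * ((n : ℝ) * (1 + K / R)) ^ R

/-- CNTU (from BCT, STPM, PAY): the count. Proof: by induction on `RC`: if the claim (for all `h`, `D`, `κ`, as in SpecBCT) holds at `Y` with the
bound `M`, then it holds at `X₀` with the bound `M * c`. Start with BCT at `X`; all sets of the chain are `ClT` (new vertices are in `T`) and
contained in `X`. At the end `D = ∅`, `κ = 0`. -/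
def SpecCNTU : Prop :=
  ∀ (V : Type) [Fintype V] (G : SimpleGraph V) (T X₀ X : Finset V) (k : ℕ) (K c : ℝ), Trv G T →
    ClT G T X₀ → RC G T X₀ K X c → LocT G X → (k : ℝ) ≤ K →
    ∀ g : Finset (V × V), g.image Prod.fst = X₀ → ((FT G T X k X₀ g).card : ℝ) ≤ 4 ^ k * c

/-- MAINU (from KEL, INC, TOG; copy MAINT.lean with an arbitrary bound `M` for `|FT|`) -/
def SpecMAINU : Prop :=
  ∀ (V : Type) [Fintype V] (G : SimpleGraph V) (a b : V) (T X₀ X : Finset V) (k : ℕ) (M : ℝ),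
    Trv G T → a ∈ X₀ → X₀ ⊆ X → H2 G a b → (¬ ∃ φ : G ≃g G, φ a = b) →
    k ≤ (T \ X).card → 0 ≤ M →
    (∀ g : Finset (V × V), g.image Prod.fst = X₀ → ((FT G T X k X₀ g).card : ℝ) ≤ M) →
    ∀ R : Finset (Finset (V × V)),
      (∀ I : Finset (V × V), Good G I → I.image Prod.fst = X₀ → ((a, a) ∈ I ∨ (a, b) ∈ I) →
        ∃ I₀ ∈ R, ∃ φ : G ≃g G, I = I₀.image fun u => (u.1, φ u.2)) →
      ((T \ X).card.choose k : ℝ) ≤ M * R.card

/-- TOPT: first stage, strong form. As RNV (copy RNV.lean), but only pairs with at least `t` separators in `T` are told apart, and there may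
be many vertices of small degree: `X₁` contains a neighbour of each `v ∈ C \ B` with `deg_T v < t / 2` (their number is the first
term), and for all `v ∈ C \ B` and near `u` (adjacent or with a common neighbour) with `t ≤ |sep G v u ∩ T|` not hit by the tuple an element of
`sep G v u ∩ T`. -/
def SpecTOPT : Prop :=
  ∀ (V : Type) [Fintype V] (G : SimpleGraph V) (T B C : Finset V) (D s : ℕ) (t : ℝ), 0 < t →
    C ⊆ T → (∀ v ∈ T, (T.filter fun w => G.Adj v w).card ≤ D) → (∀ v ∈ T, ∃ w ∈ T, G.Adj v w) →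
    t ≤ T.card → 0 < T.card →
    ∃ X₁ : Finset V, X₁ ⊆ T ∧
      (∀ v ∈ C, v ∉ B → (∃ w ∈ X₁, G.Adj v w) ∧
        ∀ u ∈ T, u ∉ B → u ≠ v → t ≤ ((sep G v u ∩ T).card : ℝ) →
          ∃ w ∈ X₁, w ≠ u ∧ w ≠ v ∧ ¬(G.Adj w u ↔ G.Adj w v)) ∧
      (X₁.card : ℝ) ≤ ((C.filter fun v => v ∉ B ∧
          ((T.filter fun w => G.Adj v w).card : ℝ) < t / 2).card : ℝ) +
        (s + T.card * (1 - t / (2 * T.card)) ^ s + T.card * (D : ℝ) ^ 2 * (1 - t / T.card) ^ s)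

/-- STGT: one stage, strong form (adapt STG.lean). Proof: for a tuple `c : Fin s → C` let `P c` be the set of the pairs `(v, u)`, `v ∈ C \ B`, `u ∈ T \ B`,
`u ≠ v`, not told apart by any `w ∈ Y`, `w ≠ u, v`, with `t ≤ |sC G C v u|`, and no `c i` in `sC G C v u`. `Z = Y`, the image of `c` and an element of
`sC G C v u` for each `(v, u) ∈ P c`. The average of `|P c|` is at most `|C| n (1 - t / |C|) ^ s`. -/
def SpecSTGT : Prop :=
  ∀ (V : Type) [Fintype V] (G : SimpleGraph V) (T B C Y : Finset V) (n s : ℕ) (t : ℝ),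
    0 < t → t ≤ C.card → 0 < C.card →
    (∀ v ∈ C, v ∉ B → (T.filter fun u => u ∉ B ∧ u ≠ v ∧
      ∀ w ∈ Y, w ≠ u → w ≠ v → (G.Adj w u ↔ G.Adj w v)).card ≤ n) →
    ∃ Z : Finset V, Y ⊆ Z ∧ Z \ Y ⊆ C ∧
      (Z.card : ℝ) ≤ Y.card + (s + C.card * n * (1 - t / C.card) ^ s) ∧
      ∀ v ∈ C, v ∉ B → ∀ u ∈ T, u ∉ B → u ≠ v →
        (∀ w ∈ Z, w ≠ u → w ≠ v → (G.Adj w u ↔ G.Adj w v)) → ((sC G C v u).card : ℝ) < t

/-- NFI2: numerical (adapt NFIN.lean, NFT.lean). `log2` of the left side is at most `1 + 51 p / 480 + 19 p / 432 + log2 (m + 1) + 2 m`;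
`m ≥ p / 2 - y`, `y ≤ 51 p / (480 L) + 1 + p / 288 ≤ 0.01091 p + 1` (`L ≥ 14.3`), so `m ≥ 0.48909 p - 1`, `log2 (5/4) ≥ 0.3219`:
`0.15743 p - 0.4 > 0.15024 p + 1 + log2 (p + 1)` as `p ≥ 40898`. -/
def SpecNFI2 : Prop :=
  ∀ p D x y m : ℕ, 2 ≤ D → 100 * Real.logb 2 D ^ 2 ≤ (D : ℝ) → 200 * Real.logb 2 D ^ 2 ≤ (p : ℝ) →
    1 ≤ x → (x : ℝ) ≤ 51 * p / (480 * Real.logb 2 D) + 1 → (y : ℝ) ≤ x + p / 288 →
    m ≤ p → p ≤ 2 * m + 2 * y →
    2 * (D : ℝ) ^ (x - 1) * (2 : ℝ) ^ ((p : ℝ) * (19 / 432)) * (m + 1) * 4 ^ m < 5 ^ m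

end Pool.Agent.Lib.MP50ecf8.LOC
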