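import Pool.Agent.Lib.MP_50ecf8_co.LOC.Spec4

/-!
# Separation linear in `log2 D`

`G` has maximum degree at most `D`, `L = log2 D`; any two distinct vertices outside a small set `B` are told
apart by at least `t = 10000 L` vertices. All sets below are sets of vertices, `p` is the number of vertices.
Everything is classical, no `DecidableEq`.
-/

set_option autoImplicit false

open Finset
open scoped Classical

namespace Pool.Agent.Lib.MP50ecf8.LOC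

/-- the vertices outside `B` with the same neighbourhood in `Y` as `v` (elements of `Y` are allowed) -/
noncomputable def cl {V : Type} [Fintype V] (G : SimpleGraph V) (B Y : Finset V) (v : V) :
    Finset V :=
  univ.filter fun u => u ∉ B ∧ ∀ w ∈ Y, (G.Adj w u ↔ G.Adj w v)

/-- `v` has no neighbour in `Y` -/
def Em {V : Type} (G : SimpleGraph V) (Y : Finset V) (v : V) : Prop := ∀ w ∈ Y, ¬ G.Adj w v

/-- the part of the class of `v` on the side of `v` with respect to `w` -/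
noncomputable def side {V : Type} [Fintype V] (G : SimpleGraph V) (B Y : Finset V) (v w : V) :
    Finset V :=
  (cl G B Y v).filter fun u => (G.Adj w u ↔ G.Adj w v)

/-- no vertex splits a class (of vertices with a neighbour in `Y`) into two parts with at least `m` elements -/
def Star {V : Type} [Fintype V] (G : SimpleGraph V) (B Y : Finset V) (m : ℕ) : Prop :=
  ∀ v, v ∉ B → ¬ Em G Y v → ∀ w,
    ((cl G B Y v).filter fun u => G.Adj w u).card < m ∨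
      ((cl G B Y v).filter fun u => ¬ G.Adj w u).card < m

/-- the vertices outside `B` without neighbour in `Y` -/
noncomputable def EE {V : Type} [Fintype V] (G : SimpleGraph V) (B Y : Finset V) : Finset V :=
  univ.filter fun v => v ∉ B ∧ Em G Y v

/-- the vertices outside `B` with a neighbour in `Y` and in a big class -/
noncomputable def BB {V : Type} [Fintype V] (G : SimpleGraph V) (B Y : Finset V) (m : ℕ) :
    Finset V :=
  univ.filter fun v => v ∉ B ∧ ¬ Em G Y v ∧ 2 * m ≤ (cl G B Y v).card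

/-- the potential -/
noncomputable def Phi {V : Type} [Fintype V] (G : SimpleGraph V) (B Y : Finset V) (D : ℕ) : ℝ :=
  ∑ v ∈ univ.filter (fun v => v ∉ B ∧ ¬ Em G Y v),
    (Real.logb 2 D - Real.logb 2 ((cl G B Y v).card : ℝ))

/-- `PC G X₀ Y c`: the set `Y` is reached from `X₀` by steps in which the trace classes of the new
vertices have at most `n` elements, and `c` is the product of the prices -/
inductive PC {V : Type} [Fintype V] (G : SimpleGraph V) (X₀ : Finset V) : Finset V → ℝ → Prop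
  | base : PC G X₀ X₀ 1
  | paid {Y Z : Finset V} {c R : ℝ} {n : ℕ} : PC G X₀ Y c → Y ⊆ Z → 1 ≤ n →
      (∀ z ∈ Z, z ∉ Y → (tc G Y z).card ≤ n) → (((Z \ Y).card : ℕ) : ℝ) ≤ R → 0 < R →
      PC G X₀ Z (c * ((n : ℝ) * (1 + Fintype.card V / R)) ^ R)

/-- PHIX: bounds for the potential. For `v ∉ B` we have `v ∈ cl G B Y v`; if `v` has a neighbour `w ∈ Y`, then
`cl G B Y v ⊆ N(w)` has at most `D` elements. `Y ⊆ Y'` gives `cl G B Y' v ⊆ cl G B Y v`. -/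
def SpecPHIX : Prop :=
  ∀ (V : Type) [Fintype V] (G : SimpleGraph V) (B : Finset V) (D : ℕ), (∀ v, deg G v ≤ D) →
    (∀ Y, 0 ≤ Phi G B Y D) ∧ (∀ Y, Phi G B Y D ≤ Fintype.card V * Real.logb 2 D) ∧
      ∀ Y Y', Y ⊆ Y' → Phi G B Y D ≤ Phi G B Y' D

/-- SPLX (from PHIX): splitting big classes. Proof: if `Star` fails for `Y` at `v`, `w`, then the smaller part `P` of the class of `v`
with respect to `w` has at least `m` elements, and for each of them the class with respect to `insert w Y` is contained in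
`P`, so it has at most half of the elements of `cl G B Y v`: `Phi` grows by at least `m` (the other terms do not
decrease, as in PHIX). Repeat; `Phi ≤ p log2 D` (induction on a natural number `n` with `p log2 D - Phi G B Y D < n * m`). -/
def SpecSPLX : Prop :=
  ∀ (V : Type) [Fintype V] (G : SimpleGraph V) (B Y : Finset V) (D m : ℕ), 1 ≤ m →
    (∀ v, deg G v ≤ D) →
    ∃ W : Finset V, Star G B (Y ∪ W) m ∧ (m : ℝ) * W.card + Phi G B Y D ≤ Phi G B (Y ∪ W) D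

/-- ISOX: in each big class all vertices but at most one have many isolating vertices. Proof: let `v ≠ v'` be in one
class (so both are outside `B`, and they have the same class `A`). If `w ∈ sep G v v'`, one of the parts of `A` with respect to `w` has fewer than
`m` elements (`Star`), `v` and `v'` are in different parts; so `|side v w| < m` or `|side v' w| < m`. So the numbers of the `w`
with `|side v w| < m` and with `|side v' w| < m` have sum at least `t`. Each class of a vertex of `BB` has at least `2 m` elements, all in `BB`. -/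
def SpecISOX : Prop :=
  ∀ (V : Type) [Fintype V] (G : SimpleGraph V) (B Y : Finset V) (m : ℕ) (t : ℝ),
    Star G B Y m → (∀ u, u ∉ B → ∀ v, v ∉ B → u ≠ v → t ≤ ((sep G u v).card : ℝ)) →
    2 * m * ((BB G B Y m).filter fun v =>
      (((univ.filter fun w => (side G B Y v w).card < m).card : ℕ) : ℝ) < t / 2).card ≤
        (BB G B Y m).card

/-- PHSX (from ISOX): one phase. Let `q = 1 - t / (2 p)`, so `q ^ s ≤ 1/8`. For a tuple `c : Fin s → V` put `Y' = Y ∪ im c` and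
`u(Y) = 3 |EE| + |BB|`. A vertex `v ∈ EE G B Y` is in `EE G B Y'` only if no `c i` is a neighbour (fraction of tuples `≤ q ^ s`),
otherwise its new weight is at most `1`. A vertex `v ∈ BB G B Y` with at least `t / 2` vertices `w` with `|side v w| < m` is in `BB G B Y'` only
if no `c i` is such a `w` (fraction `≤ q ^ s`); the others are at most `|BB| / 16` by ISOX. All other vertices are neither in `EE G B Y'`
nor in `BB G B Y'`. So the average of `u(Y')` is at most `5/4 |EE| + 3/16 |BB| ≤ 5/12 u(Y)`; the average of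
`|im c ∩ (EE ∪ BB)|` is at most `s |EE ∪ BB| / p ≤ s u(Y) / p`. As `(5/12) / (3/4) + 1/3 < 1` some `c` has `u(Y') ≤ 3/4 u(Y)` and
`|im c ∩ (EE ∪ BB)| ≤ 3 s u(Y) / p`. (`u(Y) = 0`: `S = ∅`.) See card_avC in STG.lean / RNC.lean for the averages. -/
def SpecPHSX : Prop :=
  ∀ (V : Type) [Fintype V] (G : SimpleGraph V) (B Y : Finset V) (m s : ℕ) (t : ℝ), 8 ≤ m →
    0 < t → t ≤ Fintype.card V → (1 - t / (2 * Fintype.card V)) ^ s ≤ 1 / 8 →
    Star G B Y m → (∀ u, u ∉ B → ∀ v, v ∉ B → u ≠ v → t ≤ ((sep G u v).card : ℝ)) →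
    (∀ v ∈ EE G B Y, t / 2 ≤ (deg G v : ℝ)) →
    ∃ S : Finset V, S.card ≤ s ∧
      (((S ∩ (EE G B Y ∪ BB G B Y m)).card : ℕ) : ℝ) ≤
        3 * s * (3 * (EE G B Y).card + (BB G B Y m).card) / Fintype.card V ∧
      (3 * (EE G B (Y ∪ S)).card + (BB G B (Y ∪ S) m).card : ℝ) ≤
        3 / 4 * (3 * (EE G B Y).card + (BB G B Y m).card)

/-- PCMX: the base may be enlarged (induction; `tc G (Y ∪ X₁) z ⊆ tc G Y z`) -/
def SpecPCMX : Prop :=
  ∀ (V : Type) [Fintype V] (G : SimpleGraph V) (X₀ X₁ Y : Finset V) (c : ℝ), PC G X₀ Y c →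
    X₀ ⊆ X₁ → PC G X₁ (Y ∪ X₁) c

/-- ITX (from PHIX, SPLX, PHSX, PCMX): `N` phases, by induction on `N`. Start: SPLX for `F₀` gives `W`; `F = Y = F₀ ∪ W`. Step: PHSX for `Y` gives `S`;
`U = EE G B Y ∪ BB G B Y m`; SPLX for `Y ∪ S` gives `W`. New `F' = F ∪ (S ∩ U) ∪ W`, new `Y' = Y ∪ S ∪ W`. PCMX: `PC G F' (Y ∪ F') c`; then one
paid step to `Y' = (Y ∪ F') ∪ (S \ U)` with `n = 2 m`, `R`: `z ∈ S`, `z ∉ U`, `z ∉ Y ∪ F'` gives `z ∉ B`, `|cl G B Y z| < 2 m`,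
`tc G (Y ∪ F') z ⊆ cl G B Y z` (`B ⊆ Y`). `3 |EE| + |BB|` does not grow when `Y` grows (a vertex of `EE` may enter `BB`, others cannot).
`|S ∩ U| ≤ 3 s * 3 (3/4) ^ N = 36 s ((3/4) ^ N - (3/4) ^ (N + 1))`; `m |W| ≤ Phi (Y') - Phi (Y ∪ S)`, `Phi (Y ∪ S) ≥ Phi Y`. -/
def SpecITX : Prop :=
  ∀ (V : Type) [Fintype V] (G : SimpleGraph V) (B F₀ : Finset V) (D m s : ℕ) (t R : ℝ), 8 ≤ m →
    (∀ v, deg G v ≤ D) → B ⊆ F₀ → 0 < t → t ≤ Fintype.card V →
    (1 - t / (2 * Fintype.card V)) ^ s ≤ 1 / 8 → (s : ℝ) ≤ R → 0 < R →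
    (∀ u, u ∉ B → ∀ v, v ∉ B → u ≠ v → t ≤ ((sep G u v).card : ℝ)) →
    (∀ v ∈ EE G B F₀, t / 2 ≤ (deg G v : ℝ)) →
    ∀ N : ℕ, ∃ F Y : Finset V, F₀ ⊆ F ∧ F ⊆ Y ∧
      PC G F Y (((((2 * m : ℕ) : ℝ) * (1 + Fintype.card V / R)) ^ R) ^ N) ∧ Star G B Y m ∧
      (3 * (EE G B Y).card + (BB G B Y m).card : ℝ) ≤ 3 * Fintype.card V * (3 / 4 : ℝ) ^ N ∧
      (F.card : ℝ) ≤ F₀.card + 36 * s * (1 - (3 / 4 : ℝ) ^ N) + Phi G B Y D / m ∧
      Y.card ≤ F.card + N * s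

/-- FSTX: the last stage. Proof: for a tuple `c : Fin s → V` let `P c` be the set of the pairs `(v, u)`, `v ∉ Y`, `u ∉ Y`, `u ≠ v`,
`u ∈ cl G B Y v`, such that no `c i` is in `sep G u v`. `Z` = `Y`, the image of `c` and an element of `sep G u v` for each `(v, u) ∈ P c`. The average
of `|P c|` is at most `p n (1 - t / p) ^ s`. Adapt STGT.lean. -/
def SpecFSTX : Prop :=
  ∀ (V : Type) [Fintype V] (G : SimpleGraph V) (B Y : Finset V) (n s : ℕ) (t : ℝ), 0 < t →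
    t ≤ Fintype.card V → B ⊆ Y → (∀ v, v ∉ Y → (cl G B Y v).card ≤ n) →
    (∀ u, u ∉ B → ∀ v, v ∉ B → u ≠ v → t ≤ ((sep G u v).card : ℝ)) →
    ∃ Z : Finset V, Y ⊆ Z ∧ Locating G Z ∧
      (((Z \ Y).card : ℕ) : ℝ) ≤ s + Fintype.card V * n * (1 - t / Fintype.card V) ^ s

/-- NETX: a maximal set of vertices of degree at least `t / 2` whose neighbourhoods are pairwise disjoint -/
def SpecNETX : Prop :=
  ∀ (V : Type) [Fintype V] (G : SimpleGraph V) (t : ℝ), 0 < t →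
    ∃ N₀ : Finset V, (N₀.card : ℝ) * (t / 2) ≤ Fintype.card V ∧
      ∀ v, t / 2 ≤ (deg G v : ℝ) →
        v ∈ N₀ ∨ (∃ w ∈ N₀, G.Adj v w) ∨ ∃ w ∈ N₀, ∃ z, G.Adj v z ∧ G.Adj z w

/-- ECNX (from EXT, NBD): the count along the chain (induction on `PC`; `embk ⊆ emb` for the base) -/
def SpecECNX : Prop :=
  ∀ (V : Type) [Fintype V] (G : SimpleGraph V) (a r : V) (D : ℕ) (X₀ Y : Finset V) (c : ℝ)
    (k : ℕ), PC G X₀ Y c → a ∈ X₀ → k ≤ Fintype.card V →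
    (G.induce (X₀ : Set V)).Connected → (∀ v, deg G v ≤ D) →
    ((embk G a r Y k).card : ℝ) ≤ (D : ℝ) ^ (X₀.card - 1) * c

/-- NUSX: numerical. `s = ⌈2 p ln 8 / t⌉`, `2 ln 8 ≤ 4.16`, `1 ≤ p / t`. -/
def SpecNUSX : Prop :=
  ∀ (p : ℕ) (t : ℝ), 0 < t → t ≤ p →
    ∃ s : ℕ, (1 - t / (2 * p)) ^ s ≤ 1 / 8 ∧ (s : ℝ) ≤ 6 * p / t

/-- NUNX: numerical. `L ≥ 16` (as `2^L = D ≥ 5000 L`; in fact only `L ≥ 16` is used), `l = log2 L ≥ 4`, `N = ⌈26 + 5/2 l⌉`, `R = 6 p / (10000 L)`.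
`(26 + 5/2 l) log2 (4/3) ≥ 10.79 + l ≥ log2 (1500 L)`. With `m = ⌈200 L^2⌉₊`: `2 m (1 + p / R) ≤ 401 L^2 * 1668 L`, `log2 ≤ 19.4 + 3 l`.
So `log2` of the price is at most `p (27 + 5/2 l) (19.4 + 3 l) 6 / (10^4 L)`, and `(27 + 5/2 l)(19.4 + 3 l) * 6 ≤ 555 * 2^l` for `l ≥ 4`
(`2^(l - 4) ≥ 1 + 0.69 (l - 4) + 0.24 (l - 4)^2`). -/
def SpecNUNX : Prop :=
  ∀ (p D : ℕ), 2 ≤ D → 5000 * Real.logb 2 D ≤ (D : ℝ) → 10000 * Real.logb 2 D ≤ (p : ℝ) →
    ∃ N : ℕ, 3 * (p : ℝ) * (3 / 4 : ℝ) ^ N ≤ p / (500 * Real.logb 2 D) ∧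
      (((((2 * ⌈200 * Real.logb 2 D ^ 2⌉₊ : ℕ) : ℝ) *
        (1 + (p : ℝ) / (6 * p / (10000 * Real.logb 2 D)))) ^
          (6 * (p : ℝ) / (10000 * Real.logb 2 D))) ^ N) ≤ (2 : ℝ) ^ ((p : ℝ) / 18) ∧
      (N : ℝ) * (6 * p / (10000 * Real.logb 2 D)) ≤ p / 100

/-- NUTX: numerical. `L ≥ 16`, `s = ⌈p (15.5 + 3 ln L) / (10^4 L)⌉`, `2 m ≤ 401 L^2`; the second term is at most
`p 401 L^2 e^(-15.5) L^(-3) ≤ 0.0001 p / L`; `1 ≤ p / (10^4 L)`; `17.5 + 3 ln L ≤ 16.6 sqrt L`. Price: `2 m (1 + 600 sqrt L) ≤ 401 * 601 L^(5/2)`,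
`log2 ≤ 17.9 + 5/2 log2 L ≤ 10 sqrt L`. -/
def SpecNUTX : Prop :=
  ∀ (p D : ℕ), 2 ≤ D → 5000 * Real.logb 2 D ≤ (D : ℝ) → 10000 * Real.logb 2 D ≤ (p : ℝ) →
    ∃ s : ℕ, (s : ℝ) + p * ((2 * ⌈200 * Real.logb 2 D ^ 2⌉₊ : ℕ) : ℝ) *
        (1 - 10000 * Real.logb 2 D / p) ^ s ≤ p / (600 * Real.sqrt (Real.logb 2 D)) ∧
      (((2 * ⌈200 * Real.logb 2 D ^ 2⌉₊ : ℕ) : ℝ) *
        (1 + (p : ℝ) / (p / (600 * Real.sqrt (Real.logb 2 D))))) ^
          ((p : ℝ) / (600 * Real.sqrt (Real.logb 2 D))) ≤ (2 : ℝ) ^ ((p : ℝ) / 60)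

/-- NUFX: numerical. `L ≥ 16`, `p ≥ 160000`. `log2` of the left side: `≤ 1 + p / 5 + 13 p / 180 + log2 (m + 1) + m log2 3`;
`m (2 - log2 3) ≥ 0.415 * 0.9 p = 0.3735 p`; `0.3735 - 0.2 - 0.0723 > 0.1`; `0.1 p > 1 + log2 (p + 1)`. -/
def SpecNUFX : Prop :=
  ∀ p D x m : ℕ, 2 ≤ D → 5000 * Real.logb 2 D ≤ (D : ℝ) → 10000 * Real.logb 2 D ≤ (p : ℝ) →
    1 ≤ x → (x : ℝ) ≤ p / (5 * Real.logb 2 D) → m ≤ p → 9 * p ≤ 10 * m →
    2 * (D : ℝ) ^ (x - 1) * (2 : ℝ) ^ ((p : ℝ) * (13 / 180)) * (m + 1) * 3 ^ m < 4 ^ m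

end Pool.Agent.Lib.MP50ecf8.LOC
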