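import Pool.Agent.Lib.MP_50ecf8_co.LOC.Spec7

/-!
# Separation linear in `log2 D`, general form

`W ⊆ C` are sets of vertices. All vertices of `W` have degree at most `D` (the others may have any degree);
seeds are only chosen in `W`. `B` is a small exceptional set; each vertex of `C \ B` is told apart from each
other vertex outside `B` by at least `t = 100000 log2 D` vertices of `W`.
Most modules are adaptations of the modules of Spec7 (replace the tests `w : V` by `w ∈ W`, `EE`, `BB` by `EC`, `BC`).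
-/

set_option autoImplicit false

open Finset
open scoped Classical

namespace Pool.Agent.Lib.MP50ecf8.LOC

/-- no vertex of `W` splits a class (of vertices with a neighbour in `Y`) into two parts with at least `m` elements -/
def StW {V : Type} [Fintype V] (G : SimpleGraph V) (B W Y : Finset V) (m : ℕ) : Prop :=
  ∀ v, v ∉ B → ¬ Em G Y v → ∀ w ∈ W,
    ((cl G B Y v).filter fun u => G.Adj w u).card < m ∨
      ((cl G B Y v).filter fun u => ¬ G.Adj w u).card < m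

/-- the vertices of `C \ B` without neighbour in `Y` -/
noncomputable def EC {V : Type} [Fintype V] (G : SimpleGraph V) (B C Y : Finset V) : Finset V :=
  univ.filter fun v => v ∈ C ∧ v ∉ B ∧ Em G Y v

/-- the vertices of `C \ B` with a neighbour in `Y` and in a big class -/
noncomputable def BC {V : Type} [Fintype V] (G : SimpleGraph V) (B C Y : Finset V) (m : ℕ) :
    Finset V :=
  univ.filter fun v => v ∈ C ∧ v ∉ B ∧ ¬ Em G Y v ∧ 2 * m ≤ (cl G B Y v).card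

/-- the vertices of `W` which isolate `v` in a part with fewer than `m` elements -/
noncomputable def iso {V : Type} [Fintype V] (G : SimpleGraph V) (B W Y : Finset V) (m : ℕ)
    (v : V) : Finset V :=
  W.filter fun w => (side G B Y v w).card < m

/-- `SQ G n Y₀ Y j`: `Y` arises from `Y₀` by adding `j` vertices one after the other, each with a trace class of
at most `n` elements -/
inductive SQ {V : Type} [Fintype V] (G : SimpleGraph V) (n : ℕ) (Y₀ : Finset V) :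
    Finset V → ℕ → Prop
  | base : SQ G n Y₀ Y₀ 0
  | step {Y : Finset V} {x : V} {j : ℕ} : SQ G n Y₀ Y j → x ∉ Y → (tc G Y x).card ≤ n →
      SQ G n Y₀ (insert x Y) (j + 1)

/-- PHIY: as PHIX, for `Y ⊆ W` -/
def SpecPHIY : Prop :=
  ∀ (V : Type) [Fintype V] (G : SimpleGraph V) (B W : Finset V) (D : ℕ),
    (∀ w ∈ W, deg G w ≤ D) →
    (∀ Y, Y ⊆ W → 0 ≤ Phi G B Y D) ∧
      (∀ Y, Y ⊆ W → Phi G B Y D ≤ Fintype.card V * Real.logb 2 D) ∧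
      ∀ Y Y', Y ⊆ Y' → Y' ⊆ W → Phi G B Y D ≤ Phi G B Y' D

/-- SPLY (from PHIY): as SPLX -/
def SpecSPLY : Prop :=
  ∀ (V : Type) [Fintype V] (G : SimpleGraph V) (B W Y : Finset V) (D m : ℕ), 1 ≤ m → Y ⊆ W →
    (∀ w ∈ W, deg G w ≤ D) →
    ∃ S : Finset V, S ⊆ W ∧ StW G B W (Y ∪ S) m ∧
      (m : ℝ) * S.card + Phi G B Y D ≤ Phi G B (Y ∪ S) D

/-- ISOY: as ISOX, but a class may contain vertices outside `C`, so we only get a bound with `p`. Two exceptional vertices of `C \ B` cannot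
be in one class (`sep G v v' ∩ W ⊆ iso v ∪ iso v'`), the classes are disjoint and have at least `2 m` elements. -/
def SpecISOY : Prop :=
  ∀ (V : Type) [Fintype V] (G : SimpleGraph V) (B C W Y : Finset V) (m : ℕ) (t : ℝ),
    StW G B W Y m →
    (∀ v ∈ C, v ∉ B → ∀ u, u ∉ B → u ≠ v → t ≤ (((sep G v u) ∩ W).card : ℝ)) →
    2 * m * ((BC G B C Y m).filter fun v => ((iso G B W Y m v).card : ℝ) < t / 2).card ≤
      Fintype.card V

/-- PHSY (from ISOY): as PHSX, with tuples `c : Fin s → W`, `q = |W|`, `u(Y) = 3 |EC| + |BC|`. The average of `u(Y ∪ im c)` is at most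
`5/12 u(Y) + p / (2 m)`, the average of `|im c ∩ (EC ∪ BC)|` at most `s u(Y) / q`; `(5/12 u + e) / (3/4 u + 2 e) ≤ 5/9` with `e = p / (2 m)`,
`5/9 + 1/3 < 1`. (`u(Y) = 0`: `S = ∅`.) -/
def SpecPHSY : Prop :=
  ∀ (V : Type) [Fintype V] (G : SimpleGraph V) (B C W Y : Finset V) (m s : ℕ) (t : ℝ), 1 ≤ m →
    0 < t → t ≤ W.card → (1 - t / (2 * W.card)) ^ s ≤ 1 / 8 → StW G B W Y m →
    (∀ v ∈ C, v ∉ B → ∀ u, u ∉ B → u ≠ v → t ≤ (((sep G v u) ∩ W).card : ℝ)) →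
    (∀ v ∈ C, v ∉ B → t / 2 ≤ (((W.filter fun w => G.Adj v w).card : ℕ) : ℝ)) →
    ∃ S : Finset V, S ⊆ W ∧ S.card ≤ s ∧
      (((S ∩ (EC G B C Y ∪ BC G B C Y m)).card : ℕ) : ℝ) ≤
        3 * s * (3 * (EC G B C Y).card + (BC G B C Y m).card) / W.card ∧
      (3 * (EC G B C (Y ∪ S)).card + (BC G B C (Y ∪ S) m).card : ℝ) ≤
        3 / 4 * (3 * (EC G B C Y).card + (BC G B C Y m).card) + Fintype.card V / m

/-- ITY (from PHIY, SPLY, PHSY, PCMX): as ITX. `q = |W|`. Start: SPLY for `∅`. Step: PHSY for `Y` gives `S`, `U = EC ∪ BC`, SPLY for `Y ∪ S` gives `S'`;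
`F' = F ∪ (S ∩ U) ∪ S'`, `Y' = Y ∪ S ∪ S'`. PCMX: `PC G (F' ∪ B₀) ((Y ∪ B₀) ∪ (F' ∪ B₀)) c`, then one paid step to `Y' ∪ B₀` with `n = 2 m`: `z ∈ S \ U`, not
in the set reached, is in `W ⊆ C`, not in `B ⊆ B₀`, so `|cl G B Y z| < 2 m`, and `tc ⊆ cl G B Y z`. Recursions `u' ≤ 3/4 u + p/m`,
`|S ∩ U| ≤ 3 s u / q ≤ 9 s p (3/4)^N / q + 12 s p / (m q)`, `m |S'| ≤ Phi Y' - Phi (Y ∪ S)`. -/
def SpecITY : Prop :=
  ∀ (V : Type) [Fintype V] (G : SimpleGraph V) (B C W B₀ : Finset V) (D m s : ℕ) (t R : ℝ),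
    1 ≤ m → (∀ w ∈ W, deg G w ≤ D) → W ⊆ C → B ⊆ B₀ → 0 < t → t ≤ W.card →
    (1 - t / (2 * W.card)) ^ s ≤ 1 / 8 → (s : ℝ) ≤ R → 0 < R →
    (∀ v ∈ C, v ∉ B → ∀ u, u ∉ B → u ≠ v → t ≤ (((sep G v u) ∩ W).card : ℝ)) →
    (∀ v ∈ C, v ∉ B → t / 2 ≤ (((W.filter fun w => G.Adj v w).card : ℕ) : ℝ)) →
    ∀ N : ℕ, ∃ F Y : Finset V, F ⊆ Y ∧ Y ⊆ W ∧
      PC G (F ∪ B₀) (Y ∪ B₀)
        (((((2 * m : ℕ) : ℝ) * (1 + Fintype.card V / R)) ^ R) ^ N) ∧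
      (3 * (EC G B C Y).card + (BC G B C Y m).card : ℝ) ≤
        3 * Fintype.card V * (3 / 4 : ℝ) ^ N + 4 * Fintype.card V / m ∧
      (F.card : ℝ) ≤ 36 * s * Fintype.card V / W.card * (1 - (3 / 4 : ℝ) ^ N) +
        12 * s * N * Fintype.card V / (m * W.card) + Phi G B Y D / m ∧
      Y.card ≤ F.card + N * s

/-- FSTY: the last stage, as FSTX. Proof: for a tuple `c : Fin s → W` let `P c` be the set of the pairs `(v, u)`, `v ∈ C`, `v ∉ Y ∪ B₀`,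
`u ∈ cl G B Y v`, `u ≠ v`, such that no `c i` is in `sep G v u`. `S` = the image of `c` and an element of `sep G v u ∩ W` for each
`(v, u) ∈ P c`; the average of `|P c|` is at most `p n (1 - t / |W|) ^ s`. If `u ∉ cl G B Y v` (and `u ∉ B`), some `w ∈ Y` works. -/
def SpecFSTY : Prop :=
  ∀ (V : Type) [Fintype V] (G : SimpleGraph V) (B C W Y B₀ : Finset V) (n s : ℕ) (t : ℝ), 0 < t →
    t ≤ W.card → B ⊆ B₀ → (∀ v ∈ C, v ∉ Y ∪ B₀ → (cl G B Y v).card ≤ n) →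
    (∀ v ∈ C, v ∉ B → ∀ u, u ∉ B → u ≠ v → t ≤ (((sep G v u) ∩ W).card : ℝ)) →
    ∃ S : Finset V, S ⊆ W ∧
      (S.card : ℝ) ≤ s + Fintype.card V * n * (1 - t / W.card) ^ s ∧
      ∀ v ∈ C, v ∉ Y ∪ B₀ → ∀ u, u ∉ B → u ≠ v → ∃ w ∈ Y ∪ S, ¬(G.Adj w u ↔ G.Adj w v)

/-- NETY: a maximal set of vertices of `W` with at least `t / 2` neighbours in `W` whose neighbourhoods in `W` are pairwise
disjoint -/
def SpecNETY : Prop :=
  ∀ (V : Type) [Fintype V] (G : SimpleGraph V) (W : Finset V) (t : ℝ), 0 < t →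
    ∃ N₀ : Finset V, N₀ ⊆ W ∧ (N₀.card : ℝ) * (t / 2) ≤ W.card ∧
      ∀ v ∈ W, t / 2 ≤ (((W.filter fun w => G.Adj v w).card : ℕ) : ℝ) →
        v ∈ N₀ ∨ (∃ w ∈ N₀, G.Adj v w) ∨ ∃ w ∈ N₀, ∃ z ∈ W, G.Adj v z ∧ G.Adj z w

/-- CHNY: a connected set may be added one vertex after the other. Proof: let `X' ⊆ X` with `x₁ ∈ X'` be of maximal size such that
`SQ G D Y (Y ∪ X') j` for some `j ≤ |X'|`. If `X' ≠ X` there are adjacent `w ∈ X'`, `x ∈ X \ X'`; if `x ∈ Y` nothing is to do, otherwise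
`tc G (Y ∪ X') x ⊆ N(w)`. -/
def SpecCHNY : Prop :=
  ∀ (V : Type) [Fintype V] (G : SimpleGraph V) (D : ℕ) (X Y : Finset V) (x₁ : V),
    (G.induce (X : Set V)).Connected → x₁ ∈ X → x₁ ∈ Y → (∀ w ∈ X, deg G w ≤ D) →
    ∃ j : ℕ, j ≤ X.card ∧ SQ G D Y (Y ∪ X) j

/-- SEQY: the price of a sequence of single steps. Write `p` for the number of vertices, `H a` for the harmonic number.
Fix `g ∈ embk G a r Y₀ k`. Let `z_1, ..., z_j` be the added vertices, `Y_i` the sets, `n_i = |tc G Y_(i-1) z_i| ≤ n`. For `h ∈ embk G a r Y_j k` with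
`h ⊇ g` (i.e. `g = h.filter (·.1 ∈ Y₀)`) let `h_i` be its restriction to `Y_i` and `Cand_i(h)` the set of the `y` such that `(z_i, y)` is compatible with
`h_(i-1)`. (1) `∑_h ∏_i 1 / |Cand_i(h)| ≤ 1` (sum over the `h` over `g`; induction on `j`: given `h_(j-1)` there are at most `|Cand_j|` possibilities for `h`).
(2) For good `J ⊇ h`, `|J| + k = p`: `|Cand_i(h)| ≤ n_i + e_i`, `e_i = |Cand_i(h) \ im J|` (as in EXT: `cand_inter`). (3) `∑_i e_i / n_i ≤ k (1 + ln n)`: for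
`y ∉ im J` (there are `k` of them) let `A_i(y)` be the set of the `x ∉ Y_i` such that `(x, y)` is compatible with `h_i` (all these `x` have the same trace on `Y_i`;
`A_i(y)` decreases with `i`). If `y ∈ Cand_i`, then `A_(i-1)(y) = tc G Y_(i-1) z_i` has `n_i ≤ n` elements, and `z_i ∉ A_i(y)`; so `∑ 1 / n_i` over these `i` is at most
`H n ≤ 1 + ln n` (invariant: `∑_{i' ≤ i} e_i' / n_i' + ∑_y H (min |A_i(y)| n) ≤ k H n`). (4) So each term in (1) is at least `∏ 1 / (n (1 + e_i / n_i)) ≥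
1 / (n (1 + k (1 + ln n) / j)) ^ j ≥ 1 / (n (1 + p (1 + ln n) / R)) ^ R` (AM-GM; see `prod_bound` in EXT). For the induction state: there is a function
`wt` on sets of pairs, `wt ≥ 0`, with `∑_h wt h ≤ 1` over the `h` over `g`, and for each such `h` and `J` there is a finite family of reals `x_i ≥ 0`, `i < j`, with
`wt h ≥ ∏ 1 / (n (1 + x_i))` and `∑ x_i + ∑_{y ∉ im J} H (min |A(y)| n) ≤ k H n`. -/
def SpecSEQY : Prop :=
  ∀ (V : Type) [Fintype V] (G : SimpleGraph V) (a r : V) (Y₀ Z : Finset V) (n j k : ℕ) (R : ℝ),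
    SQ G n Y₀ Z j → a ∈ Y₀ → 1 ≤ n → (j : ℝ) ≤ R → 0 < R → k ≤ Fintype.card V →
    ((embk G a r Z k).card : ℝ) ≤ (embk G a r Y₀ k).card *
      ((n : ℝ) * (1 + Fintype.card V * (1 + Real.log n) / R)) ^ R

/-- ECNY (from EXT): the count along a chain (as ECNX without the bound for the base) -/
def SpecECNY : Prop :=
  ∀ (V : Type) [Fintype V] (G : SimpleGraph V) (a r : V) (X₀ Y : Finset V) (c : ℝ) (k : ℕ),
    PC G X₀ Y c → a ∈ X₀ → k ≤ Fintype.card V →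
    ((embk G a r Y k).card : ℝ) ≤ (embk G a r X₀ k).card * c

/-- NUNY: numerical, as NUNX. `L ≥ 16`, `l = log2 L ≥ 4`, `N = ⌈31 + 5/2 l⌉`, `R = 6 p / (10^5 L)`, `m = ⌈1000 L^2⌉₊`, `2 m ≤ 2001 L^2`.
`(31 + 5/2 l) log2 (4/3) ≥ 12.86 + l ≥ log2 (6000 L)`; `log2 (2 m (1 + p / R)) ≤ 25.1 + 3 l`;
`(32 + 5/2 l)(25.1 + 3 l) * 6 ≤ 1000 * 2^l` for `l ≥ 4`. -/
def SpecNUNY : Prop :=
  ∀ (p D : ℕ), 2 ≤ D → 50000 * Real.logb 2 D ≤ (D : ℝ) → 100000 * Real.logb 2 D ≤ (p : ℝ) →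
    ∃ N : ℕ, 3 * (p : ℝ) * (3 / 4 : ℝ) ^ N ≤ p / (2000 * Real.logb 2 D) ∧
      (((((2 * ⌈1000 * Real.logb 2 D ^ 2⌉₊ : ℕ) : ℝ) *
        (1 + (p : ℝ) / (6 * p / (100000 * Real.logb 2 D)))) ^
          (6 * (p : ℝ) / (100000 * Real.logb 2 D))) ^ N) ≤ (2 : ℝ) ^ ((p : ℝ) / 100) ∧
      (N : ℝ) * (6 * p / (100000 * Real.logb 2 D)) ≤ p / 1000

/-- NUTY: numerical, as NUTX. `q ≤ p`, `s = ⌈q (16.2 + 3 ln L) / (10^5 L)⌉`; `p 2001 L^2 e^(-16.2) L^(-3) ≤ 0.0002 p / L`, `1 ≤ p / (10^5 L)`;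
`(16.2 + 3 ln L + 1 + 20) / 10^5 / L ≤ 1 / (6000 sqrt L)` as `38 + 3 ln L ≤ 16.6 sqrt L` for `L ≥ 16`.
Price: `2 m (1 + 6000 sqrt L) ≤ 2001 * 6001 L^(5/2)`, `log2 ≤ 23.6 + 5/2 log2 L ≤ 12 sqrt L`. -/
def SpecNUTY : Prop :=
  ∀ (p q D : ℕ), 2 ≤ D → 50000 * Real.logb 2 D ≤ (D : ℝ) → 100000 * Real.logb 2 D ≤ (q : ℝ) →
    q ≤ p →
    ∃ s : ℕ, (s : ℝ) + p * ((2 * ⌈1000 * Real.logb 2 D ^ 2⌉₊ : ℕ) : ℝ) *
        (1 - 100000 * Real.logb 2 D / q) ^ s ≤ p / (6000 * Real.sqrt (Real.logb 2 D)) ∧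
      (((2 * ⌈1000 * Real.logb 2 D ^ 2⌉₊ : ℕ) : ℝ) *
        (1 + (p : ℝ) / (p / (6000 * Real.sqrt (Real.logb 2 D))))) ^
          ((p : ℝ) / (6000 * Real.sqrt (Real.logb 2 D))) ≤ (2 : ℝ) ^ ((p : ℝ) / 500)

/-- NUBY: numerical, the price of the base. `L ≥ 16`, `ln D = L ln 2 ≤ 0.6932 L`.
`log2` of the first: `p / (20 L) (L + log2 (1 + 20 L (1 + 0.6932 L))) ≤ p (1/20 + 0.0373)`; of the second:
`p / (200 L) (L + log2 (1 + 200 L)) ≤ p (1/200 + 0.0037)`; of the third `≤ 4 log2 p + 4 ≤ p / 1000`. -/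
def SpecNUBY : Prop :=
  ∀ (p D : ℕ), 2 ≤ D → 50000 * Real.logb 2 D ≤ (D : ℝ) → 100000 * Real.logb 2 D ≤ (p : ℝ) →
    ((D : ℝ) * (1 + p * (1 + Real.log D) / (p / (20 * Real.logb 2 D)))) ^
        ((p : ℝ) / (20 * Real.logb 2 D)) ≤ (2 : ℝ) ^ ((p : ℝ) * (9 / 100)) ∧
      ((D : ℝ) * (1 + (p : ℝ) / (p / (200 * Real.logb 2 D)))) ^
        ((p : ℝ) / (200 * Real.logb 2 D)) ≤ (2 : ℝ) ^ ((p : ℝ) * (9 / 1000)) ∧
      ((p : ℝ) * (1 + p / 1)) ^ 2 ≤ (2 : ℝ) ^ ((p : ℝ) / 1000)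

/-- NUFY: numerical. `p ≥ 1600000`; `log2` of the left side `≤ 1 + 0.112 p + log2 (m + 1) + m log2 3`,
`m (2 - log2 3) ≥ 0.415 * 0.49 p ≥ 0.203 p`. -/
def SpecNUFY : Prop :=
  ∀ p D m : ℕ, 2 ≤ D → 50000 * Real.logb 2 D ≤ (D : ℝ) → 100000 * Real.logb 2 D ≤ (p : ℝ) →
    m ≤ p → 49 * p ≤ 100 * m →
    2 * (2 : ℝ) ^ ((p : ℝ) * (112 / 1000)) * (m + 1) * 3 ^ m < 4 ^ m

end Pool.Agent.Lib.MP50ecf8.LOC
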