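import Pool.Agent.Lib.MP_50ecf8_co.LOC.Spec8
import Pool.Agent.Lib.MP_50ecf8_co.LOC.Spec6

/-!
# Separation linear in `log2 D`, with classes of twins of any sizes

`T` is a transversal of the classes of twins, `B` a small union of classes, `A = T ∪ B`, `W ⊆ C ⊆ T`. The construction of the chain is
done in the graph `H = G[A]` (all modules of Spec8 are applied to `H`), the count is done in `G`: the images of new vertices are
only counted up to twins.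
-/

set_option autoImplicit false

open Finset
open scoped Classical

namespace Pool.Agent.Lib.MP50ecf8.LOC

/-- chains in a graph: batches (as in `PC`) and sequences of single steps (as in `SQ`) -/
inductive CH {V : Type} [Fintype V] (G : SimpleGraph V) (Y₀ : Finset V) : Finset V → ℝ → Prop
  | base : CH G Y₀ Y₀ 1
  | paid {Y Z : Finset V} {c R : ℝ} {n : ℕ} : CH G Y₀ Y c → Y ⊆ Z → 1 ≤ n →
      (∀ z ∈ Z, z ∉ Y → (tc G Y z).card ≤ n) → (((Z \ Y).card : ℕ) : ℝ) ≤ R → 0 < R →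
      CH G Y₀ Z (c * ((n : ℝ) * (1 + Fintype.card V / R)) ^ R)
  | seq {Y Z : Finset V} {c R : ℝ} {n j : ℕ} : CH G Y₀ Y c → SQ G n Y Z j → 1 ≤ n → (j : ℝ) ≤ R →
      0 < R → CH G Y₀ Z (c * ((n : ℝ) * (1 + Fintype.card V * (1 + Real.log n) / R)) ^ R)

/-- as `SQ`, for vertices of `A`; the trace classes are counted in `A` -/
inductive SQA {V : Type} [Fintype V] (G : SimpleGraph V) (A : Finset V) (n : ℕ) (Y₀ : Finset V) :
    Finset V → ℕ → Prop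
  | base : SQA G A n Y₀ Y₀ 0
  | step {Y : Finset V} {x : V} {j : ℕ} : SQA G A n Y₀ Y j → x ∉ Y → x ∈ A →
      (tc G Y x ∩ A).card ≤ n → SQA G A n Y₀ (insert x Y) (j + 1)

/-- `RZ G T A Y₀ K Y c`: the set `Y` is reached from `Y₀` at the price `c` (images up to twins) -/
inductive RZ {V : Type} [Fintype V] (G : SimpleGraph V) (T A Y₀ : Finset V) (K : ℝ) :
    Finset V → ℝ → Prop
  | base : RZ G T A Y₀ K Y₀ 1
  | free {Y : Finset V} {x : V} {c : ℝ} : RZ G T A Y₀ K Y c → x ∉ Y → x ∈ T → ClT G T Y →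
      UniT G Y x → RZ G T A Y₀ K (insert x Y) c
  | paid {Y Z : Finset V} {c R : ℝ} {n : ℕ} : RZ G T A Y₀ K Y c → Y ⊆ Z → Z \ Y ⊆ A → 1 ≤ n →
      (∀ z ∈ Z, z ∉ Y → (tc G Y z ∩ A).card ≤ n) → (((Z \ Y).card : ℕ) : ℝ) ≤ R → 0 < R →
      RZ G T A Y₀ K Z (c * ((n : ℝ) * (1 + K / R)) ^ R)
  | seq {Y Z : Finset V} {c R : ℝ} {n j : ℕ} : RZ G T A Y₀ K Y c → SQA G A n Y Z j → 1 ≤ n →
      (j : ℝ) ≤ R → 0 < R →
      RZ G T A Y₀ K Z (c * ((n : ℝ) * (1 + K * (1 + Real.log n) / R)) ^ R)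

/-- TRZ: transfer of a chain from `H = G[A]` to `G` (`tc H Y z` is mapped onto `tc G Y z ∩ A`) -/
def SpecTRZ : Prop :=
  ∀ (V : Type) [Fintype V] (G : SimpleGraph V) (T A : Finset V) [Fintype ((A : Set V) : Type)]
    (Y₀ Y : Finset ((A : Set V) : Type)) (c : ℝ), CH (G.induce (A : Set V)) Y₀ Y c →
    RZ G T A (Y₀.image Subtype.val) A.card (Y.image Subtype.val) c

/-- FSTT: as FSTY, with strict separation (`w ≠ u`, `w ≠ v`); there are at most `2 p n` pairs `(v, u)`, `v ∈ C`, `v ∉ Y ∪ B₀`, `u ∉ B`, `u ≠ v`, not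
strictly told apart by `Y`: if `u ∈ cl G B Y v`, at most `n` for each `v`; otherwise `u ∈ Y` and `u`, `v` are adjacent, and all such
`v` for a given `u` have the same trace on `Y`, so there are at most `n`. -/
def SpecFSTT : Prop :=
  ∀ (V : Type) [Fintype V] (G : SimpleGraph V) (B C W Y B₀ : Finset V) (n s : ℕ) (t : ℝ), 0 < t →
    t ≤ W.card → B ⊆ B₀ → (∀ v ∈ C, v ∉ Y ∪ B₀ → (cl G B Y v).card ≤ n) →
    (∀ v ∈ C, v ∉ B → ∀ u, u ∉ B → u ≠ v → t ≤ (((sep G v u) ∩ W).card : ℝ)) →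
    ∃ S : Finset V, S ⊆ W ∧
      (S.card : ℝ) ≤ s + 2 * Fintype.card V * n * (1 - t / W.card) ^ s ∧
      ∀ v ∈ C, v ∉ Y ∪ B₀ → ∀ u, u ∉ B → u ≠ v →
        ∃ w ∈ Y ∪ S, w ≠ u ∧ w ≠ v ∧ ¬(G.Adj w u ↔ G.Adj w v)

/-- FREE: a random set which tells everything apart. For a tuple `c : Fin s → W` consider the pairs `(v, u)`, `v ∈ C \ B`, `u ∉ B`, `u ≠ v`, not
strictly told apart by `Y`: if `v` has a neighbour `w ∈ Y ∩ W`, then `u = w` or `u` is a neighbour of `w` (at most `D + 1 ≤ 2 D` of them); for the at most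
one other `v` at most `p`. So at most `3 p D` pairs; `P` = image of `c` and an element of `sep G v u ∩ W` for every such pair with no `c i` in
`sep G v u`. -/
def SpecFREE : Prop :=
  ∀ (V : Type) [Fintype V] (G : SimpleGraph V) (B C W Y : Finset V) (D s : ℕ) (t : ℝ), 0 < t →
    t ≤ W.card → 1 ≤ D → (∀ w ∈ W, deg G w ≤ D) →
    (∀ v ∈ C, v ∉ B → ∀ u, u ∉ B → u ≠ v → t ≤ (((sep G v u) ∩ W).card : ℝ)) →
    (C.filter fun v => v ∉ B ∧ ¬ ∃ w ∈ Y, w ∈ W ∧ G.Adj v w).card ≤ 1 →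
    ∃ P : Finset V, P ⊆ W ∧
      (P.card : ℝ) ≤ s + 3 * Fintype.card V * D * (1 - t / W.card) ^ s ∧
      ∀ v ∈ C, v ∉ B → ∀ u, u ∉ B → u ≠ v →
        ∃ w ∈ Y ∪ P, w ≠ u ∧ w ≠ v ∧ ¬(G.Adj w u ↔ G.Adj w v)

/-- PAYZ (from PRM; compare PAY.lean): a paid step, images up to twins. For `J ∈ AdT G T X k Y h` and `z ∈ Z \ Y` (`z ∈ X`, so `z ∈ dom J`) let
`σ_J z ∈ T` be the twin of `J z`; it is in `𝒦 z`, the set of the `t ∈ T` such that `(z, y)` is compatible with `h` for some twin `y` of `t`. If `σ_J = σ_J'`, then PRM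
gives an automorphism `φ` with `φ ∘ J = J'` on `Z`; `φ ∘ J` is in `AdT G T X k Z (J'|Z)` and has the same domain as `J`. So `FT Y h` is contained in the union of
the `FT Z h_σ` over at most `∏ |𝒦 z|` functions `σ`, `h_σ` the restriction to `Z` of one `J` with `σ_J = σ`. (`UT G Z h_σ ⊆ UT G Y h`, `AdT Z h_σ ⊆ AdT Y h`.)
With `n_z = |tc G Y z ∩ A| ≥ 1`, `x_z = |𝒦 z| / n_z`: `∑ x_z ≤ |T| ≤ K`, because for `t ∈ T` all `z` with `t ∈ 𝒦 z` have the same trace on `Y`, so they are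
`≤ n_z` many, with equal `n_z`. `∏ |𝒦 z| ≤ ∏ n (1 + x_z) ≤ (n (1 + K / R)) ^ R` (EXTM.prod_bound). -/
def SpecPAYZ : Prop :=
  ∀ (V : Type) [Fintype V] (G : SimpleGraph V) (T A X Y Z : Finset V) (n k : ℕ) (K R M : ℝ),
    Trv G T → Y ⊆ Z → Z ⊆ X → Z \ Y ⊆ A → 1 ≤ n →
    (∀ z ∈ Z, z ∉ Y → (tc G Y z ∩ A).card ≤ n) →
    (((Z \ Y).card : ℕ) : ℝ) ≤ R → 0 < R → (T.card : ℝ) ≤ K → 0 ≤ M →
    (∀ h : Finset (V × V), h.image Prod.fst = Z →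
      ∀ (D : Finset V) (κ : ℕ), (∀ y ∈ D, y ∉ UT G Z h) →
      (∀ J ∈ AdT G T X k Z h, κ ≤ (D \ J.image Prod.snd).card) →
      2 ^ κ * ((FT G T X k Z h).card : ℝ) ≤ M) →
    ∀ h : Finset (V × V), h.image Prod.fst = Y →
      ∀ (D : Finset V) (κ : ℕ), (∀ y ∈ D, y ∉ UT G Y h) →
      (∀ J ∈ AdT G T X k Y h, κ ≤ (D \ J.image Prod.snd).card) →
      2 ^ κ * ((FT G T X k Y h).card : ℝ) ≤ M * ((n : ℝ) * (1 + K / R)) ^ R

/-- SEQZ (adapt SEQY.lean, with the elements `t` of `T` in place of the `y ∉ im J`): the price of a sequence of single steps, images up to twins.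
Fix `h₀` with domain `Y₀`. Claim, by induction on `SQA` (for `Y ⊆ X`): there are a finite set `𝓛` of sets `h ⊇ h₀` with `h.image fst = Y`,
`h.filter (·.1 ∈ Y₀) = h₀`, and weights `wt h ≥ 0` with `∑_{h ∈ 𝓛} wt h ≤ 1`, `FT Y₀ h₀ ⊆ ⋃_{h ∈ 𝓛} FT Y h`, and for each `h ∈ 𝓛` reals `x_i ≥ 0`, `i < j`, with
`wt h ≥ ∏ 1 / (n (1 + x_i))` and `∑ x_i + ∑_{t ∈ T} H (min |A_h(t)| n) ≤ |T| H n`, where `A_h(t)` is the set of the `x ∈ A \ Y` such that `(x, y)` is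
compatible with `h` for some twin `y` of `t`. Step `z`: for `h ∈ 𝓛` let `𝒦` be the set of the `t ∈ T` such that `(z, y_t)` is compatible with `h` for some twin `y_t` of
`t` (choose one). Replace `h` by the `insert (z, y_t) h`, `t ∈ 𝒦`, with weights `wt h / |𝒦|` (if `𝒦 = ∅`, `FT Y h = ∅`). If `J ∈ AdT Y h`, then `y = J z` is a twin of some
`t ∈ 𝒦`; `y`, `y_t` are not in `im h`; the swap of `y` and `y_t` is an automorphism, and composed with `J` it is in `AdT (insert z Y) (insert (z, y_t) h)`, with the same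
domain. For `t ∈ 𝒦`: `A_h(t) = tc G Y z ∩ A`, `n_z` elements, and the new `A(t)` does not contain `z`: so `H` drops by `≥ 1 / n_z` for each `t ∈ 𝒦`;
`x = |𝒦| / n_z`, `|𝒦| ≤ n (1 + x)`. At the end `UT`, `AdT` as in PAYZ, `|𝓛| ≤ price`. -/
def SpecSEQZ : Prop :=
  ∀ (V : Type) [Fintype V] (G : SimpleGraph V) (T A X Y₀ Z : Finset V) (n j k : ℕ) (K R M : ℝ),
    Trv G T → SQA G A n Y₀ Z j → Z ⊆ X → 1 ≤ n → (j : ℝ) ≤ R → 0 < R → (T.card : ℝ) ≤ K → 0 ≤ M →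
    (∀ h : Finset (V × V), h.image Prod.fst = Z →
      ∀ (D : Finset V) (κ : ℕ), (∀ y ∈ D, y ∉ UT G Z h) →
      (∀ J ∈ AdT G T X k Z h, κ ≤ (D \ J.image Prod.snd).card) →
      2 ^ κ * ((FT G T X k Z h).card : ℝ) ≤ M) →
    ∀ h : Finset (V × V), h.image Prod.fst = Y₀ →
      ∀ (D : Finset V) (κ : ℕ), (∀ y ∈ D, y ∉ UT G Y₀ h) →
      (∀ J ∈ AdT G T X k Y₀ h, κ ≤ (D \ J.image Prod.snd).card) →
      2 ^ κ * ((FT G T X k Y₀ h).card : ℝ) ≤ M * ((n : ℝ) * (1 + K * (1 + Real.log n) / R)) ^ R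

/-- CNTZ (from BCT, STPM, PAYZ, SEQZ; adapt CNTU.lean): the count. Start with BCT at `X`, then down the chain; all sets of the chain are contained in `X`.
`ClT` is given in the free steps. -/
def SpecCNTZ : Prop :=
  ∀ (V : Type) [Fintype V] (G : SimpleGraph V) (T A X₀ X : Finset V) (k : ℕ) (K c : ℝ), Trv G T →
    RZ G T A X₀ K X c → ClT G T X → LocT G X → (T.card : ℝ) ≤ K →
    ∀ g : Finset (V × V), g.image Prod.fst = X₀ → ((FT G T X k X₀ g).card : ℝ) ≤ 4 ^ k * c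

/-- NUTZ: numerical, as NUTY with a factor 2 (`s = ⌈q (17 + 3 ln L) / (10^5 L)⌉`) -/
def SpecNUTZ : Prop :=
  ∀ (p q D : ℕ), 2 ≤ D → 50000 * Real.logb 2 D ≤ (D : ℝ) → 100000 * Real.logb 2 D ≤ (q : ℝ) →
    q ≤ p →
    ∃ s : ℕ, (s : ℝ) + 2 * p * ((2 * ⌈1000 * Real.logb 2 D ^ 2⌉₊ : ℕ) : ℝ) *
        (1 - 100000 * Real.logb 2 D / q) ^ s ≤ p / (6000 * Real.sqrt (Real.logb 2 D)) ∧
      (((2 * ⌈1000 * Real.logb 2 D ^ 2⌉₊ : ℕ) : ℝ) *
        (1 + (p : ℝ) / (p / (6000 * Real.sqrt (Real.logb 2 D))))) ^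
          ((p : ℝ) / (6000 * Real.sqrt (Real.logb 2 D))) ≤ (2 : ℝ) ^ ((p : ℝ) / 500)

/-- NUPZ: numerical. `s = ⌈2 q ln D / (10^5 L)⌉ ≤ 1.4 q / 10^5 + 1`, `(1 - 10^5 L / q) ^ s ≤ 1 / D^2`, `3 p / D ≤ 4 p / 10^6`, `1 ≤ p / 10^6` (`L ≥ 15`). -/
def SpecNUPZ : Prop :=
  ∀ (p q D : ℕ), 2 ≤ D → 50000 * Real.logb 2 D ≤ (D : ℝ) → 100000 * Real.logb 2 D ≤ (q : ℝ) →
    q ≤ p →
    ∃ s : ℕ, (s : ℝ) + 3 * p * D * (1 - 100000 * Real.logb 2 D / q) ^ s ≤ p / 10000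

/-- NUFZ: numerical. `p ≥ 1500000`; `log2 (5/4) ≥ 0.3219`, `0.48 * 0.3219 p = 0.1545 p`. -/
def SpecNUFZ : Prop :=
  ∀ p D m : ℕ, 2 ≤ D → 50000 * Real.logb 2 D ≤ (D : ℝ) → 100000 * Real.logb 2 D ≤ (p : ℝ) →
    m ≤ p → 48 * p ≤ 100 * m →
    2 * (2 : ℝ) ^ ((p : ℝ) * (112 / 1000)) * (m + 1) * 4 ^ m < 5 ^ m

end Pool.Agent.Lib.MP50ecf8.LOC
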