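import Pool.Agent.Lib.MP_50ecf8_co.LOC.Spec

/-!
# TOG: toggling
-/

set_option autoImplicit false

open Finset
open scoped Classical

namespace Pool.Agent.Lib.MP50ecf8.LOC

namespace TOGM

/-- Add or remove `u`. -/
noncomputable def tog {V : Type} (u : V × V) (I : Finset (V × V)) : Finset (V × V) :=
  if u ∈ I then I.erase u else insert u I

lemma mem_tog {V : Type} (u w : V × V) (I : Finset (V × V)) :
    w ∈ tog u I ↔ (w = u ∧ u ∉ I) ∨ (w ≠ u ∧ w ∈ I) := by
  unfold tog
  split_ifs with h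
  · rw [Finset.mem_erase]; tauto
  · rw [Finset.mem_insert]
    by_cases hw : w = u
    · subst hw; simp [h]
    · simp [hw]

lemma tog_tog {V : Type} (u : V × V) (I : Finset (V × V)) : tog u (tog u I) = I := by
  ext w
  rw [mem_tog, mem_tog, mem_tog]
  by_cases hw : w = u
  · subst hw; simp
  · simp [hw]

lemma sign_tog {V : Type} (u : V × V) (I : Finset (V × V)) :
    (-1 : ℤ) ^ I.card + (-1 : ℤ) ^ (tog u I).card = 0 := by
  unfold tog
  split_ifs with h
  · have h1 : I.card = (I.erase u).card + 1 := (Finset.card_erase_add_one h).symm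
    rw [h1, pow_succ]; ring
  · rw [Finset.card_insert_of_notMem h, pow_succ]; ring

lemma tog_ne {V : Type} (u : V × V) (I : Finset (V × V)) : tog u I ≠ I := by
  intro h
  have h1 := mem_tog u u I
  rw [h] at h1
  simp at h1

lemma cmp_symm {V : Type} {G : SimpleGraph V} {u w : V × V} (h : Cmp G u w) : Cmp G w u := by
  refine ⟨?_, ?_⟩
  · rw [eq_comm (a := w.1), eq_comm (a := w.2)]; exact h.1
  · rw [G.adj_comm w.1, G.adj_comm w.2]; exact h.2

lemma cmp_self {V : Type} (G : SimpleGraph V) (u : V × V) : Cmp G u u :=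
  ⟨by simp, by simp⟩

end TOGM

open TOGM in
theorem specTOG : SpecTOG := by
  intro V _ G a r S haS hT
  unfold T at hT
  rw [← Finset.sum_fiberwise _ (fun I : Finset (V × V) => I.filter fun u => u.1 ∈ S)] at hT
  obtain ⟨J, -, hJ⟩ := Finset.exists_ne_zero_of_sum_ne_zero hT
  obtain ⟨I₀, hI₀, -⟩ := Finset.exists_ne_zero_of_sum_ne_zero hJ
  rw [Finset.mem_filter, Finset.mem_filter] at hI₀
  obtain ⟨⟨-, hg₀, har₀, hS₀⟩, hJ₀⟩ := hI₀
  have himg : J.image Prod.fst = S := by
    ext s
    rw [Finset.mem_image, ← hJ₀]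
    constructor
    · rintro ⟨w, hw, rfl⟩
      exact (Finset.mem_filter.1 hw).2
    · intro hs
      obtain ⟨w, hw, hws⟩ := Finset.mem_image.1 (hS₀ hs)
      exact ⟨w, Finset.mem_filter.2 ⟨hw, by rw [hws]; exact hs⟩, hws⟩
  refine ⟨J, ?_, ?_, himg, ?_⟩
  · intro u hu w hw
    rw [← hJ₀] at hu hw
    exact hg₀ u (Finset.mem_filter.1 hu).1 w (Finset.mem_filter.1 hw).1
  · rw [← hJ₀]
    exact Finset.mem_filter.2 ⟨har₀, haS⟩
  · by_contra hcl
    unfold Closed at hcl
    push Not at hcl
    obtain ⟨u, huJ, huc, huw⟩ := hcl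
    have huS : u.1 ∉ S := by
      intro hu
      rw [← himg] at hu
      obtain ⟨u', hu', he⟩ := Finset.mem_image.1 hu
      have h1 := (huc u' hu').1.1 he.symm
      have h2 : u = u' := Prod.ext he.symm h1
      exact huJ (h2 ▸ hu')
    apply hJ
    refine Finset.sum_involution (fun I _ => tog u I) (fun I _ => sign_tog u I)
      (fun I _ _ => tog_ne u I) ?_ (fun I _ => tog_tog u I)
    intro I hI
    rw [Finset.mem_filter, Finset.mem_filter] at hI ⊢
    obtain ⟨⟨-, hg, har, hS⟩, hIJ⟩ := hI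
    have hcomp : ∀ w ∈ I, Cmp G u w := by
      intro w hw
      apply huw
      intro z hz
      rw [← hIJ] at hz
      exact hg w hw z (Finset.mem_filter.1 hz).1
    refine ⟨⟨Finset.mem_univ _, ?_, ?_, ?_⟩, ?_⟩
    · intro w hw w' hw'
      rw [mem_tog] at hw hw'
      rcases hw with ⟨rfl, -⟩ | ⟨-, hw⟩
      · rcases hw' with ⟨rfl, -⟩ | ⟨-, hw'⟩
        · exact cmp_self G _
        · exact hcomp w' hw'
      · rcases hw' with ⟨rfl, -⟩ | ⟨-, hw'⟩
        · exact cmp_symm (hcomp w hw)
        · exact hg w hw w' hw'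
    · rw [mem_tog]
      right
      refine ⟨?_, har⟩
      intro h
      apply huS
      rw [← h]
      exact haS
    · intro s hs
      obtain ⟨w, hw, hws⟩ := Finset.mem_image.1 (hS hs)
      rw [Finset.mem_image]
      refine ⟨w, ?_, hws⟩
      rw [mem_tog]
      right
      refine ⟨?_, hw⟩
      intro h
      apply huS
      rw [← h, hws]
      exact hs
    · rw [← hIJ]
      ext w
      rw [Finset.mem_filter, Finset.mem_filter, mem_tog]
      constructor
      · rintro ⟨h | h, hS'⟩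
        · exact absurd (h.1 ▸ hS') huS
        · exact ⟨h.2, hS'⟩
      · rintro ⟨h, hS'⟩
        refine ⟨Or.inr ⟨?_, h⟩, hS'⟩
        rintro rfl
        exact huS hS'

end Pool.Agent.Lib.MP50ecf8.LOC
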