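import Pool.Agent.Lib.MP_50ecf8_co.LOC.Spec6
import Pool.Agent.Lib.MP_50ecf8_co.LOC.RNV

/-!
# Module TOPT: first stage, strong form
-/

set_option autoImplicit false

open Finset
open scoped Classical

namespace Pool.Agent.Lib.MP50ecf8.LOC

namespace TOPTM

open RNCM TOPRM RNVM

variable {V : Type} [Fintype V]

/-- the vertices of `n2` with at least `t` separators in `T` -/
noncomputable def n3 (G : SimpleGraph V) (T B : Finset V) (t : ℝ) (v : V) : Finset V :=
  (n2 G T B v).filter fun u => t ≤ ((sep G v u ∩ T).card : ℝ)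

theorem card_n3 (G : SimpleGraph V) (T B : Finset V) (t : ℝ) (D : ℕ)
    (hD : ∀ v ∈ T, (T.filter fun w => G.Adj v w).card ≤ D) (v : V) (hv : v ∈ T) :
    (n3 G T B t v).card ≤ D * D :=
  (card_filter_le _ _).trans (card_n2 G T B D hD v hv)

end TOPTM

open RNCM TOPRM RNVM TOPTM

theorem specTOPT : SpecTOPT := by
  intro V _ G T B C D s t ht hCT hD hnb htT hT
  have hT0 : (0 : ℝ) < T.card := by exact_mod_cast hT
  set P : ℝ := (T.card : ℝ) with hP
  have hx1 : 0 ≤ 1 - t / P := by
    rw [sub_nonneg, div_le_one hT0]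
    exact htT
  have hx2 : 0 ≤ 1 - t / (2 * P) := by
    rw [sub_nonneg, div_le_one (by positivity)]
    linarith
  set CB : Finset V := C \ B with hCB
  have hCBT : CB ⊆ T := sdiff_subset.trans hCT
  have hCBc : (CB.card : ℝ) ≤ P := by
    rw [hP]
    exact_mod_cast card_le_card hCBT
  set W : Finset V := CB.filter fun v => t / 2 ≤ ((nT G T v).card : ℝ) with hW
  have hWc : (W.card : ℝ) ≤ P := le_trans (by exact_mod_cast card_filter_le _ _) hCBc
  set Lo : Finset V := CB.filter fun v => ((nT G T v).card : ℝ) < t / 2 with hLo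
  -- choices
  have hf : ∀ v, ∃ w, v ∈ T → w ∈ T ∧ G.Adj v w := by
    intro v
    by_cases hv : v ∈ T
    · obtain ⟨w, hw, hvw⟩ := hnb v hv
      exact ⟨w, fun _ => ⟨hw, hvw⟩⟩
    · exact ⟨v, fun h => absurd h hv⟩
  choose f hf using hf
  have hg : ∀ v u, ∃ w, t ≤ ((sep G v u ∩ T).card : ℝ) → w ∈ sep G v u ∩ T := by
    intro v u
    by_cases h : t ≤ ((sep G v u ∩ T).card : ℝ)
    · have h3 : 0 < (sep G v u ∩ T).card := by
        have : (0 : ℝ) < ((sep G v u ∩ T).card : ℝ) := lt_of_lt_of_le ht h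
        exact_mod_cast this
      obtain ⟨w, hw⟩ := card_pos.1 h3
      exact ⟨w, fun _ => hw⟩
    · exact ⟨v, fun a => absurd a h⟩
  choose g hg using hg
  -- (a)
  have ha : ∑ v ∈ W, ((avC s T (nb G v)).card : ℝ) ≤ P * (P ^ s * (1 - t / (2 * P)) ^ s) := by
    calc ∑ v ∈ W, ((avC s T (nb G v)).card : ℝ) ≤
        ∑ v ∈ W, (P ^ s * (1 - t / (2 * P)) ^ s) := by
          refine sum_le_sum fun v hv => ?_
          rw [hW, mem_filter] at hv
          have h1 : t / 2 ≤ ((nb G v ∩ T).card : ℝ) := by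
            have e : nb G v ∩ T = nT G T v := by
              ext w
              simp only [nb, nT, mem_inter, mem_filter, mem_univ, true_and]
              tauto
            rw [e]
            exact hv.2
          have h2 := card_avC s T (nb G v) (t / 2) h1 hT
          rwa [div_div] at h2
      _ = W.card * (P ^ s * (1 - t / (2 * P)) ^ s) := by rw [sum_const, nsmul_eq_mul]
      _ ≤ _ := mul_le_mul_of_nonneg_right hWc (by positivity)
  -- (b)
  have hb : ∑ v ∈ CB, ∑ u ∈ n3 G T B t v, ((avC s T (sep G v u)).card : ℝ) ≤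
      P * ((D : ℝ) ^ 2 * (P ^ s * (1 - t / P) ^ s)) := by
    calc ∑ v ∈ CB, ∑ u ∈ n3 G T B t v, ((avC s T (sep G v u)).card : ℝ) ≤
        ∑ v ∈ CB, ∑ u ∈ n3 G T B t v, (P ^ s * (1 - t / P) ^ s) := by
          refine sum_le_sum fun v hv => sum_le_sum fun u hu => ?_
          rw [n3, mem_filter] at hu
          exact card_avC s T (sep G v u) t hu.2 hT
      _ ≤ ∑ v ∈ CB, ((D : ℝ) ^ 2 * (P ^ s * (1 - t / P) ^ s)) := by
          refine sum_le_sum fun v hv => ?_
          rw [sum_const, nsmul_eq_mul]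
          apply mul_le_mul_of_nonneg_right _ (by positivity)
          rw [sq]
          exact_mod_cast card_n3 G T B t D hD v (hCBT hv)
      _ = CB.card * ((D : ℝ) ^ 2 * (P ^ s * (1 - t / P) ^ s)) := by rw [sum_const, nsmul_eq_mul]
      _ ≤ _ := mul_le_mul_of_nonneg_right hCBc (by positivity)
  -- double counting
  have hc1 : ∑ c : Fin s → {x // x ∈ T},
      ((W.filter fun v => ∀ i, (c i : V) ∉ nb G v).card : ℝ) =
      ∑ v ∈ W, ((avC s T (nb G v)).card : ℝ) := by
    have h := sum_card_bipartiteAbove_eq_sum_card_bipartiteBelow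
      (s := (univ : Finset (Fin s → {x // x ∈ T}))) (t := W)
      (fun c v => ∀ i, (c i : V) ∉ nb G v)
    exact_mod_cast h
  have hc2 : ∑ c : Fin s → {x // x ∈ T}, ∑ v ∈ CB,
      (((n3 G T B t v).filter fun u => ∀ i, (c i : V) ∉ sep G v u).card : ℝ) =
      ∑ v ∈ CB, ∑ u ∈ n3 G T B t v, ((avC s T (sep G v u)).card : ℝ) := by
    rw [sum_comm]
    refine sum_congr rfl fun v _ => ?_
    have h := sum_card_bipartiteAbove_eq_sum_card_bipartiteBelow
      (s := (univ : Finset (Fin s → {x // x ∈ T}))) (t := n3 G T B t v)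
      (fun c u => ∀ i, (c i : V) ∉ sep G v u)
    exact_mod_cast h
  -- the average
  set K : ℝ := P * (1 - t / (2 * P)) ^ s + P * (D : ℝ) ^ 2 * (1 - t / P) ^ s with hK
  obtain ⟨x₀, hx₀⟩ := card_pos.1 hT
  have : Nonempty {x // x ∈ T} := ⟨⟨x₀, hx₀⟩⟩
  obtain ⟨c, -, hc⟩ := exists_le_of_sum_le (s := (univ : Finset (Fin s → {x // x ∈ T})))
    univ_nonempty
    (f := fun c : Fin s → {x // x ∈ T} => ((W.filter fun v => ∀ i, (c i : V) ∉ nb G v).card : ℝ) +
      ∑ v ∈ CB, (((n3 G T B t v).filter fun u => ∀ i, (c i : V) ∉ sep G v u).card : ℝ))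
    (g := fun _ => K) (by
      rw [sum_add_distrib, hc1, hc2, sum_const, card_univ, Fintype.card_fun, Fintype.card_fin,
        nsmul_eq_mul, Nat.cast_pow, Fintype.card_coe, ← hP]
      refine (add_le_add ha hb).trans (le_of_eq ?_)
      rw [hK]
      ring)
  set FA : Finset V := W.filter fun v => ∀ i, (c i : V) ∉ nb G v with hFA
  set FP : V → Finset V := fun v => (n3 G T B t v).filter fun u => ∀ i, (c i : V) ∉ sep G v u
    with hFP
  set IM : Finset V := univ.image (fun i => (c i : V)) with hIM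
  set X₁ : Finset V := IM ∪ (FA.image f ∪ ((CB.biUnion fun v => (FP v).image (g v)) ∪ Lo.image f))
    with hX
  have hci : ∀ i, (c i : V) ∈ X₁ := fun i =>
    mem_union_left _ (mem_image_of_mem (fun i => (c i : V)) (mem_univ i))
  have hXT : X₁ ⊆ T := by
    refine union_subset ?_ (union_subset ?_ (union_subset ?_ ?_))
    · intro x hx
      rw [hIM, mem_image] at hx
      obtain ⟨i, -, rfl⟩ := hx
      exact (c i).2
    · intro x hx
      rw [mem_image] at hx
      obtain ⟨v, hv, rfl⟩ := hx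
      rw [hFA, mem_filter, hW, mem_filter] at hv
      exact (hf v (hCBT hv.1.1)).1
    · intro x hx
      rw [mem_biUnion] at hx
      obtain ⟨v, hv, hx⟩ := hx
      rw [mem_image] at hx
      obtain ⟨u, hu, rfl⟩ := hx
      rw [hFP] at hu
      simp only [mem_filter, n3] at hu
      exact (mem_inter.1 (hg v u hu.1.2)).2
    · intro x hx
      rw [mem_image] at hx
      obtain ⟨v, hv, rfl⟩ := hx
      rw [hLo, mem_filter] at hv
      exact (hf v (hCBT hv.1)).1
  refine ⟨X₁, hXT, ?_, ?_⟩
  · intro v hvC hvB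
    have hv : v ∈ CB := by
      rw [hCB, mem_sdiff]
      exact ⟨hvC, hvB⟩
    have hvT : v ∈ T := hCT hvC
    have hnbv : ∃ w ∈ X₁, G.Adj v w := by
      by_cases hdeg : ((nT G T v).card : ℝ) < t / 2
      · refine ⟨f v, ?_, (hf v hvT).2⟩
        rw [hX]
        refine mem_union_right _ (mem_union_right _ (mem_union_right _ (mem_image_of_mem f ?_)))
        rw [hLo, mem_filter]
        exact ⟨hv, hdeg⟩
      · by_cases hav : ∀ i, (c i : V) ∉ nb G v
        · refine ⟨f v, ?_, (hf v hvT).2⟩
          rw [hX]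
          refine mem_union_right _ (mem_union_left _ (mem_image_of_mem f ?_))
          rw [hFA, mem_filter, hW, mem_filter]
          exact ⟨⟨hv, not_lt.1 hdeg⟩, hav⟩
        · push Not at hav
          obtain ⟨i, hi⟩ := hav
          rw [nb, mem_filter] at hi
          exact ⟨c i, hci i, hi.2⟩
    refine ⟨hnbv, ?_⟩
    intro u huT huB huv hsepc
    by_cases hn : G.Adj v u ∨ ∃ w ∈ T, G.Adj v w ∧ G.Adj w u
    · have hu2 : u ∈ n3 G T B t v := by
        rw [n3, mem_filter, n2, mem_filter]
        exact ⟨⟨huT, huB, huv, hn⟩, hsepc⟩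
      by_cases hav : ∀ i, (c i : V) ∉ sep G v u
      · have hw := mem_inter.1 (hg v u hsepc)
        have hw1 := hw.1
        rw [sep, mem_filter] at hw1
        refine ⟨g v u, ?_, hw1.2.2.1, hw1.2.1, fun h => hw1.2.2.2 h.symm⟩
        rw [hX]
        refine mem_union_right _ (mem_union_right _ (mem_union_left _ ?_))
        rw [mem_biUnion]
        refine ⟨v, hv, mem_image_of_mem (g v) ?_⟩
        rw [hFP]
        simp only [mem_filter]
        exact ⟨hu2, hav⟩
      · push Not at hav
        obtain ⟨i, hi⟩ := hav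
        rw [sep, mem_filter] at hi
        exact ⟨c i, hci i, hi.2.2.1, hi.2.1, fun h => hi.2.2.2 h.symm⟩
    · push Not at hn
      obtain ⟨w, hw, hvw⟩ := hnbv
      refine ⟨w, hw, ?_, ?_, ?_⟩
      · rintro rfl
        exact hn.1 hvw
      · rintro rfl
        exact G.loopless.irrefl _ hvw
      · intro h
        exact hn.2 w (hXT hw) hvw (h.2 hvw.symm)
  · have h2 : IM.card ≤ s := by
      refine card_image_le.trans ?_
      rw [card_univ, Fintype.card_fin]
    have h3 : (CB.biUnion fun v => (FP v).image (g v)).card ≤ ∑ v ∈ CB, (FP v).card :=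
      card_biUnion_le.trans (sum_le_sum fun v _ => card_image_le)
    have h4 : X₁.card ≤ s + (FA.card + (∑ v ∈ CB, (FP v).card + Lo.card)) := by
      rw [hX]
      refine (card_union_le _ _).trans (Nat.add_le_add h2 ?_)
      refine (card_union_le _ _).trans (Nat.add_le_add card_image_le ?_)
      refine (card_union_le _ _).trans (Nat.add_le_add h3 card_image_le)
    have h5 : (X₁.card : ℝ) ≤ s + (FA.card + (∑ v ∈ CB, ((FP v).card : ℝ) + Lo.card)) := by
      exact_mod_cast h4
    have h6 : Lo = C.filter fun v => v ∉ B ∧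
        ((T.filter fun w => G.Adj v w).card : ℝ) < t / 2 := by
      ext v
      rw [hLo, hCB, mem_filter, mem_sdiff, mem_filter]
      exact and_assoc
    rw [← h6]
    rw [hK] at hc
    linarith

end Pool.Agent.Lib.MP50ecf8.LOC
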