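import Pool.Agent.Lib.MP_50ecf8_co.LOC.Spec9

/-!
# TRZ: transfer of a chain from an induced subgraph
-/

set_option autoImplicit false

open Finset
open scoped Classical

namespace Pool.Agent.Lib.MP50ecf8.LOC

namespace TRZM

lemma mem_tc {U : Type} [Fintype U] (G : SimpleGraph U) (Y : Finset U) (v u : U) :
    u ∈ tc G Y v ↔ u ∉ Y ∧ ∀ w ∈ Y, (G.Adj w u ↔ G.Adj w v) := by
  unfold tc
  rw [Finset.mem_filter]
  exact ⟨fun h => h.2, fun h => ⟨Finset.mem_univ _, h⟩⟩

lemma img_insert {α β : Type} (f : α → β) (x : α) (s : Finset α) :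
    (insert x s).image f = insert (f x) (s.image f) := Finset.image_insert _ _ _

lemma img_sdiff_card {α β : Type} (f : α → β) (hf : Function.Injective f) (s t : Finset α) :
    (s.image f \ t.image f).card = (s \ t).card := by
  rw [← Finset.image_sdiff _ _ hf, Finset.card_image_of_injective _ hf]

variable {V : Type} [Fintype V] (G : SimpleGraph V) (A : Finset V) [Fintype ((A : Set V) : Type)]

lemma tc_image (Y : Finset ((A : Set V) : Type)) (z : ((A : Set V) : Type)) :
    (tc (G.induce (A : Set V)) Y z).image Subtype.val = tc G (Y.image Subtype.val) z.val ∩ A := by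
  ext u
  rw [Finset.mem_image, Finset.mem_inter, mem_tc]
  constructor
  · rintro ⟨a, ha, rfl⟩
    obtain ⟨ha1, ha2⟩ := (mem_tc _ _ _ _).1 ha
    refine ⟨⟨?_, ?_⟩, a.2⟩
    · intro h
      obtain ⟨b, hb, hba⟩ := Finset.mem_image.1 h
      exact ha1 (Subtype.val_injective hba ▸ hb)
    · intro w hw
      obtain ⟨b, hb, rfl⟩ := Finset.mem_image.1 hw
      exact ha2 b hb
  · rintro ⟨⟨h1, h2⟩, hu⟩
    refine ⟨⟨u, hu⟩, (mem_tc _ _ _ _).2 ⟨?_, ?_⟩, rfl⟩
    · intro h
      exact h1 (Finset.mem_image.2 ⟨_, h, rfl⟩)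
    · intro w hw
      exact h2 w.val (Finset.mem_image.2 ⟨w, hw, rfl⟩)

lemma tc_card (Y : Finset ((A : Set V) : Type)) (z : ((A : Set V) : Type)) :
    (tc G (Y.image Subtype.val) z.val ∩ A).card = (tc (G.induce (A : Set V)) Y z).card := by
  rw [← tc_image, Finset.card_image_of_injective _ Subtype.val_injective]

lemma sq_sqa {n : ℕ} {Y₀ Y : Finset ((A : Set V) : Type)} {j : ℕ}
    (h : SQ (G.induce (A : Set V)) n Y₀ Y j) :
    SQA G A n (Y₀.image Subtype.val) (Y.image Subtype.val) j := by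
  induction h with
  | base => exact SQA.base
  | @step Y x j _ hx hc ih =>
    rw [img_insert]
    refine SQA.step ih ?_ x.2 ?_
    · intro h
      obtain ⟨b, hb, hbx⟩ := Finset.mem_image.1 h
      exact hx (Subtype.val_injective hbx ▸ hb)
    · rw [tc_card]
      exact hc

lemma card_A : Fintype.card ((A : Set V) : Type) = A.card := by
  rw [← Fintype.card_coe A]
  exact Fintype.card_congr (Equiv.subtypeEquivRight fun x => Finset.mem_coe)

end TRZM

open TRZM in
theorem specTRZ : SpecTRZ := by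
  intro V _ G T A _ Y₀ Y c h
  induction h with
  | base => exact RZ.base
  | @paid Y Z c R n _ hYZ hn hz hcard hR ih =>
    rw [card_A]
    refine RZ.paid ih (Finset.image_subset_image hYZ) ?_ hn ?_ ?_ hR
    · intro v hv
      obtain ⟨b, hb, rfl⟩ := Finset.mem_image.1 (Finset.mem_sdiff.1 hv).1
      exact b.2
    · intro v hv hvY
      obtain ⟨b, hb, rfl⟩ := Finset.mem_image.1 hv
      rw [tc_card]
      exact hz b hb fun h => hvY (Finset.mem_image.2 ⟨b, h, rfl⟩)
    · rw [img_sdiff_card _ Subtype.val_injective]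
      exact hcard
  | @seq Y Z c R n j _ hSQ hn hj hR ih =>
    rw [card_A]
    exact RZ.seq ih (sq_sqa G A hSQ) hn hj hR

end Pool.Agent.Lib.MP50ecf8.LOC
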